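import Pool.Agent.Lib.TWCT.J1S
import Pool.Agent.Lib.TWNI.EndI
import Pool.Agent.Lib.TWNI.MkI

/-!
# TANK W, contact (III.1), row (j = 1): the second floor has a finite shape

* `H0s`: H0 for all critical elements; `H0s.desc`, `mov_h0s`, `J1D.h0s`;
* `pg_of_pdiv`: if the value group is divisible by `p`, every element is null at its own size;
* `arcI_y`: the Hasse derivatives of `C = W⟨y⟩` are an exact arc for every floor `u` over `C`;
* `RowBF`: `RowB` for `u` of finite shape along `y`; `rowB_of_fin`: `RowB` from `RowA` and `RowBF`.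
-/

set_option autoImplicit false

open Polynomial Finset

namespace Pool.Agent.TWCT

open Pool.Agent.H15JM (RVal)
open Pool.Agent.LU1 (VPos adj)
open Pool.Agent.D2 (Ctx0)
open Pool.Agent.D2P (clI)
open Pool.Agent.TW (Ctx Full BD HRone LU)
open Pool.Agent.TWM
open Pool.Agent.TWS (IsoE SphC TowR)
open Pool.Agent.TWS7 (PDiv)
open Pool.Agent.TWII (PG LP)
open Pool.Agent.TWLM (HSd Oi Fbr)
open Pool.Agent.TWN1 (PC Par Unh Gen2)
open Pool.Agent.TWNI (ArcI FinE ResE arcI_mk)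
open Pool.Agent.TWTam

universe u

/-! ### H0 for all critical elements -/

section H0

variable {k Ω : Type u} [Field k] [Field Ω] [Algebra k Ω]

/-- H0, without a condition on the jets of index prime to `p`. -/
def H0s (p : ℕ) (v : RVal Ω) (C : IntermediateField k Ω) (w : Ω) (ρ : ℝ) : Prop :=
  ∀ (f : Polynomial Ω) (ν : ℝ), f ∈ PI C → LP p v (cadj v C w) ν (f.eval w) →
    ∀ l : ℕ, l ≠ 0 → p ∣ l → PG p v (cadj v C w) (ν - l * ρ) ((hasseDeriv l f).eval w)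

variable {p : ℕ} {v : RVal Ω} {C : IntermediateField k Ω} {w : Ω} {ρ : ℝ}

theorem H0s.h0w (h : H0s p v C w ρ) : TWRR.H0w p v C w ρ :=
  fun f ν hf _ hν l hl hpl => h f ν hf hν l hl hpl

section fam

variable [hp : Fact p.Prime] [CharP Ω p] [IsAlgClosed Ω]

/-- H0 for a moving floor over a quiet field. -/
theorem mov_h0s [IsAlgClosed k] (hk : Ctx0 k v) {L : ℕ → IntermediateField k Ω}
    (hL : Monotone L) (hd : C ≤ clI v (⨆ J, L J)) (hw : TL v C w ρ)
    (hmov : MovV v L C w ρ ∨ MovR v L C w ρ) : H0s p v C w ρ := by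
  rcases hmov with h | h
  · exact fun f ν hf hν l hl hpl => (TWRT.fam_of_movV hL hd h).h0 hw hf hν hl hpl
  · obtain ⟨t, ht⟩ := TWRR.famR_of_mov hL hd hw h
    exact fun f ν hf hν l hl hpl => ht.h0' hk hf hν hl hpl

end fam

section tam

variable [hp : Fact p.Prime] [CharP Ω p] {x z : Ω}

theorem H0s.of_tam (hK : TamB p v x (cadj v C z)) (h : H0s p v (tam p v x C) z ρ) :
    H0s p v C z ρ := by
  intro f ν hf hlp l hl hpl
  have hzK : z ∈ cadj v C z := self_mem_cadj v C z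
  have hfK : f ∈ PI (cadj v C z) := TWRR.pi_mono (le_cadj v C z) hf
  have h1 := h f ν (TWRR.pi_mono (le_tam C) hf) (by
    rw [← tam_cadj]
    exact TWRR.lp_mono_field (le_tam _) hlp) l hl hpl
  rw [← tam_cadj] at h1
  exact hK.self.pg hK (TWRR.eval_mem_of_PI (TWLM.hasseDeriv_mem_PI hfK l) hzK) h1

end tam

section map

variable {H : Type u} [Field H] [Algebra k H] {w' : RVal H} {ι : Ω →ₐ[k] H} {z x : Ω}
  (hI : IsoE v w' ι) (hcv : CompleteV v)

include hI hcv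

theorem H0s.of_map (h : H0s p w' (C.map ι) (ι z) ρ) : H0s p v C z ρ := by
  intro f ν hf hlp l hl hpl
  have h1 := h (f.map ι.toRingHom) ν (map_mem_PI hf) (by
    rw [eval_map_ι, hI.cadj_map hcv, lp_iff' hI]
    exact hlp) l hl hpl
  rwa [TWRR.hasse_map, eval_map_ι, hI.cadj_map hcv, pg_iff' hI] at h1

/-- **Descent of H0** from the tame closure in the big field. -/
theorem H0s.desc [hp : Fact p.Prime] [CharP Ω p] [CharP k p] [IsAlgClosed Ω] [IsAlgClosed k]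
    (hk : Ctx0 k v) (hx0 : x ≠ 0) (hx : x ∈ C)
    (h : H0s p w' ((tam p v x C).map ι) (ι z) ρ) : H0s p v C z ρ :=
  (h.of_map hI hcv).of_tam (TWRR.tamB_cadj hcv hk hx0 hx)

end map

end H0

section J1

variable {k Ω H : Type u} [Field k] [Field Ω] [Algebra k Ω] [Field H] [Algebra k H]
  {p : ℕ} {v : RVal Ω} {w : RVal H} {ι : Ω →ₐ[k] H} {x : Ω} {W₀ K₀ : IntermediateField k Ω}
  {al : Ω} [hp : Fact p.Prime] [CharP Ω p] [CharP H p] [CharP k p] [IsAlgClosed k] [IsAlgClosed Ω]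
  [IsAlgClosed H] {ν : ℝ}

/-- **H0 for the first floors**, for all critical elements. -/
theorem J1D.h0s (h : J1D p v w ι x W₀ K₀ al ν) {y : Ω} {s : ℝ} (hy : TL v (clI v W₀) y s)
    (hT : TowR v 2 (cadj v (clI v W₀) y) (clI v K₀)) : H0s p v (clI v W₀) y s := by
  obtain ⟨L, hL, hcon⟩ := h.cs
  have htl : TL w (tH p v ι x (clI v W₀)) (ι y) s := by
    rw [tH, h.iso.tl_iff]
    exact tl_tam h.xW hy
  exact (mov_h0s (p := p) h.c0 hL.mono hL.dense htl (h.mvs hL hcon hy hT)).desc h.iso h.cpl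
    h.ctx.toCtx0 h.x0 h.xW

end J1

/-! ### The arc -/

section Arc

variable {k Ω : Type u} [Field k] [Field Ω] [Algebra k Ω] {p : ℕ} {v : RVal Ω}
  {W : IntermediateField k Ω} {y u : Ω} {r t : ℝ} {T : ℕ → Ω → Ω}

/-- If the value group of `W` is divisible by `p`, every element is null at its own size. -/
theorem pg_of_pdiv [hp : Fact p.Prime] [IsAlgClosed k] (hk : Ctx0 k v) (hd : PDiv p v W) {b : ℝ}
    {x : Ω} (hx : x ∈ W) (hb : v.Ge b x) : PG p v W b x := by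
  by_cases h0 : x = 0
  · rw [h0]
    exact PG.of_gt Gt.zero
  rcases (hb h0).lt_or_eq with hlt | heq
  · exact PG.of_gt fun _ => hlt
  obtain ⟨g, hg, hg0, hvg⟩ := hd x hx h0
  have hgp : g ^ p ≠ 0 := pow_ne_zero _ hg0
  have h1 : v (x / g ^ p) = 0 := by
    rw [RVal.map_div v h0 hgp, RVal.map_pow v hg0, hvg, sub_self]
  obtain ⟨c, hc0, hc⟩ := hk.res (x / g ^ p) (div_ne_zero h0 hgp) h1
  obtain ⟨d, hd⟩ := IsAlgClosed.exists_pow_nat_eq c hp.out.pos
  refine ⟨algebraMap k Ω d * g, mul_mem (W.algebraMap_mem _) hg, ?_⟩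
  have e : x - (algebraMap k Ω d * g) ^ p = (x / g ^ p - algebraMap k Ω c) * g ^ p := by
    rw [mul_pow, ← map_pow, hd, sub_mul, div_mul_cancel₀ _ hgp]
  have h2 : Gt v 0 (x / g ^ p - algebraMap k Ω c) := hc
  have h3 : v.Ge b (g ^ p) := by
    intro _
    rw [RVal.map_pow v hg0, ← hvg, ← heq]
  rw [e]
  exact (h2.mul_ge h3).mono (by linarith)

/-- The value group of `W⟨y⟩`. -/
theorem pdiv_cadj [IsAlgClosed Ω] (hd : PDiv p v W) (hy : TL v W y r) :
    PDiv p v (cadj v W y) := by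
  intro f hf hf0
  obtain ⟨a, ha, h1⟩ := hy.imm.imm f hf hf0
  obtain ⟨h2, h3⟩ := Gt.val_eq hf0 h1
  obtain ⟨g, hg, hg0, h4⟩ := hd a ha h2
  exact ⟨g, le_cadj v W y hg, hg0, by rw [← h3, h4]⟩

/-- The Hasse derivatives of `W⟨y⟩`. -/
structure HsY (v : RVal Ω) (W : IntermediateField k Ω) (y : Ω) (r : ℝ) (T : ℕ → Ω → Ω) : Prop where
  fbr : Fbr v (cadj v W y) r T
  pol : ∀ j : ℕ, ∀ f ∈ PI W, T j (f.eval y) = (hasseDeriv j f).eval y
  itr : ∀ i j : ℕ, ∀ x ∈ cadj v W y, T i (T j x) = ((i + j).choose i : Ω) * T (i + j) x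
  apx : ∀ j : ℕ, ∀ x ∈ cadj v W y, ∀ b : ℝ, ∃ f ∈ PI W, v.Ge b (x - f.eval y) ∧
    v.Ge b (T j x - (hasseDeriv j f).eval y)

theorem exists_hsY [IsAlgClosed Ω] (hΩ : CompleteV v) (hy : TL v W y r) :
    ∃ T : ℕ → Ω → Ω, HsY v W y r T := by
  obtain ⟨T, h1, h2, h3, h4⟩ := TWLM.exists_fbr hΩ hy
  exact ⟨T, h1, h2, h3, h4⟩

/-- **The arc**: the Hasse derivatives of `W⟨y⟩`. -/
theorem HsY.arcI [hp : Fact p.Prime] [CharP Ω p] [IsAlgClosed Ω] [IsAlgClosed k]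
    (hT : HsY v W y r T) (hk : Ctx0 k v) (hd : PDiv p v W) (hy : TL v W y r)
    (h0 : H0s p v W y r) (hu : TL v (cadj v W y) u t) :
    ArcI p v (cadj v W y) T u t r := by
  refine arcI_mk hT.fbr.toHSd hT.fbr.oi hu (fun n x hx b hb => hT.fbr.norm n hx hb)
    (fun n hn x hx b hb => hT.fbr.str n hn x hx b hb) fun n hn c x hx hl => ?_
  by_cases hpn : p ∣ n
  · obtain ⟨f, hf, h1, h2⟩ := hT.apx n x hx (max (c + 1) (c - n * r + 1))
    have h3 : LP p v (cadj v W y) c (f.eval y) := by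
      have h4 := hl.sub (LP.of_pg (PG.of_gt (p := p) (F := cadj v W y) (c := c)
        (Gt.of_ge (h1.mono (le_max_left _ _)) (by linarith))))
      rwa [sub_sub_cancel] at h4
    have h4 := h0 f c hf h3 n hn hpn
    have e : T n x = (hasseDeriv n f).eval y + (T n x - (hasseDeriv n f).eval y) := by ring
    rw [e]
    exact h4.add (PG.of_gt (Gt.of_ge (h2.mono (le_max_right _ _)) (by linarith)))
  · have h1 : v.Ge (c - n * r) (T n x) := by
      intro hx0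
      refine le_of_forall_pos_le_add fun ε hε => ?_
      obtain ⟨g, hg, h2⟩ := hl ε hε
      have hgp : g ^ p ∈ cadj v W y := pow_mem hg _
      have h3 := hT.fbr.norm n (sub_mem hx hgp) h2
      rw [hT.fbr.toHSd.sub n hx hgp, TWN1.phi_pow hT.fbr.toHSd hg n, if_neg hpn, sub_zero] at h3
      linarith [h3 hx0]
    exact pg_of_pdiv hk (pdiv_cadj hd hy) (hT.fbr.mem n x hx) h1

end Arc

/-! ### The row -/

section Row

variable {k Ω H : Type u} [Field k] [Field Ω] [Algebra k Ω] [Field H] [Algebra k H]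
  {p : ℕ} {v : RVal Ω} {w : RVal H} {ι : Ω →ₐ[k] H} {x : Ω} {W₀ K₀ : IntermediateField k Ω}
  {al : Ω}

/-- **Row (j = 1, B), the second floor has finite shape along the first one.** -/
def RowBF (p : ℕ) (v : RVal Ω) (w : RVal H) (ι : Ω →ₐ[k] H) (x : Ω)
    (W₀ K₀ : IntermediateField k Ω) (al : Ω) : Prop :=
  ∀ (ν : ℝ) (y u z : Ω) (r t s : ℝ) (T : ℕ → Ω → Ω), J1D p v w ι x W₀ K₀ al ν →
    TL v (clI v W₀) y r → HsY v (clI v W₀) y r T →
    TL v (cadj v (clI v W₀) y) u t → FinE v (cadj v (clI v W₀) y) r t T u →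
    TL v (cadj v (cadj v (clI v W₀) y) u) z s →
    clI v K₀ = cadj v (cadj v (cadj v (clI v W₀) y) u) z →
    (∀ g ∈ cadj v (clI v W₀) y, ¬ Lim v (clI v W₀) t (u - g)) →
    ¬ Hit p v (cadj v (clI v W₀) y) u t → False

variable [hp : Fact p.Prime] [CharP Ω p] [CharP H p] [CharP k p] [IsAlgClosed k] [IsAlgClosed Ω]
  [IsAlgClosed H]

/-- A first and a second floor, from the rows. -/
theorem rowB_step (hA : RowA p v w ι x W₀ K₀ al) {ν : ℝ} {y u z : Ω} {r t s : ℝ}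
    (hJ : J1D p v w ι x W₀ K₀ al ν) (hy : TL v (clI v W₀) y r)
    (hu : TL v (cadj v (clI v W₀) y) u t) (hz : TL v (cadj v (cadj v (clI v W₀) y) u) z s)
    (hK : clI v K₀ = cadj v (cadj v (cadj v (clI v W₀) y) u) z) :
    (∀ g ∈ cadj v (clI v W₀) y, ¬ Lim v (clI v W₀) t (u - g)) ∧
      ¬ Hit p v (cadj v (clI v W₀) y) u t := by
  have hT1 : TowR v 2 (cadj v (clI v W₀) y) (clI v K₀) :=
    TowR.succ hu (TWS.towR_iff_one.2 ⟨z, s, hz, hK⟩)
  refine ⟨fun g hg hg2 => ?_, fun hh => ?_⟩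
  · have e : cadj v (cadj v (clI v W₀) y) (u - g) = cadj v (cadj v (clI v W₀) y) u :=
      cadj_sub_mem hg
    exact hA ν _ y (u - g) z r t s hJ (Par.mk' hy (hu.sub_mem hg) hg2 e.symm) hz hK
  · obtain ⟨h0, hrat⟩ := hJ.h0w_ratH hy hT1
    obtain ⟨g, hg, hP⟩ := exists_par_of_hit hJ.cpl hy h0 hrat hu hh
    exact hA ν _ y (u - g) z r t s hJ hP hz hK

/-- **The second floor has a finite shape.** -/
theorem rowB_of_fin (hA : RowA p v w ι x W₀ K₀ al) (hB : RowBF p v w ι x W₀ K₀ al) :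
    RowB p v w ι x W₀ K₀ al := by
  intro ν y u z r t s hJ hy hu hz hK _ _
  obtain ⟨T, hT⟩ := exists_hsY hJ.cpl hy
  have hT1 : TowR v 2 (cadj v (clI v W₀) y) (clI v K₀) :=
    TowR.succ hu (TWS.towR_iff_one.2 ⟨z, s, hz, hK⟩)
  have hArc := hT.arcI hJ.ctx.toCtx0 hJ.pd hy (hJ.h0s hy hT1) hu
  rcases hArc.resI hJ.cpl hz hK (le_clI _ hJ.mem) hJ.lp with
    ⟨z₁, z₂, r₁, r₂, hG, hun⟩ | ⟨z₁, z₂, r₁, r₂, hG, hfin⟩
  · exact hJ.not_unh hy hG.t1 hG.t2 hG.eq hun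
  · obtain ⟨h1, h2⟩ := rowB_step hA hJ hy hG.t1 hG.t2 hG.eq
    exact hB ν y z₁ z₂ r r₁ r₂ T hJ hy hT hG.t1 hfin hG.t2 hG.eq h1 h2

/-- **The split of the row (j = 1)**, second form. -/
theorem CTD.rowJ1_fin (h : CTD p v w ι x W₀ K₀ al) (hpd : PDiv p v (clI v W₀))
    (hA : RowA p v w ι x W₀ K₀ al) (hB : RowBF p v w ι x W₀ K₀ al) :
    RowJ1 p v w ι x W₀ K₀ al :=
  h.rowJ1_of hpd hA (rowB_of_fin hA hB)

end Row

end Pool.Agent.TWCT
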