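import Pool.Agent.Lib.TWCT.AS1

/-!
# TANK W, contact (III.1), CT.1a: strict Galois motions of an Artin-Schreier tower

`N 0 < N 1 < ..`, `N (i + 1) = N i (θ_i)`, `θ_i ^ p - θ_i ∈ N i`, `v θ_i = - u_i < 0` is not a value of
`N i`, `nn i = nn (i + 1) + (p - 1) u_i`, `η_i = u_i - nn (i + 1)`.  At a record `i` (`η_n ≤ η_i` for
`n > i`) there is a motion which is the identity on `N i`, moves `θ_i` by an integer, and is strict
with margin `η_i` on the closure of the union.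
-/

set_option autoImplicit false

open Polynomial IntermediateField

namespace Pool.Agent.TWCT

open Pool.Agent.H15JM (RVal)
open Pool.Agent.LU1 (VPos adj)
open Pool.Agent.LUC (Cl)
open Pool.Agent.D2 (Ctx0)
open Pool.Agent.D2P (hen clI mem_clI)
open Pool.Agent.TWM
open Pool.Agent.TWS

universe u

variable {k Ω : Type u} [Field k] [Field Ω] [Algebra k Ω] {v : RVal Ω}

/-- A tower of Artin-Schreier floors with reduced generators. -/
structure ASC (p : ℕ) (v : RVal Ω) (N : ℕ → IntermediateField k Ω) (th : ℕ → Ω)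
    (u nn : ℕ → ℝ) : Prop where
  hen : ∀ i, hen v (N i) = N i
  mem : ∀ i, th i ^ p - th i ∈ N i
  ne : ∀ i, th i ≠ 0
  pos : ∀ i, 0 < u i
  val : ∀ i, v (th i) = -u i
  gam : ∀ i, ∀ a ∈ N i, a ≠ 0 → v a ≠ -u i
  succ : ∀ i, N (i + 1) = adj (N i) (th i)
  nn0 : ∀ i, 0 ≤ nn i
  nns : ∀ i, nn i = nn (i + 1) + ((p : ℝ) - 1) * u i

variable {p : ℕ} {N : ℕ → IntermediateField k Ω} {th : ℕ → Ω} {u nn : ℕ → ℝ}

theorem ASC.le_succ (h : ASC p v N th u nn) (i : ℕ) : N i ≤ N (i + 1) := by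
  rw [h.succ i]
  exact (D2P.mem_adj_self _ _).2

theorem ASC.monotone (h : ASC p v N th u nn) : Monotone N := monotone_nat_of_le_succ h.le_succ

theorem ASC.th_mem (h : ASC p v N th u nn) (i : ℕ) : th i ∈ N (i + 1) := by
  rw [h.succ i]
  exact (D2P.mem_adj_self _ _).1

theorem ASC.th_not_mem (h : ASC p v N th u nn) (i : ℕ) : th i ∉ N i := fun h1 =>
  h.gam i _ h1 (h.ne i) (h.val i)

/-- The chain of partial embeddings. -/
theorem exists_union [IsAlgClosed Ω] (hk : Ctx0 k v) (hw : SphC v)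
    (hval : ∀ ρ : ℝ, ∃ x : Ω, x ≠ 0 ∧ v x = ρ) {L : ℕ → IntermediateField k Ω} (hL : Monotone L)
    {F : ℕ → Ω →ₐ[k] Ω} (hF : ∀ m, IsoE v v (F m)) (hFF : ∀ m, ∀ a ∈ L m, F (m + 1) a = F m a) :
    ∃ Φ : Ω →ₐ[k] Ω, IsoE v v Φ ∧ ∀ m, ∀ a ∈ L m, Φ a = F m a := by
  let σ : ℕ → Lifts k Ω Ω := fun m => ⟨L m, (F m).comp (L m).val⟩
  have hmono : Monotone σ := by
    refine monotone_nat_of_le_succ fun m => ?_
    refine ⟨hL (Nat.le_succ m), fun a => ?_⟩
    exact hFF m a a.2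
  have hch : IsChain (· ≤ ·) (Set.range σ) := hmono.isChain_range
  have hI : IsoL v v (Lifts.union (Set.range σ) hch) := by
    refine IsoL.union hch ⟨σ 0, 0, rfl⟩ ?_
    rintro τ ⟨m, rfl⟩
    intro a ha
    exact (hF m).val a fun h0 => ha (Subtype.ext h0)
  obtain ⟨Φ, h1, h2⟩ := hI.exists_total hk hw hval
  refine ⟨Φ, h1, fun m a ha => ?_⟩
  obtain ⟨h3, h4⟩ := Lifts.le_union (Set.range σ) hch ⟨m, rfl⟩
  have h5 := h2 ⟨a, h3 ha⟩
  have h6 := h4 ⟨a, ha⟩
  exact h5.trans h6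

theorem map_adj_eq {Φ : Ω →ₐ[k] Ω} {A : IntermediateField k Ω} {z : Ω} (hA : A.map Φ = A)
    (hz : Φ z - z ∈ A) : (adj A z).map Φ = adj A z := by
  have h1 : (adj A z).map Φ = adj (A.map Φ) (Φ z) := TWM.Dense.adj_map A z
  rw [h1, hA]
  have hl := (D2P.mem_adj_self A z).2
  have hl' := (D2P.mem_adj_self A (Φ z)).2
  refine le_antisymm (D2P.adj_le hl ?_) (D2P.adj_le hl' ?_)
  · have e : Φ z = z + (Φ z - z) := by ring
    rw [e]
    exact add_mem (D2P.mem_adj_self A z).1 (hl hz)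
  · have e : z = Φ z - (Φ z - z) := by ring
    nth_rw 2 [e]
    exact sub_mem (D2P.mem_adj_self A (Φ z)).1 (hl' hz)

/-- **CT.1a, Lemma 1: the strict Galois motion of a record**, with surjectivity. -/
theorem ASC.exists_motion' [hp : Fact p.Prime] [CharP Ω p] [IsAlgClosed Ω] (hk : Ctx0 k v)
    (hw : SphC v) (hval : ∀ ρ : ℝ, ∃ x : Ω, x ≠ 0 ∧ v x = ρ) (h : ASC p v N th u nn) {i : ℕ}
    (hmax : ∀ n, i < n → u n - nn (n + 1) ≤ u i - nn (i + 1)) (j : ℤ) :
    ∃ Φ : Ω →ₐ[k] Ω, IsoE v v Φ ∧ (∀ a ∈ N i, Φ a = a) ∧ Φ (th i) = th i + j ∧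
      (∀ n, ∀ a ∈ N n, Φ a ∈ N n) ∧
      (∀ n, i < n → StrM v Φ (N n) (nn n + (u i - nn (i + 1)))) ∧
      StrM v Φ (clI v (⨆ n, N n)) (u i - nn (i + 1)) ∧ ∀ n, (N n).map Φ = N n := by
  obtain ⟨G, hG, hGM, hGθ⟩ := exists_as_conj p hk hw hval (h.hen i) (h.mem i) rfl
    (h.th_not_mem i) j
  set η : ℝ := u i - nn (i + 1) with hη
  let P : ℕ → (Ω →ₐ[k] Ω) → Prop := fun m F => IsoE v v F ∧ (∀ a ∈ N (i + 1 + m), F a ∈ N (i + 1 + m)) ∧
    StrM v F (N (i + 1 + m)) (nn (i + 1 + m) + η)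
  have hstep : ∀ m F, P m F → ∃ F' : Ω →ₐ[k] Ω, P (m + 1) F' ∧
      (∀ a ∈ N (i + 1 + m), F' a = F a) ∧ F' (th (i + 1 + m)) - th (i + 1 + m) ∈ N (i + 1 + m) := by
    intro m F hF
    obtain ⟨h1, h2, h3⟩ := hF
    have e1 : nn (i + 1 + m) + η =
        p * u (i + 1 + m) + (η - (u (i + 1 + m) - nn (i + 1 + m + 1))) := by
      rw [h.nns (i + 1 + m)]
      ring
    rw [e1] at h3
    obtain ⟨F', h4, h5, h8, -, h6, h7⟩ := as_step hk hw hval (h.hen _) (h.mem _) rfl (h.ne _)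
      (h.pos _) (h.val _) (h.gam _) h1 h2 (sub_nonneg.2 (hmax _ (by omega))) h3
    refine ⟨F', ⟨h4, ?_, ?_⟩, h5, h8⟩
    · rw [← h.succ] at h7
      exact h7
    · rw [← h.succ] at h6
      refine h6.mono (le_of_eq ?_)
      change nn (i + 1 + m + 1) + η = _
      ring
  have hP0 : P 0 G := by
    refine ⟨hG, ?_, ?_⟩
    · intro a ha
      change a ∈ N (i + 1) at ha
      change G a ∈ N (i + 1)
      have h5 : N (i + 1) ≤ (N (i + 1)).comap G := by
        have h6 : adj (N i) (th i) ≤ (N (i + 1)).comap G := by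
          refine D2P.adj_le (fun c hc => ?_) ?_
          · change G c ∈ N (i + 1)
            rw [hGM c hc]
            exact h.le_succ i hc
          · change G (th i) ∈ N (i + 1)
            rw [hGθ]
            exact add_mem (h.th_mem i) (intCast_mem _ _)
        rwa [← h.succ] at h6
      exact h5 ha
    · change StrM v G (N (i + 1)) (nn (i + 1) + η)
      rw [h.succ i]
      have h6 := as_strM (h.mem i) rfl (h.ne i) (h.pos i) (h.val i) (h.gam i) hG (d := u i + 0)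
        (e := 0) (StrM.of_fix hGM) (by
          rw [hGθ, add_sub_cancel_left]
          exact val_int_ge hk j) le_rfl
      refine h6.mono (le_of_eq ?_)
      rw [hη]
      ring
  choose! g hgP hgE hgT using hstep
  let F : ℕ → (Ω →ₐ[k] Ω) := fun m => Nat.rec G (fun m F => g m F) m
  have hFP : ∀ m, P m (F m) := by
    intro m
    induction m with
    | zero => exact hP0
    | succ m ih => exact hgP m _ ih
  obtain ⟨Φ, h1, h2⟩ := exists_union hk hw hval (L := fun m => N (i + 1 + m))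
    (fun a b hab => h.monotone (by omega)) (F := F) (fun m => (hFP m).1)
    (fun m a ha => hgE m (F m) (hFP m) a ha)
  have h3 : ∀ a ∈ N i, Φ a = a := fun a ha => by
    rw [h2 0 a (h.le_succ i ha)]
    exact hGM a ha
  have h4 : ∀ m, ∀ a ∈ N (i + 1 + m), Φ a ∈ N (i + 1 + m) := fun m a ha => by
    rw [h2 m a ha]
    exact (hFP m).2.1 a ha
  have h5 : ∀ m, StrM v Φ (N (i + 1 + m)) (nn (i + 1 + m) + η) := fun m a ha => by
    rw [h2 m a ha]
    exact (hFP m).2.2 a ha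
  have hmap : ∀ n, (N n).map Φ = N n := by
    have hid : ∀ n, n ≤ i → (N n).map Φ = N n := by
      intro n hn
      refine le_antisymm ?_ fun a ha => ⟨a, ha, h3 a (h.monotone hn ha)⟩
      rintro _ ⟨a, ha, rfl⟩
      change Φ a ∈ N n
      rw [h3 a (h.monotone hn ha)]
      exact ha
    intro n
    induction n with
    | zero => exact hid 0 (Nat.zero_le i)
    | succ n ih =>
      rw [h.succ n]
      refine map_adj_eq ih ?_
      rcases Nat.lt_trichotomy n i with hn | hn | hn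
      · rw [h3 _ (h.monotone (Nat.succ_le_of_lt hn) (h.th_mem n)), sub_self]
        exact zero_mem _
      · subst hn
        rw [h2 0 _ (h.th_mem n)]
        change G (th n) - th n ∈ N n
        rw [hGθ, add_sub_cancel_left]
        exact intCast_mem _ _
      · obtain ⟨m, rfl⟩ := Nat.exists_eq_add_of_le (Nat.succ_le_of_lt hn)
        rw [h2 (m + 1) _ (h.th_mem (i + 1 + m))]
        exact hgT m (F m) (hFP m)
  refine ⟨Φ, h1, h3, ?_, ?_, ?_, ?_, hmap⟩
  · rw [h2 0 _ (h.th_mem i)]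
    exact hGθ
  · intro n a ha
    rcases Nat.lt_or_ge i n with hin | hin
    · obtain ⟨m, rfl⟩ := Nat.exists_eq_add_of_le (Nat.succ_le_of_lt hin)
      exact h4 m a ha
    · rw [h3 a (h.monotone hin ha)]
      exact ha
  · intro n hin
    obtain ⟨m, rfl⟩ := Nat.exists_eq_add_of_le (Nat.succ_le_of_lt hin)
    exact h5 m
  · refine StrM.clI h1 fun a ha => ?_
    have hdir : Directed (· ≤ ·) N := h.monotone.directed_le
    have h6 : a ∈ ((⨆ n, N n : IntermediateField k Ω) : Set Ω) := ha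
    rw [IntermediateField.coe_iSup_of_directed hdir, Set.mem_iUnion] at h6
    obtain ⟨n, hn⟩ := h6
    have h7 : a ∈ N (i + 1 + n) := h.monotone (by omega) hn
    exact ((h5 n).mono (by linarith [h.nn0 (i + 1 + n)])) a h7

/-- **CT.1a, Lemma 1: the strict Galois motion of a record.** -/
theorem ASC.exists_motion [hp : Fact p.Prime] [CharP Ω p] [IsAlgClosed Ω] (hk : Ctx0 k v)
    (hw : SphC v) (hval : ∀ ρ : ℝ, ∃ x : Ω, x ≠ 0 ∧ v x = ρ) (h : ASC p v N th u nn) {i : ℕ}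
    (hmax : ∀ n, i < n → u n - nn (n + 1) ≤ u i - nn (i + 1)) (j : ℤ) :
    ∃ Φ : Ω →ₐ[k] Ω, IsoE v v Φ ∧ (∀ a ∈ N i, Φ a = a) ∧ Φ (th i) = th i + j ∧
      (∀ n, ∀ a ∈ N n, Φ a ∈ N n) ∧
      (∀ n, i < n → StrM v Φ (N n) (nn n + (u i - nn (i + 1)))) ∧
      StrM v Φ (clI v (⨆ n, N n)) (u i - nn (i + 1)) := by
  obtain ⟨Φ, h1, h2, h3, h4, h5, h6, -⟩ := h.exists_motion' hk hw hval hmax j
  exact ⟨Φ, h1, h2, h3, h4, h5, h6⟩

end Pool.Agent.TWCT
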