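import Pool.Agent.Lib.TWCT.Tie
import Pool.Agent.Lib.TWCT.AS

/-!
# TANK W, contact (III.1), row C1: strict automorphisms of closed fields

* `SMo v A B Φ η`: `Φ` is an isometric embedding, the identity on `A`, maps `B` onto itself and moves
  its elements by a relative amount of value at least `η > 0`;
* `ConS v L W B`: for every `J` there is such a `Φ` with `A = L J` which moves an element of `W`;
* `MovV`, `MovR`: the displacements of `w` over `B` are visible; have infinitely many residues;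
* `ConS.step`: visible, or infinitely many residues, or `ConS` for `B⟨w⟩`, `w` being fixed;
* `ASC.conS`: Artin-Schreier towers with infinitely many records.
-/

set_option autoImplicit false

open Polynomial Finset IntermediateField

namespace Pool.Agent.TWCT

open Pool.Agent.H15JM (RVal)
open Pool.Agent.LU1 (VPos adj)
open Pool.Agent.LUC (Cl)
open Pool.Agent.D2 (Ctx0)
open Pool.Agent.D2P (hen clI mem_clI)
open Pool.Agent.TWM
open Pool.Agent.TWS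
open Pool.Agent.TWII (PG LP)
open Pool.Agent.TWN1 (PC Col col)

universe u

variable {k Ω : Type u} [Field k] [Field Ω] [Algebra k Ω] {v : RVal Ω}
  {A B W : IntermediateField k Ω} {Φ Ψ : Ω →ₐ[k] Ω} {η : ℝ}

/-- A strict automorphism of `B`, the identity on `A`. -/
structure SMo (v : RVal Ω) (A B : IntermediateField k Ω) (Φ : Ω →ₐ[k] Ω) (η : ℝ) : Prop where
  pos : 0 < η
  iso : IsoE v v Φ
  fix : ∀ a ∈ A, Φ a = a
  map : B.map Φ = B
  str : StrM v Φ B η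

theorem SMo.mem (h : SMo v A B Φ η) {a : Ω} (ha : a ∈ B) : Φ a ∈ B := by
  rw [← h.map]
  exact ⟨a, ha, rfl⟩

theorem SMo.exists_eq (h : SMo v A B Φ η) {a : Ω} (ha : a ∈ B) : ∃ b ∈ B, Φ b = a := by
  rw [← h.map] at ha
  exact ha

theorem SMo.mono (h : SMo v A B Φ η) {A' : IntermediateField k Ω} {η' : ℝ} (hA : A' ≤ A)
    (h0 : 0 < η') (hη : η' ≤ η) : SMo v A' B Φ η' :=
  ⟨h0, h.iso, fun a ha => h.fix a (hA ha), h.map, h.str.mono hη⟩

theorem map_eq_of_eqOn (h : ∀ b ∈ B, Ψ b = Φ b) : B.map Ψ = B.map Φ := by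
  ext x
  constructor
  · rintro ⟨b, hb, rfl⟩
    exact ⟨b, hb, (h b hb).symm⟩
  · rintro ⟨b, hb, rfl⟩
    exact ⟨b, hb, h b hb⟩

theorem SMo.congr (h : SMo v A B Φ η) (hAB : A ≤ B) (hΨ : IsoE v v Ψ) (he : ∀ b ∈ B, Ψ b = Φ b) :
    SMo v A B Ψ η where
  pos := h.pos
  iso := hΨ
  fix a ha := by rw [he a (hAB ha), h.fix a ha]
  map := by rw [map_eq_of_eqOn he, h.map]
  str a ha r hr := by
    rw [he a ha]
    exact h.str a ha r hr

/-- The inverse on `B`. -/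
theorem exists_inv [IsAlgClosed Ω] (hk : Ctx0 k v) (hw : SphC v)
    (hval : ∀ ρ : ℝ, ∃ x : Ω, x ≠ 0 ∧ v x = ρ) (hΦ : IsoE v v Φ) (hB : B.map Φ = B) :
    ∃ Θ : Ω →ₐ[k] Ω, IsoE v v Θ ∧ (∀ a ∈ B, Θ (Φ a) = a) ∧ (∀ a ∈ B, Φ (Θ a) = a) ∧
      B.map Θ = B := by
  let e : B ≃ₐ[k] B.map Φ := IntermediateField.equivMap B Φ
  let f : B →ₐ[k] Ω := (B.val.comp e.symm.toAlgHom).comp (IntermediateField.inclusion hB.ge)
  have hf : ∀ a : B, Φ (f a) = a := fun a => by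
    have h1 : e (e.symm (IntermediateField.inclusion hB.ge a)) =
        IntermediateField.inclusion hB.ge a := e.apply_symm_apply _
    exact congrArg Subtype.val h1
  have hfB : ∀ a : B, f a ∈ B := fun a => (e.symm (IntermediateField.inclusion hB.ge a)).2
  have hσ : IsoL v v (⟨B, f⟩ : Lifts k Ω Ω) := by
    intro a ha
    have h2 : f a ≠ 0 := fun h0 => ha (Subtype.ext (by
      have h3 := hf a
      rw [h0, map_zero] at h3
      exact h3.symm))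
    have h3 := hΦ.val (f a) h2
    rw [hf a] at h3
    exact h3.symm
  obtain ⟨Θ, h1, h2⟩ := hσ.exists_total hk hw hval
  have h2' : ∀ a (ha : a ∈ B), Θ a = f ⟨a, ha⟩ := fun a ha => h2 ⟨a, ha⟩
  have h3 : ∀ a ∈ B, Φ (Θ a) = a := fun a ha => by rw [h2' a ha, hf]
  have h4 : ∀ a ∈ B, Θ a ∈ B := fun a ha => by rw [h2' a ha]; exact hfB _
  have h5 : ∀ a ∈ B, Θ (Φ a) = a := fun a ha => by
    have h6 : Φ a ∈ B := by rw [← hB]; exact ⟨a, ha, rfl⟩
    exact Φ.toRingHom.injective (h3 _ h6)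
  refine ⟨Θ, h1, h5, h3, le_antisymm ?_ fun a ha => ?_⟩
  · rintro _ ⟨a, ha, rfl⟩
    exact h4 a ha
  · refine ⟨Φ a, ?_, h5 a ha⟩
    rw [← hB]
    exact ⟨a, ha, rfl⟩

/-! ### The extension to a floor -/

section Ext

variable {w : Ω} {s : ℝ}

theorem cadj_map_eq (hcv : CompleteV v) (hΦ : IsoE v v Φ) (hB : B.map Φ = B) {ω : Ω}
    (hω : ω ∈ B) (hw : Φ w = w + ω) : (cadj v B w).map Φ = cadj v B w := by
  rw [← hΦ.cadj_map hcv, hB, hw]
  have h1 := cadj_sub_mem (v := v) (z := w) (neg_mem hω)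
  rwa [sub_neg_eq_add] at h1

/-- **The extension of a strict automorphism to a floor**, with a prescribed displacement near to
the natural one. -/
theorem SMo.ext [IsAlgClosed Ω] (hk : Ctx0 k v) (hsp : SphC v)
    (hval : ∀ ρ : ℝ, ∃ x : Ω, x ≠ 0 ∧ v x = ρ) (hcv : CompleteV v) (hAB : A ≤ B)
    (h : SMo v A B Φ η) (hw : TL v B w s) {c ω : Ω} (hc : c ∈ B) (hcw : v.Ge (s - η / 2) (w - c))
    (hω : ω ∈ B) (hg : Gt v s (ω - (Φ c - c))) :
    ∃ (Φ' : Ω →ₐ[k] Ω) (η' : ℝ), η' ≤ η ∧ SMo v A B Φ' η' ∧ SMo v A (cadj v B w) Φ' η' ∧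
      (∀ b ∈ B, Φ' b = Φ b) ∧ Φ' w = w + ω := by
  obtain ⟨μ, hμ, h1⟩ := TWLM.exists_ge_of_gt hg
  set d := min η (2 * μ) with hd'
  have hd0 : 0 < d := lt_min h.pos (by linarith)
  obtain ⟨c', hc'F, hc'⟩ := hw.lim (d / 2) (half_pos hd0)
  have h2 := nat_near h.str hc hc'F hcw (hc'.mono (by linarith [min_le_left η (2 * μ)]))
  obtain ⟨Φ', h3, h4, h5, h6, h7⟩ := StrM.exists_tl hk hsp hval h.iso
    (h.str.mono (min_le_left η (2 * μ))) hd0 hw hc'F hc' (ω := ω) (by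
      have e : ω - (Φ c' - c') = (ω - (Φ c - c)) + ((Φ c - c) - (Φ c' - c')) := by ring
      rw [e]
      exact (h1.mono (by linarith [min_le_right η (2 * μ)])).add
        (h2.mono (by linarith [min_le_left η (2 * μ)])))
  have h8 : d / 2 ≤ η := by linarith [min_le_left η (2 * μ), h.pos]
  have h9 := (h.congr hAB h3 h4).mono le_rfl (half_pos hd0) h8
  refine ⟨Φ', d / 2, h8, h9, ⟨half_pos hd0, h3, h9.fix, ?_, h6⟩, h4, h5⟩
  exact cadj_map_eq hcv h3 h9.map hω h5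

end Ext

/-- Two strict automorphisms: `Ψ⁻¹ Φ`. -/
theorem SMo.pair [IsAlgClosed Ω] (hk : Ctx0 k v) (hsp : SphC v)
    (hval : ∀ ρ : ℝ, ∃ x : Ω, x ≠ 0 ∧ v x = ρ) (hAB : A ≤ B) {η' : ℝ} (h : SMo v A B Φ η)
    (h' : SMo v A B Ψ η') : ∃ Θ : Ω →ₐ[k] Ω, SMo v A B Θ (min η η') ∧ ∀ b ∈ B, Ψ (Θ b) = Φ b := by
  obtain ⟨Ξ, h1, h2, h3, h4⟩ := exists_inv hk hsp hval h'.iso h'.map
  have hstr : StrM v Ξ B η' := by
    intro a ha r hr
    have hb : Ξ a ∈ B := by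
      rw [← h4]
      exact ⟨a, ha, rfl⟩
    have e : Ξ a - a = -(Ψ (Ξ a) - Ξ a) := by
      rw [h3 a ha]
      ring
    rw [e]
    exact (h'.str _ hb r (h1.ge_iff.2 hr)).neg
  refine ⟨Ξ.comp Φ, ⟨lt_min h.pos h'.pos, ⟨fun a ha => ?_⟩, fun a ha => ?_, ?_, ?_⟩, fun b hb => ?_⟩
  · rw [AlgHom.comp_apply, h1.val _ (IsoE.ne_zero ha), h.iso.val a ha]
  · have h5 := h2 a (hAB ha)
    rw [h'.fix a ha] at h5
    rw [AlgHom.comp_apply, h.fix a ha, h5]
  · rw [← IntermediateField.map_map, h.map, h4]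
  · exact StrM.comp h1 (hstr.mono (min_le_right _ _)) (h.str.mono (min_le_left _ _))
  · rw [AlgHom.comp_apply]
    exact h3 _ (h.mem hb)

/-! ### Families -/

/-- Strict automorphisms of `B`, arbitrarily close to the identity, which move `W`. -/
def ConS (v : RVal Ω) (L : ℕ → IntermediateField k Ω) (W B : IntermediateField k Ω) : Prop :=
  ∀ J : ℕ, ∃ (Φ : Ω →ₐ[k] Ω) (η : ℝ), SMo v (L J) B Φ η ∧ ∃ x ∈ W, Φ x ≠ x

/-- The displacements of `w` are visible. -/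
def MovV (v : RVal Ω) (L : ℕ → IntermediateField k Ω) (B : IntermediateField k Ω) (w : Ω)
    (s : ℝ) : Prop :=
  ∀ (J : ℕ) (ε : ℝ), 0 < ε → ∃ (Φ : Ω →ₐ[k] Ω) (η : ℝ) (Z : Ω), SMo v (L J) B Φ η ∧
    SMo v (L J) (cadj v B w) Φ η ∧ Φ w = w + Z ∧ Z ∈ B ∧ Z ≠ 0 ∧ s - ε < v Z ∧ v Z < s

/-- The displacements of `w` have infinitely many residues. -/
def MovR (v : RVal Ω) (L : ℕ → IntermediateField k Ω) (B : IntermediateField k Ω) (w : Ω)
    (s : ℝ) : Prop :=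
  ∃ t ∈ B, t ≠ 0 ∧ v t = s ∧ ∀ (J : ℕ) (R : Finset k), ∃ (Φ : Ω →ₐ[k] Ω) (η : ℝ) (c : k),
    c ∉ R ∧ SMo v (L J) B Φ η ∧ SMo v (L J) (cadj v B w) Φ η ∧ Φ w = w + algebraMap k Ω c * t

section Step

variable {L : ℕ → IntermediateField k Ω} {w : Ω} {s : ℝ}

theorem exists_near_level (hL : Monotone L) (hd : B ≤ clI v (⨆ J, L J)) (hw : TL v B w s) {ε : ℝ}
    (hε : 0 < ε) : ∃ J, ∃ c ∈ L J, v.Ge (s - ε) (w - c) := by
  obtain ⟨c, hc, h1⟩ := hw.lim ε hε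
  obtain ⟨x₀, h2, h3⟩ := (mem_clI.1 (hd hc)) (s - ε)
  have h2' : x₀ ∈ ((⨆ n, L n : IntermediateField k Ω) : Set Ω) := h2
  rw [IntermediateField.coe_iSup_of_directed hL.directed_le, Set.mem_iUnion] at h2'
  obtain ⟨J, h4⟩ := h2'
  refine ⟨J, x₀, h4, ?_⟩
  have e : w - x₀ = (w - c) + (c - x₀) := by ring
  rw [e]
  exact h1.add (show v.Ge (s - ε) (c - x₀) from h3)

/-- The displacement is small for a motion which is the identity on a large field. -/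
theorem SMo.disp_ge (hAB : A ≤ B) (h : SMo v A B Φ η) {c c₀ : Ω} (hc : c ∈ B) {ε : ℝ}
    (hcw : v.Ge (s - η / 2) (w - c)) (hc₀ : c₀ ∈ A) (h0 : v.Ge (s - ε) (w - c₀)) (hε : 0 < ε) :
    v.Ge (s - ε) (Φ c - c) := by
  have e : Φ c - c = Φ (c - c₀) - (c - c₀) := by
    rw [map_sub, h.fix c₀ hc₀]
    ring
  have h1 : v.Ge (min (s - η / 2) (s - ε)) (c - c₀) := by
    have e2 : c - c₀ = (w - c₀) - (w - c) := by ring
    rw [e2]
    exact (h0.mono (min_le_right _ _)).sub (hcw.mono (min_le_left _ _))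
  rw [e]
  refine (h.str _ (sub_mem hc (hAB hc₀)) _ h1).mono ?_
  have := h.pos
  rcases min_choice (s - η / 2) (s - ε) with h2 | h2 <;> rw [h2] <;> linarith

/-- **The pigeonhole.** -/
theorem ConS.pigeon [IsAlgClosed Ω] (hk : Ctx0 k v) (hsp : SphC v)
    (hval : ∀ ρ : ℝ, ∃ x : Ω, x ≠ 0 ∧ v x = ρ) (hL : Monotone L) (hLB : ∀ J, L J ≤ B)
    (hd : B ≤ clI v (⨆ J, L J)) (hWB : W ≤ B) (h : ConS v L W B) (hw : TL v B w s) (t : Ω)
    (R : Finset k) : ∀ J₀ : ℕ,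
    (∀ (Φ : Ω →ₐ[k] Ω) (η : ℝ), SMo v (L J₀) B Φ η → ∃ r ∈ R, ∃ c ∈ B,
      v.Ge (s - η / 2) (w - c) ∧ Gt v s (algebraMap k Ω r * t - (Φ c - c))) →
    ∀ J, J₀ ≤ J → ∃ (Θ : Ω →ₐ[k] Ω) (η : ℝ), SMo v (L J) B Θ η ∧ (∃ x ∈ W, Θ x ≠ x) ∧
      ∃ c ∈ B, v.Ge (s - η / 2) (w - c) ∧ Gt v s (0 - (Θ c - c)) := by
  classical
  induction R using Finset.strongInduction with
  | H R ih =>
    intro J₀ hR J hJ
    obtain ⟨Φ, η, hΦ, x, hx, hne⟩ := h J
    obtain ⟨r, hr, c, hc, hcw, hcr⟩ := hR Φ η (hΦ.mono (hL hJ) hΦ.pos le_rfl)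
    obtain ⟨J₁, hJ₁⟩ := exists_level hL hd {x} (fun y hy => by
      rw [mem_singleton.1 hy]
      exact hWB hx) (v (Φ x - x) + 1)
    by_cases hex : ∃ (Ψ : Ω →ₐ[k] Ω) (η' : ℝ), SMo v (L (max J J₁)) B Ψ η' ∧ ∃ c ∈ B,
        v.Ge (s - η' / 2) (w - c) ∧ Gt v s (algebraMap k Ω r * t - (Ψ c - c))
    · obtain ⟨Ψ, η', hΨ, c', hc', hcw', hcr'⟩ := hex
      obtain ⟨Θ, hΘ, hΨΘ⟩ := hΦ.pair hk hsp hval (hLB J) (hΨ.mono (hL (le_max_left J J₁)) hΨ.pos le_rfl)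
      have hm1 := min_le_left η η'
      have hm2 := min_le_right η η'
      refine ⟨Θ, min η η', hΘ, ⟨x, hx, fun h0 => ?_⟩, ?_⟩
      · have h1 := hΨΘ x (hWB hx)
        rw [h0] at h1
        have h2 := hJ₁ _ (le_max_right J J₁) Ψ hΨ.iso hΨ.fix x (mem_singleton_self x)
        rw [h1] at h2
        have := h2 (sub_ne_zero.2 hne)
        linarith
      · obtain ⟨c₂, hc₂, h2⟩ := hw.lim (min η η' / 2) (half_pos hΘ.pos)
        refine ⟨c₂, hc₂, h2, ?_⟩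
        have h3 := nat_near hΦ.str hc hc₂ hcw (h2.mono (by linarith))
        have h4 := nat_near hΨ.str hc' hc₂ hcw' (h2.mono (by linarith))
        have h5 : Gt v s ((Φ c₂ - c₂) - (Ψ c₂ - c₂)) := by
          have e : (Φ c₂ - c₂) - (Ψ c₂ - c₂) =
              ((algebraMap k Ω r * t - (Ψ c' - c')) + ((Ψ c' - c') - (Ψ c₂ - c₂))) -
              ((algebraMap k Ω r * t - (Φ c - c)) + ((Φ c - c) - (Φ c₂ - c₂))) := by ring
          rw [e]
          exact (hcr'.add (fun h0 => lt_of_lt_of_le (by linarith [hΨ.pos]) (h4 h0))).sub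
            (hcr.add (fun h0 => lt_of_lt_of_le (by linarith [hΦ.pos]) (h3 h0)))
        have e : (Φ c₂ - c₂) - (Ψ c₂ - c₂) = Ψ (Θ c₂ - c₂) := by
          rw [map_sub, hΨΘ c₂ hc₂]
          ring
        rw [e, hΨ.iso.gt_iff] at h5
        rw [zero_sub]
        exact h5.neg
    · have hlt : R.erase r ⊂ R := erase_ssubset hr
      have h1 := ih _ hlt (max J J₁) (fun Ψ η' hΨ => by
        obtain ⟨r', hr', c', hc'⟩ := hR Ψ η' (hΨ.mono (hL (hJ.trans (le_max_left _ _))) hΨ.pos le_rfl)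
        refine ⟨r', mem_erase.2 ⟨fun h2 => hex ⟨Ψ, η', hΨ, c', ?_⟩, hr'⟩, c', hc'⟩
        rw [← h2]
        exact hc') (max J J₁) le_rfl
      obtain ⟨Θ, η', h2, h3, h4⟩ := h1
      exact ⟨Θ, η', h2.mono (hL (le_max_left _ _)) h2.pos le_rfl, h3, h4⟩

/-- **The trichotomy**: visible displacements, infinitely many residues, or a family which fixes
`w`. -/
theorem ConS.step [IsAlgClosed Ω] (hk : Ctx0 k v) (hsp : SphC v)
    (hval : ∀ ρ : ℝ, ∃ x : Ω, x ≠ 0 ∧ v x = ρ) (hcv : CompleteV v) (hL : Monotone L)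
    (hLB : ∀ J, L J ≤ B) (hd : B ≤ clI v (⨆ J, L J)) (hWB : W ≤ B) (h : ConS v L W B)
    (hw : TL v B w s) :
    MovV v L B w s ∨ MovR v L B w s ∨ ConS v (fun J => cadj v (L J) w) W (cadj v B w) := by
  classical
  by_cases hV : MovV v L B w s
  · exact Or.inl hV
  by_cases hRR : MovR v L B w s
  · exact Or.inr (Or.inl hRR)
  refine Or.inr (Or.inr ?_)
  have hV' : ∃ (J : ℕ) (ε : ℝ), 0 < ε ∧ ∀ (Φ : Ω →ₐ[k] Ω) (η : ℝ) (Z : Ω), SMo v (L J) B Φ η →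
      SMo v (L J) (cadj v B w) Φ η → Φ w = w + Z → Z ∈ B → Z ≠ 0 → s - ε < v Z → ¬ v Z < s := by
    by_contra hno
    push Not at hno
    apply hV
    intro J ε hε
    obtain ⟨Φ, η, Z, h1, h2, h3, h4, h5, h6, h7⟩ := hno J ε hε
    exact ⟨Φ, η, Z, h1, h2, h3, h4, h5, h6, h7⟩
  obtain ⟨J₀, ε, hε, hV'⟩ := hV'
  obtain ⟨J₁', c₀, hc₀, h0⟩ := exists_near_level hL hd hw (half_pos hε)
  set J₁ := max J₀ J₁' with hJ₁
  have hns : ∀ (Φ : Ω →ₐ[k] Ω) (η : ℝ), SMo v (L J₁) B Φ η → ∀ c ∈ B, v.Ge (s - η / 2) (w - c) →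
      v.Ge s (Φ c - c) := by
    intro Φ η hΦ c hc hcw
    by_contra hno
    have hZ0 : Φ c - c ≠ 0 := fun h1 => hno (by rw [h1]; exact RVal.Ge.zero)
    have hZs : v (Φ c - c) < s := by
      by_contra h1
      exact hno (RVal.Ge.of_le (not_lt.1 h1))
    have hge := hΦ.disp_ge (hLB J₁) hc hcw (hL (le_max_right J₀ J₁') hc₀) h0 (half_pos hε) hZ0
    obtain ⟨Φ', η', -, h1, h2, -, h3⟩ := hΦ.ext hk hsp hval hcv (hLB J₁) hw hc hcw
      (sub_mem (hΦ.mem hc) hc) (by rw [sub_self]; exact Gt.zero)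
    exact hV' Φ' η' _ (h1.mono (hL (le_max_left J₀ J₁')) h1.pos le_rfl)
      (h2.mono (hL (le_max_left J₀ J₁')) h2.pos le_rfl) h3 (sub_mem (hΦ.mem hc) hc) hZ0
      (by linarith) hZs
  -- the residues
  have hfin : ∃ (t : Ω) (R : Finset k) (J₂ : ℕ), ∀ (Φ : Ω →ₐ[k] Ω) (η : ℝ), SMo v (L J₂) B Φ η →
      ∃ r ∈ R, ∃ c ∈ B, v.Ge (s - η / 2) (w - c) ∧
        Gt v s (algebraMap k Ω r * t - (Φ c - c)) := by
    by_cases ht : ∃ t ∈ B, t ≠ 0 ∧ v t = s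
    · obtain ⟨t, htB, ht0, hvt⟩ := ht
      have hR' : ∃ (J : ℕ) (R : Finset k), ∀ (Φ : Ω →ₐ[k] Ω) (η : ℝ) (c : k), c ∉ R →
          SMo v (L J) B Φ η → SMo v (L J) (cadj v B w) Φ η → Φ w ≠ w + algebraMap k Ω c * t := by
        by_contra hno
        push Not at hno
        apply hRR
        refine ⟨t, htB, ht0, hvt, fun J R => ?_⟩
        obtain ⟨Φ, η, c, h1, h2, h3, h4⟩ := hno J R
        exact ⟨Φ, η, c, h1, h2, h3, h4⟩
      obtain ⟨J₂, R, hR'⟩ := hR'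
      refine ⟨t, R, max J₁ J₂, fun Φ η hΦ => ?_⟩
      obtain ⟨c, hc, hcw⟩ := hw.lim (η / 2) (half_pos hΦ.pos)
      have h1 := hns Φ η (hΦ.mono (hL (le_max_left J₁ J₂)) hΦ.pos le_rfl) c hc hcw
      have h2 : v.Ge 0 ((Φ c - c) / t) := by
        intro h3
        have h4 : Φ c - c ≠ 0 := fun h5 => h3 (by rw [h5, zero_div])
        rw [v.map_div h4 ht0, hvt]
        have := h1 h4
        linarith
      obtain ⟨r, hr⟩ := hk.residue h2
      have h3 : Gt v s ((Φ c - c) - algebraMap k Ω r * t) := by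
        have h4 := Gt.mul_ge (r := 0) hr (RVal.ge_self (v := v) t)
        rw [hvt, zero_add] at h4
        have e : (Φ c - c) - algebraMap k Ω r * t = ((Φ c - c) / t - algebraMap k Ω r) * t := by
          rw [sub_mul, div_mul_cancel₀ _ ht0]
        rw [e]
        exact h4
      have h3' : Gt v s (algebraMap k Ω r * t - (Φ c - c)) := by
        rw [← neg_sub]
        exact h3.neg
      refine ⟨r, ?_, c, hc, hcw, h3'⟩
      by_contra hrR
      obtain ⟨Φ', η', -, h5, h6, -, h7⟩ := hΦ.ext hk hsp hval hcv (hLB _) hw hc hcw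
        (mul_mem (B.algebraMap_mem r) htB) h3'
      exact hR' Φ' η' r hrR (h5.mono (hL (le_max_right J₁ J₂)) h5.pos le_rfl)
        (h6.mono (hL (le_max_right J₁ J₂)) h6.pos le_rfl) h7
    · refine ⟨0, {0}, J₁, fun Φ η hΦ => ⟨0, mem_singleton_self _, ?_⟩⟩
      obtain ⟨c, hc, hcw⟩ := hw.lim (η / 2) (half_pos hΦ.pos)
      refine ⟨c, hc, hcw, ?_⟩
      have h1 := hns Φ η hΦ c hc hcw
      have h2 : Gt v s (Φ c - c) := fun h3 => lt_of_le_of_ne (h1 h3) fun h4 =>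
        ht ⟨_, sub_mem (hΦ.mem hc) hc, h3, h4.symm⟩
      rw [mul_zero, zero_sub]
      exact h2.neg
  obtain ⟨t, R, J₂, hfin⟩ := hfin
  intro J
  obtain ⟨Θ, η, h1, ⟨x, hx, hne⟩, c, hc, hcw, h2⟩ := h.pigeon hk hsp hval hL hLB hd hWB hw t R J₂
    hfin (max J J₂) (le_max_right _ _)
  obtain ⟨Φ', η', -, h3, h4, h5, h6⟩ := h1.ext hk hsp hval hcv (hLB _) hw hc hcw (zero_mem B) h2
  rw [add_zero] at h6
  refine ⟨Φ', η', ⟨h4.pos, h4.iso, ?_, h4.map, h4.str⟩, x, hx, ?_⟩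
  · intro a ha
    refine clI_le_fixF h4.iso (D2P.adj_le (fun b hb => ?_) ?_) ha
    · exact h4.fix b (hL (le_max_left J J₂) hb)
    · exact h6
  · rw [h5 x (hWB hx)]
    exact hne

end Step

/-! ### A moving floor over a quiet field is not hit -/

section VH

variable {p : ℕ} [hp : Fact p.Prime] [CharP Ω p] {L : ℕ → IntermediateField k Ω} {w : Ω} {s : ℝ}

/-- The natural displacement of a hit floor. -/
theorem Hit.exists_disp [IsAlgClosed Ω] (hL : Monotone L) (hd : B ≤ clI v (⨆ J, L J))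
    (hw : TL v B w s) (hit : Hit p v B w s) : ∃ (ν : ℝ) (β : ℕ → Ω) (T J₀ : ℕ),
      Col p v B ν s β ∧ T ≠ 0 ∧ ¬ PG p v B (ν - p ^ T * s) (β T) ∧
      ∀ (J : ℕ), J₀ ≤ J → ∀ (Φ : Ω →ₐ[k] Ω) (η : ℝ), SMo v (L J) B Φ η →
        StrM v Φ (cadj v B w) η → ∃ c ∈ B, v.Ge s (Φ c - c) ∧
          v.Ge (s + η / 2) ((Φ w - w) - (Φ c - c)) ∧
          PG p v B ν (∑ j ∈ range (T + 1), β j * (Φ c - c) ^ p ^ j) := by
  classical
  obtain ⟨ν, b₀, β, T, hb0, hB, hlp, hT, htop⟩ := hit.top hw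
  have hp1 : (1 : ℝ) < p := by exact_mod_cast hp.out.one_lt
  obtain ⟨m₀, hm, hms⟩ : ∃ m : ℝ, v.Ge m w ∧ m ≤ s - 1 :=
    ⟨min (v w) (s - 1), (RVal.ge_self w).mono (min_le_left _ _), min_le_right _ _⟩
  set P : ℝ := ν + 1 + p ^ T * |m₀| with hPdef
  have hP : ν < P := by
    have : 0 ≤ (p : ℝ) ^ T * |m₀| := by positivity
    linarith
  have hPj : ∀ j ∈ range (T + 1), ν < P + p ^ j * m₀ := fun j hj => by
    have h1 : (p : ℝ) ^ j ≤ (p : ℝ) ^ T := pow_le_pow_right₀ hp1.le (by rw [mem_range] at hj; omega)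
    have h2 : -|m₀| ≤ m₀ := neg_abs_le m₀
    have h3 : (0 : ℝ) < (p : ℝ) ^ j := by positivity
    have h4 : -(p ^ T * |m₀|) ≤ (p : ℝ) ^ j * m₀ := by
      calc -(p ^ T * |m₀|) ≤ -(p ^ j * |m₀|) := by
            have := mul_le_mul_of_nonneg_right h1 (abs_nonneg m₀)
            linarith
        _ = p ^ j * (-|m₀|) := by ring
        _ ≤ p ^ j * m₀ := mul_le_mul_of_nonneg_left h2 h3.le
    linarith
  obtain ⟨J₀, hJ₀⟩ := exists_level hL hd (insert b₀ ((range (T + 1)).image β)) (fun x hx => by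
    rcases mem_insert.1 hx with rfl | hx
    · exact hb0
    · obtain ⟨j, -, rfl⟩ := mem_image.1 hx
      exact hB.mem j) P
  refine ⟨ν, β, T, J₀, hB, hT, htop, fun J hJ Φ η hΦ hstr => ?_⟩
  have hid : IsoE v v (AlgHom.id k Ω) := ⟨fun a _ => rfl⟩
  have hag := hJ₀ J hJ Φ hΦ.iso hΦ.fix
  obtain ⟨δ, hδ, h1⟩ := pair_ge hw hΦ.iso hid (fun a ha => hΦ.mem ha) (fun a ha => ha) hΦ.pos
    hΦ.str (StrM.of_fix fun a _ => rfl) hb0 hT hB hlp htop hm hms hP hPj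
    (hag b₀ (mem_insert_self _ _)) fun j hj => hag _ (mem_insert_of_mem (mem_image_of_mem β hj))
  obtain ⟨c, hc, hcw⟩ := hw.lim (min δ (η / 2)) (lt_min hδ (half_pos hΦ.pos))
  obtain ⟨h2, h3⟩ := h1 c hc (hcw.mono (by linarith [min_le_left δ (η / 2)]))
  refine ⟨c, hc, h2, ?_, h3⟩
  have h4 := hstr (w - c) (sub_mem (self_mem_cadj v B w) (le_cadj v B w hc)) _
    (hcw.mono (show s - η / 2 ≤ _ by linarith [min_le_right δ (η / 2)]))
  rw [map_sub] at h4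
  have e : (Φ w - w) - (Φ c - c) = Φ w - Φ c - (w - c) := by ring
  rw [e]
  exact h4.mono (by linarith)

/-- **(VH)**: a moving floor over a quiet field is not hit. -/
theorem not_hit_of_mov [IsAlgClosed k] [IsAlgClosed Ω] (hk : Ctx0 k v) (hL : Monotone L)
    (hd : B ≤ clI v (⨆ J, L J)) (hw : TL v B w s) (hmov : MovV v L B w s ∨ MovR v L B w s) :
    ¬ Hit p v B w s := by
  classical
  intro hit
  obtain ⟨ν, β, T, J₀, hB, hT, htop, h⟩ := hit.exists_disp hL hd hw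
  rcases hmov with hV | ⟨t, htB, ht0, hvt, hR⟩
  · obtain ⟨Φ, η, Z, h1, h2, h3, -, h4, -, h5⟩ := hV J₀ 1 one_pos
    obtain ⟨c, -, h6, h7, -⟩ := h J₀ le_rfl Φ η h1 h2.str
    have h8 : v.Ge s Z := by
      have e : Z = ((Φ w - w) - (Φ c - c)) + (Φ c - c) := by rw [h3]; ring
      rw [e]
      exact (h7.mono (by linarith [h1.pos])).add h6
    exact absurd (h8 h4) (not_le.2 h5)
  · have hpow : ∀ j : ℕ, v.Ge (-(p ^ j * s)) ((t⁻¹) ^ p ^ j) := fun j => by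
      refine RVal.Ge.of_le ?_
      rw [inv_pow, v.map_inv (pow_ne_zero _ ht0), v.map_pow ht0, hvt]
      push_cast
      exact le_rfl
    have hfin := finite_res (F := B) hk (ν := ν) (β := fun j => β j * t ^ p ^ j) (T := T)
      (fun h1 => by
        apply htop
        obtain ⟨i, rfl⟩ : ∃ i, T = i + 1 := ⟨T - 1, by omega⟩
        have h2 : v.Ge (-(p ^ (i + 1) * s)) ((t⁻¹ ^ p ^ i) ^ p) := by
          rw [← pow_mul, ← pow_succ]
          exact hpow (i + 1)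
        have h3 := h1.mul_pow (pow_mem (inv_mem htB) _) h2
        have e : β (i + 1) * t ^ p ^ (i + 1) * (t⁻¹ ^ p ^ i) ^ p = β (i + 1) := by
          rw [← pow_mul, ← pow_succ, inv_pow, mul_assoc, mul_inv_cancel₀ (pow_ne_zero _ ht0), mul_one]
        rw [e] at h3
        exact h3.mono (by linarith))
    obtain ⟨Φ, η, c, hcR, h1, h2, h3⟩ := hR J₀ hfin.toFinset
    obtain ⟨b, hb, h6, h7, h8⟩ := h J₀ le_rfl Φ η h1 h2.str
    refine hcR (hfin.mem_toFinset.2 ?_)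
    have h9 := addp_near hB T (x := algebraMap k Ω c * t) (z := Φ b - b) (half_pos h1.pos)
      (sub_mem (mul_mem (B.algebraMap_mem _) htB) (sub_mem (h1.mem hb) hb)) (by
        have e : algebraMap k Ω c * t - (Φ b - b) = (Φ w - w) - (Φ b - b) := by rw [h3]; ring
        rw [e]
        exact h7) h8
    change PG p v B ν (∑ j ∈ range (T + 1), β j * t ^ p ^ j * algebraMap k Ω c ^ p ^ j)
    refine (congrArg _ (sum_congr rfl fun j _ => ?_)).mp h9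
    rw [_root_.mul_pow]
    ring

end VH

/-! ### Artin-Schreier towers -/

/-- **Infinitely many records.** -/
theorem ASC.conS {p : ℕ} [hp : Fact p.Prime] [CharP Ω p] [IsAlgClosed Ω] (hk : Ctx0 k v)
    (hw : SphC v) (hval : ∀ ρ : ℝ, ∃ x : Ω, x ≠ 0 ∧ v x = ρ) (hcv : CompleteV v)
    {N : ℕ → IntermediateField k Ω} {th : ℕ → Ω} {u nn : ℕ → ℝ} (h : ASC p v N th u nn)
    (hinf : ∀ J, ∃ i, J ≤ i ∧ 0 < u i - nn (i + 1)) :
    ConS v N (clI v (⨆ n, N n)) (clI v (⨆ n, N n)) := by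
  intro J
  obtain ⟨i, hJ, h0, hmax⟩ := h.exists_record hp.out.one_lt hinf J
  obtain ⟨Φ, h1, h2, h3, -, -, h5, h6⟩ := h.exists_motion' hk hw hval hmax 1
  refine ⟨Φ, _, ⟨h0, h1, fun a ha => h2 a (h.monotone hJ ha), ?_, h5⟩, th i, ?_, ?_⟩
  · rw [← h1.clI_map hcv, IntermediateField.map_iSup]
    simp only [h6]
  · exact le_clI _ ((le_iSup N (i + 1) : N (i + 1) ≤ _) (h.th_mem i))
  · rw [h3, Int.cast_one]
    intro h6
    have h7 : (1 : Ω) = 0 := by linear_combination h6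
    exact one_ne_zero h7

/-- A family does not fix everything. -/
theorem ConS.false {L : ℕ → IntermediateField k Ω} (h : ConS v L W B) {J : ℕ} (hJ : W ≤ L J) :
    False := by
  obtain ⟨Φ, η, h1, x, hx, hne⟩ := h J
  exact hne (h1.fix x (hJ hx))

end Pool.Agent.TWCT
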