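import Pool.Agent.Lib.TWIV.ExM1
import Pool.Agent.Lib.TWCT.ConS

/-!
# TANK W, contact (III.1): motions of the field with the monomials

`GsM v B G M`: the values `G` of the monomials are independent of the values of `B`.

* `GsM.exists_exch`: the exchange of two systems of monomials, the identity on `B`;
* `SMo.exists_pm`, `SMo.pm`: a strict automorphism of `B`, extended by `M g ↦ M g`;
* `ConS.pm`, `MovV.pm`, `MovR.pm`, `dense_pm`: the families.
-/

set_option autoImplicit false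

open Polynomial IntermediateField

namespace Pool.Agent.TWCT

open Pool.Agent.H15JM (RVal)
open Pool.Agent.D2 (Ctx0)
open Pool.Agent.D2P (clI mem_clI)
open Pool.Agent.TWM
open Pool.Agent.TWS
open Pool.Agent.TWIV (NP RlM)
open Pool.Agent.TWC (eq_zero_of_ge)

universe u

variable {k Ω : Type u} [Field k] [Field Ω] [Algebra k Ω] {v : RVal Ω}
  {G : AddSubgroup ℝ} {M M' : ℝ → Ω} {A B W : IntermediateField k Ω}

/-- The values of the monomials are independent of the values of `B`. -/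
structure GsM (v : RVal Ω) (B : IntermediateField k Ω) (G : AddSubgroup ℝ) (M : ℝ → Ω) :
    Prop where
  ms : MS v G M
  dj : ∀ g ∈ G, g ∈ VG v B → g = 0

theorem GsM.monG (h : GsM v B G M) : MonG v B G M :=
  ⟨h.ms, fun g hg hgB => by
    rw [h.dj g hg hgB, h.ms.zero]
    exact one_mem _⟩

theorem GsM.mono (h : GsM v B G M) (hAB : A ≤ B) : GsM v A G M :=
  ⟨h.ms, fun g hg hgA => h.dj g hg (VG.mono hAB hgA)⟩

theorem GsM.imm (h : GsM v B G M) (hi : Imm v B A) : GsM v A G M :=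
  ⟨h.ms, fun g hg hgA => h.dj g hg (by rwa [VG.imm hi] at hgA)⟩

theorem GsM.rep (h : GsM v B G M) (g : ℝ) : rep v B G g = g := by
  have h1 := rep_sub (v := v) (A₀ := B) (G := G) g
  have h2 := h.dj _ h1.1 h1.2
  linarith

theorem GsM.np (h : GsM v B G M) (h' : MS v G M') {γ : ℝ} (hγ : 0 < γ) : NP v B G M M' γ where
  mon := h.monG
  mon' := (GsM.monG ⟨h', h.dj⟩)
  pos := hγ
  gap := fun d hd hdB => by
    rw [h.dj d hd hdB, h.ms.zero, h'.zero, sub_self]
    exact RVal.Ge.zero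

/-- The elements of `B` are fixed. -/
theorem GsM.rl_self (h : GsM v B G M) (h' : MS v G M') {b : Ω} (hb : b ∈ B) :
    RlM v B G M M' b b := fun c => by
  classical
  refine ⟨Finsupp.single 0 b, ⟨fun g => ?_, fun g hg => ?_⟩, ?_, ?_⟩
  · rw [Finsupp.single_apply]
    split_ifs
    · exact hb
    · exact zero_mem _
  · rw [Finsupp.single_apply] at hg
    split_ifs at hg with h0
    · rw [← h0]
      exact ⟨G.zero_mem, h.rep 0⟩
    · exact absurd rfl hg
  · rw [evM_single, h.ms.zero, mul_one, sub_self]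
    exact RVal.Ge.zero
  · rw [evM_single, h'.zero, mul_one, sub_self]
    exact RVal.Ge.zero

/-- The monomials. -/
theorem GsM.rl_mon (h : GsM v B G M) {g : ℝ} (hg : g ∈ G) :
    RlM v B G M M' (M g) (M' g) := fun c => by
  classical
  refine ⟨Finsupp.single g 1, ⟨fun i => ?_, fun i hi => ?_⟩, ?_, ?_⟩
  · rw [Finsupp.single_apply]
    split_ifs
    · exact one_mem _
    · exact zero_mem _
  · rw [Finsupp.single_apply] at hi
    split_ifs at hi with h0
    · rw [← h0]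
      exact ⟨hg, h.rep g⟩
    · exact absurd rfl hi
  · rw [evM_single, one_mul, sub_self]
    exact RVal.Ge.zero
  · rw [evM_single, one_mul, sub_self]
    exact RVal.Ge.zero

/-- **The exchange of the monomials.** -/
theorem GsM.exists_exch [IsAlgClosed Ω] (hk : Ctx0 k v) (hsp : SphC v)
    (hval : ∀ ρ : ℝ, ∃ x : Ω, x ≠ 0 ∧ v x = ρ) (hcv : CompleteV v) (h : GsM v B G M)
    (h' : MS v G M') :
    ∃ Ψ : Ω →ₐ[k] Ω, IsoE v v Ψ ∧ (∀ b ∈ B, Ψ b = b) ∧ ∀ g ∈ G, Ψ (M g) = M' g := by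
  have hn1 := h.np h' one_pos
  obtain ⟨α, hα, hA⟩ := hn1.exists_alm hcv
  have huniq : ∀ {f f' : Ω}, f ∈ PM v B G M → RlM v B G M M' f f' → α f = f' :=
    fun hf h1 => hn1.rl_uniq (hα _ hf) h1
  have hmul : ∀ f ∈ PM v B G M, ∀ g ∈ PM v B G M, α (f * g) = α f * α g := by
    intro f hf g hg
    refine sub_eq_zero.1 (eq_zero_of_ge (v := v) fun c => ?_)
    set m : ℝ := v f + v g with hm
    have h1 := (h.np h' (γ := |c - m| + 1) (by positivity)).rl_mul (hα f hf) (hα g hg)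
      (hα _ (mul_mem hf hg)) (RVal.ge_self f) (RVal.ge_self g)
    exact h1.mono (by linarith [le_abs_self (c - m)])
  let F : PM v B G M →ₐ[k] Ω :=
    { toFun := fun a => α a
      map_one' := huniq (one_mem _) (h.rl_self h' (one_mem _))
      map_mul' := fun a b => hmul a a.2 b b.2
      map_zero' := huniq (zero_mem _) (h.rl_self h' (zero_mem _))
      map_add' := fun a b => hA.add a a.2 b b.2
      commutes' := fun c => huniq ((algebraMap k (PM v B G M) c).2)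
        (h.rl_self h' (B.algebraMap_mem c)) }
  have hF : ∀ a : PM v B G M, F a = α a := fun a => rfl
  have hσ : IsoL v v (⟨PM v B G M, F⟩ : Lifts k Ω Ω) := by
    intro a ha
    have h0 : α (a : Ω) ≠ 0 := by
      intro h0
      apply ha
      refine Subtype.ext (eq_zero_of_ge (v := v) fun c => ?_)
      have h1 := (hA.ge a a.2 c).1 (by
        rw [h0]
        exact RVal.Ge.zero)
      exact h1
    have ha0 : (a : Ω) ≠ 0 := fun h1 => ha (Subtype.ext h1)
    change v (α (a : Ω)) = v (a : Ω)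
    refine le_antisymm ?_ ?_
    · exact (hA.ge a a.2 _).1 (RVal.ge_self _) ha0
    · exact (hA.ge a a.2 _).2 (RVal.ge_self _) h0
  obtain ⟨Ψ, h1, h2⟩ := hσ.exists_total hk hsp hval
  refine ⟨Ψ, h1, fun b hb => ?_, fun g hg => ?_⟩
  · rw [show Ψ b = F ⟨b, PM.le hb⟩ from h2 ⟨b, PM.le hb⟩, hF]
    exact huniq (PM.le hb) (h.rl_self h' hb)
  · rw [show Ψ (M g) = F ⟨M g, PM.mon hg⟩ from h2 ⟨M g, PM.mon hg⟩, hF]
    exact huniq (PM.mon hg) (h.rl_mon hg)

section Pm

variable {Φ Φ' : Ω →ₐ[k] Ω} {η : ℝ}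

/-- **A strict automorphism, extended by the monomials.** -/
theorem SMo.exists_pm [IsAlgClosed Ω] (hk : Ctx0 k v) (hsp : SphC v)
    (hval : ∀ ρ : ℝ, ∃ x : Ω, x ≠ 0 ∧ v x = ρ) (hcv : CompleteV v) (h : SMo v A B Φ η)
    (hG : GsM v B G M) : ∃ Φ' : Ω →ₐ[k] Ω, IsoE v v Φ' ∧ (∀ b ∈ B, Φ' b = Φ b) ∧
      ∀ g ∈ G, Φ' (M g) = M g := by
  have hM : MS v G fun g => Φ (M g) :=
    ⟨fun g hg => IsoE.ne_zero (hG.ms.ne g hg),
      fun g hg => by rw [h.iso.val _ (hG.ms.ne g hg), hG.ms.val g hg],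
      fun g hg g' hg' => by rw [hG.ms.mul g hg g' hg', map_mul]⟩
  obtain ⟨Ψ, h1, h2, h3⟩ := GsM.exists_exch (M := fun g => Φ (M g)) (M' := M) hk hsp hval hcv
    ⟨hM, hG.dj⟩ hG.ms
  refine ⟨Ψ.comp Φ, ⟨fun a ha => ?_⟩, fun b hb => ?_, fun g hg => ?_⟩
  · rw [AlgHom.comp_apply, h1.val _ (IsoE.ne_zero ha), h.iso.val a ha]
  · rw [AlgHom.comp_apply, h2 _ (h.mem hb)]
  · rw [AlgHom.comp_apply, h3 g hg]

theorem SMo.pm (hcv : CompleteV v) (h : SMo v A B Φ η) (hAB : A ≤ B) (hG : GsM v B G M)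
    (hΦ' : IsoE v v Φ') (he : ∀ b ∈ B, Φ' b = Φ b) (hm : ∀ g ∈ G, Φ' (M g) = M g) :
    SMo v (PM v A G M) (PM v B G M) Φ' η where
  pos := h.pos
  iso := hΦ'
  fix := by
    intro a ha
    refine clI_le_fixF hΦ' (sup_le (fun b hb => ?_) ?_) ha
    · rw [mem_fixF, he b (hAB hb), h.fix b hb]
    · rw [IntermediateField.adjoin_le_iff]
      rintro _ ⟨g, hg, rfl⟩
      exact hm g hg
  map := by
    rw [PM, ← hΦ'.clI_map hcv, IntermediateField.map_sup, IntermediateField.adjoin_map,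
      map_eq_of_eqOn he, h.map]
    congr 3
    ext y
    constructor
    · rintro ⟨_, ⟨g, hg, rfl⟩, rfl⟩
      exact ⟨g, hg, (hm g hg).symm⟩
    · rintro ⟨g, hg, rfl⟩
      exact ⟨M g, ⟨g, hg, rfl⟩, hm g hg⟩
  str := by
    intro a ha r hr
    have hη := h.pos
    obtain ⟨L, hL, h1⟩ := dense_PM hG.monG (Imm.refl B) ha (r + η)
    have h2 : v.Ge r (evM M L) := by
      have e : evM M L = a - (a - evM M L) := by ring
      rw [e]
      exact hr.sub (h1.mono (by linarith))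
    have h3 : v.Ge (r + η) (Φ' (evM M L) - evM M L) := by
      rw [evM, Finsupp.sum, map_sum, ← Finset.sum_sub_distrib]
      refine RVal.Ge.sum _ _ fun g hg => ?_
      have hg0 := Finsupp.mem_support_iff.1 hg
      have hgG := (hL.rep g hg0).1
      rw [map_mul, he _ (hL.mem g), hm g hgG, ← sub_mul]
      have h4 := orth hG.monG (Imm.refl B) hL h2 g
      have h5 : r ≤ v (L g) + g := by
        have := h4 (mul_ne_zero hg0 (hG.ms.ne g hgG))
        rwa [v.map_mul hg0 (hG.ms.ne g hgG), hG.ms.val g hgG] at this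
      have h6 : v.Ge g (M g) := fun _ => (hG.ms.val g hgG).ge
      exact ((h.str.self (hL.mem g)).mul h6).mono (by linarith)
    have e : Φ' a - a = Φ' (a - evM M L) - (a - evM M L) + (Φ' (evM M L) - evM M L) := by
      rw [map_sub]
      ring
    rw [e]
    exact ((hΦ'.ge_iff.2 h1).sub h1).add h3

end Pm

/-- The union of the chain is dense. -/
theorem dense_pm {L : ℕ → IntermediateField k Ω} (h : B ≤ clI v (⨆ J, L J)) :
    PM v B G M ≤ clI v (⨆ J, PM v (L J) G M) := by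
  refine PM.le_of (cld_clI v _) (h.trans ?_) fun g hg => ?_
  · exact TWM.clI_mono (iSup_mono fun J => PM.le)
  · exact TWM.le_clI _ ((le_iSup (fun J => PM v (L J) G M) 0) (PM.mon hg))

theorem mono_pm {L : ℕ → IntermediateField k Ω} (h : Monotone L) :
    Monotone fun J => PM v (L J) G M := fun _ _ hab => PM.mono (h hab)

section Fam

variable [IsAlgClosed Ω] (hk : Ctx0 k v) (hsp : SphC v)
  (hval : ∀ ρ : ℝ, ∃ x : Ω, x ≠ 0 ∧ v x = ρ) (hcv : CompleteV v)
  {L : ℕ → IntermediateField k Ω} {w : Ω} {s : ℝ}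

include hk hsp hval hcv

theorem ConS.pm (hLB : ∀ J, L J ≤ B) (hWB : W ≤ B) (hG : GsM v B G M)
    (h : ConS v L W B) : ConS v (fun J => PM v (L J) G M) (PM v W G M) (PM v B G M) := by
  intro J
  obtain ⟨Φ, η, h1, x, hx, hx1⟩ := h J
  obtain ⟨Φ', h2, h3, h4⟩ := h1.exists_pm hk hsp hval hcv hG
  exact ⟨Φ', η, h1.pm hcv (hLB J) hG h2 h3 h4, x, PM.le hx, by rwa [h3 x (hWB hx)]⟩

theorem MovV.pm (hLB : ∀ J, L J ≤ B) (hG : GsM v B G M) (hw : TL v B w s) (h : MovV v L B w s) :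
    MovV v (fun J => PM v (L J) G M) (PM v B G M) w s := by
  intro J ε hε
  obtain ⟨Φ, η, Z, h1, h2, h3, hZ, hZ0, h4, h5⟩ := h J ε hε
  have hBw : B ≤ cadj v B w := le_cadj v B w
  have hG' : GsM v (cadj v B w) G M := hG.imm hw.imm
  obtain ⟨Φ', h6, h7, h8⟩ := h2.exists_pm hk hsp hval hcv hG'
  refine ⟨Φ', η, Z, h1.pm hcv (hLB J) hG h6 (fun b hb => h7 b (hBw hb)) h8, ?_, ?_, PM.le hZ, hZ0,
    h4, h5⟩
  · rw [← PM.cadj]
    exact h2.pm hcv ((hLB J).trans hBw) hG' h6 h7 h8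
  · rw [h7 w (self_mem_cadj v B w), h3]

theorem MovR.pm (hLB : ∀ J, L J ≤ B) (hG : GsM v B G M) (hw : TL v B w s) (h : MovR v L B w s) :
    MovR v (fun J => PM v (L J) G M) (PM v B G M) w s := by
  obtain ⟨t, ht, ht0, hvt, h⟩ := h
  refine ⟨t, PM.le ht, ht0, hvt, fun J R => ?_⟩
  obtain ⟨Φ, η, c, hc, h1, h2, h3⟩ := h J R
  have hBw : B ≤ cadj v B w := le_cadj v B w
  have hG' : GsM v (cadj v B w) G M := hG.imm hw.imm
  obtain ⟨Φ', h6, h7, h8⟩ := h2.exists_pm hk hsp hval hcv hG'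
  refine ⟨Φ', η, c, hc, h1.pm hcv (hLB J) hG h6 (fun b hb => h7 b (hBw hb)) h8, ?_, ?_⟩
  · rw [← PM.cadj]
    exact h2.pm hcv ((hLB J).trans hBw) hG' h6 h7 h8
  · rw [h7 w (self_mem_cadj v B w), h3]

end Fam

end Pool.Agent.TWCT
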