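import Pool.Agent.Lib.TWCT.J2b

/-!
# TANK W, contact (III.1): the row (j = 1), the split

* `CTD.NQ`: no presentation of `K` has a quiet first floor;
* `J1D`: the data `CTD`, `NQ`, the values of `W` are `p`-divisible, the level of `al ^ p`, `¬ HRone`; for these data every first floor has
  H0 and RAT (`J1D.h0w`, `J1D.ratH`), `al ^ p` is not unhit by the top of any presentation
  (`J1D.not_unh`), and there is no additive form with an empty column (`J1D.not_lin`);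
* `RowA`: the field of the first two floors is a pair over `W`; `RowB`: the second floor is not hit,
  and it does not come from `W`;
* `CTD.rowJ1_of`: the row (j = 1), from `RowA` and `RowB`.
-/

set_option autoImplicit false

open Polynomial Finset

namespace Pool.Agent.TWCT

open Pool.Agent.H15JM (RVal)
open Pool.Agent.LU1 (VPos adj)
open Pool.Agent.D2 (Ctx0)
open Pool.Agent.D2P (hen clI mem_clI mem_adj_self adj_le)
open Pool.Agent.TW (Ctx Full BD HRone LU)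
open Pool.Agent.TWM
open Pool.Agent.TWS (IsoE SphC TowR)
open Pool.Agent.TWII (PG LP)
open Pool.Agent.TWN1 (PC Col col Par AF Unh)
open Pool.Agent.TWS7 (PDiv)
open Pool.Agent.TWTam

universe u

variable {k Ω H : Type u} [Field k] [Field Ω] [Algebra k Ω] [Field H] [Algebra k H]
  {p : ℕ} {v : RVal Ω} {w : RVal H} {ι : Ω →ₐ[k] H} {x : Ω}

/-! ### A hit, as a polynomial -/

section Poly

variable {F : IntermediateField k Ω} {y : Ω} {s ν : ℝ}

/-- The polynomial of an additive form. -/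
noncomputable def cpoly (p : ℕ) (b₀ : Ω) (B : ℕ → Ω) (T : ℕ) : Polynomial Ω :=
  C b₀ + ∑ j ∈ range (T + 1), C (B j) * X ^ p ^ j

theorem cpoly_eval (b₀ : Ω) (B : ℕ → Ω) (T : ℕ) (y : Ω) :
    (cpoly p b₀ B T).eval y = b₀ + col p B y T := by
  rw [cpoly, col, eval_add, eval_C, eval_finsetSum]
  congr 1
  exact sum_congr rfl fun j _ => by rw [eval_mul, eval_C, eval_pow, eval_X]

theorem cpoly_mem {b₀ : Ω} {B : ℕ → Ω} {T : ℕ} (hb : b₀ ∈ F) (hB : ∀ j, B j ∈ F) :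
    cpoly p b₀ B T ∈ PI F :=
  add_mem (C_mem_PI hb) (sum_mem fun j _ => mul_mem (C_mem_PI (hB j)) (pow_mem X_mem_PI _))

/-- The jets of an additive form. -/
theorem cpoly_jet [hp : Fact p.Prime] [CharP Ω p] (b₀ : Ω) (B : ℕ → Ω) {T j : ℕ} (hj : j ≤ T) :
    hasseDeriv (p ^ j) (cpoly p b₀ B T) = C (B j) := by
  have hpj : p ^ j ≠ 0 := (Nat.pow_pos hp.out.pos).ne'
  rw [cpoly, map_add, hasseDeriv_eq_zero_of_lt_natDegree (C b₀) (p ^ j) (by
    rw [natDegree_C]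
    exact Nat.pos_of_ne_zero hpj), zero_add, map_sum]
  rw [sum_eq_single_of_mem j (mem_range.2 (by omega))]
  · rw [TWN1.hasse_C_mul, X_pow_eq_monomial, hasseDeriv_monomial, Nat.sub_self, Nat.choose_self,
      Nat.cast_one, one_mul, monomial_zero_left, C_1, mul_one]
  · intro i _ hij
    rw [TWN1.hasse_C_mul, X_pow_eq_monomial, hasseDeriv_monomial]
    rcases lt_or_gt_of_ne hij with h1 | h1
    · rw [Nat.choose_eq_zero_of_lt (Nat.pow_lt_pow_right hp.out.one_lt h1), Nat.cast_zero, zero_mul,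
        monomial_zero_right, mul_zero]
    · have h2 : p ∣ (p ^ i).choose (p ^ j) :=
        hp.out.dvd_choose_pow hpj (Nat.pow_right_injective hp.out.two_le |>.ne (by omega))
      rw [(CharP.cast_eq_zero_iff Ω p _).2 h2, zero_mul, monomial_zero_right, mul_zero]

/-- **A hit, as a polynomial.** -/
theorem Hit.exists_poly [hp : Fact p.Prime] [CharP Ω p] [IsAlgClosed Ω] (hy : TL v F y s) (h : Hit p v F y s) :
    ∃ (ν : ℝ) (f : Polynomial Ω), f ∈ PI F ∧ LP p v (cadj v F y) ν (f.eval y) ∧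
      ∃ l : ℕ, p ∣ l ∧ l ≠ 0 ∧ ¬ PG p v (cadj v F y) (ν - l * s) ((taylor y f).coeff l) := by
  obtain ⟨ν, b₀, B, T, j, hb0, hB, hlp, hj, hjT, hn⟩ := h
  refine ⟨ν, cpoly p b₀ B T, cpoly_mem hb0 hB.mem, by rwa [cpoly_eval], p ^ j, dvd_pow_self p hj,
    (Nat.pow_pos hp.out.pos).ne', ?_⟩
  rw [taylor_coeff, cpoly_jet b₀ B hjT, eval_C]
  push_cast
  exact fun h1 => hn (TWII.PG.down hy (hB.mem j) h1)

/-- **The pair**: the second floor is hit, the first one has H0 and RAT. -/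
theorem exists_par_of_hit [hp : Fact p.Prime] [CharP Ω p] [IsAlgClosed Ω] (hcv : CompleteV v)
    {C : IntermediateField k Ω} {w u : Ω} {r s : ℝ} (hw : TL v C w r) (h0 : TWRR.H0w p v C w r)
    (hrat : TWRR.RatH p v C w r) (hu : TL v (cadj v C w) u s) (h : Hit p v (cadj v C w) u s) :
    ∃ g ∈ cadj v C w, Par v C (cadj v (cadj v C w) u) w r (u - g) s := by
  obtain ⟨ν, f, hf, hlp, hl⟩ := h.exists_poly hu
  obtain ⟨m, N, g, hg, b₀, x, S, y', -, haf, -⟩ := h0.hit_af hcv hw hrat hu hf hlp hl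
  exact ⟨g, hg, haf.par⟩

end Poly

variable {W₀ K₀ : IntermediateField k Ω} {al : Ω}

/-- No presentation of `K` has a quiet first floor. -/
def NQ (p : ℕ) (v : RVal Ω) (w : RVal H) (ι : Ω →ₐ[k] H) (x : Ω)
    (W₀ K₀ : IntermediateField k Ω) : Prop :=
  ∀ (y : Ω) (s : ℝ), TL v (clI v W₀) y s → TowR v 2 (cadj v (clI v W₀) y) (clI v K₀) →
    ¬ CS p v w ι x (clI v W₀) (cadj v (clI v W₀) y)

/-- **The data of the row (j = 1)**, in the negation of the assertion. -/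
structure J1D (p : ℕ) (v : RVal Ω) (w : RVal H) (ι : Ω →ₐ[k] H) (x : Ω)
    (W₀ K₀ : IntermediateField k Ω) (al : Ω) (ν : ℝ) : Prop extends CTD p v w ι x W₀ K₀ al where
  pd : PDiv p v (clI v W₀)
  nq : NQ p v w ι x W₀ K₀
  nal : al ∉ K₀
  lp : LP p v (clI v K₀) ν (al ^ p)
  lev : ∀ g ∈ clI v K₀, ¬ Gt v ν (al ^ p - g ^ p)
  bad : ¬ HRone v (adj K₀ al)

namespace J1D

variable [hp : Fact p.Prime] [CharP Ω p] [CharP H p] [CharP k p] [IsAlgClosed k] [IsAlgClosed Ω]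
  [IsAlgClosed H] {ν : ℝ}

omit hp [CharP Ω p] [CharP H p] [CharP k p] [IsAlgClosed k] in
/-- The first floors move, for every chain. -/
theorem mvs (h : J1D p v w ι x W₀ K₀ al ν) {L : ℕ → IntermediateField k H}
    (hL : Chn p v w ι x (clI v W₀) L)
    (hcon : ConS w L (tH p v ι x (clI v W₀)) (tH p v ι x (clI v W₀))) {y : Ω} {s : ℝ}
    (hy : TL v (clI v W₀) y s) (hT : TowR v 2 (cadj v (clI v W₀) y) (clI v K₀)) :
    Mvs p v w ι x (clI v W₀) L y s := by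
  rcases CS.step_of h.iso h.cpl h.c0 h.sph h.val h.cw le_rfl h.xW hL hcon hy with h1 | h1
  · exact h1
  · exact absurd h1 (h.nq y s hy hT)

/-- **H0 and RAT for the first floors.** -/
theorem h0w_ratH (h : J1D p v w ι x W₀ K₀ al ν) {y : Ω} {s : ℝ} (hy : TL v (clI v W₀) y s)
    (hT : TowR v 2 (cadj v (clI v W₀) y) (clI v K₀)) :
    TWRR.H0w p v (clI v W₀) y s ∧ TWRR.RatH p v (clI v W₀) y s := by
  obtain ⟨L, hL, hcon⟩ := h.cs
  have htl : TL w (tH p v ι x (clI v W₀)) (ι y) s := by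
    rw [tH, h.iso.tl_iff]
    exact tl_tam h.xW hy
  obtain ⟨h0, hrat⟩ := TWRT.mov_h0w_ratH (p := p) h.c0 hL.mono hL.dense htl
    (h.mvs hL hcon hy hT)
  exact ⟨TWRR.H0w.desc h.iso h.cpl h.ctx.toCtx0 h.x0 h.xW h0,
    TWRR.RatH.desc h.iso h.cpl h.ctx.toCtx0 h.x0 h.xW (cld_clI v _) hy hrat⟩

omit [CharP H p] [IsAlgClosed H] in
/-- **The exit**: `al ^ p` is not unhit by the top of a presentation. -/
theorem not_unh (h : J1D p v w ι x W₀ K₀ al ν) {y₁ y₂ y₃ : Ω} {s₁ s₂ s₃ : ℝ}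
    (h1 : TL v (clI v W₀) y₁ s₁) (h2 : TL v (cadj v (clI v W₀) y₁) y₂ s₂)
    (h3 : TL v (cadj v (cadj v (clI v W₀) y₁) y₂) y₃ s₃)
    (hK : clI v K₀ = cadj v (cadj v (cadj v (clI v W₀) y₁) y₂) y₃) :
    ¬ Unh p v (cadj v (cadj v (clI v W₀) y₁) y₂) (clI v K₀) y₃ s₃ ν (al ^ p) := by
  intro hunh
  apply h.bad
  have e1 : clI v (adj W₀ y₁) = cadj v (clI v W₀) y₁ := clI_adj_clI.symm
  have e2 : clI v (adj (adj W₀ y₁) y₂) = cadj v (cadj v (clI v W₀) y₁) y₂ := by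
    rw [← e1]
    exact clI_adj_clI.symm
  have t1 : Algebra.trdeg k (adj W₀ y₁) = (2 : ℕ) := by
    rw [TW.HRLU.trdeg_adj (TWC.TL.transcendental h1 (le_clI W₀)), h.trW]
    norm_num
  have t2 : Algebra.trdeg k (adj (adj W₀ y₁) y₂) = (3 : ℕ) := by
    rw [← e1] at h2
    rw [TW.HRLU.trdeg_adj (TWC.TL.transcendental h2 (le_clI _)), t1]
    norm_num
  refine hrone_of_unh (r := 1) (D := 2) (B := adj (adj W₀ y₁) y₂) (y := y₃) (s := s₃) h.ctx h.cpl
    (by norm_num) ?_ h.fg h.full (by rw [h.tr]) h.bd h.mem h.bda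
    (h.full_of ((mem_adj_self W₀ y₁).2.trans (mem_adj_self _ y₂).2)) (by rw [t2]) ?_ ?_ h.lev ?_
  · intro K hK hKf htK hBDK
    exact TWJ.lu_bd_two p h.ctx (TWJ.stepAll p k 1) (by omega) hK hKf htK hBDK
  · rw [e2]
    exact h3
  · rw [e2]
    exact hK
  · rw [e2]
    exact hunh

omit [CharP H p] [IsAlgClosed H] in
/-- The top of a presentation is hit. -/
theorem hit (h : J1D p v w ι x W₀ K₀ al ν) {y₁ y₂ y₃ : Ω} {s₁ s₂ s₃ : ℝ}
    (h1 : TL v (clI v W₀) y₁ s₁) (h2 : TL v (cadj v (clI v W₀) y₁) y₂ s₂)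
    (h3 : TL v (cadj v (cadj v (clI v W₀) y₁) y₂) y₃ s₃)
    (hK : clI v K₀ = cadj v (cadj v (cadj v (clI v W₀) y₁) y₂) y₃) :
    Hit p v (cadj v (cadj v (clI v W₀) y₁) y₂) y₃ s₃ := by
  by_contra hno
  refine h.not_unh h1 h2 h3 hK ?_
  rw [hK]
  refine unh_of_not_hit h3 ?_ ?_ hno
  · rw [← hK]
    exact le_clI _ h.mem
  · rw [← hK]
    exact h.lp

omit [CharP H p] [IsAlgClosed H] in
/-- **The exit**: no additive form with an empty column over `W⟨y⟩`. -/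
theorem not_lin (h : J1D p v w ι x W₀ K₀ al ν) {y : Ω} {s : ℝ} (hy : TL v (clI v W₀) y s)
    {b₀ z₁ z₂ : Ω} {r₁ r₂ : ℝ} {a b : ℕ → Ω} {T : ℕ} :
    ¬ AF p v (cadj v (clI v W₀) y) (clI v K₀) ν (al ^ p) b₀ z₁ r₁ a 0 z₂ r₂ b T := by
  intro haf
  apply h.bad
  have e1 : clI v (adj W₀ y) = cadj v (clI v W₀) y := clI_adj_clI.symm
  have t1 : Algebra.trdeg k (adj W₀ y) = (2 : ℕ) := by
    rw [TW.HRLU.trdeg_adj (TWC.TL.transcendental hy (le_clI W₀)), h.trW]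
    norm_num
  rw [← e1] at haf
  exact hrone4_of_af h.ctx h.cpl h.fg h.full h.tr h.bd h.mem h.bda
    (h.full_of (mem_adj_self W₀ y).2) t1 h.lev haf

end J1D

/-- **Row (j = 1, A).** The field of the first two floors is a pair over `W`. -/
def RowA (p : ℕ) (v : RVal Ω) (w : RVal H) (ι : Ω →ₐ[k] H) (x : Ω)
    (W₀ K₀ : IntermediateField k Ω) (al : Ω) : Prop :=
  ∀ (ν : ℝ) (F : IntermediateField k Ω) (w₁ w₂ z : Ω) (r₁ r₂ s : ℝ),
    J1D p v w ι x W₀ K₀ al ν → Par v (clI v W₀) F w₁ r₁ w₂ r₂ → TL v F z s →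
    clI v K₀ = cadj v F z → False

/-- **Row (j = 1, B).** The second floor is not hit, and it does not come from `W`. -/
def RowB (p : ℕ) (v : RVal Ω) (w : RVal H) (ι : Ω →ₐ[k] H) (x : Ω)
    (W₀ K₀ : IntermediateField k Ω) (al : Ω) : Prop :=
  ∀ (ν : ℝ) (y u z : Ω) (r t s : ℝ), J1D p v w ι x W₀ K₀ al ν → TL v (clI v W₀) y r →
    TL v (cadj v (clI v W₀) y) u t → TL v (cadj v (cadj v (clI v W₀) y) u) z s →
    clI v K₀ = cadj v (cadj v (cadj v (clI v W₀) y) u) z →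
    (∀ g ∈ cadj v (clI v W₀) y, ¬ Lim v (clI v W₀) t (u - g)) →
    ¬ Hit p v (cadj v (clI v W₀) y) u t → False

/-- **The split of the row (j = 1).** -/
theorem CTD.rowJ1_of [hp : Fact p.Prime] [CharP Ω p] [CharP H p] [CharP k p] [IsAlgClosed k]
    [IsAlgClosed Ω] [IsAlgClosed H] (h : CTD p v w ι x W₀ K₀ al) (hpd : PDiv p v (clI v W₀))
    (hA : RowA p v w ι x W₀ K₀ al) (hB : RowB p v w ι x W₀ K₀ al) :
    RowJ1 p v w ι x W₀ K₀ al := by
  intro hq
  by_contra hbad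
  have hal : al ∉ K₀ := by
    intro h1
    apply hbad
    have e : adj K₀ al = K₀ := le_antisymm (adj_le le_rfl h1) (mem_adj_self K₀ al).2
    rw [e]
    exact h.hr
  obtain ⟨ν, hlp, hlev⟩ := TWS7.exists_level p h.bd hal h.mem
  have hJ : J1D p v w ι x W₀ K₀ al ν := ⟨h, hpd, hq, hal, hlp, hlev, hbad⟩
  have hT := h.tow
  obtain ⟨y, r, hy, hT1⟩ : ∃ y r, TL v (clI v W₀) y r ∧
      TowR v 2 (cadj v (clI v W₀) y) (clI v K₀) := by
    cases hT with
    | succ h1 h2 => exact ⟨_, _, h1, h2⟩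
  obtain ⟨u, t, hu, hT2⟩ : ∃ u t, TL v (cadj v (clI v W₀) y) u t ∧
      TowR v 1 (cadj v (cadj v (clI v W₀) y) u) (clI v K₀) := by
    cases hT1 with
    | succ h1 h2 => exact ⟨_, _, h1, h2⟩
  obtain ⟨z, s, hz, hK⟩ := TWS.towR_iff_one.1 hT2
  by_cases hpar : ∃ g ∈ cadj v (clI v W₀) y, Lim v (clI v W₀) t (u - g)
  · obtain ⟨g, hg, hg2⟩ := hpar
    have e : cadj v (cadj v (clI v W₀) y) (u - g) = cadj v (cadj v (clI v W₀) y) u :=
      cadj_sub_mem hg
    exact hA ν _ y (u - g) z r t s hJ (Par.mk' hy (hu.sub_mem hg) hg2 e.symm) hz hK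
  · push Not at hpar
    by_cases hh : Hit p v (cadj v (clI v W₀) y) u t
    · obtain ⟨h0, hrat⟩ := hJ.h0w_ratH hy hT1
      obtain ⟨g, hg, hP⟩ := exists_par_of_hit h.cpl hy h0 hrat hu hh
      exact hA ν _ y (u - g) z r t s hJ hP hz hK
    · exact hB ν y u z r t s hJ hy hu hz hK hpar hh

end Pool.Agent.TWCT
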