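import Pool.Agent.Lib.TWCT.Asm

/-!
# TANK W, contact (III.1): pairs with independent tops

* `tl_tH`, `par_tH`, `col_tH`, `ind_tH`: passage to the tame closures in the big field;
* `CTD.pair_false`: over a quiet field `C`, `K = C⟨z₁⟩⟨z₂⟩` a pair over `C`: no critical element of
  `K` has an additive form over `C` with independent tops.
-/

set_option autoImplicit false

open Polynomial Finset

namespace Pool.Agent.TWCT

open Pool.Agent.H15JM (RVal)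
open Pool.Agent.LU1 (VPos adj)
open Pool.Agent.D2 (Ctx0)
open Pool.Agent.D2P (hen clI mem_clI mem_adj_self adj_le)
open Pool.Agent.TW (Ctx Full BD HRone LU)
open Pool.Agent.TWM
open Pool.Agent.TWS (IsoE SphC TowR)
open Pool.Agent.TWII (PG LP)
open Pool.Agent.TWN1 (PC Col col Par)
open Pool.Agent.TWTam

universe u

variable {k Ω H : Type u} [Field k] [Field Ω] [Algebra k Ω] [Field H] [Algebra k H]
  {p : ℕ} {v : RVal Ω} {w : RVal H} {ι : Ω →ₐ[k] H} {x : Ω} {C K : IntermediateField k Ω}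
  {L : ℕ → IntermediateField k H}

theorem mem_tH {a : Ω} (ha : a ∈ C) : ι a ∈ tH p v ι x C := ⟨a, le_tam C ha, rfl⟩

theorem tH_mono {B B' : IntermediateField k Ω} (h : B ≤ B') : tH p v ι x B ≤ tH p v ι x B' :=
  Dense.map_le_map_iff.2 (tam_mono h)

theorem map_col (a : ℕ → Ω) (z : Ω) (S : ℕ) :
    ι (col p a z S) = col p (fun j => ι (a j)) (ι z) S := by
  rw [col, col, map_sum]
  exact sum_congr rfl fun j _ => by rw [map_mul, map_pow]

section Tr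

variable (hI : IsoE v w ι) (hcv : CompleteV v)

include hI

theorem tl_tH [IsAlgClosed Ω] (hx : x ∈ C) {z : Ω} {s : ℝ} (hz : TL v C z s) :
    TL w (tH p v ι x C) (ι z) s := by
  rw [tH, hI.tl_iff]
  exact tl_tam hx hz

theorem lp_tH {a : Ω} {c : ℝ} (ha : LP p v C c a) : LP p w (tH p v ι x C) c (ι a) := by
  rw [tH, lp_iff' hI]
  intro ε hε
  obtain ⟨g, hg, h1⟩ := ha ε hε
  exact ⟨g, le_tam _ hg, h1⟩

theorem col_tH {ν r : ℝ} {a : ℕ → Ω} (ha : Col p v C ν r a) :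
    Col p w (tH p v ι x C) ν r fun j => ι (a j) where
  mem := fun j => mem_tH (ha.mem j)
  lin := hI.ge_iff.2 ha.lin
  lev := fun j hj => lp_tH hI (ha.lev j hj)

include hcv

theorem par_tH [IsAlgClosed Ω] (hx : x ∈ C) {z₁ z₂ : Ω} {r₁ r₂ : ℝ} (h : Par v C K z₁ r₁ z₂ r₂) :
    Par w (tH p v ι x C) (tH p v ι x K) (ι z₁) r₁ (ι z₂) r₂ where
  t1 := tl_tH hI hx h.t1
  t2 := tl_tH hI hx h.t2
  t21 := by
    rw [← tH_cadj hI hcv]
    exact tl_tH hI (le_cadj v C z₁ hx) h.t21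
  t12 := by
    rw [← tH_cadj hI hcv]
    exact tl_tH hI (le_cadj v C z₂ hx) h.t12
  eq1 := by rw [h.eq1, tH_cadj hI hcv, tH_cadj hI hcv]
  eq2 := by rw [h.eq2, tH_cadj hI hcv, tH_cadj hI hcv]

end Tr

theorem ind_tH [Fact p.Prime] [CharP Ω p] (hI : IsoE v w ι) (hC : TamB p v x C) {ν r₁ r₂ : ℝ}
    {S T : ℕ} {a b : Ω} (ha : a ∈ C) (hb : b ∈ C) (h : Ind p v C ν r₁ S r₂ T a b) :
    Ind p w (tH p v ι x C) ν r₁ S r₂ T (ι a) (ι b) := by
  rintro _ ⟨c₁, hc₁, rfl⟩ _ ⟨c₂, hc₂, rfl⟩ t hpg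
  have h1 : PG p w (tH p v ι x C) t (ι (a * c₁ ^ p ^ S + b * c₂ ^ p ^ T)) := by
    rw [map_add, map_mul, map_mul, map_pow, map_pow]
    exact hpg
  rw [tH, pg_iff' hI] at h1
  obtain ⟨h2, h3⟩ := hC.ind ha hb h c₁ hc₁ c₂ hc₂ t h1
  constructor
  · have h4 := hI.gt_iff.2 h2
    rw [map_pow] at h4
    exact h4
  · have h4 := hI.gt_iff.2 h3
    rw [map_pow] at h4
    exact h4

variable {W₀ K₀ C₀ : IntermediateField k Ω} {al : Ω}

/-- **No pair with independent tops over a quiet field.** -/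
theorem CTD.pair_false [hp : Fact p.Prime] [CharP Ω p] [CharP H p] [CharP k p] [IsAlgClosed k]
    [IsAlgClosed Ω] [IsAlgClosed H] (h : CTD p v w ι x W₀ K₀ al) (hWC : W₀ ≤ C₀)
    (hcs : CS p v w ι x (clI v W₀) (clI v C₀)) {z₁ z₂ : Ω} {r₁ r₂ : ℝ}
    (hpar : Par v (clI v C₀) (clI v K₀) z₁ r₁ z₂ r₂) {ν : ℝ} {b₀ : Ω} (hb₀ : b₀ ∈ clI v C₀)
    {a b : ℕ → Ω} {S T : ℕ} (ha : Col p v (clI v C₀) ν r₁ a) (hb : Col p v (clI v C₀) ν r₂ b)
    (hlp : LP p v (clI v K₀) ν (b₀ + col p a z₁ S + col p b z₂ T))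
    (hind : Ind p v (clI v C₀) ν r₁ S r₂ T (a S) (b T)) : False := by
  obtain ⟨L, hL, hcon⟩ := hcs
  have hxC : x ∈ clI v C₀ := clI_mono hWC h.xW
  have hTB : TamB p v x (clI v C₀) := tamB_of hp.out h.ctx.toCtx0 h.cpl h.x0 (cld_clI v _) hxC
  have hL' : Chn p v w ι x (clI v K₀) fun J => cadj w (cadj w (L J) (ι z₁)) (ι z₂) := by
    rw [hpar.eq1]
    exact (hL.step h.iso h.cpl z₁).step h.iso h.cpl z₂
  obtain ⟨J₀, hJ₀⟩ := h.exists_eq hL'
  have hlp' : LP p w (tH p v ι x (clI v K₀)) ν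
      (ι b₀ + col p (fun j => ι (a j)) (ι z₁) S + col p (fun j => ι (b j)) (ι z₂) T) := by
    rw [← map_col, ← map_col, ← map_add, ← map_add]
    exact lp_tH h.iso hlp
  refine hcon.pair_false (J₀ := J₀) h.c0 h.sph h.val (tH_mono (clI_mono hWC)) hL.mono hL.le
    hL.dense (par_tH h.iso h.cpl hxC hpar) (mem_tH hb₀) (col_tH h.iso ha) (col_tH h.iso hb) hlp'
    (ind_tH h.iso hTB (ha.mem S) (hb.mem T) hind) ?_
  have h1 := hJ₀ J₀ le_rfl
  rw [h1]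
  exact tH_mono h.tow.le

end Pool.Agent.TWCT
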