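import Pool.Agent.Lib.D2P.R1
import Pool.Agent.Lib.D2P.H0

/-!
# TANK W, row CT.0: towers of Artin-Schreier steps over a tame base

`M` is henselian, with residue field `k`, and every value of an algebraic element over `M` becomes a
value of `M` after multiplication by a power of `p` (all tame ramification is in `M`).

* `pgroup_pv`: the Galois groups over `M` are `p`-groups;
* `as_induction_pv`: every finite separable extension of `M` is a tower of Artin-Schreier steps.
-/

set_option autoImplicit false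

open Polynomial

namespace Pool.Agent.TWCT

open Pool.Agent.H15JM (RVal)
open Pool.Agent.LU1 (VPos adj fixO mem_fixO decG fixO_top exists_fixO_eq)
open Pool.Agent.LUC (Cl clF)
open Pool.Agent.D2 (Ctx0)
open Pool.Agent.D2P

universe u

variable {k Ω : Type u} [Field k] [Field Ω] [Algebra k Ω] {v : RVal Ω}

/-- Every value of an algebraic element becomes a value of `M` after multiplication by a power
of `p`. -/
def PV (p : ℕ) (v : RVal Ω) (M : IntermediateField k Ω) : Prop :=
  ∀ g : Ω, IsAlgebraic M g → g ≠ 0 → ∃ j : ℕ, ∃ c ∈ M, c ≠ 0 ∧ v c = (p : ℝ) ^ j * v g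

theorem PV.mono {p : ℕ} {M M' : IntermediateField k Ω} (h : PV p v M) (hM : M ≤ M')
    (ha : ∀ g ∈ M', IsAlgebraic M g) : PV p v M' := by
  intro g hg hg0
  obtain ⟨j, c, hc, hc0, hcv⟩ := h g (D2P.H0aux.alg_trans hM ha hg) hg0
  exact ⟨j, c, hM hc, hc0, hcv⟩

theorem val_pow_cast {g : Ω} (hg : g ≠ 0) (n : ℕ) : v (g ^ n) = n * v g := by
  induction n with
  | zero => rw [pow_zero, v.map_one, Nat.cast_zero, zero_mul]
  | succ n ih =>
    rw [pow_succ, v.map_mul (pow_ne_zero n hg) hg, ih]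
    push_cast
    ring

/-- Over a henselian field with all tame values the Galois groups are `p`-groups. -/
theorem pgroup_pv [IsAlgClosed Ω] [IsAlgClosed k] (p : ℕ) (hp : p.Prime) [CharP k p]
    (h : Ctx0 k v) (M : IntermediateField k Ω) (hM : hen v M = M) (hfull : PV p v M)
    (N : IntermediateField M Ω) [FiniteDimensional M N] [IsGalois M N] (x : N ≃ₐ[M] N) :
    ∃ n : ℕ, x ^ p ^ n = 1 := by
  have hdec : ∀ σ : N ≃ₐ[M] N, σ ∈ decG v M N := by
    intro σ n
    have hmin : minpoly M (n : Ω) = minpoly M n := minpoly.algebraMap_eq (A := M)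
      (B := N) (B' := Ω) Subtype.val_injective n
    refine val_root h hM ?_ ?_
    · exact (Algebra.IsAlgebraic.isAlgebraic (R := M) n).algebraMap
    · rw [hmin]
      have h1 : aeval (σ n) (minpoly M n) = 0 := by
        rw [← AlgEquiv.coe_toAlgHom, Polynomial.aeval_algHom_apply, minpoly.aeval, map_zero]
      have h2 := Polynomial.aeval_algebraMap_apply Ω (σ n) (minpoly M n)
      rw [h1, map_zero] at h2
      exact h2
  have hk : Fact p.Prime := ⟨hp⟩
  have hchi : ∀ σ : N ≃ₐ[M] N, D2.GalRam.chi h M N ⟨σ, hdec σ⟩ = 1 := by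
    intro σ
    funext n
    obtain ⟨j, c, hcM, hc0, hcv⟩ := hfull (n.1 : Ω)
      ((Algebra.IsAlgebraic.isAlgebraic (R := M) n.1).algebraMap) (D2.GalRam.coe_ne n.2)
    let c' : N := algebraMap M N ⟨c, hcM⟩
    have hc' : ((c' : N) : Ω) = c := rfl
    have hc'0 : c' ≠ 0 := by
      intro h0
      apply hc0
      rw [← hc', h0]
      rfl
    -- the power
    let m : N := n.1 ^ p ^ j
    have hm0 : m ≠ 0 := pow_ne_zero _ n.2
    have hmc : ((m : N) : Ω) = (n.1 : Ω) ^ p ^ j := rfl
    let w : N := m / c'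
    have hw0 : w ≠ 0 := div_ne_zero hm0 hc'0
    have hw : ((w : N) : Ω) = (m : Ω) / c := rfl
    have hwv : v (w : Ω) = 0 := by
      rw [hw, v.map_div (D2.GalRam.coe_ne hm0) hc0, hmc, val_pow_cast (D2.GalRam.coe_ne n.2), hcv]
      push_cast
      ring
    have hwge : v.Ge 0 (w : Ω) := fun _ => by rw [hwv]
    have h1 := D2.GalRam.inert h (hdec σ) hwge
    have h2 : ((σ m : N) : Ω) = ((σ w : N) : Ω) * c := by
      have h3 : m = w * c' := (div_mul_cancel₀ _ hc'0).symm
      have h4 : σ c' = c' := σ.commutes _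
      rw [h3, map_mul, h4]
      rfl
    have h3 : (m : Ω) = (w : Ω) * c := by
      rw [hw, div_mul_cancel₀ _ hc0]
    have hwne : (w : Ω) ≠ 0 := D2.GalRam.coe_ne hw0
    have h4 : ((σ m : N) : Ω) / (m : Ω) - algebraMap k Ω 1 =
        (((σ w : N) : Ω) - w) * (w : Ω)⁻¹ := by
      rw [h2, h3, mul_div_mul_right _ _ hc0, _root_.map_one, sub_mul, mul_inv_cancel₀ hwne,
        div_eq_mul_inv]
    have h5 : D2.GalRam.rs v k (((σ m : N) : Ω) / (m : Ω)) = 1 := by
      refine D2.GalRam.rs_eq h (D2.GalRam.quot_ge (hdec σ) hm0) ?_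
      rw [h4]
      refine h1.mul ?_
      intro _
      rw [v.map_inv hwne, hwv, neg_zero]
    have h6 : ((σ m : N) : Ω) / (m : Ω) = (((σ n.1 : N) : Ω) / (n.1 : Ω)) ^ p ^ j := by
      have h7 : σ m = (σ n.1) ^ p ^ j := map_pow σ _ _
      rw [h7, hmc, div_pow]
      rfl
    have hq := D2.GalRam.quot_ge (hdec σ) n.2
    have h8 : ∀ i : ℕ, v.Ge 0 ((((σ n.1 : N) : Ω) / (n.1 : Ω)) ^ i) ∧
        D2.GalRam.rs v k ((((σ n.1 : N) : Ω) / (n.1 : Ω)) ^ i) =
        (D2.GalRam.rs v k (((σ n.1 : N) : Ω) / (n.1 : Ω))) ^ i := by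
      intro i
      induction i with
      | zero =>
        rw [pow_zero, pow_zero]
        exact ⟨fun _ => by rw [v.map_one], D2.GalRam.rs_one h⟩
      | succ i ih =>
        rw [pow_succ, pow_succ]
        refine ⟨by simpa using ih.1.mul hq, ?_⟩
        rw [D2.GalRam.rs_mul h ih.1 hq, ih.2]
    show D2.GalRam.rs v k (((σ n.1 : N) : Ω) / (n.1 : Ω)) = 1
    rw [h6, (h8 _).2] at h5
    set t : k := D2.GalRam.rs v k (((σ n.1 : N) : Ω) / (n.1 : Ω)) with ht
    have h9 : (t - 1) ^ p ^ j = 0 := by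
      rw [sub_pow_char_pow, h5, one_pow, sub_self]
    exact sub_eq_zero.1 (pow_eq_zero_iff (pow_ne_zero _ hp.ne_zero) |>.1 h9)
  have hfin : IsOfFinOrder x := isOfFinOrder_of_finite x
  have hm : orderOf x ≠ 0 := (orderOf_pos_iff.2 hfin).ne'
  obtain ⟨e, n', hn', hmn⟩ := Nat.exists_eq_pow_mul_and_not_dvd hm p hp.ne_one
  refine ⟨e, ?_⟩
  refine D2.GalRam.tame_trivial p h (hdec _) (hchi _) n' hn' ?_
  rw [← pow_mul, ← hmn]
  exact pow_orderOf_eq_one x

/-- Over a henselian field with all tame values (and residue field `k`) every finite separable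
extension is a tower of Artin-Schreier steps. -/
theorem as_induction_pv [IsAlgClosed Ω] [IsAlgClosed k] (p : ℕ) (hp : p.Prime) [CharP k p]
    (h : Ctx0 k v) (M : IntermediateField k Ω) (hM : hen v M = M) (hfull : PV p v M)
    (Q : IntermediateField k Ω → Prop) (h0 : Q M)
    (hstep : ∀ (M' : IntermediateField k Ω) (η : Ω), M ≤ M' → hen v M' = M' →
      (∀ g ∈ M', IsSeparable M g) → Q M' → η ^ p - η ∈ M' → η ∉ M' → Q (adj M' η))
    (S : Finset Ω) (hS : ∀ s ∈ S, IsSeparable M s) :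
    Q (M ⊔ IntermediateField.adjoin k (S : Set Ω)) := by
  obtain ⟨N, hN1, hN2, hN3⟩ := exists_galois M S hS
  set K : IntermediateField k Ω := M ⊔ IntermediateField.adjoin k (S : Set Ω) with hK
  have hKN : ∀ g ∈ K, g ∈ N := by
    have : K ≤ N.restrictScalars k := by
      rw [hK]
      refine sup_le ?_ ?_
      · intro g hg
        exact N.algebraMap_mem ⟨g, hg⟩
      · rw [IntermediateField.adjoin_le_iff]
        exact fun g hg => hN3 g hg
    exact fun g hg => this hg
  obtain ⟨H, hH⟩ := exists_fixO_eq M N K le_sup_left hKN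
  rw [← hH]
  refine LU1.GT.down (D := ⊤) (q := fun ℓ => ℓ = p) (P := fun A => Q (fixO M N A)) ?_
    (LU1.GT.chain_p p hp ⊤ ⊤ le_rfl (fun x _ => pgroup_pv p hp h M hM hfull N x) H le_top) ?_
  · rintro X Y ⟨hXY, -, hn, ℓ, hl, hlp, hi⟩ hY
    subst hlp
    obtain ⟨η, h1, h2, h3⟩ := as_gen ℓ hl M N X Y hXY hn hi
    rw [h3]
    refine hstep _ η ?_ ?_ ?_ hY h1 h2
    · intro x hx
      exact (mem_fixO M N Y x).2 ⟨algebraMap M N ⟨x, hx⟩, rfl, fun σ _ => σ.commutes _⟩
    · obtain ⟨S', hS', h4⟩ := fixO_eq_sup M N Y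
      rw [h4]
      exact hen_sup h hM S' hS'
    · intro g hg
      obtain ⟨n, rfl, -⟩ := (mem_fixO M N Y g).1 hg
      have h1 : IsSeparable M n := Algebra.IsSeparable.isSeparable M n
      have h2 : minpoly M (n : Ω) = minpoly M n := minpoly.algebraMap_eq (A := M)
        (B := N) (B' := Ω) Subtype.val_injective n
      rw [IsSeparable, h2]
      exact h1
  · show Q (fixO M N ⊤)
    rw [fixO_top]
    exact h0

end Pool.Agent.TWCT
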