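import Pool.Agent.Lib.TWCT.Tame
import Pool.Agent.Lib.D2P.A1
import Pool.Agent.Lib.LU1_h15.Base_G0s

/-!
# TANK W, row CT.0: reduced Artin-Schreier generators

* `LD v M`: `M` is locally discrete (every finite subset is in a subfield with a discrete value
  group); `ND p v M`: the value group of `M` is not `p`-divisible;
* `LD.alg`: algebraic extensions are locally discrete;
* `exists_red`: over a henselian `M` with `LD` and `ND` every `b` is `c ^ p - c` up to an element
  whose value is negative and not `p` times a value of `M`;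
* `nd_adj`, `val_adj`: the values of `M(θ)`, `θ` a reduced Artin-Schreier generator.
-/

set_option autoImplicit false

open Polynomial

namespace Pool.Agent.TWCT

open Pool.Agent.H15JM (RVal)
open Pool.Agent.LU1 (VPos adj)
open Pool.Agent.LUC (Cl clF)
open Pool.Agent.D2 (Ctx0)
open Pool.Agent.D2P

universe u

variable {k Ω : Type u} [Field k] [Field Ω] [Algebra k Ω] {v : RVal Ω}

/-! ## Hensel's lemma -/

theorem as_hensel [IsAlgClosed Ω] (p : ℕ) (hp : p.Prime) [CharP k p] (h : Ctx0 k v)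
    {M : IntermediateField k Ω} (hM : hen v M = M) {b : Ω} (hb : b ∈ M) (hv : VPos v b) :
    ∃ c ∈ M, VPos v c ∧ c ^ p - c = b := by
  have hcΩ : CharP Ω p := charP_big (k := k) p
  have hfp : Fact p.Prime := ⟨hp⟩
  have hp1 : (1 : ℝ) < p := by exact_mod_cast hp.one_lt
  obtain ⟨a, ha⟩ : ∃ a : Ω, a ^ p - a = b := by
    have hd : (X ^ p - X - C b : Polynomial Ω).degree = p := by
      rw [sub_sub]
      have h1 : (X + C b : Polynomial Ω).degree < (X ^ p : Polynomial Ω).degree := by
        rw [degree_X_pow, degree_X_add_C]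
        exact_mod_cast hp.one_lt
      rw [degree_sub_eq_left_of_degree_lt h1, degree_X_pow]
    obtain ⟨a, ha⟩ := IsAlgClosed.exists_root (X ^ p - X - C b : Polynomial Ω) (by
      rw [hd]
      exact_mod_cast hp.ne_zero)
    refine ⟨a, ?_⟩
    rw [IsRoot.def, eval_sub, eval_sub, eval_pow, eval_X, eval_C] at ha
    exact sub_eq_zero.1 ha
  have hage : v.Ge 0 a := by
    intro ha0
    by_contra hlt
    push Not at hlt
    have h1 : v (a ^ p) < v (-a) := by
      rw [v.map_pow ha0, v.map_neg _ ha0]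
      nlinarith
    have h2 := v.add_of_lt (pow_ne_zero p ha0) (neg_ne_zero.2 ha0) h1
    rw [← sub_eq_add_neg, ha, v.map_pow ha0] at h2
    have h3 := hv h2.1
    rw [h2.2] at h3
    nlinarith
  obtain ⟨c, hc⟩ := h.residue hage
  have h1 : c ^ p - c = 0 := by
    refine h.const_eq_zero ?_
    have h2 : algebraMap k Ω (c ^ p - c) =
        b - ((a - algebraMap k Ω c) ^ p - (a - algebraMap k Ω c)) := by
      rw [A1aux.sub_pow_eq (k := k) p hp, ha, map_sub, map_pow]
      ring
    rw [h2]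
    refine hv.sub (VPos.sub ?_ hc)
    intro h0
    have h3 : a - algebraMap k Ω c ≠ 0 := fun h4 => h0 (by rw [h4, zero_pow hp.ne_zero])
    rw [v.map_pow h3]
    have := hc h3
    positivity
  set a' := a - algebraMap k Ω c with ha'
  have h2 : a' ^ p - a' = b := by
    rw [ha', A1aux.sub_pow_eq (k := k) p hp, ha, ← map_pow, ← map_sub, h1, map_zero, sub_zero]
  refine ⟨a', ?_, hc, h2⟩
  have hsep : IsSeparable M a' := A1aux.as_isSeparable p M (by rw [h2]; exact hb)
  refine mem_of_conj hsep fun a'' ha'' => ?_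
  have h3 := val_root h hM hsep.isIntegral.isAlgebraic ha''
  have h4 : a'' ^ p - a'' = b := by
    let t : M := ⟨b, hb⟩
    have h5 : aeval a' (X ^ p - X - C t : M[X]) = 0 := by
      rw [map_sub, map_sub, map_pow, aeval_X, aeval_C]
      show a' ^ p - a' - b = 0
      rw [h2, sub_self]
    obtain ⟨Q, hQ⟩ := minpoly.dvd M a' h5
    have h6 : aeval a'' (X ^ p - X - C t : M[X]) = 0 := by
      rw [hQ, map_mul, ha'', zero_mul]
    rw [map_sub, map_sub, map_pow, aeval_X, aeval_C] at h6
    exact sub_eq_zero.1 h6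
  by_contra hne
  have hd0 : a'' - a' ≠ 0 := sub_ne_zero.2 hne
  have h5 : (a'' - a') ^ p = a'' - a' := by
    have := A1aux.sub_pow_eq (k := k) p hp a'' a'
    rw [h4, h2, sub_self] at this
    exact sub_eq_zero.1 this
  have h6 : VPos v (a'' - a') := by
    refine VPos.sub ?_ hc
    intro h0
    rw [h3]
    have h7 : a' ≠ 0 := by
      intro h8
      rw [h8] at ha''
      have h9 : minpoly M (0 : Ω) = X := minpoly.zero M Ω
      rw [h9, aeval_X] at ha''
      exact h0 ha''
    exact hc h7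
  have h7 := h6 hd0
  have h8 := v.map_pow hd0 p
  rw [h5] at h8
  nlinarith

/-! ## Values of algebraic elements -/

theorem comm_value_le (K : IntermediateField k Ω) {g : Ω} (hg : g ≠ 0) {P : Polynomial K}
    (hP : P ≠ 0) (hPg : aeval g P = 0) :
    ∃ c ∈ K, c ≠ 0 ∧ ∃ m : ℕ, 0 < m ∧ m ≤ P.natDegree ∧ v c = m * v g := by
  have hc : ∀ i ∈ P.support, ((P.coeff i : K) : Ω) ≠ 0 := by
    intro i hi h0
    have h1 : P.coeff i = 0 := by
      ext
      exact h0
    exact (Polynomial.mem_support_iff.1 hi) h1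
  have hsum : ∑ i ∈ P.support, ((P.coeff i : K) : Ω) * g ^ i = 0 := by
    rw [Polynomial.aeval_def, Polynomial.eval₂_eq_sum, Polynomial.sum_def] at hPg
    exact hPg
  have hex : ∃ i ∈ P.support, ∃ j ∈ P.support, i < j ∧
      v (((P.coeff i : K) : Ω) * g ^ i) = v (((P.coeff j : K) : Ω) * g ^ j) := by
    by_contra hcon
    push Not at hcon
    refine (LU1.sum_distinct (v := v) P.support ?_
      (fun i => ((P.coeff i : K) : Ω) * g ^ i) ?_ ?_).1 hsum
    · rw [Finset.nonempty_iff_ne_empty]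
      intro h0
      exact hP (Polynomial.support_eq_empty.1 h0)
    · intro i hi
      exact mul_ne_zero (hc i hi) (pow_ne_zero _ hg)
    · intro i hi j hj hij
      rcases lt_trichotomy i j with h1 | h1 | h1
      · exact absurd hij (hcon i hi j hj h1)
      · exact h1
      · exact absurd hij.symm (hcon j hj i hi h1)
  obtain ⟨i, hi, j, hj, hij, heq⟩ := hex
  rw [v.map_mul (hc i hi) (pow_ne_zero _ hg), v.map_mul (hc j hj) (pow_ne_zero _ hg),
    v.map_pow hg, v.map_pow hg] at heq
  refine ⟨(P.coeff i : Ω) / (P.coeff j : Ω), div_mem (P.coeff i).2 (P.coeff j).2,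
    div_ne_zero (hc i hi) (hc j hj), j - i, by omega, ?_, ?_⟩
  · have := Polynomial.le_natDegree_of_mem_supp j hj
    omega
  · rw [v.map_div (hc i hi) (hc j hj), Nat.cast_sub hij.le]
    linarith

/-- `M` is locally discrete. -/
def LD (v : RVal Ω) (M : IntermediateField k Ω) : Prop :=
  ∀ S : Finset Ω, (∀ s ∈ S, s ∈ M) → ∃ F : IntermediateField k Ω, F ≤ M ∧ (∀ s ∈ S, s ∈ F) ∧
    ∃ π ∈ F, π ≠ 0 ∧ 0 < v π ∧ ∀ g ∈ F, g ≠ 0 → ∃ m : ℤ, v g = m * v π

/-- The value group of `M` is not `p`-divisible. -/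
def ND (p : ℕ) (v : RVal Ω) (M : IntermediateField k Ω) : Prop :=
  ∃ t ∈ M, t ≠ 0 ∧ ∀ g ∈ M, g ≠ 0 → v t ≠ p * v g

/-- From multiples of a positive number to a uniformizer. -/
theorem exists_unif {F : IntermediateField k Ω} {γ : ℝ} (hγ : 0 < γ) {x : Ω} (hx : x ∈ F)
    (hx0 : x ≠ 0) (hxv : 0 < v x) (hF : ∀ g ∈ F, g ≠ 0 → ∃ m : ℤ, v g = m * γ) :
    ∃ π ∈ F, π ≠ 0 ∧ 0 < v π ∧ ∀ g ∈ F, g ≠ 0 → ∃ m : ℤ, v g = m * v π := by
  classical
  have hex : ∃ n : ℕ, 0 < n ∧ ∃ g ∈ F, g ≠ 0 ∧ v g = n * γ := by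
    obtain ⟨m, hm⟩ := hF x hx hx0
    have h1 : 0 < m := by
      have h2 : (0 : ℝ) < m * γ := hm ▸ hxv
      have h3 : (0 : ℝ) < m := by
        by_contra h4
        push Not at h4
        nlinarith
      exact_mod_cast h3
    refine ⟨m.toNat, by omega, x, hx, hx0, ?_⟩
    rw [hm]
    congr 1
    have : ((m.toNat : ℤ) : ℝ) = (m : ℝ) := by rw [Int.toNat_of_nonneg h1.le]
    exact_mod_cast this.symm
  set n := Nat.find hex with hn
  obtain ⟨hn0, π, hπ, hπ0, hπv⟩ := Nat.find_spec hex
  have hmin : ∀ m : ℕ, 0 < m → (∃ g ∈ F, g ≠ 0 ∧ v g = m * γ) → n ≤ m := fun m h1 h2 =>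
    Nat.find_min' hex ⟨h1, h2⟩
  rw [← hn] at hn0 hπv
  have hnR : (0 : ℝ) < n := by exact_mod_cast hn0
  refine ⟨π, hπ, hπ0, by rw [hπv]; positivity, fun g hg hg0 => ?_⟩
  obtain ⟨l, hl⟩ := hF g hg hg0
  refine ⟨l / n, ?_⟩
  have h1 : l = n * (l / n) + l % n := (Int.mul_ediv_add_emod l n).symm
  have h1R : (l : ℝ) = n * ((l / n : ℤ) : ℝ) + ((l % n : ℤ) : ℝ) := by exact_mod_cast h1
  have h2 : 0 ≤ l % n := Int.emod_nonneg _ (by omega)
  have h3 : l % n < n := Int.emod_lt_of_pos _ (by omega)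
  have h4 : v (g * (π ^ (l / n))⁻¹) = (l % n : ℤ) * γ := by
    rw [v.map_mul hg0 (inv_ne_zero (zpow_ne_zero _ hπ0)), v.map_inv (zpow_ne_zero _ hπ0),
      v.map_zpow hπ0, hπv, hl, h1R]
    ring
  by_cases h5 : l % n = 0
  · rw [hl, hπv, h1R, h5]
    push_cast
    ring
  · exfalso
    have h6 := hmin (l % n).toNat (by omega) ⟨g * (π ^ (l / n))⁻¹,
      mul_mem hg (inv_mem (zpow_mem hπ _)), mul_ne_zero hg0 (inv_ne_zero (zpow_ne_zero _ hπ0)), by
        rw [h4]
        congr 1
        have : (((l % n).toNat : ℤ) : ℝ) = ((l % n : ℤ) : ℝ) := by rw [Int.toNat_of_nonneg h2]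
        exact_mod_cast this.symm⟩
    omega

theorem LD.alg {N M : IntermediateField k Ω} (h : LD v N) (hNM : N ≤ M)
    (ha : ∀ g ∈ M, IsAlgebraic N g) : LD v M := by
  classical
  intro S hS
  let T : Finset Ω := S.biUnion fun s =>
    (Finset.range ((minpoly N s).natDegree + 1)).image fun i => (((minpoly N s).coeff i : N) : Ω)
  obtain ⟨F, hFN, hTF, π, hπ, hπ0, hπv, hF⟩ := h T (by
    intro t ht
    obtain ⟨s, -, ht⟩ := Finset.mem_biUnion.1 ht
    obtain ⟨i, -, rfl⟩ := Finset.mem_image.1 ht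
    exact ((minpoly N s).coeff i).2)
  let L : IntermediateField F Ω := IntermediateField.adjoin F (S : Set Ω)
  have hint : ∀ s ∈ S, IsIntegral F s := by
    intro s hs
    have h1 : IsIntegral N s := (ha s (hS s hs)).isIntegral
    have h2 : minpoly N s ∈ lifts (IntermediateField.inclusion hFN).toRingHom := by
      rw [lifts_iff_coeff_lifts]
      intro i
      by_cases hi : i ≤ (minpoly N s).natDegree
      · refine ⟨⟨(((minpoly N s).coeff i : N) : Ω), hTF _ ?_⟩, Subtype.ext rfl⟩
        refine Finset.mem_biUnion.2 ⟨s, hs, Finset.mem_image.2 ⟨i, ?_, rfl⟩⟩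
        rw [Finset.mem_range]
        omega
      · rw [coeff_eq_zero_of_natDegree_lt (by omega)]
        exact ⟨0, map_zero _⟩
    obtain ⟨Q, hQ, -, hQm⟩ := lifts_and_natDegree_eq_and_monic h2 (minpoly.monic h1)
    refine ⟨Q, hQm, ?_⟩
    have h3 : aeval s (Q.map (IntermediateField.inclusion hFN).toRingHom) = 0 := by
      rw [hQ, minpoly.aeval]
    rw [aeval_def, eval₂_map] at h3
    exact h3
  have hfin : FiniteDimensional F L := IntermediateField.finiteDimensional_adjoin hint
  set d := Module.finrank F L with hd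
  have hLM : L.restrictScalars k ≤ M := by
    intro g hg
    have h1 : L ≤ (IntermediateField.extendScalars (hFN.trans hNM)) := by
      rw [IntermediateField.adjoin_le_iff]
      intro s hs
      rw [SetLike.mem_coe, IntermediateField.mem_extendScalars]
      exact hS s hs
    exact h1 hg
  have hFL : F ≤ L.restrictScalars k := fun g hg => L.algebraMap_mem ⟨g, hg⟩
  have hval : ∀ g ∈ L.restrictScalars k, g ≠ 0 → ∃ m : ℤ, v g = m * (v π / d.factorial) := by
    intro g hg hg0
    have hgL : g ∈ L := hg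
    have hmin : minpoly F g = minpoly F (⟨g, hgL⟩ : L) :=
      minpoly.algebraMap_eq (algebraMap L Ω).injective (⟨g, hgL⟩ : L)
    have h1 : (minpoly F g).natDegree ≤ d := by
      rw [hmin]
      exact minpoly.natDegree_le _
    have h2 : IsIntegral F g := (IsIntegral.of_finite F (⟨g, hgL⟩ : L)).map L.val
    obtain ⟨c, hc, hc0, m, hm0, hmd, hcv⟩ := comm_value_le (v := v) F hg0 (minpoly.ne_zero h2)
      (minpoly.aeval F g)
    obtain ⟨l, hl⟩ := hF c hc hc0
    obtain ⟨e, he⟩ : m ∣ d.factorial := Nat.dvd_factorial hm0 (hmd.trans h1)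
    refine ⟨e * l, ?_⟩
    have h3 : (m : ℝ) ≠ 0 := by exact_mod_cast hm0.ne'
    have he0 : (e : ℝ) ≠ 0 := by
      intro h0
      have h4 : e = 0 := by exact_mod_cast h0
      rw [h4, mul_zero] at he
      exact Nat.factorial_ne_zero d he
    rw [he]
    push_cast
    rw [hl] at hcv
    field_simp
    linarith
  obtain ⟨π', h1, h2, h3, h4⟩ := exists_unif (F := L.restrictScalars k)
    (γ := v π / d.factorial) (by positivity) (hFL hπ) hπ0 hπv hval
  exact ⟨L.restrictScalars k, hLM, fun s hs => IntermediateField.subset_adjoin F _ hs, π', h1, h2,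
    h3, h4⟩

/-! ## Reduced generators -/

theorem exists_red [IsAlgClosed Ω] [IsAlgClosed k] (p : ℕ) (hp : p.Prime) [CharP k p]
    (h : Ctx0 k v) {M : IntermediateField k Ω} (hM : hen v M = M) (hL : LD v M) (hN : ND p v M)
    {b : Ω} (hb : b ∈ M) :
    ∃ c ∈ M, b = c ^ p - c ∨ (b - (c ^ p - c) ≠ 0 ∧ v (b - (c ^ p - c)) < 0 ∧
      ∀ g ∈ M, g ≠ 0 → v (b - (c ^ p - c)) ≠ p * v g) := by
  classical
  have hcΩ : CharP Ω p := charP_big (k := k) p
  have hfp : Fact p.Prime := ⟨hp⟩
  have hp1 : (1 : ℝ) < p := by exact_mod_cast hp.one_lt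
  obtain ⟨t, ht, ht0, htn⟩ := hN
  obtain ⟨F, hFM, hSF, π, hπ, hπ0, hπv, hF⟩ := hL {b, t} (by
    intro s hs
    rw [Finset.mem_insert, Finset.mem_singleton] at hs
    rcases hs with rfl | rfl
    · exact hb
    · exact ht)
  have hbF : b ∈ F := hSF b (Finset.mem_insert_self _ _)
  have htF : t ∈ F := hSF t (Finset.mem_insert_of_mem (Finset.mem_singleton_self _))
  have hadd : ∀ x y : Ω, (x + y) ^ p - (x + y) = (x ^ p - x) + (y ^ p - y) := by
    intro x y
    rw [add_pow_char]
    ring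
  -- positive values
  have hpos : ∀ b ∈ M, VPos v b → ∃ c ∈ M, b = c ^ p - c := by
    intro b hb hbv
    obtain ⟨c, hc, -, hcb⟩ := as_hensel p hp h hM hb hbv
    exact ⟨c, hc, hcb.symm⟩
  have hkey : ∀ n : ℕ, ∀ b ∈ F, (b ≠ 0 → -(n : ℝ) * v π ≤ v b) →
      ∃ c ∈ M, b = c ^ p - c ∨ (b - (c ^ p - c) ≠ 0 ∧ v (b - (c ^ p - c)) < 0 ∧
        ∀ g ∈ M, g ≠ 0 → v (b - (c ^ p - c)) ≠ p * v g) := by
    have hge : ∀ b ∈ F, v.Ge 0 b → ∃ c ∈ M, b = c ^ p - c := by
      intro b hb hb0
      obtain ⟨c0, hc0⟩ := h.residue hb0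
      obtain ⟨d, hd⟩ : ∃ d : k, d ^ p - d = c0 := by
        have hdg : (X ^ p - X - C c0 : k[X]).degree = p := by
          rw [sub_sub]
          have h1 : (X + C c0 : k[X]).degree < (X ^ p : k[X]).degree := by
            rw [degree_X_pow, degree_X_add_C]
            exact_mod_cast hp.one_lt
          rw [degree_sub_eq_left_of_degree_lt h1, degree_X_pow]
        obtain ⟨a, ha⟩ := IsAlgClosed.exists_root (X ^ p - X - C c0 : k[X]) (by
          rw [hdg]
          exact_mod_cast hp.ne_zero)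
        refine ⟨a, ?_⟩
        rw [IsRoot.def, eval_sub, eval_sub, eval_pow, eval_X, eval_C] at ha
        exact sub_eq_zero.1 ha
      obtain ⟨c, hc, hcb⟩ := hpos (b - algebraMap k Ω c0)
        (sub_mem (hFM hb) (M.algebraMap_mem c0)) hc0
      refine ⟨c + algebraMap k Ω d, add_mem hc (M.algebraMap_mem d), ?_⟩
      rw [hadd, ← hcb, ← map_pow, ← map_sub, hd]
      ring
    intro n
    induction n with
    | zero =>
      intro b hb hbn
      obtain ⟨c, hc, hcb⟩ := hge b hb (fun h0 => by simpa using hbn h0)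
      exact ⟨c, hc, Or.inl hcb⟩
    | succ n ih =>
      intro b hb hbn
      by_cases hb0 : v.Ge 0 b
      · obtain ⟨c, hc, hcb⟩ := hge b hb hb0
        exact ⟨c, hc, Or.inl hcb⟩
      unfold RVal.Ge at hb0
      push Not at hb0
      obtain ⟨hbne, hbneg⟩ := hb0
      by_cases hred : ∀ g ∈ M, g ≠ 0 → v b ≠ p * v g
      · refine ⟨0, M.zero_mem, Or.inr ?_⟩
        rw [zero_pow hp.ne_zero, sub_zero, sub_zero]
        exact ⟨hbne, hbneg, hred⟩
      push Not at hred
      obtain ⟨g, hg, hg0, hgv⟩ := hred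
      obtain ⟨m, hm⟩ := hF b hb hbne
      obtain ⟨mt, hmt⟩ := hF t htF ht0
      have hdvd : (p : ℤ) ∣ m := by
        by_contra hnd
        have h1 : IsCoprime m (p : ℤ) :=
          ((Nat.prime_iff_prime_int.1 hp).coprime_iff_not_dvd.2 hnd).symm
        obtain ⟨u, w, huw⟩ := h1
        refine htn (g ^ (mt * u) * π ^ (mt * w)) (mul_mem (zpow_mem hg _)
          (zpow_mem (hFM hπ) _)) (mul_ne_zero (zpow_ne_zero _ hg0) (zpow_ne_zero _ hπ0)) ?_
        rw [v.map_mul (zpow_ne_zero _ hg0) (zpow_ne_zero _ hπ0), v.map_zpow hg0, v.map_zpow hπ0,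
          hmt]
        have h2 : (u : ℝ) * m + w * p = 1 := by exact_mod_cast huw
        have h3 : (p : ℝ) * v g = m * v π := by rw [← hgv, hm]
        push_cast
        calc (mt : ℝ) * v π = mt * (u * m + w * p) * v π := by rw [h2, mul_one]
          _ = mt * u * (m * v π) + p * (mt * w * v π) := by ring
          _ = mt * u * (p * v g) + p * (mt * w * v π) := by rw [h3]
          _ = p * (mt * u * v g + mt * w * v π) := by ring
      obtain ⟨m', rfl⟩ := hdvd
      set e := π ^ m' with he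
      have heF : e ∈ F := zpow_mem hπ _
      have he0 : e ≠ 0 := zpow_ne_zero _ hπ0
      have hev : v e = m' * v π := v.map_zpow hπ0 _
      have hm'neg : (m' : ℝ) < 0 := by
        rw [hm] at hbneg
        push_cast at hbneg
        by_contra hcon
        push Not at hcon
        have : 0 ≤ (p : ℝ) * m' * v π := by positivity
        linarith
      have hq0 : b / e ^ p ≠ 0 := div_ne_zero hbne (pow_ne_zero _ he0)
      have hqv : v (b / e ^ p) = 0 := by
        rw [v.map_div hbne (pow_ne_zero _ he0), v.map_pow he0, hev, hm]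
        push_cast
        ring
      obtain ⟨c0, hc00, hc0⟩ := h.res (b / e ^ p) hq0 hqv
      obtain ⟨d, hd⟩ := IsAlgClosed.exists_pow_nat_eq c0 hp.pos
      have hd0 : d ≠ 0 := by
        rintro rfl
        rw [zero_pow hp.ne_zero] at hd
        exact hc00 hd.symm
      set δ := algebraMap k Ω d * e with hδ
      have hdΩ : algebraMap k Ω d ≠ 0 := (_root_.map_ne_zero _).2 hd0
      have hδ0 : δ ≠ 0 := mul_ne_zero hdΩ he0
      have hδv : v δ = m' * v π := by
        rw [hδ, v.map_mul hdΩ he0, h.triv d hd0, hev, zero_add]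
      have hδF : δ ∈ F := mul_mem (F.algebraMap_mem d) heF
      set b' := b - (δ ^ p - δ) with hb'
      have hb'F : b' ∈ F := sub_mem hb (sub_mem (pow_mem hδF p) hδF)
      have hb'v : b' ≠ 0 → v b < v b' := by
        intro hb'0
        have h1 : b' = e ^ p * (b / e ^ p - algebraMap k Ω c0) + δ := by
          rw [hb', hδ, ← hd, map_pow]
          field_simp
          ring
        have h2 : ∀ x : Ω, x ≠ 0 → x = e ^ p * (b / e ^ p - algebraMap k Ω c0) → v b < v x := by
          intro x hx0 hx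
          have h3 : b / e ^ p - algebraMap k Ω c0 ≠ 0 := by
            intro h4
            rw [h4, mul_zero] at hx
            exact hx0 hx
          have h4 := hc0 h3
          rw [hx, v.map_mul (pow_ne_zero _ he0) h3, v.map_pow he0, hev, hm]
          push_cast
          linarith
        have h3 : v b < v δ := by
          rw [hδv, hm]
          push_cast
          nlinarith [mul_pos (sub_pos.2 hp1) (mul_pos_of_neg_of_neg hm'neg (neg_neg_of_pos hπv))]
        by_cases h4 : e ^ p * (b / e ^ p - algebraMap k Ω c0) = 0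
        · rw [h1, h4, zero_add]
          exact h3
        · have h5 := v.map_add h4 hδ0 (by rw [← h1]; exact hb'0)
          rw [← h1] at h5
          exact lt_of_lt_of_le (lt_min (h2 _ h4 rfl) h3) h5
      obtain ⟨c, hc, hcb⟩ := ih b' hb'F (by
        intro hb'0
        obtain ⟨l, hl⟩ := hF b' hb'F hb'0
        have h1 := hb'v hb'0
        have h2 := hbn hbne
        rw [hm, hl] at h1
        rw [hm] at h2
        have h3 : ((p : ℤ) * m' : ℤ) < l := by
          have h4 : (((p : ℤ) * m' : ℤ) : ℝ) < l := lt_of_mul_lt_mul_right h1 hπv.le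
          exact_mod_cast h4
        have h5 : -((n + 1 : ℕ) : ℤ) ≤ (p : ℤ) * m' := by
          have h6 : (-((n + 1 : ℕ) : ℝ)) ≤ (((p : ℤ) * m' : ℤ) : ℝ) :=
            le_of_mul_le_mul_right h2 hπv
          exact_mod_cast h6
        have h7 : -(n : ℤ) ≤ l := by
          push_cast at h5
          linarith
        rw [hl]
        refine mul_le_mul_of_nonneg_right ?_ hπv.le
        exact_mod_cast h7)
      have hsum : b - ((c + δ) ^ p - (c + δ)) = b' - (c ^ p - c) := by
        rw [hadd, hb']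
        ring
      refine ⟨c + δ, add_mem hc (hFM hδF), ?_⟩
      rcases hcb with hcb | hcb
      · left
        rw [hadd, ← hcb, hb']
        ring
      · right
        rw [hsum]
        exact hcb
  by_cases hb0 : b = 0
  · refine ⟨0, M.zero_mem, Or.inl ?_⟩
    rw [hb0, zero_pow hp.ne_zero, sub_zero]
  obtain ⟨m, hm⟩ := hF b hbF hb0
  refine hkey m.natAbs b hbF fun _ => ?_
  rw [hm]
  refine mul_le_mul_of_nonneg_right ?_ hπv.le
  have : -(m.natAbs : ℤ) ≤ m := by omega
  exact_mod_cast this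

end Pool.Agent.TWCT
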