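import Pool.Agent.Lib.TWCT.Defs

/-!
# TANK W, contact (III.1): Artin-Schreier elements over a henselian field

* `exists_conj`: over a henselian field `M` an algebraic element is moved to any of its conjugates
  by a global isometric embedding which is the identity on `M`;
* `as_int`, `as_pos`: the roots of `X ^ p - X - c` for `c` of value `≥ 0`, resp. `≥ e > 0`;
* `exists_as_conj`: an Artin-Schreier element which is not in `M`.
-/

set_option autoImplicit false

open Polynomial IntermediateField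

namespace Pool.Agent.TWCT

open Pool.Agent.H15JM (RVal)
open Pool.Agent.LU1 (VPos adj)
open Pool.Agent.LUC (Cl)
open Pool.Agent.D2 (Ctx0)
open Pool.Agent.D2P (hen clI mem_clI)
open Pool.Agent.TWM
open Pool.Agent.TWS

universe u

variable {k Ω : Type u} [Field k] [Field Ω] [Algebra k Ω] {v : RVal Ω} {Φ Ψ : Ω →ₐ[k] Ω}
  {M : IntermediateField k Ω}

/-- **Conjugation over a henselian field, by a global isometric embedding.** -/
theorem exists_conj [IsAlgClosed Ω] (hk : Ctx0 k v) (hw : SphC v)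
    (hval : ∀ ρ : ℝ, ∃ x : Ω, x ≠ 0 ∧ v x = ρ) (hM : hen v M = M) {θ θ' : Ω}
    (hθ : IsAlgebraic M θ) (h' : aeval θ' (minpoly M θ) = 0) :
    ∃ G : Ω →ₐ[k] Ω, IsoE v v G ∧ (∀ a ∈ M, G a = a) ∧ G θ = θ' := by
  let E : IntermediateField M Ω := algebraicClosure M Ω
  have hθE : θ ∈ E := mem_algebraicClosure_iff.2 hθ
  have hθ'E : θ' ∈ E := mem_algebraicClosure_iff.2
    ⟨minpoly M θ, minpoly.ne_zero hθ.isIntegral, h'⟩
  have : Normal M E := IsAlgClosure.normal M E
  have h1 : minpoly M (⟨θ, hθE⟩ : E) = minpoly M θ :=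
    (minpoly.algebraMap_eq (algebraMap E Ω).injective (⟨θ, hθE⟩ : E)).symm
  obtain ⟨σ, hσ⟩ := minpoly.exists_algEquiv_of_root' (K := M) (L := E) (y := ⟨θ, hθE⟩)
    (x := ⟨θ', hθ'E⟩) (Algebra.IsAlgebraic.isAlgebraic _) (by
      rw [h1]
      apply Subtype.ext
      have h2 := aeval_algebraMap_apply Ω (⟨θ', hθ'E⟩ : E) (minpoly M θ)
      rw [show algebraMap E Ω ⟨θ', hθ'E⟩ = θ' from rfl, h'] at h2
      exact h2.symm)
  let τ : Lifts k Ω Ω := ⟨E.restrictScalars k, (E.val.comp (σ : E →ₐ[M] E)).restrictScalars k⟩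
  have hτ : ∀ a : E, τ.emb a = ((σ a : E) : Ω) := fun a => rfl
  have key : ∀ a : E, v ((σ a : E) : Ω) = v (a : Ω) := by
    intro a
    have ha' : IsAlgebraic M (a : Ω) := mem_algebraicClosure_iff.1 a.2
    refine D2P.val_root hk hM ha' ?_
    have h3 : aeval (σ a) (minpoly M a) = 0 := by
      have h := aeval_algHom_apply (σ : E →ₐ[M] E) a (minpoly M a)
      rw [minpoly.aeval, map_zero] at h
      exact h
    have h4 : minpoly M a = minpoly M (a : Ω) :=
      (minpoly.algebraMap_eq (algebraMap E Ω).injective (a : E)).symm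
    have h5 := aeval_algebraMap_apply Ω (σ a : E) (minpoly M a)
    rw [h3, map_zero, h4] at h5
    exact h5
  have hI : IsoL v v τ := fun a _ => key a
  obtain ⟨G, hG, hG'⟩ := hI.exists_total hk hw hval
  refine ⟨G, hG, fun a ha => ?_, ?_⟩
  · have h6 := hG' (algebraMap M E ⟨a, ha⟩)
    rw [hτ] at h6
    have h7 : σ (algebraMap M E ⟨a, ha⟩) = algebraMap M E ⟨a, ha⟩ := σ.commutes _
    exact h6.trans (congrArg (fun z : E => (z : Ω)) h7)
  · have h6 := hG' (⟨θ, hθE⟩ : E)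
    rw [hτ] at h6
    exact h6.trans (congrArg (fun z : E => (z : Ω)) hσ)

section AS

variable (p : ℕ) [hp : Fact p.Prime] [CharP Ω p]

/-- The difference of two roots. -/
theorem as_diff {a b c : Ω} (ha : a ^ p - a = c) (hb : b ^ p - b = c) :
    ∃ n : ℤ, b = a + n := by
  have h1 : (b - a) ^ p = b - a := by
    rw [sub_pow_expChar]
    linear_combination hb - ha
  obtain ⟨n, hn⟩ := (mem_bot_iff_intCast p Ω).1 ((Subfield.mem_bot_iff_pow_eq_self Ω p).2 h1)
  exact ⟨n, by rw [hn]; ring⟩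

omit hp [CharP Ω p] in
theorem as_aeval {θ b : Ω} (hb : b ∈ M) (h : θ ^ p - θ = b) :
    aeval θ (X ^ p - X - C (⟨b, hb⟩ : M) : M[X]) = 0 := by
  rw [map_sub, map_sub, map_pow, aeval_X, aeval_C, h]
  exact sub_self b

omit hp in
/-- An Artin-Schreier element is separable. -/
theorem as_sep [NeZero p] {θ b : Ω} (hb : b ∈ M) (h : θ ^ p - θ = b) : IsSeparable M θ := by
  have hch : CharP M p := (algebraMap M Ω).charP (algebraMap M Ω).injective p
  have h1 : (X ^ p - X - C (⟨b, hb⟩ : M) : M[X]).Separable := by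
    have h2 : derivative (X ^ p - X - C (⟨b, hb⟩ : M) : M[X]) = -1 := by
      rw [derivative_sub, derivative_sub, derivative_X_pow, derivative_X, derivative_C,
        CharP.cast_eq_zero M p, map_zero, zero_mul, zero_sub, sub_zero]
    rw [Polynomial.Separable, h2]
    exact (isCoprime_one_right (x := (X ^ p - X - C (⟨b, hb⟩ : M) : M[X]))).neg_right
  exact h1.of_dvd (minpoly.dvd _ _ (as_aeval p hb h))

theorem val_int_ge (hk : Ctx0 k v) (n : ℤ) : v.Ge 0 (n : Ω) := by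
  have := hk.ge (n : k)
  rwa [map_intCast] at this

/-- An integer of value `> 0` is zero. -/
theorem int_eq_zero (hk : Ctx0 k v) {n : ℤ} (h : VPos v (n : Ω)) : (n : Ω) = 0 := by
  by_contra h0
  have h1 : (n : k) ≠ 0 := by
    intro h2
    apply h0
    rw [← map_intCast (algebraMap k Ω), h2, map_zero]
  have h2 := hk.triv (n : k) h1
  rw [map_intCast] at h2
  have h3 := h h0
  linarith

/-- The value of a root of negative value. -/
theorem as_val {θ b : Ω} (h : θ ^ p - θ = b) (h0 : θ ≠ 0) (hv : v θ < 0) :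
    b ≠ 0 ∧ v b = p * v θ := by
  have h1 : v (θ ^ p) = p * v θ := v.map_pow h0 p
  have h2 : (1 : ℝ) < p := by exact_mod_cast hp.out.one_lt
  have h3 : v (θ ^ p) < v θ := by
    rw [h1]
    nlinarith
  have h4 : θ ^ p ≠ 0 := pow_ne_zero _ h0
  have h5 : Gt v (v (θ ^ p)) (θ ^ p - b) := by
    rw [← h]
    have e : θ ^ p - (θ ^ p - θ) = θ := by ring
    rw [e]
    exact fun _ => h3
  obtain ⟨h6, h7⟩ := h5.val_eq h4
  exact ⟨h6, h7.trans h1⟩

/-- The roots for `c` of value `≥ 0`. -/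
theorem as_ge {ρ c : Ω} (h : ρ ^ p - ρ = c) (hc : v.Ge 0 c) : v.Ge 0 ρ := by
  intro h0
  by_contra hlt
  push Not at hlt
  obtain ⟨h1, h2⟩ := as_val p h h0 hlt
  have h3 := hc h1
  have h4 : (1 : ℝ) < p := by exact_mod_cast hp.out.one_lt
  rw [h2] at h3
  nlinarith

/-- The roots are in `M`. -/
theorem as_mem [IsAlgClosed Ω] (hk : Ctx0 k v) (hM : hen v M = M) {ρ c : Ω} (hcM : c ∈ M)
    (h : ρ ^ p - ρ = c) (hc : v.Ge 0 c) : ρ ∈ M := by
  have hsep := as_sep p hcM h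
  have h0 := as_ge p h hc
  obtain ⟨t, ht⟩ := hk.residue h0
  refine D2P.mem_of_conj hsep fun ρ' hρ' => ?_
  have h1 : ρ' ^ p - ρ' = c := by
    obtain ⟨Q, hQ⟩ := minpoly.dvd M ρ (as_aeval p hcM h)
    have h2 : aeval ρ' (X ^ p - X - C (⟨c, hcM⟩ : M) : M[X]) = 0 := by
      rw [hQ, map_mul, hρ', zero_mul]
    rw [map_sub, map_sub, map_pow, aeval_X, aeval_C, sub_eq_zero] at h2
    exact h2
  obtain ⟨n, hn⟩ := as_diff p h h1
  have htM : algebraMap k Ω t ∈ M := M.algebraMap_mem t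
  have h3 := D2P.val_sub_root hk hM htM hsep.isIntegral.isAlgebraic hρ'
  have h4 : VPos v (n : Ω) := by
    have e : (n : Ω) = (ρ' - algebraMap k Ω t) - (ρ - algebraMap k Ω t) := by rw [hn]; ring
    rw [e]
    by_cases h5 : ρ - algebraMap k Ω t = 0
    · have h6 : ρ' = ρ := by
        have h7 : ρ' ∈ ({ρ} : Set Ω) := by
          have h8 : ρ ∈ M := by
            rw [sub_eq_zero.1 h5]
            exact htM
          have h9 : minpoly M ρ = X - C (⟨ρ, h8⟩ : M) := minpoly.eq_X_sub_C Ω (⟨ρ, h8⟩ : M)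
          rw [h9, map_sub, aeval_X, aeval_C, sub_eq_zero] at hρ'
          exact hρ'
        exact h7
      rw [h6, sub_self]
      exact fun h => absurd rfl h
    · have h6 := ht h5
      refine Gt.sub (r := 0) (fun h7 => ?_) fun h7 => ?_
      · rw [h3]; exact h6
      · exact h6
  rw [hn, int_eq_zero hk h4, add_zero]

/-- The small root. -/
theorem as_pos [IsAlgClosed Ω] (hk : Ctx0 k v) {ρ c : Ω} {e : ℝ} (he : 0 ≤ e)
    (h : ρ ^ p - ρ = c) (hc : v.Ge e c) : ∃ n : ℤ, v.Ge e (ρ + n) := by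
  have h0 := as_ge p h (hc.mono he)
  rcases he.eq_or_lt with he | he
  · refine ⟨0, ?_⟩
    rw [← he, Int.cast_zero, add_zero]
    exact h0
  obtain ⟨t, ht⟩ := hk.residue h0
  set T := algebraMap k Ω t with hT
  -- the residue is fixed by the Frobenius
  have hpp : (0 : ℝ) < p := by exact_mod_cast hp.out.pos
  have h1 : VPos v ((ρ - T) ^ p) := by
    intro h2
    have h3 : ρ - T ≠ 0 := by
      intro h4
      rw [h4, zero_pow hp.out.ne_zero] at h2
      exact h2 rfl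
    rw [v.map_pow h3]
    exact mul_pos hpp (ht h3)
  have h2 : VPos v (T ^ p - T) := by
    have e1 : T ^ p - T = c - ((ρ - T) ^ p - (ρ - T)) := by
      rw [sub_pow_expChar, ← h]
      ring
    rw [e1]
    exact Gt.sub (r := 0) (Gt.of_ge hc he) (Gt.sub (r := 0) h1 ht)
  have h3 : T ^ p = T := by
    by_contra h4
    have h5 : T ^ p - T ≠ 0 := sub_ne_zero.2 h4
    have h6 : T ^ p - T = algebraMap k Ω (t ^ p - t) := by rw [map_sub, map_pow]
    have h7 : t ^ p - t ≠ 0 := by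
      intro h8
      exact h5 (by rw [h6, h8, map_zero])
    have h8 := hk.triv _ h7
    rw [← h6] at h8
    have := h2 h5
    linarith
  obtain ⟨n, hn⟩ := (mem_bot_iff_intCast p Ω).1 ((Subfield.mem_bot_iff_pow_eq_self Ω p).2 h3)
  refine ⟨-n, ?_⟩
  have e2 : ρ + ((-n : ℤ) : Ω) = ρ - T := by rw [← hn]; push_cast; ring
  rw [e2]
  have h4 : (ρ - T) ^ p - (ρ - T) = c := by
    rw [sub_pow_expChar, h3, ← h]
    ring
  intro h5
  have h6 := ht h5
  -- `v (ρ - T) = v c`
  have h7 : Gt v (v (ρ - T)) ((ρ - T) + c) := by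
    rw [← h4]
    have e3 : ρ - T + ((ρ - T) ^ p - (ρ - T)) = (ρ - T) ^ p := by ring
    rw [e3]
    intro _
    rw [v.map_pow h5]
    have h8 : (1 : ℝ) < p := by exact_mod_cast hp.out.one_lt
    nlinarith
  have h8 : Gt v (v (ρ - T)) ((ρ - T) - (-c)) := by rwa [sub_neg_eq_add]
  obtain ⟨h9, h10⟩ := h8.val_eq h5
  have h11 : c ≠ 0 := neg_ne_zero.1 h9
  rw [v.map_neg c h11] at h10
  rw [← h10]
  exact hc h11

/-- **The Galois motion of an Artin-Schreier element.** -/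
theorem exists_as_conj [IsAlgClosed Ω] (hk : Ctx0 k v) (hw : SphC v)
    (hval : ∀ ρ : ℝ, ∃ x : Ω, x ≠ 0 ∧ v x = ρ) (hM : hen v M = M) {θ b : Ω} (hb : b ∈ M)
    (h : θ ^ p - θ = b) (hθ : θ ∉ M) (n : ℤ) :
    ∃ G : Ω →ₐ[k] Ω, IsoE v v G ∧ (∀ a ∈ M, G a = a) ∧ G θ = θ + n := by
  have hsep := as_sep p hb h
  have h1 : ¬ ∀ θ' : Ω, aeval θ' (minpoly M θ) = 0 → θ' = θ := fun h2 =>
    hθ (D2P.mem_of_conj hsep h2)
  push Not at h1
  obtain ⟨θ', h2, h3⟩ := h1
  obtain ⟨G, hG, hGM, hGθ⟩ := exists_conj hk hw hval hM hsep.isIntegral.isAlgebraic h2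
  have h4 : θ' ^ p - θ' = b := by
    rw [← hGθ, ← map_pow, ← map_sub, h]
    exact hGM b hb
  obtain ⟨j, hj⟩ := as_diff p h h4
  have hj0 : (j : Ω) ≠ 0 := fun h5 => h3 (by rw [hj, h5, add_zero])
  -- the powers of `G`
  have hpow : ∀ m : ℕ, ∃ G' : Ω →ₐ[k] Ω, IsoE v v G' ∧ (∀ a ∈ M, G' a = a) ∧
      G' θ = θ + m * j := by
    intro m
    induction m with
    | zero => exact ⟨AlgHom.id k Ω, ⟨fun a _ => rfl⟩, fun a _ => rfl, by simp⟩
    | succ m ih =>
      obtain ⟨G', h5, h6, h7⟩ := ih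
      refine ⟨G.comp G', ⟨fun a ha => ?_⟩, fun a ha => ?_, ?_⟩
      · rw [AlgHom.comp_apply, hG.val _ (IsoE.ne_zero ha), h5.val a ha]
      · rw [AlgHom.comp_apply, h6 a ha, hGM a ha]
      · rw [AlgHom.comp_apply, h7, map_add, hGθ, hj, map_mul, map_natCast, map_intCast]
        push_cast
        ring
  -- solve `m * j = n`
  have hjp : ¬ (p : ℤ) ∣ j := by
    intro h5
    apply hj0
    rw [CharP.intCast_eq_zero_iff Ω p]
    exact h5
  have hcop : IsCoprime (p : ℤ) j := (Nat.prime_iff_prime_int.1 hp.out).coprime_iff_not_dvd.2 hjp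
  obtain ⟨a, c, hac⟩ := hcop
  have h5 : ((c * n) : Ω) * j = n := by
    have h6 : ((a * p + c * j : ℤ) : Ω) = ((1 : ℤ) : Ω) := by rw [hac]
    push_cast at h6
    rw [CharP.cast_eq_zero, mul_zero, zero_add] at h6
    calc ((c * n) : Ω) * j = n * (c * j) := by ring
      _ = n := by rw [h6, mul_one]
  obtain ⟨m, hm⟩ : ∃ m : ℕ, (m : Ω) = ((c * n : ℤ) : Ω) := by
    refine ⟨((c * n) % p).toNat, ?_⟩
    have h7 : (0 : ℤ) ≤ (c * n) % p := Int.emod_nonneg _ (by exact_mod_cast hp.out.ne_zero)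
    have h8 : ((((c * n) % p).toNat : ℤ) : Ω) = (((c * n) % p : ℤ) : Ω) := by
      rw [Int.toNat_of_nonneg h7]
    rw [Int.cast_natCast] at h8
    rw [h8, CharP.intCast_eq_intCast Ω p]
    exact Int.mod_modEq _ _
  obtain ⟨G', h6, h7, h8⟩ := hpow m
  refine ⟨G', h6, h7, ?_⟩
  rw [h8, hm]
  push_cast
  rw [h5]

end AS

end Pool.Agent.TWCT
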