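import Pool.Agent.Lib.TWCT.AS0

/-!
# TANK W, contact (III.1): one Artin-Schreier floor

`M` is henselian, `θ ^ p - θ ∈ M`, `v θ = - u < 0` is not a value of `M`.
* `as_orth`: the powers `θ ^ j`, `j < p`, are orthogonal over `M`;
* `as_strM`: the motion on `M(θ)`;
* `as_step`: a strict motion of `M` extends to a strict motion of `M(θ)`.
-/

set_option autoImplicit false

open Polynomial IntermediateField

namespace Pool.Agent.TWCT

open Pool.Agent.H15JM (RVal)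
open Pool.Agent.LU1 (VPos adj)
open Pool.Agent.LUC (Cl)
open Pool.Agent.D2 (Ctx0)
open Pool.Agent.D2P (hen clI mem_clI)
open Pool.Agent.TWM
open Pool.Agent.TWS

universe u

variable {k Ω : Type u} [Field k] [Field Ω] [Algebra k Ω] {v : RVal Ω} {Φ Ψ : Ω →ₐ[k] Ω}
  {M : IntermediateField k Ω}

/-- The elements of `M(x)` for `x` a root of a monic polynomial `q`. -/
theorem exists_rep_monic {x : Ω} {q : Polynomial M} (hq : q.Monic) (h0 : aeval x q = 0)
    (hd : q.natDegree ≠ 0) {f : Ω} (hf : f ∈ adj M x) :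
    ∃ P : Polynomial M, P.natDegree < q.natDegree ∧ aeval x P = f := by
  have hint : IsIntegral M x := ⟨q, hq, by rwa [aeval_def] at h0⟩
  rw [D2P.mem_adj_iff] at hf
  have h4 : f ∈ Algebra.adjoin M {x} := by
    rw [← IntermediateField.adjoin_simple_toSubalgebra_of_isAlgebraic hint.isAlgebraic]
    exact hf
  rw [Algebra.adjoin_singleton_eq_range_aeval] at h4
  obtain ⟨P, hP⟩ := h4
  have hP' : aeval x P = f := hP
  refine ⟨P %ₘ q, natDegree_modByMonic_lt P hq ?_, ?_⟩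
  · rintro rfl
    exact hd natDegree_one
  · have h5 := congrArg (aeval x) (modByMonic_add_div P q)
    rw [map_add, map_mul, h0, zero_mul, add_zero, hP'] at h5
    exact h5

theorem val_zpow' {x : Ω} (hx : x ≠ 0) (n : ℤ) : v (x ^ n) = n * v x := by
  cases n with
  | ofNat n =>
    rw [Int.ofNat_eq_natCast, zpow_natCast, v.map_pow hx]
    push_cast
    ring
  | negSucc n =>
    rw [zpow_negSucc, v.map_inv (pow_ne_zero _ hx), v.map_pow hx]
    push_cast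
    ring

theorem ge_pow_sub_pow {x y : Ω} {s e : ℝ} (hx : v.Ge s x) (hy : v.Ge s y) (hxy : v.Ge e (x - y))
    (j : ℕ) : v.Ge (e + ((j : ℝ) - 1) * s) (x ^ j - y ^ j) := by
  rw [← (Commute.all x y).mul_geom_sum₂ j]
  cases j with
  | zero =>
    rw [Finset.sum_range_zero, mul_zero]
    exact RVal.Ge.zero
  | succ j =>
    refine hxy.mul (RVal.Ge.sum _ _ fun i hi => ?_)
    rw [Finset.mem_range] at hi
    refine ((ge_pow hx i).mul (ge_pow hy (j + 1 - 1 - i))).mono (le_of_eq ?_)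
    have h1 : j + 1 - 1 - i = j - i := by omega
    rw [h1, Nat.cast_sub (by omega)]
    push_cast
    ring

section AS

variable {p : ℕ} [hp : Fact p.Prime]

/-- The values of the terms are distinct. -/
theorem as_ne [CharP Ω p] {θ b : Ω} (hb : b ∈ M) (h : θ ^ p - θ = b) (h0 : θ ≠ 0) {u : ℝ}
    (hu : 0 < u) (hv : v θ = -u) (hg : ∀ a ∈ M, a ≠ 0 → v a ≠ -u) {a c : Ω} (ha : a ∈ M)
    (ha0 : a ≠ 0) (hc : c ∈ M) (hc0 : c ≠ 0) {i j : ℕ} (hij : i < j) (hj : j < p) :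
    v (a * θ ^ i) ≠ v (c * θ ^ j) := by
  intro h1
  rw [v.map_mul ha0 (pow_ne_zero _ h0), v.map_mul hc0 (pow_ne_zero _ h0), v.map_pow h0,
    v.map_pow h0, hv] at h1
  obtain ⟨hb0, hbv⟩ := as_val p h h0 (by rw [hv]; linarith)
  have hcop : IsCoprime (((j - i : ℕ) : ℤ)) (p : ℤ) := by
    rw [Nat.isCoprime_iff_coprime]
    exact (Nat.coprime_of_lt_prime (by omega) (by omega) hp.out).symm
  obtain ⟨s, t, hst⟩ := hcop
  have h2 : v (c / a) = ((j - i : ℕ) : ℝ) * u := by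
    rw [v.map_div hc0 ha0, Nat.cast_sub hij.le]
    linarith
  have hca : c / a ≠ 0 := div_ne_zero hc0 ha0
  refine hg ((c / a) ^ (-s) * b ^ t) (mul_mem (zpow_mem (div_mem hc ha) _) (zpow_mem hb _))
    (mul_ne_zero (zpow_ne_zero _ hca) (zpow_ne_zero _ hb0)) ?_
  rw [v.map_mul (zpow_ne_zero _ hca) (zpow_ne_zero _ hb0), val_zpow' hca, val_zpow' hb0, h2, hbv, hv]
  have h3 : (s : ℝ) * ((j - i : ℕ) : ℝ) + t * p = 1 := by exact_mod_cast hst
  push_cast
  have e : -(s : ℝ) * (((j - i : ℕ) : ℝ) * u) + t * ((p : ℝ) * -u) =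
    -((s : ℝ) * ((j - i : ℕ) : ℝ) + t * p) * u := by ring
  rw [e, h3]
  ring

/-- **The powers of `θ` are orthogonal over `M`.** -/
theorem as_orth [CharP Ω p] {θ b : Ω} (hb : b ∈ M) (h : θ ^ p - θ = b) (h0 : θ ≠ 0) {u : ℝ}
    (hu : 0 < u) (hv : v θ = -u) (hg : ∀ a ∈ M, a ≠ 0 → v a ≠ -u) {a : ℕ → Ω}
    (ha : ∀ j, a j ∈ M) {r : ℝ} (hr : v.Ge r (∑ j ∈ Finset.range p, a j * θ ^ j)) {j : ℕ}
    (hj : j < p) : v.Ge (r + j * u) (a j) := by
  classical
  intro haj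
  set S := (Finset.range p).filter fun i => a i ≠ 0 with hS
  have hjS : j ∈ S := Finset.mem_filter.2 ⟨Finset.mem_range.2 hj, haj⟩
  obtain ⟨m, hmS, hm⟩ := S.exists_min_image (fun i => v (a i * θ ^ i)) ⟨j, hjS⟩
  obtain ⟨hmp, hma⟩ := Finset.mem_filter.1 hmS
  have hmp' := Finset.mem_range.1 hmp
  have hm0 : a m * θ ^ m ≠ 0 := mul_ne_zero hma (pow_ne_zero _ h0)
  have h1 : Gt v (v (a m * θ ^ m)) (a m * θ ^ m - ∑ j ∈ Finset.range p, a j * θ ^ j) := by
    rw [← Finset.add_sum_erase _ _ hmp]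
    have e : ∀ x y : Ω, x - (x + y) = -y := fun x y => by ring
    rw [e]
    refine (Gt.sum _ _ fun i hi => ?_).neg
    rw [Finset.mem_erase, Finset.mem_range] at hi
    intro h2
    have hai : a i ≠ 0 := left_ne_zero_of_mul h2
    have h3 := hm i (Finset.mem_filter.2 ⟨Finset.mem_range.2 hi.2, hai⟩)
    refine lt_of_le_of_ne h3 ?_
    rcases lt_or_gt_of_ne hi.1 with h4 | h4
    · exact (as_ne hb h h0 hu hv hg (ha i) hai (ha m) hma h4 hmp').symm
    · exact as_ne hb h h0 hu hv hg (ha m) hma (ha i) hai h4 hi.2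
  obtain ⟨h2, h3⟩ := h1.val_eq hm0
  have h4 := hr h2
  rw [h3] at h4
  have h5 := h4.trans (hm j hjS)
  rw [v.map_mul haj (pow_ne_zero _ h0), v.map_pow h0, hv] at h5
  linarith

/-- **The motion on `M(θ)`.** -/
theorem as_strM [CharP Ω p] {θ b : Ω} (hb : b ∈ M) (h : θ ^ p - θ = b) (h0 : θ ≠ 0) {u : ℝ}
    (hu : 0 < u) (hv : v θ = -u) (hg : ∀ a ∈ M, a ≠ 0 → v a ≠ -u) (hΦ : IsoE v v Φ) {d e : ℝ}
    (hs : StrM v Φ M d) (he : v.Ge e (Φ θ - θ)) (hde : u + e ≤ d) :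
    StrM v Φ (adj M θ) (u + e) := by
  intro a ha r hr
  have hp1 := hp.out.one_lt
  have hq : (X ^ p - X - C (⟨b, hb⟩ : M) : Polynomial M).Monic := by
    rw [sub_sub]
    refine monic_X_pow_sub ?_
    refine (degree_add_le _ _).trans_lt ?_
    rw [degree_X]
    refine max_lt (by exact_mod_cast hp1) (lt_of_le_of_lt degree_C_le ?_)
    exact_mod_cast hp.out.pos
  have hdeg : (X ^ p - X - C (⟨b, hb⟩ : M) : Polynomial M).natDegree = p := by
    rw [sub_sub, natDegree_sub_eq_left_of_natDegree_lt]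
    · exact natDegree_X_pow p
    · rw [natDegree_X_pow]
      refine lt_of_le_of_lt (natDegree_add_le _ _) ?_
      rw [natDegree_X, natDegree_C]
      exact max_lt hp1 hp.out.pos
  obtain ⟨P, hP, hPa⟩ := exists_rep_monic hq (as_aeval p hb h) (by rw [hdeg]; exact hp.out.ne_zero) ha
  rw [hdeg] at hP
  set c : ℕ → Ω := fun j => ((P.coeff j : M) : Ω) with hc
  have hcM : ∀ j, c j ∈ M := fun j => (P.coeff j).2
  have hsum : a = ∑ j ∈ Finset.range p, c j * θ ^ j := by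
    rw [← hPa, aeval_eq_sum_range' hP]
    refine Finset.sum_congr rfl fun j _ => ?_
    rw [Algebra.smul_def]
    rfl
  have horth : ∀ j, j < p → v.Ge (r + j * u) (c j) := fun j hj =>
    as_orth hb h h0 hu hv hg hcM (by rwa [← hsum]) hj
  have hΦθ : v.Ge (-u) (Φ θ) := by
    rw [← hv]
    exact hΦ.ge_iff.2 (RVal.ge_self θ)
  have hθ : v.Ge (-u) θ := by
    rw [← hv]
    exact RVal.ge_self θ
  rw [hsum, map_sum, ← Finset.sum_sub_distrib]
  refine RVal.Ge.sum _ _ fun j hj => ?_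
  rw [Finset.mem_range] at hj
  have e1 : Φ (c j * θ ^ j) - c j * θ ^ j =
      (Φ (c j) - c j) * (Φ θ) ^ j + c j * ((Φ θ) ^ j - θ ^ j) := by
    rw [map_mul, map_pow]
    ring
  rw [e1]
  refine RVal.Ge.add ?_ ?_
  · have h1 := (hs _ (hcM j) _ (horth j hj)).mul (ge_pow hΦθ j)
    exact h1.mono (by linarith)
  · have h1 := (horth j hj).mul (ge_pow_sub_pow hΦθ hθ he j)
    exact h1.mono (by linarith)

/-- **The extension of a strict motion to an Artin-Schreier floor.** -/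
theorem as_step [CharP Ω p] [IsAlgClosed Ω] (hk : Ctx0 k v) (hw : SphC v)
    (hval : ∀ ρ : ℝ, ∃ x : Ω, x ≠ 0 ∧ v x = ρ) (hM : hen v M = M) {θ b : Ω} (hb : b ∈ M)
    (h : θ ^ p - θ = b) (h0 : θ ≠ 0) {u : ℝ} (hu : 0 < u) (hv : v θ = -u)
    (hg : ∀ a ∈ M, a ≠ 0 → v a ≠ -u) (hΦ : IsoE v v Φ) (hΦM : ∀ a ∈ M, Φ a ∈ M) {e : ℝ}
    (he : 0 ≤ e) (hs : StrM v Φ M (p * u + e)) :
    ∃ Φ' : Ω →ₐ[k] Ω, IsoE v v Φ' ∧ (∀ a ∈ M, Φ' a = Φ a) ∧ Φ' θ - θ ∈ M ∧
      v.Ge e (Φ' θ - θ) ∧ StrM v Φ' (adj M θ) (u + e) ∧ ∀ a ∈ adj M θ, Φ' a ∈ adj M θ := by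
  have hpp : (1 : ℝ) ≤ p := by exact_mod_cast hp.out.one_lt.le
  obtain ⟨hb0, hbv⟩ := as_val p h h0 (by rw [hv]; linarith)
  have hθM : θ ∉ M := fun h1 => hg θ h1 h0 hv
  set ρ := Φ θ - θ with hρ
  have h1 : ρ ^ p - ρ = Φ b - b := by
    rw [hρ, sub_pow_expChar, ← map_pow, ← h, map_sub]
    ring
  have h2 : v.Ge e (Φ b - b) := by
    have := hs.self hb
    rw [hbv, hv] at this
    exact this.mono (by linarith)
  obtain ⟨n, hn⟩ := as_pos p hk he h1 h2
  obtain ⟨G, hG, hGM, hGθ⟩ := exists_as_conj p hk hw hval hM hb h hθM n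
  have e1 : (Φ.comp G) θ - θ = ρ + n := by
    rw [AlgHom.comp_apply, hGθ, map_add, map_intCast, hρ]
    ring
  have hn' : (n : Ω) ^ p = n := by
    have h3 := (Subfield.mem_bot_iff_pow_eq_self Ω p (x := (n : Ω))).1
      ((mem_bot_iff_intCast p Ω).2 ⟨n, rfl⟩)
    exact h3
  have h3 : (ρ + n) ^ p - (ρ + n) = Φ b - b := by
    rw [add_pow_expChar, hn', ← h1]
    ring
  have h4 : ρ + n ∈ M := as_mem p hk hM (sub_mem (hΦM b hb) hb) h3 (h2.mono he)
  have hΦG : IsoE v v (Φ.comp G) := ⟨fun a ha => by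
    rw [AlgHom.comp_apply, hΦ.val _ (IsoE.ne_zero ha), hG.val a ha]⟩
  have hfix : ∀ a ∈ M, (Φ.comp G) a = Φ a := fun a ha => by
    rw [AlgHom.comp_apply, hGM a ha]
  refine ⟨Φ.comp G, hΦG, hfix, ?_, ?_, ?_, ?_⟩
  · rw [e1]
    exact h4
  · rw [e1]
    exact hn
  · refine as_strM hb h h0 hu hv hg hΦG (d := p * u + e) (fun a ha r hr => ?_) ?_ ?_
    · rw [hfix a ha]
      exact hs a ha r hr
    · rw [e1]
      exact hn
    · nlinarith
  · intro a ha
    have h5 : adj M θ ≤ (adj M θ).comap (Φ.comp G) := by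
      refine D2P.adj_le (fun c hc => ?_) ?_
      · change (Φ.comp G) c ∈ adj M θ
        rw [hfix c hc]
        exact (D2P.mem_adj_self M θ).2 (hΦM c hc)
      · change (Φ.comp G) θ ∈ adj M θ
        have e2 : (Φ.comp G) θ = θ + (ρ + n) := by rw [← e1]; ring
        rw [e2]
        exact add_mem (D2P.mem_adj_self M θ).1 ((D2P.mem_adj_self M θ).2 h4)
    exact h5 ha

end AS

end Pool.Agent.TWCT
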