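import Mathlib

/-!
# Two additive equations in two unknowns with independent tops

`AddEl.elim`: elimination of one unknown; `AddEl.finite`: finitely many solutions.
-/

set_option autoImplicit false

open Polynomial Finset

namespace Pool.Agent.TWCT

namespace AddEl

variable {k : Type*} [Field k] {p : ℕ} [hp : Fact p.Prime] [CharP k p]

/-- The `i`-th Frobenius power of an additive polynomial. -/
def sh (p : ℕ) (A : ℕ → k) (i m : ℕ) : k := if i ≤ m then A (m - i) ^ p ^ i else 0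

theorem sh_eval {S : ℕ} {A : ℕ → k} (hA : ∀ j, S < j → A j = 0) (a : k) {i M : ℕ}
    (hM : S + i ≤ M) : (∑ j ∈ range (S + 1), A j * a ^ p ^ j) ^ p ^ i =
      ∑ m ∈ range (M + 1), sh p A i m * a ^ p ^ m := by
  rw [sum_pow_char_pow]
  have h1 : ∑ m ∈ range (M + 1), sh p A i m * a ^ p ^ m =
      ∑ m ∈ (range (S + 1)).map (addRightEmbedding i), sh p A i m * a ^ p ^ m := by
    symm
    refine sum_subset ?_ ?_
    · intro m hm
      rw [mem_map] at hm
      obtain ⟨j, hj, rfl⟩ := hm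
      rw [mem_range] at hj ⊢
      simp only [addRightEmbedding_apply]
      omega
    · intro m _ hm
      rw [sh]
      split_ifs with h2
      · have h3 : S < m - i := by
          by_contra h4
          refine hm (mem_map.2 ⟨m - i, mem_range.2 (by omega), ?_⟩)
          simp only [addRightEmbedding_apply]
          omega
        rw [hA _ h3, zero_pow (Nat.pow_pos hp.out.pos).ne', zero_mul]
      · rw [zero_mul]
  rw [h1, sum_map]
  refine sum_congr rfl fun j _ => ?_
  rw [addRightEmbedding_apply, sh, if_pos (Nat.le_add_left i j), Nat.add_sub_cancel, _root_.mul_pow,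
    ← pow_mul, ← pow_add]

/-- **Elimination.** -/
theorem elim {S T : ℕ} {A₁ A₂ B₁ B₂ : ℕ → k} (hA₁ : ∀ j, S < j → A₁ j = 0)
    (hA₂ : ∀ j, S ≤ j → A₂ j = 0) (hB₁ : ∀ j, T ≤ j → B₁ j = 0) (hB₂ : ∀ j, T < j → B₂ j = 0)
    (h1 : A₁ S ≠ 0) (h2 : B₂ T ≠ 0) :
    ∃ q : Polynomial k, q ≠ 0 ∧ ∀ a b : k,
      ∑ j ∈ range (S + 1), A₁ j * a ^ p ^ j + ∑ j ∈ range (T + 1), B₁ j * b ^ p ^ j = 0 →
      ∑ j ∈ range (S + 1), A₂ j * a ^ p ^ j + ∑ j ∈ range (T + 1), B₂ j * b ^ p ^ j = 0 →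
      q.eval a = 0 := by
  classical
  -- the linear system
  let L : ((Fin (T + 1) → k) × (Fin (T + 1) → k)) →ₗ[k] (Fin (2 * T + 1) → k) :=
    { toFun := fun uv m => ∑ i : Fin (T + 1), uv.1 i * sh p B₁ i m +
        ∑ i : Fin (T + 1), uv.2 i * sh p B₂ i m
      map_add' := by
        intro x y
        funext m
        simp only [Prod.fst_add, Prod.snd_add, Pi.add_apply, add_mul, sum_add_distrib]
        ring
      map_smul' := by
        intro c x
        funext m
        simp only [Prod.smul_fst, Prod.smul_snd, Pi.smul_apply, smul_eq_mul, RingHom.id_apply,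
          mul_assoc, ← mul_sum]
        ring }
  have hker : LinearMap.ker L ≠ ⊥ := by
    refine LinearMap.ker_ne_bot_of_finrank_lt ?_
    rw [Module.finrank_prod, Module.finrank_fin_fun, Module.finrank_fin_fun]
    omega
  obtain ⟨⟨u, w⟩, huw, hne⟩ := (Submodule.ne_bot_iff _).1 hker
  have hc : ∀ m : Fin (2 * T + 1), ∑ i : Fin (T + 1), u i * sh p B₁ i m +
      ∑ i : Fin (T + 1), w i * sh p B₂ i m = 0 := fun m => congrFun (LinearMap.mem_ker.1 huw) m
  -- the last index of `w` is smaller than the last index of `u`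
  have hlast : ∃ I : Fin (T + 1), u I ≠ 0 ∧ (∀ i, I < i → u i = 0) ∧ ∀ i, I ≤ i → w i = 0 := by
    have hw : ∀ J : Fin (T + 1), w J ≠ 0 → (∀ i, J < i → w i = 0) → ∃ i, J < i ∧ u i ≠ 0 := by
      intro J hJ hJ'
      by_contra hno
      push Not at hno
      have h3 := hc ⟨T + J, by have := J.2; omega⟩
      have h4 : ∑ i : Fin (T + 1), u i * sh p B₁ i (T + J : ℕ) = 0 := by
        refine sum_eq_zero fun i _ => ?_
        rcases lt_or_ge J i with h5 | h5
        · rw [hno i h5, zero_mul]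
        · rw [sh, if_pos (by have : (i : ℕ) ≤ J := h5; omega), hB₁ _ (by have : (i : ℕ) ≤ J := h5; omega),
            zero_pow (Nat.pow_pos hp.out.pos).ne', mul_zero]
      have h6 : ∑ i : Fin (T + 1), w i * sh p B₂ i (T + J : ℕ) = w J * B₂ T ^ p ^ (J : ℕ) := by
        rw [sum_eq_single J]
        · rw [sh, if_pos (by omega), Nat.add_sub_cancel]
        · intro i _ hi
          rcases lt_or_gt_of_ne hi with h5 | h5
          · rw [sh, if_pos (by have : (i : ℕ) < J := h5; omega),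
              hB₂ _ (by have : (i : ℕ) < J := h5; omega), zero_pow (Nat.pow_pos hp.out.pos).ne',
              mul_zero]
          · rw [hJ' i h5, zero_mul]
        · intro h
          exact absurd (mem_univ J) h
      simp only [h4, h6, zero_add] at h3
      exact mul_ne_zero hJ (pow_ne_zero _ h2) h3
    have hmaxw : ∀ i, w i ≠ 0 → ∃ i', i < i' ∧ u i' ≠ 0 := by
      intro i hi
      obtain ⟨J, hJ, hJm⟩ := (univ.filter fun j => w j ≠ 0).exists_max_image (fun j => j)
        ⟨i, mem_filter.2 ⟨mem_univ _, hi⟩⟩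
      obtain ⟨i', h3, h4⟩ := hw J (mem_filter.1 hJ).2 fun j hj => by
        by_contra h5
        exact absurd (hJm j (mem_filter.2 ⟨mem_univ _, h5⟩)) (not_le.2 hj)
      exact ⟨i', lt_of_le_of_lt (hJm i (mem_filter.2 ⟨mem_univ _, hi⟩)) h3, h4⟩
    have hex : ∃ i, u i ≠ 0 := by
      by_contra hno
      push Not at hno
      apply hne
      have h3 : u = 0 := funext hno
      have h4 : w = 0 := funext fun i => by
        by_contra h5
        obtain ⟨i', -, h6⟩ := hmaxw i h5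
        exact h6 (hno i')
      rw [h3, h4]
      rfl
    obtain ⟨i₀, hi₀⟩ := hex
    obtain ⟨I, hI, hIm⟩ := (univ.filter fun j => u j ≠ 0).exists_max_image (fun j => j)
      ⟨i₀, mem_filter.2 ⟨mem_univ _, hi₀⟩⟩
    have hI' : ∀ i, I < i → u i = 0 := fun i hi => by
      by_contra h5
      exact absurd (hIm i (mem_filter.2 ⟨mem_univ _, h5⟩)) (not_le.2 hi)
    refine ⟨I, (mem_filter.1 hI).2, hI', fun i hi => ?_⟩
    by_contra h5
    obtain ⟨i', h6, h7⟩ := hmaxw i h5
    exact h7 (hI' i' (lt_of_le_of_lt hi h6))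
  obtain ⟨I, hI0, hI1, hI2⟩ := hlast
  -- the polynomial
  let c : ℕ → k := fun m => ∑ i : Fin (T + 1), u i * sh p A₁ i m +
    ∑ i : Fin (T + 1), w i * sh p A₂ i m
  have hcI : c (S + I) = u I * A₁ S ^ p ^ (I : ℕ) := by
    have h3 : ∑ i : Fin (T + 1), w i * sh p A₂ i (S + I : ℕ) = 0 := by
      refine sum_eq_zero fun i _ => ?_
      rcases le_or_gt I i with h5 | h5
      · rw [hI2 i h5, zero_mul]
      · rw [sh, if_pos (by have : (i : ℕ) < I := h5; omega),
          hA₂ _ (by have : (i : ℕ) < I := h5; omega), zero_pow (Nat.pow_pos hp.out.pos).ne',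
          mul_zero]
    have h4 : ∑ i : Fin (T + 1), u i * sh p A₁ i (S + I : ℕ) = u I * A₁ S ^ p ^ (I : ℕ) := by
      rw [sum_eq_single I]
      · rw [sh, if_pos (by omega), Nat.add_sub_cancel]
      · intro i _ hi
        rcases lt_or_gt_of_ne hi with h5 | h5
        · rw [sh, if_pos (by have : (i : ℕ) < I := h5; omega),
            hA₁ _ (by have : (i : ℕ) < I := h5; omega), zero_pow (Nat.pow_pos hp.out.pos).ne',
            mul_zero]
        · rw [hI1 i h5, zero_mul]
      · intro h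
        exact absurd (mem_univ I) h
    change ∑ i : Fin (T + 1), u i * sh p A₁ i (S + I : ℕ) +
      ∑ i : Fin (T + 1), w i * sh p A₂ i (S + I : ℕ) = _
    rw [h3, h4, add_zero]
  set M := S + T with hM
  refine ⟨∑ m ∈ range (M + 1), C (c m) * X ^ p ^ m, fun h0 => ?_, fun a b ha hb => ?_⟩
  · have h3 := congrArg (fun q => coeff q (p ^ (S + (I : ℕ)))) h0
    simp only [finsetSum_coeff, coeff_C_mul, coeff_X_pow, coeff_zero] at h3
    rw [sum_eq_single_of_mem (S + (I : ℕ)) (mem_range.2 (by have := I.2; omega))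
      (fun m _ hm => by
        rw [if_neg fun h4 => hm (Nat.pow_right_injective hp.out.two_le h4).symm, mul_zero])] at h3
    rw [if_pos rfl, mul_one, hcI] at h3
    exact mul_ne_zero hI0 (pow_ne_zero _ h1) h3
  · rw [eval_finsetSum]
    have h3 : ∀ m, (C (c m) * X ^ p ^ m : Polynomial k).eval a = c m * a ^ p ^ m := fun m => by
      rw [eval_mul, eval_C, eval_pow, eval_X]
    rw [sum_congr rfl fun m _ => h3 m]
    -- the part in `a`
    have h4 : ∀ {A : ℕ → k}, (∀ j, S < j → A j = 0) → ∀ i : Fin (T + 1),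
        ∑ m ∈ range (M + 1), sh p A i m * a ^ p ^ m =
          (∑ j ∈ range (S + 1), A j * a ^ p ^ j) ^ p ^ (i : ℕ) := fun hA i =>
      (sh_eval hA a (by have := i.2; omega)).symm
    have h5 : ∀ {B : ℕ → k}, (∀ j, T < j → B j = 0) → ∀ i : Fin (T + 1),
        ∑ m : Fin (2 * T + 1), sh p B i m * b ^ p ^ (m : ℕ) =
          (∑ j ∈ range (T + 1), B j * b ^ p ^ j) ^ p ^ (i : ℕ) := fun {B} hB i => by
      rw [sh_eval (M := 2 * T) hB b (by have := i.2; omega), Finset.sum_range fun m =>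
        sh p B i m * b ^ p ^ m]
    have h6 : ∑ m ∈ range (M + 1), c m * a ^ p ^ m =
        ∑ i : Fin (T + 1), u i * (∑ j ∈ range (S + 1), A₁ j * a ^ p ^ j) ^ p ^ (i : ℕ) +
        ∑ i : Fin (T + 1), w i * (∑ j ∈ range (S + 1), A₂ j * a ^ p ^ j) ^ p ^ (i : ℕ) := by
      have e1 : ∀ m, c m * a ^ p ^ m = ∑ i : Fin (T + 1), u i * (sh p A₁ i m * a ^ p ^ m) +
          ∑ i : Fin (T + 1), w i * (sh p A₂ i m * a ^ p ^ m) := fun m => by
        simp only [c, add_mul, sum_mul, mul_assoc]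
      rw [sum_congr rfl fun m _ => e1 m, sum_add_distrib, sum_comm, sum_comm (s := range (M + 1))]
      congr 1
      · refine sum_congr rfl fun i _ => ?_
        rw [← mul_sum, h4 hA₁ i]
      · refine sum_congr rfl fun i _ => ?_
        rw [← mul_sum, h4 (fun j hj => hA₂ j hj.le) i]
    have h7 : ∑ i : Fin (T + 1), u i * (∑ j ∈ range (T + 1), B₁ j * b ^ p ^ j) ^ p ^ (i : ℕ) +
        ∑ i : Fin (T + 1), w i * (∑ j ∈ range (T + 1), B₂ j * b ^ p ^ j) ^ p ^ (i : ℕ) = 0 := by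
      have e1 : ∀ m : Fin (2 * T + 1), (∑ i : Fin (T + 1), u i * (sh p B₁ i m * b ^ p ^ (m : ℕ)) +
          ∑ i : Fin (T + 1), w i * (sh p B₂ i m * b ^ p ^ (m : ℕ))) = 0 := fun m => by
        have h8 := congrArg (fun x => x * b ^ p ^ (m : ℕ)) (hc m)
        simp only [add_mul, sum_mul, mul_assoc, zero_mul] at h8
        exact h8
      have h9 := Finset.sum_eq_zero (s := (univ : Finset (Fin (2 * T + 1)))) fun m _ => e1 m
      rw [sum_add_distrib, sum_comm, sum_comm (s := (univ : Finset (Fin (2 * T + 1))))] at h9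
      rw [← h9]
      congr 1
      · refine sum_congr rfl fun i _ => ?_
        rw [← mul_sum, h5 (fun j hj => hB₁ j hj.le) i]
      · refine sum_congr rfl fun i _ => ?_
        rw [← mul_sum, h5 hB₂ i]
    rw [h6]
    have e2 : ∀ i : ℕ, (∑ j ∈ range (S + 1), A₁ j * a ^ p ^ j) ^ p ^ i =
        -(∑ j ∈ range (T + 1), B₁ j * b ^ p ^ j) ^ p ^ i := fun i => by
      have h8 := add_pow_char_pow (p := p) (n := i) (∑ j ∈ range (S + 1), A₁ j * a ^ p ^ j)
        (∑ j ∈ range (T + 1), B₁ j * b ^ p ^ j)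
      rw [ha, zero_pow (Nat.pow_pos hp.out.pos).ne'] at h8
      linear_combination -h8
    have e3 : ∀ i : ℕ, (∑ j ∈ range (S + 1), A₂ j * a ^ p ^ j) ^ p ^ i =
        -(∑ j ∈ range (T + 1), B₂ j * b ^ p ^ j) ^ p ^ i := fun i => by
      have h8 := add_pow_char_pow (p := p) (n := i) (∑ j ∈ range (S + 1), A₂ j * a ^ p ^ j)
        (∑ j ∈ range (T + 1), B₂ j * b ^ p ^ j)
      rw [hb, zero_pow (Nat.pow_pos hp.out.pos).ne'] at h8
      linear_combination -h8
    simp only [e2, e3, mul_neg, sum_neg_distrib]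
    rw [← neg_add, h7, neg_zero]

/-- **Finitely many solutions.** -/
theorem finite {S T : ℕ} {A₁ A₂ B₁ B₂ : ℕ → k} (hA₁ : ∀ j, S < j → A₁ j = 0)
    (hA₂ : ∀ j, S ≤ j → A₂ j = 0) (hB₁ : ∀ j, T ≤ j → B₁ j = 0) (hB₂ : ∀ j, T < j → B₂ j = 0)
    (h1 : A₁ S ≠ 0) (h2 : B₂ T ≠ 0) :
    {ab : k × k | ∑ j ∈ range (S + 1), A₁ j * ab.1 ^ p ^ j +
        ∑ j ∈ range (T + 1), B₁ j * ab.2 ^ p ^ j = 0 ∧
      ∑ j ∈ range (S + 1), A₂ j * ab.1 ^ p ^ j +
        ∑ j ∈ range (T + 1), B₂ j * ab.2 ^ p ^ j = 0}.Finite := by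
  obtain ⟨q, hq, hq'⟩ := elim (p := p) hA₁ hA₂ hB₁ hB₂ h1 h2
  obtain ⟨r, hr, hr'⟩ := elim (p := p) (A₁ := B₂) (A₂ := B₁) (B₁ := A₂) (B₂ := A₁) hB₂ hB₁ hA₂ hA₁
    h2 h1
  have h3 : {a : k | q.eval a = 0}.Finite := by
    have := q.rootSet_finite k
    refine this.subset fun a ha => ?_
    rw [mem_rootSet]
    exact ⟨hq, by rw [← Polynomial.eval_map_algebraMap]; simpa using ha⟩
  have h4 : {b : k | r.eval b = 0}.Finite := by
    have := r.rootSet_finite k
    refine this.subset fun a ha => ?_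
    rw [mem_rootSet]
    exact ⟨hr, by rw [← Polynomial.eval_map_algebraMap]; simpa using ha⟩
  refine (h3.prod h4).subset ?_
  rintro ⟨a, b⟩ ⟨ha, hb⟩
  refine ⟨hq' a b ha hb, hr' b a ?_ ?_⟩
  · rw [add_comm]
    exact hb
  · rw [add_comm]
    exact ha

end AddEl

end Pool.Agent.TWCT
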