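import Pool.Agent.Lib.TWCT.Alt0
import Pool.Agent.Lib.TWC.EW

/-!
# TANK W, contact (III.1), CT.0: tight elements of an infinite Artin-Schreier tower

`ASC p v N th u nn` with `nn → 0`, the powers of `th_l ^ p - th_l` a `p`-basis of `N l`.

* `ASC.upper`: `v (f - g ^ p) ≤ v f + nn l` for `f ∈ N l`, `v f ∉ p VG(N l)`, `g` in the closure of the
  union;
* `ASC.near`: the value `v f + nn l` is a limit of the values of `f - g ^ (p ^ j)`, if there are no
  descents (`u i ≤ nn (i + 1)`);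
* `ASC.tgt`: `f` is tight.
-/

set_option autoImplicit false

open Polynomial

namespace Pool.Agent.TWCT

open Pool.Agent.H15JM (RVal)
open Pool.Agent.LU1 (VPos adj)
open Pool.Agent.LUC (Cl)
open Pool.Agent.D2 (Ctx0)
open Pool.Agent.D2P (hen clI mem_clI)
open Pool.Agent.TWM
open Pool.Agent.TWC (Tgt)

universe u

variable {k Ω : Type u} [Field k] [Field Ω] [Algebra k Ω] {v : RVal Ω}
  {p : ℕ} {N : ℕ → IntermediateField k Ω} {th : ℕ → Ω} {u nn : ℕ → ℝ}

/-- The steps of the tower are reduced Artin-Schreier steps. -/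
theorem ASC.rstep (h : ASC p v N th u nn) (i : ℕ) : RStep p v (N i) (th i) (N (i + 1)) where
  as := h.mem i
  ne := h.ne i
  neg := by
    rw [h.val i]
    linarith [h.pos i]
  red := fun g hg hg0 => by
    rw [h.val i]
    exact h.gam i g hg hg0
  eq := h.succ i

/-- The closure of the union. -/
def uni (v : RVal Ω) (N : ℕ → IntermediateField k Ω) : IntermediateField k Ω := clI v (⨆ i, N i)

theorem ASC.mem_iSup (h : ASC p v N th u nn) {x : Ω} : x ∈ (⨆ i, N i) ↔ ∃ i, x ∈ N i := by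
  have h1 : x ∈ (⨆ i, N i) ↔ x ∈ ((⨆ i, N i : IntermediateField k Ω) : Set Ω) := Iff.rfl
  rw [h1, IntermediateField.coe_iSup_of_directed h.monotone.directed_le, Set.mem_iUnion]
  rfl

variable [hp : Fact p.Prime] [CharP k p] [CharP Ω p] [hcx : Fact (Ctx0 k v)]

/-- The decomposition in the tower. -/
theorem ASC.dec (h : ASC p v N th u nn) (hpb : ∀ i, PB1 p (N i) (th i ^ p - th i)) {l : ℕ} {f : Ω}
    (hf : NP p v (N l) f) : ∃ g e : Ω, NP p v (N (l + 1)) g ∧ NP p v (N (l + 1)) e ∧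
      f = g ^ p + e ∧ (p : ℝ) * v g = v f ∧ v e + nn (l + 1) = v f + nn l := by
  obtain ⟨g, e, h1, h2, h3, h4, h5⟩ := (h.rstep l).dec hp.out hcx.out (hpb l) hf
  refine ⟨g, e, h1, h2, h3, h4, ?_⟩
  rw [h5, h.val l, h.nns l]
  ring

/-- The iterated decomposition. -/
theorem ASC.dec_iter (h : ASC p v N th u nn) (hpb : ∀ i, PB1 p (N i) (th i ^ p - th i)) {l : ℕ}
    {f : Ω} (hf : NP p v (N l) f) (n : ℕ) : ∃ G ∈ N (l + n), ∃ e : Ω, NP p v (N (l + n)) e ∧
      f = G ^ p + e ∧ v e + nn (l + n) = v f + nn l := by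
  induction n with
  | zero => exact ⟨0, zero_mem _, f, hf, by rw [zero_pow hp.out.pos.ne', zero_add], rfl⟩
  | succ n ih =>
    obtain ⟨G, hG, e, he, h1, h2⟩ := ih
    obtain ⟨g, e', hg, he', h3, -, h4⟩ := h.dec hpb he
    refine ⟨G + g, add_mem (h.le_succ _ hG) hg.1, e', he', ?_, ?_⟩
    · rw [h1, h3, add_pow_char]
      ring
    · rw [← h2]
      exact h4

/-- **The distance to the `p`-th powers, upper bound.** -/
theorem ASC.upper (h : ASC p v N th u nn) (hpb : ∀ i, PB1 p (N i) (th i ^ p - th i)) {l : ℕ}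
    {f : Ω} (hf : NP p v (N l) f) {g : Ω} (hg : g ∈ uni v N) : ¬ Gt v (v f + nn l) (f - g ^ p) := by
  have hp0 : (0 : ℝ) < p := by exact_mod_cast hp.out.pos
  have hp1 : (1 : ℝ) < p := by exact_mod_cast hp.out.one_lt
  -- the elements of the union
  have key : ∀ g ∈ (⨆ i, N i), ¬ Gt v (v f + nn l) (f - g ^ p) := by
    intro g hg h0
    obtain ⟨i, hi⟩ := h.mem_iSup.1 hg
    obtain ⟨G, hG, e, he, h1, h2⟩ := h.dec_iter hpb hf i
    have hi' : g ∈ N (l + i) := h.monotone (Nat.le_add_left i l) hi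
    have h3 : f - g ^ p = e + (G - g) ^ p := by
      rw [h1, sub_pow_char]
      ring
    have h4 : v e ≤ v f + nn l := by linarith [h.nn0 (l + i)]
    rw [h3] at h0
    by_cases h5 : G - g = 0
    · rw [h5, zero_pow hp.out.pos.ne', add_zero] at h0
      have := h0 he.2.1
      linarith
    · have h6 : v e ≠ v ((G - g) ^ p) := by
        rw [v.map_pow h5]
        exact he.2.2 _ (sub_mem hG hi') h5
      rcases lt_or_gt_of_ne h6 with h7 | h7
      · obtain ⟨h8, h9⟩ := v.add_of_lt he.2.1 (pow_ne_zero p h5) h7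
        have := h0 h8
        linarith
      · obtain ⟨h8, h9⟩ := v.add_of_lt (pow_ne_zero p h5) he.2.1 h7
        rw [add_comm] at h8 h9
        have := h0 h8
        linarith
  intro h0
  obtain ⟨g₀, h1, h2⟩ := (mem_clI.1 hg) ((|v f + nn l| + 1) / p)
  refine key g₀ h1 ?_
  have h3 : f - g₀ ^ p = (f - g ^ p) + (g - g₀) ^ p := by
    rw [sub_pow_char]
    ring
  rw [h3]
  refine h0.add (Gt.of_ge (TWM.ge_pow h2 p) ?_)
  rw [mul_div_cancel₀ _ hp0.ne']
  linarith [le_abs_self (v f + nn l)]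

/-- **The distance to the `p ^ j`-th powers, lower bound.** -/
theorem ASC.near (h : ASC p v N th u nn) (hpb : ∀ i, PB1 p (N i) (th i ^ p - th i))
    (hnn : ∀ ε : ℝ, 0 < ε → ∃ i₁, ∀ i, i₁ ≤ i → nn i < ε) {i₀ : ℕ}
    (hd : ∀ i, i₀ ≤ i → u i ≤ nn (i + 1)) (j : ℕ) : ∀ l, i₀ ≤ l → ∀ f : Ω, NP p v (N l) f →
      ∀ ε : ℝ, 0 < ε → ∃ G ∈ (⨆ i, N i), v.Ge (v f + nn l - ε) (f - G ^ p ^ j) := by
  have hp0 : (0 : ℝ) < p := by exact_mod_cast hp.out.pos
  have hp1 : (1 : ℝ) < p := by exact_mod_cast hp.out.one_lt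
  induction j with
  | zero =>
    intro l _ f hf ε _
    refine ⟨f, h.mem_iSup.2 ⟨l, hf.1⟩, ?_⟩
    rw [pow_zero, pow_one, sub_self]
    exact RVal.Ge.zero
  | succ j ih =>
    -- the induction on the number of decompositions
    have key : ∀ n l, i₀ ≤ l → ∀ f : Ω, NP p v (N l) f → ∀ ε : ℝ, 0 < ε →
        ∃ G ∈ (⨆ i, N i), v.Ge (v f + nn l - nn (l + n) - ε) (f - G ^ p ^ (j + 1)) := by
      intro n
      induction n with
      | zero =>
        intro l _ f _ ε hε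
        refine ⟨0, zero_mem _, ?_⟩
        rw [zero_pow (pow_ne_zero _ hp.out.pos.ne'), sub_zero]
        refine (RVal.ge_self (v := v) f).mono ?_
        rw [add_zero]
        linarith
      | succ n ihn =>
        intro l hl f hf ε hε
        obtain ⟨g, e, hg, he, h1, h2, h3⟩ := h.dec hpb hf
        obtain ⟨G₁, hG₁, h4⟩ := ih (l + 1) (by omega) g hg (ε / p) (by positivity)
        obtain ⟨G₂, hG₂, h5⟩ := ihn (l + 1) (by omega) e he ε hε
        refine ⟨G₁ + G₂, add_mem hG₁ hG₂, ?_⟩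
        have h6 : f - (G₁ + G₂) ^ p ^ (j + 1) = (g - G₁ ^ p ^ j) ^ p + (e - G₂ ^ p ^ (j + 1)) := by
          rw [add_pow_char_pow, h1, sub_pow_char, ← pow_mul, ← pow_succ]
          ring
        rw [h6]
        refine RVal.Ge.add ((TWM.ge_pow h4 p).mono ?_) (h5.mono ?_)
        · have h7 : (p : ℝ) * (v g + nn (l + 1) - ε / p) = v f + p * nn (l + 1) - ε := by
            rw [mul_sub, mul_add, h2, mul_div_cancel₀ _ hp0.ne']
          rw [h7, h.nns l]
          have h8 := hd l hl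
          have h9 := h.nn0 (l + (n + 1))
          nlinarith
        · rw [h3, show l + 1 + n = l + (n + 1) by ring]
    intro l hl f hf ε hε
    obtain ⟨i₁, h1⟩ := hnn (ε / 2) (by positivity)
    obtain ⟨G, hG, h2⟩ := key i₁ l hl f hf (ε / 2) (by positivity)
    refine ⟨G, hG, h2.mono ?_⟩
    have := h1 (l + i₁) (Nat.le_add_left _ _)
    linarith

/-- **TIGHT ELEMENTS OF A TOWER WITHOUT DESCENTS.** -/
theorem ASC.tgt (h : ASC p v N th u nn) (hpb : ∀ i, PB1 p (N i) (th i ^ p - th i))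
    (hnn : ∀ ε : ℝ, 0 < ε → ∃ i₁, ∀ i, i₁ ≤ i → nn i < ε) {i₀ : ℕ}
    (hd : ∀ i, i₀ ≤ i → u i ≤ nn (i + 1)) {l : ℕ} (hl : i₀ ≤ l) {x : ℕ → Ω}
    (hx : NP p v (N l) (x 0)) (hr : ∀ n, x (n + 1) ^ p = x n) :
    Tgt p v (uni v N) x (v (x 0) + nn l) := by
  have hle : (⨆ i, N i) ≤ uni v N := TWC.self_le_clI v _
  refine Tgt.of_pow (cld_clI v _) (hle (h.mem_iSup.2 ⟨l, hx.1⟩)) hr (fun m ε hε => ?_)
    fun g hg => h.upper hpb hx hg
  obtain ⟨G, hG, h1⟩ := h.near hpb hnn hd m l hl (x 0) hx ε hε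
  exact ⟨G, hle hG, h1⟩

end Pool.Agent.TWCT
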