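import Pool.Agent.Lib.TWCT.Red

/-!
# TANK W, row CT.0: the tower of reduced Artin-Schreier steps

* `Good p v M`: henselian, locally discrete, value group not `p`-divisible, all tame values;
* `RStep p v A θ B`: `B = A(θ)`, `θ ^ p - θ ∈ A`, `v θ < 0` not a value of `A`;
* `RStep.good`, `val_adj`: `B` is good again; its values are `v a + j v θ`, `j < p`;
* `exists_rstep`, `exists_rstep_le`: existence of the steps;
* `exists_seq`: a countably generated separable algebraic extension of a good field is the union of a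
  sequence of steps; `exists_seq_inf`: if it is not finite, all steps are proper.
-/

set_option autoImplicit false

open Polynomial

namespace Pool.Agent.TWCT

open Pool.Agent.H15JM (RVal)
open Pool.Agent.LU1 (VPos adj)
open Pool.Agent.LUC (Cl clF)
open Pool.Agent.D2 (Ctx0)
open Pool.Agent.D2P

universe u

variable {k Ω : Type u} [Field k] [Field Ω] [Algebra k Ω] {v : RVal Ω}

/-- The properties of the fields of the tower. -/
structure Good (p : ℕ) (v : RVal Ω) (M : IntermediateField k Ω) : Prop where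
  hen : hen v M = M
  ld : LD v M
  nd : ND p v M
  pv : PV p v M

/-- A reduced Artin-Schreier step. -/
structure RStep (p : ℕ) (v : RVal Ω) (A : IntermediateField k Ω) (θ : Ω)
    (B : IntermediateField k Ω) : Prop where
  as : θ ^ p - θ ∈ A
  ne : θ ≠ 0
  neg : v θ < 0
  red : ∀ g ∈ A, g ≠ 0 → v g ≠ v θ
  eq : B = adj A θ

/-- The solutions of `x ^ p = x` are constants. -/
theorem exists_const (p : ℕ) (hp : p.Prime) [CharP k p] (h : Ctx0 k v) {x : Ω}
    (hx : x ^ p = x) : ∃ c : k, x = algebraMap k Ω c := by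
  have hp1 : (1 : ℝ) < p := by exact_mod_cast hp.one_lt
  have hval : ∀ y : Ω, y ≠ 0 → y ^ p = y → v y = 0 := by
    intro y hy hyp
    have h1 := v.map_pow hy p
    rw [hyp] at h1
    nlinarith
  by_cases hx0 : x = 0
  · exact ⟨0, by rw [hx0, map_zero]⟩
  obtain ⟨c, hc⟩ := h.residue (f := x) (fun h0 => by rw [hval x h0 hx])
  refine ⟨c, ?_⟩
  by_contra hne
  have hd : x - algebraMap k Ω c ≠ 0 := sub_ne_zero.2 hne
  have h1 : c ^ p - c = 0 := by
    refine h.const_eq_zero ?_
    have h2 : algebraMap k Ω (c ^ p - c) =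
        -((x - algebraMap k Ω c) ^ p - (x - algebraMap k Ω c)) := by
      rw [A1aux.sub_pow_eq (k := k) p hp, hx, map_sub, map_pow]
      ring
    rw [h2]
    refine VPos.neg (VPos.sub ?_ hc)
    intro h0
    rw [v.map_pow hd]
    have := hc hd
    positivity
  have h2 : (x - algebraMap k Ω c) ^ p = x - algebraMap k Ω c := by
    have h3 := A1aux.sub_pow_eq (k := k) p hp x (algebraMap k Ω c)
    rw [hx, sub_self, ← map_pow, ← map_sub, h1, map_zero, sub_zero] at h3
    exact sub_eq_zero.1 h3
  have h3 := hval _ hd h2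
  have h4 := hc hd
  linarith

theorem exists_rstep [IsAlgClosed Ω] [IsAlgClosed k] (p : ℕ) (hp : p.Prime) [CharP k p]
    (h : Ctx0 k v) {A : IntermediateField k Ω} (hA : Good p v A) {η : Ω} (hη : η ^ p - η ∈ A)
    (hηA : η ∉ A) : ∃ θ : Ω, RStep p v A θ (adj A η) := by
  have hp1 : (1 : ℝ) < p := by exact_mod_cast hp.one_lt
  obtain ⟨c, hc, hcase⟩ := exists_red p hp h hA.hen hA.ld hA.nd hη
  rcases hcase with hcase | ⟨hne, hneg, hred⟩
  · exfalso
    have h1 : (η - c) ^ p = η - c := by
      have h2 := A1aux.sub_pow_eq (k := k) p hp η c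
      rw [hcase, sub_self] at h2
      exact sub_eq_zero.1 h2
    obtain ⟨d, hd⟩ := exists_const p hp h h1
    apply hηA
    have h3 : η = c + algebraMap k Ω d := by rw [← hd]; ring
    rw [h3]
    exact add_mem hc (A.algebraMap_mem d)
  · have hb : (η - c) ^ p - (η - c) = η ^ p - η - (c ^ p - c) := A1aux.sub_pow_eq (k := k) p hp η c
    have hc' : c ^ p - c ∈ A := sub_mem (pow_mem hc p) hc
    have h0 : η - c ≠ 0 := by
      intro h0
      rw [h0, zero_pow hp.ne_zero, sub_zero] at hb
      exact hne hb.symm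
    have hneg' : v (η - c) < 0 := by
      by_contra hcon
      push Not at hcon
      have h1 : v.Ge 0 ((η - c) ^ p - (η - c)) := by
        refine RVal.Ge.sub (fun _ => ?_) (fun _ => hcon)
        rw [v.map_pow h0]
        positivity
      rw [hb] at h1
      have := h1 hne
      linarith
    have hval : v (η ^ p - η - (c ^ p - c)) = p * v (η - c) := by
      have h1 : v ((η - c) ^ p) < v (-(η - c)) := by
        rw [v.map_pow h0, v.map_neg _ h0]
        nlinarith
      have h2 := v.add_of_lt (pow_ne_zero p h0) (neg_ne_zero.2 h0) h1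
      rw [← sub_eq_add_neg, hb, v.map_pow h0] at h2
      exact h2.2
    refine ⟨η - c, ?_, h0, hneg', ?_, (A1aux.adj_sub hc).symm⟩
    · rw [hb]
      exact sub_mem hη hc'
    · intro g hg hg0 hgv
      refine hred g hg hg0 ?_
      rw [hval, hgv]

section Step

variable {p : ℕ} {A B : IntermediateField k Ω} {θ : Ω}

theorem RStep.val_b (hp : p.Prime) (hs : RStep p v A θ B) :
    θ ^ p - θ ≠ 0 ∧ v (θ ^ p - θ) = p * v θ := by
  have hp1 : (1 : ℝ) < p := by exact_mod_cast hp.one_lt
  have hneg := hs.neg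
  have h1 : v (θ ^ p) < v (-θ) := by
    rw [v.map_pow hs.ne, v.map_neg _ hs.ne]
    nlinarith
  have h2 := v.add_of_lt (pow_ne_zero p hs.ne) (neg_ne_zero.2 hs.ne) h1
  rw [← sub_eq_add_neg, v.map_pow hs.ne] at h2
  exact h2

theorem RStep.red_int (hp : p.Prime) (hs : RStep p v A θ B) {m : ℤ} {g : Ω} (hg : g ∈ A)
    (hg0 : g ≠ 0) (hgv : v g = m * v θ) : (p : ℤ) ∣ m := by
  by_contra hnd
  have h1 : IsCoprime m (p : ℤ) :=
    ((Nat.prime_iff_prime_int.1 hp).coprime_iff_not_dvd.2 hnd).symm
  obtain ⟨u, w, huw⟩ := h1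
  obtain ⟨hb0, hbv⟩ := hs.val_b hp
  refine hs.red (g ^ u * (θ ^ p - θ) ^ w) (mul_mem (zpow_mem hg _) (zpow_mem hs.as _))
    (mul_ne_zero (zpow_ne_zero _ hg0) (zpow_ne_zero _ hb0)) ?_
  rw [v.map_mul (zpow_ne_zero _ hg0) (zpow_ne_zero _ hb0), v.map_zpow hg0, v.map_zpow hb0, hgv,
    hbv]
  have h2 : (u : ℝ) * m + w * p = 1 := by exact_mod_cast huw
  calc (u : ℝ) * (m * v θ) + w * (p * v θ) = (u * m + w * p) * v θ := by ring
    _ = v θ := by rw [h2, one_mul]

theorem RStep.le (hs : RStep p v A θ B) : A ≤ B := hs.eq ▸ (mem_adj_self A θ).2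

theorem RStep.mem (hs : RStep p v A θ B) : θ ∈ B := hs.eq ▸ (mem_adj_self A θ).1

theorem RStep.notMem (hs : RStep p v A θ B) : θ ∉ A := fun h => hs.red θ h hs.ne rfl

theorem RStep.sep [CharP k p] (hs : RStep p v A θ B) : IsSeparable A θ :=
  A1aux.as_isSeparable p A hs.as

/-- The elements of `B`. -/
theorem RStep.exists_poly [CharP k p] (hp : p.Prime) (hs : RStep p v A θ B) {g : Ω} (hg : g ∈ B) :
    ∃ a : ℕ → Ω, (∀ i, a i ∈ A) ∧ g = ∑ i ∈ Finset.range p, a i * θ ^ i := by
  have hcA : CharP A p := charP_field p A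
  let b : A := ⟨θ ^ p - θ, hs.as⟩
  let f : Polynomial A := X ^ p - X - C b
  have hfθ : aeval θ f = 0 := by
    show aeval θ (X ^ p - X - C b) = 0
    rw [map_sub, map_sub, map_pow, aeval_X, aeval_C]
    exact sub_self _
  have hfdeg : f.degree = p := by
    show (X ^ p - X - C b : Polynomial A).degree = p
    rw [sub_sub]
    have h1 : (X + C b : Polynomial A).degree < (X ^ p : Polynomial A).degree := by
      rw [degree_X_pow, degree_X_add_C]
      exact_mod_cast hp.one_lt
    rw [degree_sub_eq_left_of_degree_lt h1, degree_X_pow]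
  have hfm : f.Monic := by
    show (X ^ p - X - C b : Polynomial A).Monic
    rw [sub_sub]
    refine monic_X_pow_sub ?_
    rw [degree_X_add_C]
    exact_mod_cast hp.one_lt
  have hg' : g ∈ IntermediateField.adjoin A {θ} := by
    rw [hs.eq] at hg
    have h1 : adj A θ ≤ (IntermediateField.adjoin A {θ}).restrictScalars k := by
      refine adj_le (fun x hx => ?_) ?_
      · exact (IntermediateField.adjoin A {θ}).algebraMap_mem ⟨x, hx⟩
      · exact IntermediateField.mem_adjoin_simple_self A θ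
    exact h1 hg
  have hint : IsIntegral A θ := hs.sep.isIntegral
  rw [← IntermediateField.mem_toSubalgebra,
    IntermediateField.adjoin_simple_toSubalgebra_of_isAlgebraic hint.isAlgebraic,
    Algebra.adjoin_singleton_eq_range_aeval] at hg'
  obtain ⟨P, hP⟩ := hg'
  have hP' : aeval θ P = g := hP
  have h2 : aeval θ (P %ₘ f) = g := by
    have h3 := modByMonic_add_div P f
    have h4 : aeval θ (P %ₘ f + f * (P /ₘ f)) = g := by rw [h3, hP']
    rwa [map_add, map_mul, hfθ, zero_mul, add_zero] at h4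
  have h3 : (P %ₘ f).natDegree < p := by
    have h4 := degree_modByMonic_lt P hfm
    rw [hfdeg] at h4
    by_cases h5 : P %ₘ f = 0
    · rw [h5, natDegree_zero]
      exact hp.pos
    · exact (natDegree_lt_iff_degree_lt h5).2 h4
  refine ⟨fun i => (((P %ₘ f).coeff i : A) : Ω), fun i => ((P %ₘ f).coeff i).2, ?_⟩
  rw [← h2, aeval_eq_sum_range' h3]
  rfl

theorem RStep.val_adj [CharP k p] (hp : p.Prime) (hs : RStep p v A θ B) {g : Ω} (hg : g ∈ B)
    (hg0 : g ≠ 0) : ∃ a ∈ A, a ≠ 0 ∧ ∃ j : ℕ, j < p ∧ v g = v a + j * v θ := by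
  classical
  obtain ⟨a, ha, hga⟩ := hs.exists_poly hp hg
  set s := (Finset.range p).filter fun i => a i ≠ 0 with hsdef
  have h1 : g = ∑ i ∈ s, a i * θ ^ i := by
    rw [hga, hsdef, Finset.sum_filter]
    refine Finset.sum_congr rfl fun i _ => ?_
    by_cases h0 : a i = 0
    · rw [if_neg (by simpa using h0), h0, zero_mul]
    · rw [if_pos h0]
  have hne : s.Nonempty := by
    rw [Finset.nonempty_iff_ne_empty]
    intro h0
    rw [h0, Finset.sum_empty] at h1
    exact hg0 h1
  have hval : ∀ i ∈ s, v (a i * θ ^ i) = v (a i) + i * v θ := by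
    intro i hi
    rw [v.map_mul (Finset.mem_filter.1 hi).2 (pow_ne_zero _ hs.ne), v.map_pow hs.ne]
  have key : ∀ i ∈ s, ∀ j ∈ s, i < j → v (a i * θ ^ i) ≠ v (a j * θ ^ j) := by
    intro i hi j hj hij heq
    rw [hval i hi, hval j hj] at heq
    have hai := (Finset.mem_filter.1 hi).2
    have haj := (Finset.mem_filter.1 hj).2
    have h2 : (p : ℤ) ∣ ((j : ℤ) - i) := by
      refine hs.red_int hp (g := a i / a j) (div_mem (ha i) (ha j)) (div_ne_zero hai haj) ?_
      rw [v.map_div hai haj]
      push_cast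
      linarith
    have h3 := Finset.mem_range.1 (Finset.mem_filter.1 hj).1
    have h4 := Int.le_of_dvd (by omega) h2
    omega
  obtain ⟨-, i, hi, h2⟩ := LU1.sum_distinct (v := v) s hne (fun i => a i * θ ^ i)
    (fun i hi => mul_ne_zero (Finset.mem_filter.1 hi).2 (pow_ne_zero _ hs.ne))
    (fun i hi j hj hij => by
      rcases lt_trichotomy i j with h3 | h3 | h3
      · exact absurd hij (key i hi j hj h3)
      · exact h3
      · exact absurd hij.symm (key j hj i hi h3))
  rw [← h1] at h2
  exact ⟨a i, ha i, (Finset.mem_filter.1 hi).2, i, Finset.mem_range.1 (Finset.mem_filter.1 hi).1,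
    by rw [h2, hval i hi]⟩

theorem RStep.alg [CharP k p] (hp : p.Prime) (hs : RStep p v A θ B) :
    ∀ g ∈ B, IsAlgebraic A g := by
  intro g hg
  obtain ⟨a, ha, rfl⟩ := hs.exists_poly hp hg
  have hint : IsIntegral A θ := hs.sep.isIntegral
  refine IsIntegral.isAlgebraic (IsIntegral.sum _ fun i _ => ?_)
  exact (isIntegral_algebraMap (R := A) (x := ⟨a i, ha i⟩)).mul (hint.pow i)

theorem RStep.good [IsAlgClosed Ω] [CharP k p] (hp : p.Prime) (h : Ctx0 k v) (hA : Good p v A)
    (hs : RStep p v A θ B) : Good p v B where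
  hen := by
    have h1 := hen_sup h hA.hen {θ} (fun s hs' => by
      rw [Finset.mem_singleton.1 hs']
      exact hs.sep)
    rw [hs.eq]
    rwa [Finset.coe_singleton] at h1
  ld := hA.ld.alg hs.le (hs.alg hp)
  nd := by
    refine ⟨θ, hs.mem, hs.ne, fun g hg hg0 hgv => ?_⟩
    obtain ⟨a, ha, ha0, j, -, hj⟩ := hs.val_adj hp hg hg0
    have h1 : (p : ℤ) ∣ (1 - p * j) := by
      refine hs.red_int hp (g := a ^ p) (pow_mem ha p) (pow_ne_zero p ha0) ?_
      rw [v.map_pow ha0]
      push_cast
      rw [hj] at hgv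
      linarith
    have h2 : (p : ℤ) ∣ 1 := by
      have h3 := dvd_add h1 (dvd_mul_right (p : ℤ) j)
      rwa [sub_add_cancel] at h3
    have h3 := Int.le_of_dvd one_pos h2
    have := hp.one_lt
    omega
  pv := hA.pv.mono hs.le (hs.alg hp)

end Step

/-- A proper finite separable extension of a good field contains a step. -/
theorem exists_rstep_le [IsAlgClosed Ω] [IsAlgClosed k] (p : ℕ) (hp : p.Prime) [CharP k p]
    (h : Ctx0 k v) {A : IntermediateField k Ω} (hA : Good p v A) {s : Ω} (hs : IsSeparable A s)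
    (hsA : s ∉ A) : ∃ (θ : Ω) (B : IntermediateField k Ω), RStep p v A θ B ∧ B ≤ adj A s := by
  have h1 := as_induction_pv p hp h A hA.hen hA.pv
    (fun E => E = A ∨ ∃ (θ : Ω) (B : IntermediateField k Ω), RStep p v A θ B ∧ B ≤ E)
    (Or.inl rfl) (by
      intro M' η hAM hM' hsep hQ hη hηM
      right
      rcases hQ with hQ | ⟨θ, B, hB, hBM⟩
      · rw [hQ] at hη hηM ⊢
        obtain ⟨θ, hθ⟩ := exists_rstep p hp h hA hη hηM
        exact ⟨θ, _, hθ, le_rfl⟩
      · exact ⟨θ, B, hB, hBM.trans (mem_adj_self M' η).2⟩) {s} (by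
      intro t ht
      rw [Finset.mem_singleton.1 ht]
      exact hs)
  rw [Finset.coe_singleton] at h1
  rcases h1 with h1 | h1
  · exfalso
    apply hsA
    rw [← h1]
    exact (mem_adj_self A s).1
  · exact h1

/-- Separable over a smaller field. -/
theorem sep_trans {A B : IntermediateField k Ω} (hAB : A ≤ B) (hB : ∀ g ∈ B, IsSeparable A g)
    {x : Ω} (hx : IsSeparable B x) : IsSeparable A x := by
  let _ : Algebra A B := (IntermediateField.inclusion hAB).toRingHom.toAlgebra
  have _ : IsScalarTower A B Ω := IsScalarTower.of_algebraMap_eq fun _ => rfl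
  have : Algebra.IsSeparable A B := ⟨fun e => by
    have h1 := hB e e.2
    have h2 : minpoly A ((algebraMap B Ω) e) = minpoly A e :=
      minpoly.algebraMap_eq (algebraMap B Ω).injective e
    rw [IsSeparable, ← h2]
    exact h1⟩
  exact IsSeparable.of_algebra_isSeparable_of_isSeparable A hx

theorem adj_sep {A : IntermediateField k Ω} {s : Ω} (hs : IsSeparable A s) :
    ∀ g ∈ adj A s, IsSeparable A g := by
  intro g hg
  have h1 : g ∈ IntermediateField.adjoin A {s} := by
    have h2 : adj A s ≤ (IntermediateField.adjoin A {s}).restrictScalars k := by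
      refine adj_le (fun x hx => ?_) ?_
      · exact (IntermediateField.adjoin A {s}).algebraMap_mem ⟨x, hx⟩
      · exact IntermediateField.mem_adjoin_simple_self A s
    exact h2 hg
  have h2 : Algebra.IsSeparable A (IntermediateField.adjoin A {s}) := by
    rw [IntermediateField.isSeparable_adjoin_simple_iff_isSeparable]
    exact hs
  have h3 := Algebra.IsSeparable.isSeparable A (⟨g, h1⟩ : IntermediateField.adjoin A {s})
  have h4 : minpoly A g = minpoly A (⟨g, h1⟩ : IntermediateField.adjoin A {s}) :=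
    minpoly.algebraMap_eq (algebraMap (IntermediateField.adjoin A {s}) Ω).injective
      (⟨g, h1⟩ : IntermediateField.adjoin A {s})
  rw [IsSeparable, h4]
  exact h3

/-! ## Sequences of steps -/

/-- The fields between `N` and `W`. -/
structure Bet (p : ℕ) (v : RVal Ω) (N W M : IntermediateField k Ω) : Prop where
  good : Good p v M
  le : N ≤ M
  leW : M ≤ W
  sep : ∀ g ∈ M, IsSeparable N g

theorem exists_next [IsAlgClosed Ω] [IsAlgClosed k] (p : ℕ) (hp : p.Prime) [CharP k p]
    (h : Ctx0 k v) {N W M : IntermediateField k Ω} (hM : Bet p v N W M) {s : Ω}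
    (hsN : IsSeparable N s) (hsW : s ∈ W) (hsM : s ∉ M) :
    ∃ (θ : Ω) (B : IntermediateField k Ω), RStep p v M θ B ∧ B ≤ adj M s ∧ Bet p v N W B := by
  have h1 : IsSeparable M s := isSeparable_mono hM.le hsN
  obtain ⟨θ, B, hB, hBs⟩ := exists_rstep_le p hp h hM.good h1 hsM
  refine ⟨θ, B, hB, hBs, hB.good hp h hM.good, hM.le.trans hB.le, ?_, ?_⟩
  · exact hBs.trans (adj_le hM.leW hsW)
  · intro g hg
    exact sep_trans hM.le hM.sep (adj_sep h1 g (hBs hg))

open Classical in
/-- The next pair (generator, field): a step towards `s n`, `n` the least index with `s n` not in the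
field. -/
noncomputable def nxt (p : ℕ) (v : RVal Ω) (N W : IntermediateField k Ω) (s : ℕ → Ω)
    (M : IntermediateField k Ω) : Ω × IntermediateField k Ω :=
  if h : ∃ q : Ω × IntermediateField k Ω, RStep p v M q.1 q.2 ∧ Bet p v N W q.2 ∧
      ∃ n : ℕ, s n ∉ M ∧ (∀ m < n, s m ∈ M) ∧ q.2 ≤ adj M (s n) then h.choose else (1, M)

/-- The fields of the tower. -/
noncomputable def twM (p : ℕ) (v : RVal Ω) (N W : IntermediateField k Ω) (s : ℕ → Ω) :
    ℕ → IntermediateField k Ω
  | 0 => N
  | i + 1 => (nxt p v N W s (twM p v N W s i)).2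

/-- The generators of the tower. -/
noncomputable def twT (p : ℕ) (v : RVal Ω) (N W : IntermediateField k Ω) (s : ℕ → Ω) (i : ℕ) : Ω :=
  (nxt p v N W s (twM p v N W s i)).1

theorem nxt_spec [IsAlgClosed Ω] [IsAlgClosed k] (p : ℕ) (hp : p.Prime) [CharP k p]
    (h : Ctx0 k v) {N W M : IntermediateField k Ω} (hM : Bet p v N W M) {s : ℕ → Ω}
    (hsN : ∀ n, IsSeparable N (s n)) (hsW : ∀ n, s n ∈ W) (hex : ∃ n, s n ∉ M) :
    RStep p v M (nxt p v N W s M).1 (nxt p v N W s M).2 ∧ Bet p v N W (nxt p v N W s M).2 ∧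
      ∃ n : ℕ, s n ∉ M ∧ (∀ m < n, s m ∈ M) ∧ (nxt p v N W s M).2 ≤ adj M (s n) := by
  classical
  have hex2 : ∃ q : Ω × IntermediateField k Ω, RStep p v M q.1 q.2 ∧ Bet p v N W q.2 ∧
      ∃ n : ℕ, s n ∉ M ∧ (∀ m < n, s m ∈ M) ∧ q.2 ≤ adj M (s n) := by
    obtain ⟨θ, B, h1, h2, h3⟩ := exists_next p hp h hM (hsN _) (hsW _) (Nat.find_spec hex)
    exact ⟨(θ, B), h1, h3, Nat.find hex, Nat.find_spec hex,
      fun m hm => not_not.1 (Nat.find_min hex hm), h2⟩
  rw [nxt, dif_pos hex2]
  exact hex2.choose_spec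

theorem nxt_of_all [IsAlgClosed Ω] (p : ℕ) {N W M : IntermediateField k Ω} {s : ℕ → Ω}
    (hall : ∀ n, s n ∈ M) : nxt p v N W s M = (1, M) := by
  classical
  rw [nxt, dif_neg]
  rintro ⟨q, -, -, n, hn, -⟩
  exact hn (hall n)

/-- The tower of a countably generated separable algebraic extension. -/
theorem exists_seq [IsAlgClosed Ω] [IsAlgClosed k] (p : ℕ) (hp : p.Prime) [CharP k p]
    (h : Ctx0 k v) {N W : IntermediateField k Ω} (hN : Good p v N) (hNW : N ≤ W) {s : ℕ → Ω}
    (hsN : ∀ n, IsSeparable N (s n)) (hsW : ∀ n, s n ∈ W) :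
    ∃ (M : ℕ → IntermediateField k Ω) (θ : ℕ → Ω), M 0 = N ∧ (∀ i, Bet p v N W (M i)) ∧
      (∀ i, (∀ n, s n ∈ M i) ∧ M (i + 1) = M i ∨ RStep p v (M i) (θ i) (M (i + 1))) ∧
      ∀ n, ∃ i, s n ∈ M i := by
  classical
  set M := twM p v N W s with hMdef
  have hM0 : M 0 = N := rfl
  have hMs : ∀ i, M (i + 1) = (nxt p v N W s (M i)).2 := fun i => rfl
  have hB : ∀ i, Bet p v N W (M i) := by
    intro i
    induction i with
    | zero =>
      refine ⟨hN, le_rfl, hNW, fun g hg => ?_⟩
      exact isSeparable_algebraMap (F := N) (⟨g, hg⟩ : N)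
    | succ i ih =>
      rw [hMs]
      by_cases hex : ∃ n, s n ∉ M i
      · exact (nxt_spec p hp h ih hsN hsW hex).2.1
      · push Not at hex
        rw [nxt_of_all p hex]
        exact ih
  have hstep : ∀ i, (∀ n, s n ∈ M i) ∧ M (i + 1) = M i ∨
      RStep p v (M i) (twT p v N W s i) (M (i + 1)) := by
    intro i
    by_cases hex : ∃ n, s n ∉ M i
    · right
      exact (nxt_spec p hp h (hB i) hsN hsW hex).1
    · left
      push Not at hex
      refine ⟨hex, ?_⟩
      rw [hMs, nxt_of_all p hex]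
  have hmono : Monotone M := by
    refine monotone_nat_of_le_succ fun i => ?_
    rcases hstep i with h1 | h1
    · rw [h1.2]
    · exact h1.le
  refine ⟨M, twT p v N W s, hM0, hB, hstep, ?_⟩
  by_contra hcon
  push Not at hcon
  have hex : ∃ n, ∀ i, s n ∉ M i := hcon
  set n := Nat.find hex with hn
  have hnM : ∀ i, s n ∉ M i := Nat.find_spec hex
  have hless : ∀ m < n, ∃ i, s m ∈ M i := by
    intro m hm
    have := Nat.find_min hex hm
    push Not at this
    exact this
  obtain ⟨i0, hi0⟩ : ∃ i0, ∀ m < n, s m ∈ M i0 := by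
    have : ∀ n' ≤ n, ∃ i0, ∀ m < n', s m ∈ M i0 := by
      intro n'
      induction n' with
      | zero => exact fun _ => ⟨0, fun m hm => absurd hm (by omega)⟩
      | succ n' ih =>
        intro hn'
        obtain ⟨i1, h1⟩ := ih (by omega)
        obtain ⟨i2, h2⟩ := hless n' (by omega)
        refine ⟨max i1 i2, fun m hm => ?_⟩
        rcases Nat.lt_succ_iff_lt_or_eq.1 hm with h3 | h3
        · exact hmono (le_max_left _ _) (h1 m h3)
        · rw [h3]
          exact hmono (le_max_right _ _) h2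
    exact this n le_rfl
  have hnext : ∀ i, i0 ≤ i → RStep p v (M i) (twT p v N W s i) (M (i + 1)) ∧
      M (i + 1) ≤ adj (M i) (s n) := by
    intro i hi
    obtain ⟨h1, -, m, hm1, hm2, hm3⟩ := nxt_spec p hp h (hB i) hsN hsW ⟨n, hnM i⟩
    have hmn : m = n := by
      rcases lt_trichotomy m n with h3 | h3 | h3
      · exact absurd (hmono hi (hi0 m h3)) hm1
      · exact h3
      · exact absurd (hm2 n h3) (hnM i)
    rw [hmn] at hm3
    exact ⟨h1, hm3⟩
  -- everything is in the finite extension `L` of `A`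
  set A := M i0 with hA
  set L : IntermediateField A Ω := IntermediateField.adjoin A {s n} with hL
  have hAL : A ≤ L.restrictScalars k := fun x hx => L.algebraMap_mem ⟨x, hx⟩
  have hsL : s n ∈ L.restrictScalars k := IntermediateField.mem_adjoin_simple_self A (s n)
  have hML : ∀ j, M (i0 + j) ≤ L.restrictScalars k := by
    intro j
    induction j with
    | zero => exact hAL
    | succ j ih => exact (hnext (i0 + j) (by omega)).2.trans (adj_le ih hsL)
  have hintn : IsIntegral A (s n) := (isSeparable_mono (hB i0).le (hsN n)).isIntegral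
  have hfin : FiniteDimensional A L := IntermediateField.adjoin.finiteDimensional hintn
  have hAM : ∀ j, A ≤ M (i0 + j) := fun j => hmono (by omega)
  let K : ℕ → IntermediateField A Ω := fun j => IntermediateField.extendScalars (hAM j)
  have hKL : ∀ j, K j ≤ L := fun j x hx => hML j hx
  have hKfin : ∀ j, FiniteDimensional A (K j) := fun j =>
    FiniteDimensional.of_injective (IntermediateField.inclusion (hKL j)).toLinearMap
      (IntermediateField.inclusion (hKL j)).injective
  have hKle : ∀ j, K j ≤ K (j + 1) := fun j x hx =>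
    (hmono (show i0 + j ≤ i0 + (j + 1) by omega) : M (i0 + j) ≤ M (i0 + (j + 1))) hx
  have hgrow : ∀ j, j ≤ Module.finrank A (K j) := by
    intro j
    induction j with
    | zero => exact Nat.zero_le _
    | succ j ih =>
      have := hKfin (j + 1)
      by_contra hcon
      have h1 : Module.finrank A (K (j + 1)) ≤ Module.finrank A (K j) := by omega
      have h2 := IntermediateField.eq_of_le_of_finrank_le (hKle j) h1
      have h3 := (hnext (i0 + j) (by omega)).1
      have h4 : twT p v N W s (i0 + j) ∈ K (j + 1) := h3.mem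
      rw [← h2] at h4
      exact h3.notMem h4
  have h1 := hgrow (Module.finrank A L + 1)
  have h2 : Module.finrank A (K (Module.finrank A L + 1)) ≤ Module.finrank A L :=
    LinearMap.finrank_le_finrank_of_injective
      (f := (IntermediateField.inclusion (hKL (Module.finrank A L + 1))).toLinearMap)
      (fun x y hxy => (IntermediateField.inclusion (hKL _)).injective hxy)
  omega

/-- If the sequence never contains all `s n`, all the steps are proper. -/
theorem exists_seq_inf [IsAlgClosed Ω] [IsAlgClosed k] (p : ℕ) (hp : p.Prime) [CharP k p]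
    (h : Ctx0 k v) {N W : IntermediateField k Ω} (hN : Good p v N) (hNW : N ≤ W) {s : ℕ → Ω}
    (hsN : ∀ n, IsSeparable N (s n)) (hsW : ∀ n, s n ∈ W) :
    (∃ M : IntermediateField k Ω, Bet p v N W M ∧ (∀ n, s n ∈ M) ∧
      ∃ (m : ℕ) (E : ℕ → IntermediateField k Ω) (θ : ℕ → Ω), E 0 = N ∧ E m = M ∧
        ∀ i < m, RStep p v (E i) (θ i) (E (i + 1))) ∨
    ∃ (M : ℕ → IntermediateField k Ω) (θ : ℕ → Ω), M 0 = N ∧ (∀ i, Bet p v N W (M i)) ∧
      (∀ i, RStep p v (M i) (θ i) (M (i + 1))) ∧ ∀ n, ∃ i, s n ∈ M i := by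
  classical
  obtain ⟨M, θ, h0, hB, hstep, hall⟩ := exists_seq p hp h hN hNW hsN hsW
  by_cases hex : ∃ i, ∀ n, s n ∈ M i
  · left
    refine ⟨M (Nat.find hex), hB _, Nat.find_spec hex, Nat.find hex, M, θ, h0, rfl, fun i hi => ?_⟩
    have h1 := Nat.find_min hex hi
    exact (hstep i).resolve_left fun h2 => h1 h2.1
  · right
    refine ⟨M, θ, h0, hB, fun i => ?_, hall⟩
    push Not at hex
    obtain ⟨n, hn⟩ := hex i
    exact (hstep i).resolve_left fun h2 => hn (h2.1 n)

end Pool.Agent.TWCT
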