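import Pool.Agent.Lib.TWCT.AS
import Pool.Agent.Lib.TWCT.Tow
import Pool.Agent.Lib.TWC.SND

/-!
# TANK W, contact (III.1), CT.0: decomposition of elements along an Artin-Schreier step

* `NP p v M f`: `f ∈ M`, `f ≠ 0`, `v f` is not `p` times a value of `M`;
* `PB1 p M b`: the powers of `b` generate `M` over `M ^ p`;
* `RStep.dec`: `f = g ^ p + e`, `g`, `e` in the next field, `v e = v f - (p - 1) v θ`.
-/

set_option autoImplicit false

open Polynomial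

namespace Pool.Agent.TWCT

open Pool.Agent.H15JM (RVal)
open Pool.Agent.LU1 (VPos adj)
open Pool.Agent.LUC (Cl)
open Pool.Agent.D2 (Ctx0)
open Pool.Agent.D2P (hen clI mem_clI)
open Pool.Agent.TWM

universe u

variable {k Ω : Type u} [Field k] [Field Ω] [Algebra k Ω] {v : RVal Ω}

/-- `f` is an element of `M` whose value is not in `p VG(M)`. -/
def NP (p : ℕ) (v : RVal Ω) (M : IntermediateField k Ω) (f : Ω) : Prop :=
  f ∈ M ∧ f ≠ 0 ∧ ∀ g ∈ M, g ≠ 0 → v f ≠ p * v g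

/-- The powers of `b` generate `M` over `M ^ p`. -/
def PB1 (p : ℕ) (M : IntermediateField k Ω) (b : Ω) : Prop :=
  ∀ f ∈ M, ∃ h : ℕ → Ω, (∀ j, h j ∈ M) ∧ f = ∑ j ∈ Finset.range p, h j ^ p * b ^ j

/-- A sum with one dominating term. -/
theorem sum_dom {ι : Type*} [DecidableEq ι] (s : Finset ι) {m : ι} (hm : m ∈ s) (f : ι → Ω)
    (h0 : f m ≠ 0) (h : ∀ j ∈ s, j ≠ m → Gt v (v (f m)) (f j)) :
    ∑ j ∈ s, f j ≠ 0 ∧ v (∑ j ∈ s, f j) = v (f m) := by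
  have h1 : Gt v (v (f m)) (∑ j ∈ s.erase m, f j) := by
    refine Finset.sum_induction _ (fun x => Gt v (v (f m)) x) (fun a b ha hb => ha.add hb) ?_ ?_
    · exact fun h => absurd rfl h
    · exact fun j hj => h j (Finset.mem_of_mem_erase hj) (Finset.ne_of_mem_erase hj)
  have h2 : Gt v (v (f m)) (f m - ∑ j ∈ s, f j) := by
    rw [← Finset.add_sum_erase s f hm, sub_add_cancel_left]
    exact h1.neg
  exact Gt.val_eq h0 h2

/-- The expansion of `(X - Y) ^ (j + 1)`, `v X ≤ v Y`. -/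
theorem pow_sub_expand {X Y : Ω} {a b : ℝ} (hX : v.Ge a X) (hY : v.Ge b Y) (hab : a ≤ b) (j : ℕ) :
    v.Ge (j * a + b + (b - a)) ((X - Y) ^ (j + 1) - X ^ (j + 1) + (j + 1 : ℕ) * (X ^ j * Y)) := by
  have hXY : v.Ge a (X - Y) := hX.sub (hY.mono hab)
  have hpow : ∀ n : ℕ, v.Ge (n * a) (X ^ n) := fun n => TWM.ge_pow hX n
  have hnat : ∀ n : ℕ, ∀ x : Ω, ∀ c : ℝ, v.Ge c x → v.Ge c ((n : Ω) * x) := by
    intro n x c hx
    rw [← nsmul_eq_mul]
    induction n with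
    | zero => rw [zero_nsmul]; exact RVal.Ge.zero
    | succ n ih => rw [succ_nsmul]; exact ih.add hx
  induction j with
  | zero =>
    have e : (X - Y) ^ (0 + 1) - X ^ (0 + 1) + ((0 + 1 : ℕ) : Ω) * (X ^ 0 * Y) = 0 := by
      push_cast
      ring
    rw [e]
    exact RVal.Ge.zero
  | succ j ih =>
    have e : (X - Y) ^ (j + 1 + 1) - X ^ (j + 1 + 1) + ((j + 1 + 1 : ℕ) : Ω) * (X ^ (j + 1) * Y) =
        (X - Y) * ((X - Y) ^ (j + 1) - X ^ (j + 1) + ((j + 1 : ℕ) : Ω) * (X ^ j * Y)) +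
          ((j + 1 : ℕ) : Ω) * (X ^ j * (Y * Y)) := by
      push_cast
      ring
    rw [e]
    refine RVal.Ge.add ?_ ?_
    · refine (hXY.mul ih).mono (le_of_eq ?_)
      push_cast
      ring
    · refine hnat _ _ _ (((hpow j).mul (hY.mul hY)).mono (le_of_eq ?_))
      push_cast
      ring

section Dec

variable {p : ℕ} {A B : IntermediateField k Ω} {θ : Ω}

/-- Different powers of `θ` have different values modulo the values of `A`. -/
theorem RStep.inj (hp : p.Prime) (hs : RStep p v A θ B) {i j : ℕ} (hi : i < p) (hj : j < p)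
    {a b : Ω} (ha : a ∈ A) (ha0 : a ≠ 0) (hb : b ∈ A) (hb0 : b ≠ 0)
    (h : v a + i * v θ = v b + j * v θ) : i = j := by
  have key : ∀ {i j : ℕ}, i < j → j < p → ∀ {a b : Ω}, a ∈ A → a ≠ 0 → b ∈ A → b ≠ 0 →
      v a + i * v θ = v b + j * v θ → False := by
    intro i j hij hj a b ha ha0 hb hb0 h
    have h2 : (p : ℤ) ∣ ((j : ℤ) - i) := by
      refine hs.red_int hp (g := a / b) (div_mem ha hb) (div_ne_zero ha0 hb0) ?_
      rw [v.map_div ha0 hb0]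
      push_cast
      linarith
    have h4 := Int.le_of_dvd (by omega) h2
    omega
  rcases lt_trichotomy i j with h3 | h3 | h3
  · exact (key h3 hj ha ha0 hb hb0 h).elim
  · exact h3
  · exact (key h3 hi hb hb0 ha ha0 h.symm).elim

/-- The values of the elements `p v w`, `w ∈ B`, are values of `A`. -/
theorem RStep.pval [CharP k p] (hp : p.Prime) (hs : RStep p v A θ B) {w : Ω} (hw : w ∈ B)
    (hw0 : w ≠ 0) : ∃ a ∈ A, a ≠ 0 ∧ v a = p * v w := by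
  obtain ⟨a, ha, ha0, j, -, h1⟩ := hs.val_adj hp hw hw0
  obtain ⟨hb0, hbv⟩ := hs.val_b hp
  refine ⟨a ^ p * (θ ^ p - θ) ^ j, mul_mem (pow_mem ha _) (pow_mem hs.as _),
    mul_ne_zero (pow_ne_zero _ ha0) (pow_ne_zero _ hb0), ?_⟩
  rw [v.map_mul (pow_ne_zero _ ha0) (pow_ne_zero _ hb0), v.map_pow ha0, v.map_pow hb0, hbv, h1]
  ring

/-- The terms of `f - g ^ p`. -/
theorem val_term (hp : p.Prime) [CharP k p] (h : Ctx0 k v) (hs : RStep p v A θ B) {j : ℕ}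
    (hj0 : j ≠ 0) (hj : j < p) : (θ ^ p - θ) ^ j - (θ ^ p) ^ j ≠ 0 ∧
      v ((θ ^ p - θ) ^ j - (θ ^ p) ^ j) = j * (p * v θ) - ((p : ℝ) - 1) * v θ := by
  obtain ⟨i, rfl⟩ := Nat.exists_eq_succ_of_ne_zero hj0
  have hp1 : (1 : ℝ) < p := by exact_mod_cast hp.one_lt
  have hneg := hs.neg
  have hX : v.Ge (p * v θ) (θ ^ p) := by
    intro _
    rw [v.map_pow hs.ne]
  have hlt : (p : ℝ) * v θ < v θ := by nlinarith
  have h1 := pow_sub_expand hX (RVal.ge_self (v := v) θ) hlt.le i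
  have hc0 : ((i + 1 : ℕ) : Ω) ≠ 0 := by
    have hcΩ : CharP Ω p := D2P.charP_big (k := k) p
    intro h0
    have h2 := (CharP.cast_eq_zero_iff Ω p (i + 1)).1 h0
    exact absurd (Nat.le_of_dvd (Nat.succ_pos i) h2) (by omega)
  have hcv : v ((i + 1 : ℕ) : Ω) = 0 := by
    have e : ((i + 1 : ℕ) : Ω) = algebraMap k Ω ((i + 1 : ℕ) : k) := by rw [map_natCast]
    rw [e]
    refine h.triv _ fun h0 => hc0 ?_
    rw [e, h0, map_zero]
  have hY0 : ((θ ^ p) ^ i * θ) ≠ 0 := mul_ne_zero (pow_ne_zero _ (pow_ne_zero _ hs.ne)) hs.ne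
  have hm0 : -(((i + 1 : ℕ) : Ω) * ((θ ^ p) ^ i * θ)) ≠ 0 := neg_ne_zero.2 (mul_ne_zero hc0 hY0)
  have hmv : v (-(((i + 1 : ℕ) : Ω) * ((θ ^ p) ^ i * θ))) = i * (p * v θ) + v θ := by
    rw [v.map_neg _ (mul_ne_zero hc0 hY0), v.map_mul hc0 hY0, hcv, zero_add,
      v.map_mul (pow_ne_zero _ (pow_ne_zero _ hs.ne)) hs.ne, v.map_pow (pow_ne_zero _ hs.ne),
      v.map_pow hs.ne]
  have h2 : Gt v (v (-(((i + 1 : ℕ) : Ω) * ((θ ^ p) ^ i * θ))))
      (-(((i + 1 : ℕ) : Ω) * ((θ ^ p) ^ i * θ)) - ((θ ^ p - θ) ^ (i + 1) - (θ ^ p) ^ (i + 1))) := by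
    have e : -(((i + 1 : ℕ) : Ω) * ((θ ^ p) ^ i * θ)) -
        ((θ ^ p - θ) ^ (i + 1) - (θ ^ p) ^ (i + 1)) =
        -((θ ^ p - θ) ^ (i + 1) - (θ ^ p) ^ (i + 1) + ((i + 1 : ℕ) : Ω) * ((θ ^ p) ^ i * θ)) := by
      ring
    rw [e, hmv]
    exact Gt.of_ge h1.neg (by linarith)
  obtain ⟨h3, h4⟩ := Gt.val_eq hm0 h2
  refine ⟨h3, ?_⟩
  rw [h4, hmv]
  push_cast
  ring

/-- **Decomposition.** -/
theorem RStep.dec [CharP k p] (hp : p.Prime) (h : Ctx0 k v) (hs : RStep p v A θ B)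
    (hpb : PB1 p A (θ ^ p - θ)) {f : Ω} (hf : NP p v A f) :
    ∃ g e : Ω, NP p v B g ∧ NP p v B e ∧ f = g ^ p + e ∧ (p : ℝ) * v g = v f ∧
      v e = v f - ((p : ℝ) - 1) * v θ := by
  classical
  have hfp : Fact p.Prime := ⟨hp⟩
  have hcΩ : CharP Ω p := D2P.charP_big (k := k) p
  have hp0 : (0 : ℝ) < p := by exact_mod_cast hp.pos
  have hp1 : (1 : ℝ) < p := by exact_mod_cast hp.one_lt
  have hneg := hs.neg
  obtain ⟨hfA, hf0, hfn⟩ := hf
  obtain ⟨a, ha, hfa⟩ := hpb f hfA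
  obtain ⟨hb0, hbv⟩ := hs.val_b hp
  set b := θ ^ p - θ with hb
  set S := (Finset.range p).filter fun j => a j ≠ 0 with hS
  have hSp : ∀ j ∈ S, j < p := fun j hj => Finset.mem_range.1 (Finset.mem_filter.1 hj).1
  have hS0 : ∀ j ∈ S, a j ≠ 0 := fun j hj => (Finset.mem_filter.1 hj).2
  have hsum : ∀ F : ℕ → Ω, (∀ j, a j = 0 → F j = 0) →
      ∑ j ∈ Finset.range p, F j = ∑ j ∈ S, F j := by
    intro F hF
    rw [hS, Finset.sum_filter]
    refine Finset.sum_congr rfl fun j _ => ?_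
    by_cases h0 : a j = 0
    · rw [if_neg (by simpa using h0), hF j h0]
    · rw [if_pos h0]
  have hfS : f = ∑ j ∈ S, a j ^ p * b ^ j := by
    rw [hfa]
    exact hsum _ fun j hj => by rw [hj, zero_pow hp.pos.ne', zero_mul]
  have hne : S.Nonempty := by
    rw [Finset.nonempty_iff_ne_empty]
    intro h0
    rw [h0, Finset.sum_empty] at hfS
    exact hf0 hfS
  -- the values
  have hval : ∀ j ∈ S, v (a j ^ p * b ^ j) = p * (v (a j) + j * v θ) := by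
    intro j hj
    rw [v.map_mul (pow_ne_zero _ (hS0 j hj)) (pow_ne_zero _ hb0), v.map_pow (hS0 j hj),
      v.map_pow hb0, hbv]
    ring
  obtain ⟨m, hm, hmin⟩ := Finset.exists_min_image S (fun j => v (a j) + j * v θ) hne
  have hlt : ∀ j ∈ S, j ≠ m → v (a m) + m * v θ < v (a j) + j * v θ := by
    intro j hj hjm
    refine lt_of_le_of_ne (hmin j hj) fun h1 => hjm ?_
    exact hs.inj hp (hSp j hj) (hSp m hm) (ha j) (hS0 j hj) (ha m) (hS0 m hm) h1.symm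
  have hcm0 : a m ^ p * b ^ m ≠ 0 := mul_ne_zero (pow_ne_zero _ (hS0 m hm)) (pow_ne_zero _ hb0)
  obtain ⟨-, hfv⟩ := sum_dom (v := v) S hm (fun j => a j ^ p * b ^ j) hcm0 fun j hj hjm h0 => by
    rw [hval j hj, hval m hm]
    exact mul_lt_mul_of_pos_left (hlt j hj hjm) hp0
  rw [← hfS] at hfv
  have hm0 : m ≠ 0 := by
    rintro rfl
    refine hfn (a 0) (ha 0) (hS0 0 hm) ?_
    rw [hfv, hval 0 hm]
    push_cast
    ring
  -- `g`
  set g := ∑ j ∈ S, a j * θ ^ j with hg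
  have hgm0 : a m * θ ^ m ≠ 0 := mul_ne_zero (hS0 m hm) (pow_ne_zero _ hs.ne)
  have hgval : ∀ j ∈ S, v (a j * θ ^ j) = v (a j) + j * v θ := by
    intro j hj
    rw [v.map_mul (hS0 j hj) (pow_ne_zero _ hs.ne), v.map_pow hs.ne]
  obtain ⟨hg0, hgv⟩ := sum_dom (v := v) S hm (fun j => a j * θ ^ j) hgm0 fun j hj hjm h0 => by
    rw [hgval j hj, hgval m hm]
    exact hlt j hj hjm
  have hgB : g ∈ B := sum_mem fun j _ => mul_mem (hs.le (ha j)) (pow_mem hs.mem j)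
  have hgf : (p : ℝ) * v g = v f := by
    rw [hg, hgv, hgval m hm, hfv, hval m hm]
  -- `e`
  have hee : f - g ^ p = ∑ j ∈ S.erase 0, a j ^ p * (b ^ j - (θ ^ p) ^ j) := by
    have h1 : g ^ p = ∑ j ∈ S, a j ^ p * (θ ^ p) ^ j := by
      rw [hg, sum_pow_char]
      refine Finset.sum_congr rfl fun j _ => ?_
      rw [mul_pow, ← pow_mul, ← pow_mul, mul_comm j p]
    have h2 : ∑ j ∈ S, a j ^ p * (b ^ j - (θ ^ p) ^ j) =
        ∑ j ∈ S.erase 0, a j ^ p * (b ^ j - (θ ^ p) ^ j) := by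
      symm
      refine Finset.sum_subset (Finset.erase_subset _ _) fun j hj hj' => ?_
      have h3 : j = 0 := by
        by_contra h4
        exact hj' (Finset.mem_erase.2 ⟨h4, hj⟩)
      rw [h3, pow_zero, pow_zero, sub_self, mul_zero]
    rw [← h2, h1, hfS, ← Finset.sum_sub_distrib]
    exact Finset.sum_congr rfl fun j _ => by ring
  have heval : ∀ j ∈ S.erase 0, a j ^ p * (b ^ j - (θ ^ p) ^ j) ≠ 0 ∧
      v (a j ^ p * (b ^ j - (θ ^ p) ^ j)) =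
        p * (v (a j) + j * v θ) - ((p : ℝ) - 1) * v θ := by
    intro j hj
    obtain ⟨hj0, hjS⟩ := Finset.mem_erase.1 hj
    obtain ⟨h1, h2⟩ := val_term hp h hs hj0 (hSp j hjS)
    refine ⟨mul_ne_zero (pow_ne_zero _ (hS0 j hjS)) h1, ?_⟩
    rw [v.map_mul (pow_ne_zero _ (hS0 j hjS)) h1, v.map_pow (hS0 j hjS), h2]
    ring
  have hmS : m ∈ S.erase 0 := Finset.mem_erase.2 ⟨hm0, hm⟩
  obtain ⟨he0, hev⟩ := sum_dom (v := v) (S.erase 0) hmS
    (fun j => a j ^ p * (b ^ j - (θ ^ p) ^ j)) (heval m hmS).1 fun j hj hjm h0 => by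
      rw [(heval j hj).2, (heval m hmS).2]
      have h1 := hlt j (Finset.mem_erase.1 hj).2 hjm
      nlinarith
  rw [← hee] at he0 hev
  have hevf : v (f - g ^ p) = v f - ((p : ℝ) - 1) * v θ := by
    rw [hev, (heval m hmS).2, hfv, hval m hm]
  refine ⟨g, f - g ^ p, ⟨hgB, hg0, ?_⟩, ⟨sub_mem (hs.le hfA) (pow_mem hgB p), he0, ?_⟩, by ring,
    hgf, hevf⟩
  · intro w hw hw0 h1
    obtain ⟨c, hc, hc0, hcv⟩ := hs.pval hp hw hw0
    refine hfn c hc hc0 ?_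
    rw [← hgf, h1, hcv]
  · intro w hw hw0 h1
    obtain ⟨c, hc, hc0, hcv⟩ := hs.pval hp hw hw0
    have h2 : (p : ℤ) ∣ -((p : ℤ) - 1) := by
      refine hs.red_int hp (g := c / f) (div_mem hc hfA) (div_ne_zero hc0 hf0) ?_
      rw [v.map_div hc0 hf0, hcv, ← h1, hevf]
      push_cast
      ring
    have h3 : (p : ℤ) ∣ 1 := by
      have h4 : (p : ℤ) ∣ -((p : ℤ) - 1) + p := dvd_add h2 (dvd_refl _)
      have e : -((p : ℤ) - 1) + p = 1 := by ring
      rwa [e] at h4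
    have h5 := Int.le_of_dvd one_pos h3
    have h6 := hp.two_le
    omega

end Dec

end Pool.Agent.TWCT
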