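import Pool.Agent.Lib.TWCT.Alt
import Pool.Agent.Lib.TWF.FF2
import Pool.Agent.Lib.TWC.Irr3
import Pool.Agent.Lib.TWLM.Arc
import Pool.Agent.Lib.TWM.Ent1

/-!
# TANK W, contact (III.1), CT.0: the alternative for the Artin-Schreier towers

* `pb1_of_pbasis`: if `M` has a `p`-basis with one element, the powers of every `b ∈ M` which is not a
  `p`-th power of `M` generate `M` over `M ^ p`;
* `ASC.norm`: the sums `nn` of the tower can be normalized to tend to zero;
* `ASC.of_steps`: the tower of steps `RStep` with a bound of the distances to the `p`-th powers;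
* `alt_of_steps`: the closure of the union has a tight element, or there are infinitely many `i` with
  `nn (i + 1) < u i`.
-/

set_option autoImplicit false

open Polynomial

namespace Pool.Agent.TWCT

open Pool.Agent.H15JM (RVal)
open Pool.Agent.LU1 (VPos adj)
open Pool.Agent.LUC (Cl)
open Pool.Agent.D2 (Ctx0)
open Pool.Agent.D2P (hen clI mem_clI)
open Pool.Agent.TWM
open Pool.Agent.TW (PBasis Qp mem_Qp Qp_le' bas_pow sm finite_of_spn mon pcomb)
open Pool.Agent.TWC (Tgt)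

universe u

variable {k Ω : Type u} [Field k] [Field Ω] [Algebra k Ω] {v : RVal Ω}

/-- The powers of an element which is not a `p`-th power. -/
theorem pb1_of_pbasis {p : ℕ} [hp : Fact p.Prime] [CharP Ω p] {M : IntermediateField k Ω}
    {t : Fin 1 → Ω} (ht : PBasis p M t) {b : Ω} (hb : b ∈ M) (hbn : ∀ g ∈ M, g ^ p ≠ b) :
    PB1 p M b := by
  have hQE : Qp p M ≤ M.toSubfield := Qp_le'
  have hbQ : b ∉ Qp p M := fun h => by
    obtain ⟨c, hc, h1⟩ := mem_Qp.1 h
    exact hbn c hc h1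
  have hx := bas_pow (Q := Qp p M) hbQ (mem_Qp.2 ⟨b, hb, rfl⟩)
  have hfr : Module.finrank (Qp p M) (sm (Qp p M) M.toSubfield hQE) = p := by
    rw [← ht.bas.card hQE]
    simp
  have hfin : Module.Finite (Qp p M) (sm (Qp p M) M.toSubfield hQE) :=
    finite_of_spn hQE ht.bas.span
  let e : Fin p → sm (Qp p M) M.toSubfield hQE := fun i => ⟨b ^ (i : ℕ), pow_mem hb (i : ℕ)⟩
  have hli : LinearIndependent (Qp p M) e := by
    rw [Fintype.linearIndependent_iff]
    intro g hg j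
    have h1 := congrArg (Subtype.val) hg
    rw [AddSubmonoidClass.coe_finsetSum] at h1
    exact Subtype.ext (hx.ind (fun j => (g j : Ω)) (fun j => (g j).2) h1 j)
  have hspan : Submodule.span (Qp p M) (Set.range e) = ⊤ :=
    hli.span_eq_top_of_card_eq_finrank' (by rw [Fintype.card_fin, hfr])
  intro f hf
  have h1 : (⟨f, hf⟩ : sm (Qp p M) M.toSubfield hQE) ∈ Submodule.span (Qp p M) (Set.range e) := by
    rw [hspan]
    exact Submodule.mem_top
  rw [Submodule.mem_span_range_iff_exists_fun] at h1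
  obtain ⟨c, hc⟩ := h1
  have h2 := congrArg (Subtype.val) hc
  rw [AddSubmonoidClass.coe_finsetSum] at h2
  have h3 : ∀ j : Fin p, ∃ a ∈ M, a ^ p = (c j : Ω) := fun j => mem_Qp.1 (c j).2
  choose a ha hac using h3
  have h4 : f = ∑ j : Fin p, a j ^ p * b ^ (j : ℕ) := by
    rw [show f = ((⟨f, hf⟩ : sm (Qp p M) M.toSubfield hQE) : Ω) from rfl, ← h2]
    refine Finset.sum_congr rfl fun j _ => ?_
    rw [hac j]
    rfl
  refine ⟨fun j => if h : j < p then a ⟨j, h⟩ else 0, fun j => ?_, ?_⟩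
  · beta_reduce
    split_ifs with h
    · exact ha _
    · exact zero_mem _
  · rw [Finset.sum_range, h4]
    refine Finset.sum_congr rfl fun j _ => ?_
    show a j ^ p * b ^ (j : ℕ) = (if h : (j : ℕ) < p then a ⟨j, h⟩ else 0) ^ p * b ^ (j : ℕ)
    rw [dif_pos j.2]

/-- `θ ^ p - θ` is not a `p`-th power. -/
theorem RStep.not_pow {p : ℕ} [hp : Fact p.Prime] {A B : IntermediateField k Ω} {θ : Ω}
    (hs : RStep p v A θ B) : ∀ g ∈ A, g ^ p ≠ θ ^ p - θ := by
  intro g hg h1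
  obtain ⟨h0, h2⟩ := hs.val_b hp.out
  have hp0 : (p : ℝ) ≠ 0 := by exact_mod_cast hp.out.ne_zero
  have hg0 : g ≠ 0 := by
    rintro rfl
    rw [zero_pow hp.out.ne_zero] at h1
    exact h0 h1.symm
  refine hs.red g hg hg0 (mul_left_cancel₀ hp0 ?_)
  rw [← h2, ← h1, v.map_pow hg0]

/-- The step satisfies the condition of `RStep.dec`. -/
theorem RStep.pb1 {p : ℕ} [hp : Fact p.Prime] [CharP Ω p] {A B : IntermediateField k Ω} {θ : Ω}
    (hs : RStep p v A θ B) {t : Fin 1 → Ω} (ht : PBasis p A t) : PB1 p A (θ ^ p - θ) :=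
  pb1_of_pbasis ht hs.as hs.not_pow

section Seq

variable {p : ℕ} {N : ℕ → IntermediateField k Ω} {th : ℕ → Ω} {u nn : ℕ → ℝ}

/-- The sums can be normalized. -/
theorem ASC.norm (hp : 1 < p) (h : ASC p v N th u nn) : ∃ L : ℝ,
    ASC p v N th u (fun i => nn i - L) ∧ ∀ ε : ℝ, 0 < ε → ∃ i₁, ∀ i, i₁ ≤ i → nn i - L < ε := by
  have hp' : (1 : ℝ) < p := by exact_mod_cast hp
  have hanti : Antitone nn := antitone_nat_of_succ_le fun n => by
    rw [h.nns n]
    nlinarith [h.pos n]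
  have hbdd : BddBelow (Set.range nn) := ⟨0, by rintro _ ⟨n, rfl⟩; exact h.nn0 n⟩
  have ht := tendsto_atTop_ciInf hanti hbdd
  refine ⟨⨅ i, nn i, ⟨h.hen, h.mem, h.ne, h.pos, h.val, h.gam, h.succ, fun i => ?_, fun i => ?_⟩,
    fun ε hε => ?_⟩
  · exact sub_nonneg.2 (ciInf_le hbdd i)
  · rw [h.nns i]
    ring
  · obtain ⟨M, hM⟩ := Filter.eventually_atTop.1
      (ht.eventually (gt_mem_nhds (lt_add_of_pos_right (⨅ i, nn i) hε)))
    exact ⟨M, fun n hn => by linarith [hM n hn]⟩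

variable [hp : Fact p.Prime] [CharP k p] [CharP Ω p] [hcx : Fact (Ctx0 k v)]

/-- Iterated decomposition along steps. -/
theorem dec_steps (hs : ∀ i, RStep p v (N i) (th i) (N (i + 1)))
    (hpb : ∀ i, PB1 p (N i) (th i ^ p - th i)) {f : Ω} (hf : NP p v (N 0) f) (n : ℕ) :
    ∃ G ∈ N n, ∃ e : Ω, NP p v (N n) e ∧ f = G ^ p + e ∧
      v e = v f + ((p : ℝ) - 1) * ∑ j ∈ Finset.range n, -v (th j) := by
  induction n with
  | zero =>
    refine ⟨0, zero_mem _, f, hf, by rw [zero_pow hp.out.pos.ne', zero_add], ?_⟩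
    rw [Finset.range_zero, Finset.sum_empty, mul_zero, add_zero]
  | succ n ih =>
    obtain ⟨G, hG, e, he, h1, h2⟩ := ih
    obtain ⟨g, e', hg, he', h3, -, h4⟩ := (hs n).dec hp.out hcx.out (hpb n) he
    refine ⟨G + g, add_mem ((hs n).le hG) hg.1, e', he', ?_, ?_⟩
    · rw [h1, h3, add_pow_char]
      ring
    · rw [h4, h2, Finset.sum_range_succ]
      ring

/-- **The tower of steps, from a bound.** -/
theorem ASC.of_steps (hh : ∀ i, D2P.hen v (N i) = N i)
    (hs : ∀ i, RStep p v (N i) (th i) (N (i + 1)))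
    (hpb : ∀ i, PB1 p (N i) (th i ^ p - th i)) {f : Ω} (hf : NP p v (N 0) f) {c : ℝ}
    (hc : ∀ i, ∀ g ∈ N i, ¬ Gt v c (f - g ^ p)) :
    ∃ nn : ℕ → ℝ, ASC p v N th (fun i => -v (th i)) nn ∧
      ∀ ε : ℝ, 0 < ε → ∃ i₁, ∀ i, i₁ ≤ i → nn i < ε := by
  have hp1 : (1 : ℝ) < p := by exact_mod_cast hp.out.one_lt
  set S : ℕ → ℝ := fun n => ((p : ℝ) - 1) * ∑ j ∈ Finset.range n, -v (th j) with hS
  have hSs : ∀ n, S (n + 1) = S n + ((p : ℝ) - 1) * -v (th n) := fun n => by
    rw [hS]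
    simp only [Finset.sum_range_succ]
    ring
  have hmono : Monotone S := monotone_nat_of_le_succ fun n => by
    rw [hSs]
    nlinarith [(hs n).neg]
  have hbd : ∀ n, S n ≤ c - v f := by
    intro n
    obtain ⟨G, hG, e, he, h1, h2⟩ := dec_steps hs hpb hf n
    have h3 : f - G ^ p = e := by rw [h1]; ring
    have h4 : ¬ Gt v c e := h3 ▸ hc n G hG
    have h5 : v e ≤ c := by
      by_contra h6
      push Not at h6
      exact h4 fun _ => h6
    rw [h2] at h5
    linarith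
  have hbdd : BddAbove (Set.range S) := ⟨c - v f, by rintro _ ⟨n, rfl⟩; exact hbd n⟩
  have ht := tendsto_atTop_ciSup hmono hbdd
  refine ⟨fun i => (⨆ n, S n) - S i, ⟨hh, fun i => (hs i).as, fun i => (hs i).ne, fun i => ?_,
    fun i => ?_, fun i a ha ha0 => ?_, fun i => (hs i).eq, fun i => ?_, fun i => ?_⟩,
    fun ε hε => ?_⟩
  · exact neg_pos.2 (hs i).neg
  · rw [neg_neg]
  · rw [neg_neg]
    exact (hs i).red a ha ha0
  · exact sub_nonneg.2 (le_ciSup hbdd i)
  · rw [hSs i]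
    ring
  · obtain ⟨M, hM⟩ := Filter.eventually_atTop.1
      (ht.eventually (lt_mem_nhds (sub_lt_self (⨆ n, S n) hε)))
    exact ⟨M, fun n hn => by linarith [hM n hn]⟩

/-- Elements of all levels. -/
theorem ASC.exists_np (h : ASC p v N th u nn) (hpb : ∀ i, PB1 p (N i) (th i ^ p - th i)) {f : Ω}
    (hf : NP p v (N 0) f) (l : ℕ) : ∃ g : Ω, NP p v (N l) g ∧ (p : ℝ) ^ l * v g = v f := by
  induction l with
  | zero => exact ⟨f, hf, by rw [pow_zero, one_mul]⟩
  | succ l ih =>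
    obtain ⟨g, hg, h1⟩ := ih
    obtain ⟨g', e, hg', -, -, h2, -⟩ := h.dec hpb hg
    refine ⟨g', hg', ?_⟩
    rw [← h1, ← h2, pow_succ]
    ring

/-- **The alternative.** -/
theorem ASC.alt [IsAlgClosed Ω] (h : ASC p v N th u nn)
    (hpb : ∀ i, PB1 p (N i) (th i ^ p - th i))
    (hnn : ∀ ε : ℝ, 0 < ε → ∃ i₁, ∀ i, i₁ ≤ i → nn i < ε) {f : Ω} (hf : NP p v (N 0) f) :
    (∀ J, ∃ i, J ≤ i ∧ 0 < u i - nn (i + 1)) ∨
      ∃ i₀, ∀ l, i₀ ≤ l → ∃ x : ℕ → Ω, NP p v (N l) (x 0) ∧ (p : ℝ) ^ l * v (x 0) = v f ∧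
        (∀ n, x (n + 1) ^ p = x n) ∧ Tgt p v (uni v N) x (v (x 0) + nn l) := by
  by_cases hd : ∀ J, ∃ i, J ≤ i ∧ 0 < u i - nn (i + 1)
  · exact Or.inl hd
  · right
    push Not at hd
    obtain ⟨i₀, hi₀⟩ := hd
    refine ⟨i₀, fun l hl => ?_⟩
    obtain ⟨g, hg, h1⟩ := h.exists_np hpb hf l
    have hroot : ∀ y : Ω, ∃ z : Ω, z ^ p = y := fun y => IsAlgClosed.exists_pow_nat_eq y hp.out.pos
    choose rt hrt using hroot
    have hit : ∀ n, (rt^[n + 1] g) ^ p = rt^[n] g := fun n => by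
      rw [Function.iterate_succ_apply']
      exact hrt _
    refine ⟨fun n => rt^[n] g, hg, h1, hit, h.tgt hpb hnn (fun i hi => ?_) hl hg hit⟩
    have := hi₀ i hi
    linarith

end Seq

/-! ### The base `k(x)` -/

section Base

variable {p : ℕ} [hp : Fact p.Prime]

/-- The distance of `x` to the `p`-th powers. -/
theorem bound_of_oi [CharP Ω p] {C : IntermediateField k Ω} {x y : Ω} {c₀ : ℝ}
    (hO : OI p v C ![x, y] c₀) (hx0 : x ≠ 0) {g : Ω} (hg : g ∈ C) :
    ¬ Gt v (v x + c₀) (x - g ^ p) := by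
  intro h0
  have hp2 := hp.out.two_le
  obtain ⟨μ, hμ, h1⟩ := TWLM.exists_ge_of_gt h0
  let a : ℕ → Ω := fun i => if i = 0 then -g else if i = 1 then 1 else 0
  have ha : ∀ i, a i ∈ C := by
    intro i
    change (if i = 0 then -g else if i = 1 then 1 else 0) ∈ C
    split_ifs
    exacts [neg_mem hg, one_mem _, zero_mem _]
  have hsum : ∑ i : Fin p, a i ^ p * x ^ (i : ℕ) = x - g ^ p := by
    rw [← Finset.sum_range (fun i => a i ^ p * x ^ i),
      ← Finset.sum_subset (s₁ := Finset.range 2) (Finset.range_subset_range.2 hp2) fun i hi hi' => ?_]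
    · have e0 : a 0 = -g := if_pos rfl
      have e1 : a 1 = 1 := by
        change (if 1 = 0 then -g else if 1 = 1 then 1 else 0) = (1 : Ω)
        rw [if_neg one_ne_zero, if_pos rfl]
      rw [Finset.sum_range_succ, Finset.sum_range_one, e0, e1, one_pow, one_mul, pow_zero, mul_one,
        pow_one]
      have e2 : (-g) ^ p = -(g ^ p) := map_neg (frobenius Ω p) g
      rw [e2]
      ring
    · have h3 : 2 ≤ i := by
        by_contra h4
        exact hi' (Finset.mem_range.2 (by omega))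
      have e3 : a i = 0 := by
        change (if i = 0 then -g else if i = 1 then 1 else 0) = (0 : Ω)
        rw [if_neg (by omega), if_neg (by omega)]
      rw [e3, zero_pow hp.out.ne_zero, zero_mul]
  have h2 := TWF.oi_x hO (a := fun i : Fin p => a i) (fun i => ha i) (r := v x + c₀ + μ)
    (by rw [hsum]; exact h1) ⟨1, by omega⟩
  have e1 : a 1 = 1 := by
    change (if 1 = 0 then -g else if 1 = 1 then 1 else 0) = (1 : Ω)
    rw [if_neg one_ne_zero, if_pos rfl]
  have h3 : v.Ge (v x + c₀ + μ - c₀) (a 1 ^ p * x ^ 1) := h2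
  rw [e1, one_pow, one_mul, pow_one] at h3
  have := h3 hx0
  linarith

/-- `x` in the henselization of `k(x)`. -/
theorem np_self (hk : Ctx0 k v) {x : Ω} (hx0 : x ≠ 0)
    (hx : v x < 0) : NP p v (D2P.hen v (adj (⊥ : IntermediateField k Ω) x)) x := by
  refine ⟨D2P.le_hen _ (D2P.mem_adj_self _ _).1, hx0, fun g hg hg0 h1 => ?_⟩
  have h2 : g ∈ cadj v (⊥ : IntermediateField k Ω) x := by
    have h3 : g ∈ clI v (D2P.hen v (adj (⊥ : IntermediateField k Ω) x)) := TWC.self_le_clI v _ hg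
    rwa [TWM.clI_hen] at h3
  obtain ⟨m, hm⟩ := TWC.val_bot hk hx0 hx h2 hg0
  have h4 : (p : ℝ) * m = 1 := by
    have h5 : v x * ((p : ℝ) * m - 1) = 0 := by rw [hm] at h1; linarith
    rcases mul_eq_zero.1 h5 with h6 | h6
    · exact absurd h6 hx.ne
    · linarith
  have h5 : (p : ℤ) * m = 1 := by exact_mod_cast h4
  have h6 := Int.eq_one_or_neg_one_of_mul_eq_one h5
  have := hp.out.two_le
  omega

end Base

end Pool.Agent.TWCT
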