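import Pool.Agent.Lib.TWCT.Tie
import Pool.Agent.Lib.TWN1.GabB

/-!
# TANK W, contact (III.1): a pair of floors with independent tops

`Ind`: the independence which `TWN1.AF.red` produces.  `pair_top`: in a null relation both
displacements are at least the radii.  `Fam.pair_false`: over a family of strict motions of `F` a
pair of floors with independent tops cannot generate `W`.
-/

set_option autoImplicit false

open Polynomial Finset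

namespace Pool.Agent.TWCT

open Pool.Agent.H15JM (RVal)
open Pool.Agent.LU1 (VPos adj)
open Pool.Agent.LUC (Cl)
open Pool.Agent.D2 (Ctx0)
open Pool.Agent.D2P (hen clI mem_clI)
open Pool.Agent.TWM
open Pool.Agent.TWS
open Pool.Agent.TWII (PG LP)
open Pool.Agent.TWN1 (PC Col col Par)

universe u

variable {k Ω : Type u} [Field k] [Field Ω] [Algebra k Ω] {v : RVal Ω}

/-- Independent tops. -/
def Ind (p : ℕ) (v : RVal Ω) (F : IntermediateField k Ω) (ν r₁ : ℝ) (S : ℕ) (r₂ : ℝ) (T : ℕ)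
    (a b : Ω) : Prop :=
  ∀ c₁ ∈ F, ∀ c₂ ∈ F, ∀ t : ℝ, PG p v F t (a * c₁ ^ p ^ S + b * c₂ ^ p ^ T) →
    Gt v (t - ν + p ^ S * r₁) (c₁ ^ p ^ S) ∧ Gt v (t - ν + p ^ T * r₂) (c₂ ^ p ^ T)

variable {p : ℕ} [hp : Fact p.Prime] [CharP Ω p] {W F K : IntermediateField k Ω}
  {L : ℕ → IntermediateField k Ω} {Φ Ψ : Ω →ₐ[k] Ω}

/-- One term of a column, at the level `ν - Γ`. -/
theorem term_low {ν r Γ : ℝ} {B : ℕ → Ω} (hB : Col p v F ν r B) {T : ℕ} {e : Ω} (he : e ∈ F)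
    (hΓ : 0 < Γ) (hTΓ : e ≠ 0 → p ^ T * (r - v e) ≤ Γ) {j : ℕ} (hj : j < T) :
    PG p v F (ν - Γ) (B j * e ^ p ^ j) := by
  have hp1 : (1 : ℝ) < p := by exact_mod_cast hp.out.one_lt
  by_cases he0 : e = 0
  · rw [he0, zero_pow (Nat.pow_pos hp.out.pos).ne', mul_zero]
    exact PG.of_gt Gt.zero
  have h1 := hTΓ he0
  have hlt : (p : ℝ) ^ j < p ^ T := pow_lt_pow_right₀ hp1 hj
  have hj0 : (0 : ℝ) < (p : ℝ) ^ j := by positivity
  have h2 : p ^ j * (r - v e) < Γ := by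
    rcases le_or_gt (r - v e) 0 with h3 | h3
    · nlinarith
    · nlinarith
  have hval : v.Ge (p ^ j * v e) (e ^ p ^ j) := by
    have h3 := ge_pow (RVal.ge_self (v := v) e) (p ^ j)
    refine h3.mono (le_of_eq ?_)
    push_cast
    ring
  rcases Nat.eq_zero_or_pos j with rfl | hj1
  · refine PG.of_gt (Gt.of_ge (hB.lin.mul hval) ?_)
    rw [pow_zero] at h2 ⊢
    linarith
  · obtain ⟨i, rfl⟩ : ∃ i, j = i + 1 := ⟨j - 1, by omega⟩
    have h3 : e ^ p ^ (i + 1) = (e ^ p ^ i) ^ p := by rw [← pow_mul, ← pow_succ]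
    have h4 := (hB.lev (i + 1) (by omega)).pc
      (c' := ν - p ^ (i + 1) * r - (Γ - p ^ (i + 1) * (r - v e)) / 2) (by linarith)
    rw [h3] at hval ⊢
    refine (h4.mul_pow (pow_mem he _) hval).pg ?_
    linarith

/-- The effect of a strict motion on a coefficient, at the level `ν - Γ`. -/
theorem term_strict {ν r Γ η : ℝ} {B : ℕ → Ω} (hB : Col p v F ν r B) (hη : 0 < η)
    (hs : StrM v Ψ F η) (hΨF : ∀ a ∈ F, Ψ a ∈ F) {T : ℕ} {e : Ω} (he : e ∈ F) (hΓ : 0 < Γ)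
    (hTΓ : e ≠ 0 → p ^ T * (r - v e) ≤ Γ) {j : ℕ} (hj : j ≤ T) :
    PG p v F (ν - Γ) ((Ψ (B j) - B j) * e ^ p ^ j) := by
  have hp1 : (1 : ℝ) < p := by exact_mod_cast hp.out.one_lt
  by_cases he0 : e = 0
  · rw [he0, zero_pow (Nat.pow_pos hp.out.pos).ne', mul_zero]
    exact PG.of_gt Gt.zero
  have h1 := hTΓ he0
  have hle : (p : ℝ) ^ j ≤ p ^ T := pow_le_pow_right₀ hp1.le hj
  have hj0 : (0 : ℝ) < (p : ℝ) ^ j := by positivity
  have h2 : p ^ j * (r - v e) ≤ Γ := by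
    rcases le_or_gt (r - v e) 0 with h3 | h3
    · nlinarith
    · nlinarith
  have hval : v.Ge (p ^ j * v e) (e ^ p ^ j) := by
    have h3 := ge_pow (RVal.ge_self (v := v) e) (p ^ j)
    refine h3.mono (le_of_eq ?_)
    push_cast
    ring
  rcases Nat.eq_zero_or_pos j with rfl | hj1
  · refine PG.of_gt (Gt.of_ge ((hs _ (hB.mem 0) _ hB.lin).mul hval) ?_)
    rw [pow_zero] at h2 ⊢
    linarith
  · obtain ⟨i, rfl⟩ : ∃ i, j = i + 1 := ⟨j - 1, by omega⟩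
    have h3 : e ^ p ^ (i + 1) = (e ^ p ^ i) ^ p := by rw [← pow_mul, ← pow_succ]
    have h4 := strict_null hη hs hΨF (hB.mem (i + 1)) (hB.lev (i + 1) (by omega))
    rw [h3] at hval ⊢
    refine (h4.mul_pow (pow_mem he _) hval).pg ?_
    linarith

/-- **Independent tops: both displacements are at least the radii.** -/
theorem pair_top {ν r₁ r₂ η : ℝ} {x y : ℕ → Ω} {S T : ℕ} (hx : Col p v F ν r₁ x)
    (hy : Col p v F ν r₂ y) (hind : Ind p v F ν r₁ S r₂ T (x S) (y T)) (hη : 0 < η)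
    (hs : StrM v Ψ F η) (hΨF : ∀ a ∈ F, Ψ a ∈ F) {d₁ d₂ : Ω} (hd₁ : d₁ ∈ F) (hd₂ : d₂ ∈ F)
    (hnull : PG p v F ν (∑ j ∈ range (S + 1), Ψ (x j) * d₁ ^ p ^ j +
      ∑ j ∈ range (T + 1), Ψ (y j) * d₂ ^ p ^ j)) : v.Ge r₁ d₁ ∧ v.Ge r₂ d₂ := by
  classical
  have hpS : (0 : ℝ) < (p : ℝ) ^ S := by have := hp.out.pos; positivity
  have hpT : (0 : ℝ) < (p : ℝ) ^ T := by have := hp.out.pos; positivity
  set Γ₁ : ℝ := if d₁ = 0 then 0 else p ^ S * (r₁ - v d₁) with hΓ₁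
  set Γ₂ : ℝ := if d₂ = 0 then 0 else p ^ T * (r₂ - v d₂) with hΓ₂
  have e₁ : d₁ ≠ 0 → Γ₁ = p ^ S * (r₁ - v d₁) := fun h => by rw [hΓ₁, if_neg h]
  have e₂ : d₂ ≠ 0 → Γ₂ = p ^ T * (r₂ - v d₂) := fun h => by rw [hΓ₂, if_neg h]
  by_contra hcon
  set Γ : ℝ := max Γ₁ Γ₂ with hΓ
  have hΓ0 : 0 < Γ := by
    by_contra h
    push Not at h
    apply hcon
    refine ⟨fun h0 => ?_, fun h0 => ?_⟩
    · have h1 := (le_max_left Γ₁ Γ₂).trans h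
      rw [e₁ h0] at h1
      by_contra h2
      push Not at h2
      nlinarith
    · have h1 := (le_max_right Γ₁ Γ₂).trans h
      rw [e₂ h0] at h1
      by_contra h2
      push Not at h2
      nlinarith
  have hb₁ : d₁ ≠ 0 → p ^ S * (r₁ - v d₁) ≤ Γ := fun h => by
    rw [← e₁ h]
    exact le_max_left _ _
  have hb₂ : d₂ ≠ 0 → p ^ T * (r₂ - v d₂) ≤ Γ := fun h => by
    rw [← e₂ h]
    exact le_max_right _ _
  have hcol : ∀ {r : ℝ} {B : ℕ → Ω} (_ : Col p v F ν r B) (T : ℕ) {e : Ω} (_ : e ∈ F)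
      (_ : e ≠ 0 → p ^ T * (r - v e) ≤ Γ),
      PG p v F (ν - Γ) (∑ j ∈ range (T + 1), Ψ (B j) * e ^ p ^ j - B T * e ^ p ^ T) := by
    intro r B hB T e he hT
    have h1 : ∑ j ∈ range (T + 1), Ψ (B j) * e ^ p ^ j - B T * e ^ p ^ T =
        ∑ j ∈ range (T + 1), (Ψ (B j) - B j) * e ^ p ^ j + ∑ j ∈ range T, B j * e ^ p ^ j := by
      have h2 : ∑ j ∈ range (T + 1), (Ψ (B j) - B j) * e ^ p ^ j =
          ∑ j ∈ range (T + 1), Ψ (B j) * e ^ p ^ j - ∑ j ∈ range (T + 1), B j * e ^ p ^ j := by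
        rw [← sum_sub_distrib]
        exact sum_congr rfl fun j _ => by ring
      rw [h2, sum_range_succ (fun j => B j * e ^ p ^ j)]
      ring
    rw [h1]
    refine (PG.sum _ _ fun j hj => ?_).add (PG.sum _ _ fun j hj => ?_)
    · rw [mem_range] at hj
      exact term_strict hB hη hs hΨF he hΓ0 hT (by omega)
    · rw [mem_range] at hj
      exact term_low hB he hΓ0 hT hj
  have h1 : PG p v F (ν - Γ) (x S * d₁ ^ p ^ S + y T * d₂ ^ p ^ T) := by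
    have h2 := ((hnull.mono (c' := ν - Γ) (by linarith)).sub (hcol hx S hd₁ hb₁)).sub
      (hcol hy T hd₂ hb₂)
    refine (congrArg _ ?_).mp h2
    ring
  obtain ⟨h2, h3⟩ := hind d₁ hd₁ d₂ hd₂ _ h1
  have h4 : Γ₁ < Γ := by
    by_cases h0 : d₁ = 0
    · rw [hΓ₁, if_pos h0]
      exact hΓ0
    · have h5 := h2 (pow_ne_zero _ h0)
      rw [v.map_pow h0] at h5
      rw [e₁ h0]
      push_cast at h5
      nlinarith
  have h5 : Γ₂ < Γ := by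
    by_cases h0 : d₂ = 0
    · rw [hΓ₂, if_pos h0]
      exact hΓ0
    · have h5 := h3 (pow_ne_zero _ h0)
      rw [v.map_pow h0] at h5
      rw [e₂ h0]
      push_cast at h5
      nlinarith
  exact absurd (max_lt h4 h5) (lt_irrefl _)

/-- The value at a centre is a `p`-th power of `F`, up to `ν - ε`. -/
theorem pair_centre [IsAlgClosed Ω] {y₁ y₂ : Ω} {r₁ r₂ ν ε : ℝ} (hpar : Par v F K y₁ r₁ y₂ r₂)
    (hε : 0 < ε) {b₀ : Ω} (hb0 : b₀ ∈ F) {x y : ℕ → Ω} {S T : ℕ} (hx : Col p v F ν r₁ x)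
    (hy : Col p v F ν r₂ y) (hlp : LP p v K ν (b₀ + col p x y₁ S + col p y y₂ T)) :
    ∃ δ : ℝ, 0 < δ ∧ ∀ c₁ ∈ F, ∀ c₂ ∈ F, v.Ge (r₁ - δ) (y₁ - c₁) → v.Ge (r₂ - δ) (y₂ - c₂) →
      PC p v F (ν - ε) (b₀ + col p x c₁ S + col p y c₂ T) := by
  have hp1 : (1 : ℝ) < p := by exact_mod_cast hp.out.one_lt
  set R : ℝ := p ^ max S T with hR
  have hR0 : (0 : ℝ) < R := by rw [hR]; positivity
  have hbd : ∀ j, j ≤ max S T → (p : ℝ) ^ j ≤ R := fun j hj => pow_le_pow_right₀ hp1.le hj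
  have hterm : ∀ {r : ℝ} {B : ℕ → Ω} (_ : Col p v F ν r B) {z e : Ω} (_ : z ∈ K) (_ : e ∈ F)
      (_ : v.Ge (r - ε / (2 * R)) (z - e)) (U : ℕ), U ≤ max S T →
      PC p v K (ν - ε) (∑ j ∈ range (U + 1), B j * (z - e) ^ p ^ j) := by
    intro r B hB z e hz he hze U hU
    refine PC.sum _ _ fun j hj => ?_
    rw [mem_range] at hj
    have hj' := hbd j (by omega)
    have hj0 : (0 : ℝ) < (p : ℝ) ^ j := by positivity
    have h2 : v.Ge (p ^ j * r - ε / 2) ((z - e) ^ p ^ j) := by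
      have h3 := ge_pow hze (p ^ j)
      refine h3.mono ?_
      push_cast
      have h4 : (p : ℝ) ^ j * (ε / (2 * R)) ≤ ε / 2 := by
        rw [← mul_div_assoc, div_le_iff₀ (by positivity)]
        nlinarith
      linarith
    rcases Nat.eq_zero_or_pos j with rfl | hj1
    · refine PC.of_ge ((hB.lin.mul h2).mono ?_)
      rw [pow_zero]
      linarith
    · obtain ⟨i, rfl⟩ : ∃ i, j = i + 1 := ⟨j - 1, by omega⟩
      have h3 : (z - e) ^ p ^ (i + 1) = ((z - e) ^ p ^ i) ^ p := by rw [← pow_mul, ← pow_succ]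
      obtain ⟨g, hg, h4⟩ : PC p v F (ν - p ^ (i + 1) * r - ε / 2) (B (i + 1)) :=
        (hB.lev (i + 1) (by omega)).pc (by linarith)
      rw [h3] at h2 ⊢
      exact ((show PC p v K _ _ from ⟨g, hpar.le hg, h4⟩).mul_pow
        (pow_mem (sub_mem hz (hpar.le he)) _) h2).mono (by linarith)
  refine ⟨ε / (2 * R), by positivity, fun c₁ hc₁ c₂ hc₂ h1 h2 => ?_⟩
  refine hpar.down (add_mem (add_mem hb0 (sum_mem fun j _ => mul_mem (hx.mem j) (pow_mem hc₁ _)))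
    (sum_mem fun j _ => mul_mem (hy.mem j) (pow_mem hc₂ _))) ?_
  have e : b₀ + col p x c₁ S + col p y c₂ T = (b₀ + col p x y₁ S + col p y y₂ T) -
      ∑ j ∈ range (S + 1), x j * (y₁ - c₁) ^ p ^ j - ∑ j ∈ range (T + 1), y j * (y₂ - c₂) ^ p ^ j := by
    rw [addp_sub, addp_sub, col, col, col, col]
    ring
  rw [e]
  exact ((hlp.pc (by linarith)).sub (hterm hx hpar.mem1 hc₁ h1 S (le_max_left _ _))).sub
    (hterm hy hpar.mem2 hc₂ h2 T (le_max_right _ _))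

/-- The difference of two motions on an additive polynomial. -/
theorem map_col_sub (B : ℕ → Ω) (c : Ω) (T : ℕ) : Φ (col p B c T) - Ψ (col p B c T) =
    ∑ j ∈ range (T + 1), (Φ (B j) - Ψ (B j)) * (Φ c) ^ p ^ j +
      ∑ j ∈ range (T + 1), Ψ (B j) * (Φ c - Ψ c) ^ p ^ j := by
  rw [addp_sub, col, map_sum, map_sum]
  have h1 : ∑ j ∈ range (T + 1), (Φ (B j) - Ψ (B j)) * (Φ c) ^ p ^ j =
      ∑ j ∈ range (T + 1), Φ (B j) * (Φ c) ^ p ^ j - ∑ j ∈ range (T + 1), Ψ (B j) * (Φ c) ^ p ^ j := by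
    rw [← sum_sub_distrib]
    exact sum_congr rfl fun j _ => by ring
  rw [h1]
  have h2 : ∀ Θ : Ω →ₐ[k] Ω, ∑ j ∈ range (T + 1), Θ (B j * c ^ p ^ j) =
      ∑ j ∈ range (T + 1), Θ (B j) * (Θ c) ^ p ^ j := fun Θ =>
    sum_congr rfl fun j _ => by rw [map_mul, map_pow]
  rw [h2, h2]
  ring

/-- **Two motions which agree on the coefficients, a pair of floors.** -/
theorem pair2_null [IsAlgClosed Ω] {y₁ y₂ : Ω} {r₁ r₂ ν η : ℝ} (hpar : Par v F K y₁ r₁ y₂ r₂)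
    (hΦ : IsoE v v Φ) (hΦF : ∀ a ∈ F, Φ a ∈ F) (hΨF : ∀ a ∈ F, Ψ a ∈ F)
    (hη : 0 < η) (hs : StrM v Φ F η) (hs' : StrM v Ψ F η) {b₀ : Ω} (hb0 : b₀ ∈ F)
    {x y : ℕ → Ω} {S T : ℕ} (hx : Col p v F ν r₁ x) (hy : Col p v F ν r₂ y)
    (hlp : LP p v K ν (b₀ + col p x y₁ S + col p y y₂ T)) {m P : ℝ} (hm1 : v.Ge m y₁)
    (hm2 : v.Ge m y₂) (hms1 : m ≤ r₁ - 1) (hms2 : m ≤ r₂ - 1) (hP : ν < P)
    (hPj : ∀ j ∈ range (max S T + 1), ν < P + p ^ j * m) (hb : v.Ge P (Φ b₀ - Ψ b₀))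
    (hxj : ∀ j ∈ range (S + 1), v.Ge P (Φ (x j) - Ψ (x j)))
    (hyj : ∀ j ∈ range (T + 1), v.Ge P (Φ (y j) - Ψ (y j))) :
    ∃ δ : ℝ, 0 < δ ∧ ∀ c₁ ∈ F, ∀ c₂ ∈ F, v.Ge (r₁ - δ) (y₁ - c₁) → v.Ge (r₂ - δ) (y₂ - c₂) →
      PG p v F ν (∑ j ∈ range (S + 1), Ψ (x j) * (Φ c₁ - Ψ c₁) ^ p ^ j +
        ∑ j ∈ range (T + 1), Ψ (y j) * (Φ c₂ - Ψ c₂) ^ p ^ j) := by
  obtain ⟨δ, hδ, h1⟩ := pair_centre hpar (half_pos hη) hb0 hx hy hlp
  refine ⟨min 1 δ, lt_min one_pos hδ, fun c₁ hc₁ c₂ hc₂ hyc₁ hyc₂ => ?_⟩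
  obtain ⟨h, hh, h2⟩ := h1 c₁ hc₁ c₂ hc₂ (hyc₁.mono (by linarith [min_le_right 1 δ]))
    (hyc₂.mono (by linarith [min_le_right 1 δ]))
  set Q := b₀ + col p x c₁ S + col p y c₂ T with hQ
  have hQF : Q ∈ F := add_mem (add_mem hb0 (sum_mem fun j _ => mul_mem (hx.mem j) (pow_mem hc₁ _)))
    (sum_mem fun j _ => mul_mem (hy.mem j) (pow_mem hc₂ _))
  have h3 : PC p v F (ν + η / 2) (Φ Q - Ψ Q) := by
    refine ⟨Φ h - Ψ h, sub_mem (hΦF h hh) (hΨF h hh), ?_⟩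
    have h4 := (hs _ (sub_mem hQF (pow_mem hh p)) _ h2).sub (hs' _ (sub_mem hQF (pow_mem hh p)) _ h2)
    have e : Φ Q - Ψ Q - (Φ h - Ψ h) ^ p =
        (Φ (Q - h ^ p) - (Q - h ^ p)) - (Ψ (Q - h ^ p) - (Q - h ^ p)) := by
      have := sub_pow_char (R := Ω) (p := p) (Φ h) (Ψ h)
      rw [this, map_sub Φ Q, map_sub Ψ Q, map_pow, map_pow]
      ring
    rw [e]
    exact h4.mono (by linarith)
  have hcm : ∀ {c y : Ω} {r : ℝ}, v.Ge m y → m ≤ r - 1 → v.Ge (r - min 1 δ) (y - c) →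
      v.Ge m (Φ c) := by
    intro c y r hmy hmr hyc
    refine hΦ.ge_iff.2 ?_
    have e : c = y - (y - c) := by ring
    rw [e]
    exact hmy.sub (hyc.mono (by linarith [min_le_left 1 δ]))
  have hcol : ∀ {B : ℕ → Ω} {U : ℕ} {c : Ω}, U ≤ max S T → v.Ge m (Φ c) →
      (∀ j ∈ range (U + 1), v.Ge P (Φ (B j) - Ψ (B j))) →
      Gt v ν (∑ j ∈ range (U + 1), (Φ (B j) - Ψ (B j)) * (Φ c) ^ p ^ j) := by
    intro B U c hU hmc hB
    refine Gt.sum _ _ fun j hj => ?_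
    have h7 := (hB j hj).mul (ge_pow hmc (p ^ j))
    refine Gt.of_ge h7 ?_
    push_cast
    exact hPj j (by rw [mem_range] at hj ⊢; omega)
  have h6 : Gt v ν ((Φ b₀ - Ψ b₀) + ∑ j ∈ range (S + 1), (Φ (x j) - Ψ (x j)) * (Φ c₁) ^ p ^ j +
      ∑ j ∈ range (T + 1), (Φ (y j) - Ψ (y j)) * (Φ c₂) ^ p ^ j) :=
    ((Gt.of_ge hb hP).add (hcol (le_max_left _ _) (hcm hm1 hms1 hyc₁) hxj)).add
      (hcol (le_max_right _ _) (hcm hm2 hms2 hyc₂) hyj)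
  have h8 := (h3.pg (c' := ν) (by linarith)).sub (PG.of_gt (p := p) (F := F) h6)
  refine (congrArg _ ?_).mp h8
  rw [hQ, map_add, map_add, map_add, map_add]
  have e1 := map_col_sub (Φ := Φ) (Ψ := Ψ) (p := p) x c₁ S
  have e2 := map_col_sub (Φ := Φ) (Ψ := Ψ) (p := p) y c₂ T
  linear_combination e1 + e2

/-- A precision which absorbs finitely many powers of elements of value `≥ m`. -/
theorem exists_prec (p : ℕ) (hp : 1 < p) (ν m : ℝ) (U : ℕ) :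
    ∃ P : ℝ, ν < P ∧ ∀ j ∈ range (U + 1), ν < P + p ^ j * m := by
  have hp1 : (1 : ℝ) < p := by exact_mod_cast hp
  refine ⟨ν + 1 + p ^ U * |m|, ?_, fun j hj => ?_⟩
  · have : 0 ≤ (p : ℝ) ^ U * |m| := by positivity
    linarith
  · have h1 : (p : ℝ) ^ j ≤ (p : ℝ) ^ U := pow_le_pow_right₀ hp1.le (by rw [mem_range] at hj; omega)
    have h2 : -|m| ≤ m := neg_abs_le m
    have h3 : (0 : ℝ) < (p : ℝ) ^ j := by positivity
    have h4 : -(p ^ U * |m|) ≤ (p : ℝ) ^ j * m := by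
      calc -(p ^ U * |m|) ≤ -(p ^ j * |m|) := by
            have := mul_le_mul_of_nonneg_right h1 (abs_nonneg m)
            linarith
        _ = p ^ j * (-|m|) := by ring
        _ ≤ p ^ j * m := mul_le_mul_of_nonneg_left h2 h3.le
    linarith

/-- **A pair of floors with independent tops does not generate `W`.** -/
theorem Fam.pair_false [IsAlgClosed Ω] (hk : Ctx0 k v) (hsp : SphC v)
    (hval : ∀ ρ : ℝ, ∃ x : Ω, x ≠ 0 ∧ v x = ρ) {Φ : ℕ → Ω →ₐ[k] Ω} (hWF : W ≤ F)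
    (hL : Monotone L) (hLF : ∀ J, L J ≤ F) (hd : F ≤ clI v (⨆ J, L J)) (h : Fam v L W F Φ)
    {y₁ y₂ : Ω} {r₁ r₂ : ℝ} (hpar : Par v F K y₁ r₁ y₂ r₂) {ν : ℝ} {b₀ : Ω} (hb0 : b₀ ∈ F)
    {x y : ℕ → Ω} {S T : ℕ} (hx : Col p v F ν r₁ x) (hy : Col p v F ν r₂ y)
    (hlp : LP p v K ν (b₀ + col p x y₁ S + col p y y₂ T))
    (hind : Ind p v F ν r₁ S r₂ T (x S) (y T)) {J₀ : ℕ}
    (hgen : W ≤ cadj v (cadj v (L J₀) y₁) y₂) : False := by
  classical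
  obtain ⟨m, hm1, hm2, hms1, hms2⟩ : ∃ m : ℝ, v.Ge m y₁ ∧ v.Ge m y₂ ∧ m ≤ r₁ - 1 ∧ m ≤ r₂ - 1 :=
    ⟨min (min (v y₁) (v y₂)) (min (r₁ - 1) (r₂ - 1)),
      (RVal.ge_self _).mono ((min_le_left _ _).trans (min_le_left _ _)),
      (RVal.ge_self _).mono ((min_le_left _ _).trans (min_le_right _ _)),
      (min_le_right _ _).trans (min_le_left _ _), (min_le_right _ _).trans (min_le_right _ _)⟩
  obtain ⟨P, hP, hPj⟩ := exists_prec p hp.out.one_lt ν m (max S T)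
  obtain ⟨J₁, hJ₁⟩ := exists_level_pair hL hd
    (insert b₀ ((range (S + 1)).image x ∪ (range (T + 1)).image y)) (fun z hz => by
      rcases mem_insert.1 hz with rfl | hz
      · exact hb0
      rcases mem_union.1 hz with hz | hz
      · obtain ⟨j, -, rfl⟩ := mem_image.1 hz
        exact hx.mem j
      · obtain ⟨j, -, rfl⟩ := mem_image.1 hz
        exact hy.mem j) P
  obtain ⟨M, hM⟩ := h.agree (max J₀ J₁)
  have hag := hM M (M + 1) le_rfl (Nat.le_succ M)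
  obtain ⟨w, hwW, hne⟩ := h.ne M (M + 1) (Nat.lt_succ_self M)
  obtain ⟨η₁, hη₁, hs₁⟩ := h.str M
  obtain ⟨η₂, hη₂, hs₂⟩ := h.str (M + 1)
  have hlev := hJ₁ (Φ M) (Φ (M + 1)) (h.iso _) (h.iso _)
    fun a ha => hag a (hL (le_max_right J₀ J₁) ha)
  have hη : 0 < min η₁ η₂ := lt_min hη₁ hη₂
  obtain ⟨δ, hδ, h1⟩ := pair2_null hpar (h.iso M) (h.map M) (h.map (M + 1)) hη
    (hs₁.mono (min_le_left _ _)) (hs₂.mono (min_le_right _ _)) hb0 hx hy hlp hm1 hm2 hms1 hms2 hP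
    hPj (hlev _ (mem_insert_self _ _))
    (fun j hj => hlev _ (mem_insert_of_mem (mem_union_left _ (mem_image_of_mem x hj))))
    (fun j hj => hlev _ (mem_insert_of_mem (mem_union_right _ (mem_image_of_mem y hj))))
  have h2 : ∀ c₁ ∈ F, ∀ c₂ ∈ F, v.Ge (r₁ - δ) (y₁ - c₁) → v.Ge (r₂ - δ) (y₂ - c₂) →
      v.Ge r₁ (Φ M c₁ - Φ (M + 1) c₁) ∧ v.Ge r₂ (Φ M c₂ - Φ (M + 1) c₂) :=
    fun c₁ hc₁ c₂ hc₂ hyc₁ hyc₂ => pair_top hx hy hind hη (hs₂.mono (min_le_right _ _))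
      (h.map (M + 1)) (sub_mem (h.map M _ hc₁) (h.map (M + 1) _ hc₁))
      (sub_mem (h.map M _ hc₂) (h.map (M + 1) _ hc₂)) (h1 c₁ hc₁ c₂ hc₂ hyc₁ hyc₂)
  obtain ⟨e₁, he₁, hye₁⟩ := hpar.t1.lim δ hδ
  obtain ⟨e₂, he₂, hye₂⟩ := hpar.t2.lim δ hδ
  -- the first generator
  obtain ⟨Ψ, hΨ, hΨF, hΨ1⟩ := (h.iso (M + 1)).exists_move_tl hk hsp hval hpar.t1
    (ζ := Φ M y₁) fun ε hε => by
      obtain ⟨c, hc, hyc⟩ := hpar.t1.lim (min ε δ) (lt_min hε hδ)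
      refine ⟨c, hc, hyc.mono (by linarith [min_le_left ε δ]), ?_⟩
      have h3 := (h2 c hc e₂ he₂ (hyc.mono (by linarith [min_le_right ε δ])) hye₂).1
      have e : Φ M y₁ - Φ (M + 1) c = Φ M (y₁ - c) + (Φ M c - Φ (M + 1) c) := by
        rw [map_sub]
        ring
      rw [e]
      exact (((h.iso M).ge_iff.2 hyc).mono (by linarith [min_le_left ε δ])).add
        (h3.mono (by linarith))
  -- the second generator
  obtain ⟨Θ, hΘ, hΘF, hΘ2⟩ := hΨ.exists_move_tl hk hsp hval hpar.t21 (ζ := Φ M y₂) fun ε hε => by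
      obtain ⟨c, hc, hyc⟩ := hpar.t2.lim (min ε δ) (lt_min hε hδ)
      refine ⟨c, le_cadj v F y₁ hc, hyc.mono (by linarith [min_le_left ε δ]), ?_⟩
      have h3 := (h2 e₁ he₁ c hc hye₁ (hyc.mono (by linarith [min_le_right ε δ]))).2
      have e : Φ M y₂ - Ψ c = Φ M (y₂ - c) + (Φ M c - Φ (M + 1) c) := by
        rw [map_sub, hΨF c hc]
        ring
      rw [e]
      exact (((h.iso M).ge_iff.2 hyc).mono (by linarith [min_le_left ε δ])).add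
        (h3.mono (by linarith))
  -- they agree on `W`
  have h3 : ∀ a ∈ F, Θ a = Φ (M + 1) a := fun a ha => by
    rw [hΘF a (le_cadj v F y₁ ha), hΨF a ha]
  have h4 : ∀ a ∈ cadj v (cadj v (L J₀) y₁) y₂, Φ M a = Θ a := by
    refine eq_on_cadj (h.iso M) hΘ (eq_on_cadj (h.iso M) hΘ (fun a ha => ?_) ?_) hΘ2.symm
    · rw [h3 a (hLF _ ha)]
      exact hag a (hL (le_max_left J₀ J₁) ha)
    · rw [hΘF y₁ (self_mem_cadj v F y₁), hΨ1]
  apply hne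
  rw [h4 w (hgen hwW), h3 w (hWF hwW)]

/-- **Contact, first floor hit, then a pair.** -/
theorem ConM.not_hit_pair [IsAlgClosed k] [IsAlgClosed Ω] (hk : Ctx0 k v) (hsp : SphC v)
    (hval : ∀ ρ : ℝ, ∃ x : Ω, x ≠ 0 ∧ v x = ρ) (hL : Monotone L) (hLW : ∀ J, L J ≤ W)
    (hd : W ≤ clI v (⨆ J, L J)) (hcon : ConM v L W) {y₀ y₁ y₂ : Ω} {s₀ r₁ r₂ : ℝ}
    (h0 : TL v W y₀ s₀) (hpar : Par v (cadj v W y₀) K y₁ r₁ y₂ r₂) (t0 : Hit p v W y₀ s₀)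
    {ν : ℝ} {b₀ : Ω} (hb0 : b₀ ∈ cadj v W y₀) {x y : ℕ → Ω} {S T : ℕ}
    (hx : Col p v (cadj v W y₀) ν r₁ x) (hy : Col p v (cadj v W y₀) ν r₂ y)
    (hlp : LP p v K ν (b₀ + col p x y₁ S + col p y y₂ T))
    (hind : Ind p v (cadj v W y₀) ν r₁ S r₂ T (x S) (y T)) {J₀ : ℕ}
    (hgen : W ≤ cadj v (cadj v (cadj v (L J₀) y₀) y₁) y₂) : False := by
  obtain ⟨Φ, hΦ⟩ := hcon.exists_fam hL hLW hd
  obtain ⟨Φ₁, hΦ₁⟩ := hΦ.step hk hsp hval le_rfl hL hLW hd h0 t0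
  exact hΦ₁.pair_false hk hsp hval (le_cadj v W y₀) (fun a b hab => cadj_mono_left (hL hab) y₀)
    (fun J => cadj_mono_left (hLW J) y₀) (dense_step hd y₀) hpar hb0 hx hy hlp hind hgen

end Pool.Agent.TWCT
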