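import Pool.Agent.Lib.TWCT.ConS
import Pool.Agent.Lib.TWCT.Pair

/-!
# TANK W, contact (III.1): a pair of floors with independent tops over a quiet field

* `ConS.pair_false`: `ConS v L W F`, `K = F⟨y₁⟩⟨y₂⟩` a pair over `F`, a critical element of `K` whose
  additive form has independent tops: impossible, if `W` is in the closure of `(L J₀)(y₁, y₂)`;
-/

set_option autoImplicit false

open Polynomial Finset

namespace Pool.Agent.TWCT

open Pool.Agent.H15JM (RVal)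
open Pool.Agent.LU1 (VPos adj)
open Pool.Agent.D2 (Ctx0)
open Pool.Agent.D2P (hen clI mem_clI)
open Pool.Agent.TWM
open Pool.Agent.TWS
open Pool.Agent.TWII (PG LP)
open Pool.Agent.TWN1 (PC Col col Par)

universe u

variable {k Ω : Type u} [Field k] [Field Ω] [Algebra k Ω] {v : RVal Ω}
  {p : ℕ} [hp : Fact p.Prime] [CharP Ω p] {W F K : IntermediateField k Ω}
  {L : ℕ → IntermediateField k Ω}

/-- **A pair with independent tops over a quiet field.** -/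
theorem ConS.pair_false [IsAlgClosed Ω] (hk : Ctx0 k v) (hsp : SphC v)
    (hval : ∀ ρ : ℝ, ∃ x : Ω, x ≠ 0 ∧ v x = ρ) (hWF : W ≤ F)
    (hL : Monotone L) (hLF : ∀ J, L J ≤ F) (hd : F ≤ clI v (⨆ J, L J)) (h : ConS v L W F)
    {y₁ y₂ : Ω} {r₁ r₂ : ℝ} (hpar : Par v F K y₁ r₁ y₂ r₂) {ν : ℝ} {b₀ : Ω} (hb0 : b₀ ∈ F)
    {x y : ℕ → Ω} {S T : ℕ} (hx : Col p v F ν r₁ x) (hy : Col p v F ν r₂ y)
    (hlp : LP p v K ν (b₀ + col p x y₁ S + col p y y₂ T))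
    (hind : Ind p v F ν r₁ S r₂ T (x S) (y T)) {J₀ : ℕ}
    (hgen : W ≤ cadj v (cadj v (L J₀) y₁) y₂) : False := by
  classical
  obtain ⟨m, hm1, hm2, hms1, hms2⟩ : ∃ m : ℝ, v.Ge m y₁ ∧ v.Ge m y₂ ∧ m ≤ r₁ - 1 ∧ m ≤ r₂ - 1 :=
    ⟨min (min (v y₁) (v y₂)) (min (r₁ - 1) (r₂ - 1)),
      (RVal.ge_self _).mono ((min_le_left _ _).trans (min_le_left _ _)),
      (RVal.ge_self _).mono ((min_le_left _ _).trans (min_le_right _ _)),
      (min_le_right _ _).trans (min_le_left _ _), (min_le_right _ _).trans (min_le_right _ _)⟩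
  obtain ⟨P, hP, hPj⟩ := exists_prec p hp.out.one_lt ν m (max S T)
  obtain ⟨J₁, hJ₁⟩ := exists_level hL hd
    (insert b₀ ((range (S + 1)).image x ∪ (range (T + 1)).image y)) (fun z hz => by
      rcases mem_insert.1 hz with rfl | hz
      · exact hb0
      rcases mem_union.1 hz with hz | hz
      · obtain ⟨j, -, rfl⟩ := mem_image.1 hz
        exact hx.mem j
      · obtain ⟨j, -, rfl⟩ := mem_image.1 hz
        exact hy.mem j) P
  obtain ⟨Φ, η, hΦ, w, hwW, hne⟩ := h (max J₀ J₁)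
  have hlev := hJ₁ _ (le_max_right J₀ J₁) Φ hΦ.iso hΦ.fix
  have hid : IsoE v v (AlgHom.id k Ω) := ⟨fun a _ => rfl⟩
  obtain ⟨δ, hδ, h1⟩ := pair2_null (Ψ := AlgHom.id k Ω) hpar hΦ.iso (fun a ha => hΦ.mem ha)
    (fun a ha => ha) hΦ.pos hΦ.str (StrM.of_fix fun a _ => rfl) hb0 hx hy hlp hm1 hm2 hms1 hms2 hP
    hPj (hlev _ (mem_insert_self _ _))
    (fun j hj => hlev _ (mem_insert_of_mem (mem_union_left _ (mem_image_of_mem x hj))))
    (fun j hj => hlev _ (mem_insert_of_mem (mem_union_right _ (mem_image_of_mem y hj))))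
  have h2 : ∀ c₁ ∈ F, ∀ c₂ ∈ F, v.Ge (r₁ - δ) (y₁ - c₁) → v.Ge (r₂ - δ) (y₂ - c₂) →
      v.Ge r₁ (Φ c₁ - c₁) ∧ v.Ge r₂ (Φ c₂ - c₂) :=
    fun c₁ hc₁ c₂ hc₂ hyc₁ hyc₂ => pair_top (Ψ := AlgHom.id k Ω) hx hy hind hΦ.pos
      (StrM.of_fix fun a _ => rfl) (fun a ha => ha) (sub_mem (hΦ.mem hc₁) hc₁)
      (sub_mem (hΦ.mem hc₂) hc₂) (h1 c₁ hc₁ c₂ hc₂ hyc₁ hyc₂)
  obtain ⟨e₁, he₁, hye₁⟩ := hpar.t1.lim δ hδ
  obtain ⟨e₂, he₂, hye₂⟩ := hpar.t2.lim δ hδ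
  -- the first generator
  obtain ⟨Ψ, hΨ, hΨF, hΨ1⟩ := hid.exists_move_tl hk hsp hval hpar.t1
    (ζ := Φ y₁) fun ε hε => by
      obtain ⟨c, hc, hyc⟩ := hpar.t1.lim (min ε δ) (lt_min hε hδ)
      refine ⟨c, hc, hyc.mono (by linarith [min_le_left ε δ]), ?_⟩
      have h3 := (h2 c hc e₂ he₂ (hyc.mono (by linarith [min_le_right ε δ])) hye₂).1
      have e : Φ y₁ - AlgHom.id k Ω c = Φ (y₁ - c) + (Φ c - c) := by
        rw [map_sub, AlgHom.id_apply]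
        ring
      rw [e]
      exact ((hΦ.iso.ge_iff.2 hyc).mono (by linarith [min_le_left ε δ])).add
        (h3.mono (by linarith))
  -- the second generator
  obtain ⟨Θ, hΘ, hΘF, hΘ2⟩ := hΨ.exists_move_tl hk hsp hval hpar.t21 (ζ := Φ y₂) fun ε hε => by
      obtain ⟨c, hc, hyc⟩ := hpar.t2.lim (min ε δ) (lt_min hε hδ)
      refine ⟨c, le_cadj v F y₁ hc, hyc.mono (by linarith [min_le_left ε δ]), ?_⟩
      have h3 := (h2 e₁ he₁ c hc hye₁ (hyc.mono (by linarith [min_le_right ε δ]))).2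
      have e : Φ y₂ - Ψ c = Φ (y₂ - c) + (Φ c - c) := by
        rw [map_sub, hΨF c hc, AlgHom.id_apply]
        ring
      rw [e]
      exact ((hΦ.iso.ge_iff.2 hyc).mono (by linarith [min_le_left ε δ])).add
        (h3.mono (by linarith))
  -- they agree on `W`
  have h3 : ∀ a ∈ F, Θ a = a := fun a ha => by
    rw [hΘF a (le_cadj v F y₁ ha), hΨF a ha, AlgHom.id_apply]
  have h4 : ∀ a ∈ cadj v (cadj v (L J₀) y₁) y₂, Φ a = Θ a := by
    refine eq_on_cadj hΦ.iso hΘ (eq_on_cadj hΦ.iso hΘ (fun a ha => ?_) ?_) hΘ2.symm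
    · rw [h3 a (hLF _ ha)]
      exact hΦ.fix a (hL (le_max_left J₀ J₁) ha)
    · rw [hΘF y₁ (self_mem_cadj v F y₁), hΨ1]
  apply hne
  rw [h4 w (hgen hwW), h3 w (hWF hwW)]

end Pool.Agent.TWCT
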