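import Pool.Agent.Lib.TWCT.TamP
import Pool.Agent.Lib.TWC.BaseCh
import Pool.Agent.Lib.TWN1.GabF
import Pool.Agent.Lib.TWCT.Pair

/-!
# TANK W, contact (III.1): consequences of the tame projection

`K` closed, `F ≤ K` closed with the same roots; `tam F` is the closure of the field generated by `F`
and the roots of exponent prime to `p` of the powers of `x`.

* `TamS.pg`, `TamS.lp`, `TamS.lim`, `TamS.lim_sub`: the limits of elements of `K` over `tam F` and `F`;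
* `tl_tam`, `TamS.tl`, `tam_cadj`: floors over `F` and over `tam F`;
* `TamS.unh`: an element of `K` which is unhit over `tam F` is unhit over `F`;
* `TamB.ind`: tops which are independent over `K` are independent over `tam K`.
-/

set_option autoImplicit false

open Polynomial

namespace Pool.Agent.TWTam

open Pool.Agent.H15JM (RVal)
open Pool.Agent.LU1 (VPos adj)
open Pool.Agent.LUC (Cl clF)
open Pool.Agent.D2 (Ctx0)
open Pool.Agent.D2P
open Pool.Agent.TWM (Cld CompleteV Gt TL cadj Lim Nr' PI algc mem_algc)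
open Pool.Agent.TWII (PG LP)
open Pool.Agent.TWN1 (Unh)
open Pool.Agent.TWCT (Ind)

universe u

variable {k Ω : Type u} [Field k] [Field Ω] [Algebra k Ω] {v : RVal Ω}

variable {p : ℕ} {x : Ω} {K F C : IntermediateField k Ω}

theorem TamS.tamB (hK : TamB p v x K) (hF : TamS p v x K F) : TamB p v x F :=
  ⟨hK.comp, hK.pr, hK.ne, hF.cld, hF.mem, fun t ht ⟨g, hg, h1⟩ =>
    hF.root t ht (hK.root t ht ⟨g, hF.le hg, h1⟩)⟩

/-- A relatively algebraically closed subfield has the same roots. -/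
theorem tamS_of_alg (hFK : F ≤ K) (hc : Cld v F) (hx : x ∈ F)
    (hrel : ∀ a ∈ K, IsAlgebraic F a → a ∈ F) : TamS p v x K F where
  le := hFK
  cld := hc
  mem := hx
  root := fun t ht htK => by
    refine hrel t htK ?_
    obtain ⟨ht0, n, hn, m, h1⟩ := ht
    have hn0 : n ≠ 0 := by
      rintro rfl
      exact hn (dvd_zero p)
    refine isAlgebraic_of_pow (Nat.pos_of_ne_zero hn0) ?_
    rw [h1]
    exact isAlgebraic_of_mem (zpow_mem hx m)

theorem tr_le_tam (B : IntermediateField k Ω) : IntermediateField.adjoin k (TR p x) ≤ tam p v x B :=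
  fun b hb => mem_clI.2 (LUC.Cl.subset (show b ∈ B ⊔ IntermediateField.adjoin k (TR p x) from
    (le_sup_right : _ ≤ B ⊔ _) hb))

theorem tr_mem_tam {B : IntermediateField k Ω} {t : Ω} (ht : t ∈ TR p x) : t ∈ tam p v x B :=
  tr_le_tam B (IntermediateField.subset_adjoin k _ ht)

theorem TamS.tam_le (hF : TamS p v x K F) : tam p v x F ≤ tam p v x K := tam_mono hF.le

theorem cld_tam (B : IntermediateField k Ω) : Cld v (tam p v x B) := TWM.cld_clI v _

/-! ## Limits -/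

section Lim

variable [Fact p.Prime] [CharP Ω p]

theorem TamS.pg_pr (hK : TamB p v x K) (hF : TamS p v x K F) {c : ℝ} {w : Ω}
    (hw : w ∈ tam p v x K) (h : PG p v (tam p v x F) c w) : PG p v F c (prT p v x K w) := by
  obtain ⟨g, hg, h1⟩ := h
  have hg' := hF.tam_le hg
  refine ⟨prT p v x K g, (hF.prT_mem hK hg).1, ?_⟩
  have h2 := hK.prT_gt (sub_mem hw (pow_mem hg' p)) h1
  rwa [hK.prT_sub hw (pow_mem hg' p), hK.prT_pow hg'] at h2

theorem TamS.pg (hK : TamB p v x K) (hF : TamS p v x K F) {c : ℝ} {w : Ω} (hw : w ∈ K)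
    (h : PG p v (tam p v x F) c w) : PG p v F c w := by
  have h1 := hF.pg_pr hK (le_tam K hw) h
  rwa [hK.prT_self hw] at h1

theorem TamS.lp_pr (hK : TamB p v x K) (hF : TamS p v x K F) {c : ℝ} {w : Ω}
    (hw : w ∈ tam p v x K) (h : LP p v (tam p v x F) c w) : LP p v F c (prT p v x K w) := by
  intro ε hε
  obtain ⟨g, hg, h1⟩ := h ε hε
  have hg' := hF.tam_le hg
  refine ⟨prT p v x K g, (hF.prT_mem hK hg).1, ?_⟩
  have h2 := hK.prT_ge (sub_mem hw (pow_mem hg' p)) h1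
  rwa [hK.prT_sub hw (pow_mem hg' p), hK.prT_pow hg'] at h2

theorem TamS.lp (hK : TamB p v x K) (hF : TamS p v x K F) {c : ℝ} {w : Ω} (hw : w ∈ K)
    (h : LP p v (tam p v x F) c w) : LP p v F c w := by
  have h1 := hF.lp_pr hK (le_tam K hw) h
  rwa [hK.prT_self hw] at h1

end Lim

theorem TamS.lim_pr (hK : TamB p v x K) (hF : TamS p v x K F) {c : ℝ} {w : Ω}
    (hw : w ∈ tam p v x K) (h : Lim v (tam p v x F) c w) : Lim v F c (prT p v x K w) := by
  intro ε hε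
  obtain ⟨g, hg, h1⟩ := h ε hε
  refine ⟨prT p v x K g, (hF.prT_mem hK hg).1, ?_⟩
  have h2 := hK.prT_ge (sub_mem hw (hF.tam_le hg)) h1
  rwa [hK.prT_sub hw (hF.tam_le hg)] at h2

theorem TamS.lim (hK : TamB p v x K) (hF : TamS p v x K F) {c : ℝ} {w : Ω} (hw : w ∈ K)
    (h : Lim v (tam p v x F) c w) : Lim v F c w := by
  have h1 := hF.lim_pr hK (le_tam K hw) h
  rwa [hK.prT_self hw] at h1

theorem TamS.nr'_pr (hK : TamB p v x K) (hF : TamS p v x K F) {c : ℝ} {w : Ω}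
    (hw : w ∈ tam p v x K) (h : Nr' v (tam p v x F) c w) : Nr' v F c (prT p v x K w) := by
  obtain ⟨g, hg, h1⟩ := h
  refine ⟨prT p v x K g, (hF.prT_mem hK hg).1, ?_⟩
  have h2 := hK.prT_gt (sub_mem hw (hF.tam_le hg)) h1
  rwa [hK.prT_sub hw (hF.tam_le hg)] at h2

/-- `z - φ` is a limit of `tam C`, `φ ∈ tam F`: `z - pr φ` is a limit of `C`. -/
theorem TamS.lim_sub (hK : TamB p v x K) (hF : TamS p v x K F) (hC : TamS p v x K C) {c : ℝ}
    {z φ : Ω} (hz : z ∈ K) (hφ : φ ∈ tam p v x F) (h : Lim v (tam p v x C) c (z - φ)) :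
    prT p v x K φ ∈ F ∧ Lim v C c (z - prT p v x K φ) := by
  have hφ' := hF.tam_le hφ
  refine ⟨(hF.prT_mem hK hφ).1, ?_⟩
  have h1 := hC.lim_pr hK (sub_mem (le_tam K hz) hφ') h
  rwa [hK.prT_sub (le_tam K hz) hφ', hK.prT_self hz] at h1

/-! ## Floors -/

theorem tam_le_cl (hxF : x ∈ F) : tam p v x F ≤ clI v (algc F) := by
  refine TWM.clI_mono (sup_le (TWM.le_algc F) (IntermediateField.adjoin_le_iff.2 ?_))
  rintro t ⟨ht0, n, hn, m, h1⟩
  rw [SetLike.mem_coe, mem_algc]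
  have hn0 : n ≠ 0 := by
    rintro rfl
    exact hn (dvd_zero p)
  refine isAlgebraic_of_pow (Nat.pos_of_ne_zero hn0) ?_
  rw [h1]
  exact isAlgebraic_of_mem (zpow_mem hxF m)

theorem tl_tam [IsAlgClosed Ω] (hxF : x ∈ F) {z : Ω} {s : ℝ} (hz : TL v F z s) :
    TL v (tam p v x F) z s :=
  TWC.TL.base hz (le_tam F) (tam_le_cl hxF)

theorem TamS.tl (hK : TamB p v x K) (hF : TamS p v x K F) {z : Ω} {s : ℝ} (hz : z ∈ K)
    (h : TL v (tam p v x F) z s) : TL v F z s where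
  lim := hF.lim hK hz h.lim
  far := fun θ hθ => h.far θ (isAlgebraic_mono (le_tam F) hθ)

theorem tam_cadj (z : Ω) : tam p v x (cadj v F z) = cadj v (tam p v x F) z := by
  refine le_antisymm ?_ ?_
  · refine (TWM.clI_mono (F := cadj v (tam p v x F) z) (sup_le ?_ ?_)).trans (TWM.cld_clI v _)
    · exact TWM.clI_mono (adj_le ((le_tam F).trans (mem_adj_self _ z).2) (mem_adj_self _ z).1)
    · exact (tr_le_tam F).trans (TWM.le_cadj v _ _)
  · refine (TWM.clI_mono (F := tam p v x (cadj v F z)) (adj_le ?_ ?_)).trans (TWM.cld_clI v _)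
    · exact tam_mono (TWM.le_cadj v _ _)
    · exact le_tam _ (TWM.self_mem_cadj v F z)

/-! ## Unhit elements -/

theorem TamB.prT_sum (hK : TamB p v x K) {ι : Type*} (s : Finset ι) (g : ι → Ω)
    (hg : ∀ i ∈ s, g i ∈ tam p v x K) :
    prT p v x K (∑ i ∈ s, g i) = ∑ i ∈ s, prT p v x K (g i) := by
  classical
  induction s using Finset.induction_on with
  | empty =>
    rw [Finset.sum_empty, Finset.sum_empty]
    exact hK.prT_self (zero_mem K)
  | insert a s ha ih =>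
    rw [Finset.sum_insert ha, Finset.sum_insert ha, hK.prT_add (hg a (Finset.mem_insert_self a s))
      (sum_mem fun i hi => hg i (Finset.mem_insert_of_mem hi)),
      ih fun i hi => hg i (Finset.mem_insert_of_mem hi)]

/-- The Taylor coefficients are linear. -/
theorem taylor_coeff_sum (z : Ω) (a : ℕ → Ω) (n l : ℕ) :
    (taylor z (∑ i ∈ Finset.range n, Polynomial.C (a i) * X ^ i)).coeff l =
      ∑ i ∈ Finset.range n, a i * (taylor z (X ^ i)).coeff l := by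
  rw [map_sum, finsetSum_coeff]
  refine Finset.sum_congr rfl fun i _ => ?_
  rw [taylor_mul, taylor_C, coeff_C_mul]

theorem TamS.unh [Fact p.Prime] [CharP Ω p] (hK : TamB p v x K) (hF : TamS p v x K F) {z a : Ω}
    {s ν : ℝ} (hz : z ∈ K) (ha : a ∈ K)
    (h : Unh p v (tam p v x F) (tam p v x K) z s ν a) : Unh p v F K z s ν a := by
  obtain ⟨f, hf, h1, h2⟩ := h
  set n := f.natDegree + 1 with hn
  have hfe : f = ∑ i ∈ Finset.range n, Polynomial.C (f.coeff i) * X ^ i := by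
    conv_lhs => rw [f.as_sum_range_C_mul_X_pow]
  set g : Polynomial Ω := ∑ i ∈ Finset.range n, Polynomial.C (prT p v x K (f.coeff i)) * X ^ i
    with hg
  have hXK : ∀ i l : ℕ, (taylor z (X ^ i : Polynomial Ω)).coeff l ∈ K := by
    intro i l
    refine TWM.taylor_mem_PI (A := K) (f := X ^ i) (fun j => ?_) hz l
    rw [coeff_X_pow]
    split_ifs
    exacts [one_mem _, zero_mem _]
  have hco : ∀ l : ℕ, prT p v x K ((taylor z f).coeff l) = (taylor z g).coeff l := by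
    intro l
    conv_lhs => rw [hfe]
    rw [hg, taylor_coeff_sum, taylor_coeff_sum, hK.prT_sum _ _ fun i _ =>
      mul_mem (hF.tam_le (hf i)) (le_tam K (hXK i l))]
    refine Finset.sum_congr rfl fun i _ => ?_
    rw [mul_comm, hK.prT_mul (hXK i l) (hF.tam_le (hf i)), mul_comm]
  have hmem : ∀ l : ℕ, (taylor z f).coeff l ∈ tam p v x K := by
    intro l
    rw [hfe, taylor_coeff_sum]
    exact sum_mem fun i _ => mul_mem (hF.tam_le (hf i)) (le_tam K (hXK i l))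
  have hev : ∀ q : Polynomial Ω, q.eval z = (taylor z q).coeff 0 := by
    intro q
    rw [taylor_coeff_zero]
  refine ⟨g, ?_, ?_, fun l hl hl0 => ?_⟩
  · rw [hg]
    refine sum_mem fun i _ => ?_
    intro j
    rw [coeff_C_mul, coeff_X_pow]
    refine mul_mem (hF.prT_mem hK (hf i)).1 ?_
    split_ifs
    exacts [one_mem _, zero_mem _]
  · have h3 := hK.self.pg_pr hK (sub_mem (le_tam K ha) (by rw [hev]; exact hmem 0)) h1
    rw [hK.prT_sub (le_tam K ha) (by rw [hev]; exact hmem 0), hK.prT_self ha, hev, hco 0,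
      ← hev] at h3
    exact h3
  · have h3 := hK.self.pg_pr hK (hmem l) (h2 l hl hl0)
    rwa [hco l] at h3

/-! ## Independence -/

/-- The exponents prime to `p`. -/
theorem TamB.exists_root (hK : TamB p v x K) {t : Ω} (ht : t ∈ TR p x) (j : ℕ) :
    ∃ u ∈ TR p x, ∃ c ∈ K, c ≠ 0 ∧ u ^ p ^ j = t * c := by
  obtain ⟨ht0, n, hn, m, h1⟩ := ht
  have hco : Nat.Coprime (p ^ j) n := Nat.Coprime.pow_left j
    ((Nat.Prime.coprime_iff_not_dvd hK.pr).2 hn)
  have h3 := Nat.gcd_eq_gcd_ab (p ^ j) n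
  rw [hco.gcd_eq_one] at h3
  set α := (p ^ j).gcdA n with hα
  set β := (p ^ j).gcdB n with hβ
  have htα : t ^ α ∈ TR p x := by
    refine ⟨zpow_ne_zero _ ht0, n, hn, m * α, ?_⟩
    rw [← zpow_natCast, ← zpow_mul, mul_comm α, zpow_mul, zpow_natCast, h1, ← zpow_mul]
  refine ⟨t ^ α, htα, (x ^ m) ^ (-β), zpow_mem (zpow_mem hK.mem m) _,
    zpow_ne_zero _ (zpow_ne_zero _ hK.ne), ?_⟩
  have h4 : (t ^ α) ^ p ^ j = t ^ (α * (p ^ j : ℕ)) := by
    rw [zpow_mul, zpow_natCast]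
  have h5 : α * ((p ^ j : ℕ) : ℤ) = 1 + (n : ℤ) * (-β) := by
    have h6 : (1 : ℤ) = ((p ^ j : ℕ) : ℤ) * α + (n : ℤ) * β := by exact_mod_cast h3
    linarith
  rw [h4, h5, zpow_add₀ ht0, zpow_one, zpow_mul, zpow_natCast, h1]

/-- The components determine the value. -/
theorem TamB.gt_of_comp (hK : TamB p v x K) {c : Ω} (hc : c ∈ tam p v x K) {r : ℝ}
    (h : ∀ t ∈ TR p x, Gt v r (t * prT p v x K (t⁻¹ * c))) : Gt v r c := by
  classical
  intro hc0
  by_contra hle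
  rw [not_lt] at hle
  obtain ⟨c₀, h1, h2⟩ := (mem_clI.1 hc) (v c + 1)
  have h2' : v.Ge (v c + 1) (c - c₀) := h2
  obtain ⟨a, ha, h3⟩ := exists_dec (v := v) hK.pr hK.ne hK.mem hK.root h1
  obtain ⟨s, f, hs1, hs2, hf, h4⟩ := exists_rep hK.pr hK.ne hK.root h3
  have h1s : (1 : Ω) ∉ s := fun h0 => (hs1 1 h0).2 (InV.of_mem one_ne_zero (one_mem _))
  have hne' : ∀ w ∈ s, w ≠ (1 : Ω) := fun w hw h0 => h1s (by rw [← h0]; exact hw)
  set g := Function.update f 1 a with hg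
  have hsum : c₀ = ∑ t ∈ insert 1 s, g t * t := by
    rw [Finset.sum_insert h1s, hg, Function.update_self, mul_one]
    have e : ∑ t ∈ s, Function.update f 1 a t * t = ∑ t ∈ s, f t * t := by
      refine Finset.sum_congr rfl fun w hw => ?_
      rw [Function.update_of_ne (hne' w hw)]
    rw [e, ← h4]
    ring
  have hgK : ∀ t ∈ insert 1 s, g t ∈ K := by
    intro t ht
    rcases Finset.mem_insert.1 ht with rfl | ht
    · rw [hg, Function.update_self]
      exact ha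
    · rw [hg, Function.update_of_ne (hne' t ht)]
      exact hf t ht
  have htr : ∀ t ∈ insert 1 s, t ∈ TR p x := by
    intro t ht
    rcases Finset.mem_insert.1 ht with rfl | ht
    · exact one_mem_tr hK.pr
    · exact (hs1 t ht).1
  have hcls : ∀ t ∈ insert 1 s, ∀ t' ∈ insert 1 s, t ≠ t' → ¬ InV v K (t / t') := by
    intro t ht t' ht' hne
    rcases Finset.mem_insert.1 ht with h5 | h5
    · rcases Finset.mem_insert.1 ht' with h6 | h6
      · exact absurd (h5.trans h6.symm) hne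
      · rw [h5]
        intro h7
        refine (hs1 t' h6).2 ?_
        rw [one_div] at h7
        have h8 := h7.inv (inv_ne_zero (hs1 t' h6).1.1)
        rwa [inv_inv] at h8
    · rcases Finset.mem_insert.1 ht' with h6 | h6
      · rw [h6, div_one]
        exact (hs1 t h5).2
      · exact hs2 t h5 t' h6 hne
  -- the components
  have hcomp : ∀ t ∈ insert 1 s, v.Ge (v c + 1) (t * prT p v x K (t⁻¹ * c) - g t * t) := by
    intro t ht
    have ht0 := (htr t ht).1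
    have hti : t⁻¹ ∈ tam p v x K := inv_mem (tr_mem_tam (htr t ht))
    have h5 : prT p v x K (t⁻¹ * c₀) = g t := by
      refine hK.prT_eq (hgK t ht) (TPC.of_ps ?_)
      rw [hsum, ← Finset.add_sum_erase _ _ ht, mul_add]
      have e : t⁻¹ * (g t * t) + t⁻¹ * ∑ w ∈ (insert 1 s).erase t, g w * w - g t =
          ∑ w ∈ (insert 1 s).erase t, g w * (w / t) := by
        have e1 : t⁻¹ * (g t * t) = g t := by field_simp
        rw [e1, add_sub_cancel_left, Finset.mul_sum]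
        refine Finset.sum_congr rfl fun w _ => ?_
        rw [div_eq_mul_inv]
        ring
      rw [e]
      refine sum_mem fun w hw => ?_
      have hw' := Finset.mem_of_mem_erase hw
      exact TPS.mem_mul (hgK w hw') (TR.div hK.pr hK.ne (htr w hw') (htr t ht))
        (hcls w hw' t ht (Finset.ne_of_mem_erase hw))
    have h6 : t * prT p v x K (t⁻¹ * c) - g t * t = t * prT p v x K (t⁻¹ * (c - c₀)) := by
      rw [mul_sub, hK.prT_sub (mul_mem hti hc) (mul_mem hti (mem_clI.2 (LUC.Cl.subset h1))), h5]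
      ring
    rw [h6]
    have h7 : v.Ge (-v t + (v c + 1)) (t⁻¹ * (c - c₀)) := by
      refine RVal.Ge.mul ?_ h2'
      intro _
      rw [v.map_inv ht0]
    have h8 := hK.prT_ge (mul_mem hti (sub_mem hc (mem_clI.2 (LUC.Cl.subset h1)))) h7
    exact ((RVal.ge_self (v := v) t).mul h8).mono (by linarith)
  -- all terms are bigger
  have hall : Gt v (v c) c₀ := by
    rw [hsum]
    refine Gt.sum _ _ fun t ht => ?_
    have e : g t * t = t * prT p v x K (t⁻¹ * c) - (t * prT p v x K (t⁻¹ * c) - g t * t) := by ring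
    rw [e]
    exact ((h t (htr t ht)).mono hle).sub (Gt.of_ge (hcomp t ht) (by linarith))
  have h9 : Gt v (v c) ((c - c₀) + c₀) := (Gt.of_ge h2' (by linarith)).add hall
  rw [sub_add_cancel] at h9
  exact lt_irrefl _ (h9 hc0)


theorem TamB.prT_ppow [Fact p.Prime] [CharP Ω p] (hK : TamB p v x K) {g : Ω}
    (hg : g ∈ tam p v x K) (j : ℕ) : prT p v x K (g ^ p ^ j) = prT p v x K g ^ p ^ j := by
  induction j with
  | zero => rw [pow_zero, pow_one, pow_one]
  | succ j ih => rw [pow_succ, pow_mul, hK.prT_pow (pow_mem hg _), ih, ← pow_mul, ← pow_succ]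

theorem TamB.ind_aux [hp : Fact p.Prime] [CharP Ω p] (hK : TamB p v x K) {ν r₁ : ℝ} {S T : ℕ}
    {a b : Ω} (ha : a ∈ K) (hb : b ∈ K)
    (h : ∀ c₁ ∈ K, ∀ c₂ ∈ K, ∀ t : ℝ, PG p v K t (a * c₁ ^ p ^ S + b * c₂ ^ p ^ T) →
      Gt v (t - ν + p ^ S * r₁) (c₁ ^ p ^ S)) {c₁ c₂ : Ω} (hc₁ : c₁ ∈ tam p v x K)
    (hc₂ : c₂ ∈ tam p v x K) {t : ℝ}
    (hpg : PG p v (tam p v x K) t (a * c₁ ^ p ^ S + b * c₂ ^ p ^ T)) :
    Gt v (t - ν + p ^ S * r₁) (c₁ ^ p ^ S) := by
  have hpS : (0 : ℝ) < (p : ℝ) ^ S := by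
    have : (0 : ℝ) < p := by exact_mod_cast hp.out.pos
    positivity
  have key : Gt v ((t - ν + p ^ S * r₁) / p ^ S) c₁ := by
    refine hK.gt_of_comp hc₁ fun τ hτ => ?_
    obtain ⟨M, hM⟩ : ∃ M : ℕ, M = max S T + 1 := ⟨_, rfl⟩
    obtain ⟨i, hi⟩ : ∃ i : ℕ, M = S + i := ⟨M - S, by omega⟩
    obtain ⟨i', hi'⟩ : ∃ i' : ℕ, M = T + i' := ⟨M - T, by omega⟩
    obtain ⟨M', hM'⟩ : ∃ M' : ℕ, M = M' + 1 := ⟨M - 1, by omega⟩
    obtain ⟨u, hu, e, he, he0, h1⟩ := hK.exists_root hτ i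
    have hu0 := hu.1
    have hut : ∀ j : ℕ, (u ^ p ^ j)⁻¹ ∈ tam p v x K := fun j =>
      inv_mem (pow_mem (tr_mem_tam hu) _)
    set y₁ := prT p v x K ((u ^ p ^ i)⁻¹ * c₁) with hy₁
    set y₂ := prT p v x K ((u ^ p ^ i')⁻¹ * c₂) with hy₂
    have hm₁ : (u ^ p ^ i)⁻¹ * c₁ ∈ tam p v x K := mul_mem (hut i) hc₁
    have hm₂ : (u ^ p ^ i')⁻¹ * c₂ ∈ tam p v x K := mul_mem (hut i') hc₂
    have hX : prT p v x K ((u ^ p ^ M)⁻¹ * (a * c₁ ^ p ^ S + b * c₂ ^ p ^ T)) =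
        a * y₁ ^ p ^ S + b * y₂ ^ p ^ T := by
      have e1 : (u ^ p ^ M)⁻¹ * (a * c₁ ^ p ^ S + b * c₂ ^ p ^ T) =
          a * ((u ^ p ^ i)⁻¹ * c₁) ^ p ^ S + b * ((u ^ p ^ i')⁻¹ * c₂) ^ p ^ T := by
        have e2 : (u ^ p ^ M)⁻¹ = ((u ^ p ^ i)⁻¹) ^ p ^ S := by
          rw [inv_pow, ← pow_mul, ← pow_add, hi, add_comm S i]
        have e3 : (u ^ p ^ M)⁻¹ = ((u ^ p ^ i')⁻¹) ^ p ^ T := by
          rw [inv_pow, ← pow_mul, ← pow_add, hi', add_comm T i']
        rw [mul_add, mul_pow, mul_pow]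
        nth_rw 1 [e2]
        rw [e3]
        ring
      rw [e1, hK.prT_add (mul_mem (le_tam K ha) (pow_mem hm₁ _))
        (mul_mem (le_tam K hb) (pow_mem hm₂ _)), hK.prT_mul ha (pow_mem hm₁ _),
        hK.prT_mul hb (pow_mem hm₂ _), hK.prT_ppow hm₁, hK.prT_ppow hm₂]
    have hpg' : PG p v (tam p v x K) (-(p ^ M * v u) + t)
        ((u ^ p ^ M)⁻¹ * (a * c₁ ^ p ^ S + b * c₂ ^ p ^ T)) := by
      obtain ⟨g, hg, h2⟩ := hpg
      refine ⟨(u ^ p ^ M')⁻¹ * g, mul_mem (hut M') hg, ?_⟩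
      have e1 : (u ^ p ^ M)⁻¹ * (a * c₁ ^ p ^ S + b * c₂ ^ p ^ T) - ((u ^ p ^ M')⁻¹ * g) ^ p =
          (a * c₁ ^ p ^ S + b * c₂ ^ p ^ T - g ^ p) * (u ^ p ^ M)⁻¹ := by
        rw [mul_pow, inv_pow, ← pow_mul, ← pow_succ, ← hM']
        ring
      rw [e1, add_comm]
      refine h2.mul_ge ?_
      intro _
      rw [v.map_inv (pow_ne_zero _ hu0), v.map_pow hu0]
      push_cast
      exact le_rfl
    have h3 := hK.self.pg_pr hK (mul_mem (hut M) (add_mem (mul_mem (le_tam K ha) (pow_mem hc₁ _))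
      (mul_mem (le_tam K hb) (pow_mem hc₂ _)))) hpg'
    rw [hX] at h3
    have h4 := h y₁ (hK.spec hm₁).1 y₂ (hK.spec hm₂).1 _ h3
    -- the component
    have h5 : τ * prT p v x K (τ⁻¹ * c₁) = u ^ p ^ i * y₁ := by
      have h6 : (u ^ p ^ i)⁻¹ * c₁ = e⁻¹ * (τ⁻¹ * c₁) := by
        rw [h1, mul_inv]
        ring
      rw [hy₁, h6, hK.prT_mul (inv_mem he) (mul_mem (inv_mem (tr_mem_tam hτ)) hc₁), h1]
      field_simp
    rw [h5]
    intro h7
    have hy0 : y₁ ≠ 0 := right_ne_zero_of_mul h7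
    have h8 := h4 (pow_ne_zero _ hy0)
    rw [v.map_pow hy0] at h8
    rw [v.map_mul (pow_ne_zero _ hu0) hy0, v.map_pow hu0, div_lt_iff₀ hpS]
    push_cast at h8 ⊢
    have h9 : (p : ℝ) ^ M = p ^ S * p ^ i := by rw [hi, pow_add]
    rw [h9] at h8
    nlinarith
  intro h0
  have hc0 : c₁ ≠ 0 := fun h1 => h0 (by rw [h1, zero_pow (pow_ne_zero _ hp.out.pos.ne')])
  have h1 := key hc0
  rw [div_lt_iff₀ hpS] at h1
  rw [v.map_pow hc0]
  push_cast
  linarith

/-- **Tops which are independent over `K` are independent over `tam K`.** -/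
theorem TamB.ind [hp : Fact p.Prime] [CharP Ω p] (hK : TamB p v x K) {ν r₁ r₂ : ℝ} {S T : ℕ}
    {a b : Ω} (ha : a ∈ K) (hb : b ∈ K) (h : Ind p v K ν r₁ S r₂ T a b) :
    Ind p v (tam p v x K) ν r₁ S r₂ T a b := by
  intro c₁ hc₁ c₂ hc₂ t hpg
  have hsymm : ∀ c ∈ K, ∀ c' ∈ K, ∀ t : ℝ, PG p v K t (b * c ^ p ^ T + a * c' ^ p ^ S) →
      Gt v (t - ν + p ^ T * r₂) (c ^ p ^ T) := fun c hc c' hc' t h1 =>
    (h c' hc' c hc t (by rwa [add_comm])).2
  exact ⟨hK.ind_aux ha hb (fun c hc c' hc' t h1 => (h c hc c' hc' t h1).1) hc₁ hc₂ hpg,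
    hK.ind_aux hb ha hsymm hc₂ hc₁ (by rwa [add_comm])⟩

end Pool.Agent.TWTam
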