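import Pool.Agent.Lib.TWCT.Exit
import Pool.Agent.Lib.TWCT.TamQ

/-!
# TANK W, contact (III.1): transfer to the big field

`ι : Ω →ₐ[k] H` is isometric. `PG`, `LP`, `Unh`, the roots and the tame closures of the subfields of
`Ω` and of their images.
-/

set_option autoImplicit false

open Polynomial

namespace Pool.Agent.TWCT

open Pool.Agent.H15JM (RVal)
open Pool.Agent.LU1 (VPos adj)
open Pool.Agent.D2 (Ctx0)
open Pool.Agent.D2P (hen clI mem_clI)
open Pool.Agent.TWM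
open Pool.Agent.TWS (IsoE)
open Pool.Agent.TWM.Dense (inj)
open Pool.Agent.TWII (PG LP)
open Pool.Agent.TWN1 (Unh)
open Pool.Agent.TWTam

universe u

variable {k Ω H : Type u} [Field k] [Field Ω] [Algebra k Ω] [Field H] [Algebra k H]
  {v : RVal Ω} {w : RVal H} {ι : Ω →ₐ[k] H} {A B E K : IntermediateField k Ω} {p : ℕ}

theorem pg_iff' (h : IsoE v w ι) {c : ℝ} {a : Ω} :
    PG p w (A.map ι) c (ι a) ↔ PG p v A c a := by
  constructor
  · rintro ⟨_, ⟨g, hg, rfl⟩, h1⟩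
    refine ⟨g, hg, ?_⟩
    have h2 : Gt w c (ι (a - g ^ p)) := by
      rw [map_sub, map_pow]
      exact h1
    exact h.gt_iff.1 h2
  · rintro ⟨g, hg, h1⟩
    refine ⟨ι g, ⟨g, hg, rfl⟩, ?_⟩
    rw [← map_pow, ← map_sub]
    exact h.gt_iff.2 h1

theorem lp_iff' (h : IsoE v w ι) {c : ℝ} {a : Ω} :
    LP p w (A.map ι) c (ι a) ↔ LP p v A c a := by
  constructor
  · intro h1 ε hε
    obtain ⟨_, ⟨g, hg, rfl⟩, h2⟩ := h1 ε hε
    refine ⟨g, hg, ?_⟩
    have h3 : w.Ge (c - ε) (ι (a - g ^ p)) := by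
      rw [map_sub, map_pow]
      exact h2
    exact h.ge_iff.1 h3
  · intro h1 ε hε
    obtain ⟨g, hg, h2⟩ := h1 ε hε
    refine ⟨ι g, ⟨g, hg, rfl⟩, ?_⟩
    rw [← map_pow, ← map_sub]
    exact h.ge_iff.2 h2

theorem map_mem_PI {f : Polynomial Ω} (hf : f ∈ PI A) : f.map ι.toRingHom ∈ PI (A.map ι) := by
  intro i
  rw [coeff_map]
  exact ⟨f.coeff i, hf i, rfl⟩

theorem exists_of_PI {f : Polynomial H} (hf : f ∈ PI (A.map ι)) :
    ∃ g ∈ PI A, g.map ι.toRingHom = f := by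
  have h1 : ∀ i, ∃ a ∈ A, ι a = f.coeff i := fun i => hf i
  choose a ha h2 using h1
  refine ⟨∑ i ∈ Finset.range (f.natDegree + 1), Polynomial.C (a i) * X ^ i,
    sum_mem fun i _ => mul_mem (C_mem_PI (ha i)) (pow_mem X_mem_PI i), ?_⟩
  conv_rhs => rw [f.as_sum_range_C_mul_X_pow]
  rw [Polynomial.map_sum]
  refine Finset.sum_congr rfl fun i _ => ?_
  rw [Polynomial.map_mul, Polynomial.map_pow, map_X, map_C]
  congr 2
  exact h2 i

theorem eval_map_ι (f : Polynomial Ω) (z : Ω) :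
    (f.map ι.toRingHom).eval (ι z) = ι (f.eval z) := by
  have h1 := Polynomial.eval₂_hom (p := f) ι.toRingHom z
  rw [eval_map]
  exact h1

theorem taylor_map_ι (f : Polynomial Ω) (z : Ω) :
    taylor (ι z) (f.map ι.toRingHom) = (taylor z f).map ι.toRingHom := by
  rw [taylor_apply, taylor_apply, Polynomial.map_comp, Polynomial.map_add, map_X, map_C]
  rfl

theorem unh_iff' (h : IsoE v w ι) {z a : Ω} {s ν : ℝ} :
    Unh p w (E.map ι) (K.map ι) (ι z) s ν (ι a) ↔ Unh p v E K z s ν a := by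
  constructor
  · rintro ⟨f, hf, h1, h2⟩
    obtain ⟨g, hg, rfl⟩ := exists_of_PI hf
    refine ⟨g, hg, ?_, fun l hl hl0 => ?_⟩
    · rw [eval_map_ι, ← map_sub] at h1
      exact (pg_iff' h).1 h1
    · have h3 := h2 l hl hl0
      rw [taylor_map_ι, coeff_map] at h3
      exact (pg_iff' h).1 h3
  · rintro ⟨f, hf, h1, h2⟩
    refine ⟨f.map ι.toRingHom, map_mem_PI hf, ?_, fun l hl hl0 => ?_⟩
    · rw [eval_map_ι, ← map_sub]
      exact (pg_iff' h).2 h1
    · rw [taylor_map_ι, coeff_map]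
      exact (pg_iff' h).2 (h2 l hl hl0)

/-- The roots. -/
theorem tr_map [IsAlgClosed Ω] {x : Ω} : TR p (ι x) = ι '' TR p x := by
  ext t
  constructor
  · rintro ⟨ht0, n, hn, m, h1⟩
    have hn0 : 0 < n := Nat.pos_of_ne_zero fun h0 => hn (h0 ▸ dvd_zero p)
    have h2 : IsAlgebraic Ω (algebraMap Ω Ω (x ^ m)) := isAlgebraic_algebraMap _
    -- `t` is a root of `X ^ n - ι (x ^ m)`
    obtain ⟨y, hy⟩ := IsAlgClosed.exists_pow_nat_eq (x ^ m) hn0
    by_cases hy0 : y = 0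
    · exfalso
      rw [hy0, zero_pow hn0.ne'] at hy
      have h3 : t ^ n = 0 := by
        rw [h1, ← map_zpow₀, ← hy, map_zero]
      exact ht0 ((pow_eq_zero_iff hn0.ne').1 h3)
    have hιy : ι y ≠ 0 := fun h0 => hy0 (inj ι (by rw [h0, map_zero]))
    have h3 : (t / ι y) ^ n = 1 := by
      rw [div_pow, h1, ← map_zpow₀, ← map_pow, hy, div_self]
      intro h0
      refine ht0 ((pow_eq_zero_iff hn0.ne').1 ?_)
      rw [h1, ← map_zpow₀, h0]
    -- a root of unity is in the image of `Ω`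
    have h4 : ∃ ζ : Ω, ι ζ = t / ι y := by
      have h5 : Splits ((X : Polynomial Ω) ^ n - 1) := IsAlgClosed.splits _
      have h6 : (((X : Polynomial Ω) ^ n - 1).map ι.toRingHom).IsRoot (t / ι y) := by
        rw [Polynomial.map_sub, Polynomial.map_pow, map_X, Polynomial.map_one, IsRoot, eval_sub,
          eval_pow, eval_X, eval_one, h3, sub_self]
      have h7 : ((X : Polynomial Ω) ^ n - 1) ≠ 0 := (X_pow_sub_C_ne_zero hn0 1)
      have h8 := h5.roots_map ι.toRingHom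
      have h9 : t / ι y ∈ (((X : Polynomial Ω) ^ n - 1).map ι.toRingHom).roots :=
        (mem_roots (by
          rw [Ne, Polynomial.map_eq_zero]
          exact h7)).2 h6
      rw [h8] at h9
      obtain ⟨ζ, -, hζ⟩ := Multiset.mem_map.1 h9
      exact ⟨ζ, hζ⟩
    obtain ⟨ζ, hζ⟩ := h4
    have h5 : ι (ζ * y) = t := by
      rw [map_mul, hζ, div_mul_cancel₀ _ hιy]
    refine ⟨ζ * y, ⟨fun h0 => ht0 (by rw [← h5, h0, map_zero]), n, hn, m, inj ι ?_⟩, h5⟩
    rw [map_pow, h5, h1, map_zpow₀]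
  · rintro ⟨t, ⟨ht0, n, hn, m, h1⟩, rfl⟩
    refine ⟨fun h0 => ht0 (inj ι (by rw [h0, map_zero])), n, hn, m, ?_⟩
    rw [← map_pow, h1, map_zpow₀]

/-- The tame closure. -/
theorem tam_map [IsAlgClosed Ω] (h : IsoE v w ι) (hc : CompleteV v) (x : Ω)
    (B : IntermediateField k Ω) : tam p w (ι x) (B.map ι) = (tam p v x B).map ι := by
  unfold tam
  rw [← h.clI_map hc, IntermediateField.map_sup, IntermediateField.adjoin_map, tr_map]

/-! ### The exit, over the tame closures -/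

section Exit

open Pool.Agent.TW (Ctx Full BD HRone LU)

variable [hp : Fact p.Prime] [CharP Ω p]

/-- **The exit**: the top is not hit over the tame closure. -/
theorem hrone4_of_not_hit_tam [CharP H p] [IsAlgClosed k] [IsAlgClosed Ω] [IsAlgClosed H]
    [CharP k p] (h : Ctx k v 1)
    (hcv : CompleteV v) {K₀ : IntermediateField k Ω} (hK : K₀.FG) (hKf : Full v K₀)
    (htr : Algebra.trdeg k K₀ = (4 : ℕ)) (hBDK : BD p v K₀) (hHR : HRone v K₀) {al : Ω}
    (hal : al ^ p ∈ K₀) (hBD : BD p v (adj K₀ al)) {B : IntermediateField k Ω}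
    (hBf : Full v B) (hBt : Algebra.trdeg k B = (3 : ℕ)) {y : Ω} {s : ℝ}
    (hy : TL v (clI v B) y s) (hcl : clI v K₀ = cadj v (clI v B) y)
    (hI : IsoE v w ι) {x : Ω} (hx : x ∈ clI v B) (hx0 : x ≠ 0)
    (hnh : ¬ Hit p w (tam p w (ι x) ((clI v B).map ι)) (ι y) s) : HRone v (adj K₀ al) := by
  by_cases ha : al ∈ K₀
  · have e : adj K₀ al = K₀ := le_antisymm (D2P.adj_le le_rfl ha) (D2P.mem_adj_self K₀ al).2
    rwa [e]
  obtain ⟨ν, hlp, hlev⟩ := TWS7.exists_level p hBDK ha hal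
  have hFK : clI v B ≤ clI v K₀ := by
    rw [hcl]
    exact le_cadj v _ _
  have hTB : TamB p v x (clI v K₀) := tamB_of hp.out h.toCtx0 hcv hx0 (cld_clI v _) (hFK hx)
  have hTS : TamS p v x (clI v K₀) (clI v B) := by
    refine tamS_of_alg hFK (cld_clI v _) hx fun a haK haA => ?_
    rw [hcl] at haK
    exact hy.alg_mem p (cld_clI v _) haK haA
  have halK : al ^ p ∈ clI v K₀ := le_clI _ hal
  -- the field `tam K`
  have htl : TL w (tam p w (ι x) ((clI v B).map ι)) (ι y) s := by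
    rw [tam_map hI hcv, hI.tl_iff]
    exact tl_tam hx hy
  have hcad : cadj w (tam p w (ι x) ((clI v B).map ι)) (ι y) = (tam p v x (clI v K₀)).map ι := by
    rw [tam_map hI hcv, hI.cadj_map hcv, ← tam_cadj, ← hcl]
  have h1 : Unh p w (tam p w (ι x) ((clI v B).map ι))
      (cadj w (tam p w (ι x) ((clI v B).map ι)) (ι y)) (ι y) s ν (ι (al ^ p)) := by
    refine unh_of_not_hit htl ?_ ?_ hnh
    · rw [hcad]
      exact ⟨_, le_tam _ halK, rfl⟩
    · rw [hcad, lp_iff' hI]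
      intro ε hε
      obtain ⟨g, hg, h2⟩ := hlp ε hε
      exact ⟨g, le_tam _ hg, h2⟩
  rw [hcad, tam_map hI hcv, unh_iff' hI] at h1
  have h2 := hTS.unh hTB (by
    rw [hcl]
    exact self_mem_cadj v _ _) halK h1
  refine hrone_of_unh (r := 1) (D := 2) h hcv (by norm_num) ?_ hK hKf (by rw [htr]) hBDK
    hal hBD hBf (by rw [hBt]) hy hcl hlev h2
  intro K hK hKf htK hBDK
  exact TWJ.lu_bd_two p h (TWJ.stepAll p k 1) (by omega) hK hKf htK hBDK

end Exit

end Pool.Agent.TWCT
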