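import Pool.Agent.Lib.TWCT.FGt
import Pool.Agent.Lib.TWCT.TrH
import Pool.Agent.Lib.TWCT.PairS
import Pool.Agent.Lib.TWC.TTx
import Pool.Agent.Lib.TWC.TowR1

/-!
# TANK W, contact (III.1): the tree

The fields `B ≤ K = clI K₀` are in `Ω` (complete, rational rank one), the motions act on the tame
closures in a big field `H`, `ι : Ω → H`.

* `Chn`: a chain of closed fields, dense in the tame closure of `B`; `CS`: `B` is quiet: there are
  strict automorphisms of the tame closure of `B` which are the identity on the members of a chain and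
  move an element of the tame closure of `W`;
* `CS.step`: over a quiet field a floor moves, or gives a quiet field;
* `CTD`: the data; `CTD.false_of_cs`: `K` is not quiet; `Stl`: the fields reached from `W` by quiet
  floors;
* `CTD.RowJ2`, `CTD.RowJ1`: the rows; `CTD.hrone`: the tree.
-/

set_option autoImplicit false

open Polynomial

namespace Pool.Agent.TWCT

open Pool.Agent.H15JM (RVal)
open Pool.Agent.LU1 (VPos adj)
open Pool.Agent.D2 (Ctx0)
open Pool.Agent.D2P (hen clI mem_clI mem_adj_self adj_le)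
open Pool.Agent.TW (Ctx Full BD HRone LU)
open Pool.Agent.TWM
open Pool.Agent.TWS (IsoE SphC TowR)
open Pool.Agent.TWTam

universe u

variable {k Ω H : Type u} [Field k] [Field Ω] [Algebra k Ω] [Field H] [Algebra k H]
  {p : ℕ} {v : RVal Ω} {w : RVal H} {ι : Ω →ₐ[k] H} {x : Ω} {W B K : IntermediateField k Ω}
  {L : ℕ → IntermediateField k H}

/-- The tame closure of `B`, in the big field. -/
noncomputable def tH (p : ℕ) (v : RVal Ω) (ι : Ω →ₐ[k] H) (x : Ω) (B : IntermediateField k Ω) :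
    IntermediateField k H := (tam p v x B).map ι

/-- A chain of closed fields, dense in the tame closure of `B`. -/
structure Chn (p : ℕ) (v : RVal Ω) (w : RVal H) (ι : Ω →ₐ[k] H) (x : Ω)
    (B : IntermediateField k Ω) (L : ℕ → IntermediateField k H) : Prop where
  mono : Monotone L
  cld : ∀ J, Cld w (L J)
  tr : TR p (ι x) ⊆ L 0
  le : ∀ J, L J ≤ tH p v ι x B
  dense : tH p v ι x B ≤ clI w (⨆ J, L J)

/-- `B` is quiet. -/
def CS (p : ℕ) (v : RVal Ω) (w : RVal H) (ι : Ω →ₐ[k] H) (x : Ω) (W B : IntermediateField k Ω) :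
    Prop :=
  ∃ L : ℕ → IntermediateField k H, Chn p v w ι x B L ∧ ConS w L (tH p v ι x W) (tH p v ι x B)

/-- The floor `y` (radius `s`) over `B` moves, for the chain `L`. -/
def Mvs (p : ℕ) (v : RVal Ω) (w : RVal H) (ι : Ω →ₐ[k] H) (x : Ω) (B : IntermediateField k Ω)
    (L : ℕ → IntermediateField k H) (y : Ω) (s : ℝ) : Prop :=
  MovV w L (tH p v ι x B) (ι y) s ∨ MovR w L (tH p v ι x B) (ι y) s

section Step

variable (hI : IsoE v w ι) (hcv : CompleteV v)

include hI hcv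

theorem tH_cadj (B : IntermediateField k Ω) (y : Ω) :
    tH p v ι x (cadj v B y) = cadj w (tH p v ι x B) (ι y) := by
  rw [tH, tam_cadj, tH, hI.cadj_map hcv]

theorem tH_cld (B : IntermediateField k Ω) : Cld w (tH p v ι x B) :=
  (hI.cld_iff hcv).2 (cld_tam B)

theorem Chn.step (h : Chn p v w ι x B L) (y : Ω) :
    Chn p v w ι x (cadj v B y) fun J => cadj w (L J) (ι y) where
  mono := fun _ _ hab => cadj_mono_left (h.mono hab) _
  cld := fun J => cld_cadj w _ _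
  tr := h.tr.trans (le_cadj w (L 0) (ι y))
  le := fun J => by
    rw [tH_cadj hI hcv]
    exact cadj_mono_left (h.le J) _
  dense := by
    rw [tH_cadj hI hcv]
    exact dense_step h.dense _

/-- **Over a quiet field a floor moves, or gives a quiet field.** -/
theorem CS.step_of [IsAlgClosed Ω] [IsAlgClosed H] (hk : Ctx0 k w) (hsp : SphC w)
    (hval : ∀ ρ : ℝ, ∃ x : H, x ≠ 0 ∧ w x = ρ) (hcw : CompleteV w) (hWB : W ≤ B) (hx : x ∈ B)
    (hch : Chn p v w ι x B L) (hcon : ConS w L (tH p v ι x W) (tH p v ι x B)) {y : Ω} {s : ℝ}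
    (hy : TL v B y s) : Mvs p v w ι x B L y s ∨ CS p v w ι x W (cadj v B y) := by
  have htl : TL w (tH p v ι x B) (ι y) s := by
    rw [tH, hI.tl_iff]
    exact tl_tam hx hy
  have hWB' : tH p v ι x W ≤ tH p v ι x B := Dense.map_le_map_iff.2 (tam_mono hWB)
  rcases hcon.step hk hsp hval hcw hch.mono hch.le hch.dense hWB' htl with h1 | h1 | h1
  · exact Or.inl (Or.inl h1)
  · exact Or.inl (Or.inr h1)
  · refine Or.inr ⟨_, hch.step hI hcv y, ?_⟩
    rw [tH_cadj hI hcv B y]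
    exact h1

end Step

/-- **The data of row CT.** -/
structure CTD (p : ℕ) (v : RVal Ω) (w : RVal H) (ι : Ω →ₐ[k] H) (x : Ω)
    (W₀ K₀ : IntermediateField k Ω) (al : Ω) : Prop where
  ctx : Ctx k v 1
  cpl : CompleteV v
  fg : K₀.FG
  full : Full v K₀
  tr : Algebra.trdeg k K₀ = (4 : ℕ)
  bd : BD p v K₀
  hr : HRone v K₀
  mem : al ^ p ∈ K₀
  bda : BD p v (adj K₀ al)
  iso : IsoE v w ι
  c0 : Ctx0 k w
  cw : CompleteV w
  sph : SphC w
  val : ∀ ρ : ℝ, ∃ x : H, x ≠ 0 ∧ w x = ρ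
  trW : Algebra.trdeg k W₀ = (1 : ℕ)
  xW : x ∈ clI v W₀
  x0 : x ≠ 0
  xv : v x ≠ 0
  cs : CS p v w ι x (clI v W₀) (clI v W₀)
  tow : TowR v 3 (clI v W₀) (clI v K₀)

/-- The fields reached from `W₀` by quiet floors. -/
inductive Stl (p : ℕ) (v : RVal Ω) (w : RVal H) (ι : Ω →ₐ[k] H) (x : Ω)
    (W₀ : IntermediateField k Ω) : ℕ → IntermediateField k Ω → Prop
  | zero : Stl p v w ι x W₀ 0 W₀
  | succ {n : ℕ} {B : IntermediateField k Ω} {y : Ω} {s : ℝ} : Stl p v w ι x W₀ n B →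
      TL v (clI v B) y s → CS p v w ι x (clI v W₀) (clI v (adj B y)) →
      Stl p v w ι x W₀ (n + 1) (adj B y)

variable {W₀ K₀ : IntermediateField k Ω} {al : Ω}

namespace Stl

variable {n : ℕ}

theorem le (h : Stl p v w ι x W₀ n B) : W₀ ≤ B := by
  induction h with
  | zero => exact le_rfl
  | @succ n B y s _ _ _ ih => exact ih.trans (mem_adj_self B y).2

theorem trd (h : Stl p v w ι x W₀ n B) (h1 : Algebra.trdeg k W₀ = (1 : ℕ)) :
    Algebra.trdeg k B = (n + 1 : ℕ) := by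
  induction h with
  | zero => rw [h1, zero_add]
  | @succ n B y s _ hy _ ih =>
    rw [TW.HRLU.trdeg_adj (TWC.TL.transcendental hy (le_clI B)), ih]
    push_cast
    ring

theorem cs (h : Stl p v w ι x W₀ n B) (h0 : CS p v w ι x (clI v W₀) (clI v W₀)) :
    CS p v w ι x (clI v W₀) (clI v B) := by
  cases h with
  | zero => exact h0
  | succ _ _ h1 => exact h1

end Stl

namespace CTD

variable [hp : Fact p.Prime] [CharP Ω p] [CharP H p] [CharP k p] [IsAlgClosed k] [IsAlgClosed Ω]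
  [IsAlgClosed H]

omit hp [CharP Ω p] [CharP H p] [CharP k p] [IsAlgClosed k] [IsAlgClosed Ω] [IsAlgClosed H] in
theorem full_of (h : CTD p v w ι x W₀ K₀ al) (hB : W₀ ≤ B) : Full v B := by
  obtain ⟨x', hx', h1⟩ := mem_clI.1 h.xW (v x + 1)
  have h2 : Gt v (v x) (x - x') := Gt.of_ge h1 (by linarith)
  obtain ⟨h3, h4⟩ := h2.val_eq h.x0
  exact TWC.full_of_mem h.ctx (hB hx') h3 (by rw [h4]; exact h.xv)

/-- A chain in the tame closure of `K` is stationary. -/
theorem exists_eq (h : CTD p v w ι x W₀ K₀ al) (hL : Chn p v w ι x (clI v K₀) L) :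
    ∃ J₀, ∀ J, J₀ ≤ J → L J = tH p v ι x (clI v K₀) := by
  have hWK : clI v W₀ ≤ clI v K₀ := h.tow.le
  have e1 : (clI v K₀).map ι = clI w (K₀.map ι) := (h.iso.clI_map h.cpl K₀).symm
  have e2 : tH p v ι x (clI v K₀) = tam p w (ι x) (clI w (K₀.map ι)) := by
    rw [tH, ← tam_map h.iso h.cpl, e1]
  have hx : ι x ∈ clI w (K₀.map ι) := by
    rw [← e1]
    exact ⟨x, hWK h.xW, rfl⟩
  have hx0 : ι x ≠ 0 := IsoE.ne_zero h.x0
  have hTB : TamB p w (ι x) (clI w (K₀.map ι)) :=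
    tamB_of hp.out h.c0 h.cw hx0 (cld_clI w _) hx
  rw [e2]
  refine exists_le_tam h.c0 (Dense.fg_map h.fg) (h.iso.bd_iff.2 h.bd) hTB hL.mono
    hL.cld (fun J => by rw [← e2]; exact hL.le J) hL.tr ?_
  refine le_trans ?_ hL.dense
  rw [e2]
  exact le_tam _

/-- **`K` is not quiet.** -/
theorem false_of_cs (h : CTD p v w ι x W₀ K₀ al)
    (hcs : CS p v w ι x (clI v W₀) (clI v K₀)) : False := by
  obtain ⟨L, hL, hcon⟩ := hcs
  obtain ⟨J₀, hJ₀⟩ := h.exists_eq hL
  refine hcon.false (J := J₀) ?_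
  rw [hJ₀ J₀ le_rfl]
  exact Dense.map_le_map_iff.2 (tam_mono h.tow.le)

/-- **The case `j = 3`.** -/
theorem hrone_of_mvs (h : CTD p v w ι x W₀ K₀ al) (hWB : W₀ ≤ B)
    (hBt : Algebra.trdeg k B = (3 : ℕ)) {y : Ω} {s : ℝ} (hy : TL v (clI v B) y s)
    (hK : clI v K₀ = cadj v (clI v B) y) (hL : Chn p v w ι x (clI v B) L)
    (hm : Mvs p v w ι x (clI v B) L y s) : HRone v (adj K₀ al) := by
  have hxB : x ∈ clI v B := clI_mono hWB h.xW
  have htl : TL w (tH p v ι x (clI v B)) (ι y) s := by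
    rw [tH, h.iso.tl_iff]
    exact tl_tam hxB hy
  have h1 : ¬ Hit p w (tH p v ι x (clI v B)) (ι y) s :=
    not_hit_of_mov h.c0 hL.mono hL.dense htl hm
  rw [tH, ← tam_map h.iso h.cpl] at h1
  exact hrone4_of_not_hit_tam h.ctx h.cpl h.fg h.full h.tr h.bd h.hr h.mem h.bda
    (h.full_of hWB) hBt hy hK h.iso hxB h.x0 h1

/-- **Row (j = 2).** `C₀` of transcendence degree two, its closure is quiet, and `K` has no
presentation `C⟨y⟩⟨z⟩` with a quiet first floor. -/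
def RowJ2 (p : ℕ) (v : RVal Ω) (w : RVal H) (ι : Ω →ₐ[k] H) (x : Ω)
    (W₀ K₀ : IntermediateField k Ω) (al : Ω) : Prop :=
  ∀ C₀ : IntermediateField k Ω, W₀ ≤ C₀ → Algebra.trdeg k C₀ = (2 : ℕ) →
    CS p v w ι x (clI v W₀) (clI v C₀) → TowR v 2 (clI v C₀) (clI v K₀) →
    (∀ (y : Ω) (s : ℝ), TL v (clI v C₀) y s → TowR v 1 (cadj v (clI v C₀) y) (clI v K₀) →
      ¬ CS p v w ι x (clI v W₀) (cadj v (clI v C₀) y)) → HRone v (adj K₀ al)

/-- **Row (j = 1).** `K` has no presentation with a quiet first floor. -/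
def RowJ1 (p : ℕ) (v : RVal Ω) (w : RVal H) (ι : Ω →ₐ[k] H) (x : Ω)
    (W₀ K₀ : IntermediateField k Ω) (al : Ω) : Prop :=
  (∀ (y : Ω) (s : ℝ), TL v (clI v W₀) y s → TowR v 2 (cadj v (clI v W₀) y) (clI v K₀) →
      ¬ CS p v w ι x (clI v W₀) (cadj v (clI v W₀) y)) → HRone v (adj K₀ al)

/-- **The tree.** -/
theorem hrone (h : CTD p v w ι x W₀ K₀ al) (h2 : RowJ2 p v w ι x W₀ K₀ al)
    (h1 : RowJ1 p v w ι x W₀ K₀ al) : HRone v (adj K₀ al) := by
  by_cases c3 : ∃ B, Stl p v w ι x W₀ 3 B ∧ clI v B = clI v K₀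
  · obtain ⟨B, hB, hBK⟩ := c3
    have h3 := hB.cs h.cs
    rw [hBK] at h3
    exact (h.false_of_cs h3).elim
  by_cases c2 : ∃ B, Stl p v w ι x W₀ 2 B ∧ TowR v 1 (clI v B) (clI v K₀)
  · obtain ⟨B, hB, hT⟩ := c2
    obtain ⟨y, s, hy, hK⟩ := TWS.towR_iff_one.1 hT
    obtain ⟨L, hL, hcon⟩ := hB.cs h.cs
    rcases CS.step_of h.iso h.cpl h.c0 h.sph h.val h.cw (clI_mono hB.le)
      (clI_mono hB.le h.xW) hL hcon hy with h3 | h3
    · exact h.hrone_of_mvs hB.le (hB.trd h.trW) hy hK hL h3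
    · refine absurd ⟨adj B y, Stl.succ hB hy ?_, ?_⟩ c3
      · rw [← clI_adj_clI]
        exact h3
      · rw [← clI_adj_clI, hK]
  by_cases c1 : ∃ B, Stl p v w ι x W₀ 1 B ∧ TowR v 2 (clI v B) (clI v K₀)
  · obtain ⟨B, hB, hT⟩ := c1
    refine h2 B hB.le (hB.trd h.trW) (hB.cs h.cs) hT fun y s hy hT' hcs => ?_
    refine c2 ⟨adj B y, Stl.succ hB hy ?_, ?_⟩
    · rw [← clI_adj_clI]
      exact hcs
    · rw [← clI_adj_clI]
      exact hT'
  · refine h1 fun y s hy hT' hcs => ?_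
    refine c1 ⟨adj W₀ y, Stl.succ Stl.zero hy ?_, ?_⟩
    · rw [← clI_adj_clI]
      exact hcs
    · rw [← clI_adj_clI]
      exact hT'

end CTD

end Pool.Agent.TWCT
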