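import Pool.Agent.Lib.D2P.R0
import Pool.Agent.Lib.D2.TM1
import Mathlib.SetTheory.Cardinal.Subfield

/-!
# TANK W, row CT.0: countable type

The closure of a countably generated extension of `k` is a space of countable type over `k` (the
cardinality of `k` does not matter): it has a dense subspace of countable dimension; hence so has
every subspace.

* `exists_resf`: a countable set is in a countable subfield of `Ω` which contains its residues;
* `exists_lead`: nonzero elements of the span of such a subfield are `f (c + ε)`;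
* `dense_span`: the span of such a subfield is dense in the closure of the field generated;
* `exists_cnt`: every subspace of this closure has a countable dense set of generators.
-/

set_option autoImplicit false

open Polynomial Cardinal

namespace Pool.Agent.TWCT

open Pool.Agent.H15JM (RVal)
open Pool.Agent.LU1 (VPos adj)
open Pool.Agent.LUC (Cl clF)
open Pool.Agent.D2 (Ctx0)
open Pool.Agent.D2P

universe u

variable {k Ω : Type u} [Field k] [Field Ω] [Algebra k Ω] {v : RVal Ω}

theorem countable_closure {S : Set Ω} (hS : S.Countable) :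
    ((Subfield.closure S : Subfield Ω) : Set Ω).Countable := by
  have h1 := Subfield.cardinalMk_closure_le_max S
  have h2 : #S ≤ ℵ₀ := by
    rw [Cardinal.le_aleph0_iff_set_countable]
    exact hS
  rw [max_eq_right h2] at h1
  rw [← Cardinal.le_aleph0_iff_set_countable]
  exact h1

/-- A countable set is in a countable subfield of `Ω` which contains its residues. -/
theorem exists_resf (h : Ctx0 k v) {S : Set Ω} (hS : S.Countable) :
    ∃ T : Subfield Ω, (T : Set Ω).Countable ∧ S ⊆ T ∧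
      ∀ t ∈ T, v.Ge 0 t → ∃ c : k, algebraMap k Ω c ∈ T ∧ VPos v (t - algebraMap k Ω c) := by
  let nx : Subfield Ω → Subfield Ω := fun T =>
    Subfield.closure ((T : Set Ω) ∪ (fun t => algebraMap k Ω (D2.GalRam.rs v k t)) '' (T : Set Ω))
  let F : ℕ → Subfield Ω := fun n => nx^[n] (Subfield.closure S)
  have hF0 : F 0 = Subfield.closure S := rfl
  have hFs : ∀ n, F (n + 1) = nx (F n) := fun n => Function.iterate_succ_apply' nx n _
  have hle : ∀ n, F n ≤ F (n + 1) := by
    intro n x hx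
    rw [hFs]
    exact Subfield.subset_closure (Or.inl hx)
  have hmono : Monotone F := monotone_nat_of_le_succ hle
  have hdir : Directed (· ≤ ·) F := hmono.directed_le
  have hcnt : ∀ n, (F n : Set Ω).Countable := by
    intro n
    induction n with
    | zero =>
      rw [hF0]
      exact countable_closure hS
    | succ n ih =>
      rw [hFs]
      exact countable_closure (ih.union (ih.image _))
  refine ⟨⨆ n, F n, ?_, ?_, ?_⟩
  · rw [Subfield.coe_iSup_of_directed hdir]
    exact Set.countable_iUnion hcnt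
  · intro s hs
    have h1 : s ∈ F 0 := Subfield.subset_closure hs
    exact (le_iSup F 0) h1
  · intro t ht htv
    rw [Subfield.mem_iSup_of_directed hdir] at ht
    obtain ⟨n, hn⟩ := ht
    refine ⟨D2.GalRam.rs v k t, ?_, D2.GalRam.rs_spec h htv⟩
    have h1 : algebraMap k Ω (D2.GalRam.rs v k t) ∈ F (n + 1) := by
      rw [hFs]
      exact Subfield.subset_closure (Or.inr ⟨t, hn, rfl⟩)
    exact (le_iSup F (n + 1)) h1

section

variable {T : Subfield Ω}

theorem exists_lead_sum (h : Ctx0 k v)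
    (hT : ∀ t ∈ T, v.Ge 0 t → ∃ c : k, algebraMap k Ω c ∈ T ∧ VPos v (t - algebraMap k Ω c))
    {ι : Type} (n : ℕ) : ∀ (s : Finset ι), s.card = n → ∀ (c : ι → k) (f : ι → Ω), (∀ i, f i ∈ T) →
      ∑ i ∈ s, algebraMap k Ω (c i) * f i ≠ 0 → ∃ g ∈ T, g ≠ 0 ∧ ∃ d : k, d ≠ 0 ∧
        VPos v ((∑ i ∈ s, algebraMap k Ω (c i) * f i) / g - algebraMap k Ω d) := by
  classical
  induction n with
  | zero =>
    intro s hs c f _ hne
    rw [Finset.card_eq_zero] at hs
    rw [hs, Finset.sum_empty] at hne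
    exact absurd rfl hne
  | succ n ih =>
    intro s hs c f hf hne
    by_cases hz : ∃ i ∈ s, f i = 0
    · obtain ⟨i, hi, hi0⟩ := hz
      have h1 : ∑ j ∈ s, algebraMap k Ω (c j) * f j =
          ∑ j ∈ s.erase i, algebraMap k Ω (c j) * f j := by
        rw [← Finset.add_sum_erase s _ hi, hi0, mul_zero, zero_add]
      rw [h1] at hne ⊢
      exact ih (s.erase i) (by rw [Finset.card_erase_of_mem hi, hs]; rfl) c f hf hne
    push Not at hz
    have hsne : s.Nonempty := by
      rw [← Finset.card_pos, hs]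
      omega
    obtain ⟨i0, hi0, hmin⟩ := Finset.exists_min_image s (fun i => v (f i)) hsne
    have hq : ∀ i ∈ s, v.Ge 0 (f i / f i0) := by
      intro i hi _
      rw [v.map_div (hz i hi) (hz i0 hi0)]
      linarith [hmin i hi]
    have hex : ∀ i, ∃ r : k, algebraMap k Ω r ∈ T ∧
        (i ∈ s → VPos v (f i / f i0 - algebraMap k Ω r)) ∧ (i = i0 → r = 1) := by
      intro i
      by_cases hii : i = i0
      · refine ⟨1, by rw [_root_.map_one]; exact T.one_mem, fun _ => ?_, fun _ => rfl⟩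
        rw [hii, div_self (hz i0 hi0), _root_.map_one, sub_self]
        exact LU1.VPos.zero
      by_cases hi : i ∈ s
      · obtain ⟨r, hr, hr'⟩ := hT (f i / f i0) (T.div_mem (hf i) (hf i0)) (hq i hi)
        exact ⟨r, hr, fun _ => hr', fun h1 => absurd h1 hii⟩
      · exact ⟨0, by rw [map_zero]; exact T.zero_mem, fun h1 => absurd h1 hi,
          fun h1 => absurd h1 hii⟩
    choose r hr1 hr2 hr3 using hex
    have hsum : (∑ i ∈ s, algebraMap k Ω (c i) * f i) / f i0 =
        algebraMap k Ω (∑ i ∈ s, c i * r i) +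
          ∑ i ∈ s, algebraMap k Ω (c i) * (f i / f i0 - algebraMap k Ω (r i)) := by
      rw [map_sum, ← Finset.sum_add_distrib, Finset.sum_div]
      refine Finset.sum_congr rfl fun i _ => ?_
      rw [_root_.map_mul]
      ring
    by_cases hd : ∑ i ∈ s, c i * r i = 0
    · -- shorter
      have h1 : ∑ i ∈ s, algebraMap k Ω (c i) * f i =
          ∑ i ∈ s.erase i0, algebraMap k Ω (c i) * (f i0 * (f i / f i0 - algebraMap k Ω (r i))) := by
        have h2 : ∑ i ∈ s, algebraMap k Ω (c i) * f i =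
            f i0 * ∑ i ∈ s, algebraMap k Ω (c i) * (f i / f i0 - algebraMap k Ω (r i)) := by
          rw [hd, map_zero, zero_add] at hsum
          rw [← hsum, mul_div_cancel₀ _ (hz i0 hi0)]
        rw [h2, ← Finset.add_sum_erase s _ hi0, hr3 i0 rfl, div_self (hz i0 hi0), _root_.map_one,
          sub_self, mul_zero, zero_add, Finset.mul_sum]
        refine Finset.sum_congr rfl fun i _ => ?_
        ring
      rw [h1] at hne ⊢
      exact ih (s.erase i0) (by rw [Finset.card_erase_of_mem hi0, hs]; rfl) c _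
        (fun i => T.mul_mem (hf i0) (T.sub_mem (T.div_mem (hf i) (hf i0)) (hr1 i))) hne
    · refine ⟨f i0, hf i0, hz i0 hi0, _, hd, ?_⟩
      rw [hsum, add_sub_cancel_left]
      refine Finset.sum_induction _ (VPos v) (fun _ _ => LU1.VPos.add) LU1.VPos.zero fun i hi => ?_
      exact LU1.VPos.mul' (h.ge _) (hr2 i hi)

/-- The span of `T` as a subalgebra. -/
noncomputable def spT (k : Type u) [Field k] [Algebra k Ω] (T : Subfield Ω) : Subalgebra k Ω :=
  Algebra.adjoin k (T : Set Ω)

theorem spT_eq (T : Subfield Ω) :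
    Subalgebra.toSubmodule (spT k T) = Submodule.span k (T : Set Ω) := by
  unfold spT
  refine Algebra.adjoin_eq_span_of_subset (R := k) ?_
  have h1 : Submonoid.closure (T : Set Ω) ≤ T.toSubring.toSubmonoid := by
    rw [Submonoid.closure_le]
    exact fun x hx => hx
  exact fun x hx => Submodule.subset_span (h1 hx)

theorem exists_lead (h : Ctx0 k v)
    (hT : ∀ t ∈ T, v.Ge 0 t → ∃ c : k, algebraMap k Ω c ∈ T ∧ VPos v (t - algebraMap k Ω c))
    {g : Ω} (hg : g ∈ spT k T) (hg0 : g ≠ 0) :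
    ∃ f ∈ T, f ≠ 0 ∧ ∃ d : k, d ≠ 0 ∧ VPos v (g / f - algebraMap k Ω d) := by
  have h1 : g ∈ Submodule.span k (T : Set Ω) := by
    rw [← spT_eq]
    exact hg
  obtain ⟨n, c, f, hs⟩ := Submodule.mem_span_set'.1 h1
  have h2 : g = ∑ i ∈ (Finset.univ : Finset (Fin n)), algebraMap k Ω (c i) * (f i : Ω) := by
    rw [← hs]
    refine Finset.sum_congr rfl fun i _ => ?_
    rw [Algebra.smul_def]
  rw [h2] at hg0 ⊢
  exact exists_lead_sum h hT n Finset.univ (by rw [Finset.card_univ, Fintype.card_fin]) c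
    (fun i => (f i : Ω)) (fun i => (f i).2) hg0

theorem mem_spT {t : Ω} (ht : t ∈ T) : t ∈ spT k T := Algebra.subset_adjoin ht

theorem inv_approx (h : Ctx0 k v)
    (hT : ∀ t ∈ T, v.Ge 0 t → ∃ c : k, algebraMap k Ω c ∈ T ∧ VPos v (t - algebraMap k Ω c))
    {g : Ω} (hg : g ∈ spT k T) (hg0 : g ≠ 0) (r : ℝ) : ∃ u ∈ spT k T, v.Ge r (g⁻¹ - u) := by
  obtain ⟨f, hf, hf0, d, hd0, hd⟩ := exists_lead h hT hg hg0
  have hdΩ : algebraMap k Ω d ≠ 0 := (_root_.map_ne_zero _).2 hd0
  set δ : Ω := -(algebraMap k Ω d)⁻¹ * (g / f - algebraMap k Ω d) with hδ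
  have hfi : f⁻¹ ∈ spT k T := mem_spT (T.inv_mem hf)
  have hdi : (algebraMap k Ω d)⁻¹ ∈ spT k T := by
    rw [← map_inv₀]
    exact (spT k T).algebraMap_mem _
  have hδT : δ ∈ spT k T := by
    refine mul_mem (neg_mem hdi) (sub_mem ?_ ((spT k T).algebraMap_mem _))
    rw [div_eq_mul_inv]
    exact mul_mem hg hfi
  have hδv : VPos v δ := by
    refine LU1.VPos.mul' ?_ hd
    refine RVal.Ge.neg fun h0 => ?_
    rw [v.map_inv hdΩ, h.triv d hd0, neg_zero]
  have hgf : g = f * algebraMap k Ω d * (1 - δ) := by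
    rw [hδ]
    field_simp
    ring
  have h1δ0 : 1 - δ ≠ 0 := by
    intro h0
    rw [h0, mul_zero] at hgf
    exact hg0 hgf
  have h1δv : v (1 - δ) = 0 := by
    by_cases hδ0 : δ = 0
    · rw [hδ0, sub_zero, v.map_one]
    · have h1 := v.add_of_lt (x := 1) (y := -δ) one_ne_zero (neg_ne_zero.2 hδ0) (by
        rw [v.map_one, v.map_neg _ hδ0]
        exact hδv hδ0)
      rw [← sub_eq_add_neg] at h1
      rw [h1.2, v.map_one]
  obtain ⟨N, hN⟩ := D2.exists_pow_ge (b := f⁻¹ * (algebraMap k Ω d)⁻¹ * (1 - δ)⁻¹) hδv r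
  refine ⟨f⁻¹ * (algebraMap k Ω d)⁻¹ * ∑ j ∈ Finset.range N, δ ^ j, ?_, ?_⟩
  · exact mul_mem (mul_mem hfi hdi) (sum_mem fun j _ => pow_mem hδT j)
  · have h1 : (∑ j ∈ Finset.range N, δ ^ j) * (1 - δ) = 1 - δ ^ N := geom_sum_mul_neg δ N
    have h2 : g⁻¹ - f⁻¹ * (algebraMap k Ω d)⁻¹ * ∑ j ∈ Finset.range N, δ ^ j =
        f⁻¹ * (algebraMap k Ω d)⁻¹ * (1 - δ)⁻¹ * δ ^ N := by
      have h3 : ∑ j ∈ Finset.range N, δ ^ j = (1 - δ ^ N) * (1 - δ)⁻¹ := by
        rw [← h1, mul_assoc, mul_inv_cancel₀ h1δ0, mul_one]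
      rw [h3, hgf]
      field_simp
      ring
    rw [h2]
    exact hN N le_rfl

/-- The span of `T` is dense in the closure of the field generated. -/
theorem dense_span (h : Ctx0 k v)
    (hT : ∀ t ∈ T, v.Ge 0 t → ∃ c : k, algebraMap k Ω c ∈ T ∧ VPos v (t - algebraMap k Ω c))
    {K : IntermediateField k Ω} (hK : K ≤ IntermediateField.adjoin k (T : Set Ω)) {w : Ω}
    (hw : w ∈ clI v K) (r : ℝ) : ∃ u ∈ Submodule.span k (T : Set Ω), v.Ge r (w - u) := by
  have h1 : ∃ u ∈ spT k T, v.Ge r (w - u) := by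
    obtain ⟨x, hx, hxw⟩ := hw r
    have hx' := hK hx
    rw [IntermediateField.mem_adjoin_iff_div] at hx'
    obtain ⟨a, ha, b, hb, rfl⟩ := hx'
    by_cases hb0 : b = 0
    · rw [hb0, div_zero] at hxw
      exact ⟨0, zero_mem _, hxw⟩
    obtain ⟨u, hu, hu'⟩ := inv_approx h hT (show b ∈ spT k T from hb) hb0 (r - v a)
    refine ⟨a * u, mul_mem (show a ∈ spT k T from ha) hu, ?_⟩
    have h2 : w - a * u = (w - a / b) + a * (b⁻¹ - u) := by
      rw [div_eq_mul_inv]
      ring
    rw [h2]
    refine hxw.add ((RVal.ge_self (v := v) a).mul hu' |>.mono (by linarith))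
  obtain ⟨u, hu, hu'⟩ := h1
  refine ⟨u, ?_, hu'⟩
  rw [← spT_eq]
  exact hu

end

/-- The elements of value `≥ r` as a subspace. -/
def geS (h : Ctx0 k v) (r : ℝ) : Submodule k Ω where
  carrier := {x | v.Ge r x}
  add_mem' := fun ha hb => RVal.Ge.add ha hb
  zero_mem' := RVal.Ge.zero
  smul_mem' := fun c x hx => by
    show v.Ge r (c • x)
    rw [Algebra.smul_def]
    exact ((h.ge c).mul hx).mono (by linarith)

theorem exists_cnt (h : Ctx0 k v) {K : IntermediateField k Ω} {S : Set Ω} (hS : S.Countable)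
    (hK : K ≤ IntermediateField.adjoin k S) (V : Submodule k Ω) (hV : ∀ w ∈ V, w ∈ clI v K) :
    ∃ T : Set Ω, T.Countable ∧ T ⊆ V ∧
      ∀ w ∈ V, ∀ r : ℝ, ∃ t ∈ Submodule.span k T, v.Ge r (w - t) := by
  classical
  obtain ⟨T, hTc, hST, hTr⟩ := exists_resf h hS
  have hK' : K ≤ IntermediateField.adjoin k (T : Set Ω) :=
    hK.trans (IntermediateField.adjoin.mono k S T hST)
  -- one precision
  have hone : ∀ n : ℕ, ∃ T' : Set Ω, T'.Countable ∧ T' ⊆ V ∧
      ∀ w ∈ V, ∃ t ∈ Submodule.span k T', v.Ge n (w - t) := by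
    intro n
    let U : Submodule k Ω := geS h n
    let φ : Ω →ₗ[k] (Ω ⧸ U) := U.mkQ
    let P : Submodule k (Ω ⧸ U) := V.map φ
    have hP : P ≤ Submodule.span k (φ '' (T : Set Ω)) := by
      rintro _ ⟨w, hw, rfl⟩
      obtain ⟨u, hu, hu'⟩ := dense_span h hTr hK' (hV w hw) n
      have h1 : φ w = φ u := by
        rw [← sub_eq_zero, ← map_sub]
        exact (Submodule.Quotient.mk_eq_zero U).2 hu'
      rw [h1, ← Submodule.map_span]
      exact ⟨u, hu, rfl⟩
    have hrk : Module.rank k P ≤ ℵ₀ := by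
      refine (Submodule.rank_mono hP).trans ((rank_span_le _).trans ?_)
      rw [Cardinal.le_aleph0_iff_set_countable]
      exact hTc.image _
    let b := Module.Basis.ofVectorSpace k P
    have hbc : Countable (Module.Basis.ofVectorSpaceIndex k P) := by
      rw [← Cardinal.mk_le_aleph0_iff, b.mk_eq_rank'']
      exact hrk
    have hex : ∀ i : Module.Basis.ofVectorSpaceIndex k P, ∃ w ∈ V, φ w = (b i : Ω ⧸ U) := fun i =>
      (b i).2
    choose l hl1 hl2 using hex
    refine ⟨Set.range l, Set.countable_range l, ?_, ?_⟩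
    · rintro _ ⟨i, rfl⟩
      exact hl1 i
    · intro w hw
      have h1 : φ w ∈ Submodule.span k (φ '' (Set.range l)) := by
        have h2 : (⟨φ w, w, hw, rfl⟩ : P) ∈ Submodule.span k (Set.range b) := by
          rw [b.span_eq]
          exact Submodule.mem_top
        have h3 : φ w ∈ (Submodule.span k (Set.range b)).map P.subtype := ⟨_, h2, rfl⟩
        rw [Submodule.map_span] at h3
        refine Submodule.span_mono ?_ h3
        rintro _ ⟨_, ⟨i, rfl⟩, rfl⟩
        exact ⟨l i, ⟨i, rfl⟩, hl2 i⟩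
      rw [← Submodule.map_span] at h1
      obtain ⟨t, ht, ht'⟩ := h1
      refine ⟨t, ht, ?_⟩
      have h2 : φ (w - t) = 0 := by rw [map_sub, ht', sub_self]
      exact (Submodule.Quotient.mk_eq_zero U).1 h2
  choose T' h1 h2 h3 using hone
  refine ⟨⋃ n, T' n, Set.countable_iUnion h1, Set.iUnion_subset h2, ?_⟩
  intro w hw r
  obtain ⟨n, hn⟩ := exists_nat_ge r
  obtain ⟨t, ht, ht'⟩ := h3 n w hw
  exact ⟨t, Submodule.span_mono (Set.subset_iUnion T' n) ht, ht'.mono hn⟩

end Pool.Agent.TWCT
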