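import Pool.Agent.Lib.TWCT.Tow
import Pool.Agent.Lib.TWCT.Cnt
import Pool.Agent.Lib.TWM.Ent1

/-!
# TANK W, row CT.0: the tame base

`tb p v x` is the union of the closures of `k(y)`, `y ^ n = x`, `n` prime to `p`.

* `mem_tb`, `tb_fin`: finitely many elements are in one `cadj v ⊥ y`;
* `tb_good`: it is good (henselian, locally discrete, value group not `p`-divisible, all tame values);
* `exists_tower`: in a subfield `W` of a closure of countable type there is a sequence of steps over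
  the tame base with the elements of `W` which are separable over the base in the closure.
-/

set_option autoImplicit false

open Polynomial

namespace Pool.Agent.TWCT

open Pool.Agent.H15JM (RVal)
open Pool.Agent.LU1 (VPos adj)
open Pool.Agent.LUC (Cl clF)
open Pool.Agent.D2 (Ctx0)
open Pool.Agent.D2P
open Pool.Agent.TWM (cadj clI_clI clI_mono le_clI)

universe u

variable {k Ω : Type u} [Field k] [Field Ω] [Algebra k Ω] {v : RVal Ω}

/-! ## Values of the closure of `k(y)` -/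

theorem val_aeval_ne (h : Ctx0 k v) {y : Ω} (hy0 : y ≠ 0) (hyv : v y ≠ 0) {P : Polynomial k}
    (hP : P ≠ 0) : aeval y P ≠ 0 ∧ ∃ i : ℕ, v (aeval y P) = i * v y := by
  classical
  have hc : ∀ i ∈ P.support, algebraMap k Ω (P.coeff i) ≠ 0 := fun i hi =>
    (_root_.map_ne_zero _).2 (mem_support_iff.1 hi)
  have hval : ∀ i ∈ P.support, v (algebraMap k Ω (P.coeff i) * y ^ i) = i * v y := by
    intro i hi
    rw [v.map_mul (hc i hi) (pow_ne_zero _ hy0), h.triv _ (mem_support_iff.1 hi), v.map_pow hy0,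
      zero_add]
  have hsum : aeval y P = ∑ i ∈ P.support, algebraMap k Ω (P.coeff i) * y ^ i := by
    rw [Polynomial.aeval_def, Polynomial.eval₂_eq_sum, Polynomial.sum_def]
  obtain ⟨h1, i, hi, h2⟩ := LU1.sum_distinct (v := v) P.support
    (by
      rw [Finset.nonempty_iff_ne_empty]
      intro h0
      exact hP (Polynomial.support_eq_empty.1 h0))
    (fun i => algebraMap k Ω (P.coeff i) * y ^ i)
    (fun i hi => mul_ne_zero (hc i hi) (pow_ne_zero _ hy0))
    (fun i hi j hj hij => by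
      rw [hval i hi, hval j hj] at hij
      exact_mod_cast mul_right_cancel₀ hyv hij)
  rw [hsum]
  exact ⟨h1, i, by rw [h2, hval i hi]⟩

theorem mem_adj_bot {y g : Ω} (hg : g ∈ adj (⊥ : IntermediateField k Ω) y) :
    ∃ P Q : Polynomial k, g = aeval y P / aeval y Q := by
  have h1 : adj (⊥ : IntermediateField k Ω) y = IntermediateField.adjoin k {y} := bot_sup_eq _
  rw [h1, IntermediateField.mem_adjoin_simple_iff] at hg
  exact hg

theorem val_cadj_bot (h : Ctx0 k v) {y : Ω} (hy0 : y ≠ 0) (hyv : v y ≠ 0) {g : Ω}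
    (hg : g ∈ cadj v (⊥ : IntermediateField k Ω) y) (hg0 : g ≠ 0) :
    ∃ m : ℤ, v g = m * v y := by
  obtain ⟨g₀, hg₀, hg₀0, hval, -⟩ := LUC.Cl.exists_val (mem_clI.1 hg) 0 hg0
  obtain ⟨P, Q, hPQ⟩ := mem_adj_bot (show g₀ ∈ adj (⊥ : IntermediateField k Ω) y from hg₀)
  have hQ0 : Q ≠ 0 := by
    rintro rfl
    rw [map_zero, div_zero] at hPQ
    exact hg₀0 hPQ
  have hP0 : P ≠ 0 := by
    rintro rfl
    rw [map_zero, zero_div] at hPQ
    exact hg₀0 hPQ
  obtain ⟨h1, i, hi⟩ := val_aeval_ne h hy0 hyv hP0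
  obtain ⟨h2, j, hj⟩ := val_aeval_ne h hy0 hyv hQ0
  refine ⟨(i : ℤ) - j, ?_⟩
  rw [← hval, hPQ, v.map_div h1 h2, hi, hj]
  push_cast
  ring

theorem hen_cadj (A : IntermediateField k Ω) (y : Ω) : hen v (cadj v A y) = cadj v A y := by
  refine le_antisymm ?_ (le_hen _)
  intro g hg
  have h1 : g ∈ clI v (cadj v A y) := mem_clI.2 (mem_hen.1 hg).1
  rw [cadj, clI_clI] at h1
  exact h1

/-! ## The tame base -/

/-- An element is in the tame base of `x`. -/
def InTB (p : ℕ) (v : RVal Ω) (k : Type u) [Field k] [Algebra k Ω] (x g : Ω) : Prop :=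
  ∃ y : Ω, (∃ n : ℕ, ¬ p ∣ n ∧ y ^ n = x) ∧ g ∈ cadj v (⊥ : IntermediateField k Ω) y

section

variable [IsAlgClosed Ω] [IsAlgClosed k] {p : ℕ} (hp : p.Prime) {x : Ω}

include hp in
theorem tb_dir (hx : x ≠ 0) {y z : Ω} (hy : ∃ n : ℕ, ¬ p ∣ n ∧ y ^ n = x)
    (hz : ∃ n : ℕ, ¬ p ∣ n ∧ z ^ n = x) : ∃ w : Ω, (∃ n : ℕ, ¬ p ∣ n ∧ w ^ n = x) ∧
      cadj v (⊥ : IntermediateField k Ω) y ≤ cadj v ⊥ w ∧
      cadj v (⊥ : IntermediateField k Ω) z ≤ cadj v ⊥ w := by
  obtain ⟨n, hn, hyn⟩ := hy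
  obtain ⟨m, hm, hzm⟩ := hz
  have hn0 : 0 < n := Nat.pos_of_ne_zero fun h0 => hn (h0 ▸ dvd_zero p)
  have hm0 : 0 < m := Nat.pos_of_ne_zero fun h0 => hm (h0 ▸ dvd_zero p)
  obtain ⟨w, hw⟩ := IsAlgClosed.exists_pow_nat_eq x (Nat.mul_pos hn0 hm0)
  have key : ∀ (a b : ℕ) (t : Ω), 0 < a → w ^ (a * b) = x → t ^ a = x →
      cadj v (⊥ : IntermediateField k Ω) t ≤ cadj v ⊥ w := by
    intro a b t ha hwab ht
    have ht0 : t ≠ 0 := by
      rintro rfl
      rw [zero_pow ha.ne'] at ht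
      exact hx ht.symm
    have hwb : (w ^ b / t) ^ a = 1 := by
      rw [div_pow, ← pow_mul, mul_comm b a, hwab, ht, div_self hx]
    obtain ⟨c, hc⟩ := mem_range_of_root (k := k) (a := w ^ b / t) (X ^ a - 1)
      (X_pow_sub_C_ne_zero ha 1) (by
        rw [map_sub, map_pow, aeval_X, _root_.map_one, hwb, sub_self])
    have hc0 : algebraMap k Ω c ≠ 0 := by
      intro h0
      rw [h0] at hc
      rw [← hc, zero_pow ha.ne'] at hwb
      exact zero_ne_one hwb
    have htw : t = w ^ b / algebraMap k Ω c := by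
      rw [hc]
      have hwb0 : w ^ b ≠ 0 := by
        intro h0
        rw [h0, zero_div] at hc
        exact hc0 hc
      field_simp
    refine clI_mono (adj_le bot_le ?_)
    rw [htw]
    exact div_mem (pow_mem (mem_adj_self _ w).1 b) ((adj (⊥ : IntermediateField k Ω) w).algebraMap_mem c)
  refine ⟨w, ⟨n * m, ?_, hw⟩, key n m y hn0 hw hyn, key m n z hm0 (by rw [mul_comm, hw]) hzm⟩
  intro hd
  rcases hp.dvd_mul.1 hd with h1 | h1
  · exact hn h1
  · exact hm h1

include hp in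
theorem InTB.fin (hx : x ≠ 0) (S : Finset Ω) (hS : ∀ s ∈ S, InTB p v k x s) :
    ∃ y : Ω, (∃ n : ℕ, ¬ p ∣ n ∧ y ^ n = x) ∧ ∀ s ∈ S, s ∈ cadj v (⊥ : IntermediateField k Ω) y := by
  classical
  induction S using Finset.induction_on with
  | empty =>
    refine ⟨x, ⟨1, ?_, pow_one x⟩, fun s hs => absurd hs (Finset.notMem_empty s)⟩
    intro hd
    exact hp.one_lt.ne' (Nat.dvd_one.1 hd)
  | insert a S _ ih =>
    obtain ⟨y, hy, hyS⟩ := ih fun s hs => hS s (Finset.mem_insert_of_mem hs)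
    obtain ⟨z, hz, haz⟩ := hS a (Finset.mem_insert_self a S)
    obtain ⟨w, hw, h1, h2⟩ := tb_dir (v := v) (k := k) hp hx hy hz
    refine ⟨w, hw, fun s hs => ?_⟩
    rcases Finset.mem_insert.1 hs with rfl | hs
    · exact h2 haz
    · exact h1 (hyS s hs)

/-- The tame base. -/
noncomputable def tb (hp : p.Prime) (v : RVal Ω) (k : Type u) [Field k] [Algebra k Ω]
    [IsAlgClosed k] {x : Ω} (hx : x ≠ 0) : IntermediateField k Ω where
  carrier := {g | InTB p v k x g}
  mul_mem' := by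
    classical
    intro a b ha hb
    obtain ⟨y, hy, hyS⟩ := InTB.fin hp hx {a, b} (by
      intro s hs
      rcases Finset.mem_insert.1 hs with rfl | hs
      · exact ha
      · rw [Finset.mem_singleton.1 hs]
        exact hb)
    exact ⟨y, hy, mul_mem (hyS a (Finset.mem_insert_self _ _))
      (hyS b (Finset.mem_insert_of_mem (Finset.mem_singleton_self _)))⟩
  add_mem' := by
    classical
    intro a b ha hb
    obtain ⟨y, hy, hyS⟩ := InTB.fin hp hx {a, b} (by
      intro s hs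
      rcases Finset.mem_insert.1 hs with rfl | hs
      · exact ha
      · rw [Finset.mem_singleton.1 hs]
        exact hb)
    exact ⟨y, hy, add_mem (hyS a (Finset.mem_insert_self _ _))
      (hyS b (Finset.mem_insert_of_mem (Finset.mem_singleton_self _)))⟩
  algebraMap_mem' := fun c => by
    refine ⟨x, ⟨1, ?_, pow_one x⟩, IntermediateField.algebraMap_mem _ c⟩
    intro hd
    exact hp.one_lt.ne' (Nat.dvd_one.1 hd)
  inv_mem' := fun a ha => by
    obtain ⟨y, hy, hya⟩ := ha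
    exact ⟨y, hy, inv_mem hya⟩

theorem mem_tb (hx : x ≠ 0) {g : Ω} : g ∈ tb hp v k hx ↔ InTB p v k x g := Iff.rfl

theorem cadj_le_tb (hx : x ≠ 0) {y : Ω} (hy : ∃ n : ℕ, ¬ p ∣ n ∧ y ^ n = x) :
    cadj v (⊥ : IntermediateField k Ω) y ≤ tb hp v k hx := fun _ hg => ⟨y, hy, hg⟩

theorem self_le_tb (hx : x ≠ 0) : cadj v (⊥ : IntermediateField k Ω) x ≤ tb hp v k hx :=
  cadj_le_tb hp hx ⟨1, fun hd => hp.one_lt.ne' (Nat.dvd_one.1 hd), pow_one x⟩

omit [IsAlgClosed Ω] in
theorem root_val {y : Ω} {n : ℕ} (_hp : p.Prime) (hn : ¬ p ∣ n) (hyn : y ^ n = x) (hx : x ≠ 0)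
    (hxv : v x ≠ 0) : 0 < n ∧ y ≠ 0 ∧ v x = n * v y ∧ v y ≠ 0 := by
  have hn0 : 0 < n := Nat.pos_of_ne_zero fun h0 => hn (h0 ▸ dvd_zero p)
  have hy0 : y ≠ 0 := by
    rintro rfl
    rw [zero_pow hn0.ne'] at hyn
    exact hx hyn.symm
  have h1 : v x = n * v y := by rw [← hyn, v.map_pow hy0]
  refine ⟨hn0, hy0, h1, fun h0 => hxv ?_⟩
  rw [h1, h0, mul_zero]

/-- The tame base is good. -/
theorem tb_good [CharP k p] (h : Ctx0 k v) (hx : x ≠ 0) (hxv : v x ≠ 0) :
    Good p v (tb hp v k hx) where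
  hen := by
    classical
    refine le_antisymm ?_ (le_hen _)
    intro g hg
    obtain ⟨hgcl, hgs⟩ := mem_hen.1 hg
    set N := tb hp v k hx with hN
    -- the coefficients of the minimal polynomial
    obtain ⟨y, hy, hyS⟩ := InTB.fin (v := v) (k := k) hp hx
      ((Finset.range ((minpoly N g).natDegree + 1)).image fun i => (((minpoly N g).coeff i : N) : Ω))
      (by
        intro s hs
        obtain ⟨i, -, rfl⟩ := Finset.mem_image.1 hs
        exact ((minpoly N g).coeff i).2)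
    set A := cadj v (⊥ : IntermediateField k Ω) y with hA
    have hAN : A ≤ N := cadj_le_tb hp hx hy
    have hgA : IsSeparable A g := by
      have h2 : minpoly N g ∈ lifts (IntermediateField.inclusion hAN).toRingHom := by
        rw [lifts_iff_coeff_lifts]
        intro i
        by_cases hi : i ≤ (minpoly N g).natDegree
        · refine ⟨⟨(((minpoly N g).coeff i : N) : Ω), hyS _ ?_⟩, Subtype.ext rfl⟩
          refine Finset.mem_image.2 ⟨i, ?_, rfl⟩
          rw [Finset.mem_range]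
          omega
        · rw [coeff_eq_zero_of_natDegree_lt (by omega)]
          exact ⟨0, map_zero _⟩
      obtain ⟨Q, hQ, -, hQm⟩ := lifts_and_natDegree_eq_and_monic h2 (minpoly.monic hgs.isIntegral)
      have h3 : aeval g Q = 0 := by
        have h4 : aeval g (Q.map (IntermediateField.inclusion hAN).toRingHom) = 0 := by
          rw [hQ, minpoly.aeval]
        rw [aeval_def, eval₂_map] at h4
        exact h4
      have h4 : Q.Separable := by
        have h5 : (minpoly N g).Separable := hgs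
        rw [← hQ, separable_map] at h5
        exact h5
      exact h4.of_dvd (minpoly.dvd A g h3)
    -- a bound for the distances of the conjugates
    set R : Finset Ω := ((minpoly A g).map (algebraMap A Ω)).roots.toFinset with hR
    obtain ⟨c, hc⟩ : ∃ c : ℝ, ∀ r ∈ R, v (g - r) < c := by
      refine ⟨∑ r ∈ R, |v (g - r)| + 1, fun r hr => ?_⟩
      have h1 : |v (g - r)| ≤ ∑ r ∈ R, |v (g - r)| :=
        Finset.single_le_sum (f := fun r => |v (g - r)|) (fun _ _ => abs_nonneg _) hr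
      linarith [le_abs_self (v (g - r))]
    obtain ⟨b, hb, hbg⟩ := hgcl c
    obtain ⟨z, hz, hbz⟩ : InTB p v k x b := hb
    obtain ⟨w, hw, h1, h2⟩ := tb_dir (v := v) (k := k) hp hx hy hz
    set A' := cadj v (⊥ : IntermediateField k Ω) w with hA'
    have hgA' : IsSeparable A' g := isSeparable_mono h1 hgA
    have h3 : g ∈ hen v (adj A' b) := by
      refine krasner h (hen_cadj _ _) hgA' fun a' ha' hne hgb => ?_
      have h4 : aeval a' (minpoly A g) = 0 := aeval_minpoly_mono h1 ha'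
      have h5 : a' ∈ R := by
        rw [hR, Multiset.mem_toFinset, mem_roots']
        refine ⟨?_, ?_⟩
        · exact (minpoly.monic hgA.isIntegral).map (algebraMap A Ω) |>.ne_zero
        · rw [IsRoot.def, eval_map_algebraMap, h4]
      exact (hc a' h5).trans_le (hbg (sub_ne_zero.2 hgb))
    have h4 : hen v (adj A' b) ≤ A' := hen_le (hen_cadj _ _) (adj_le le_rfl (h2 hbz))
    exact ⟨w, hw, h4 h3⟩
  ld := by
    intro S hS
    obtain ⟨y, ⟨n, hn, hyn⟩, hyS⟩ := InTB.fin (v := v) (k := k) hp hx S hS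
    obtain ⟨hn0, hy0, hxy, hyv⟩ := root_val (v := v) hp hn hyn hx hxv
    refine ⟨cadj v ⊥ y, cadj_le_tb hp hx ⟨n, hn, hyn⟩, hyS, ?_⟩
    have hyA : y ∈ cadj v (⊥ : IntermediateField k Ω) y := le_clI _ (mem_adj_self _ y).1
    rcases lt_or_gt_of_ne hyv with hlt | hgt
    · refine ⟨y⁻¹, inv_mem hyA, inv_ne_zero hy0, by rw [v.map_inv hy0]; linarith, ?_⟩
      intro g hg hg0
      obtain ⟨m, hm⟩ := val_cadj_bot h hy0 hyv hg hg0
      refine ⟨-m, ?_⟩
      rw [v.map_inv hy0, hm]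
      push_cast
      ring
    · refine ⟨y, hyA, hy0, hgt, ?_⟩
      intro g hg hg0
      exact val_cadj_bot h hy0 hyv hg hg0
  nd := by
    refine ⟨x, self_le_tb hp hx (le_clI _ (mem_adj_self _ x).1), hx, ?_⟩
    rintro g ⟨y, ⟨n, hn, hyn⟩, hg⟩ hg0 hgv
    obtain ⟨hn0, hy0, hxy, hyv⟩ := root_val (v := v) hp hn hyn hx hxv
    obtain ⟨m, hm⟩ := val_cadj_bot h hy0 hyv hg hg0
    rw [hm, hxy, ← mul_assoc] at hgv
    have h1 := mul_right_cancel₀ hyv hgv
    have h2 : (n : ℤ) = p * m := by exact_mod_cast h1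
    exact hn (Int.natCast_dvd_natCast.1 ⟨m, h2⟩)
  pv := by
    intro g hg hg0
    obtain ⟨f, hf0, m, hm0, hm⟩ := LU1.comm_value (v := v) (tb hp v k hx) g hg0 hg
    obtain ⟨y, ⟨n, hn, hyn⟩, hfy⟩ : InTB p v k x f := f.2
    obtain ⟨hn0, hy0, hxy, hyv⟩ := root_val (v := v) hp hn hyn hx hxv
    obtain ⟨l, hl⟩ := val_cadj_bot h hy0 hyv hfy hf0
    obtain ⟨j, m', hm', hmm⟩ := Nat.exists_eq_pow_mul_and_not_dvd hm0.ne' p hp.ne_one
    have hm'0 : 0 < m' := Nat.pos_of_ne_zero fun h0 => hm' (h0 ▸ dvd_zero p)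
    obtain ⟨z, hz⟩ := IsAlgClosed.exists_pow_nat_eq y hm'0
    have hzx : z ^ (m' * n) = x := by rw [pow_mul, hz, hyn]
    have hmn : ¬ p ∣ m' * n := fun hd => by
      rcases hp.dvd_mul.1 hd with h1 | h1
      · exact hm' h1
      · exact hn h1
    obtain ⟨-, hz0, -, -⟩ := root_val (v := v) hp hmn hzx hx hxv
    have hvz : v y = m' * v z := by rw [← hz, v.map_pow hz0]
    refine ⟨j, z ^ l, zpow_mem (cadj_le_tb hp hx ⟨m' * n, hmn, hzx⟩
      (le_clI _ (mem_adj_self _ z).1)) l, zpow_ne_zero _ hz0, ?_⟩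
    rw [v.map_zpow hz0]
    have h1 : (m' : ℝ) ≠ 0 := by exact_mod_cast hm'0.ne'
    have h2 : (m' : ℝ) * (l * v z) = m' * ((p : ℝ) ^ j * v g) := by
      have h3 : (m : ℝ) = (p : ℝ) ^ j * m' := by rw [hmm]; push_cast; ring
      calc (m' : ℝ) * (l * v z) = l * (m' * v z) := by ring
        _ = l * v y := by rw [hvz]
        _ = m * v g := by rw [← hl, hm]
        _ = m' * ((p : ℝ) ^ j * v g) := by rw [h3]; ring
    exact mul_left_cancel₀ h1 h2

end

/-! ## The tower in a field of countable type -/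

/-- In a subfield `W` of a closure of countable type there is a sequence of elements separable over
`N` such that all the elements of `W` separable over `N` are in the closure of the field generated. -/
theorem exists_sep_seq (h : Ctx0 k v) {K N W : IntermediateField k Ω} {S : Set Ω}
    (hS : S.Countable) (hK : K ≤ IntermediateField.adjoin k S) (hW : W ≤ clI v K) :
    ∃ s : ℕ → Ω, (∀ n, IsSeparable N (s n)) ∧ (∀ n, s n ∈ W) ∧
      ∀ M : IntermediateField k Ω, (∀ n, s n ∈ M) → ∀ w ∈ W, IsSeparable N w → w ∈ clI v M := by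
  classical
  let V : Submodule k Ω :=
    Subalgebra.toSubmodule (W.toSubalgebra ⊓ ((separableClosure N Ω).restrictScalars k).toSubalgebra)
  have hVm : ∀ w : Ω, w ∈ V ↔ w ∈ W ∧ IsSeparable N w := by
    intro w
    show w ∈ W ∧ w ∈ separableClosure N Ω ↔ _
    rw [mem_separableClosure_iff]
  obtain ⟨T, hTc, hTV, hT⟩ := exists_cnt h hS hK V fun w hw => hW ((hVm w).1 hw).1
  have h0V : (0 : Ω) ∈ V := V.zero_mem
  obtain ⟨s, hs⟩ : ∃ s : ℕ → Ω, insert (0 : Ω) T = Set.range s :=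
    (hTc.insert 0).exists_eq_range (Set.insert_nonempty _ _)
  have hsV : ∀ n, s n ∈ V := by
    intro n
    have h1 : s n ∈ insert (0 : Ω) T := by rw [hs]; exact ⟨n, rfl⟩
    rcases Set.mem_insert_iff.1 h1 with h2 | h2
    · rw [h2]
      exact h0V
    · exact hTV h2
  refine ⟨s, fun n => ((hVm _).1 (hsV n)).2, fun n => ((hVm _).1 (hsV n)).1, ?_⟩
  intro M hM w hw hws r
  obtain ⟨t, ht, htw⟩ := hT w ((hVm w).2 ⟨hw, hws⟩) r
  refine ⟨t, ?_, htw⟩
  have h1 : Submodule.span k T ≤ Subalgebra.toSubmodule M.toSubalgebra := by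
    rw [Submodule.span_le]
    intro x hx
    have h2 : x ∈ Set.range s := by
      rw [← hs]
      exact Set.mem_insert_of_mem _ hx
    obtain ⟨n, rfl⟩ := h2
    exact hM n
  exact h1 ht

/-- **The tower.** `N` good, `N ≤ W`, `W` in a closure of countable type: either finitely many reduced
steps, or an infinite sequence of reduced steps, reach a field with all the elements of `W` which are
separable over `N` in its closure. -/
theorem exists_tower [IsAlgClosed Ω] [IsAlgClosed k] (p : ℕ) (hp : p.Prime) [CharP k p]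
    (h : Ctx0 k v) {K N W : IntermediateField k Ω} (hN : Good p v N) {S : Set Ω}
    (hS : S.Countable) (hK : K ≤ IntermediateField.adjoin k S) (hW : W ≤ clI v K) (hNW : N ≤ W) :
    (∃ M : IntermediateField k Ω, Bet p v N W M ∧ (∀ w ∈ W, IsSeparable N w → w ∈ clI v M) ∧
      ∃ (m : ℕ) (E : ℕ → IntermediateField k Ω) (θ : ℕ → Ω), E 0 = N ∧ E m = M ∧
        ∀ i < m, RStep p v (E i) (θ i) (E (i + 1))) ∨
    ∃ (M : ℕ → IntermediateField k Ω) (θ : ℕ → Ω), M 0 = N ∧ (∀ i, Bet p v N W (M i)) ∧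
      (∀ i, RStep p v (M i) (θ i) (M (i + 1))) ∧
      ∀ w ∈ W, IsSeparable N w → w ∈ clI v (⨆ i, M i) := by
  obtain ⟨s, hsN, hsW, hs⟩ := exists_sep_seq (N := N) h hS hK hW
  rcases exists_seq_inf p hp h hN hNW hsN hsW with ⟨M, hM, hall, hE⟩ | ⟨M, θ, h0, hB, hst, hall⟩
  · exact Or.inl ⟨M, hM, fun w hw hws => hs M hall w hw hws, hE⟩
  · refine Or.inr ⟨M, θ, h0, hB, hst, fun w hw hws => hs _ (fun n => ?_) w hw hws⟩
    obtain ⟨i, hi⟩ := hall n
    exact (le_iSup M i) hi

end Pool.Agent.TWCT
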