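import Pool.Agent.Lib.TWX.Ext
import Pool.Agent.Lib.TWM.S3a
import Pool.Agent.Lib.TWC.JD

/-!
# TANK W, contact (III.1): strict motions

`StrM v Φ A d`: the embedding `Φ` moves every element of `A` by a relative amount of value at
least `d`.
-/

set_option autoImplicit false

open Polynomial

namespace Pool.Agent.TWCT

open Pool.Agent.H15JM (RVal)
open Pool.Agent.LU1 (VPos adj)
open Pool.Agent.LUC (Cl)
open Pool.Agent.D2 (Ctx0)
open Pool.Agent.D2P (hen clI mem_clI)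
open Pool.Agent.TWM
open Pool.Agent.TWS

universe u

variable {k Ω : Type u} [Field k] [Field Ω] [Algebra k Ω] {v : RVal Ω} {Φ Ψ : Ω →ₐ[k] Ω}
  {A B : IntermediateField k Ω} {d d' : ℝ}

/-- `Φ` moves the elements of `A` by a relative amount of value at least `d`. -/
def StrM (v : RVal Ω) (Φ : Ω →ₐ[k] Ω) (A : IntermediateField k Ω) (d : ℝ) : Prop :=
  ∀ a ∈ A, ∀ r : ℝ, v.Ge r a → v.Ge (r + d) (Φ a - a)

theorem StrM.mono (h : StrM v Φ A d) (hd : d' ≤ d) : StrM v Φ A d' := fun a ha r hr =>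
  (h a ha r hr).mono (by linarith)

theorem StrM.le (h : StrM v Φ A d) (hB : B ≤ A) : StrM v Φ B d := fun a ha => h a (hB ha)

theorem StrM.self (h : StrM v Φ A d) {a : Ω} (ha : a ∈ A) : v.Ge (v a + d) (Φ a - a) :=
  h a ha _ (RVal.ge_self a)

theorem strM_of_val (h : ∀ a ∈ A, v.Ge (v a + d) (Φ a - a)) : StrM v Φ A d := by
  intro a ha r hr
  by_cases ha0 : a = 0
  · rw [ha0, map_zero, sub_zero]
    exact RVal.Ge.zero
  · exact (h a ha).mono (by linarith [hr ha0])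

/-- The elements fixed by `Φ`. -/
theorem StrM.of_fix (h : ∀ a ∈ A, Φ a = a) : StrM v Φ A d := fun a ha r _ => by
  rw [h a ha, sub_self]
  exact RVal.Ge.zero

theorem StrM.comp (hΦ : IsoE v v Φ) (h : StrM v Φ A d) (h' : StrM v Ψ A d) :
    StrM v (Φ.comp Ψ) A d := by
  intro a ha r hr
  have h1 : (Φ.comp Ψ) a - a = Φ (Ψ a - a) + (Φ a - a) := by
    rw [AlgHom.comp_apply, map_sub]
    ring
  rw [h1]
  exact (hΦ.ge_iff.2 (h' a ha r hr)).add (h a ha r hr)

/-- Quotients. -/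
theorem StrM.div_aux (hΦ : IsoE v v Φ) (hd : 0 ≤ d) {a b : Ω} (hb : b ≠ 0)
    (h1 : v.Ge (v a + d) (Φ a - a)) (h2 : v.Ge (v b + d) (Φ b - b)) :
    v.Ge (v (a / b) + d) (Φ (a / b) - a / b) := by
  by_cases ha : a = 0
  · rw [ha, zero_div, map_zero, sub_zero]
    exact RVal.Ge.zero
  have hb' : Φ b ≠ 0 := IsoE.ne_zero hb
  have e1 : Φ (a / b) - a / b = ((Φ a - a) * b - a * (Φ b - b)) / (b * Φ b) := by
    rw [map_div₀]
    field_simp
    ring
  have e2 : v.Ge (v a + v b + d) ((Φ a - a) * b - a * (Φ b - b)) := by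
    refine RVal.Ge.sub ?_ ?_
    · have := h1.mul (RVal.ge_self b)
      exact this.mono (by linarith)
    · have := (RVal.ge_self (v := v) a).mul h2
      exact this.mono (by linarith)
  rw [e1]
  intro h3
  have h4 : (Φ a - a) * b - a * (Φ b - b) ≠ 0 := fun h0 => h3 (by rw [h0, zero_div])
  rw [v.map_div h4 (mul_ne_zero hb hb'), v.map_mul hb hb', hΦ.val b hb, v.map_div ha hb]
  have := e2 h4
  linarith

/-- The closure. -/
theorem StrM.clI (hΦ : IsoE v v Φ) (h : StrM v Φ A d) : StrM v Φ (clI v A) d := by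
  intro a ha r hr
  obtain ⟨a₀, h0, h1⟩ := (mem_clI.1 ha) (r + |d|)
  have h1' : v.Ge (r + |d|) (a - a₀) := h1
  have h2 : v.Ge r a₀ := by
    have h3 : a₀ = a - (a - a₀) := by ring
    rw [h3]
    exact hr.sub (h1'.mono (by linarith [abs_nonneg d]))
  have h4 : Φ a - a = (Φ a₀ - a₀) + (Φ (a - a₀) - (a - a₀)) := by
    rw [map_sub]
    ring
  rw [h4]
  refine (h a₀ h0 r h2).add (RVal.Ge.sub (hΦ.ge_iff.2 h1') h1' |>.mono ?_)
  linarith [le_abs_self d]

/-- The field generated by `z`, from the polynomials. -/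
theorem strM_adj (hΦ : IsoE v v Φ) (hd : 0 ≤ d) {z : Ω}
    (h : ∀ f ∈ PI A, v.Ge (v (f.eval z) + d) (Φ (f.eval z) - f.eval z)) :
    StrM v Φ (adj A z) d := by
  refine strM_of_val fun a ha => ?_
  obtain ⟨f, hf, g, hg, hg0, h1⟩ := TWC.exists_frac ha
  have h2 : a = f.eval z / g.eval z := by rw [← h1, mul_div_assoc, div_self hg0, mul_one]
  rw [h2]
  exact StrM.div_aux hΦ hd hg0 (h f hf) (h g hg)

/-- The closed field generated by `z`, from the polynomials. -/
theorem strM_cadj (hΦ : IsoE v v Φ) (hd : 0 ≤ d) {z : Ω}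
    (h : ∀ f ∈ PI A, v.Ge (v (f.eval z) + d) (Φ (f.eval z) - f.eval z)) :
    StrM v Φ (cadj v A z) d := (strM_adj hΦ hd h).clI hΦ

end Pool.Agent.TWCT
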