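import Pool.Agent.Lib.TWCT.ConS
import Pool.Agent.Lib.TWS7.UnhitE
import Pool.Agent.Lib.TWN1.GabF

/-!
# TANK W, contact (III.1): the exit if the top floor is not hit

* `jets_of_not_hit`: the jets of index divisible by `p` of a critical element are null;
* `unh_of_not_hit`, `hrone_of_unh`: `Unh` (of `TWN1/GabF`), and the exit.
-/

set_option autoImplicit false

open Polynomial Finset

namespace Pool.Agent.TWCT

open Pool.Agent.H15JM (RVal)
open Pool.Agent.LU1 (VPos adj)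
open Pool.Agent.D2 (Ctx0)
open Pool.Agent.D2P (hen clI mem_clI)
open Pool.Agent.TWM
open Pool.Agent.TWII (PG LP)
open Pool.Agent.TWN1 (PC Col col)
open Pool.Agent.TW (Ctx Full BD HRone LU)

universe u

variable {k Ω : Type u} [Field k] [Field Ω] [Algebra k Ω] {v : RVal Ω}
  {p : ℕ} [hp : Fact p.Prime] [CharP Ω p] {F : IntermediateField k Ω} {y : Ω} {ρ ν : ℝ}

/-- **The jets of a floor which is not hit are null.** -/
theorem jets_of_not_hit [IsAlgClosed Ω] {f : Polynomial Ω} (hy : TL v F y ρ) (hf : f ∈ PI F)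
    (hlim : LP p v (cadj v F y) ν (f.eval y)) (h : ¬ Hit p v F y ρ) (l : ℕ) (hpl : p ∣ l)
    (hl : l ≠ 0) : PG p v (cadj v F y) (ν - l * ρ) ((taylor y f).coeff l) := by
  classical
  by_contra hno
  obtain ⟨m, s, e, a₀, A, hm, he, ha₀, hA, hev, hAl, hAs, hpg, -⟩ :=
    TWII.soc p hy hf hlim ⟨l, hpl, hl, hno⟩
  apply h
  set β : ℕ → Ω := fun j => if j = 0 then e else A (j - 1) with hβ
  have h0 : β 0 = e := rfl
  have hs : ∀ i, β (i + 1) = A i := fun i => by
    rw [hβ]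
    simp only [Nat.succ_ne_zero, if_false, Nat.add_sub_cancel]
  have hcol : Col p v F (ν - m * ρ) ρ β := by
    refine ⟨fun j => ?_, ?_, fun j hj => ?_⟩
    · rcases j with _ | i
      · exact he
      · rw [hs]
        exact hA i
    · rw [h0]
      exact hev
    · obtain ⟨i, rfl⟩ : ∃ i, j = i + 1 := ⟨j - 1, by omega⟩
      rw [hs]
      have h1 := hAl i
      push_cast at h1
      exact h1
  refine ⟨ν - m * ρ, a₀, β, s + 1, s + 1, ha₀, hcol, ?_, Nat.succ_ne_zero s, le_rfl, ?_⟩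
  · have h1 := LP.jet p hy hf hlim hm
    rw [taylor_coeff] at h1
    have h2 := h1.sub (LP.of_pg hpg)
    have e1 : (hasseDeriv m f).eval y - ((hasseDeriv m f).eval y -
        (a₀ + e * y + ∑ i ∈ Finset.range (s + 1), A i * y ^ p ^ (i + 1))) = a₀ + col p β y (s + 1) := by
      rw [col, sum_range_succ' (fun j => β j * y ^ p ^ j) (s + 1), h0, pow_zero, pow_one]
      simp only [hs]
      ring
    rwa [e1] at h2
  · intro h1
    apply hAs
    have h2 := TWN1.PG.of_le' (le_cadj v F y) h1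
    rw [hs] at h2
    push_cast
    exact h2

theorem unh_of_not_hit [IsAlgClosed Ω] {a : Ω} (hy : TL v F y ρ) (ha : a ∈ cadj v F y)
    (hlim : LP p v (cadj v F y) ν a) (h : ¬ Hit p v F y ρ) :
    TWN1.Unh p v F (cadj v F y) y ρ ν a := by
  obtain ⟨f, hf, h4⟩ := hy.dense ha (ν + 1)
  have h5 : Gt v ν (a - f.eval y) := Gt.of_ge h4 (by linarith)
  have h6 : LP p v (cadj v F y) ν (f.eval y) := by
    intro ε hε
    obtain ⟨g, hg, h7⟩ := hlim ε hε
    refine ⟨g, hg, ?_⟩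
    have e : f.eval y - g ^ p = (a - g ^ p) - (a - f.eval y) := by ring
    rw [e]
    exact h7.sub (h4.mono (by linarith))
  refine ⟨f, hf, ⟨0, zero_mem _, ?_⟩, fun l hpl hl => jets_of_not_hit hy hf h6 h l hpl hl⟩
  rw [zero_pow hp.out.ne_zero, sub_zero]
  exact h5

/-- **The exit.** -/
theorem hrone_of_unh [IsAlgClosed k] [IsAlgClosed Ω] [CharP k p] {r D : ℕ} (h : Ctx k v r)
    (hcv : CompleteV v) (h2 : 2 ≤ r + D)
    (hLU : ∀ E : IntermediateField k Ω, E.FG → Full v E → Algebra.trdeg k E = (r + D : ℕ) →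
      BD p v E → LU p v r E)
    {K₀ : IntermediateField k Ω} (hK : K₀.FG) (hKf : Full v K₀)
    (htr : Algebra.trdeg k K₀ = (r + D + 1 : ℕ)) (hBDK : BD p v K₀) {al : Ω}
    (hal : al ^ p ∈ K₀) (hBD : BD p v (adj K₀ al)) {B : IntermediateField k Ω}
    (hBf : Full v B) (hBt : Algebra.trdeg k B = (r + D : ℕ)) {s : ℝ}
    (hy : TL v (clI v B) y s) (hcl : clI v K₀ = cadj v (clI v B) y)
    (hlev : ∀ g ∈ clI v K₀, ¬ Gt v ν (al ^ p - g ^ p))
    (hunh : TWN1.Unh p v (clI v B) (clI v K₀) y s ν (al ^ p)) : HRone v (adj K₀ al) := by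
  obtain ⟨f, hf, ⟨g, hg, h5⟩, hjet⟩ := hunh
  refine TWS7.nohit_union p h hcv h2 hLU hK hKf htr hBDK hal hBD hBf hBt hy hcl hf
    (g := g) hg (by rw [sub_right_comm]; exact h5) (fun l hpl hl => ?_) hlev
  obtain ⟨w, hw, h7⟩ := hjet l hpl hl
  exact ⟨w, hw, h7⟩

end Pool.Agent.TWCT
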