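import Pool.Agent.Lib.TWCT.TamP
import Pool.Agent.Lib.TWEX.Opn

/-!
# TANK W, contact (III.1): the tame closure of a finitely generated field

`K = clI K₀`, `K₀` finitely generated with bounded distortion. If the tame closure of `K` is the
closure of a directed union of closed fields which contain the roots, it is one of them.
-/

set_option autoImplicit false

open Polynomial

namespace Pool.Agent.TWCT

open Pool.Agent.H15JM (RVal)
open Pool.Agent.LU1 (VPos adj)
open Pool.Agent.D2 (Ctx0)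
open Pool.Agent.D2P (hen clI mem_clI mem_adj_self adj_le)
open Pool.Agent.TW (BD)
open Pool.Agent.TWM
open Pool.Agent.TWTam

universe u

variable {k Ω : Type u} [Field k] [Field Ω] [Algebra k Ω] {v : RVal Ω}
  {K K₀ : IntermediateField k Ω} {p : ℕ} {x : Ω}

/-- **Openness**: all elements of the tame closure are near to elements of `M`. -/
theorem tam_near [hp : Fact p.Prime] [CharP Ω p] [CharP k p] [IsAlgClosed k] (h0 : Ctx0 k v)
    {m : ℕ} {g : Fin m → Ω} (hBD : BD p v (IntermediateField.adjoin k (Set.range g)))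
    (hK : TamB p v x (clI v (IntermediateField.adjoin k (Set.range g)))) :
    ∃ δ : ℝ, ∀ M : IntermediateField k Ω, Cld v M →
      M ≤ tam p v x (clI v (IntermediateField.adjoin k (Set.range g))) → TR p x ⊆ M →
      (∃ t : Fin m → Ω, (∀ i, t i ∈ M) ∧ ∀ i, v.Ge δ (g i - t i)) →
      tam p v x (clI v (IntermediateField.adjoin k (Set.range g))) = M := by
  classical
  set K := clI v (IntermediateField.adjoin k (Set.range g)) with hKdef
  obtain ⟨δ, hδ⟩ := TWEX.near_all h0 hBD 1
  refine ⟨δ, fun M hMc hMK hTR ⟨t, htM, ht⟩ => ?_⟩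
  have hkt : TW.kr k t ≤ M := by
    rw [TW.kr, IntermediateField.adjoin_le_iff]
    rintro _ ⟨i, rfl⟩
    exact htM i
  -- approximation on `K`
  have hnear : ∀ f ∈ K, f ≠ 0 → ∃ c ∈ M, v.Ge (v f + 1) (f - c) := by
    intro f hf hf0
    obtain ⟨f', hf', h1⟩ := mem_clI.1 hf (v f + 1)
    have h2 : Gt v (v f) (f - f') := Gt.of_ge h1 (by linarith)
    obtain ⟨hf'0, hvf⟩ := h2.val_eq hf0
    obtain ⟨c, hc, hfc⟩ := hδ t ht f' hf'
    refine ⟨c, hkt hc, ?_⟩
    have e : f - c = (f - f') + (f' - c) := by ring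
    rw [e]
    refine h1.add ?_
    rw [← hvf]
    exact hfc.2
  refine engineF (R₀ := ((K ⊔ IntermediateField.adjoin k (TR p x) : IntermediateField k Ω) : Set Ω))
    (c := 1) hMK hMc (fun b hb B => mem_clI.1 hb B) one_pos ?_
  intro b hb hb0
  obtain ⟨a, ha, h1⟩ := exists_dec hK.pr hK.ne hK.mem hK.root (K := K) hb
  obtain ⟨s, f, h2, h3, h4, h5⟩ := exists_rep hK.pr hK.ne hK.root h1
  have h1s : (1 : Ω) ∉ s := fun h0 => (h2 1 h0).2 (InV.of_mem one_ne_zero (one_mem _))
  have hne' : ∀ w ∈ s, w ≠ (1 : Ω) := fun w hw h0 => h1s (by rw [← h0]; exact hw)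
  set F : Ω → Ω := Function.update f 1 a with hF
  have hFs : ∀ w ∈ s, F w = f w := fun w hw => by
    rw [hF, Function.update_of_ne (hne' w hw)]
  have hF1 : F 1 = a := by rw [hF, Function.update_self]
  have hFK : ∀ w ∈ insert 1 s, F w ∈ K := by
    intro w hw
    rcases Finset.mem_insert.1 hw with rfl | hw
    · rw [hF1]
      exact ha
    · rw [hFs w hw]
      exact h4 w hw
  have hTRs : ∀ w ∈ insert 1 s, w ∈ TR p x := by
    intro w hw
    rcases Finset.mem_insert.1 hw with rfl | hw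
    · exact one_mem_tr hK.pr
    · exact (h2 w hw).1
  have hsum : b = ∑ w ∈ insert 1 s, F w * w := by
    rw [Finset.sum_insert h1s, hF1, mul_one]
    have e : ∑ w ∈ s, F w * w = ∑ w ∈ s, f w * w :=
      Finset.sum_congr rfl fun w hw => by rw [hFs w hw]
    rw [e, ← h5]
    ring
  have key := orth_fin (K := K) (v := v) (insert 1 s) F (r := v b) ?_ ?_ hFK (by
    rw [← hsum]
    exact RVal.ge_self b)
  · have h6 : ∀ w : Ω, ∃ c ∈ M, w ∈ insert 1 s → v.Ge (v b + 1) ((F w - c) * w) := by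
      intro w
      by_cases hw : w ∈ insert 1 s
      · by_cases hF0 : F w = 0
        · refine ⟨0, zero_mem _, fun _ => ?_⟩
          rw [hF0, sub_zero, zero_mul]
          exact RVal.Ge.zero
        · obtain ⟨c, hc, h7⟩ := hnear (F w) (hFK w hw) hF0
          refine ⟨c, hc, fun _ => ?_⟩
          have hw0 : w ≠ 0 := (hTRs w hw).1
          have h8 := key w hw (mul_ne_zero hF0 hw0)
          rw [v.map_mul hF0 hw0] at h8
          exact (h7.mul (RVal.ge_self w)).mono (by linarith)
      · exact ⟨0, zero_mem _, fun h => absurd h hw⟩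
    choose c hc h7 using h6
    refine ⟨∑ w ∈ insert 1 s, c w * w, sum_mem fun w hw => mul_mem (hc w) (hTR (hTRs w hw)), ?_⟩
    nth_rewrite 2 [hsum]
    rw [← Finset.sum_sub_distrib]
    refine Finset.sum_induction _ (fun y => v.Ge (v b + 1) y) (fun _ _ h1 h2 => h1.add h2)
      RVal.Ge.zero fun w hw => ?_
    rw [← sub_mul]
    exact h7 w hw
  · intro w hw
    exact (hTRs w hw).1
  · intro w hw w' hw' hne
    rcases Finset.mem_insert.1 hw with rfl | hw
    · rcases Finset.mem_insert.1 hw' with rfl | hw'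
      · exact absurd rfl hne
      · intro h5
        refine (h2 w' hw').2 ?_
        rw [one_div] at h5
        have h6 := h5.inv (inv_ne_zero (h2 w' hw').1.1)
        rwa [inv_inv] at h6
    · rcases Finset.mem_insert.1 hw' with rfl | hw'
      · intro h5
        rw [div_one] at h5
        exact (h2 w hw).2 h5
      · exact h3 w hw w' hw' hne

/-- **The tame closure of a finitely generated field.** -/
theorem exists_le_tam [hp : Fact p.Prime] [CharP Ω p] [CharP k p] [IsAlgClosed k] (h0 : Ctx0 k v)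
    (hfg : K₀.FG) (hBD : BD p v K₀) (hK : TamB p v x (clI v K₀))
    {L : ℕ → IntermediateField k Ω} (hL : Monotone L) (hLc : ∀ J, Cld v (L J))
    (hLK : ∀ J, L J ≤ tam p v x (clI v K₀)) (hTR : TR p x ⊆ L 0)
    (hd : clI v K₀ ≤ clI v (⨆ J, L J)) : ∃ J₀, ∀ J, J₀ ≤ J → L J = tam p v x (clI v K₀) := by
  classical
  obtain ⟨S, hS⟩ := hfg
  obtain ⟨m, g, hg⟩ : ∃ (m : ℕ) (g : Fin m → Ω), Set.range g = (S : Set Ω) :=
    ⟨S.card, fun i => (S.equivFin.symm i : Ω), by
      ext y
      constructor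
      · rintro ⟨i, rfl⟩
        exact (S.equivFin.symm i).2
      · intro hy
        exact ⟨S.equivFin ⟨y, hy⟩, by simp⟩⟩
  have hK₀ : K₀ = IntermediateField.adjoin k (Set.range g) := by rw [hg, hS]
  subst hK₀
  obtain ⟨δ, hδ⟩ := tam_near h0 hBD hK
  have h1 : ∀ i, ∃ J, ∃ b ∈ L J, v.Ge δ (g i - b) := by
    intro i
    have h2 : g i ∈ clI v (⨆ J, L J) :=
      hd (le_clI _ (IntermediateField.subset_adjoin k _ ⟨i, rfl⟩))
    obtain ⟨b, hb, h3⟩ := mem_clI.1 h2 δ
    have hb' : b ∈ ((⨆ n, L n : IntermediateField k Ω) : Set Ω) := hb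
    rw [IntermediateField.coe_iSup_of_directed hL.directed_le, Set.mem_iUnion] at hb'
    obtain ⟨J, hJ⟩ := hb'
    exact ⟨J, b, hJ, h3⟩
  choose J b hb hgb using h1
  refine ⟨Finset.univ.sup J, fun J' hJ' => ?_⟩
  refine (hδ (L J') (hLc J') (hLK J') (hTR.trans (hL (Nat.zero_le J'))) ⟨b, fun i => ?_, hgb⟩).symm
  exact hL ((Finset.le_sup (Finset.mem_univ i)).trans hJ') (hb i)

end Pool.Agent.TWCT
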