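import Pool.Agent.Lib.TWCT.NoTie

/-!
# TANK W, contact (III.1): the residues of a null additive polynomial are finite in number
-/

set_option autoImplicit false

open Polynomial Finset

namespace Pool.Agent.TWCT

open Pool.Agent.H15JM (RVal)
open Pool.Agent.D2 (Ctx0)
open Pool.Agent.TWM
open Pool.Agent.TWII (PG LP)
open Pool.Agent.TWN1 (PC Col col)

universe u

variable {k Ω : Type u} [Field k] [Field Ω] [Algebra k Ω] {v : RVal Ω}
  {p : ℕ} [hp : Fact p.Prime] [CharP Ω p] {F : IntermediateField k Ω}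

omit hp [CharP Ω p] in
/-- Multiplication by a constant. -/
theorem pg_const [IsAlgClosed k] (hp0 : p ≠ 0) (hk : Ctx0 k v) {ν : ℝ} {x : Ω} (c : k)
    (hx : PG p v F ν x) : PG p v F ν (x * algebraMap k Ω c) := by
  obtain ⟨d, hd⟩ := IsAlgClosed.exists_pow_nat_eq c (Nat.pos_of_ne_zero hp0)
  rw [← hd, map_pow]
  have h1 : v.Ge 0 ((algebraMap k Ω d) ^ p) := by
    rw [← map_pow]
    exact hk.ge _
  have := hx.mul_pow (F.algebraMap_mem d) h1
  rwa [add_zero] at this

/-- **Finitely many residues.** -/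
theorem finite_res [IsAlgClosed k] (hk : Ctx0 k v) {ν : ℝ} {β : ℕ → Ω} {T : ℕ}
    (hT : ¬ PG p v F ν (β T)) :
    {c : k | PG p v F ν (∑ j ∈ range (T + 1), β j * algebraMap k Ω c ^ p ^ j)}.Finite := by
  classical
  by_contra hinf
  apply hT
  set n : ℕ := p ^ T + 1 with hn
  obtain ⟨S, hS, hcard⟩ := Set.Infinite.exists_subset_card_eq hinf n
  let e : Fin n ≃ S := (Finset.equivFinOfCardEq hcard).symm
  let c : Fin n → k := fun i => (e i : k)
  have hinj : Function.Injective c := fun i j h => e.injective (Subtype.ext h)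
  have hc : ∀ i, PG p v F ν (∑ j ∈ range (T + 1), β j * algebraMap k Ω (c i) ^ p ^ j) := fun i =>
    hS (e i).2
  have hdet : (Matrix.vandermonde c).det ≠ 0 := Matrix.det_vandermonde_ne_zero_iff.2 hinj
  have hinv : (Matrix.vandermonde c)⁻¹ * Matrix.vandermonde c = 1 :=
    Matrix.nonsing_inv_mul _ (isUnit_iff_ne_zero.2 hdet)
  let r0 : Fin n := ⟨p ^ T, by omega⟩
  set A : Fin n → k := fun i => (Matrix.vandermonde c)⁻¹ r0 i with hA
  have hrow : ∀ j ∈ range (T + 1), ∑ i, A i * c i ^ p ^ j = if j = T then 1 else 0 := by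
    intro j hj
    rw [mem_range] at hj
    have hpj : p ^ j < n := by
      have := Nat.pow_le_pow_right hp.out.pos (show j ≤ T by omega)
      omega
    have h1 := congrFun (congrFun hinv r0) ⟨p ^ j, hpj⟩
    rw [Matrix.mul_apply] at h1
    have h2 : ∑ i, A i * c i ^ p ^ j = ∑ i, (Matrix.vandermonde c)⁻¹ r0 i *
        Matrix.vandermonde c i ⟨p ^ j, hpj⟩ := rfl
    rw [h2, h1, Matrix.one_apply]
    by_cases hjT : j = T
    · rw [if_pos hjT, if_pos]
      refine Fin.ext ?_
      change p ^ T = p ^ j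
      rw [hjT]
    · rw [if_neg hjT, if_neg]
      intro h3
      exact hjT (Nat.pow_right_injective hp.out.two_le (congrArg Fin.val h3).symm)
  have hsum : ∑ i, (∑ j ∈ range (T + 1), β j * algebraMap k Ω (c i) ^ p ^ j) *
      algebraMap k Ω (A i) = β T := by
    have h1 : ∀ i : Fin n, (∑ j ∈ range (T + 1), β j * algebraMap k Ω (c i) ^ p ^ j) *
        algebraMap k Ω (A i) =
        ∑ j ∈ range (T + 1), β j * algebraMap k Ω (A i * c i ^ p ^ j) := by
      intro i
      rw [sum_mul]
      refine sum_congr rfl fun j _ => ?_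
      rw [map_mul, map_pow]
      ring
    rw [sum_congr rfl fun i _ => h1 i, sum_comm]
    have h2 : ∀ j ∈ range (T + 1), ∑ i : Fin n, β j * algebraMap k Ω (A i * c i ^ p ^ j) =
        β j * (if j = T then 1 else 0) := by
      intro j hj
      rw [← mul_sum, ← map_sum, hrow j hj]
      split_ifs
      · rw [map_one]
      · rw [map_zero]
    rw [sum_congr rfl h2, sum_eq_single T]
    · rw [if_pos rfl, mul_one]
    · intro j _ hj
      rw [if_neg hj, mul_zero]
    · intro h
      exact absurd (self_mem_range_succ T) h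
  rw [← hsum]
  exact PG.sum _ _ fun i _ => pg_const hp.out.ne_zero hk (A i) (hc i)

end Pool.Agent.TWCT
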