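import Pool.Agent.Lib.TWIV.EmbX
import Pool.Agent.Lib.TWS.MonE
import Pool.Agent.Lib.TWS.MonC
import Pool.Agent.Lib.TWCT.Defs

/-!
# TANK W, Gauss extensions by monomials: embeddings

`A ≤ Ω`, `M g`, `g ∈ G`, multiplicative monomials with `G ∩ v(A) = 0` (`Gx v A G M`).
* `Gx.exists_ext`: an isometric embedding `Φ` can be changed so that it is the same on `A` and
  maps the monomials `M g` to given monomials `M' g`;
* `Gx.strM`: if `Φ` moves the elements of `A` by the relative amount `d` and fixes the monomials,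
  then it moves the elements of `PM v A G M` by the relative amount `d`.
-/

set_option autoImplicit false

open Polynomial

namespace Pool.Agent.TWCT

open Pool.Agent.H15JM (RVal)
open Pool.Agent.LU1 (VPos adj)
open Pool.Agent.LUC (Cl)
open Pool.Agent.D2 (Ctx0)
open Pool.Agent.D2P (hen clI mem_clI)
open Pool.Agent.TWM
open Pool.Agent.TWS hiding VG
open Pool.Agent.TWIV (msHom exists_emb_from)
open IntermediateField (Lifts)

universe u

/-- The monomials are independent from the values of `A`. -/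
structure Gx {k Ω : Type u} [Field k] [Field Ω] [Algebra k Ω] (v : RVal Ω)
    (A : IntermediateField k Ω) (G : AddSubgroup ℝ) (M : ℝ → Ω) : Prop where
  ms : MS v G M
  ind : ∀ g ∈ G, g ∈ TWS.VG v A → g = 0

section Gx

variable {k Ω : Type u} [Field k] [Field Ω] [Algebra k Ω] {v : RVal Ω}
  {A B : IntermediateField k Ω} {G : AddSubgroup ℝ} {M : ℝ → Ω}

theorem Gx.mon (h : Gx v A G M) : MonG v A G M := ⟨h.ms, fun g hg hgA => by
  rw [h.ind g hg hgA, h.ms.zero]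
  exact one_mem _⟩

theorem Gx.imm (h : Gx v A G M) (hi : Imm v A B) : Gx v B G M :=
  ⟨h.ms, fun g hg hgB => h.ind g hg (by rwa [TWS.VG.imm hi] at hgB)⟩

theorem Gx.mono (h : Gx v B G M) (hAB : A ≤ B) : Gx v A G M :=
  ⟨h.ms, fun g hg hgA => h.ind g hg (TWS.VG.mono hAB hgA)⟩

theorem Gx.sub {G' : AddSubgroup ℝ} (h : Gx v A G M) (hG : G' ≤ G) : Gx v A G' M :=
  ⟨TWS.MS.mono h.ms hG, fun g hg hgA => h.ind g (hG hg) hgA⟩

theorem Gx.rep0 (h : Gx v A G M) : TWS.rep v A G 0 = 0 := by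
  have h1 := rep_sub (v := v) (A₀ := A) (G := G) 0
  rw [sub_zero] at h1
  exact h.ind _ h1.1 h1.2

theorem Gx.rep' (h : Gx v A G M) {g : ℝ} : TWS.rep v A G g = g := by
  have h1 := rep_sub (v := v) (A₀ := A) (G := G) g
  exact sub_eq_zero.1 (h.ind _ h1.1 h1.2)

/-- The sums. -/
theorem Gx.nf (h : Gx v A G M) {L : ℝ →₀ Ω} (h1 : ∀ g, L g ∈ B) (h2 : ∀ g, L g ≠ 0 → g ∈ G) :
    NF v A B G L := ⟨h1, fun g hg => ⟨h2 g hg, h.rep'⟩⟩

end Gx

/-! ### Embeddings -/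

section Emb

variable {k Ω H : Type u} [Field k] [Field Ω] [Algebra k Ω] [Field H] [Algebra k H]
  {v : RVal Ω} {w : RVal H} {A : IntermediateField k Ω} {G : AddSubgroup ℝ} {M : ℝ → Ω}
  {M' : ℝ → H}

/-- The sums of the monomials with coefficients in `A`. -/
noncomputable def evA (ψ : A →ₐ[k] H) (hM' : MS w G M') : AddMonoidAlgebra A G →ₐ[k] H :=
  AddMonoidAlgebra.liftNCAlgHom ψ (msHom hM') fun _ _ => Commute.all _ _

theorem evA_apply (ψ : A →ₐ[k] H) (hM' : MS w G M') (f : AddMonoidAlgebra A G) :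
    evA ψ hM' f = ∑ g ∈ f.coeff.support, ψ (f.coeff g) * M' (g : ℝ) := rfl

theorem evA_single (ψ : A →ₐ[k] H) (hM' : MS w G M') (g : G) (a : A) :
    evA ψ hM' (AddMonoidAlgebra.single g a) = ψ a * M' (g : ℝ) := by
  rw [evA]
  exact AddMonoidAlgebra.liftNC_single _ _ _ _

/-- The value of a sum. -/
theorem evA_val {ψ : A →ₐ[k] H} (hψ : ∀ a : A, a ≠ 0 → w (ψ a) = v (a : Ω)) (hM' : MS w G M')
    (hGA : ∀ g ∈ G, g ∈ TWS.VG v A → g = 0) {f : AddMonoidAlgebra A G} {g : G}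
    (hg : g ∈ f.coeff.support)
    (hmin : ∀ g' ∈ f.coeff.support, v (f.coeff g : Ω) + g ≤ v (f.coeff g' : Ω) + g') :
    evA ψ hM' f ≠ 0 ∧ w (evA ψ hM' f) = v (f.coeff g : Ω) + g := by
  classical
  have hv : ∀ a : A, a ≠ 0 → ∀ g : G, ψ a * M' (g : ℝ) ≠ 0 ∧
      w (ψ a * M' (g : ℝ)) = v (a : Ω) + g := by
    intro a ha g
    have h1 : ψ a ≠ 0 := by rwa [Ne, _root_.map_eq_zero]
    have h2 := hM'.ne _ g.2
    exact ⟨mul_ne_zero h1 h2, by rw [w.map_mul h1 h2, hψ a ha, hM'.val _ g.2]⟩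
  have hg0 : f.coeff g ≠ 0 := Finsupp.mem_support_iff.1 hg
  obtain ⟨h1, h2⟩ := hv _ hg0 g
  have h3 : Gt w (w (ψ (f.coeff g) * M' (g : ℝ))) (ψ (f.coeff g) * M' (g : ℝ) - evA ψ hM' f) := by
    have e : ψ (f.coeff g) * M' (g : ℝ) - evA ψ hM' f =
        -∑ g' ∈ f.coeff.support.erase g, ψ (f.coeff g') * M' (g' : ℝ) := by
      rw [evA_apply, ← Finset.add_sum_erase _ _ hg]
      ring
    rw [e]
    refine (Gt.sum _ _ fun g' hg' => ?_).neg
    have h4 := Finset.mem_of_mem_erase hg'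
    have hg'0 : f.coeff g' ≠ 0 := Finsupp.mem_support_iff.1 h4
    obtain ⟨-, h6⟩ := hv _ hg'0 g'
    intro _
    rw [h2, h6]
    refine lt_of_le_of_ne (hmin g' h4) fun h7 => ?_
    -- the values are different
    have h8 : ((g' : ℝ) - g) = 0 := by
      refine hGA _ (G.sub_mem g'.2 g.2) ?_
      have h9 : (g' : ℝ) - g = v (f.coeff g : Ω) - v (f.coeff g' : Ω) := by linarith
      rw [h9]
      refine (TWS.VG v A).sub_mem ⟨_, (f.coeff g).2, ?_, rfl⟩ ⟨_, (f.coeff g').2, ?_, rfl⟩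
      · exact fun h => hg0 (Subtype.ext h)
      · exact fun h => hg'0 (Subtype.ext h)
    exact Finset.ne_of_mem_erase hg' (Subtype.ext (sub_eq_zero.1 h8))
  obtain ⟨h4, h5⟩ := Gt.val_eq h1 h3
  exact ⟨h4, h5.trans h2⟩

theorem exists_evA {ψ : A →ₐ[k] H} (hψ : ∀ a : A, a ≠ 0 → w (ψ a) = v (a : Ω)) (hM : Gx v A G M)
    (hM' : MS w G M') {f : AddMonoidAlgebra A G} (hf : f ≠ 0) :
    evA A.val hM.ms f ≠ 0 ∧ evA ψ hM' f ≠ 0 ∧ w (evA ψ hM' f) = v (evA A.val hM.ms f) := by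
  classical
  have hne : f.coeff.support.Nonempty := by
    rw [Finsupp.support_nonempty_iff]
    exact fun h => hf (AddMonoidAlgebra.coeff_eq_zero.1 h)
  obtain ⟨g, hg, hmin⟩ := Finset.exists_min_image f.coeff.support
    (fun g => v (f.coeff g : Ω) + (g : ℝ)) hne
  obtain ⟨h1, h2⟩ := evA_val (v := v) (w := v) (ψ := A.val) (fun a _ => rfl) hM.ms hM.ind hg hmin
  obtain ⟨h3, h4⟩ := evA_val hψ hM' hM.ind hg hmin
  exact ⟨h1, h3, h4.trans h2.symm⟩

/-- **The lift on the field generated by the monomials.** -/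
theorem exists_base_A {ψ : A →ₐ[k] H} (hψ : ∀ a : A, a ≠ 0 → w (ψ a) = v (a : Ω))
    (hM : Gx v A G M) (hM' : MS w G M') :
    ∃ σ : Lifts k Ω H, IsoL v w σ ∧
      (∀ a : A, ∃ h : (a : Ω) ∈ σ.carrier, σ.emb ⟨a, h⟩ = ψ a) ∧
      ∀ g ∈ G, ∃ h : M g ∈ σ.carrier, σ.emb ⟨M g, h⟩ = M' g := by
  classical
  have hi : Function.Injective (evA A.val hM.ms) := by
    rw [injective_iff_map_eq_zero]
    intro f hf
    by_contra h0
    exact (exists_evA hψ hM hM' h0).1 hf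
  have hi' : Function.Injective (evA ψ hM') := by
    rw [injective_iff_map_eq_zero]
    intro f hf
    by_contra h0
    exact (exists_evA hψ hM hM' h0).2.1 hf
  have _ : IsDomain (AddMonoidAlgebra A G) :=
    Function.Injective.isDomain (evA A.val hM.ms).toRingHom hi
  let K := FractionRing (AddMonoidAlgebra A G)
  let φ : K →ₐ[k] Ω := IsFractionRing.liftAlgHom hi
  let φ' : K →ₐ[k] H := IsFractionRing.liftAlgHom hi'
  have hφ : ∀ r, φ (algebraMap (AddMonoidAlgebra A G) K r) = evA A.val hM.ms r := fun r =>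
    IsFractionRing.lift_algebraMap hi r
  have hφ' : ∀ r, φ' (algebraMap (AddMonoidAlgebra A G) K r) = evA ψ hM' r := fun r =>
    IsFractionRing.lift_algebraMap hi' r
  have hval : ∀ x : K, x ≠ 0 → w (φ' x) = v (φ x) := by
    intro x hx
    obtain ⟨r, s, hs, rfl⟩ := IsFractionRing.div_surjective (AddMonoidAlgebra A G) x
    have hs0 : s ≠ 0 := nonZeroDivisors.ne_zero hs
    have hr0 : r ≠ 0 := by
      rintro rfl
      rw [map_zero, zero_div] at hx
      exact hx rfl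
    obtain ⟨h1, h2, h3⟩ := exists_evA hψ hM hM' hr0
    obtain ⟨h4, h5, h6⟩ := exists_evA hψ hM hM' hs0
    rw [map_div₀, map_div₀, hφ, hφ, hφ', hφ', v.map_div h1 h4, w.map_div h2 h5, h3, h6]
  let e : K ≃ₐ[k] φ.fieldRange := AlgEquiv.ofInjectiveField φ
  have he : ∀ x : K, ((e x : φ.fieldRange) : Ω) = φ x := fun x => rfl
  have key : ∀ a : φ.fieldRange, a ≠ 0 → w (φ' (e.symm a)) = v (a : Ω) := by
    intro a ha
    obtain ⟨x, rfl⟩ := e.surjective a
    rw [e.symm_apply_apply, he]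
    exact hval x fun h => ha (by rw [h, map_zero])
  have key2 : ∀ (f : AddMonoidAlgebra A G), ∃ h : evA A.val hM.ms f ∈ φ.fieldRange,
      φ' (e.symm ⟨evA A.val hM.ms f, h⟩) = evA ψ hM' f := by
    intro f
    have h4 : evA A.val hM.ms f ∈ φ.fieldRange := by
      rw [← hφ]
      exact ⟨_, rfl⟩
    refine ⟨h4, ?_⟩
    have h5 : e.symm ⟨evA A.val hM.ms f, h4⟩ = algebraMap (AddMonoidAlgebra A G) K f := by
      rw [e.symm_apply_eq]
      exact Subtype.ext (hφ f).symm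
    rw [h5, hφ']
  refine ⟨⟨φ.fieldRange, φ'.comp e.symm.toAlgHom⟩, fun a ha => key a ha, fun a => ?_,
    fun g hg => ?_⟩
  · have h1 : evA A.val hM.ms (AddMonoidAlgebra.single (0 : G) a) = a := by
      rw [evA_single, ZeroMemClass.coe_zero, hM.ms.zero, mul_one]
      rfl
    have h2 : evA ψ hM' (AddMonoidAlgebra.single (0 : G) a) = ψ a := by
      rw [evA_single, ZeroMemClass.coe_zero, hM'.zero, mul_one]
    obtain ⟨h3, h4⟩ := key2 (AddMonoidAlgebra.single (0 : G) a)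
    rw [h2] at h4
    have h5 : (a : Ω) ∈ φ.fieldRange := h1 ▸ h3
    refine ⟨h5, ?_⟩
    refine Eq.trans ?_ h4
    change φ' (e.symm ⟨a, h5⟩) = _
    congr 3
    exact h1.symm
  · have h1 : evA A.val hM.ms (AddMonoidAlgebra.single (⟨g, hg⟩ : G) 1) = M g := by
      rw [evA_single, map_one, one_mul]
    have h2 : evA ψ hM' (AddMonoidAlgebra.single (⟨g, hg⟩ : G) 1) = M' g := by
      rw [evA_single, map_one, one_mul]
    obtain ⟨h3, h4⟩ := key2 (AddMonoidAlgebra.single (⟨g, hg⟩ : G) 1)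
    rw [h2] at h4
    have h5 : M g ∈ φ.fieldRange := h1 ▸ h3
    refine ⟨h5, ?_⟩
    refine Eq.trans ?_ h4
    change φ' (e.symm ⟨M g, h5⟩) = _
    congr 3
    exact h1.symm

/-- **The extension of an embedding.** -/
theorem Gx.exists_ext [IsAlgClosed Ω] [IsAlgClosed H] (hk : Ctx0 k v) (hw : SphC w)
    (hval : ∀ ρ : ℝ, ∃ x : H, x ≠ 0 ∧ w x = ρ) (hM : Gx v A G M) (hM' : MS w G M')
    {Φ : Ω →ₐ[k] H} (hΦ : IsoE v w Φ) :
    ∃ Φ' : Ω →ₐ[k] H, IsoE v w Φ' ∧ (∀ a ∈ A, Φ' a = Φ a) ∧ ∀ g ∈ G, Φ' (M g) = M' g := by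
  obtain ⟨σ, h1, h2, h3⟩ := exists_base_A (ψ := Φ.comp A.val)
    (fun a ha => hΦ.val _ fun h => ha (Subtype.ext h)) hM hM'
  obtain ⟨φ, h4, h5⟩ := exists_emb_from hk hw hval h1
  refine ⟨φ, h4, fun a ha => ?_, fun g hg => ?_⟩
  · obtain ⟨h6, h7⟩ := h2 ⟨a, ha⟩
    exact (h5 ⟨a, h6⟩).trans h7
  · obtain ⟨h6, h7⟩ := h3 g hg
    exact (h5 ⟨M g, h6⟩).trans h7

end Emb

/-! ### Strict motions -/

section Str

variable {k Ω : Type u} [Field k] [Field Ω] [Algebra k Ω] {v : RVal Ω}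
  {A₀ A B : IntermediateField k Ω} {G : AddSubgroup ℝ} {M : ℝ → Ω} {Φ : Ω →ₐ[k] Ω} {d : ℝ}

/-- **Strict motions.** -/
theorem strM_pm (hM : MonG v A₀ G M) (hi : Imm v A₀ A) (hΦ : IsoE v v Φ)
    (hfix : ∀ g ∈ G, Φ (M g) = M g) (h : StrM v Φ A d) : StrM v Φ (PM v A G M) d := by
  intro x hx r hr
  obtain ⟨L, hL, h1⟩ := dense_PM hM hi hx (r + |d|)
  have h2 : v.Ge r (evM M L) := by
    have h3 : evM M L = x - (x - evM M L) := by ring
    rw [h3]
    exact hr.sub (h1.mono (by linarith [abs_nonneg d]))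
  have h4 : Φ x - x = (Φ (evM M L) - evM M L) + (Φ (x - evM M L) - (x - evM M L)) := by
    rw [map_sub]
    ring
  have h5 : Φ (evM M L) - evM M L = ∑ g ∈ L.support, (Φ (L g) - L g) * M g := by
    rw [evM, Finsupp.sum, map_sum, ← Finset.sum_sub_distrib]
    refine Finset.sum_congr rfl fun g hg => ?_
    rw [map_mul, hfix g (hL.rep g (Finsupp.mem_support_iff.1 hg)).1]
    ring
  rw [h4]
  refine RVal.Ge.add ?_ (RVal.Ge.sub (hΦ.ge_iff.2 h1) h1 |>.mono (by linarith [le_abs_self d]))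
  rw [h5]
  refine RVal.Ge.sum _ _ fun g hg => ?_
  have hg0 := Finsupp.mem_support_iff.1 hg
  have hgG := (hL.rep g hg0).1
  have h6 : v.Ge (r - g) (L g) := by
    intro _
    have h7 := orth hM hi hL h2 g (mul_ne_zero hg0 (hM.ms.ne g hgG))
    rw [v.map_mul hg0 (hM.ms.ne g hgG), hM.ms.val g hgG] at h7
    linarith
  have h8 := (h (L g) (hL.mem g) _ h6).mul (RVal.ge_self (v := v) (M g))
  rw [hM.ms.val g hgG] at h8
  exact h8.mono (by linarith)

/-- The image of the field with the monomials. -/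
theorem map_pm (hΦ : IsoE v v Φ) (hfix : ∀ g ∈ G, Φ (M g) = M g) (h : ∀ a ∈ A, Φ a ∈ B) :
    ∀ x ∈ PM v A G M, Φ x ∈ PM v B G M := by
  intro x hx
  have h1 : A ⊔ IntermediateField.adjoin k (M '' (G : Set ℝ)) ≤
      (B ⊔ IntermediateField.adjoin k (M '' (G : Set ℝ))).comap Φ := by
    refine sup_le (fun a ha => (le_sup_left : B ≤ _) (h a ha)) ?_
    rw [IntermediateField.adjoin_le_iff]
    rintro _ ⟨g, hg, rfl⟩
    refine (le_sup_right : IntermediateField.adjoin k (M '' (G : Set ℝ)) ≤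
      B ⊔ IntermediateField.adjoin k (M '' (G : Set ℝ))) ?_
    change Φ (M g) ∈ _
    rw [hfix g hg]
    exact IntermediateField.subset_adjoin _ _ ⟨g, hg, rfl⟩
  refine mem_clI.2 fun b => ?_
  obtain ⟨y, hy, h2⟩ := mem_clI.1 hx b
  refine ⟨Φ y, h1 hy, ?_⟩
  rw [← map_sub]
  exact hΦ.ge_iff.2 h2

/-- **The extension of a strict motion.** -/
theorem Gx.exists_str [IsAlgClosed Ω] (hk : Ctx0 k v) (hw : SphC v)
    (hval : ∀ ρ : ℝ, ∃ x : Ω, x ≠ 0 ∧ v x = ρ) (hM : Gx v A G M) (hΦ : IsoE v v Φ)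
    (hm : ∀ a ∈ A, Φ a ∈ A) (h : StrM v Φ A d) :
    ∃ Φ' : Ω →ₐ[k] Ω, IsoE v v Φ' ∧ (∀ a ∈ A, Φ' a = Φ a) ∧ (∀ g ∈ G, Φ' (M g) = M g) ∧
      (∀ x ∈ PM v A G M, Φ' x ∈ PM v A G M) ∧ StrM v Φ' (PM v A G M) d := by
  obtain ⟨Φ', h1, h2, h3⟩ := Gx.exists_ext hk hw hval hM hM.ms hΦ
  refine ⟨Φ', h1, h2, h3, map_pm h1 h3 fun a ha => ?_, strM_pm hM.mon (Imm.refl A) h1 h3
    fun a ha r hr => ?_⟩
  · rw [h2 a ha]
    exact hm a ha
  · rw [h2 a ha]
    exact h a ha r hr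

end Str

end Pool.Agent.TWCT
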