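import Pool.Agent.Lib.TWCT.GssP
import Pool.Agent.Lib.TWC.BdTowA

/-!
# TANK W, Gauss extensions by monomials: `p`-bases

`hM : Gx v A G M`, `G` divisible by `p`, `t` a `p`-basis of `A` of distortion `≤ c`.
* `Gx.orth_pm`, `Gx.pbasis_pm`: `t` is a `p`-basis of `PM v A G M` of distortion `≤ c`;
* `Gx.gp_pm`: `gr (PM v A G M)` is perfect if `gr A` is;
* `Gx.vg_pm`: the values of `PM v A G M`.
-/

set_option autoImplicit false

open Polynomial Finset

namespace Pool.Agent.TWCT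

open Pool.Agent.H15JM (RVal)
open Pool.Agent.LU1 (VPos adj)
open Pool.Agent.LUC (Cl clF)
open Pool.Agent.D2 (Ctx0)
open Pool.Agent.D2P (hen clI mem_clI)
open Pool.Agent.TWM
open Pool.Agent.TWS hiding VG
open Pool.Agent.TW (PBasis Orth pcomb Orthq Qp mem_Qp)
open Pool.Agent.TWII (PG LP)

universe u

variable {k Ω : Type u} [Field k] [Field Ω] [Algebra k Ω] {v : RVal Ω}
  {A₀ A B C F K : IntermediateField k Ω} {G : AddSubgroup ℝ} {M : ℝ → Ω}
  {p : ℕ} [hp : Fact p.Prime] [CharP Ω p] {n : ℕ} {t : Fin n → Ω} {c : ℝ}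

theorem evM_sum {ι : Type*} (T : Finset ι) (f : ι → ℝ →₀ Ω) :
    evM M (∑ i ∈ T, f i) = ∑ i ∈ T, evM M (f i) := by
  classical
  induction T using Finset.induction_on with
  | empty => rw [Finset.sum_empty, Finset.sum_empty, evM_zero]
  | insert i T hiT ih => rw [Finset.sum_insert hiT, Finset.sum_insert hiT, evM_add, ih]

theorem evM_eq_sum {L : ℝ →₀ Ω} {S : Finset ℝ} (hS : L.support ⊆ S) :
    evM M L = ∑ g ∈ S, L g * M g := by
  rw [evM, Finsupp.sum]
  refine Finset.sum_subset hS fun g _ hg => ?_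
  rw [Finsupp.notMem_support_iff.1 hg, zero_mul]

theorem nf_sum {ι : Type*} (T : Finset ι) {f : ι → ℝ →₀ Ω} (hf : ∀ i ∈ T, NF v A₀ A G (f i)) :
    NF v A₀ A G (∑ i ∈ T, f i) := by
  classical
  induction T using Finset.induction_on with
  | empty =>
    rw [Finset.sum_empty]
    exact NF.zero
  | insert i T hiT ih =>
    rw [Finset.sum_insert hiT]
    exact (hf i (Finset.mem_insert_self _ _)).add
      (ih fun j hj => hf j (Finset.mem_insert_of_mem hj))

/-- The supports. -/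
noncomputable def sS (L : (Fin n → Fin p) → ℝ →₀ Ω) : Finset ℝ :=
  haveI := Classical.decEq ℝ
  Finset.univ.biUnion fun α => (L α).support

omit hp [CharP Ω p] in
theorem sub_sS (L : (Fin n → Fin p) → ℝ →₀ Ω) (α : Fin n → Fin p) : (L α).support ⊆ sS L := by
  classical
  intro g hg
  rw [sS, Finset.mem_biUnion]
  exact ⟨α, Finset.mem_univ _, hg⟩

/-- The coefficients of the combination. -/
noncomputable def pL (p : ℕ) {n : ℕ} (t : Fin n → Ω) (L : (Fin n → Fin p) → ℝ →₀ Ω) : ℝ →₀ Ω :=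
  ∑ g ∈ sS L, Finsupp.single ((p : ℝ) * g) (pcomb (p := p) t fun α => L α g)

omit [CharP Ω p] in
theorem pL_apply (L : (Fin n → Fin p) → ℝ →₀ Ω) (g : ℝ) :
    pL p t L (p * g) = pcomb (p := p) t fun α => L α g := by
  classical
  have hp0 : (p : ℝ) ≠ 0 := by exact_mod_cast hp.out.ne_zero
  rw [pL, Finsupp.finsetSum_apply]
  simp_rw [Finsupp.single_apply]
  have h1 : ∀ g' ∈ sS L, (if (p : ℝ) * g' = p * g then pcomb (p := p) t fun α => L α g' else 0) =
      if g' = g then pcomb (p := p) t fun α => L α g else 0 := by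
    intro g' _
    by_cases h : g' = g
    · rw [if_pos h, if_pos (by rw [h]), h]
    · rw [if_neg h, if_neg fun h2 => h (mul_left_cancel₀ hp0 h2)]
  rw [Finset.sum_congr rfl h1, Finset.sum_ite_eq']
  split_ifs with h
  · rfl
  · rw [pcomb]
    refine (Finset.sum_eq_zero fun α _ => ?_).symm
    rw [Finsupp.notMem_support_iff.1 fun h2 => h (sub_sS L α h2), zero_pow hp.out.ne_zero,
      zero_mul]

/-- The value of the combination. -/
theorem Gx.evM_pL (hM : Gx v A G M) {L : (Fin n → Fin p) → ℝ →₀ Ω}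
    (hL : ∀ α, NF v A A G (L α)) :
    evM M (pL p t L) = pcomb (p := p) t fun α => evM M (L α) := by
  have hG : ∀ g ∈ sS L, g ∈ G := by
    classical
    intro g hg
    rw [sS, Finset.mem_biUnion] at hg
    obtain ⟨α, -, h⟩ := hg
    exact ((hL α).rep g (Finsupp.mem_support_iff.1 h)).1
  rw [pL, evM_sum, pcomb]
  simp_rw [evM_single]
  have h1 : ∀ α : Fin n → Fin p, evM M (L α) ^ p * TW.mon t α =
      ∑ g ∈ sS L, L α g ^ p * TW.mon t α * M (p * g) := by
    intro α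
    rw [evM_eq_sum (sub_sS L α), sum_pow_char, Finset.sum_mul]
    refine Finset.sum_congr rfl fun g hg => ?_
    rw [mul_pow, hM.ms.pow (hG g hg) p]
    ring
  simp_rw [h1]
  rw [Finset.sum_comm]
  refine Finset.sum_congr rfl fun g _ => ?_
  rw [pcomb, Finset.sum_mul]

omit hp [CharP Ω p] in
theorem Gx.nf_pL (hM : Gx v A G M) (ht : PBasis p A t) {L : (Fin n → Fin p) → ℝ →₀ Ω}
    (hL : ∀ α, NF v A A G (L α)) : NF v A A G (pL p t L) := by
  classical
  refine nf_sum _ fun g hg => hM.nf (fun h => ?_) fun h hh => ?_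
  · rw [Finsupp.single_apply]
    split_ifs
    · exact sum_mem fun α _ => mul_mem (pow_mem ((hL α).mem g) p) (ht.mon_mem α)
    · exact zero_mem _
  · rw [Finsupp.single_apply] at hh
    split_ifs at hh with h1
    · rw [← h1, ← nsmul_eq_mul]
      rw [sS, Finset.mem_biUnion] at hg
      obtain ⟨α, -, h2⟩ := hg
      exact G.nsmul_mem ((hL α).rep g (Finsupp.mem_support_iff.1 h2)).1 p
    · exact absurd rfl hh

/-- Orthogonality for the sums. -/
theorem Gx.sum_orth (hM : Gx v A G M) (ht : PBasis p A t) (ho : Orth p v A t c)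
    {L : (Fin n → Fin p) → ℝ →₀ Ω} (hL : ∀ α, NF v A A G (L α)) {b : ℝ}
    (hb : v.Ge b (pcomb (p := p) t fun α => evM M (L α))) (α : Fin n → Fin p) :
    v.Ge (b - c) (evM M (L α) ^ p * TW.mon t α) := by
  have hp0 : (p : ℝ) ≠ 0 := by exact_mod_cast hp.out.ne_zero
  have hG : ∀ g ∈ sS L, g ∈ G := by
    classical
    intro g hg
    rw [sS, Finset.mem_biUnion] at hg
    obtain ⟨α, -, h⟩ := hg
    exact ((hL α).rep g (Finsupp.mem_support_iff.1 h)).1
  rw [← hM.evM_pL hL] at hb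
  rw [evM_eq_sum (sub_sS L α), sum_pow_char, Finset.sum_mul]
  refine RVal.Ge.sum _ _ fun g hg => ?_
  have hgG := hG g hg
  have hpg : (p : ℝ) * g ∈ G := by
    rw [← nsmul_eq_mul]
    exact G.nsmul_mem hgG p
  have h1 := orth hM.mon (Imm.refl A) (hM.nf_pL ht hL) hb (p * g)
  rw [pL_apply] at h1
  by_cases h0 : (pcomb (p := p) t fun α => L α g) = 0
  · have h2 := ht.ind _ (fun α => (hL α).mem g) h0 α
    change L α g = 0 at h2
    rw [h2, zero_mul, zero_pow hp.out.ne_zero, zero_mul]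
    exact RVal.Ge.zero
  · have h2 := h1 (mul_ne_zero h0 (hM.ms.ne _ hpg))
    rw [v.map_mul h0 (hM.ms.ne _ hpg), hM.ms.val _ hpg] at h2
    have h3 := ho _ (fun α => (hL α).mem g) h0 α
    have h4 := h3.mul (RVal.ge_self (v := v) (M (p * g)))
    rw [hM.ms.val _ hpg] at h4
    have e : (L α g * M g) ^ p * TW.mon t α = L α g ^ p * TW.mon t α * M (p * g) := by
      rw [mul_pow, hM.ms.pow hgG p]
      ring
    rw [e]
    exact h4.mono (by linarith)

/-- Orthogonality for the limits. -/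
theorem Gx.lim_orth (hM : Gx v A G M) (ht : PBasis p A t) (ho : Orth p v A t c)
    {a : (Fin n → Fin p) → Ω} (ha : ∀ α, a α ∈ PM v A G M) {b : ℝ}
    (hb : v.Ge b (pcomb (p := p) t a)) (α : Fin n → Fin p) :
    v.Ge (b - c) (a α ^ p * TW.mon t α) := by
  have hp0 : (0 : ℝ) < p := by exact_mod_cast hp.out.pos
  have h1 : ∀ α, ∃ L, NF v A A G L ∧
      v.Ge ((max b (b - c) - v (TW.mon (p := p) t α)) / p) (a α - evM M L) := fun α =>
    dense_PM hM.mon (Imm.refl A) (ha α) _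
  choose L hL h2 using h1
  have h3 : ∀ α, v.Ge (max b (b - c)) ((a α - evM M (L α)) ^ p * TW.mon t α) := by
    intro α
    have h4 := (ge_pow (h2 α) p).mul (RVal.ge_self (v := v) (TW.mon (p := p) t α))
    exact h4.mono (by
      rw [mul_div_cancel₀ _ hp0.ne']
      linarith)
  have h4 : v.Ge b (pcomb (p := p) t fun α => evM M (L α)) := by
    have e : (pcomb (p := p) t fun α => evM M (L α)) = pcomb (p := p) t a -
        ∑ α, (a α - evM M (L α)) ^ p * TW.mon t α := by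
      rw [pcomb, pcomb, ← Finset.sum_sub_distrib]
      refine Finset.sum_congr rfl fun α _ => ?_
      rw [sub_pow_char]
      ring
    rw [e]
    exact hb.sub (RVal.Ge.sum _ _ fun α _ => (h3 α).mono (le_max_left _ _))
  have h5 := hM.sum_orth ht ho hL h4 α
  have e : a α ^ p * TW.mon t α = (a α - evM M (L α)) ^ p * TW.mon t α +
      evM M (L α) ^ p * TW.mon t α := by
    rw [sub_pow_char]
    ring
  rw [e]
  exact ((h3 α).mono (le_max_right _ _)).add h5

/-- **The distortion.** -/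
theorem Gx.orth_pm (hM : Gx v A G M) (ht : PBasis p A t) (ho : Orth p v A t c) :
    Orth p v (PM v A G M) t c := fun _ ha _ α =>
  hM.lim_orth ht ho ha (RVal.ge_self _) α

theorem Gx.ind_pm (hM : Gx v A G M) (ht : PBasis p A t) (ho : Orth p v A t c)
    {a : (Fin n → Fin p) → Ω} (ha : ∀ α, a α ∈ PM v A G M) (h0 : pcomb (p := p) t a = 0)
    (α : Fin n → Fin p) : a α = 0 := by
  have h1 : a α ^ p * TW.mon t α = 0 := by
    refine TWC.eq_zero_of_ge (v := v) fun b => ?_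
    have h2 := hM.lim_orth ht ho ha (b := b + c) (by
      rw [h0]
      exact RVal.Ge.zero) α
    rwa [add_sub_cancel_right] at h2
  have h2 : TW.mon (p := p) t α ≠ 0 := ht.ind_Qp.ne_zero α
  exact (pow_eq_zero_iff hp.out.ne_zero).1 ((mul_eq_zero.1 h1).resolve_right h2)

/-- **The `p`-basis.** -/
theorem Gx.pbasis_pm [IsAlgClosed Ω] (hΩ : CompleteV v) (hM : Gx v A G M)
    (hG : ∀ g ∈ G, g / p ∈ G) (ht : PBasis p A t) (ho : Orth p v A t c) :
    PBasis p (PM v A G M) t := by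
  have hp0 : (p : ℝ) ≠ 0 := by exact_mod_cast hp.out.ne_zero
  refine ⟨fun i => PM.le (ht.mem i), fun u hu => ?_, fun a ha h0 α => hM.ind_pm ht ho ha h0 α⟩
  have hor : Orthq v (Qp p (PM v A G M)) (TW.mon (p := p) t) c := (hM.orth_pm ht ho).orthq
  have hin : TW.Ind (Qp p (PM v A G M)) (TW.mon (p := p) t) := by
    intro q hq h0 α
    choose a ha hqa using fun α => mem_Qp.1 (hq α)
    have h1 : pcomb (p := p) t a = 0 := by
      rw [pcomb, ← h0]
      exact Finset.sum_congr rfl fun α _ => by rw [hqa]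
    rw [← hqa, hM.ind_pm ht ho ha h1 α, zero_pow hp.out.ne_zero]
  obtain ⟨q, hq, h1⟩ := TWC.spn_of_lim₀ hΩ (TWC.cl_Qp PM.cld) hor hin (u := u) (fun b => by
    obtain ⟨L, hL, h2⟩ := dense_PM hM.mon (Imm.refl A) hu b
    refine ⟨evM M L, ?_, h2⟩
    choose a ha hLa using fun g : ℝ => ht.span (L g) (hL.mem g)
    refine ⟨fun α => ∑ g ∈ L.support, (a g α * M (g / p)) ^ p, fun α => sum_mem fun g hg =>
      mem_Qp.2 ⟨_, mul_mem (PM.le (ha g α)) (PM.mon (hG _
        (hL.rep g (Finsupp.mem_support_iff.1 hg)).1)), rfl⟩, ?_⟩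
    rw [evM, Finsupp.sum]
    simp_rw [Finset.sum_mul]
    rw [Finset.sum_comm]
    refine Finset.sum_congr rfl fun g hg => ?_
    have hgG := (hL.rep g (Finsupp.mem_support_iff.1 hg)).1
    rw [hLa g, pcomb, Finset.sum_mul]
    refine Finset.sum_congr rfl fun α _ => ?_
    rw [mul_pow, ← hM.mon_root hG hgG]
    ring)
  choose a ha hqa using fun α => mem_Qp.1 (hq α)
  refine ⟨a, ha, ?_⟩
  rw [h1, pcomb]
  exact Finset.sum_congr rfl fun α _ => by rw [hqa]

omit [CharP Ω p] in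
/-- **The graded field.** -/
theorem Gx.gp_pm (hM : Gx v A G M) (hG : ∀ g ∈ G, g / p ∈ G) (h : TWRR.GP p v A) :
    TWRR.GP p v (PM v A G M) := by
  intro x hx hx0
  obtain ⟨L, hL, h1⟩ := dense_PM hM.mon (Imm.refl A) hx (v x + 1)
  have h1' : Gt v (v x) (x - evM M L) := Gt.of_ge h1 (by linarith)
  obtain ⟨h2, h3⟩ := Gt.val_eq hx0 h1'
  have h0 : L ≠ 0 := by
    rintro rfl
    exact h2 evM_zero
  obtain ⟨r, hr0, -, h4, -, h5⟩ := lead hM.mon (Imm.refl A) hL h0
  have hrG := (hL.rep r hr0).1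
  obtain ⟨f, hf, h6⟩ := h (L r) (hL.mem r) hr0
  refine ⟨f * M (r / p), mul_mem (PM.le hf) (PM.mon (hG r hrG)), ?_⟩
  have e : x - (f * M (r / p)) ^ p = (x - evM M L) + (evM M L - L r * M r) +
      (L r - f ^ p) * M r := by
    rw [mul_pow, ← hM.mon_root hG hrG]
    ring
  rw [e]
  rw [← h5, h3] at h4
  refine (h1'.add h4).add ?_
  have h7 := h6.mul_ge (RVal.ge_self (v := v) (M r))
  rwa [← v.map_mul hr0 (hM.ms.ne r hrG), ← h5, h3] at h7

omit hp [CharP Ω p] in
/-- The values. -/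
theorem vg_pm (hM : MonG v A₀ G M) (hi : Imm v A₀ A) :
    TWS.VG v (PM v A G M) = TWS.VG v A ⊔ G := by
  refine le_antisymm ?_ (sup_le (TWS.VG.mono PM.le) fun g hg => ?_)
  · rintro _ ⟨x, hx, hx0, rfl⟩
    obtain ⟨L, hL, h1⟩ := dense_PM hM hi hx (v x + 1)
    have h1' : Gt v (v x) (x - evM M L) := Gt.of_ge h1 (by linarith)
    obtain ⟨h2, h3⟩ := Gt.val_eq hx0 h1'
    have h0 : L ≠ 0 := by
      rintro rfl
      exact h2 evM_zero
    obtain ⟨r, hr0, -, -, -, h5⟩ := lead hM hi hL h0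
    have hrG := (hL.rep r hr0).1
    rw [← h3, h5, v.map_mul hr0 (hM.ms.ne r hrG), hM.ms.val r hrG]
    exact AddSubgroup.mem_sup.2 ⟨_, ⟨L r, hL.mem r, hr0, rfl⟩, r, hrG, rfl⟩
  · exact ⟨M g, PM.mon hg, hM.ms.ne g hg, hM.ms.val g hg⟩

end Pool.Agent.TWCT
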