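import Pool.Agent.Lib.TWCT.GssP
import Pool.Agent.Lib.TWRR.R5

/-!
# TANK W, Gauss extensions by monomials: jets coming down

* `pjP`: the projection of the coefficients of a polynomial;
* `Gx.jl_down`: `JL`; `Gx.ocls_down`: `OClsJ`;
* `Gx.nrm_pm`: `Nrm` goes up; `Gx.ratH_down`: `RatH` comes down.
-/

set_option autoImplicit false

open Polynomial Finset

namespace Pool.Agent.TWCT

open Pool.Agent.H15JM (RVal)
open Pool.Agent.LU1 (VPos adj)
open Pool.Agent.LUC (Cl)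
open Pool.Agent.D2 (Ctx0)
open Pool.Agent.D2P (hen clI mem_clI)
open Pool.Agent.TWM
open Pool.Agent.TWS hiding VG
open Pool.Agent.TWII (PG LP)
open Pool.Agent.TWN1 (Par Col col fth Dt Adm Nrm)
open Pool.Agent.TWRR (JL OC OClsJ ef ef_eval RatH)

universe u

variable {k Ω : Type u} [Field k] [Field Ω] [Algebra k Ω] {v : RVal Ω}
  {A₀ A B C F K : IntermediateField k Ω} {G : AddSubgroup ℝ} {M : ℝ → Ω}

open Classical in
/-- The projection, extended by `0`. -/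
noncomputable def pz (π : PM v C G M →ₗ[k] Ω) (x : Ω) : Ω :=
  if h : x ∈ PM v C G M then π ⟨x, h⟩ else 0

theorem pz_eq (π : PM v C G M →ₗ[k] Ω) {x : Ω} (h : x ∈ PM v C G M) : pz π x = π ⟨x, h⟩ :=
  dif_pos h

theorem pz_zero (π : PM v C G M →ₗ[k] Ω) : pz π 0 = 0 := by
  rw [pz_eq π (zero_mem _)]
  exact map_zero π

/-- The projection of the coefficients. -/
noncomputable def pjP (π : PM v C G M →ₗ[k] Ω) (f : Polynomial Ω) : Polynomial Ω :=
  ∑ i ∈ f.support, monomial i (pz π (f.coeff i))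

theorem pjP_coeff (π : PM v C G M →ₗ[k] Ω) (f : Polynomial Ω) (i : ℕ) :
    (pjP π f).coeff i = pz π (f.coeff i) := by
  classical
  rw [pjP, finsetSum_coeff]
  simp_rw [coeff_monomial]
  rw [Finset.sum_ite_eq']
  split_ifs with h
  · rfl
  · rw [notMem_support_iff.1 h, pz_zero]

theorem pjP_zero (π : PM v C G M →ₗ[k] Ω) : pjP π 0 = 0 := by
  rw [pjP, support_zero, Finset.sum_empty]

theorem pjP_mem {π : PM v C G M →ₗ[k] Ω} (hπ : Pi0 v A₀ C G M π) (hiA : Imm v A₀ A)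
    (hA : Cld v A) (hAC : A ≤ C) {f : Polynomial Ω} (hf : f ∈ PI (PM v A G M)) :
    pjP π f ∈ PI A := by
  intro i
  rw [pjP_coeff, pz_eq π (PM.mono hAC (hf i))]
  exact hπ.sub A hiA hAC hA _ (hf i)

theorem pjP_eval {π : PM v C G M →ₗ[k] Ω} (hπ : Pi0 v A₀ C G M π) {f : Polynomial Ω}
    (hf : f ∈ PI (PM v C G M)) {w : Ω} (hw : w ∈ C) :
    (pjP π f).eval w = π ⟨f.eval w, eval_mem hf (PM.le hw)⟩ := by
  have e1 : (⟨f.eval w, eval_mem hf (PM.le hw)⟩ : PM v C G M) =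
      ∑ i ∈ f.support, (⟨w ^ i, PM.le (pow_mem hw i)⟩ : PM v C G M) * ⟨f.coeff i, hf i⟩ := by
    refine Subtype.ext ?_
    rw [AddSubmonoidClass.coe_finsetSum]
    change f.eval w = _
    rw [eval_eq_sum, Polynomial.sum]
    refine Finset.sum_congr rfl fun i _ => ?_
    change _ = w ^ i * f.coeff i
    ring
  rw [e1, map_sum, pjP, eval_finsetSum]
  refine Finset.sum_congr rfl fun i _ => ?_
  rw [hπ.lin _ (pow_mem hw i), eval_monomial, pz_eq π (hf i), mul_comm]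

/-! ### Jets -/

section

variable {p : ℕ} [hp : Fact p.Prime] [CharP Ω p] {w y X₀ : Ω} {ρ s ν : ℝ} {e : Ω} {c : ℕ → Ω}
  {N J D : ℕ} {P R : Polynomial Ω} {φ : ℕ → Polynomial Ω}

omit hp [CharP Ω p] in
/-- The projection of a class. -/
theorem pi_oc {π : PM v C G M →ₗ[k] Ω} (hπ : Pi0 v A₀ C G M π) (hpow : ∀ x, π (x ^ p) = π x ^ p)
    (hiA : Imm v A₀ A) (hA : Cld v A) (hAC : A ≤ C) (hiB : Imm v A₀ B) (hB : Cld v B)
    (hBC : B ≤ C) (hX : X₀ ∈ C) {x : PM v C G M} {r : ℝ}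
    (h : OC p v (PM v A G M) (PM v B G M) X₀ r (x : Ω)) : OC p v A B X₀ r (π x) := by
  obtain ⟨f, hf, g, hg, h1⟩ := h
  set g' : PM v C G M := ⟨g, PM.mono hBC hg⟩ with hg'
  set f' : PM v C G M := ⟨f, PM.mono hAC hf⟩ with hf'
  refine ⟨π f', hπ.sub A hiA hAC hA _ hf, π g', hπ.sub B hiB hBC hB _ hg, ?_⟩
  have h2 := pi_gt hπ (x := x - ⟨X₀, PM.le hX⟩ * f' ^ p - g' ^ p) (by
    change Gt v r (x - X₀ * f ^ p - g ^ p)
    rwa [mul_comm X₀])
  rwa [map_sub, map_sub, hπ.lin X₀ hX, hpow, hpow, mul_comm X₀] at h2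

omit hp [CharP Ω p] in
/-- **The jets.** -/
theorem Gx.jl_down {π : PM v C G M →ₗ[k] Ω} (hπ : Pi0 v A₀ C G M π) (hi : Imm v A₀ A)
    (hA : Cld v A) (hAC : A ≤ C) (hw : w ∈ C)
    (h : JL p v (PM v A G M) w y ρ s e J φ D) :
    JL p v A w y ρ s e J (fun j => pjP π (φ j)) D where
  mem j := pjP_mem hπ hi hA hAC (h.mem j)
  deg j hj := by
    rw [h.deg j hj, pjP_zero]
  X he j hj := by
    rw [h.X he j hj, pjP_zero]
  lim := by
    obtain ⟨ε₀, h1, h2⟩ := h.lim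
    refine ⟨ε₀, h1, fun ε θ hε hε' hθ hd hX hy j hj => ?_⟩
    have h3 := h2 ε θ hε hε' (PI_mono PM.le hθ) hd hX hy j hj
    have hm : φ j ∈ PI (PM v C G M) := PI_mono (PM.mono hAC) (h.mem j)
    have hC : (hasseDeriv j θ).eval w ∈ C := eval_mem (PI_mono hAC (hasse_mem_PI hθ j)) hw
    have h4 := hπ.norm (⟨_, PM.le hC⟩ - ⟨(φ j).eval w, eval_mem hm (PM.le hw)⟩) _ h3
    rw [map_sub, hπ.self _ hC, ← pjP_eval hπ hm hw] at h4
    exact h4

omit hp [CharP Ω p] in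
/-- The effects. -/
theorem pi_ef {π : PM v C G M →ₗ[k] Ω} (hπ : Pi0 v A₀ C G M π)
    (hpow : ∀ x, π (x ^ p) = π x ^ p) (hw : w ∈ C) (he : e ∈ C)
    (hc : ∀ i ∈ Icc 1 N, c i ∈ C) (hP : P ∈ PI C) (hφ : ∀ j, φ j ∈ PI (PM v C G M)) (l : ℕ)
    (hl : (ef p e c N P φ l).eval w ∈ PM v C G M) :
    π ⟨(ef p e c N P φ l).eval w, hl⟩ = (ef p e c N P (fun j => pjP π (φ j)) l).eval w := by
  have hpp : ∀ (m : ℕ) (x : PM v C G M), π (x ^ p ^ m) = π x ^ p ^ m := by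
    intro m
    induction m with
    | zero => intro x; rw [pow_zero, pow_one, pow_one]
    | succ m ih => intro x; rw [pow_succ, pow_mul, hpow, ih, pow_mul]
  have hm : ∀ j, (φ j).eval w ∈ PM v C G M := fun j => eval_mem (hφ j) (PM.le hw)
  have hPC : (hasseDeriv l P).eval w ∈ C := eval_mem (hasse_mem_PI hP l) hw
  have e1 : (⟨(ef p e c N P φ l).eval w, hl⟩ : PM v C G M) =
      ⟨e, PM.le he⟩ * ⟨(φ l).eval w, hm l⟩ + ∑ m ∈ (Icc 1 N).attach,
        (if p ^ (m : ℕ) ∣ l then (⟨c m, PM.le (hc m m.2)⟩ : PM v C G M) *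
          ⟨(φ (l / p ^ (m : ℕ))).eval w, hm _⟩ ^ p ^ (m : ℕ) else 0) +
        ⟨(hasseDeriv l P).eval w, PM.le hPC⟩ := by
    refine Subtype.ext ?_
    change (ef p e c N P φ l).eval w = e * (φ l).eval w + ((∑ m ∈ (Icc 1 N).attach,
        (if p ^ (m : ℕ) ∣ l then (⟨c m, PM.le (hc m m.2)⟩ : PM v C G M) *
          ⟨(φ (l / p ^ (m : ℕ))).eval w, hm _⟩ ^ p ^ (m : ℕ) else 0) : PM v C G M) : Ω) +
          (hasseDeriv l P).eval w
    rw [ef_eval, AddSubmonoidClass.coe_finsetSum, ← Finset.sum_attach]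
    congr 2
    refine Finset.sum_congr rfl fun m _ => ?_
    split_ifs with h
    · rfl
    · rfl
  rw [e1, map_add, map_add, map_sum, hπ.lin e he, hπ.self _ hPC, ef_eval,
    ← Finset.sum_attach (Icc 1 N), pjP_eval hπ (hφ l) hw]
  congr 2
  refine Finset.sum_congr rfl fun m _ => ?_
  split_ifs with h
  · rw [hπ.lin _ (hc m m.2), hpp, pjP_eval hπ (hφ _) hw]
  · exact map_zero π

omit hp [CharP Ω p] in
/-- **The class.** -/
theorem Gx.ocls_down {π : PM v C G M →ₗ[k] Ω} (hπ : Pi0 v A₀ C G M π)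
    (hpow : ∀ x, π (x ^ p) = π x ^ p) (hi : Imm v A₀ A) (hA : Cld v A)
    (hiC : Imm v A₀ C) (hC : Cld v C) (hCe : C = cadj v A w) (he : e ∈ A)
    (hc : ∀ i ∈ Icc 1 N, c i ∈ A) (hP : P ∈ PI A) (hX : X₀ ∈ A)
    (hφ : ∀ j, φ j ∈ PI (PM v A G M))
    (h : OClsJ p v (PM v A G M) w ρ ν e c N P φ X₀) :
    OClsJ p v A w ρ ν e c N P (fun j => pjP π (φ j)) X₀ := by
  have hAC : A ≤ C := by
    rw [hCe]
    exact le_cadj _ _ _
  have hw : w ∈ C := by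
    rw [hCe]
    exact self_mem_cadj _ _ _
  intro l hl hpl
  have h1 := h l hl hpl
  rw [← PM.cadj, ← hCe] at h1
  have hφC : ∀ j, φ j ∈ PI (PM v C G M) := fun j => PI_mono (PM.mono hAC) (hφ j)
  have hle : (ef p e c N P φ l).eval w ∈ PM v C G M := by
    rw [ef_eval]
    refine add_mem (add_mem (mul_mem (PM.le (hAC he)) (eval_mem (hφC l) (PM.le hw)))
      (sum_mem fun m hm => ?_)) (PM.le (eval_mem (PI_mono hAC (hasse_mem_PI hP l)) hw))
    split_ifs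
    · exact mul_mem (PM.le (hAC (hc m hm))) (pow_mem (eval_mem (hφC _) (PM.le hw)) _)
    · exact zero_mem _
  have h2 := pi_oc (x := (⟨_, hle⟩ : PM v C G M)) hπ hpow hi hA hAC hiC hC le_rfl (hAC hX) h1
  rw [pi_ef hπ hpow hw (hAC he) (fun i hi => hAC (hc i hi)) (PI_mono hAC hP) hφC l hle] at h2
  rw [← hCe]
  exact h2

/-- **`JL` and `OClsJ` come down together.** -/
theorem Gx.exists_down (hΩ : CompleteV v) (hM : Gx v A₀ G M) (hi : Imm v A₀ A) (hA : Cld v A)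
    (hw : TL v A w ρ) [IsAlgClosed Ω] (he : e ∈ A)
    (hc : ∀ i ∈ Icc 1 N, c i ∈ A) (hP : P ∈ PI A) (hX : X₀ ∈ A)
    (h1 : JL p v (PM v A G M) w y ρ s e J φ D)
    (h2 : OClsJ p v (PM v A G M) w ρ ν e c N P φ X₀) :
    ∃ φ' : ℕ → Polynomial Ω, JL p v A w y ρ s e J φ' D ∧ OClsJ p v A w ρ ν e c N P φ' X₀ := by
  have hiC : Imm v A₀ (cadj v A w) := hi.trans hw.imm
  obtain ⟨π, hπ, hpow⟩ := hM.exists_pi (p := p) hΩ hiC (cld_cadj v A w)
  exact ⟨_, Gx.jl_down hπ hi hA (le_cadj _ _ _) (self_mem_cadj _ _ _) h1,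
    Gx.ocls_down hπ hpow hi hA hiC (cld_cadj v A w) rfl he hc hP hX h1.mem h2⟩

/-! ### The normal form -/

/-- The coefficients go up. -/
theorem Gx.dt_pm (hΩ : CompleteV v) (hM : Gx v A₀ G M) (hF : Imm v A₀ F) (hFc : Cld v F) (hAF : A ≤ F) (h : Dt p v A F s ν e c N) :
    Dt p v (PM v A G M) (PM v F G M) s ν e c N where
  N1 := h.N1
  eC := PM.le h.eC
  ege := h.ege
  AC i hi := PM.le (h.AC i hi)
  Alp i hi ε hε := by
    obtain ⟨g, hg, h1⟩ := h.Alp i hi ε hε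
    exact ⟨g, PM.le hg, h1⟩
  top h1 := h.top (hM.pg_down hΩ hF hFc hF hFc le_rfl
    (hAF (h.AC N (mem_Icc.2 ⟨h.N1, le_rfl⟩))) h1)

omit hp [CharP Ω p] in
theorem adm_mono (hAB : A ≤ B) (h : Adm p v A ρ s e J R) : Adm p v B ρ s e J R where
  mem := PI_mono hAB h.mem
  low := h.low
  bin := h.bin
  pdv := h.pdv
  siz := h.siz

/-- **The normal form goes up.** -/
theorem Gx.nrm_pm [IsAlgClosed Ω] (hΩ : CompleteV v) (hM : Gx v A₀ G M) (hi : Imm v A₀ A)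
    (hw : TL v A w ρ) (h : Nrm p v A w y ρ s ν e c N P J R) :
    Nrm p v (PM v A G M) w y ρ s ν e c N P J R where
  toDt := by
    rw [← PM.cadj]
    exact hM.dt_pm hΩ (hi.trans hw.imm) (cld_cadj v A w) (le_cadj _ _ _) h.toDt
  toAdm := adm_mono PM.le h.toAdm
  BC := PI_mono PM.le h.BC
  BX := h.BX
  B1 := h.B1
  eB := h.eB
  fam ε hε := by
    obtain ⟨θ, hθ, h1, h2, h3, h4⟩ := h.fam ε hε
    refine ⟨θ, PI_mono PM.le hθ, h1, h2, h3, fun δ hδ => ?_⟩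
    obtain ⟨g, hg, h5⟩ := h4 δ hδ
    exact ⟨g, cadj_mono PM.le _ hg, h5⟩

/-! ### The conclusion of RAT -/

omit hp [CharP Ω p] in
theorem pz_add (π : PM v C G M →ₗ[k] Ω) {x z : Ω} (hx : x ∈ PM v C G M) (hz : z ∈ PM v C G M) :
    pz π (x + z) = pz π x + pz π z := by
  rw [pz_eq π hx, pz_eq π hz, pz_eq π (add_mem hx hz), ← map_add]
  rfl

omit hp [CharP Ω p] in
theorem pz_sum (π : PM v C G M →ₗ[k] Ω) {ι : Type*} (T : Finset ι) {f : ι → Ω}
    (hf : ∀ i ∈ T, f i ∈ PM v C G M) : pz π (∑ i ∈ T, f i) = ∑ i ∈ T, pz π (f i) := by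
  classical
  induction T using Finset.induction_on with
  | empty => rw [Finset.sum_empty, Finset.sum_empty, pz_zero]
  | insert i T hiT ih =>
    rw [Finset.sum_insert hiT, Finset.sum_insert hiT, pz_add π (hf i (Finset.mem_insert_self _ _))
      (sum_mem fun j hj => hf j (Finset.mem_insert_of_mem hj)),
      ih fun j hj => hf j (Finset.mem_insert_of_mem hj)]

omit hp [CharP Ω p] in
theorem pz_mul {π : PM v C G M →ₗ[k] Ω} (hπ : Pi0 v A₀ C G M π) {x z : Ω} (hx : x ∈ C)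
    (hz : z ∈ PM v C G M) : pz π (x * z) = x * pz π z := by
  rw [pz_eq π hz, pz_eq π (mul_mem (PM.le hx) hz), ← hπ.lin x hx]
  rfl

omit hp [CharP Ω p] in
theorem pz_self {π : PM v C G M →ₗ[k] Ω} (hπ : Pi0 v A₀ C G M π) {x : Ω} (hx : x ∈ C) :
    pz π x = x := by
  rw [pz_eq π (PM.le hx), hπ.self x hx]

omit hp [CharP Ω p] in
theorem pz_pow {π : PM v C G M →ₗ[k] Ω} (hpow : ∀ x, π (x ^ p) = π x ^ p) (m : ℕ) {x : Ω}
    (hx : x ∈ PM v C G M) : pz π (x ^ p ^ m) = pz π x ^ p ^ m := by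
  induction m with
  | zero => rw [pow_zero, pow_one, pow_one]
  | succ m ih =>
    rw [pow_succ, pow_mul, pow_mul, ← ih, pz_eq π (pow_mem hx _), pz_eq π (pow_mem (pow_mem hx _) _),
      ← hpow]
    rfl

/-- The coefficients of a power. -/
theorem coeff_pow_char (m : ℕ) (f : Polynomial Ω) (i : ℕ) :
    (f ^ p ^ m).coeff i = if p ^ m ∣ i then f.coeff (i / p ^ m) ^ p ^ m else 0 := by
  rw [← map_iterateFrobenius_expand, coeff_map, coeff_expand (pow_pos hp.out.pos m)]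
  split_ifs with h
  · rw [iterateFrobenius_def]
  · exact map_zero _

omit hp [CharP Ω p] in
theorem pjP_hasse (π : PM v C G M →ₗ[k] Ω) {f : Polynomial Ω} (hf : f ∈ PI (PM v C G M)) (l : ℕ) :
    pjP π (hasseDeriv l f) = hasseDeriv l (pjP π f) := by
  ext i
  rw [pjP_coeff, hasseDeriv_coeff, hasseDeriv_coeff, pjP_coeff, ← nsmul_eq_mul, ← nsmul_eq_mul,
    pz_eq π (hf _), pz_eq π (nsmul_mem (hf _) _), ← map_nsmul]
  rfl

theorem fth_coeff (g : Polynomial Ω) (i : ℕ) : (fth p e c N P g).coeff i =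
    e * g.coeff i + ∑ m ∈ Icc 1 N, c m * (if p ^ m ∣ i then g.coeff (i / p ^ m) ^ p ^ m else 0) +
      P.coeff i := by
  rw [fth, coeff_add, coeff_add, coeff_C_mul, finsetSum_coeff]
  congr 2
  exact Finset.sum_congr rfl fun m _ => by rw [coeff_C_mul, coeff_pow_char]

theorem pjP_fth {π : PM v C G M →ₗ[k] Ω} (hπ : Pi0 v A₀ C G M π)
    (hpow : ∀ x, π (x ^ p) = π x ^ p) (he : e ∈ C) (hc : ∀ i ∈ Icc 1 N, c i ∈ C)
    {P₁ P₂ : Polynomial Ω} (hP : P₁ ∈ PI (PM v C G M)) (hP2 : P₂ = pjP π P₁)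
    {g : Polynomial Ω} (hg : g ∈ PI (PM v C G M)) :
    pjP π (fth p e c N P₁ g) = fth p e c N P₂ (pjP π g) := by
  ext i
  rw [pjP_coeff, fth_coeff, fth_coeff, hP2, pjP_coeff, pjP_coeff]
  have h1 : ∀ m ∈ Icc 1 N, (if p ^ m ∣ i then g.coeff (i / p ^ m) ^ p ^ m else 0) ∈
      PM v C G M := by
    intro m _
    split_ifs
    · exact pow_mem (hg _) _
    · exact zero_mem _
  have h2 : ∀ m ∈ Icc 1 N, c m * (if p ^ m ∣ i then g.coeff (i / p ^ m) ^ p ^ m else 0) ∈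
      PM v C G M := fun m hm => mul_mem (PM.le (hc m hm)) (h1 m hm)
  rw [pz_add π (add_mem (mul_mem (PM.le he) (hg _)) (sum_mem h2)) (hP i),
    pz_add π (mul_mem (PM.le he) (hg _)) (sum_mem h2), pz_mul hπ he (hg i), pz_sum π _ h2]
  congr 2
  refine Finset.sum_congr rfl fun m hm => ?_
  rw [pz_mul hπ (hc m hm) (h1 m hm), pjP_coeff]
  split_ifs
  · rw [pz_pow hpow m (hg _)]
  · rw [pz_zero]

omit hp [CharP Ω p] in
theorem pjP_self {π : PM v C G M →ₗ[k] Ω} (hπ : Pi0 v A₀ C G M π) {f : Polynomial Ω}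
    (hf : f ∈ PI C) : pjP π f = f := by
  ext i
  rw [pjP_coeff, pz_self hπ (hf i)]

omit hp [CharP Ω p] in
theorem fth_mem_PI {g : Polynomial Ω} (he : e ∈ A) (hc : ∀ i ∈ Icc 1 N, c i ∈ A) (hP : P ∈ PI A)
    (hg : g ∈ PI A) : fth p e c N P g ∈ PI A :=
  add_mem (add_mem (mul_mem (C_mem_PI he) hg)
    (sum_mem fun m hm => mul_mem (C_mem_PI (hc m hm)) (pow_mem hg _))) hP

/-- **`RatH` comes down.** -/
theorem Gx.ratH_down [IsAlgClosed Ω] (hΩ : CompleteV v) (hM : Gx v A₀ G M) (hi : Imm v A₀ A)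
    (hA : Cld v A) (hw : TL v A w ρ) (h : RatH p v (PM v A G M) w ρ) : RatH p v A w ρ := by
  intro y s ν e c N P J hN
  obtain ⟨g, hg, hN1⟩ := h y s ν e c N P J (hM.nrm_pm hΩ hi hw hN)
  have hiC : Imm v A₀ (cadj v A w) := hi.trans hw.imm
  have hAC : A ≤ cadj v A w := le_cadj _ _ _
  have hwC : w ∈ cadj v A w := self_mem_cadj _ _ _
  obtain ⟨π, hπ, hpow⟩ := hM.exists_pi (p := p) hΩ hiC (cld_cadj v A w)
  have he : e ∈ cadj v A w := hAC hN.eC
  have hc : ∀ i ∈ Icc 1 N, c i ∈ cadj v A w := fun i hi => hAC (hN.AC i hi)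
  have hPC : P ∈ PI (cadj v A w) := PI_mono hAC hN.BC
  have hP' : P ∈ PI (PM v (cadj v A w) G M) := PI_mono PM.le hPC
  have hgC : g ∈ PI (PM v (cadj v A w) G M) := PI_mono (PM.mono hAC) hg
  have hg' : pjP π g ∈ PI A := pjP_mem hπ hi hA hAC hg
  have hf1 : fth p e c N P g ∈ PI (PM v (cadj v A w) G M) :=
    fth_mem_PI (PM.le he) (fun i hi => PM.le (hc i hi)) hP' hgC
  have hf2 : pjP π (fth p e c N P g) = fth p e c N P (pjP π g) :=
    pjP_fth hπ hpow he hc hP' (pjP_self hπ hPC).symm hgC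
  refine ⟨pjP π g, hg', ?_⟩
  refine { toDt := hN.toDt, toAdm := ?_, BC := ?_, BX := ?_, B1 := ?_, eB := ?_, fam := ?_ }
  · exact ⟨zero_mem _, hN1.low, hN1.bin, hN1.pdv, hN1.siz⟩
  · exact fth_mem_PI hN.eC hN.AC hN.BC hg'
  · intro l hl hpl
    rw [← hf2, ← pjP_hasse π hf1, hN1.BX l hl hpl, pjP_zero]
  · rw [← hf2, ← pjP_hasse π hf1, pjP_eval hπ (hasse_mem_PI hf1 1) hwC]
    exact hπ.norm _ _ hN1.B1
  · rcases hN1.eB with h1 | h1
    · exact Or.inl h1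
    · refine Or.inr ?_
      rw [← hf2, ← pjP_hasse π hf1, h1, pjP_zero]
  · intro ε hε
    obtain ⟨θ, hθ, h1, h2, h3, h4⟩ := hN1.fam ε hε
    obtain ⟨τ, hτ, -, -, h5, -⟩ := hN.fam ε hε
    have hθC : θ ∈ PI (PM v (cadj v A w) G M) := PI_mono (PM.mono hAC) hθ
    have hτC : τ.eval w ∈ cadj v A w := eval_mem (PI_mono hAC hτ) hwC
    refine ⟨pjP π θ, pjP_mem hπ hi hA hAC hθ, fun i hi0 => ?_, fun he0 l hl => ?_, ?_, ?_⟩
    · rw [pjP_coeff, h1 i hi0, coeff_zero, pz_zero]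
    · rw [← pjP_hasse π hθC, h2 he0 l hl, pjP_zero]
    · have h6 : v.Ge (s - ε) (τ.eval w - g.eval w - θ.eval w) := by
        have := h3.sub h5
        have e1 : y - g.eval w - θ.eval w - (y - τ.eval w) =
            τ.eval w - g.eval w - θ.eval w := by ring
        rwa [e1] at this
      have h7 := hπ.norm (⟨_, PM.le hτC⟩ - ⟨_, eval_mem hgC (PM.le hwC)⟩ -
        ⟨_, eval_mem hθC (PM.le hwC)⟩) _ h6
      rw [map_sub, map_sub, hπ.self _ hτC, ← pjP_eval hπ hgC hwC, ← pjP_eval hπ hθC hwC] at h7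
      have h8 := h5.add h7
      have e1 : y - τ.eval w + (τ.eval w - (pjP π g).eval w - (pjP π θ).eval w) =
          y - (pjP π g).eval w - (pjP π θ).eval w := by ring
      rwa [e1] at h8
    · rw [← PM.cadj] at h4
      have hm : fth p e c N (fth p e c N P g) θ ∈ PI (PM v (cadj v A w) G M) :=
        fth_mem_PI (PM.le he) (fun i hi => PM.le (hc i hi)) hf1 hθC
      have h6 := pi_lp (x := ⟨_, eval_mem hm (PM.le hwC)⟩) hπ hpow hiC (cld_cadj v A w) le_rfl h4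
      rwa [← pjP_eval hπ hm hwC, pjP_fth hπ hpow he hc hf1 hf2.symm hθC] at h6

end

end Pool.Agent.TWCT
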