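import Pool.Agent.Lib.TWCT.Defs
import Pool.Agent.Lib.TWC.Irr3

/-!
# TANK W, contact (III.1), row CT.1b: strict motions and floors of transcendental type

* `map_cadj_le`: an isometric embedding which maps `A` and `z` into a closed field maps
  `cadj v A z` into it;
* `StrM.tl`: a motion of `A⟨z⟩`, strict on `A`, which moves `z` as the elements of `A` near to it, is
  strict on `A⟨z⟩` (half the margin);
* `StrM.exists_tl`: a strict motion of `A` extends to `A⟨z⟩`, `z` of transcendental type over `A`,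
  with a prescribed value at `z` near to `Φ c - c`, `c ∈ A` near to `z`.
-/

set_option autoImplicit false

open Polynomial

namespace Pool.Agent.TWCT

open Pool.Agent.H15JM (RVal)
open Pool.Agent.LU1 (VPos adj)
open Pool.Agent.LUC (Cl)
open Pool.Agent.D2 (Ctx0)
open Pool.Agent.D2P (hen clI mem_clI)
open Pool.Agent.TWM
open Pool.Agent.TWS

universe u

variable {k Ω : Type u} [Field k] [Field Ω] [Algebra k Ω] {v : RVal Ω} {Φ Ψ : Ω →ₐ[k] Ω}
  {A B : IntermediateField k Ω} {z ω c : Ω} {d s : ℝ}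

/-! ### Images -/

theorem map_adj_le (hA : ∀ a ∈ A, Φ a ∈ B) (hz : Φ z ∈ B) : ∀ a ∈ adj A z, Φ a ∈ B := by
  have h1 : adj A z ≤ B.comap Φ := D2P.adj_le (fun a ha => hA a ha) hz
  exact fun a ha => h1 ha

theorem map_clI_le (hΦ : IsoE v v Φ) (hB : Cld v B) (hA : ∀ a ∈ A, Φ a ∈ B) :
    ∀ a ∈ clI v A, Φ a ∈ B := by
  intro a ha
  refine hB (mem_clI.2 fun r => ?_)
  obtain ⟨a₀, h0, h1⟩ := (mem_clI.1 ha) r
  refine ⟨Φ a₀, hA a₀ h0, ?_⟩
  have h2 : v.Ge r (Φ (a - a₀)) := hΦ.ge_iff.2 h1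
  rw [map_sub] at h2
  exact h2

/-- An isometric embedding which maps `A` and `z` into a closed field. -/
theorem map_cadj_le (hΦ : IsoE v v Φ) (hB : Cld v B) (hA : ∀ a ∈ A, Φ a ∈ B) (hz : Φ z ∈ B) :
    ∀ a ∈ cadj v A z, Φ a ∈ B :=
  map_clI_le hΦ hB (map_adj_le hA hz)

/-- Two isometric embeddings which agree on `A` and at `z` agree on `cadj v A z`. -/
theorem eq_on_cadj (hΦ : IsoE v v Φ) (hΨ : IsoE v v Ψ) (hA : ∀ a ∈ A, Φ a = Ψ a) (hz : Φ z = Ψ z) :
    ∀ a ∈ cadj v A z, Φ a = Ψ a := by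
  have h1 : adj A z ≤ (AlgHom.equalizer Φ Ψ).toIntermediateField fun x hx => by
      rw [AlgHom.mem_equalizer] at hx ⊢
      rw [map_inv₀, map_inv₀, hx] := D2P.adj_le (fun a ha => hA a ha) hz
  intro a ha
  by_contra hne
  obtain ⟨a₀, h0, h2⟩ := (mem_clI.1 ha) (v (Φ a - Ψ a) + 1)
  have h2' : v.Ge (v (Φ a - Ψ a) + 1) (a - a₀) := h2
  have h3 : Φ a₀ = Ψ a₀ := h1 h0
  have h4 : v.Ge (v (Φ a - Ψ a) + 1) (Φ a - Ψ a) := by
    have h5 := (hΦ.ge_iff.2 h2').sub (hΨ.ge_iff.2 h2')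
    rwa [map_sub, map_sub, h3, sub_sub_sub_cancel_right] at h5
  have := h4 (sub_ne_zero.2 hne)
  linarith

/-! ### Powers -/

theorem ge_pow_sub {r e : ℝ} {x y : Ω} (hx : v.Ge r x) (hy : v.Ge r y)
    (h : v.Ge (r + e) (x - y)) (n : ℕ) : v.Ge (n * r + e) (x ^ n - y ^ n) := by
  induction n with
  | zero =>
    rw [pow_zero, pow_zero, sub_self]
    exact RVal.Ge.zero
  | succ n ih =>
    have e1 : x ^ (n + 1) - y ^ (n + 1) = x ^ n * (x - y) + (x ^ n - y ^ n) * y := by ring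
    rw [e1]
    push_cast
    refine RVal.Ge.add ?_ ?_
    · exact ((ge_pow hx n).mul h).mono (by linarith)
    · exact (ih.mul hy).mono (by linarith)

/-! ### The margin -/

/-- **A motion of `A⟨z⟩` which is strict on `A` and moves `z` as the elements near to it.** -/
theorem StrM.tl [IsAlgClosed Ω] (hΦ : IsoE v v Φ) (hA : StrM v Φ A d) (hd : 0 < d)
    (hz : TL v A z s) (hc : c ∈ A) (hcz : v.Ge (s - d / 2) (z - c))
    (hω : v.Ge (s + d / 2) (Φ z - z - (Φ c - c))) : StrM v Φ (cadj v A z) (d / 2) := by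
  refine strM_cadj hΦ (by positivity) fun f hf => ?_
  by_cases hf0 : f = 0
  · rw [hf0, eval_zero, map_zero, sub_zero]
    exact RVal.Ge.zero
  set D : ℝ := v (f.eval z) with hD
  set m : ℕ := f.natDegree with hm
  have hjet : ∀ l : ℕ, v.Ge (D - l * s) ((taylor z f).coeff l) := fun l =>
    hz.weak (PI_mono (le_algc A) hf) hf0 l
  -- the bound up to `2 m δ`
  have key : ∀ δ : ℝ, 0 < δ → δ ≤ d / 2 →
      v.Ge (D + d / 2 - 2 * m * δ) (Φ (f.eval z) - f.eval z) := by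
    intro δ hδ hδd
    obtain ⟨c', hc', hcz'⟩ := hz.lim δ hδ
    have hb : ∀ l : ℕ, v.Ge (D - l * s - m * δ) ((taylor c' f).coeff l) :=
      TWC.jets_near hδ.le hjet hcz'
    have hbA : ∀ l : ℕ, (taylor c' f).coeff l ∈ A := taylor_mem_PI hf hc'
    have e1 : f.eval z = ∑ l ∈ Finset.range (m + 1), (taylor c' f).coeff l * (z - c') ^ l := by
      rw [eval_eq_taylor f c' z, eval_eq_sum_range, natDegree_taylor]
    have e2 : Φ (f.eval z) = ∑ l ∈ Finset.range (m + 1),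
        Φ ((taylor c' f).coeff l) * (Φ z - Φ c') ^ l := by
      rw [e1, map_sum]
      refine Finset.sum_congr rfl fun l _ => ?_
      rw [map_mul, map_pow, map_sub]
    have ht' : v.Ge (s - δ) (Φ z - Φ c') := by
      rw [← map_sub]
      exact hΦ.ge_iff.2 hcz'
    -- `κ`
    have hcc : v.Ge (s - d / 2) (c' - c) := by
      rw [show c' - c = (z - c) - (z - c') by ring]
      exact hcz.sub (hcz'.mono (by linarith))
    have hκ : v.Ge (s + d / 2) ((Φ z - Φ c') - (z - c')) := by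
      have h1 := hA (c' - c) (sub_mem hc' hc) _ hcc
      rw [show (Φ z - Φ c') - (z - c') = (Φ z - z - (Φ c - c)) -
        ((Φ c' - Φ c) - (c' - c)) by ring]
      refine hω.sub ?_
      rw [← map_sub]
      exact h1.mono (by linarith)
    rw [e2, e1, ← Finset.sum_sub_distrib]
    refine RVal.Ge.sum _ _ fun l hl => ?_
    have hlm : (l : ℝ) ≤ m := by
      have := Finset.mem_range.1 hl
      exact_mod_cast (by omega : l ≤ m)
    have hl0 : (0 : ℝ) ≤ l := Nat.cast_nonneg l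
    have e3 : Φ ((taylor c' f).coeff l) * (Φ z - Φ c') ^ l -
        (taylor c' f).coeff l * (z - c') ^ l =
        (Φ ((taylor c' f).coeff l) - (taylor c' f).coeff l) * (Φ z - Φ c') ^ l +
        (taylor c' f).coeff l * ((Φ z - Φ c') ^ l - (z - c') ^ l) := by ring
    rw [e3]
    refine RVal.Ge.add ?_ ?_
    · have h1 := (hA _ (hbA l) _ (hb l)).mul (ge_pow ht' l)
      refine h1.mono ?_
      nlinarith
    · have h1 := (hb l).mul (ge_pow_sub (e := d / 2 + δ) ht' hcz' (hκ.mono (by linarith)) l)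
      refine h1.mono ?_
      nlinarith
  -- the limit
  intro hne
  refine le_of_forall_pos_sub_le fun ε hε => ?_
  have hm0 : (0 : ℝ) < 2 * m + 1 := by positivity
  have h1 := key (min (d / 2) (ε / (2 * m + 1))) (lt_min (by positivity) (by positivity))
    (min_le_left _ _) hne
  have h2 : 2 * (m : ℝ) * min (d / 2) (ε / (2 * m + 1)) ≤ ε := by
    have h3 : min (d / 2) (ε / (2 * m + 1)) ≤ ε / (2 * m + 1) := min_le_right _ _
    have h4 : 2 * (m : ℝ) * min (d / 2) (ε / (2 * m + 1)) ≤ 2 * m * (ε / (2 * m + 1)) :=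
      mul_le_mul_of_nonneg_left h3 (by positivity)
    have h5 : 2 * (m : ℝ) * (ε / (2 * m + 1)) ≤ (2 * m + 1) * (ε / (2 * m + 1)) :=
      mul_le_mul_of_nonneg_right (by linarith) (by positivity)
    rw [mul_div_cancel₀ _ hm0.ne'] at h5
    linarith
  linarith

/-! ### Existence -/

/-- **A strict motion extends to a floor of transcendental type.** -/
theorem StrM.exists_tl [IsAlgClosed Ω] (hk : Ctx0 k v) (hw : SphC v)
    (hval : ∀ ρ : ℝ, ∃ x : Ω, x ≠ 0 ∧ v x = ρ) (hΦ : IsoE v v Φ) (hA : StrM v Φ A d)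
    (hd : 0 < d) (hz : TL v A z s) (hc : c ∈ A) (hcz : v.Ge (s - d / 2) (z - c))
    (hω : v.Ge (s + d / 2) (ω - (Φ c - c))) :
    ∃ Φ' : Ω →ₐ[k] Ω, IsoE v v Φ' ∧ (∀ b ∈ A, Φ' b = Φ b) ∧ Φ' z = z + ω ∧
      StrM v Φ' (cadj v A z) (d / 2) ∧
      ((∀ a ∈ A, Φ a ∈ A) → ω ∈ A → ∀ b ∈ cadj v A z, Φ' b ∈ cadj v A z) := by
  obtain ⟨Φ', h1, h2, h3⟩ := hΦ.exists_move_tl hk hw hval hz (ζ := z + ω) fun ε hε => by
    obtain ⟨b, hb, h4⟩ := hz.lim (min ε (d / 2)) (lt_min hε (by positivity))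
    have h5 : v.Ge (s - d / 2) (b - c) := by
      rw [show b - c = (z - c) - (z - b) by ring]
      exact hcz.sub (h4.mono (by linarith [min_le_right ε (d / 2)]))
    have h6 := hA (b - c) (sub_mem hb hc) _ h5
    refine ⟨b, hb, h4.mono (by linarith [min_le_left ε (d / 2)]), ?_⟩
    rw [show z + ω - Φ b = (z - b) + ((ω - (Φ c - c)) - ((Φ b - Φ c) - (b - c))) by ring]
    refine (h4.mono (by linarith [min_le_left ε (d / 2)])).add (RVal.Ge.sub ?_ ?_)
    · exact hω.mono (by linarith)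
    · rw [← map_sub]
      exact h6.mono (by linarith)
  have hA' : StrM v Φ' A d := fun a ha r hr => by
    rw [h2 a ha]
    exact hA a ha r hr
  refine ⟨Φ', h1, h2, h3, ?_, fun hr hω' => ?_⟩
  · refine hA'.tl h1 hd hz hc hcz ?_
    rw [h3, h2 c hc, show z + ω - z - (Φ c - c) = ω - (Φ c - c) by ring]
    exact hω
  · refine map_cadj_le h1 (cld_clI v _) (fun a ha => ?_) ?_
    · rw [h2 a ha]
      exact le_clI _ ((D2P.mem_adj_self A z).2 (hr a ha))
    · rw [h3]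
      exact add_mem (le_clI _ (D2P.mem_adj_self A z).1) (le_clI _ ((D2P.mem_adj_self A z).2 hω'))

/-- The natural extension: `z` moves as an element `c` of `A` near to it. -/
theorem StrM.exists_nat [IsAlgClosed Ω] (hk : Ctx0 k v) (hw : SphC v)
    (hval : ∀ ρ : ℝ, ∃ x : Ω, x ≠ 0 ∧ v x = ρ) (hΦ : IsoE v v Φ) (hA : StrM v Φ A d)
    (hd : 0 < d) (hz : TL v A z s) :
    ∃ Φ' : Ω →ₐ[k] Ω, IsoE v v Φ' ∧ (∀ b ∈ A, Φ' b = Φ b) ∧
      (∃ c ∈ A, v.Ge (s - d / 2) (z - c) ∧ Φ' z - z = Φ c - c) ∧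
      StrM v Φ' (cadj v A z) (d / 2) ∧
      ((∀ a ∈ A, Φ a ∈ A) → ∀ b ∈ cadj v A z, Φ' b ∈ cadj v A z) := by
  obtain ⟨c, hc, hcz⟩ := hz.lim (d / 2) (by positivity)
  obtain ⟨Φ', h1, h2, h3, h4, h5⟩ := hA.exists_tl hk hw hval hΦ hd hz hc hcz (ω := Φ c - c)
    (by rw [sub_self]; exact RVal.Ge.zero)
  exact ⟨Φ', h1, h2, ⟨c, hc, hcz, by rw [h3]; ring⟩, h4, fun hr =>
    h5 hr (sub_mem (hr c hc) hc)⟩

end Pool.Agent.TWCT
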