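import Pool.Agent.Lib.TWCT.NoTie
import Pool.Agent.Lib.TWCT.Str
import Pool.Agent.Lib.TWCT.Fin

/-!
# TANK W, contact (III.1): some floor of an honest tower over a contact field is not hit

`Hit p v F y s`: some critical element of `cadj v F y` has an additive form with a coefficient which
is not null.  `Fam`: a sequence of strict motions of `F` which is eventually constant on every `L J`,
and whose members are pairwise different on `W`.
* `Fam.step`: a hit floor carries the sequence over (a subsequence, one common value at `y`);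
* `ConM.exists_fam`; `Fam.false`; `not_hit3`.
-/

set_option autoImplicit false

open Polynomial Finset

namespace Pool.Agent.TWCT

open Pool.Agent.H15JM (RVal)
open Pool.Agent.LU1 (VPos adj)
open Pool.Agent.LUC (Cl)
open Pool.Agent.D2 (Ctx0)
open Pool.Agent.D2P (hen clI mem_clI)
open Pool.Agent.TWM
open Pool.Agent.TWS
open Pool.Agent.TWII (PG LP)
open Pool.Agent.TWN1 (PC Col col)

universe u

variable {k Ω : Type u} [Field k] [Field Ω] [Algebra k Ω] {v : RVal Ω}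

/-- Some critical element of `cadj v F y` is hit by `y`. -/
def Hit (p : ℕ) (v : RVal Ω) (F : IntermediateField k Ω) (y : Ω) (s : ℝ) : Prop :=
  ∃ (ν : ℝ) (b₀ : Ω) (B : ℕ → Ω) (T j : ℕ), b₀ ∈ F ∧ Col p v F ν s B ∧
    LP p v (cadj v F y) ν (b₀ + col p B y T) ∧ j ≠ 0 ∧ j ≤ T ∧ ¬ PG p v F (ν - p ^ j * s) (B j)

/-- The motions. -/
structure Fam (v : RVal Ω) (L : ℕ → IntermediateField k Ω) (W F : IntermediateField k Ω)
    (Φ : ℕ → Ω →ₐ[k] Ω) : Prop where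
  iso : ∀ m, IsoE v v (Φ m)
  map : ∀ m, ∀ a ∈ F, Φ m a ∈ F
  str : ∀ m, ∃ η : ℝ, 0 < η ∧ StrM v (Φ m) F η
  agree : ∀ J, ∃ M, ∀ m m', M ≤ m → M ≤ m' → ∀ a ∈ L J, Φ m a = Φ m' a
  ne : ∀ m m', m < m' → ∃ x ∈ W, Φ m x ≠ Φ m' x

theorem Fam.false {L : ℕ → IntermediateField k Ω} {W F : IntermediateField k Ω}
    {Φ : ℕ → Ω →ₐ[k] Ω} (h : Fam v L W F Φ) {J : ℕ} (hJ : W ≤ L J) : False := by
  obtain ⟨M, hM⟩ := h.agree J
  obtain ⟨x, hx, hne⟩ := h.ne M (M + 1) (Nat.lt_succ_self M)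
  exact hne (hM M (M + 1) le_rfl (Nat.le_succ M) x (hJ hx))

/-- The sequence of motions of the base. -/
theorem ConM.exists_fam {L : ℕ → IntermediateField k Ω} {W : IntermediateField k Ω}
    (hL : Monotone L) (hLW : ∀ J, L J ≤ W) (hd : W ≤ clI v (⨆ J, L J)) (hcon : ConM v L W) :
    ∃ Φ : ℕ → Ω →ₐ[k] Ω, Fam v L W W Φ := by
  -- a motion moves an element of some `L J'`
  have h1 : ∀ J : ℕ, ∃ (Φ : Ω →ₐ[k] Ω) (J' : ℕ), IsoE v v Φ ∧ (∀ a ∈ W, Φ a ∈ W) ∧
      (∃ η : ℝ, 0 < η ∧ StrM v Φ W η) ∧ (∀ a ∈ L J, Φ a = a) ∧ ∃ x ∈ L J', Φ x ≠ x := by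
    intro J
    obtain ⟨Φ, η, hη, h1, h2, h3, h4, x, hxW, hx⟩ := hcon J
    by_contra hcon'
    have h5 : ∀ J', ∀ x ∈ L J', Φ x = x := by
      intro J' x hx
      by_contra hne
      exact hcon' ⟨Φ, J', h1, h3, ⟨η, hη, h4⟩, h2, x, hx, hne⟩
    have h6 : clI v (⨆ J, L J) ≤ fixF Φ := clI_le_fixF h1 (iSup_le fun J' x hx => h5 J' x hx)
    exact hx (h6 (hd hxW))
  choose F g hF1 hF2 hF3 hF4 hF5 using h1
  -- the indices
  let J : ℕ → ℕ := fun n => Nat.rec 0 (fun n r => max (r + 1) (g r)) n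
  have hJs : ∀ n, J (n + 1) = max (J n + 1) (g (J n)) := fun n => rfl
  have hJm : StrictMono J := strictMono_nat_of_lt_succ fun n => by
    rw [hJs]
    exact lt_of_lt_of_le (Nat.lt_succ_self _) (le_max_left _ _)
  refine ⟨fun n => F (J n), fun n => hF1 _, fun n => hF2 _, fun n => hF3 _, fun j => ?_, ?_⟩
  · refine ⟨j, fun m m' hm hm' a ha => ?_⟩
    rw [hF4 (J m) a (hL (hm.trans hJm.le_apply) ha), hF4 (J m') a (hL (hm'.trans hJm.le_apply) ha)]
  · intro m m' hmm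
    obtain ⟨x, hx, hne⟩ := hF5 (J m)
    refine ⟨x, hLW _ hx, ?_⟩
    have h2 : g (J m) ≤ J m' := by
      have h3 : J (m + 1) ≤ J m' := hJm.monotone hmm
      rw [hJs] at h3
      exact (le_max_right _ _).trans h3
    rw [hF4 (J m') x (hL h2 hx)]
    exact hne

section Step

variable {p : ℕ} [hp : Fact p.Prime] [CharP Ω p] {W F : IntermediateField k Ω}
  {L : ℕ → IntermediateField k Ω} {Φ Ψ : Ω →ₐ[k] Ω}

/-- A null top may be dropped: the top is not null. -/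
theorem Hit.top [IsAlgClosed Ω] {y : Ω} {s : ℝ} (hy : TL v F y s) (h : Hit p v F y s) :
    ∃ (ν : ℝ) (b₀ : Ω) (B : ℕ → Ω) (T : ℕ), b₀ ∈ F ∧ Col p v F ν s B ∧
      LP p v (cadj v F y) ν (b₀ + col p B y T) ∧ T ≠ 0 ∧ ¬ PG p v F (ν - p ^ T * s) (B T) := by
  obtain ⟨ν, b₀, B, T, j, hb0, hB, hlp, hj, hjT, hn⟩ := h
  induction T generalizing b₀ with
  | zero => omega
  | succ T ih =>
    by_cases htop : PG p v F (ν - p ^ (T + 1) * s) (B (T + 1))
    · obtain ⟨δ, hδ, h2⟩ := TWN1.null_term (K := cadj v F y) (z := y) (hB.mem (T + 1))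
        (Nat.succ_ne_zero T) htop (le_cadj v F y) (self_mem_cadj v F y)
      obtain ⟨c, hc, hwc⟩ := hy.lim δ hδ
      have h3 := h2 c hc hwc
      have hjT' : j ≤ T := by
        rcases Nat.lt_or_ge T j with h4 | h4
        · obtain rfl : j = T + 1 := by omega
          exact absurd htop hn
        · exact h4
      refine ih (b₀ + B (T + 1) * c ^ p ^ (T + 1)) (add_mem hb0 (mul_mem (hB.mem _)
        (pow_mem hc _))) ?_ hjT'
      have e : b₀ + B (T + 1) * c ^ p ^ (T + 1) + col p B y T =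
          (b₀ + col p B y (T + 1)) - B (T + 1) * (y - c) ^ p ^ (T + 1) := by
        have h4 := sub_pow_char_pow (R := Ω) (p := p) (n := T + 1) y c
        rw [h4, col, col, sum_range_succ _ (T + 1)]
        ring
      rw [e]
      exact hlp.sub (LP.of_pg h3)
    · exact ⟨ν, b₀, B, T + 1, hb0, hB, hlp, Nat.succ_ne_zero T, htop⟩

omit hp [CharP Ω p] in
/-- The image of a column. -/
theorem Col.map {ν s : ℝ} {B : ℕ → Ω} (hB : Col p v F ν s B) (hΨ : IsoE v v Ψ)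
    (hΨF : ∀ a ∈ F, Ψ a ∈ F) : Col p v F ν s fun j => Ψ (B j) where
  mem j := hΨF _ (hB.mem j)
  lin := hΨ.ge_iff.2 hB.lin
  lev j hj ε hε := by
    obtain ⟨g, hg, h1⟩ := hB.lev j hj ε hε
    refine ⟨Ψ g, hΨF g hg, ?_⟩
    rw [← map_pow, ← map_sub]
    exact hΨ.ge_iff.2 h1

/-- The effect of a strict motion on a critical element of `F`, with a margin. -/
theorem strict_null {η : ℝ} (hη : 0 < η) (hs : StrM v Ψ F η) (hΨF : ∀ a ∈ F, Ψ a ∈ F) {c : ℝ}
    {x : Ω} (hxF : x ∈ F) (hx : LP p v F c x) : PC p v F (c + η / 2) (Ψ x - x) := by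
  obtain ⟨h, hh, h1⟩ := hx (η / 2) (by positivity)
  refine ⟨Ψ h - h, sub_mem (hΨF h hh) hh, ?_⟩
  have h2 := hs _ (sub_mem hxF (pow_mem hh p)) _ h1
  have e : Ψ x - x - (Ψ h - h) ^ p = Ψ (x - h ^ p) - (x - h ^ p) := by
    have := sub_pow_char (R := Ω) (p := p) (Ψ h) h
    rw [this, map_sub Ψ x, map_pow]
    ring
  rw [e]
  exact h2.mono (by linarith)

/-- A critical coefficient times a small power. -/
theorem lp_mul_small {ν s μ : ℝ} {B : ℕ → Ω} (hB : Col p v F ν s B) {j : ℕ} {e : Ω} (he : e ∈ F)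
    (hμ : 0 < μ) (hes : v.Ge (s + μ) e) : PG p v F ν (B j * e ^ p ^ j) := by
  have hp1 : (1 : ℝ) ≤ p := by exact_mod_cast hp.out.one_lt.le
  have hpj : (1 : ℝ) ≤ (p : ℝ) ^ j := one_le_pow₀ hp1
  have h1 : v.Ge (p ^ j * (s + μ)) (e ^ p ^ j) := by
    have := ge_pow hes (p ^ j)
    refine this.mono (le_of_eq ?_)
    push_cast
    ring
  rcases Nat.eq_zero_or_pos j with rfl | hj0
  · refine PG.of_gt (Gt.of_ge (hB.lin.mul h1) ?_)
    rw [pow_zero]
    linarith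
  · obtain ⟨i, rfl⟩ : ∃ i, j = i + 1 := ⟨j - 1, by omega⟩
    have h3 : e ^ p ^ (i + 1) = (e ^ p ^ i) ^ p := by rw [← pow_mul, ← pow_succ]
    have h4 := (hB.lev (i + 1) (by omega)).pc (c' := ν - p ^ (i + 1) * s - μ / 2) (by linarith)
    rw [h3] at h1 ⊢
    refine (h4.mul_pow (pow_mem he _) h1).pg ?_
    nlinarith

/-- The effect coefficient `Ψ B_j - B_j` times a power of an element of value `≥ s`. -/
theorem strict_mul {ν s η : ℝ} {B : ℕ → Ω} (hB : Col p v F ν s B) (hη : 0 < η)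
    (hs : StrM v Ψ F η) (hΨF : ∀ a ∈ F, Ψ a ∈ F) {j : ℕ} {e : Ω} (he : e ∈ F) (hes : v.Ge s e) :
    PG p v F ν ((Ψ (B j) - B j) * e ^ p ^ j) := by
  have h1 : v.Ge (p ^ j * s) (e ^ p ^ j) := by
    have := ge_pow hes (p ^ j)
    refine this.mono (le_of_eq ?_)
    push_cast
    ring
  rcases Nat.eq_zero_or_pos j with rfl | hj0
  · refine PG.of_gt (Gt.of_ge ((hs _ (hB.mem 0) _ hB.lin).mul h1) ?_)
    rw [pow_zero]
    linarith
  · obtain ⟨i, rfl⟩ : ∃ i, j = i + 1 := ⟨j - 1, by omega⟩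
    have h3 : e ^ p ^ (i + 1) = (e ^ p ^ i) ^ p := by rw [← pow_mul, ← pow_succ]
    have h4 := strict_null hη hs hΨF (hB.mem (i + 1)) (hB.lev (i + 1) (by omega))
    rw [h3] at h1 ⊢
    refine (h4.mul_pow (pow_mem he _) h1).pg ?_
    linarith

/-- **Two motions which agree on the coefficients.** -/
theorem pair_ge [IsAlgClosed Ω] {y : Ω} {s η : ℝ} (hy : TL v F y s) (hΦ : IsoE v v Φ)
    (hΨ : IsoE v v Ψ) (hΦF : ∀ a ∈ F, Φ a ∈ F) (hΨF : ∀ a ∈ F, Ψ a ∈ F) (hη : 0 < η)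
    (hs : StrM v Φ F η) (hs' : StrM v Ψ F η) {ν : ℝ} {b₀ : Ω} (hb0 : b₀ ∈ F) {B : ℕ → Ω} {T : ℕ}
    (hT : T ≠ 0) (hB : Col p v F ν s B) (hlp : LP p v (cadj v F y) ν (b₀ + col p B y T))
    (htop : ¬ PG p v F (ν - p ^ T * s) (B T)) {m P : ℝ} (hm : v.Ge m y) (hms : m ≤ s - 1)
    (hP : ν < P) (hPj : ∀ j ∈ range (T + 1), ν < P + p ^ j * m)
    (hb : v.Ge P (Φ b₀ - Ψ b₀)) (hyj : ∀ j ∈ range (T + 1), v.Ge P (Φ (B j) - Ψ (B j))) :
    ∃ δ : ℝ, 0 < δ ∧ ∀ c ∈ F, v.Ge (s - δ) (y - c) → v.Ge s (Φ c - Ψ c) ∧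
      PG p v F ν (∑ j ∈ range (T + 1), B j * (Φ c - Ψ c) ^ p ^ j) := by
  have hp1 : (1 : ℝ) < p := by exact_mod_cast hp.out.one_lt
  have hpT : ∀ j ∈ range (T + 1), (p : ℝ) ^ j ≤ (p : ℝ) ^ T := fun j hj =>
    pow_le_pow_right₀ hp1.le (by rw [mem_range] at hj; omega)
  have hpT0 : (0 : ℝ) < (p : ℝ) ^ T := by positivity
  refine ⟨min 1 (η / (4 * p ^ T)), lt_min one_pos (by positivity), fun c hc hwc => ?_⟩
  have hwc1 : v.Ge (s - 1) (y - c) := hwc.mono (by linarith [min_le_left 1 (η / (4 * (p : ℝ) ^ T))])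
  have hwc2 : v.Ge (s - η / (4 * p ^ T)) (y - c) :=
    hwc.mono (by linarith [min_le_right 1 (η / (4 * (p : ℝ) ^ T))])
  have hcm : v.Ge m c := by
    have e : c = y - (y - c) := by ring
    rw [e]
    exact hm.sub (hwc1.mono hms)
  -- the value at `c` is a `p`-th power up to `ν - η / 2`
  have hcW : b₀ + col p B c T ∈ F := add_mem hb0 (sum_mem fun j _ => mul_mem (hB.mem j) (pow_mem hc _))
  have h1 : PC p v F (ν - η / 2) (b₀ + col p B c T) := by
    refine PC.down hy hcW ?_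
    have e : b₀ + col p B c T = (b₀ + col p B y T) - ∑ j ∈ range (T + 1), B j * (y - c) ^ p ^ j := by
      rw [col, col, add_sub_assoc, ← sum_sub_distrib]
      congr 1
      refine sum_congr rfl fun j _ => ?_
      have := sub_pow_char_pow (R := Ω) (p := p) (n := j) y c
      rw [this]
      ring
    rw [e]
    refine (hlp.pc (by linarith)).sub (PC.sum _ _ fun j hj => ?_)
    have h2 : v.Ge (p ^ j * s - η / 4) ((y - c) ^ p ^ j) := by
      have h3 := ge_pow hwc2 (p ^ j)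
      refine h3.mono ?_
      push_cast
      have h4 : (p : ℝ) ^ j * (η / (4 * p ^ T)) ≤ η / 4 := by
        rw [← mul_div_assoc, div_le_iff₀ (by positivity)]
        have := hpT j hj
        nlinarith
      linarith
    rcases Nat.eq_zero_or_pos j with rfl | hj0
    · refine PC.of_ge ((hB.lin.mul h2).mono ?_)
      rw [pow_zero]
      linarith
    · obtain ⟨i, rfl⟩ : ∃ i, j = i + 1 := ⟨j - 1, by omega⟩
      have h3 : (y - c) ^ p ^ (i + 1) = ((y - c) ^ p ^ i) ^ p := by rw [← pow_mul, ← pow_succ]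
      have h4 : PC p v (cadj v F y) (ν - p ^ (i + 1) * s - η / 4) (B (i + 1)) :=
        PC.up ((hB.lev (i + 1) (by omega)).pc (by linarith))
      rw [h3] at h2 ⊢
      exact (h4.mul_pow (pow_mem (sub_mem (self_mem_cadj v F y) (le_cadj v F y hc)) _) h2).mono
        (by linarith)
  obtain ⟨h, hhW, h2⟩ := h1
  -- no relative effect
  have h3 : PC p v F (ν + η / 2) (Φ (b₀ + col p B c T) - Ψ (b₀ + col p B c T)) := by
    refine ⟨Φ h - Ψ h, sub_mem (hΦF h hhW) (hΨF h hhW), ?_⟩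
    have h4 := (hs _ (sub_mem hcW (pow_mem hhW p)) _ h2).sub (hs' _ (sub_mem hcW (pow_mem hhW p)) _ h2)
    have e : Φ (b₀ + col p B c T) - Ψ (b₀ + col p B c T) - (Φ h - Ψ h) ^ p =
        (Φ (b₀ + col p B c T - h ^ p) - (b₀ + col p B c T - h ^ p)) -
        (Ψ (b₀ + col p B c T - h ^ p) - (b₀ + col p B c T - h ^ p)) := by
      have := sub_pow_char (R := Ω) (p := p) (Φ h) (Ψ h)
      rw [this, map_sub Φ (b₀ + col p B c T), map_sub Ψ (b₀ + col p B c T), map_pow, map_pow]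
      ring
    rw [e]
    exact h4.mono (by linarith)
  -- the additive polynomial with the coefficients `Ψ B_j`
  have hΦc : v.Ge m (Φ c) := hΦ.ge_iff.2 hcm
  have h5 : PG p v F ν (∑ j ∈ range (T + 1), Ψ (B j) * (Φ c - Ψ c) ^ p ^ j) := by
    have h6 : Gt v ν ((Φ b₀ - Ψ b₀) + ∑ j ∈ range (T + 1), (Φ (B j) - Ψ (B j)) * (Φ c) ^ p ^ j) := by
      refine (Gt.of_ge hb hP).add (Gt.sum _ _ fun j hj => ?_)
      have h7 := (hyj j hj).mul (ge_pow hΦc (p ^ j))
      refine Gt.of_ge h7 ?_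
      push_cast
      exact hPj j hj
    have h8 := (h3.pg (c' := ν) (by linarith)).sub (PG.of_gt (p := p) (F := F) h6)
    have e : Φ (b₀ + col p B c T) - Ψ (b₀ + col p B c T) - ((Φ b₀ - Ψ b₀) +
        ∑ j ∈ range (T + 1), (Φ (B j) - Ψ (B j)) * (Φ c) ^ p ^ j) =
        ∑ j ∈ range (T + 1), Ψ (B j) * (Φ c - Ψ c) ^ p ^ j := by
      rw [col, map_add, map_add, map_sum, map_sum, add_sub_add_comm, add_sub_add_left_eq_sub,
        ← sum_sub_distrib, ← sum_sub_distrib]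
      refine sum_congr rfl fun j _ => ?_
      have := sub_pow_char_pow (R := Ω) (p := p) (n := j) (Φ c) (Ψ c)
      rw [this, map_mul, map_mul, map_pow, map_pow]
      ring
    rwa [e] at h8
  have hδF : Φ c - Ψ c ∈ F := sub_mem (hΦF c hc) (hΨF c hc)
  -- the value of the displacement
  have h9 : v.Ge s (Φ c - Ψ c) := by
    intro h0
    by_contra hlt
    push Not at hlt
    have h10 := top_null hT (Col.map hB hΨ hΨF) hδF h0 hlt h5
    apply htop
    have h11 := (strict_null hη hs' hΨF (hB.mem T) (hB.lev T hT)).pg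
      (c' := ν - p ^ T * s) (by linarith)
    have h12 := h10.sub h11
    rwa [sub_sub_cancel] at h12
  refine ⟨h9, ?_⟩
  have h13 : PG p v F ν (∑ j ∈ range (T + 1), (Ψ (B j) - B j) * (Φ c - Ψ c) ^ p ^ j) :=
    PG.sum _ _ fun j _ => strict_mul hB hη hs' hΨF hδF h9
  have h14 := h5.sub h13
  rw [← sum_sub_distrib] at h14
  refine (congrArg _ (sum_congr rfl fun j _ => ?_)).mp h14
  ring

/-- Finitely many elements of `F` are moved by the same amount, up to `P`. -/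
theorem exists_level_pair (hL : Monotone L) (hd : F ≤ clI v (⨆ J, L J)) (S : Finset Ω)
    (hS : ∀ x ∈ S, x ∈ F) (P : ℝ) : ∃ J₀, ∀ Φ Ψ : Ω →ₐ[k] Ω, IsoE v v Φ → IsoE v v Ψ →
      (∀ a ∈ L J₀, Φ a = Ψ a) → ∀ x ∈ S, v.Ge P (Φ x - Ψ x) := by
  classical
  induction S using Finset.induction_on with
  | empty => exact ⟨0, fun _ _ _ _ _ x hx => absurd hx (Finset.notMem_empty x)⟩
  | insert x S hx ih =>
    obtain ⟨J₁, h1⟩ := ih fun y hy => hS y (mem_insert_of_mem hy)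
    obtain ⟨x₀, h2, h3⟩ := (mem_clI.1 (hd (hS x (mem_insert_self x S)))) P
    have h2' : x₀ ∈ ((⨆ n, L n : IntermediateField k Ω) : Set Ω) := h2
    rw [IntermediateField.coe_iSup_of_directed hL.directed_le, Set.mem_iUnion] at h2'
    obtain ⟨J₂, h4⟩ := h2'
    have h3' : v.Ge P (x - x₀) := h3
    refine ⟨max J₁ J₂, fun Φ Ψ hΦ hΨ hfix y hy => ?_⟩
    rcases mem_insert.1 hy with rfl | hy
    · have e : Φ y - Ψ y = Φ (y - x₀) - Ψ (y - x₀) := by
        rw [map_sub, map_sub, hfix x₀ (hL (le_max_right _ _) h4)]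
        ring
      rw [e]
      exact (hΦ.ge_iff.2 h3').sub (hΨ.ge_iff.2 h3')
    · exact h1 Φ Ψ hΦ hΨ (fun a ha => hfix a (hL (le_max_left _ _) ha)) y hy

omit hp [CharP Ω p] in
/-- The natural displacement does not depend on the centre. -/
theorem nat_near {y : Ω} {s η : ℝ} (hs : StrM v Φ F η) {c c' : Ω} (hc : c ∈ F) (hc' : c' ∈ F)
    (h : v.Ge (s - η / 2) (y - c)) (h' : v.Ge (s - η / 2) (y - c')) :
    v.Ge (s + η / 2) ((Φ c - c) - (Φ c' - c')) := by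
  have h1 : v.Ge (s - η / 2) (c - c') := by
    rw [show c - c' = (y - c') - (y - c) by ring]
    exact h'.sub h
  have h2 := hs (c - c') (sub_mem hc hc') _ h1
  rw [show (Φ c - c) - (Φ c' - c') = Φ (c - c') - (c - c') by rw [map_sub]; ring]
  exact h2.mono (by linarith)

/-- Additivity of `x ↦ ∑ j, B j * x ^ p ^ j`. -/
theorem addp_sub (B : ℕ → Ω) (T : ℕ) (x z : Ω) : ∑ j ∈ range (T + 1), B j * (x - z) ^ p ^ j =
    ∑ j ∈ range (T + 1), B j * x ^ p ^ j - ∑ j ∈ range (T + 1), B j * z ^ p ^ j := by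
  rw [← sum_sub_distrib]
  refine sum_congr rfl fun j _ => ?_
  have := sub_pow_char_pow (R := Ω) (p := p) (n := j) x z
  rw [this]
  ring

/-- A small change of the argument. -/
theorem addp_near {ν s μ : ℝ} {B : ℕ → Ω} (hB : Col p v F ν s B) (T : ℕ) {x z : Ω} (hμ : 0 < μ)
    (hxz : x - z ∈ F) (hm : v.Ge (s + μ) (x - z))
    (hz : PG p v F ν (∑ j ∈ range (T + 1), B j * z ^ p ^ j)) :
    PG p v F ν (∑ j ∈ range (T + 1), B j * x ^ p ^ j) := by
  have h1 : PG p v F ν (∑ j ∈ range (T + 1), B j * (x - z) ^ p ^ j) :=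
    PG.sum _ _ fun j _ => lp_mul_small hB hxz hμ hm
  have h2 := h1.add hz
  rwa [addp_sub, sub_add_cancel] at h2

/-- Pigeonhole: a common displacement for infinitely many members. -/
theorem exists_common [IsAlgClosed k] (hk : Ctx0 k v) {ν s : ℝ} {B : ℕ → Ω} {T : ℕ}
    (hB : Col p v F ν s B) (hT : T ≠ 0) (htop : ¬ PG p v F (ν - p ^ T * s) (B T)) {om : ℕ → Ω}
    (hom : ∀ m, om m ∈ F) {M : ℕ} (hge : ∀ m, M ≤ m → v.Ge s (om m - om M))
    (hnull : ∀ m, M ≤ m → PG p v F ν (∑ j ∈ range (T + 1), B j * (om m - om M) ^ p ^ j)) :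
    ∃ o ∈ F, {m : ℕ | M ≤ m ∧ Gt v s (o - om m)}.Infinite := by
  classical
  by_cases hall : ∀ m, M ≤ m → Gt v s (om m - om M)
  · refine ⟨om M, hom M, ?_⟩
    refine (Set.infinite_of_injective_forall_mem (f := fun n : ℕ => M + n)
      (fun a b h => by simpa using h) fun n => ⟨Nat.le_add_right _ _, ?_⟩)
    exact Gt.sub_comm' (hall _ (Nat.le_add_right _ _))
  push Not at hall
  obtain ⟨m₁, hm₁, hng⟩ := hall
  set g : Ω := om m₁ - om M with hg
  have hgF : g ∈ F := sub_mem (hom _) (hom _)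
  have hg0 : g ≠ 0 := by
    intro h0
    exact hng (by rw [h0]; exact Gt.zero)
  have hvg : v g = s := by
    refine le_antisymm ?_ (hge m₁ hm₁ hg0)
    by_contra h1
    push Not at h1
    exact hng fun _ => h1
  -- the residues
  have hres : ∀ m, M ≤ m → ∃ c : k, Gt v s ((om m - om M) - algebraMap k Ω c * g) := by
    intro m hm
    have h1 : v.Ge 0 ((om m - om M) / g) := by
      intro h0
      have h2 : om m - om M ≠ 0 := fun h3 => h0 (by rw [h3, zero_div])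
      rw [v.map_div h2 hg0, hvg]
      have := hge m hm h2
      linarith
    obtain ⟨c, hc⟩ := hk.residue h1
    refine ⟨c, ?_⟩
    have h3 := Gt.mul_ge (r := 0) hc (RVal.ge_self (v := v) g)
    rw [hvg, zero_add] at h3
    have e : (om m - om M) - algebraMap k Ω c * g = ((om m - om M) / g - algebraMap k Ω c) * g := by
      rw [sub_mul, div_mul_cancel₀ _ hg0]
    rw [e]
    exact h3
  have hpow : ∀ j : ℕ, v.Ge (-(p ^ j * s)) ((g⁻¹) ^ p ^ j) := fun j => by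
    refine RVal.Ge.of_le ?_
    rw [inv_pow, v.map_inv (pow_ne_zero _ hg0), v.map_pow hg0, hvg]
    push_cast
    exact le_rfl
  have hfin := finite_res (F := F) hk (ν := ν) (β := fun j => B j * g ^ p ^ j) (T := T) (fun h1 => by
    apply htop
    obtain ⟨i, rfl⟩ : ∃ i, T = i + 1 := ⟨T - 1, by omega⟩
    have h2 : v.Ge (-(p ^ (i + 1) * s)) ((g⁻¹ ^ p ^ i) ^ p) := by
      rw [← pow_mul, ← pow_succ]
      exact hpow (i + 1)
    have h3 := h1.mul_pow (pow_mem (inv_mem hgF) _) h2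
    have e : B (i + 1) * g ^ p ^ (i + 1) * (g⁻¹ ^ p ^ i) ^ p = B (i + 1) := by
      rw [← pow_mul, ← pow_succ, inv_pow, mul_assoc, mul_inv_cancel₀ (pow_ne_zero _ hg0), mul_one]
    rw [e] at h3
    exact h3.mono (by linarith))
  choose! c hc using hres
  have hcZ : ∀ m, M ≤ m → c m ∈ {c : k | PG p v F ν (∑ j ∈ range (T + 1),
      (fun j => B j * g ^ p ^ j) j * algebraMap k Ω c ^ p ^ j)} := by
    intro m hm
    obtain ⟨μ, hμ, h1⟩ := TWLM.exists_ge_of_gt (hc m hm)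
    have h2 := addp_near hB T (x := algebraMap k Ω (c m) * g) (z := om m - om M) hμ
      (sub_mem (mul_mem (F.algebraMap_mem _) hgF) (sub_mem (hom _) (hom _))) (by
        rw [← neg_sub]
        exact h1.neg) (hnull m hm)
    change PG p v F ν (∑ j ∈ range (T + 1), B j * g ^ p ^ j * algebraMap k Ω (c m) ^ p ^ j)
    refine (congrArg _ (sum_congr rfl fun j _ => ?_)).mp h2
    rw [_root_.mul_pow]
    ring
  let Z := {c : k | PG p v F ν (∑ j ∈ range (T + 1),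
      (fun j => B j * g ^ p ^ j) j * algebraMap k Ω c ^ p ^ j)}
  have hZ : Finite Z := hfin
  obtain ⟨⟨z, hz⟩, hinf⟩ := Finite.exists_infinite_fiber
    (fun n : ℕ => (⟨c (M + n), hcZ _ (Nat.le_add_right _ _)⟩ : Z))
  refine ⟨om M + algebraMap k Ω z * g, add_mem (hom M) (mul_mem (F.algebraMap_mem _) hgF), ?_⟩
  have hinf' := Set.infinite_coe_iff.1 hinf
  refine (hinf'.image (f := fun n => M + n) fun a _ b _ h => by simpa using h).mono ?_
  rintro _ ⟨n, hn, rfl⟩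
  refine ⟨Nat.le_add_right _ _, ?_⟩
  have h1 : c (M + n) = z := congrArg Subtype.val (Set.mem_singleton_iff.1 hn)
  have h2 := hc (M + n) (Nat.le_add_right _ _)
  rw [h1] at h2
  have h3 := Gt.neg h2
  have e : om M + algebraMap k Ω z * g - om (M + n) =
      -((om (M + n) - om M) - algebraMap k Ω z * g) := by ring
  change Gt v s (om M + algebraMap k Ω z * g - om (M + n))
  rw [e]
  exact h3

/-- **A hit floor carries the motions over.** -/
theorem Fam.step [IsAlgClosed k] [IsAlgClosed Ω] (hk : Ctx0 k v) (hsp : SphC v)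
    (hval : ∀ ρ : ℝ, ∃ x : Ω, x ≠ 0 ∧ v x = ρ) {Φ : ℕ → Ω →ₐ[k] Ω} (hWF : W ≤ F)
    (hL : Monotone L) (hLF : ∀ J, L J ≤ F) (hd : F ≤ clI v (⨆ J, L J)) (h : Fam v L W F Φ) {y : Ω} {s : ℝ}
    (hy : TL v F y s) (hit : Hit p v F y s) :
    ∃ Φ' : ℕ → Ω →ₐ[k] Ω, Fam v (fun J => cadj v (L J) y) W (cadj v F y) Φ' := by
  classical
  obtain ⟨ν, b₀, B, T, hb0, hB, hlp, hT, htop⟩ := hit.top hy
  have hp1 : (1 : ℝ) < p := by exact_mod_cast hp.out.one_lt
  obtain ⟨m₀, hm, hms⟩ : ∃ m : ℝ, v.Ge m y ∧ m ≤ s - 1 :=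
    ⟨min (v y) (s - 1), (RVal.ge_self y).mono (min_le_left _ _), min_le_right _ _⟩
  -- the precision
  set P : ℝ := ν + 1 + p ^ T * |m₀| with hPdef
  have hP : ν < P := by
    have : 0 ≤ (p : ℝ) ^ T * |m₀| := by positivity
    linarith
  have hPj : ∀ j ∈ range (T + 1), ν < P + p ^ j * m₀ := fun j hj => by
    have h1 : (p : ℝ) ^ j ≤ (p : ℝ) ^ T := pow_le_pow_right₀ hp1.le (by rw [mem_range] at hj; omega)
    have h2 : -|m₀| ≤ m₀ := neg_abs_le m₀
    have h3 : (0 : ℝ) < (p : ℝ) ^ j := by positivity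
    have h4 : -(p ^ T * |m₀|) ≤ (p : ℝ) ^ j * m₀ := by
      calc -(p ^ T * |m₀|) ≤ -(p ^ j * |m₀|) := by
            have := mul_le_mul_of_nonneg_right h1 (abs_nonneg m₀)
            linarith
        _ = p ^ j * (-|m₀|) := by ring
        _ ≤ p ^ j * m₀ := mul_le_mul_of_nonneg_left h2 h3.le
    linarith
  obtain ⟨J₀, hJ₀⟩ := exists_level_pair hL hd (insert b₀ ((range (T + 1)).image B)) (fun x hx => by
    rcases mem_insert.1 hx with rfl | hx
    · exact hb0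
    · obtain ⟨j, -, rfl⟩ := mem_image.1 hx
      exact hB.mem j) P
  obtain ⟨M, hM⟩ := h.agree J₀
  choose η hη0 hηs using h.str
  have hc : ∀ m, ∃ c ∈ F, v.Ge (s - η m / 2) (y - c) := fun m => hy.lim _ (half_pos (hη0 m))
  choose c hcF hcy using hc
  -- the natural displacements
  set om : ℕ → Ω := fun m => Φ m (c m) - c m with hom
  have homF : ∀ m, om m ∈ F := fun m => sub_mem (h.map m _ (hcF m)) (hcF m)
  have hpair : ∀ m, M ≤ m → v.Ge s (om m - om M) ∧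
      PG p v F ν (∑ j ∈ range (T + 1), B j * (om m - om M) ^ p ^ j) := by
    intro m hmM
    set η' := min (η m) (η M) with hη'
    have hη'0 : 0 < η' := lt_min (hη0 m) (hη0 M)
    have hag := hJ₀ (Φ m) (Φ M) (h.iso m) (h.iso M) (hM m M hmM le_rfl)
    obtain ⟨δ, hδ, h1⟩ := pair_ge hy (h.iso m) (h.iso M) (h.map m) (h.map M) hη'0
      ((hηs m).mono (min_le_left _ _)) ((hηs M).mono (min_le_right _ _)) hb0 hT hB hlp htop hm hms
      hP hPj (hag b₀ (mem_insert_self _ _)) fun j hj => hag _ (mem_insert_of_mem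
        (mem_image_of_mem B hj))
    obtain ⟨c', hc'F, hc'⟩ := hy.lim (min δ (η' / 2)) (lt_min hδ (half_pos hη'0))
    obtain ⟨h2, h3⟩ := h1 c' hc'F (hc'.mono (by linarith [min_le_left δ (η' / 2)]))
    have hc'' : v.Ge (s - η' / 2) (y - c') := hc'.mono (by linarith [min_le_right δ (η' / 2)])
    have h4 := nat_near (hηs m) (hcF m) hc'F (hcy m)
      (hc''.mono (by linarith [min_le_left (η m) (η M)]))
    have h5 := nat_near (hηs M) (hcF M) hc'F (hcy M)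
      (hc''.mono (by linarith [min_le_right (η m) (η M)]))
    have h6 : v.Ge (s + η' / 2) ((om m - om M) - (Φ m c' - Φ M c')) := by
      have e : (om m - om M) - (Φ m c' - Φ M c') =
          ((Φ m (c m) - c m) - (Φ m c' - c')) - ((Φ M (c M) - c M) - (Φ M c' - c')) := by
        rw [hom]
        ring
      rw [e]
      exact (h4.mono (by linarith [min_le_left (η m) (η M)])).sub
        (h5.mono (by linarith [min_le_right (η m) (η M)]))
    refine ⟨?_, ?_⟩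
    · have e : om m - om M = ((om m - om M) - (Φ m c' - Φ M c')) + (Φ m c' - Φ M c') := by ring
      rw [e]
      exact (h6.mono (by linarith)).add h2
    · exact addp_near hB T (half_pos hη'0) (sub_mem (sub_mem (homF m) (homF M))
        (sub_mem (h.map m _ hc'F) (h.map M _ hc'F))) h6 h3
  obtain ⟨o, hoF, hinf⟩ := exists_common hk hB hT htop homF (fun m hm => (hpair m hm).1)
    fun m hm => (hpair m hm).2
  -- the extensions
  have hext : ∀ m, (M ≤ m ∧ Gt v s (o - om m)) → ∃ Φ' : Ω →ₐ[k] Ω, IsoE v v Φ' ∧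
      (∀ b ∈ F, Φ' b = Φ m b) ∧ Φ' y = y + o ∧ (∃ d : ℝ, 0 < d ∧ StrM v Φ' (cadj v F y) d) ∧
      ∀ b ∈ cadj v F y, Φ' b ∈ cadj v F y := by
    rintro m ⟨-, hgt⟩
    obtain ⟨μ, hμ, h1⟩ := TWLM.exists_ge_of_gt hgt
    set d := min (η m) (2 * μ) with hd'
    have hd0 : 0 < d := lt_min (hη0 m) (by linarith)
    obtain ⟨c', hc'F, hc'⟩ := hy.lim (d / 2) (half_pos hd0)
    have h2 := nat_near (hηs m) (hcF m) hc'F (hcy m)
      (hc'.mono (by linarith [min_le_left (η m) (2 * μ)]))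
    obtain ⟨Φ', h3, h4, h5, h6, h7⟩ := StrM.exists_tl hk hsp hval (h.iso m)
      ((hηs m).mono (min_le_left (η m) (2 * μ))) hd0 hy hc'F hc' (ω := o) (by
        have e : o - (Φ m c' - c') = (o - om m) + ((Φ m (c m) - c m) - (Φ m c' - c')) := by
          rw [hom]
          ring
        rw [e]
        exact (h1.mono (by linarith [min_le_right (η m) (2 * μ)])).add
          (h2.mono (by linarith [min_le_left (η m) (2 * μ)])))
    exact ⟨Φ', h3, h4, h5, ⟨d / 2, half_pos hd0, h6⟩, h7 (h.map m) hoF⟩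
  choose! Φ' hΦ'1 hΦ'2 hΦ'3 hΦ'4 hΦ'5 using hext
  obtain ⟨e, he, heS⟩ := Nat.exists_strictMono_subsequence
    (P := fun m => M ≤ m ∧ Gt v s (o - om m)) fun n => by
      obtain ⟨m, hm, hnm⟩ := hinf.exists_gt n
      exact ⟨m, hnm, hm⟩
  refine ⟨fun n => Φ' (e n), ⟨fun n => hΦ'1 _ (heS n), fun n => hΦ'5 _ (heS n),
    fun n => hΦ'4 _ (heS n), fun J => ?_, fun m m' hmm => ?_⟩⟩
  · obtain ⟨MJ, hMJ⟩ := h.agree J
    refine ⟨MJ, fun m m' hm' hm'' => ?_⟩
    refine eq_on_cadj (hΦ'1 _ (heS m)) (hΦ'1 _ (heS m')) (fun a ha => ?_) ?_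
    · rw [hΦ'2 _ (heS m) a (hLF J ha), hΦ'2 _ (heS m') a (hLF J ha)]
      exact hMJ _ _ (hm'.trans he.le_apply) (hm''.trans he.le_apply) a ha
    · rw [hΦ'3 _ (heS m), hΦ'3 _ (heS m')]
  · obtain ⟨x, hx, hne⟩ := h.ne (e m) (e m') (he hmm)
    refine ⟨x, hx, ?_⟩
    rw [hΦ'2 _ (heS m) x (hWF hx), hΦ'2 _ (heS m') x (hWF hx)]
    exact hne

/-- The density of the next floor. -/
theorem dense_step (hd : F ≤ clI v (⨆ J, L J)) (y : Ω) :
    cadj v F y ≤ clI v (⨆ J, cadj v (L J) y) := by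
  refine cadj_le (cld_clI v _) (hd.trans (clI_mono (iSup_mono fun J => le_cadj v (L J) y))) ?_
  exact le_clI _ ((le_iSup (fun J => cadj v (L J) y) 0 : _) (self_mem_cadj v (L 0) y))

theorem cadj_mono_left {A B : IntermediateField k Ω} (h : A ≤ B) (y : Ω) :
    cadj v A y ≤ cadj v B y :=
  cadj_le (cld_cadj v B y) (h.trans (le_cadj v B y)) (self_mem_cadj v B y)

/-- **Two floors**: not both floors of a tower over a contact field which is the closure of a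
finitely generated field are hit. -/
theorem ConM.not_hit2 [IsAlgClosed k] [IsAlgClosed Ω] (hk : Ctx0 k v) (hsp : SphC v)
    (hval : ∀ ρ : ℝ, ∃ x : Ω, x ≠ 0 ∧ v x = ρ) (hL : Monotone L) (hLW : ∀ J, L J ≤ W)
    (hd : W ≤ clI v (⨆ J, L J)) (hcon : ConM v L W) {y₁ y₂ : Ω} {s₁ s₂ : ℝ} (h1 : TL v W y₁ s₁)
    (h2 : TL v (cadj v W y₁) y₂ s₂) {J₀ : ℕ} (hgen : W ≤ cadj v (cadj v (L J₀) y₁) y₂)
    (t1 : Hit p v W y₁ s₁) (t2 : Hit p v (cadj v W y₁) y₂ s₂) : False := by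
  obtain ⟨Φ, hΦ⟩ := hcon.exists_fam hL hLW hd
  obtain ⟨Φ₁, hΦ₁⟩ := hΦ.step hk hsp hval le_rfl hL hLW hd h1 t1
  obtain ⟨Φ₂, hΦ₂⟩ := hΦ₁.step hk hsp hval (le_cadj v W y₁)
    (fun a b hab => cadj_mono_left (hL hab) y₁) (fun J => cadj_mono_left (hLW J) y₁)
    (dense_step hd y₁) h2 t2
  exact hΦ₂.false hgen

/-- **Three floors.** -/
theorem ConM.not_hit3 [IsAlgClosed k] [IsAlgClosed Ω] (hk : Ctx0 k v) (hsp : SphC v)
    (hval : ∀ ρ : ℝ, ∃ x : Ω, x ≠ 0 ∧ v x = ρ) (hL : Monotone L) (hLW : ∀ J, L J ≤ W)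
    (hd : W ≤ clI v (⨆ J, L J)) (hcon : ConM v L W) {y₁ y₂ y₃ : Ω} {s₁ s₂ s₃ : ℝ}
    (h1 : TL v W y₁ s₁) (h2 : TL v (cadj v W y₁) y₂ s₂)
    (h3 : TL v (cadj v (cadj v W y₁) y₂) y₃ s₃) {J₀ : ℕ}
    (hgen : W ≤ cadj v (cadj v (cadj v (L J₀) y₁) y₂) y₃)
    (t1 : Hit p v W y₁ s₁) (t2 : Hit p v (cadj v W y₁) y₂ s₂)
    (t3 : Hit p v (cadj v (cadj v W y₁) y₂) y₃ s₃) : False := by
  obtain ⟨Φ, hΦ⟩ := hcon.exists_fam hL hLW hd
  obtain ⟨Φ₁, hΦ₁⟩ := hΦ.step hk hsp hval le_rfl hL hLW hd h1 t1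
  have hm1 : Monotone fun J => cadj v (L J) y₁ := fun a b hab => cadj_mono_left (hL hab) y₁
  have hl1 : ∀ J, cadj v (L J) y₁ ≤ cadj v W y₁ := fun J => cadj_mono_left (hLW J) y₁
  obtain ⟨Φ₂, hΦ₂⟩ := hΦ₁.step hk hsp hval (le_cadj v W y₁) hm1 hl1 (dense_step hd y₁) h2 t2
  obtain ⟨Φ₃, hΦ₃⟩ := hΦ₂.step hk hsp hval ((le_cadj v W y₁).trans (le_cadj v _ y₂))
    (fun a b hab => cadj_mono_left (hm1 hab) y₂) (fun J => cadj_mono_left (hl1 J) y₂)
    (dense_step (dense_step hd y₁) y₂) h3 t3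
  exact hΦ₃.false hgen

end Step

end Pool.Agent.TWCT
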