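import Pool.Agent.Lib.TWCT.J3
import Pool.Agent.Lib.TWN1.GabB

/-!
# TANK W, contact (III.1): the exit if an additive form has an empty column

* `hrone4_of_lin`: `al ^ p = g ^ p + a₀ + e y` modulo `{> ν}`, `a₀, e` in the closure of `B`;
* `hrone4_of_af`: an additive form over a pair with an empty column (`S = 0`).
-/

set_option autoImplicit false

open Polynomial Finset

namespace Pool.Agent.TWCT

open Pool.Agent.H15JM (RVal)
open Pool.Agent.LU1 (VPos adj)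
open Pool.Agent.D2 (Ctx0)
open Pool.Agent.D2P (hen clI mem_clI)
open Pool.Agent.TW (Ctx Full BD HRone LU)
open Pool.Agent.TWM
open Pool.Agent.TWII (PG LP)
open Pool.Agent.TWN1 (PC Col col AF Par)

universe u

variable {k Ω : Type u} [Field k] [Field Ω] [Algebra k Ω] {v : RVal Ω} {p : ℕ}
  [hp : Fact p.Prime] [CharP Ω p] {y : Ω} {s ν : ℝ}

/-- **The exit, if `al ^ p` is linear in `y`.** -/
theorem hrone4_of_lin [IsAlgClosed k] [IsAlgClosed Ω] [CharP k p] (h : Ctx k v 1)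
    (hcv : CompleteV v) {K₀ : IntermediateField k Ω} (hK : K₀.FG) (hKf : Full v K₀)
    (htr : Algebra.trdeg k K₀ = (4 : ℕ)) (hBDK : BD p v K₀) {al : Ω}
    (hal : al ^ p ∈ K₀) (hBD : BD p v (adj K₀ al)) {B : IntermediateField k Ω}
    (hBf : Full v B) (hBt : Algebra.trdeg k B = (3 : ℕ))
    (hy : TL v (clI v B) y s) (hcl : clI v K₀ = cadj v (clI v B) y)
    (hlev : ∀ g ∈ clI v K₀, ¬ Gt v ν (al ^ p - g ^ p)) {a₀ e : Ω} (ha₀ : a₀ ∈ clI v B)
    (he : e ∈ clI v B) (hrel : PG p v (clI v K₀) ν (al ^ p - (a₀ + e * y))) :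
    HRone v (adj K₀ al) := by
  obtain ⟨g, hg, h1⟩ := hrel
  have hf : (C a₀ + C e * X : Polynomial Ω) ∈ PI (clI v B) :=
    add_mem (C_mem_PI ha₀) (mul_mem (C_mem_PI he) X_mem_PI)
  refine TWS7.nohit_union p h hcv (r := 1) (D := 2) (by norm_num) ?_ hK hKf (by rw [htr]) hBDK hal
    hBD hBf (by rw [hBt]) hy hcl (f := C a₀ + C e * X) hf hg ?_ (fun l hpl hl => ?_) hlev
  · intro K hK hKf htK hBDK
    exact TWJ.lu_bd_two p h (TWJ.stepAll p k 1) (by omega) hK hKf htK hBDK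
  · rw [eval_add, eval_mul, eval_C, eval_C, eval_X]
    have e1 : al ^ p - g ^ p - (a₀ + e * y) = al ^ p - (a₀ + e * y) - g ^ p := by ring
    rw [e1]
    exact h1
  · refine ⟨0, zero_mem _, ?_⟩
    have hl2 : 1 < l := lt_of_lt_of_le hp.out.one_lt (Nat.le_of_dvd (Nat.pos_of_ne_zero hl) hpl)
    have h2 : (taylor y (C a₀ + C e * X : Polynomial Ω)).coeff l = 0 := by
      refine coeff_eq_zero_of_natDegree_lt ?_
      rw [natDegree_taylor]
      refine lt_of_le_of_lt ?_ hl2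
      rw [add_comm]
      exact natDegree_linear_le
    rw [h2, zero_pow hp.out.ne_zero, sub_zero]
    exact Gt.zero

/-- **The exit, if an additive form has an empty column.** -/
theorem hrone4_of_af [IsAlgClosed k] [IsAlgClosed Ω] [CharP k p] (h : Ctx k v 1)
    (hcv : CompleteV v) {K₀ : IntermediateField k Ω} (hK : K₀.FG) (hKf : Full v K₀)
    (htr : Algebra.trdeg k K₀ = (4 : ℕ)) (hBDK : BD p v K₀) {al : Ω}
    (hal : al ^ p ∈ K₀) (hBD : BD p v (adj K₀ al)) {B : IntermediateField k Ω}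
    (hBf : Full v B) (hBt : Algebra.trdeg k B = (2 : ℕ))
    (hlev : ∀ g ∈ clI v K₀, ¬ Gt v ν (al ^ p - g ^ p)) {b₀ z₁ z₂ : Ω} {r₁ r₂ : ℝ}
    {x y : ℕ → Ω} {T : ℕ} (haf : AF p v (clI v B) (clI v K₀) ν (al ^ p) b₀ z₁ r₁ x 0 z₂ r₂ y T) :
    HRone v (adj K₀ al) := by
  have hB2 : clI v (adj B z₂) = cadj v (clI v B) z₂ := clI_adj_clI.symm
  have ht := haf.par.t12
  rw [← hB2] at ht
  refine hrone4_of_lin h hcv hK hKf htr hBDK hal hBD (B := adj B z₂) (y := z₁) (s := r₁)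
    (a₀ := b₀ + col p y z₂ T) (e := x 0) (hBf.mono (D2P.mem_adj_self B z₂).2) ?_ ht ?_ hlev
    ?_ ?_ ?_
  · rw [TW.HRLU.trdeg_adj (TWJ.TL.transc (TWJ.TL.of_clI haf.par.t2)), hBt]
    norm_num
  · rw [hB2]
    exact haf.par.eq2
  · rw [hB2]
    refine add_mem (le_cadj v _ z₂ haf.b0) (sum_mem fun j _ => mul_mem ?_ (pow_mem ?_ _))
    · exact le_cadj v _ z₂ (haf.c2.mem j)
    · exact self_mem_cadj v _ z₂
  · rw [hB2]
    exact le_cadj v _ z₂ (haf.c1.mem 0)
  · have e1 : al ^ p - (b₀ + col p y z₂ T + x 0 * z₁) =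
        al ^ p - (b₀ + col p x z₁ 0 + col p y z₂ T) := by
      rw [col, col, zero_add, sum_range_one, pow_zero, pow_one]
      ring
    rw [e1]
    exact haf.rel

end Pool.Agent.TWCT
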