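import Pool.Agent.Lib.TWCT.Gss
import Pool.Agent.Lib.TWCT.Tie
import Pool.Agent.Lib.TWRR.G2

/-!
# TANK W, Gauss extensions by monomials: coming down

`hM : Gx v A₀ G M`, `G` divisible by `p`, `C` closed, immediate over `A₀`.
* `Gx.exists_pi`: the projection `π` of `PM v C G M` on `C`, with `π (x ^ p) = π x ^ p`;
* `Gx.pg_iff`, `Gx.lp_iff`, `Gx.oc_iff`, `Gx.oc_down`: `p`-th powers and classes;
* `tl_down`, `tl_pm_iff`, `par_pm`, `par_down`: radii, pairs;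
* `Gx.gp_down`;
* `Gx.pg_of_all`: `x` is null if all its components are null;
* `Gx.hit_pm`, `Gx.hit_down`, `Gx.hit_iff`: hits.
-/

set_option autoImplicit false

open Polynomial Finset

namespace Pool.Agent.TWCT

open Pool.Agent.H15JM (RVal)
open Pool.Agent.LU1 (VPos adj)
open Pool.Agent.LUC (Cl)
open Pool.Agent.D2 (Ctx0)
open Pool.Agent.D2P (hen clI mem_clI)
open Pool.Agent.TWM
open Pool.Agent.TWS hiding VG
open Pool.Agent.TWII (PG LP)
open Pool.Agent.TWN1 (Par Col col)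

universe u

variable {k Ω : Type u} [Field k] [Field Ω] [Algebra k Ω] {v : RVal Ω}
  {A₀ A B C F K : IntermediateField k Ω} {G : AddSubgroup ℝ} {M : ℝ → Ω}

theorem pi_gt {π : PM v C G M →ₗ[k] Ω} (hπ : Pi0 v A₀ C G M π) {x : PM v C G M} {b : ℝ}
    (h : Gt v b (x : Ω)) : Gt v b (π x) := by
  by_cases h0 : (x : Ω) = 0
  · have h1 : x = 0 := Subtype.ext h0
    rw [h1, map_zero]
    exact Gt.zero
  · exact Gt.of_ge (hπ.norm x _ (RVal.ge_self _)) (h h0)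

section

variable {p : ℕ} [hp : Fact p.Prime] [CharP Ω p]

/-- **The projection.** -/
theorem Gx.exists_pi (hΩ : CompleteV v) (hM : Gx v A₀ G M) (hi : Imm v A₀ C) (hC : Cld v C) :
    ∃ π : PM v C G M →ₗ[k] Ω, Pi0 v A₀ C G M π ∧ ∀ x, π (x ^ p) = π x ^ p := by
  classical
  obtain ⟨π, hπ⟩ := exists_pi0 hΩ hM.mon hi hC
  have hp0 : (p : ℝ) ≠ 0 := by exact_mod_cast hp.out.ne_zero
  refine ⟨π, hπ, fun x => ?_⟩
  rw [← sub_eq_zero]
  refine TWC.eq_zero_of_ge (v := v) fun b => ?_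
  obtain ⟨L, hL, h1⟩ := dense_PM hM.mon hi x.2 (b / p)
  set y : PM v C G M := ⟨evM M L, evM_mem_PM hL⟩ with hy
  have h2 : v.Ge (b / p) ((x - y : PM v C G M) : Ω) := h1
  have h3 : v.Ge b (((x - y) ^ p : PM v C G M) : Ω) := by
    have := ge_pow h2 p
    rwa [mul_div_cancel₀ _ hp0] at this
  have h4 : v.Ge b (π (x - y) ^ p) := by
    have := ge_pow (hπ.norm _ _ h2) p
    rwa [mul_div_cancel₀ _ hp0] at this
  have h5 := hπ.norm _ _ h3
  have hcp : CharP (PM v C G M) p := by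
    exact (algebraMap (PM v C G M) Ω).charP (algebraMap (PM v C G M) Ω).injective p
  have hpG : ∀ g ∈ G, (p : ℝ) * g ∈ G := fun g hg => by
    rw [← nsmul_eq_mul]
    exact G.nsmul_mem hg p
  have hpV : ∀ g ∈ G, g ≠ 0 → (p : ℝ) * g ∉ TWS.VG v A₀ := fun g hg hg0 h =>
    hg0 ((mul_eq_zero.1 (hM.ind _ (hpG g hg) h)).resolve_left hp0)
  -- the sum
  have hyr : π y = L 0 := by
    rw [hπ.nf L hL y rfl, hM.rep0, hM.ms.zero, mul_one]
  have h6 : π (y ^ p) = π y ^ p := by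
    have e1 : y ^ p = ∑ g ∈ L.support.attach,
        (⟨L g ^ p, PM.le (pow_mem (hL.mem g) p)⟩ : PM v C G M) *
          ⟨M (p * g), PM.mon (hpG _ (hL.rep g (Finsupp.mem_support_iff.1 g.2)).1)⟩ := by
      refine Subtype.ext ?_
      rw [AddSubmonoidClass.coe_finsetSum]
      change (evM M L) ^ p = _
      rw [evM, Finsupp.sum, sum_pow_char, ← Finset.sum_attach]
      refine Finset.sum_congr rfl fun g _ => ?_
      change (L g * M g) ^ p = L g ^ p * M (p * g)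
      rw [mul_pow, hM.ms.pow (hL.rep g (Finsupp.mem_support_iff.1 g.2)).1 p]
    rw [e1, map_sum, hyr]
    by_cases h00 : L 0 = 0
    · rw [h00, zero_pow hp.out.ne_zero]
      refine Finset.sum_eq_zero fun g _ => ?_
      have hg0 := Finsupp.mem_support_iff.1 g.2
      have hgG := (hL.rep g hg0).1
      rw [hπ.lin _ (pow_mem (hL.mem g) p), hπ.mon _ (hpG _ hgG) (hpV _ hgG fun h10 => ?_),
        mul_zero]
      rw [h10] at hg0
      exact hg0 h00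
    · rw [Finset.sum_eq_single (⟨0, Finsupp.mem_support_iff.2 h00⟩ : L.support)]
      · rw [hπ.lin _ (pow_mem (hL.mem _) p)]
        have e2 : (⟨M (p * ((⟨0, Finsupp.mem_support_iff.2 h00⟩ : L.support) : ℝ)), PM.mon (by
            rw [mul_zero]
            exact G.zero_mem)⟩ : PM v C G M) = ⟨1, PM.le (one_mem _)⟩ := by
          refine Subtype.ext ?_
          change M (p * 0) = 1
          rw [mul_zero, hM.ms.zero]
        rw [e2, hπ.self 1 (one_mem _), mul_one]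
      · intro g _ hg
        have hg0 := Finsupp.mem_support_iff.1 g.2
        have hgG := (hL.rep g hg0).1
        rw [hπ.lin _ (pow_mem (hL.mem g) p), hπ.mon _ (hpG _ hgG) (hpV _ hgG fun h10 => ?_),
          mul_zero]
        exact hg (Subtype.ext h10)
      · intro h
        exact absurd (Finset.mem_attach _ _) h
  have e3 : π (x ^ p) - π x ^ p = π ((x - y) ^ p) - π (x - y) ^ p := by
    rw [sub_pow_char, map_sub, map_sub, sub_pow_char, h6]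
    ring
  rw [e3]
  exact h5.sub h4

/-! ### `p`-th powers -/

theorem Gx.pg_down (hΩ : CompleteV v) (hM : Gx v A₀ G M) (hi : Imm v A₀ C) (hC : Cld v C)
    (hiA : Imm v A₀ A) (hA : Cld v A) (hAC : A ≤ C) {x : Ω} (hx : x ∈ C) {c : ℝ}
    (h : PG p v (PM v A G M) c x) : PG p v A c x := by
  obtain ⟨π, hπ, hpow⟩ := hM.exists_pi (p := p) hΩ hi hC
  obtain ⟨g, hg, h1⟩ := h
  set g' : PM v C G M := ⟨g, PM.mono hAC hg⟩ with hg'
  refine ⟨π g', hπ.sub A hiA hAC hA _ hg, ?_⟩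
  have h2 := pi_gt hπ (x := ⟨x, PM.le hx⟩ - g' ^ p) h1
  rwa [map_sub, hπ.self x hx, hpow] at h2

theorem Gx.pg_iff (hΩ : CompleteV v) (hM : Gx v A₀ G M) (hi : Imm v A₀ C) (hC : Cld v C)
    (hiA : Imm v A₀ A) (hA : Cld v A) (hAC : A ≤ C) {x : Ω} (hx : x ∈ C) {c : ℝ} :
    PG p v (PM v A G M) c x ↔ PG p v A c x :=
  ⟨hM.pg_down hΩ hi hC hiA hA hAC hx, fun ⟨g, hg, h1⟩ => ⟨g, PM.le hg, h1⟩⟩

theorem Gx.lp_down (hΩ : CompleteV v) (hM : Gx v A₀ G M) (hi : Imm v A₀ C) (hC : Cld v C)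
    (hiA : Imm v A₀ A) (hA : Cld v A) (hAC : A ≤ C) {x : Ω} (hx : x ∈ C) {c : ℝ}
    (h : LP p v (PM v A G M) c x) : LP p v A c x := by
  obtain ⟨π, hπ, hpow⟩ := hM.exists_pi (p := p) hΩ hi hC
  intro ε hε
  obtain ⟨g, hg, h1⟩ := h ε hε
  set g' : PM v C G M := ⟨g, PM.mono hAC hg⟩ with hg'
  refine ⟨π g', hπ.sub A hiA hAC hA _ hg, ?_⟩
  have h2 := hπ.norm (⟨x, PM.le hx⟩ - g' ^ p) _ h1
  rwa [map_sub, hπ.self x hx, hpow] at h2

theorem Gx.lp_iff (hΩ : CompleteV v) (hM : Gx v A₀ G M) (hi : Imm v A₀ C) (hC : Cld v C)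
    (hiA : Imm v A₀ A) (hA : Cld v A) (hAC : A ≤ C) {x : Ω} (hx : x ∈ C) {c : ℝ} :
    LP p v (PM v A G M) c x ↔ LP p v A c x :=
  ⟨hM.lp_down hΩ hi hC hiA hA hAC hx, fun h ε hε => by
    obtain ⟨g, hg, h1⟩ := h ε hε
    exact ⟨g, PM.le hg, h1⟩⟩

theorem Gx.oc_down (hΩ : CompleteV v) (hM : Gx v A₀ G M) (hi : Imm v A₀ C) (hC : Cld v C)
    (hiA : Imm v A₀ A) (hA : Cld v A) (hAC : A ≤ C) (hiB : Imm v A₀ B) (hB : Cld v B)
    (hBC : B ≤ C) {X₀ x : Ω} (hX : X₀ ∈ C) (hx : x ∈ C) {c : ℝ}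
    (h : TWRR.OC p v (PM v A G M) (PM v B G M) X₀ c x) : TWRR.OC p v A B X₀ c x := by
  obtain ⟨π, hπ, hpow⟩ := hM.exists_pi (p := p) hΩ hi hC
  obtain ⟨f, hf, g, hg, h1⟩ := h
  set g' : PM v C G M := ⟨g, PM.mono hBC hg⟩ with hg'
  set f' : PM v C G M := ⟨f, PM.mono hAC hf⟩ with hf'
  refine ⟨π f', hπ.sub A hiA hAC hA _ hf, π g', hπ.sub B hiB hBC hB _ hg, ?_⟩
  have h2 := pi_gt hπ (x := ⟨x, PM.le hx⟩ - ⟨X₀, PM.le hX⟩ * f' ^ p - g' ^ p) (by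
    change Gt v c (x - X₀ * f ^ p - g ^ p)
    rwa [mul_comm X₀])
  rwa [map_sub, map_sub, hπ.self x hx, hπ.lin X₀ hX, hpow, hpow, mul_comm X₀] at h2

theorem Gx.oc_iff (hΩ : CompleteV v) (hM : Gx v A₀ G M) (hi : Imm v A₀ C) (hC : Cld v C)
    (hiA : Imm v A₀ A) (hA : Cld v A) (hAC : A ≤ C) (hiB : Imm v A₀ B) (hB : Cld v B)
    (hBC : B ≤ C) {X₀ x : Ω} (hX : X₀ ∈ C) (hx : x ∈ C) {c : ℝ} :
    TWRR.OC p v (PM v A G M) (PM v B G M) X₀ c x ↔ TWRR.OC p v A B X₀ c x :=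
  ⟨hM.oc_down hΩ hi hC hiA hA hAC hiB hB hBC hX hx, fun ⟨f, hf, g, hg, h1⟩ =>
    ⟨f, PM.le hf, g, PM.le hg, h1⟩⟩

theorem Gx.gp_down (hΩ : CompleteV v) (hM : Gx v A₀ G M) (hi : Imm v A₀ A) (hA : Cld v A)
    (h : TWRR.GP p v (PM v A G M)) : TWRR.GP p v A := by
  intro c hc hc0
  exact hM.pg_down hΩ hi hA hi hA le_rfl hc (h c (PM.le hc) hc0)

end

/-! ### Radii -/

theorem tl_down (hM : MonG v A₀ G M) (hi : Imm v A₀ A) (hB : Imm v A₀ B) (hAB : A ≤ B) {z : Ω}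
    (hz : z ∈ B) {s : ℝ} (h : TL v (PM v A G M) z s) : TL v A z s where
  lim := (lim_pm hM hi hB hAB hz).1 h.lim
  far θ hθ := h.far θ (by
    obtain ⟨f, hf0, hf⟩ := hθ
    refine ⟨f.map (IntermediateField.inclusion (PM.le : A ≤ PM v A G M)).toRingHom, ?_, ?_⟩
    · rwa [Ne, Polynomial.map_eq_zero]
    · rw [aeval_def, eval₂_map]
      exact hf)

theorem tl_pm_iff [IsAlgClosed Ω] (hM : MonG v A₀ G M) (hi : Imm v A₀ A) (hB : Imm v A₀ B)
    (hAB : A ≤ B) {z : Ω} (hz : z ∈ B) {s : ℝ} : TL v (PM v A G M) z s ↔ TL v A z s :=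
  ⟨tl_down hM hi hB hAB hz, TWS.TL.pm hM hi⟩

/-- Pairs. -/
theorem par_pm [IsAlgClosed Ω] (hM : MonG v A₀ G M) (hi : Imm v A₀ C) {z₁ z₂ : Ω} {r₁ r₂ : ℝ}
    (h : Par v C K z₁ r₁ z₂ r₂) : Par v (PM v C G M) (PM v K G M) z₁ r₁ z₂ r₂ where
  t1 := TWS.TL.pm hM hi h.t1
  t2 := TWS.TL.pm hM hi h.t2
  t21 := by
    rw [← PM.cadj]
    exact TWS.TL.pm hM (hi.trans h.t1.imm) h.t21
  t12 := by
    rw [← PM.cadj]
    exact TWS.TL.pm hM (hi.trans h.t2.imm) h.t12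
  eq1 := by rw [← PM.cadj, ← PM.cadj, ← h.eq1]
  eq2 := by rw [← PM.cadj, ← PM.cadj, ← h.eq2]

/-- Pairs, coming down. -/
theorem par_down [IsAlgClosed Ω] (hM : MonG v A₀ G M) (hi : Imm v A₀ C) (hK : Imm v A₀ K) {z₁ z₂ : Ω}
    {r₁ r₂ : ℝ} (hK1 : K = cadj v (cadj v C z₁) z₂) (hK2 : K = cadj v (cadj v C z₂) z₁)
    (h : Par v (PM v C G M) (PM v K G M) z₁ r₁ z₂ r₂) : Par v C K z₁ r₁ z₂ r₂ := by
  have hz1 : z₁ ∈ K := by
    rw [hK2]
    exact self_mem_cadj _ _ _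
  have hz2 : z₂ ∈ K := by
    rw [hK1]
    exact self_mem_cadj _ _ _
  have h1K : cadj v C z₁ ≤ K := by
    rw [hK1]
    exact le_cadj _ _ _
  have h2K : cadj v C z₂ ≤ K := by
    rw [hK2]
    exact le_cadj _ _ _
  have hCK : C ≤ K := (le_cadj _ _ _).trans h1K
  have t1 : TL v C z₁ r₁ := tl_down hM hi hK hCK hz1 h.t1
  have t2 : TL v C z₂ r₂ := tl_down hM hi hK hCK hz2 h.t2
  refine ⟨t1, t2, ?_, ?_, hK1, hK2⟩
  · refine tl_down hM (hi.trans t1.imm) hK h1K hz2 ?_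
    rw [PM.cadj]
    exact h.t21
  · refine tl_down hM (hi.trans t2.imm) hK h2K hz1 ?_
    rw [PM.cadj]
    exact h.t12

/-! ### Components -/

theorem mon_neg_mem {g : ℝ} (hg : g ∈ G) : M (-g) ∈ PM v C G M := PM.mon (G.neg_mem hg)

/-- The components of a sum. -/
theorem Gx.pi_comp {π : PM v C G M →ₗ[k] Ω} (hM : Gx v A₀ G M) (hπ : Pi0 v A₀ C G M π)
    {L : ℝ →₀ Ω} (hL : NF v A₀ C G L) {g : ℝ} (hg : g ∈ G) :
    π (⟨M (-g), mon_neg_mem hg⟩ * ⟨evM M L, evM_mem_PM hL⟩) = L g := by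
  classical
  have e1 : (⟨M (-g), mon_neg_mem hg⟩ * ⟨evM M L, evM_mem_PM hL⟩ : PM v C G M) =
      ∑ i ∈ L.support.attach, (⟨L i, PM.le (hL.mem i)⟩ : PM v C G M) *
        ⟨M (i - g), PM.mon (G.sub_mem (hL.rep i (Finsupp.mem_support_iff.1 i.2)).1 hg)⟩ := by
    refine Subtype.ext ?_
    rw [AddSubmonoidClass.coe_finsetSum]
    change M (-g) * (evM M L) = _
    rw [evM, Finsupp.sum, ← Finset.sum_attach, Finset.mul_sum]
    refine Finset.sum_congr rfl fun i _ => ?_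
    change M (-g) * (L i * M i) = L i * M (i - g)
    rw [sub_eq_add_neg, hM.ms.mul _ (hL.rep i (Finsupp.mem_support_iff.1 i.2)).1 _ (G.neg_mem hg)]
    ring
  rw [e1, map_sum]
  have h0 : ∀ i : L.support, (i : ℝ) ≠ g → π ((⟨L i, PM.le (hL.mem i)⟩ : PM v C G M) *
        ⟨M (i - g), PM.mon (G.sub_mem (hL.rep i (Finsupp.mem_support_iff.1 i.2)).1 hg)⟩) = 0 := by
    intro i hi
    have hiG := G.sub_mem (hL.rep i (Finsupp.mem_support_iff.1 i.2)).1 hg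
    rw [hπ.lin _ (hL.mem i), hπ.mon _ hiG fun h => hi (sub_eq_zero.1 (hM.ind _ hiG h)), mul_zero]
  by_cases h00 : L g = 0
  · rw [h00]
    refine Finset.sum_eq_zero fun i _ => h0 i fun h => ?_
    exact Finsupp.mem_support_iff.1 i.2 (by rw [h, h00])
  · rw [Finset.sum_eq_single (⟨g, Finsupp.mem_support_iff.2 h00⟩ : L.support)]
    · rw [hπ.lin _ (hL.mem _)]
      have e2 : (⟨M (((⟨g, Finsupp.mem_support_iff.2 h00⟩ : L.support) : ℝ) - g),
          PM.mon (G.sub_mem (hL.rep _ h00).1 hg)⟩ : PM v C G M) = ⟨1, PM.le (one_mem _)⟩ := by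
        refine Subtype.ext ?_
        change M (g - g) = 1
        rw [sub_self, hM.ms.zero]
      rw [e2, hπ.self 1 (one_mem _), mul_one]
    · intro i _ hi
      exact h0 i fun h => hi (Subtype.ext h)
    · intro h
      exact absurd (Finset.mem_attach _ _) h

section

variable {p : ℕ} [hp : Fact p.Prime] [CharP Ω p]

omit [CharP Ω p] in
/-- The monomials are `p`-th powers. -/
theorem Gx.mon_root (hM : Gx v A₀ G M) (hG : ∀ g ∈ G, g / p ∈ G) {g : ℝ} (hg : g ∈ G) :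
    M g = M (g / p) ^ p := by
  have hp0 : (p : ℝ) ≠ 0 := by exact_mod_cast hp.out.ne_zero
  rw [← hM.ms.pow (hG g hg) p, mul_div_cancel₀ _ hp0]

omit [CharP Ω p] in
/-- Multiplication by a monomial. -/
theorem Gx.pg_mul (hM : Gx v A₀ G M) (hG : ∀ g ∈ G, g / p ∈ G) {g : ℝ} (hg : g ∈ G) {c : ℝ}
    {x : Ω} (h : PG p v (PM v A G M) c x) : PG p v (PM v A G M) (c + g) (M g * x) := by
  obtain ⟨f, hf, h1⟩ := h
  refine ⟨M (g / p) * f, mul_mem (PM.mon (hG g hg)) hf, ?_⟩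
  have e : M g * x - (M (g / p) * f) ^ p = (x - f ^ p) * M g := by
    rw [mul_pow, ← hM.mon_root hG hg]
    ring
  rw [e]
  have h2 := h1.mul_ge (RVal.ge_self (v := v) (M g))
  rwa [hM.ms.val g hg] at h2

omit [CharP Ω p] in
theorem Gx.lp_mul (hM : Gx v A₀ G M) (hG : ∀ g ∈ G, g / p ∈ G) {g : ℝ} (hg : g ∈ G) {c : ℝ}
    {x : Ω} (h : LP p v (PM v A G M) c x) : LP p v (PM v A G M) (c + g) (M g * x) := by
  intro ε hε
  obtain ⟨f, hf, h1⟩ := h ε hε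
  refine ⟨M (g / p) * f, mul_mem (PM.mon (hG g hg)) hf, ?_⟩
  have e : M g * x - (M (g / p) * f) ^ p = (x - f ^ p) * M g := by
    rw [mul_pow, ← hM.mon_root hG hg]
    ring
  rw [e]
  have h2 := h1.mul (RVal.ge_self (v := v) (M g))
  rw [hM.ms.val g hg] at h2
  exact h2.mono (by linarith)

omit hp [CharP Ω p] in
/-- The projection of a limit of `p`-th powers. -/
theorem pi_lp {π : PM v C G M →ₗ[k] Ω} (hπ : Pi0 v A₀ C G M π) (hpow : ∀ x, π (x ^ p) = π x ^ p)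
    (hiA : Imm v A₀ A) (hA : Cld v A) (hAC : A ≤ C) {x : PM v C G M} {c : ℝ}
    (h : LP p v (PM v A G M) c (x : Ω)) : LP p v A c (π x) := by
  intro ε hε
  obtain ⟨g, hg, h1⟩ := h ε hε
  refine ⟨π ⟨g, PM.mono hAC hg⟩, hπ.sub A hiA hAC hA _ hg, ?_⟩
  have h2 := hπ.norm (x - ⟨g, PM.mono hAC hg⟩ ^ p) _ h1
  rwa [map_sub, hpow] at h2

omit hp [CharP Ω p] in
theorem pi_pg {π : PM v C G M →ₗ[k] Ω} (hπ : Pi0 v A₀ C G M π) (hpow : ∀ x, π (x ^ p) = π x ^ p)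
    (hiA : Imm v A₀ A) (hA : Cld v A) (hAC : A ≤ C) {x : PM v C G M} {c : ℝ}
    (h : PG p v (PM v A G M) c (x : Ω)) : PG p v A c (π x) := by
  obtain ⟨g, hg, h1⟩ := h
  refine ⟨π ⟨g, PM.mono hAC hg⟩, hπ.sub A hiA hAC hA _ hg, ?_⟩
  have h2 := pi_gt hπ (x := x - ⟨g, PM.mono hAC hg⟩ ^ p) h1
  rwa [map_sub, hpow] at h2

/-- **`x` is null if all its components are null.** -/
theorem Gx.pg_of_all {π : PM v C G M →ₗ[k] Ω} (hM : Gx v A₀ G M) (hG : ∀ g ∈ G, g / p ∈ G)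
    (hπ : Pi0 v A₀ C G M π) (hiA : Imm v A₀ A) (hAC : A ≤ C) {x : Ω} (hx : x ∈ PM v A G M)
    {c : ℝ} (h : ∀ g, ∀ hg : g ∈ G, PG p v A (c - g)
      (π (⟨M (-g), mon_neg_mem hg⟩ * ⟨x, PM.mono hAC hx⟩))) : PG p v (PM v A G M) c x := by
  classical
  obtain ⟨L, hL, h1⟩ := dense_PM hM.mon hiA hx (c + 1)
  have h2 : ∀ g ∈ L.support, PG p v (PM v A G M) c (L g * M g) := by
    intro g hg
    have hg0 := Finsupp.mem_support_iff.1 hg
    have hgG := (hL.rep g hg0).1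
    have h3 : PG p v A (c - g) (L g) := by
      have h4 := hM.pi_comp hπ (hL.mono hAC) hgG
      have h5 : Gt v (c - g) (L g - π (⟨M (-g), mon_neg_mem hgG⟩ * ⟨x, PM.mono hAC hx⟩)) := by
        rw [← h4, ← map_sub, ← mul_sub]
        refine pi_gt hπ ?_
        change Gt v (c - g) (M (-g) * (evM M L - x))
        refine Gt.of_ge (r' := c + 1 - g) ?_ (by linarith)
        have h6 := (RVal.ge_self (v := v) (M (-g))).mul (ge_sub_comm h1)
        rw [hM.ms.val _ (G.neg_mem hgG)] at h6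
        exact h6.mono (by linarith)
      have h6 := (PG.of_gt (p := p) (F := A) h5).add (h g hgG)
      rwa [sub_add_cancel] at h6
    have h7 : PG p v (PM v A G M) (c - g) (L g) := by
      obtain ⟨f, hf, h8⟩ := h3
      exact ⟨f, PM.le hf, h8⟩
    have h8 := hM.pg_mul hG hgG h7
    rwa [sub_add_cancel, mul_comm] at h8
  have h3 : ∀ T : Finset ℝ, T ⊆ L.support →
      PG p v (PM v A G M) c (∑ g ∈ T, L g * M g) := by
    intro T
    induction T using Finset.induction_on with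
    | empty =>
      intro _
      rw [Finset.sum_empty]
      exact PG.of_gt Gt.zero
    | insert g T hgT ih =>
      intro hT
      rw [Finset.sum_insert hgT]
      exact (h2 g (hT (Finset.mem_insert_self _ _))).add
        (ih fun i hi => hT (Finset.mem_insert_of_mem hi))
  have h4 : PG p v (PM v A G M) c (x - evM M L) := PG.of_gt (Gt.of_ge h1 (by linarith))
  have h5 := h4.add (h3 L.support (Finset.Subset.refl _))
  have e : x - evM M L + ∑ g ∈ L.support, L g * M g = x := by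
    rw [evM, Finsupp.sum]
    ring
  rwa [e] at h5

/-! ### Hits -/

theorem Gx.hit_pm (hΩ : CompleteV v) (hM : Gx v A₀ G M) (hi : Imm v A₀ F) (hF : Cld v F)
    {y : Ω} {s : ℝ} (h : Hit p v F y s) : Hit p v (PM v F G M) y s := by
  obtain ⟨ν, b₀, B, T, j, hb, hc, hl, hj0, hjT, hn⟩ := h
  refine ⟨ν, b₀, B, T, j, PM.le hb, ⟨fun i => PM.le (hc.mem i), hc.lin, fun i hi0 ε hε => ?_⟩,
    fun ε hε => ?_, hj0, hjT, fun h => hn (hM.pg_down hΩ hi hF hi hF le_rfl (hc.mem j) h)⟩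
  · obtain ⟨g, hg, h1⟩ := hc.lev i hi0 ε hε
    exact ⟨g, PM.le hg, h1⟩
  · obtain ⟨g, hg, h1⟩ := hl ε hε
    exact ⟨g, cadj_mono PM.le _ hg, h1⟩

theorem Gx.hit_down (hΩ : CompleteV v) (hM : Gx v A₀ G M) (hG : ∀ g ∈ G, g / p ∈ G)
    (hi : Imm v A₀ F) (hF : Cld v F) {y : Ω} {s : ℝ} (hy : Imm v A₀ (cadj v F y))
    (h : Hit p v (PM v F G M) y s) : Hit p v F y s := by
  obtain ⟨ν, b₀, B, T, j, hb, hc, hl, hj0, hjT, hn⟩ := h
  obtain ⟨π, hπ, hpow⟩ := hM.exists_pi (p := p) hΩ hy (cld_cadj v F y)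
  have hFy : F ≤ cadj v F y := le_cadj _ _ _
  have h1 : ∃ g, ∃ hg : g ∈ G, ¬ PG p v F (ν - p ^ j * s - g)
      (π (⟨M (-g), mon_neg_mem hg⟩ * ⟨B j, PM.mono hFy (hc.mem j)⟩)) := by
    by_contra h2
    push Not at h2
    exact hn (hM.pg_of_all hG hπ hi hFy (hc.mem j) h2)
  obtain ⟨g, hg, h2⟩ := h1
  have hmem : ∀ x, ∀ hx : x ∈ PM v F G M,
      π (⟨M (-g), mon_neg_mem hg⟩ * ⟨x, PM.mono hFy hx⟩) ∈ F := fun x hx =>
    hπ.sub F hi hFy hF _ (mul_mem (mon_neg_mem hg) hx)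
  refine ⟨ν - g, π (⟨M (-g), mon_neg_mem hg⟩ * ⟨b₀, PM.mono hFy hb⟩),
    fun i => π (⟨M (-g), mon_neg_mem hg⟩ * ⟨B i, PM.mono hFy (hc.mem i)⟩), T, j, hmem _ hb,
    ⟨fun i => hmem _ (hc.mem i), ?_, fun i hi0 => ?_⟩, ?_, hj0, hjT, fun h3 => h2 ?_⟩
  · refine hπ.norm _ _ ?_
    have h3 := (RVal.ge_self (v := v) (M (-g))).mul hc.lin
    rw [hM.ms.val _ (G.neg_mem hg)] at h3
    exact h3.mono (by linarith)
  · refine pi_lp hπ hpow hi hF hFy ?_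
    have h3 := hM.lp_mul hG (G.neg_mem hg) (hc.lev i hi0)
    have e : ν - g - (p : ℝ) ^ i * s = ν - p ^ i * s + -g := by ring
    rw [e]
    exact h3
  · have hyy : y ∈ cadj v F y := self_mem_cadj _ _ _
    have h3 : LP p v (PM v (cadj v F y) G M) (ν + -g) (M (-g) * (b₀ + col p B y T)) := by
      refine hM.lp_mul hG (G.neg_mem hg) ?_
      rw [PM.cadj]
      exact hl
    have hbc : b₀ + col p B y T ∈ PM v (cadj v F y) G M :=
      add_mem (PM.mono hFy hb) (sum_mem fun i _ => mul_mem (PM.mono hFy (hc.mem i))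
        (pow_mem (PM.le hyy) _))
    have h4 := pi_lp (x := (⟨M (-g), mon_neg_mem hg⟩ * ⟨_, hbc⟩ : PM v (cadj v F y) G M))
      hπ hpow hy (cld_cadj v F y) le_rfl h3
    have e1 : (⟨M (-g), mon_neg_mem hg⟩ * ⟨_, hbc⟩ : PM v (cadj v F y) G M) =
        ⟨M (-g), mon_neg_mem hg⟩ * ⟨b₀, PM.mono hFy hb⟩ +
        ∑ i ∈ range (T + 1), (⟨y ^ p ^ i, PM.le (pow_mem hyy _)⟩ : PM v (cadj v F y) G M) *
          (⟨M (-g), mon_neg_mem hg⟩ * ⟨B i, PM.mono hFy (hc.mem i)⟩) := by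
      refine Subtype.ext ?_
      change M (-g) * (b₀ + col p B y T) = M (-g) * b₀ + ((∑ i ∈ range (T + 1),
        (⟨y ^ p ^ i, PM.le (pow_mem hyy _)⟩ : PM v (cadj v F y) G M) *
          (⟨M (-g), mon_neg_mem hg⟩ * ⟨B i, PM.mono hFy (hc.mem i)⟩) : PM v (cadj v F y) G M) : Ω)
      rw [AddSubmonoidClass.coe_finsetSum, mul_add, col, Finset.mul_sum]
      congr 1
      refine Finset.sum_congr rfl fun i _ => ?_
      change _ = y ^ p ^ i * (M (-g) * B i)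
      ring
    rw [e1, map_add, map_sum] at h4
    have e2 : ∑ i ∈ range (T + 1), π ((⟨y ^ p ^ i, PM.le (pow_mem hyy _)⟩ :
        PM v (cadj v F y) G M) * (⟨M (-g), mon_neg_mem hg⟩ * ⟨B i, PM.mono hFy (hc.mem i)⟩)) =
        col p (fun i => π (⟨M (-g), mon_neg_mem hg⟩ * ⟨B i, PM.mono hFy (hc.mem i)⟩)) y T := by
      rw [col]
      refine Finset.sum_congr rfl fun i _ => ?_
      rw [hπ.lin _ (pow_mem hyy _)]
      ring
    rw [e2] at h4
    exact h4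
  · have e : ν - (p : ℝ) ^ j * s - g = ν - g - p ^ j * s := by ring
    rw [e]
    exact h3

theorem Gx.hit_iff (hΩ : CompleteV v) (hM : Gx v A₀ G M) (hG : ∀ g ∈ G, g / p ∈ G)
    (hi : Imm v A₀ F) (hF : Cld v F) {y : Ω} {s : ℝ} (hy : Imm v A₀ (cadj v F y)) :
    Hit p v (PM v F G M) y s ↔ Hit p v F y s :=
  ⟨hM.hit_down hΩ hG hi hF hy, hM.hit_pm hΩ hi hF⟩

end

end Pool.Agent.TWCT
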