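import Pool.Agent.Lib.TWCT.GssJ

/-!
# TANK W: change of the scales

`w ↦ w / a`, `y ↦ y / d`, the level divided by `n ^ p`.
* `nrm_scale`, `jl_scale`, `ocls_scale`: `Nrm`, `JL`, `OClsJ`;
* `exists_unscale`: `JL` and `OClsJ` back;
* `Gx.exists_j1`: from the radii and the level `0` over `PM v C G M` to the general ones over `C`.
-/

set_option autoImplicit false

open Polynomial Finset

namespace Pool.Agent.TWCT

open Pool.Agent.H15JM (RVal)
open Pool.Agent.LU1 (VPos adj)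
open Pool.Agent.LUC (Cl)
open Pool.Agent.D2 (Ctx0)
open Pool.Agent.D2P (hen clI mem_clI)
open Pool.Agent.TWM
open Pool.Agent.TWS hiding VG
open Pool.Agent.TWII (PG LP)
open Pool.Agent.TWN1 (Par Col col fth Dt Adm Nrm)
open Pool.Agent.TWRR (JL OC OClsJ ef ef_eval RatH)

universe u

variable {k Ω : Type u} [Field k] [Field Ω] [Algebra k Ω] {v : RVal Ω}
  {A₀ A B C F K : IntermediateField k Ω} {G : AddSubgroup ℝ} {M : ℝ → Ω}

/-! ### Polynomials -/

/-- `f (a X)`. -/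
noncomputable def sc (a : Ω) (f : Polynomial Ω) : Polynomial Ω := f.comp (Polynomial.C a * X)

theorem sc_coeff (a : Ω) (f : Polynomial Ω) (i : ℕ) : (sc a f).coeff i = f.coeff i * a ^ i :=
  comp_C_mul_X_coeff

theorem sc_eval (a : Ω) (f : Polynomial Ω) (x : Ω) : (sc a f).eval x = f.eval (a * x) := by
  rw [sc, eval_comp, eval_mul, eval_C, eval_X]

theorem sc_eval' {a : Ω} (ha : a ≠ 0) (f : Polynomial Ω) (w : Ω) :
    (sc a f).eval (w / a) = f.eval w := by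
  rw [sc_eval, mul_div_cancel₀ _ ha]

theorem sc_mem {a : Ω} (ha : a ∈ A) {f : Polynomial Ω} (hf : f ∈ PI A) : sc a f ∈ PI A := by
  intro i
  rw [sc_coeff]
  exact mul_mem (hf i) (pow_mem ha i)

theorem sc_sc (a b : Ω) (f : Polynomial Ω) : sc a (sc b f) = sc (a * b) f := by
  ext i
  rw [sc_coeff, sc_coeff, sc_coeff, mul_pow]
  ring

theorem sc_one (f : Polynomial Ω) : sc 1 f = f := by
  ext i
  rw [sc_coeff, one_pow, mul_one]

theorem sc_zero (a : Ω) : sc a (0 : Polynomial Ω) = 0 := by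
  ext i
  rw [sc_coeff, coeff_zero, zero_mul]

theorem sc_C_mul (a b : Ω) (f : Polynomial Ω) :
    sc a (Polynomial.C b * f) = Polynomial.C b * sc a f := by
  ext i
  rw [sc_coeff, coeff_C_mul, coeff_C_mul, sc_coeff]
  ring

theorem hasse_sc (l : ℕ) (a : Ω) (f : Polynomial Ω) :
    hasseDeriv l (sc a f) = Polynomial.C (a ^ l) * sc a (hasseDeriv l f) := by
  ext i
  rw [hasseDeriv_coeff, sc_coeff, coeff_C_mul, sc_coeff, hasseDeriv_coeff, pow_add]
  ring

theorem hasse_C_mul (l : ℕ) (b : Ω) (f : Polynomial Ω) :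
    hasseDeriv l (Polynomial.C b * f) = Polynomial.C b * hasseDeriv l f := by
  ext i
  rw [hasseDeriv_coeff, coeff_C_mul, coeff_C_mul, hasseDeriv_coeff]
  ring

theorem cadj_div {a : Ω} (ha : a ∈ A) (ha0 : a ≠ 0) (w : Ω) : cadj v A (w / a) = cadj v A w := by
  refine le_antisymm (cadj_le (cld_cadj _ _ _) (le_cadj _ _ _) ?_)
    (cadj_le (cld_cadj _ _ _) (le_cadj _ _ _) ?_)
  · exact div_mem (self_mem_cadj _ _ _) (le_cadj _ _ _ ha)
  · have h1 : w / a * a ∈ cadj v A (w / a) := mul_mem (self_mem_cadj _ _ _) (le_cadj _ _ _ ha)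
    rwa [div_mul_cancel₀ _ ha0] at h1

/-! ### `p`-th powers -/

section

variable {p : ℕ}

theorem pg_smul {t : Ω} (ht : t ∈ F) (ht0 : t ≠ 0) {r r' : ℝ} {x : Ω} (h : PG p v F r x)
    (hr : r' = r + p * v t) : PG p v F r' (t ^ p * x) := by
  obtain ⟨g, hg, h1⟩ := h
  refine ⟨t * g, mul_mem ht hg, ?_⟩
  have e : t ^ p * x - (t * g) ^ p = (x - g ^ p) * t ^ p := by ring
  rw [e, hr]
  have h2 := h1.mul_ge (RVal.ge_self (v := v) (t ^ p))
  rwa [v.map_pow ht0] at h2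

theorem lp_smul {t : Ω} (ht : t ∈ F) (ht0 : t ≠ 0) {r r' : ℝ} {x : Ω} (h : LP p v F r x)
    (hr : r' = r + p * v t) : LP p v F r' (t ^ p * x) := by
  intro ε hε
  obtain ⟨g, hg, h1⟩ := h ε hε
  refine ⟨t * g, mul_mem ht hg, ?_⟩
  have e : t ^ p * x - (t * g) ^ p = (x - g ^ p) * t ^ p := by ring
  rw [e, hr]
  have h2 := h1.mul (RVal.ge_self (v := v) (t ^ p))
  rw [v.map_pow ht0] at h2
  exact h2.mono (by linarith)

theorem oc_smul {X₀ t : Ω} (ht : t ∈ A) (htF : t ∈ F) (ht0 : t ≠ 0) {r r' : ℝ} {x : Ω}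
    (h : OC p v A F X₀ r x) (hr : r' = r + p * v t) : OC p v A F X₀ r' (t ^ p * x) := by
  obtain ⟨g, hg, h1⟩ := h
  refine ⟨t * g, mul_mem ht hg, ?_⟩
  have h2 := pg_smul htF ht0 h1 hr
  have e : t ^ p * x - (t * g) ^ p * X₀ = t ^ p * (x - g ^ p * X₀) := by ring
  rwa [e]

end

/-! ### The normal form -/

section

variable {p : ℕ} [hp : Fact p.Prime] [CharP Ω p] {w y X₀ : Ω} {ρ s ν : ℝ} {e e' : Ω} {c : ℕ → Ω}
  {N J D : ℕ} {P R : Polynomial Ω} {φ : ℕ → Polynomial Ω} {a d n : Ω}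

/-- The new coefficients. -/
noncomputable def cs (p : ℕ) (c : ℕ → Ω) (d n : Ω) (i : ℕ) : Ω := c i * d ^ p ^ i / n ^ p

omit hp [CharP Ω p] in
theorem cs_eq {i : ℕ} (hi : 1 ≤ i) : cs p c d n i = (d ^ p ^ (i - 1) / n) ^ p * c i := by
  obtain ⟨j, rfl⟩ := Nat.exists_eq_add_of_le' hi
  rw [cs, Nat.add_sub_cancel, div_pow, ← pow_mul, ← pow_succ]
  ring

omit hp [CharP Ω p] in
theorem val_sc (hd : d ≠ 0) (hn : n ≠ 0) (j : ℕ) :
    (p : ℝ) * v (d ^ p ^ j / n) = p ^ (j + 1) * v d - p * v n := by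
  rw [v.map_div (pow_ne_zero _ hd) hn, v.map_pow hd]
  push_cast
  ring

omit hp [CharP Ω p] in
theorem dt_scale (hd : d ∈ K) (hd0 : d ≠ 0) (hn : n ∈ K) (hn0 : n ≠ 0) (hKF : K ≤ F)
    (h : Dt p v K F s ν e c N) :
    Dt p v K F (s - v d) (ν - p * v n) (e * d / n ^ p) (cs p c d n) N where
  N1 := h.N1
  eC := div_mem (mul_mem h.eC hd) (pow_mem hn p)
  ege := by
    have h1 := (h.ege.mul (RVal.ge_self (v := v) d)).mul (RVal.ge_self (v := v) (n ^ p)⁻¹)
    rw [v.map_inv (pow_ne_zero p hn0), v.map_pow hn0] at h1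
    rw [div_eq_mul_inv]
    exact h1.mono (by linarith)
  AC i hi := div_mem (mul_mem (h.AC i hi) (pow_mem hd _)) (pow_mem hn p)
  Alp i hi := by
    have hi1 := (mem_Icc.1 hi).1
    have ht : d ^ p ^ (i - 1) / n ∈ K := div_mem (pow_mem hd _) hn
    have ht0 : d ^ p ^ (i - 1) / n ≠ 0 := div_ne_zero (pow_ne_zero _ hd0) hn0
    rw [cs_eq hi1]
    refine lp_smul (hKF ht) ht0 (h.Alp i hi) ?_
    rw [val_sc hd0 hn0, Nat.sub_add_cancel hi1]
    ring
  top h1 := by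
    have hi1 := h.N1
    have ht : d ^ p ^ (N - 1) / n ∈ K := div_mem (pow_mem hd _) hn
    have ht0 : d ^ p ^ (N - 1) / n ≠ 0 := div_ne_zero (pow_ne_zero _ hd0) hn0
    rw [cs_eq hi1] at h1
    refine h.top ?_
    have h2 := pg_smul (r' := ν - p ^ N * s) (inv_mem (hKF ht)) (inv_ne_zero ht0) h1 (by
      rw [v.map_inv ht0]
      have := val_sc (v := v) (p := p) hd0 hn0 (N - 1)
      rw [Nat.sub_add_cancel hi1] at this
      linarith)
    rwa [inv_pow, inv_mul_cancel_left₀ (pow_ne_zero p ht0)] at h2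

omit hp [CharP Ω p] in
theorem adm_scale (ha : a ∈ K) (ha0 : a ≠ 0) (hd : d ∈ K) (hd0 : d ≠ 0)
    (he : e' ≠ 0 → e ≠ 0) (h : Adm p v K ρ s e J R) :
    Adm p v K (ρ - v a) (s - v d) e' J (Polynomial.C d⁻¹ * sc a R) := by
  have hsupp : ∀ j ∈ (Polynomial.C d⁻¹ * sc a R).support, j ∈ R.support := by
    intro j hj
    rw [mem_support_iff, coeff_C_mul, sc_coeff] at hj
    rw [mem_support_iff]
    intro h0
    rw [h0, zero_mul, mul_zero] at hj
    exact hj rfl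
  exact
  { mem := mul_mem (C_mem_PI (inv_mem hd)) (sc_mem ha h.mem)
    low := fun j hj => h.low j (hsupp j hj)
    bin := fun j hj => h.bin j (hsupp j hj)
    pdv := fun he' j hj => h.pdv (he he') j (hsupp j hj)
    siz := fun j => by
      rw [coeff_C_mul, sc_coeff]
      have h1 := (RVal.ge_self (v := v) d⁻¹).mul ((h.siz j).mul (RVal.ge_self (v := v) (a ^ j)))
      rw [v.map_inv hd0, v.map_pow ha0] at h1
      exact h1.mono (by linarith) }

omit hp [CharP Ω p] in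
/-- The value of `fth`. -/
theorem fth_scale (ha0 : a ≠ 0) (hd0 : d ≠ 0) (θ : Polynomial Ω) :
    (fth p (e * d / n ^ p) (cs p c d n) N (Polynomial.C (n ^ p)⁻¹ * sc a P)
      (Polynomial.C d⁻¹ * sc a θ)).eval (w / a) = (fth p e c N P θ).eval w / n ^ p := by
  rw [fth, fth, eval_add, eval_add, eval_add, eval_add, eval_mul, eval_mul, eval_mul, eval_mul,
    eval_C, eval_C, eval_C, eval_C, sc_eval' ha0, sc_eval' ha0, eval_finsetSum, eval_finsetSum,
    add_div, add_div, Finset.sum_div]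
  congr 1
  · congr 1
    · field_simp
    · refine Finset.sum_congr rfl fun i _ => ?_
      rw [eval_mul, eval_mul, eval_C, eval_C, eval_pow, eval_pow, eval_mul, eval_C, sc_eval' ha0,
        cs, mul_pow, inv_pow]
      field_simp
  · field_simp

omit [CharP Ω p] in
theorem nrm_scale (ha : a ∈ K) (ha0 : a ≠ 0) (hd : d ∈ K) (hd0 : d ≠ 0) (hn : n ∈ K)
    (hn0 : n ≠ 0) (h : Nrm p v K w y ρ s ν e c N P J R) :
    Nrm p v K (w / a) (y / d) (ρ - v a) (s - v d) (ν - p * v n) (e * d / n ^ p) (cs p c d n) N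
      (Polynomial.C (n ^ p)⁻¹ * sc a P) J (Polynomial.C d⁻¹ * sc a R) where
  toDt := by
    rw [cadj_div ha ha0]
    exact dt_scale hd hd0 hn hn0 (le_cadj _ _ _) h.toDt
  toAdm := adm_scale ha ha0 hd hd0 (fun h1 h2 => h1 (by rw [h2, zero_mul, zero_div])) h.toAdm
  BC := mul_mem (C_mem_PI (inv_mem (pow_mem hn p))) (sc_mem ha h.BC)
  BX l hl hpl := by
    rw [hasse_C_mul, hasse_sc, h.BX l hl hpl, sc_zero, mul_zero, mul_zero]
  B1 := by
    rw [hasse_C_mul, hasse_sc, eval_mul, eval_C, eval_mul, eval_C, sc_eval' ha0, pow_one]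
    have h1 := (RVal.ge_self (v := v) (n ^ p)⁻¹).mul ((RVal.ge_self (v := v) a).mul h.B1)
    rw [v.map_inv (pow_ne_zero p hn0), v.map_pow hn0] at h1
    exact h1.mono (by linarith)
  eB := by
    rcases h.eB with h1 | h1
    · exact Or.inl (by rw [h1, zero_mul, zero_div])
    · refine Or.inr ?_
      rw [hasse_C_mul, hasse_sc, h1, sc_zero, mul_zero, mul_zero]
  fam ε hε := by
    obtain ⟨θ, hθ, h1, h2, h3, h4⟩ := h.fam ε hε
    refine ⟨Polynomial.C d⁻¹ * sc a θ, mul_mem (C_mem_PI (inv_mem hd)) (sc_mem ha hθ),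
      fun i hi => ?_, fun he l hl => ?_, ?_, ?_⟩
    · rw [coeff_C_mul, coeff_C_mul, sc_coeff, sc_coeff, h1 i hi]
    · rw [hasse_C_mul, hasse_sc, h2 (fun h5 => he (by rw [h5, zero_mul, zero_div])) l hl, sc_zero,
        mul_zero, mul_zero]
    · rw [eval_mul, eval_C, sc_eval' ha0]
      have h5 := h3.mul (RVal.ge_self (v := v) d⁻¹)
      rw [v.map_inv hd0] at h5
      have e1 : y / d - d⁻¹ * θ.eval w = (y - θ.eval w) * d⁻¹ := by
        rw [div_eq_mul_inv]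
        ring
      rw [e1]
      exact h5.mono (by linarith)
    · rw [cadj_div ha ha0, fth_scale ha0 hd0]
      have h5 := lp_smul (r' := ν - p * v n - ε) (inv_mem (le_cadj v K w hn)) (inv_ne_zero hn0) h4
        (by
          rw [v.map_inv hn0]
          ring)
      have e9 : (fth p e c N P θ).eval w / n ^ p = n⁻¹ ^ p * (fth p e c N P θ).eval w := by
        rw [inv_pow, div_eq_mul_inv, mul_comm]
      rw [e9]
      exact h5

omit hp [CharP Ω p] in
/-- **The jets.** -/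
theorem jl_scale (ha : a ∈ C) (ha0 : a ≠ 0) (hd : d ∈ C) (hd0 : d ≠ 0) (he : e' = 0 ↔ e = 0)
    (h : JL p v C w y ρ s e J φ D) :
    JL p v C (w / a) (y / d) (ρ - v a) (s - v d) e' J
      (fun j => Polynomial.C (a ^ j / d) * sc a (φ j)) D where
  mem j := mul_mem (C_mem_PI (div_mem (pow_mem ha j) hd)) (sc_mem ha (h.mem j))
  deg j hj := by
    rw [h.deg j hj, sc_zero, mul_zero]
  X he' j hj := by
    rw [h.X (fun h0 => he' (he.2 h0)) j hj, sc_zero, mul_zero]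
  lim := by
    obtain ⟨ε₀, h1, h2⟩ := h.lim
    refine ⟨ε₀, h1, fun ε θ hε hε' hθ hdeg hX hy j hj => ?_⟩
    set τ : Polynomial Ω := Polynomial.C d * sc a⁻¹ θ with hτ
    have hθτ : θ = Polynomial.C d⁻¹ * sc a τ := by
      rw [hτ, sc_C_mul, sc_sc, mul_inv_cancel₀ ha0, sc_one, ← mul_assoc, ← C_mul,
        inv_mul_cancel₀ hd0, C_1, one_mul]
    have h3 := h2 ε τ hε hε' (mul_mem (C_mem_PI hd) (sc_mem (inv_mem ha) hθ)) (by
      refine natDegree_le_iff_coeff_eq_zero.2 fun i hi => ?_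
      rw [hτ, coeff_C_mul, sc_coeff, coeff_eq_zero_of_natDegree_lt (lt_of_le_of_lt hdeg hi),
        zero_mul, mul_zero]) (fun he0 l hl => by
      rw [hτ, hasse_C_mul, hasse_sc, hX (fun h0 => he0 (he.1 h0)) l hl, sc_zero, mul_zero,
        mul_zero]) (by
      have h4 := hy.mul (RVal.ge_self (v := v) d)
      have e1 : (y / d - θ.eval (w / a)) * d = y - τ.eval w := by
        rw [hθτ, eval_mul, eval_C, sc_eval' ha0, sub_mul, div_mul_cancel₀ _ hd0]
        field_simp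
      rw [e1] at h4
      exact h4.mono (by linarith)) j hj
    have e2 : (hasseDeriv j θ).eval (w / a) -
        (Polynomial.C (a ^ j / d) * sc a (φ j)).eval (w / a) =
        ((hasseDeriv j τ).eval w - (φ j).eval w) * (a ^ j / d) := by
      rw [hθτ, hasse_C_mul, hasse_sc, eval_mul, eval_C, eval_mul, eval_C, sc_eval' ha0, eval_mul,
        eval_C, sc_eval' ha0]
      field_simp
    rw [e2]
    have h5 := h3.mul (RVal.ge_self (v := v) (a ^ j / d))
    rw [v.map_div (pow_ne_zero j ha0) hd0, v.map_pow ha0] at h5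
    exact h5.mono (by linarith)

omit [CharP Ω p] in
/-- **The class.** -/
theorem ocls_scale (ha : a ∈ C) (ha0 : a ≠ 0) (hd0 : d ≠ 0) (hn : n ∈ C) (hn0 : n ≠ 0)
    (h : OClsJ p v C w ρ ν e c N P φ X₀) :
    OClsJ p v C (w / a) (ρ - v a) (ν - p * v n) (e * d / n ^ p) (cs p c d n) N
      (Polynomial.C (n ^ p)⁻¹ * sc a P) (fun j => Polynomial.C (a ^ j / d) * sc a (φ j)) X₀ := by
  intro l hl hpl
  obtain ⟨q, rfl⟩ := hpl
  have hp0 : p ≠ 0 := hp.out.ne_zero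
  have ht : a ^ q / n ∈ C := div_mem (pow_mem ha q) hn
  have ht0 : a ^ q / n ≠ 0 := div_ne_zero (pow_ne_zero q ha0) hn0
  have h1 := oc_smul (r' := ν - p * v n - (p * q : ℕ) * (ρ - v a)) ht (le_cadj v C w ht) ht0
    (h (p * q) hl (dvd_mul_right p q)) (by
      rw [v.map_div (pow_ne_zero q ha0) hn0, v.map_pow ha0]
      push_cast
      ring)
  rw [cadj_div ha ha0]
  have e1 : (ef p (e * d / n ^ p) (cs p c d n) N (Polynomial.C (n ^ p)⁻¹ * sc a P)
      (fun j => Polynomial.C (a ^ j / d) * sc a (φ j)) (p * q)).eval (w / a) =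
      (a ^ q / n) ^ p * (ef p e c N P φ (p * q)).eval w := by
    rw [ef_eval, ef_eval, hasse_C_mul, hasse_sc, eval_mul, eval_C, eval_mul, eval_C, eval_mul,
      eval_C, sc_eval' ha0, sc_eval' ha0, div_pow, ← pow_mul, mul_comm q p, mul_add, mul_add,
      Finset.mul_sum]
    congr 1
    · congr 1
      · field_simp
      · refine Finset.sum_congr rfl fun m _ => ?_
        split_ifs with hm
        · have e2 : (a ^ (p * q / p ^ m)) ^ p ^ m = a ^ (p * q) := by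
            rw [← pow_mul, Nat.div_mul_cancel hm]
          rw [eval_mul, eval_C, sc_eval' ha0, mul_pow, div_pow, e2, cs]
          field_simp
        · rw [mul_zero]
    · field_simp
  rw [e1]
  exact h1

omit hp [CharP Ω p] in
theorem cs_cs (hd : d ≠ 0) (hn : n ≠ 0) : cs p (cs p c d n) d⁻¹ n⁻¹ = c := by
  funext i
  rw [cs, cs, inv_pow, inv_pow]
  field_simp

omit [CharP Ω p] in
/-- **`JL` and `OClsJ` back.** -/
theorem exists_unscale (ha : a ∈ C) (ha0 : a ≠ 0) (hd : d ∈ C) (hd0 : d ≠ 0) (hn : n ∈ C)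
    (hn0 : n ≠ 0)
    (h1 : JL p v C (w / a) (y / d) (ρ - v a) (s - v d) (e * d / n ^ p) J φ D)
    (h2 : OClsJ p v C (w / a) (ρ - v a) (ν - p * v n) (e * d / n ^ p) (cs p c d n) N
      (Polynomial.C (n ^ p)⁻¹ * sc a P) φ X₀) :
    ∃ φ' : ℕ → Polynomial Ω, JL p v C w y ρ s e J φ' D ∧ OClsJ p v C w ρ ν e c N P φ' X₀ := by
  have h3 := jl_scale (e' := e) (inv_mem ha) (inv_ne_zero ha0) (inv_mem hd) (inv_ne_zero hd0)
    ⟨fun h => by rw [h, zero_mul, zero_div], fun h => by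
      rcases div_eq_zero_iff.1 h with h | h
      · exact (mul_eq_zero.1 h).resolve_right hd0
      · exact absurd h (pow_ne_zero p hn0)⟩ h1
  have h4 := ocls_scale (d := d⁻¹) (inv_mem ha) (inv_ne_zero ha0) (inv_ne_zero hd0) (inv_mem hn)
    (inv_ne_zero hn0) h2
  rw [cs_cs hd0 hn0] at h4
  have e1 : w / a / a⁻¹ = w := by rw [div_inv_eq_mul, div_mul_cancel₀ _ ha0]
  have e2 : y / d / d⁻¹ = y := by rw [div_inv_eq_mul, div_mul_cancel₀ _ hd0]
  have e3 : ρ - v a - v a⁻¹ = ρ := by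
    rw [v.map_inv ha0]
    ring
  have e4 : s - v d - v d⁻¹ = s := by
    rw [v.map_inv hd0]
    ring
  have e5 : ν - p * v n - p * v n⁻¹ = ν := by
    rw [v.map_inv hn0]
    ring
  have e6 : e * d / n ^ p * d⁻¹ / n⁻¹ ^ p = e := by
    rw [inv_pow]
    field_simp
  have e7 : Polynomial.C (n⁻¹ ^ p)⁻¹ * sc a⁻¹ (Polynomial.C (n ^ p)⁻¹ * sc a P) = P := by
    rw [sc_C_mul, sc_sc, inv_mul_cancel₀ ha0, sc_one, ← mul_assoc, ← C_mul, inv_pow, inv_inv,
      mul_inv_cancel₀ (pow_ne_zero p hn0), C_1, one_mul]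
  rw [e1, e2, e3, e4] at h3
  rw [e1, e3, e5, e6, e7] at h4
  exact ⟨_, h3, h4⟩

/-- **From the radii and the level `0` over the field with the monomials.** -/
theorem Gx.exists_j1 [IsAlgClosed Ω] (hΩ : CompleteV v) (hM : Gx v A₀ G M) (hi : Imm v A₀ A)
    (hA : Cld v A) (hw : TL v A w ρ) (he : e ∈ A) (hc : ∀ i ∈ Icc 1 N, c i ∈ A) (hP : P ∈ PI A)
    (hX : X₀ ∈ A) (ha : a ∈ PM v A G M) (ha0 : a ≠ 0) (hd : d ∈ PM v A G M) (hd0 : d ≠ 0)
    (hn : n ∈ PM v A G M) (hn0 : n ≠ 0)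
    (h1 : JL p v (PM v A G M) (w / a) (y / d) (ρ - v a) (s - v d) (e * d / n ^ p) J φ D)
    (h2 : OClsJ p v (PM v A G M) (w / a) (ρ - v a) (ν - p * v n) (e * d / n ^ p) (cs p c d n) N
      (Polynomial.C (n ^ p)⁻¹ * sc a P) φ X₀) :
    ∃ φ' : ℕ → Polynomial Ω, JL p v A w y ρ s e J φ' D ∧ OClsJ p v A w ρ ν e c N P φ' X₀ := by
  obtain ⟨φ', h3, h4⟩ := exists_unscale ha ha0 hd hd0 hn hn0 h1 h2
  exact hM.exists_down hΩ hi hA hw he hc hP hX h3 h4

/-- **The normal form with the radii and the level `0`.** -/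
theorem Gx.nrm_up [IsAlgClosed Ω] (hΩ : CompleteV v) (hM : Gx v A₀ G M) (hi : Imm v A₀ A)
    (hw : TL v A w ρ) (ha : a ∈ PM v A G M) (ha0 : a ≠ 0) (hd : d ∈ PM v A G M) (hd0 : d ≠ 0)
    (hn : n ∈ PM v A G M) (hn0 : n ≠ 0) (h : Nrm p v A w y ρ s ν e c N P J R) :
    Nrm p v (PM v A G M) (w / a) (y / d) (ρ - v a) (s - v d) (ν - p * v n) (e * d / n ^ p)
      (cs p c d n) N (Polynomial.C (n ^ p)⁻¹ * sc a P) J (Polynomial.C d⁻¹ * sc a R) :=
  nrm_scale ha ha0 hd hd0 hn hn0 (hM.nrm_pm hΩ hi hw h)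

end

end Pool.Agent.TWCT
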