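import Pool.Agent.Lib.TWCT.GssS
import Pool.Agent.Lib.TWCT.GssB

/-!
# TANK W, Gauss extensions by monomials: unhit elements; pairs and radii scaled

* `tl_div`, `par_div`: change of the scales;
* `Gx.unh_down`, `unh_unscale`, `Gx.exists_unh`: unhit elements come down;
* `Gx.crit_up`: critical elements go up;
* `exists_compl`: complements of a group of values.
-/

set_option autoImplicit false

open Polynomial Finset

namespace Pool.Agent.TWCT

open Pool.Agent.H15JM (RVal)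
open Pool.Agent.LU1 (VPos adj)
open Pool.Agent.LUC (Cl)
open Pool.Agent.D2 (Ctx0)
open Pool.Agent.D2P (hen clI mem_clI)
open Pool.Agent.TWM
open Pool.Agent.TWS hiding VG
open Pool.Agent.TWII (PG LP)
open Pool.Agent.TWN1 (Par Col col Unh)

universe u

variable {k Ω : Type u} [Field k] [Field Ω] [Algebra k Ω] {v : RVal Ω}
  {A₀ A B C F K : IntermediateField k Ω} {G : AddSubgroup ℝ} {M : ℝ → Ω}

/-! ### The scales -/

theorem tl_div {z : Ω} {s : ℝ} (hz : TL v A z s) {c : Ω} (hc : c ∈ A) (hc0 : c ≠ 0) :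
    TL v A (z / c) (s - v c) := by
  have e : z / c = c⁻¹ * z + 0 := by
    rw [add_zero, div_eq_inv_mul]
  rw [e]
  have h1 := TL.affine hz (inv_mem hc) (inv_ne_zero hc0) (zero_mem A)
  rw [v.map_inv hc0] at h1
  have e2 : s - v c = -v c + s := by ring
  rw [e2]
  exact h1

theorem par_div {z₁ z₂ : Ω} {r₁ r₂ : ℝ} (h : Par v C K z₁ r₁ z₂ r₂) {c₁ c₂ : Ω} (h1 : c₁ ∈ C)
    (h10 : c₁ ≠ 0) (h2 : c₂ ∈ C) (h20 : c₂ ≠ 0) :
    Par v C K (z₁ / c₁) (r₁ - v c₁) (z₂ / c₂) (r₂ - v c₂) where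
  t1 := tl_div h.t1 h1 h10
  t2 := tl_div h.t2 h2 h20
  t21 := by
    rw [cadj_div h1 h10]
    exact tl_div h.t21 (le_cadj _ _ _ h2) h20
  t12 := by
    rw [cadj_div h2 h20]
    exact tl_div h.t12 (le_cadj _ _ _ h1) h10
  eq1 := by rw [cadj_div h1 h10, cadj_div (le_cadj _ _ _ h2) h20, ← h.eq1]
  eq2 := by rw [cadj_div h2 h20, cadj_div (le_cadj _ _ _ h1) h10, ← h.eq2]

/-! ### Unhit elements -/

section

variable {p : ℕ} {z a d n : Ω} {s ν : ℝ}

/-- **Unhit elements come down.** -/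
theorem Gx.unh_down [hp : Fact p.Prime] [CharP Ω p] (hΩ : CompleteV v) (hM : Gx v A₀ G M)
    (hi : Imm v A₀ F) (hF : Cld v F) (hiK : Imm v A₀ K) (hK : Cld v K) (hFK : F ≤ K) (hz : z ∈ K)
    (ha : a ∈ K) (h : Unh p v (PM v F G M) (PM v K G M) z s ν a) : Unh p v F K z s ν a := by
  obtain ⟨π, hπ, hpow⟩ := hM.exists_pi (p := p) hΩ hiK hK
  obtain ⟨f, hf, h1, h2⟩ := h
  have hfK : f ∈ PI (PM v K G M) := PI_mono (PM.mono hFK) hf
  refine ⟨pjP π f, pjP_mem hπ hi hF hFK hf, ?_, fun l hpl hl => ?_⟩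
  · have h3 := pi_pg (x := ⟨a, PM.le ha⟩ - ⟨f.eval z, eval_mem hfK (PM.le hz)⟩) hπ hpow hiK hK
      le_rfl h1
    rwa [map_sub, hπ.self a ha, ← pjP_eval hπ hfK hz] at h3
  · have h3 := h2 l hpl hl
    rw [taylor_coeff] at h3 ⊢
    have h4 := pi_pg (x := ⟨_, eval_mem (hasse_mem_PI hfK l) (PM.le hz)⟩) hπ hpow hiK hK le_rfl h3
    rwa [← pjP_eval hπ (hasse_mem_PI hfK l) hz, pjP_hasse π hfK] at h4

/-- **The scales.** -/
theorem unh_unscale (hFK : F ≤ K) (hd : d ∈ F) (hd0 : d ≠ 0) (hn : n ∈ F)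
    (hn0 : n ≠ 0) (h : Unh p v F K (z / d) (s - v d) (ν - p * v n) (a / n ^ p)) :
    Unh p v F K z s ν a := by
  obtain ⟨f, hf, h1, h2⟩ := h
  refine ⟨Polynomial.C (n ^ p) * sc d⁻¹ f,
    mul_mem (C_mem_PI (pow_mem hn p)) (sc_mem (inv_mem hd) hf), ?_, fun l hpl hl => ?_⟩
  · have h3 := pg_smul (r' := ν) (hFK hn) hn0 h1 (by ring)
    have e : n ^ p * (a / n ^ p - f.eval (z / d)) =
        a - (Polynomial.C (n ^ p) * sc d⁻¹ f).eval z := by
      rw [eval_mul, eval_C, sc_eval, mul_sub, mul_div_cancel₀ _ (pow_ne_zero p hn0),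
        div_eq_inv_mul]
    rwa [e] at h3
  · have h3 := h2 l hpl hl
    rw [taylor_coeff] at h3 ⊢
    obtain ⟨q, rfl⟩ := hpl
    have ht : n / d ^ q ∈ F := div_mem hn (pow_mem hd q)
    have ht0 : n / d ^ q ≠ 0 := div_ne_zero hn0 (pow_ne_zero q hd0)
    have h4 := pg_smul (r' := ν - (p * q : ℕ) * s) (hFK ht) ht0 h3 (by
      rw [v.map_div hn0 (pow_ne_zero q hd0), v.map_pow hd0]
      push_cast
      ring)
    have e : (n / d ^ q) ^ p * (hasseDeriv (p * q) f).eval (z / d) =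
        (hasseDeriv (p * q) (Polynomial.C (n ^ p) * sc d⁻¹ f)).eval z := by
      rw [hasse_C_mul, hasse_sc, eval_mul, eval_C, eval_mul, eval_C, sc_eval, div_pow, ← pow_mul,
        mul_comm q p, inv_pow, div_eq_inv_mul z d]
      field_simp
    rwa [e] at h4

/-- **Unhit elements come down, with the scales.** -/
theorem Gx.exists_unh [hp : Fact p.Prime] [CharP Ω p] (hΩ : CompleteV v) (hM : Gx v A₀ G M)
    (hi : Imm v A₀ F) (hF : Cld v F) (hiK : Imm v A₀ K) (hK : Cld v K) (hFK : F ≤ K) (hz : z ∈ K)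
    (ha : a ∈ K) (hd : d ∈ PM v F G M) (hd0 : d ≠ 0) (hn : n ∈ PM v F G M) (hn0 : n ≠ 0)
    (h : Unh p v (PM v F G M) (PM v K G M) (z / d) (s - v d) (ν - p * v n) (a / n ^ p)) :
    Unh p v F K z s ν a :=
  hM.unh_down hΩ hi hF hiK hK hFK hz ha (unh_unscale (PM.mono hFK) hd hd0 hn hn0 h)

/-- Critical elements go up. -/
theorem Gx.crit_up [hp : Fact p.Prime] [CharP Ω p] (hΩ : CompleteV v) (hM : Gx v A₀ G M)
    (hiK : Imm v A₀ K) (hK : Cld v K) (ha : a ∈ K) (hn : n ∈ PM v K G M) (hn0 : n ≠ 0)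
    (h : ¬ PG p v K ν a) : ¬ PG p v (PM v K G M) (ν - p * v n) (a / n ^ p) := by
  intro h1
  refine h (hM.pg_down hΩ hiK hK hiK hK le_rfl ha ?_)
  have h2 := pg_smul (r' := ν) hn hn0 h1 (by ring)
  rwa [mul_div_cancel₀ _ (pow_ne_zero p hn0)] at h2

theorem lp_div (hn : n ∈ K) (hn0 : n ≠ 0) (h : LP p v K ν a) :
    LP p v K (ν - p * v n) (a / n ^ p) := by
  have h1 := lp_smul (r' := ν - p * v n) (inv_mem hn) (inv_ne_zero hn0) h (by
    rw [v.map_inv hn0]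
    ring)
  rwa [inv_pow, ← div_eq_inv_mul] at h1

end

/-! ### Complements -/

/-- A complement of a `ℚ`-subspace of `ℝ`. -/
theorem exists_compl (V : AddSubgroup ℝ) (hV : ∀ (n : ℕ), n ≠ 0 → ∀ g ∈ V, g / n ∈ V) :
    ∃ G : AddSubgroup ℝ, (∀ g ∈ G, g ∈ V → g = 0) ∧ (V ⊔ G = ⊤) ∧
      ∀ (n : ℕ), n ≠ 0 → ∀ g ∈ G, g / n ∈ G := by
  let S : Submodule ℚ ℝ :=
    { carrier := V
      add_mem' := V.add_mem
      zero_mem' := V.zero_mem
      smul_mem' := fun q g hg => by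
        have h1 : q • g = q.num • (g / q.den) := by
          rw [Rat.smul_def, zsmul_eq_mul]
          have h2 : (q.den : ℝ) ≠ 0 := by exact_mod_cast q.den_ne_zero
          have h3 : (q : ℝ) = q.num / q.den := by exact_mod_cast (Rat.num_div_den q).symm
          rw [h3]
          field_simp
        change q • g ∈ V
        rw [h1]
        exact V.zsmul_mem (hV _ q.den_ne_zero g hg) _ }
  obtain ⟨T, hT⟩ := Submodule.exists_isCompl S
  refine ⟨T.toAddSubgroup, fun g hg hgV => ?_, ?_, fun n hn g hg => ?_⟩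
  · exact Submodule.disjoint_def.1 hT.disjoint g hgV hg
  · rw [eq_top_iff]
    intro g _
    have h1 : g ∈ S ⊔ T := by
      rw [hT.sup_eq_top]
      exact Submodule.mem_top
    obtain ⟨a, ha, b, hb, rfl⟩ := Submodule.mem_sup.1 h1
    exact AddSubgroup.mem_sup.2 ⟨a, ha, b, hb, rfl⟩
  · have h1 : g / n = ((n : ℚ)⁻¹) • g := by
      rw [Rat.smul_def, div_eq_inv_mul]
      push_cast
      rfl
    rw [h1]
    exact T.smul_mem _ hg

end Pool.Agent.TWCT
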