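import Pool.Agent.Lib.TWCT.GssU
import Pool.Agent.Lib.TWCT.GssF
import Pool.Agent.Lib.TWCT.J1S
import Pool.Agent.Lib.TWCY.Core

/-!
# TANK W, contact, (j = 1): the data of the core from the real data

* `vg_tH`: the values of the tame closure are the rational multiples of `v x`;
* `gp_of_div`: `gr` is perfect if the values are divisible by `p`;
* `exists_gsm`: the complement of the values of `tH W`;
* `J1D.hd`: `HD` for the pair `w₁ / c₁`, `w₂ / c₂`, `z / d`, `al ^ p / n ^ p` over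
  `PM w (tH W) G M`.
-/

set_option autoImplicit false

open Polynomial Finset

namespace Pool.Agent.TWCT

open Pool.Agent.H15JM (RVal)
open Pool.Agent.LU1 (VPos adj)
open Pool.Agent.LUC (Cl)
open Pool.Agent.D2 (Ctx0)
open Pool.Agent.D2P (hen clI mem_clI)
open Pool.Agent.TW (Ctx Full BD HRone LU)
open Pool.Agent.TWM
open Pool.Agent.TWS (IsoE SphC TowR MonG PM PM.le PM.mono PM.cadj PM.cld)
open Pool.Agent.TWS7 (PDiv)
open Pool.Agent.TWII (PG LP)
open Pool.Agent.TWN1 (Par Unh)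
open Pool.Agent.TWRR (GP)
open Pool.Agent.TWTam
open Pool.Agent.TWCY (HD)

universe u

/-! ### The graded field -/

section GPs

variable {k Ω : Type u} [Field k] [Field Ω] [Algebra k Ω] {v : RVal Ω}
  {A : IntermediateField k Ω} {p : ℕ} [hp : Fact p.Prime]

/-- The graded field is perfect if the values are divisible by `p`. -/
theorem gp_of_div [IsAlgClosed k] (h0 : Ctx0 k v) (h : ∀ g ∈ TWS.VG v A, g / p ∈ TWS.VG v A) :
    GP p v A := by
  have hp0 : (p : ℝ) ≠ 0 := by exact_mod_cast hp.out.ne_zero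
  intro c hc hc0
  obtain ⟨g, hg, hg0, hgv⟩ := h (v c) ⟨c, hc, hc0, rfl⟩
  have hgp : g ^ p ≠ 0 := pow_ne_zero p hg0
  have h1 : v (c / g ^ p) = 0 := by
    rw [v.map_div hc0 hgp, v.map_pow hg0, hgv, mul_div_cancel₀ _ hp0, sub_self]
  obtain ⟨a, ha0, ha⟩ := h0.res _ (div_ne_zero hc0 hgp) h1
  obtain ⟨b, hb⟩ := IsAlgClosed.exists_pow_nat_eq a hp.out.pos
  refine ⟨algebraMap k Ω b * g, mul_mem (A.algebraMap_mem b) hg, ?_⟩
  have e : c - (algebraMap k Ω b * g) ^ p = (c / g ^ p - algebraMap k Ω a) * g ^ p := by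
    rw [← hb, map_pow, mul_pow, sub_mul, div_mul_cancel₀ _ hgp]
  rw [e]
  have h2 := (show Gt v 0 (c / g ^ p - algebraMap k Ω a) from ha).mul_ge
    (RVal.ge_self (v := v) (g ^ p))
  rw [v.map_pow hg0, hgv, mul_div_cancel₀ _ hp0, zero_add] at h2
  exact h2

end GPs

/-! ### The values of the tame closure -/

section Val

variable {k Ω H : Type u} [Field k] [Field Ω] [Algebra k Ω] [Field H] [Algebra k H]
  {p : ℕ} {v : RVal Ω} {w : RVal H} {ι : Ω →ₐ[k] H} {x : Ω} {W : IntermediateField k Ω}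
  [hp : Fact p.Prime]

/-- The values of the tame closure. -/
theorem vg_tam [IsAlgClosed Ω] (hx : x ∈ W) (hx0 : x ≠ 0) (hd : PDiv p v W) (q : ℚ) :
    q * v x ∈ TWS.VG v (tam p v x W) := by
  -- the roots
  have hpow : ∀ j : ℕ, ∃ g ∈ W, g ≠ 0 ∧ v x = p ^ j * v g := by
    intro j
    induction j with
    | zero => exact ⟨x, hx, hx0, by rw [pow_zero, one_mul]⟩
    | succ j ih =>
      obtain ⟨g, hg, hg0, h1⟩ := ih
      obtain ⟨g', hg', hg0', h2⟩ := hd g hg hg0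
      exact ⟨g', hg', hg0', by rw [h1, h2]; ring⟩
  obtain ⟨j, n, hn, hq⟩ := Nat.exists_eq_pow_mul_and_not_dvd q.den_ne_zero p
    hp.out.one_lt.ne'
  have hn0 : n ≠ 0 := by
    rintro rfl
    exact hn (dvd_zero p)
  obtain ⟨g, hg, hg0, h1⟩ := hpow j
  obtain ⟨t, ht⟩ := IsAlgClosed.exists_pow_nat_eq x (Nat.pos_of_ne_zero hn0)
  have ht0 : t ≠ 0 := by
    rintro rfl
    rw [zero_pow hn0] at ht
    exact hx0 ht.symm
  have htv : v x = n * v t := by rw [← ht, v.map_pow ht0]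
  have htr : t ∈ TR p x := ⟨ht0, n, hn, 1, by rw [zpow_one]; exact ht⟩
  have hc : IsCoprime (n : ℤ) ((p ^ j : ℕ) : ℤ) := by
    rw [Nat.isCoprime_iff_coprime]
    exact (Nat.Coprime.pow_left j ((Nat.Prime.coprime_iff_not_dvd hp.out).2 hn)).symm
  obtain ⟨a, b, hab⟩ := hc
  have h2 : v t ∈ TWS.VG v (tam p v x W) := ⟨t, tr_mem_tam htr, ht0, rfl⟩
  have h3 : v g ∈ TWS.VG v (tam p v x W) := ⟨g, le_tam W hg, hg0, rfl⟩
  have h4 := (TWS.VG v (tam p v x W)).add_mem
    ((TWS.VG v (tam p v x W)).zsmul_mem h3 (q.num * a))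
    ((TWS.VG v (tam p v x W)).zsmul_mem h2 (q.num * b))
  have hp0 : (p : ℝ) ^ j ≠ 0 := pow_ne_zero j (by exact_mod_cast hp.out.ne_zero)
  have hn0' : (n : ℝ) ≠ 0 := by exact_mod_cast hn0
  have hab' : (a : ℝ) * n + b * p ^ j = 1 := by exact_mod_cast hab
  have hqq : (q : ℝ) = q.num / (p ^ j * n) := by
    have h5 : (q : ℝ) = (q.num : ℝ) / (q.den : ℝ) := by exact_mod_cast (Rat.num_div_den q).symm
    rw [h5, hq]
    push_cast
    rfl
  have e : (q : ℝ) * v x = (q.num * a) • v g + (q.num * b) • v t := by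
    rw [zsmul_eq_mul, zsmul_eq_mul, hqq]
    push_cast
    have e1 : v g = v x / p ^ j := by
      rw [h1]
      field_simp
    have e2 : v t = v x / n := by
      rw [htv]
      field_simp
    rw [e1, e2]
    field_simp
    linear_combination (-(q.num : ℝ) * v x) * hab'
  rw [e]
  exact h4

omit hp in
/-- The values of the tame closure, in the big field. -/
theorem vg_tH (hI : IsoE v w ι) (B : IntermediateField k Ω) :
    TWS.VG w (tH p v ι x B) = TWS.VG v (tam p v x B) := by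
  refine le_antisymm ?_ ?_
  · rintro _ ⟨_, ⟨a, ha, rfl⟩, h0, rfl⟩
    have h1 : a ≠ 0 := by
      rintro rfl
      exact h0 (map_zero _)
    exact ⟨a, ha, h1, (hI.val a h1).symm⟩
  · rintro _ ⟨a, ha, h0, rfl⟩
    exact ⟨ι a, ⟨a, ha, rfl⟩, IsoE.ne_zero h0, hI.val a h0⟩

omit hp in
/-- The values of `Ω` are rational multiples of `v x`. -/
theorem exists_rat (h : Ctx k v 1) (hx : x ≠ 0) (hxv : v x ≠ 0) {a : Ω} (ha : a ≠ 0) :
    ∃ q : ℚ, v a = q * v x := by
  obtain ⟨X, hX0, -, hX⟩ := h.rank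
  have hr : Set.range (fun i => v (X i)) = {v (X 0)} := by
    ext y
    constructor
    · rintro ⟨i, rfl⟩
      rw [Subsingleton.elim i 0]
      exact rfl
    · rintro rfl
      exact ⟨0, rfl⟩
  rw [hr] at hX
  have h1 : ∀ b : Ω, b ≠ 0 → ∃ q : ℚ, v b = q * v (X 0) := by
    intro b hb
    obtain ⟨q, hq⟩ := Submodule.mem_span_singleton.1 (hX b hb)
    exact ⟨q, by rw [← hq, Rat.smul_def]⟩
  obtain ⟨q, hq⟩ := h1 a ha
  obtain ⟨r, hr⟩ := h1 x hx
  have hr0 : (r : ℝ) ≠ 0 := by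
    intro h2
    rw [h2, zero_mul] at hr
    exact hxv hr
  refine ⟨q / r, ?_⟩
  rw [hq, hr]
  push_cast
  field_simp

/-- **The complement of the values.** -/
theorem exists_gsm [IsAlgClosed Ω] (h : Ctx k v 1) (hI : IsoE v w ι) (hx : x ∈ W) (hx0 : x ≠ 0)
    (hxv : v x ≠ 0) (hd : PDiv p v W) {M : ℝ → H} (hM : MS w ⊤ M) :
    ∃ G : AddSubgroup ℝ, GsM w (tH p v ι x W) G M ∧ (∀ n : ℕ, n ≠ 0 → ∀ g ∈ G, g / n ∈ G) ∧
      TWS.VG w (tH p v ι x W) ⊔ G = ⊤ := by
  obtain ⟨G, h1, h2, h3⟩ := exists_compl (TWS.VG w (tH p v ι x W)) (by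
    rintro n hn _ ⟨a, ha, ha0, rfl⟩
    rw [vg_tH hI]
    obtain ⟨b, hb, rfl⟩ := ha
    have hb0 : b ≠ 0 := by
      rintro rfl
      exact ha0 (map_zero _)
    obtain ⟨q, hq⟩ := exists_rat h hx0 hxv hb0
    have h4 := vg_tam hx hx0 hd (q / n)
    have e : w (ι b) / n = ((q / n : ℚ) : ℝ) * v x := by
      rw [hI.val b hb0, hq]
      push_cast
      ring
    rw [show ((ι : Ω →+* H) b) = ι b from rfl, e]
    exact h4)
  exact ⟨G, ⟨⟨fun g _ => hM.ne g trivial, fun g _ => hM.val g trivial,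
    fun g _ g' _ => hM.mul g trivial g' trivial⟩, h1⟩, h3, h2⟩

end Val

/-! ### The data of the core -/

namespace J1D

variable {k Ω H : Type u} [Field k] [Field Ω] [Algebra k Ω] [Field H] [Algebra k H]
  {p : ℕ} {v : RVal Ω} {w : RVal H} {ι : Ω →ₐ[k] H} {x : Ω}
  {W₀ K₀ F : IntermediateField k Ω} {al : Ω} {ν : ℝ} [hp : Fact p.Prime] [CharP Ω p] [CharP H p]
  [CharP k p] [IsAlgClosed k] [IsAlgClosed Ω] [IsAlgClosed H]

/-- **The data of the core from the real data.** -/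
theorem hd (h : J1D p v w ι x W₀ K₀ al ν) {L : ℕ → IntermediateField k H}
    (hL : Chn p v w ι x (clI v W₀) L) {w₁ w₂ z : Ω} {r₁ r₂ s : ℝ}
    (hpar : Par v (clI v W₀) F w₁ r₁ w₂ r₂) (hz : TL v F z s) (hK : clI v K₀ = cadj v F z)
    {G : AddSubgroup ℝ} {M : ℝ → H} (hG : GsM w (tH p v ι x (clI v W₀)) G M)
    (hdiv : ∀ g ∈ G, g / p ∈ G) (htop : TWS.VG w (tH p v ι x (clI v W₀)) ⊔ G = ⊤)
    {c₁ c₂ d n x' : H} (hc1 : c₁ ∈ PM w (tH p v ι x (clI v W₀)) G M) (hc10 : c₁ ≠ 0)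
    (hc1v : w c₁ = r₁) (hc2 : c₂ ∈ PM w (tH p v ι x (clI v W₀)) G M) (hc20 : c₂ ≠ 0)
    (hc2v : w c₂ = r₂) (hd : d ∈ PM w (tH p v ι x (clI v W₀)) G M) (hd0 : d ≠ 0)
    (hdv : w d = s) (hn : n ∈ PM w (tH p v ι x (clI v W₀)) G M) (hn0 : n ≠ 0)
    (hnv : p * w n = ν) (hx' : x' ∈ PM w (tH p v ι x (clI v W₀)) G M) :
    HD p w (fun J => PM w (L J) G M) (PM w (tH p v ι x (clI v W₀)) G M)
      (PM w (tH p v ι x F) G M) (PM w (tH p v ι x (clI v K₀)) G M)
      ![ι w₁ / c₁, ι w₂ / c₂] x' (ι z / d) (ι (al ^ p) / n ^ p) := by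
  have hpH := par_tH (p := p) (x := x) h.iso h.cpl h.xW hpar
  have hxF : x ∈ F := hpar.le h.xW
  have hzH := tl_tH (p := p) (x := x) h.iso hxF hz
  have hgx : Gx w (tH p v ι x (clI v W₀)) G M := ⟨hG.ms, hG.dj⟩
  have hWF : tH p v ι x (clI v W₀) ≤ tH p v ι x F := tH_mono hpar.le
  have hFK : F ≤ clI v K₀ := by
    rw [hK]
    exact le_cadj _ _ _
  have hFKH : tH p v ι x F ≤ tH p v ι x (clI v K₀) := tH_mono hFK
  have hcF := tH_cld (p := p) (x := x) h.iso h.cpl F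
  have hcK := tH_cld (p := p) (x := x) h.iso h.cpl (clI v K₀)
  have hiF : Imm w (tH p v ι x (clI v W₀)) (tH p v ι x F) := by
    rw [hpH.eq1]
    exact hpH.t1.imm.trans hpH.t21.imm
  have hKH : tH p v ι x (clI v K₀) = cadj w (tH p v ι x F) (ι z) := by
    rw [hK, tH_cadj h.iso h.cpl]
  have hiK : Imm w (tH p v ι x (clI v W₀)) (tH p v ι x (clI v K₀)) := by
    rw [hKH]
    exact hiF.trans hzH.imm
  have hPF : PM w (tH p v ι x (clI v W₀)) G M ≤ PM w (tH p v ι x F) G M := PM.mono hWF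
  have hPK : PM w (tH p v ι x F) G M ≤ PM w (tH p v ι x (clI v K₀)) G M := PM.mono hFKH
  have hx0K : x ∈ clI v K₀ := hFK hxF
  have hal : al ^ p ∈ clI v K₀ := le_clI _ h.mem
  have halH : ι (al ^ p) ∈ tH p v ι x (clI v K₀) := mem_tH hal
  have hzK : z ∈ clI v K₀ := by
    rw [hK]
    exact self_mem_cadj _ _ _
  have hTB : TamB p v x (clI v K₀) :=
    tamB_of hp.out h.ctx.toCtx0 h.cpl h.x0 (cld_clI v K₀) hx0K
  have hFc : Cld v F := by
    rw [hpar.eq1]
    exact cld_cadj _ _ _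
  have hTS : TamS p v x (clI v K₀) F := by
    rw [hK]
    exact TWRR.tamS_cadj hxF hFc hz
  exact
  { c0 := h.c0
    cv := h.cw
    sph := h.sph
    hval := h.val
    cld := PM.cld
    full := fun r => by
      have h1 : r ∈ TWS.VG w (PM w (tH p v ι x (clI v W₀)) G M) := by
        rw [vg_pm hgx.mon (Imm.refl _), htop]
        exact AddSubgroup.mem_top r
      exact h1
    gp := hgx.gp_pm hdiv (gp_of_div h.c0 fun g hg => by
      rw [vg_tH h.iso] at hg ⊢
      obtain ⟨a, ha, ha0, rfl⟩ := hg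
      obtain ⟨q, hq⟩ := exists_rat h.ctx h.x0 h.xv ha0
      have h1 := vg_tam h.xW h.x0 h.pd (q / p)
      have e : v a / p = ((q / p : ℚ) : ℝ) * v x := by
        rw [hq]
        push_cast
        ring
      rw [e]
      exact h1)
    xW := hx'
    mono := mono_pm hL.mono
    le := fun J => PM.mono (hL.le J)
    dense := dense_pm hL.dense
    par := by
      have h1 := par_div (par_pm hgx.mon (Imm.refl _) hpH) hc1 hc10 hc2 hc20
      rw [hc1v, hc2v, sub_self, sub_self] at h1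
      exact h1
    zt := by
      have h1 := tl_div (TWS.TL.pm hgx.mon hiF hzH) (hPF hd) hd0
      rw [hdv, sub_self] at h1
      exact h1
    K_eq := by rw [cadj_div (hPF hd) hd0, ← PM.cadj, ← hKH]
    aK := div_mem (PM.le halH) (pow_mem (hPK (hPF hn)) p)
    lp := by
      have h1 : LP p w (tH p v ι x (clI v K₀)) ν (ι (al ^ p)) := by
        intro ε hε
        obtain ⟨g, hg, h2⟩ := h.lp ε hε
        refine ⟨ι g, mem_tH hg, ?_⟩
        rw [← map_pow, ← map_sub]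
        exact h.iso.ge_iff.2 h2
      have h2 : LP p w (PM w (tH p v ι x (clI v K₀)) G M) ν (ι (al ^ p)) := by
        intro ε hε
        obtain ⟨g, hg, h3⟩ := h1 ε hε
        exact ⟨g, PM.le hg, h3⟩
      have h3 := lp_div (hPK (hPF hn)) hn0 h2
      rwa [hnv, sub_self] at h3
    crit := by
      have h1 : ¬ PG p w (tH p v ι x (clI v K₀)) ν (ι (al ^ p)) := by
        intro h2
        obtain ⟨g, hg, h3⟩ := hTB.self.pg hTB hal ((pg_iff' h.iso).1 h2)
        exact h.lev g hg h3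
      have h2 := hgx.crit_up h.cw hiK hcK halH (hPK (hPF hn)) hn0 h1
      rw [hnv, sub_self] at h2
      exact fun g hg h3 => h2 ⟨g, hg, h3⟩
    hit := by
      intro h1
      have h2 : Unh p w (PM w (tH p v ι x F) G M) (PM w (tH p v ι x (clI v K₀)) G M)
          (ι z / d) (s - w d) (ν - p * w n) (ι (al ^ p) / n ^ p) := by
        rw [hdv, hnv, sub_self, sub_self]
        exact h1
      have h3 := hgx.exists_unh h.cw hiF hcF hiK hcK hFKH (mem_tH hzK) halH (hPF hd) hd0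
        (hPF hn) hn0 h2
      have h4 : Unh p v F (clI v K₀) z s ν (al ^ p) :=
        hTS.unh hTB hzK hal ((unh_iff' h.iso).1 h3)
      rw [hpar.eq1] at h4
      refine h.not_unh hpar.t1 hpar.t21 ?_ ?_ h4
      · rw [← hpar.eq1]
        exact hz
      · rw [← hpar.eq1]
        exact hK }

end J1D

end Pool.Agent.TWCT
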