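import Pool.Agent.Lib.TWCT.TamQ
import Pool.Agent.Lib.TWCT.Tie
import Pool.Agent.Lib.TWCT.GssS

/-!
# TANK W, contact: hits over the tame closure come from below

* `TamS.pg_of_all`: an element of `tam F` is null if all its components are null;
* `TamS.hit`: a hit over `tam F` gives a hit over `F`.
-/

set_option autoImplicit false

open Polynomial Finset

namespace Pool.Agent.TWTam

open Pool.Agent.H15JM (RVal)
open Pool.Agent.LU1 (VPos adj)
open Pool.Agent.D2 (Ctx0)
open Pool.Agent.D2P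
open Pool.Agent.TWM
open Pool.Agent.TWII (PG LP)
open Pool.Agent.TWN1 (Unh Col col)
open Pool.Agent.TWCT (Hit pg_smul lp_smul)

universe u

variable {k Ω : Type u} [Field k] [Field Ω] [Algebra k Ω] {v : RVal Ω}
  {p : ℕ} {x : Ω} {K F : IntermediateField k Ω}

/-- The exponents prime to `p`, with the coefficient in a small field. -/
theorem exists_root_mem (hp : p.Prime) {t : Ω} (ht : t ∈ TR p x) :
    ∃ u ∈ TR p x, ∃ m : ℤ, u ^ p = t * x ^ m := by
  obtain ⟨ht0, n, hn, m, h1⟩ := ht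
  have hco : Nat.Coprime p n := (Nat.Prime.coprime_iff_not_dvd hp).2 hn
  have h3 := Nat.gcd_eq_gcd_ab p n
  rw [hco.gcd_eq_one] at h3
  set α := p.gcdA n with hα
  set β := p.gcdB n with hβ
  refine ⟨t ^ α, ⟨zpow_ne_zero _ ht0, n, hn, m * α, ?_⟩, m * (-β), ?_⟩
  · rw [← zpow_natCast, ← zpow_mul, mul_comm α, zpow_mul, zpow_natCast, h1, ← zpow_mul]
  · have h5 : α * (p : ℤ) = 1 + (n : ℤ) * (-β) := by
      have h6 : (1 : ℤ) = (p : ℤ) * α + (n : ℤ) * β := by exact_mod_cast h3
      linarith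
    rw [← zpow_natCast, ← zpow_mul, h5, zpow_add₀ ht0, zpow_one, zpow_mul, zpow_natCast, h1,
      ← zpow_mul]

section

variable [hp : Fact p.Prime] [CharP Ω p]

/-- **An element of `tam F` is null if all its components are null.** -/
theorem TamS.pg_of_all (hK : TamB p v x K) (hF : TamS p v x K F) {a : Ω} (ha : a ∈ tam p v x F)
    {c : ℝ} (h : ∀ u ∈ TR p x, PG p v F (c - p * v u) (prT p v x K ((u ^ p)⁻¹ * a))) :
    PG p v (tam p v x F) c a := by
  classical
  obtain ⟨a₀, h1, h2⟩ := (mem_clI.1 ha) (c + 1)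
  have h2' : v.Ge (c + 1) (a - a₀) := h2
  have ha₀F : a₀ ∈ tam p v x F := mem_clI.2 (LUC.Cl.subset h1)
  have hrF : ∀ t ∈ TR p x, InV v F t → t ∈ F := (hF.tamB hK).root
  -- the decomposition of `a₀`
  obtain ⟨b, hb, h3⟩ : ∃ b ∈ F, a₀ - b ∈ TPS p v x F F :=
    exists_dec (v := v) hK.pr hK.ne hF.mem hrF h1
  obtain ⟨s, f, hs1, hs2, hf, h4⟩ := exists_rep hK.pr hK.ne hrF h3
  -- the elements of `tam F`
  have hterm : ∀ t ∈ TR p x, ∀ g ∈ F, g * t ∈ tam p v x F := fun t ht g hg =>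
    mul_mem (le_tam F hg) (tr_mem_tam ht)
  -- roots in `K` are in `F`
  have hinv : ∀ t ∈ TR p x, InV v K t → t ∈ F := fun t ht h5 => hF.root t ht (hK.root t ht h5)
  have h1s : (1 : Ω) ∉ s := fun h0 => (hs1 1 h0).2 (InV.of_mem one_ne_zero (one_mem _))
  have hne' : ∀ w ∈ s, w ≠ (1 : Ω) := fun w hw h0 => h1s (by rw [← h0]; exact hw)
  set g := Function.update f 1 b with hg
  have hsum : a₀ = ∑ t ∈ insert 1 s, g t * t := by
    rw [Finset.sum_insert h1s, hg, Function.update_self, mul_one]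
    have e : ∑ t ∈ s, Function.update f 1 b t * t = ∑ t ∈ s, f t * t := by
      refine Finset.sum_congr rfl fun w hw => ?_
      rw [Function.update_of_ne (hne' w hw)]
    rw [e, ← h4]
    ring
  have hgF : ∀ t ∈ insert 1 s, g t ∈ F := by
    intro t ht
    rcases Finset.mem_insert.1 ht with rfl | ht
    · rw [hg, Function.update_self]
      exact hb
    · rw [hg, Function.update_of_ne (hne' t ht)]
      exact hf t ht
  have htr : ∀ t ∈ insert 1 s, t ∈ TR p x := by
    intro t ht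
    rcases Finset.mem_insert.1 ht with rfl | ht
    · exact one_mem_tr hK.pr
    · exact (hs1 t ht).1
  have hcls : ∀ t ∈ insert 1 s, ∀ t' ∈ insert 1 s, t ≠ t' → ¬ InV v K (t / t') := by
    have hlift : ∀ t ∈ TR p x, ¬ InV v F t → ¬ InV v K t := fun t ht h5 h6 =>
      h5 (InV.of_mem ht.1 (hinv t ht h6))
    intro t ht t' ht' hne
    refine hlift _ (TR.div hK.pr hK.ne (htr t ht) (htr t' ht')) ?_
    rcases Finset.mem_insert.1 ht with h5 | h5
    · rcases Finset.mem_insert.1 ht' with h6 | h6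
      · exact absurd (h5.trans h6.symm) hne
      · rw [h5]
        intro h7
        refine (hs1 t' h6).2 ?_
        rw [one_div] at h7
        have h8 := h7.inv (inv_ne_zero (hs1 t' h6).1.1)
        rwa [inv_inv] at h8
    · rcases Finset.mem_insert.1 ht' with h6 | h6
      · rw [h6, div_one]
        exact (hs1 t h5).2
      · exact hs2 t h5 t' h6 hne
  -- each term is null
  have hall : ∀ t ∈ insert 1 s, PG p v (tam p v x F) c (g t * t) := by
    intro t ht
    have htT := htr t ht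
    obtain ⟨u, hu, m, h5⟩ := exists_root_mem hK.pr htT
    have hxm : x ^ m ∈ F := zpow_mem hF.mem m
    have hxm0 : x ^ m ≠ 0 := zpow_ne_zero m hK.ne
    have hup0 : u ^ p ≠ 0 := pow_ne_zero p hu.1
    have huT : (u ^ p)⁻¹ ∈ tam p v x K := inv_mem (pow_mem (tr_mem_tam hu) p)
    have h6 : prT p v x K ((u ^ p)⁻¹ * a₀) = g t / x ^ m := by
      refine hK.prT_eq (div_mem (hF.le (hgF t ht)) (hF.le hxm)) (TPC.of_ps ?_)
      rw [hsum, ← Finset.add_sum_erase _ _ ht, mul_add]
      have e : (u ^ p)⁻¹ * (g t * t) + (u ^ p)⁻¹ * ∑ w ∈ (insert 1 s).erase t, g w * w -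
          g t / x ^ m = ∑ w ∈ (insert 1 s).erase t, (g w / x ^ m) * (w / t) := by
        have ht0 := htT.1
        have e1 : (u ^ p)⁻¹ * (g t * t) = g t / x ^ m := by
          rw [h5]
          field_simp
        rw [e1, add_sub_cancel_left, Finset.mul_sum]
        refine Finset.sum_congr rfl fun w _ => ?_
        rw [h5]
        field_simp
      rw [e]
      refine sum_mem fun w hw => ?_
      have hw' := Finset.mem_of_mem_erase hw
      exact TPS.mem_mul (div_mem (hF.le (hgF w hw')) (hF.le hxm))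
        (TR.div hK.pr hK.ne (htr w hw') htT) (hcls w hw' t ht (Finset.ne_of_mem_erase hw))
    have h7 : Gt v (c - p * v u) (g t / x ^ m - prT p v x K ((u ^ p)⁻¹ * a)) := by
      have h8 : v.Ge (c + 1 - p * v u) ((u ^ p)⁻¹ * (a₀ - a)) := by
        have h9 := (RVal.ge_self (v := v) (u ^ p)⁻¹).mul (ge_sub_comm h2')
        rw [v.map_inv hup0, v.map_pow hu.1] at h9
        exact h9.mono (by linarith)
      have h10 := hK.prT_ge (mul_mem huT (sub_mem (hF.tam_le ha₀F) (hF.tam_le ha))) h8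
      rw [mul_sub, hK.prT_sub (mul_mem huT (hF.tam_le ha₀F)) (mul_mem huT (hF.tam_le ha)), h6]
        at h10
      exact Gt.of_ge h10 (by linarith)
    have h8 : PG p v F (c - p * v u) (g t / x ^ m) := by
      have h9 := (PG.of_gt (p := p) (F := F) h7).add (h u hu)
      rwa [sub_add_cancel] at h9
    have h9 : PG p v (tam p v x F) (c - p * v u) (g t / x ^ m) := by
      obtain ⟨q, hq, h10⟩ := h8
      exact ⟨q, le_tam F hq, h10⟩
    have h10 := pg_smul (tr_mem_tam hu) hu.1 h9 (r' := c) (by ring)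
    have e : u ^ p * (g t / x ^ m) = g t * t := by
      rw [h5]
      field_simp
    rwa [e] at h10
  have h5 : ∀ T : Finset Ω, T ⊆ insert 1 s → PG p v (tam p v x F) c (∑ t ∈ T, g t * t) := by
    intro T
    induction T using Finset.induction_on with
    | empty =>
      intro _
      rw [Finset.sum_empty]
      exact PG.of_gt Gt.zero
    | insert t T htT ih =>
      intro hT
      rw [Finset.sum_insert htT]
      exact (hall t (hT (Finset.mem_insert_self _ _))).add
        (ih fun i hi => hT (Finset.mem_insert_of_mem hi))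
  have h6 := (PG.of_gt (p := p) (F := tam p v x F) (Gt.of_ge (r := c) h2' (by linarith))).add
    (h5 _ (Finset.Subset.refl _))
  rwa [← hsum, sub_add_cancel] at h6

/-- **A hit over `tam F` gives a hit over `F`.** -/
theorem TamS.hit {y : Ω} {s : ℝ} (hK : TamB p v x (cadj v F y)) (hF : TamS p v x (cadj v F y) F)
    (h : Hit p v (tam p v x F) y s) : Hit p v F y s := by
  obtain ⟨ν, b₀, B, T, j, hb, hc, hl, hj0, hjT, hn⟩ := h
  set K := cadj v F y with hKdef
  have hyK : y ∈ K := self_mem_cadj v F y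
  have h1 : ∃ u ∈ TR p x, ¬ PG p v F (ν - p ^ j * s - p * v u)
      (prT p v x K ((u ^ p)⁻¹ * B j)) := by
    by_contra h2
    push Not at h2
    exact hn (hF.pg_of_all hK (hc.mem j) h2)
  obtain ⟨u, hu, h2⟩ := h1
  have hup0 : u ^ p ≠ 0 := pow_ne_zero p hu.1
  have hui : u⁻¹ ∈ tam p v x F := inv_mem (tr_mem_tam hu)
  have hui0 : u⁻¹ ≠ 0 := inv_ne_zero hu.1
  have huF : (u ^ p)⁻¹ ∈ tam p v x F := inv_mem (pow_mem (tr_mem_tam hu) p)
  have hm : ∀ a ∈ tam p v x F, (u ^ p)⁻¹ * a ∈ tam p v x F := fun a ha => mul_mem huF ha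
  have hmK : ∀ a ∈ tam p v x F, (u ^ p)⁻¹ * a ∈ tam p v x K := fun a ha =>
    hF.tam_le (hm a ha)
  have einv : ∀ a : Ω, (u ^ p)⁻¹ * a = u⁻¹ ^ p * a := fun a => by rw [inv_pow]
  refine ⟨ν - p * v u, prT p v x K ((u ^ p)⁻¹ * b₀), fun i => prT p v x K ((u ^ p)⁻¹ * B i), T, j,
    (hF.prT_mem hK (hm _ hb)).1, ⟨fun i => (hF.prT_mem hK (hm _ (hc.mem i))).1, ?_,
      fun i hi0 => ?_⟩, ?_, hj0, hjT, fun h3 => h2 ?_⟩
  · refine hK.prT_ge (hmK _ (hc.mem 0)) ?_
    have h3 := (RVal.ge_self (v := v) (u ^ p)⁻¹).mul hc.lin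
    rw [v.map_inv hup0, v.map_pow hu.1] at h3
    exact h3.mono (by linarith)
  · refine hF.lp_pr hK (hmK _ (hc.mem i)) ?_
    rw [einv]
    refine lp_smul hui hui0 (hc.lev i hi0) ?_
    rw [v.map_inv hu.1]
    ring
  · have h3 : LP p v (tam p v x K) ν (b₀ + col p B y T) := by
      rw [hKdef, tam_cadj]
      exact hl
    have h4 : LP p v (tam p v x K) (ν - p * v u) ((u ^ p)⁻¹ * (b₀ + col p B y T)) := by
      rw [einv]
      refine lp_smul (hF.tam_le hui) hui0 h3 ?_
      rw [v.map_inv hu.1]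
      ring
    have hbc : b₀ + col p B y T ∈ tam p v x K :=
      add_mem (hF.tam_le hb) (sum_mem fun i _ => mul_mem (hF.tam_le (hc.mem i))
        (pow_mem (le_tam K hyK) _))
    have h5 := hK.self.lp_pr hK (mul_mem (hF.tam_le huF) hbc) h4
    have e1 : (u ^ p)⁻¹ * (b₀ + col p B y T) = (u ^ p)⁻¹ * b₀ +
        ∑ i ∈ range (T + 1), y ^ p ^ i * ((u ^ p)⁻¹ * B i) := by
      rw [mul_add, col, Finset.mul_sum]
      congr 1
      refine Finset.sum_congr rfl fun i _ => ?_
      ring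
    rw [e1, hK.prT_add (hmK _ hb) (sum_mem fun i _ => mul_mem (pow_mem (le_tam K hyK) _)
      (hmK _ (hc.mem i))), hK.prT_sum _ _ fun i _ => mul_mem (pow_mem (le_tam K hyK) _)
      (hmK _ (hc.mem i))] at h5
    have e2 : ∑ i ∈ range (T + 1), prT p v x K (y ^ p ^ i * ((u ^ p)⁻¹ * B i)) =
        col p (fun i => prT p v x K ((u ^ p)⁻¹ * B i)) y T := by
      rw [col]
      refine Finset.sum_congr rfl fun i _ => ?_
      rw [hK.prT_mul (pow_mem hyK _) (hmK _ (hc.mem i)), mul_comm]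
    rw [e2] at h5
    exact h5
  · have e : ν - (p : ℝ) ^ j * s - p * v u = ν - p * v u - p ^ j * s := by ring
    rw [e]
    exact h3

end

end Pool.Agent.TWTam
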