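import Pool.Agent.Lib.TWCT.HDup
import Pool.Agent.Lib.TWCT.TamH

/-!
# TANK W, contact, row (j = 1, B): the data of the core from the real data

* `hit_unscale`, `lim_smul`, `hit_tH_down`, `lim_tH_down`: hits and limits, down;
* `HDB`: the data of the core of case (B), radii and level `0`;
* `J1D.hdb`: `HDB` for `ι y / c₁`, `ι u / c₂`, `ι z / d`, `ι (al ^ p) / n ^ p` over `PM w (tH W) G M`;
* `HDB.hit`: the top is hit.
-/

set_option autoImplicit false

open Polynomial Finset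

namespace Pool.Agent.TWCT

open Pool.Agent.H15JM (RVal)
open Pool.Agent.LU1 (VPos adj)
open Pool.Agent.LUC (Cl)
open Pool.Agent.D2 (Ctx0)
open Pool.Agent.D2P (hen clI mem_clI)
open Pool.Agent.TW (Ctx Full BD HRone LU)
open Pool.Agent.TWM
open Pool.Agent.TWS (IsoE SphC TowR MonG PM PM.le PM.mono PM.cadj PM.cld)
open Pool.Agent.TWS7 (PDiv)
open Pool.Agent.TWII (PG LP)
open Pool.Agent.TWN1 (Par Unh Col col)
open Pool.Agent.TWRR (GP)
open Pool.Agent.TWTam

universe u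

/-! ### Hits and limits, down -/

section Down

variable {k Ω : Type u} [Field k] [Field Ω] [Algebra k Ω] {v : RVal Ω}
  {A₀ A B C F K : IntermediateField k Ω} {G : AddSubgroup ℝ} {M : ℝ → Ω} {p : ℕ}

theorem lim_smul {c : Ω} (hc : c ∈ A) {r r' : ℝ} {a : Ω} (h : Lim v A r a) (hr : r' = r + v c) :
    Lim v A r' (c * a) := by
  intro ε hε
  obtain ⟨g, hg, h1⟩ := h ε hε
  refine ⟨c * g, mul_mem hc hg, ?_⟩
  rw [← mul_sub, hr]
  exact ((RVal.ge_self (v := v) c).mul h1).mono (by linarith)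

/-- **The scale of a hit.** -/
theorem hit_unscale {y d : Ω} {s : ℝ} (hd : d ∈ F) (hd0 : d ≠ 0)
    (h : Hit p v F (y / d) (s - v d)) : Hit p v F y s := by
  obtain ⟨ν, b₀, B, T, j, hb, hc, hl, hj0, hjT, hn⟩ := h
  have hdi : ∀ i, i ≠ 0 → d ^ p ^ i = (d ^ p ^ (i - 1)) ^ p := by
    intro i hi
    obtain ⟨i, rfl⟩ := Nat.exists_eq_succ_of_ne_zero hi
    rw [Nat.succ_sub_one, ← pow_mul, ← pow_succ]
  have hval : ∀ i, i ≠ 0 → (p : ℝ) * v (d ^ p ^ (i - 1)) = p ^ i * v d := by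
    intro i hi
    obtain ⟨i, rfl⟩ := Nat.exists_eq_succ_of_ne_zero hi
    rw [Nat.succ_sub_one, v.map_pow hd0, pow_succ]
    push_cast
    ring
  refine ⟨ν, b₀, fun i => B i / d ^ p ^ i, T, j, hb,
    ⟨fun i => div_mem (hc.mem i) (pow_mem hd _), ?_, fun i hi0 => ?_⟩, ?_, hj0, hjT,
    fun h1 => hn ?_⟩
  · rw [pow_zero, pow_one, div_eq_mul_inv]
    have h1 := hc.lin.mul (RVal.ge_self (v := v) d⁻¹)
    rw [v.map_inv hd0] at h1
    exact h1.mono (by linarith)
  · have e : B i / d ^ p ^ i = (d ^ p ^ (i - 1))⁻¹ ^ p * B i := by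
      rw [inv_pow, ← hdi i hi0, div_eq_inv_mul]
    rw [e]
    refine lp_smul (inv_mem (pow_mem hd _)) (inv_ne_zero (pow_ne_zero _ hd0)) (hc.lev i hi0) ?_
    rw [v.map_inv (pow_ne_zero _ hd0)]
    have := hval i hi0
    linarith
  · rw [cadj_div hd hd0] at hl
    have e : col p (fun i => B i / d ^ p ^ i) y T = col p B (y / d) T := by
      rw [col, col]
      refine Finset.sum_congr rfl fun i _ => ?_
      rw [div_pow]
      ring
    rw [e]
    exact hl
  · change PG p v F (ν - p ^ j * s) (B j / d ^ p ^ j) at h1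
    have h2 := pg_smul (r' := ν - p ^ j * (s - v d)) (pow_mem hd (p ^ (j - 1)))
      (pow_ne_zero _ hd0) h1 (by
        have := hval j hj0
        linarith)
    rwa [← hdi j hj0, mul_div_cancel₀ _ (pow_ne_zero _ hd0)] at h2

/-- Limits come down. -/
theorem Gx.lim_down [hp : Fact p.Prime] [CharP Ω p] (hΩ : CompleteV v) (hM : Gx v A₀ G M)
    (hiA : Imm v A₀ A) (hA : Cld v A) (hiC : Imm v A₀ C) (hC : Cld v C) (hiF : Imm v A₀ F)
    (hF : Cld v F) (hAC : A ≤ C) (hCF : C ≤ F) {r : ℝ} {a g : Ω} (ha : a ∈ F)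
    (hg : g ∈ PM v C G M) (h : Lim v (PM v A G M) r (a - g)) :
    ∃ φ ∈ C, Lim v A r (a - φ) := by
  obtain ⟨π, hπ, -⟩ := hM.exists_pi (p := p) hΩ hiF hF
  refine ⟨π ⟨g, PM.mono hCF hg⟩, hπ.sub C hiC hCF hC _ hg, fun ε hε => ?_⟩
  obtain ⟨b, hb, h1⟩ := h ε hε
  refine ⟨π ⟨b, PM.mono (hAC.trans hCF) hb⟩, hπ.sub A hiA (hAC.trans hCF) hA _ hb, ?_⟩
  have h2 := hπ.norm (⟨a, PM.le ha⟩ - ⟨g, PM.mono hCF hg⟩ - ⟨b, PM.mono (hAC.trans hCF) hb⟩) _ h1
  rwa [map_sub, map_sub, hπ.self a ha] at h2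

end Down

section Tr

variable {k Ω H : Type u} [Field k] [Field Ω] [Algebra k Ω] [Field H] [Algebra k H]
  {p : ℕ} {v : RVal Ω} {w : RVal H} {ι : Ω →ₐ[k] H} {x : Ω} {A F : IntermediateField k Ω}

theorem lim_iff' (hI : IsoE v w ι) {r : ℝ} {a : Ω} : Lim w (A.map ι) r (ι a) ↔ Lim v A r a := by
  constructor
  · intro h ε hε
    obtain ⟨_, ⟨g, hg, rfl⟩, h1⟩ := h ε hε
    refine ⟨g, hg, ?_⟩
    have h2 : w.Ge (r - ε) (ι (a - g)) := by
      rw [map_sub]
      exact h1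
    exact hI.ge_iff.1 h2
  · intro h ε hε
    obtain ⟨g, hg, h1⟩ := h ε hε
    refine ⟨ι g, ⟨g, hg, rfl⟩, ?_⟩
    rw [← map_sub]
    exact hI.ge_iff.2 h1

/-- Hits come down from the image. -/
theorem hit_map_down (hI : IsoE v w ι) (hcv : CompleteV v) {y : Ω} {s : ℝ}
    (h : Hit p w (F.map ι) (ι y) s) : Hit p v F y s := by
  obtain ⟨ν, b₀, B, T, j, ⟨b, hb, rfl⟩, hc, hl, hj0, hjT, hn⟩ := h
  choose B' hB' hB using hc.mem
  have hB'' : ∀ i, ι (B' i) = B i := hB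
  refine ⟨ν, b, B', T, j, hb, ⟨hB', ?_, fun i hi0 => ?_⟩, ?_, hj0, hjT, fun h1 => hn ?_⟩
  · have h1 := hc.lin
    rw [← hB'' 0] at h1
    exact hI.ge_iff.1 h1
  · have h1 := hc.lev i hi0
    rw [← hB'' i] at h1
    exact (lp_iff' hI).1 h1
  · have h1 : LP p w ((cadj v F y).map ι) ν (ι (b + col p B' y T)) := by
      rw [← hI.cadj_map hcv, map_add, map_col]
      have e : (fun j => ι (B' j)) = B := funext hB''
      rw [e]
      exact hl
    exact (lp_iff' hI).1 h1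
  · rw [← hB'' j]
    exact (pg_iff' hI).2 h1

end Tr

/-! ### The data -/

/-- **The data of the core of case (B)** which come from the real fields. -/
structure HDB {k Ω : Type u} [Field k] [Field Ω] [Algebra k Ω] (p : ℕ) (v : RVal Ω)
    (L : ℕ → IntermediateField k Ω) (W C F K : IntermediateField k Ω) (y u z a : Ω) : Prop where
  c0 : Ctx0 k v
  cv : CompleteV v
  sph : SphC v
  hval : ∀ r : ℝ, ∃ g : Ω, g ≠ 0 ∧ v g = r
  cld : Cld v W
  full : ∀ r : ℝ, ∃ g ∈ W, g ≠ 0 ∧ v g = r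
  gp : GP p v W
  mono : Monotone L
  le : ∀ J, L J ≤ W
  dense : W ≤ clI v (⨆ J, L J)
  yt : TL v W y 0
  C_eq : C = cadj v W y
  ut : TL v C u 0
  F_eq : F = cadj v C u
  zt : TL v F z 0
  K_eq : K = cadj v F z
  nlim : ∀ g ∈ C, ¬ Lim v W 0 (u - g)
  nhit : ¬ Hit p v C u 0
  aK : a ∈ K
  lp : LP p v K 0 a
  crit : ∀ g ∈ K, ¬ Gt v 0 (a - g ^ p)
  unh : ¬ Unh p v F K z 0 0 a

/-- The top is hit. -/
theorem HDB.hit {k Ω : Type u} [Field k] [Field Ω] [Algebra k Ω] {p : ℕ} [Fact p.Prime]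
    [CharP Ω p] [IsAlgClosed Ω] {v : RVal Ω} {L : ℕ → IntermediateField k Ω}
    {W C F K : IntermediateField k Ω} {y u z a : Ω} (h : HDB p v L W C F K y u z a) :
    Hit p v F z 0 := by
  by_contra hno
  apply h.unh
  rw [h.K_eq]
  refine unh_of_not_hit h.zt ?_ ?_ hno
  · rw [← h.K_eq]
    exact h.aK
  · rw [← h.K_eq]
    exact h.lp

namespace J1D

variable {k Ω H : Type u} [Field k] [Field Ω] [Algebra k Ω] [Field H] [Algebra k H]
  {p : ℕ} {v : RVal Ω} {w : RVal H} {ι : Ω →ₐ[k] H} {x : Ω}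
  {W₀ K₀ : IntermediateField k Ω} {al : Ω} {ν : ℝ} [hp : Fact p.Prime] [CharP Ω p] [CharP H p]
  [CharP k p] [IsAlgClosed k] [IsAlgClosed Ω] [IsAlgClosed H]

/-- **The data of the core of case (B) from the real data.** -/
theorem hdb (h : J1D p v w ι x W₀ K₀ al ν) {L : ℕ → IntermediateField k H}
    (hL : Chn p v w ι x (clI v W₀) L) {C F : IntermediateField k Ω} {y u z : Ω} {r t s : ℝ}
    (hy : TL v (clI v W₀) y r) (hC : C = cadj v (clI v W₀) y) (hu : TL v C u t)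
    (hF : F = cadj v C u) (hz : TL v F z s) (hK : clI v K₀ = cadj v F z)
    (hnl : ∀ g ∈ C, ¬ Lim v (clI v W₀) t (u - g)) (hnh : ¬ Hit p v C u t)
    {G : AddSubgroup ℝ} {M : ℝ → H} (hG : GsM w (tH p v ι x (clI v W₀)) G M)
    (hdiv : ∀ g ∈ G, g / p ∈ G) (htop : TWS.VG w (tH p v ι x (clI v W₀)) ⊔ G = ⊤)
    {c₁ c₂ d n : H} (hc1 : c₁ ∈ PM w (tH p v ι x (clI v W₀)) G M) (hc10 : c₁ ≠ 0)
    (hc1v : w c₁ = r) (hc2 : c₂ ∈ PM w (tH p v ι x (clI v W₀)) G M) (hc20 : c₂ ≠ 0)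
    (hc2v : w c₂ = t) (hd : d ∈ PM w (tH p v ι x (clI v W₀)) G M) (hd0 : d ≠ 0)
    (hdv : w d = s) (hn : n ∈ PM w (tH p v ι x (clI v W₀)) G M) (hn0 : n ≠ 0)
    (hnv : p * w n = ν) :
    HDB p w (fun J => PM w (L J) G M) (PM w (tH p v ι x (clI v W₀)) G M)
      (PM w (tH p v ι x C) G M) (PM w (tH p v ι x F) G M) (PM w (tH p v ι x (clI v K₀)) G M)
      (ι y / c₁) (ι u / c₂) (ι z / d) (ι (al ^ p) / n ^ p) := by
  have hWC : clI v W₀ ≤ C := by
    rw [hC]
    exact le_cadj _ _ _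
  have hCF : C ≤ F := by
    rw [hF]
    exact le_cadj _ _ _
  have hFK : F ≤ clI v K₀ := by
    rw [hK]
    exact le_cadj _ _ _
  have hxC : x ∈ C := hWC h.xW
  have hxF : x ∈ F := hCF hxC
  have hyH := tl_tH (p := p) (x := x) h.iso h.xW hy
  have huH := tl_tH (p := p) (x := x) h.iso hxC hu
  have hzH := tl_tH (p := p) (x := x) h.iso hxF hz
  have hgx : Gx w (tH p v ι x (clI v W₀)) G M := ⟨hG.ms, hG.dj⟩
  have hWCH : tH p v ι x (clI v W₀) ≤ tH p v ι x C := tH_mono hWC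
  have hCFH : tH p v ι x C ≤ tH p v ι x F := tH_mono hCF
  have hFKH : tH p v ι x F ≤ tH p v ι x (clI v K₀) := tH_mono hFK
  have hcW := tH_cld (p := p) (x := x) h.iso h.cpl (clI v W₀)
  have hcC := tH_cld (p := p) (x := x) h.iso h.cpl C
  have hcF := tH_cld (p := p) (x := x) h.iso h.cpl F
  have hcK := tH_cld (p := p) (x := x) h.iso h.cpl (clI v K₀)
  have hCH : tH p v ι x C = cadj w (tH p v ι x (clI v W₀)) (ι y) := by
    rw [hC, tH_cadj h.iso h.cpl]
  have hFH : tH p v ι x F = cadj w (tH p v ι x C) (ι u) := by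
    rw [hF, tH_cadj h.iso h.cpl]
  have hKH : tH p v ι x (clI v K₀) = cadj w (tH p v ι x F) (ι z) := by
    rw [hK, tH_cadj h.iso h.cpl]
  have hiC : Imm w (tH p v ι x (clI v W₀)) (tH p v ι x C) := by
    rw [hCH]
    exact hyH.imm
  have hiF : Imm w (tH p v ι x (clI v W₀)) (tH p v ι x F) := by
    rw [hFH]
    exact hiC.trans huH.imm
  have hiK : Imm w (tH p v ι x (clI v W₀)) (tH p v ι x (clI v K₀)) := by
    rw [hKH]
    exact hiF.trans hzH.imm
  have hPC : PM w (tH p v ι x (clI v W₀)) G M ≤ PM w (tH p v ι x C) G M := PM.mono hWCH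
  have hPF : PM w (tH p v ι x (clI v W₀)) G M ≤ PM w (tH p v ι x F) G M :=
    PM.mono (hWCH.trans hCFH)
  have hPK : PM w (tH p v ι x F) G M ≤ PM w (tH p v ι x (clI v K₀)) G M := PM.mono hFKH
  have hal : al ^ p ∈ clI v K₀ := le_clI _ h.mem
  have halH : ι (al ^ p) ∈ tH p v ι x (clI v K₀) := mem_tH hal
  have hzK : z ∈ clI v K₀ := by
    rw [hK]
    exact self_mem_cadj _ _ _
  have hTB : TamB p v x (clI v K₀) :=
    tamB_of hp.out h.ctx.toCtx0 h.cpl h.x0 (cld_clI v K₀) (hFK hxF)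
  have hFc : Cld v F := by
    rw [hF]
    exact cld_cadj _ _ _
  have hCc : Cld v C := by
    rw [hC]
    exact cld_cadj _ _ _
  have hTS : TamS p v x (clI v K₀) F := by
    rw [hK]
    exact TWRR.tamS_cadj hxF hFc hz
  have hTBF : TamB p v x F := tamB_of hp.out h.ctx.toCtx0 h.cpl h.x0 hFc hxF
  have hTSC : TamS p v x F C := by
    rw [hF]
    exact TWRR.tamS_cadj hxC hCc hu
  have hTSW' : TamS p v x C (clI v W₀) := by
    rw [hC]
    exact TWRR.tamS_cadj h.xW (cld_clI v W₀) hy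
  have hTSW : TamS p v x F (clI v W₀) :=
    ⟨hWC.trans hCF, cld_clI v W₀, h.xW, fun t ht htF =>
      hTSW'.root t ht (hTSC.root t ht htF)⟩
  have huF : u ∈ F := by
    rw [hF]
    exact self_mem_cadj _ _ _
  exact
  { c0 := h.c0
    cv := h.cw
    sph := h.sph
    hval := h.val
    cld := PM.cld
    full := fun r => by
      have h1 : r ∈ TWS.VG w (PM w (tH p v ι x (clI v W₀)) G M) := by
        rw [vg_pm hgx.mon (Imm.refl _), htop]
        exact AddSubgroup.mem_top r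
      exact h1
    gp := hgx.gp_pm hdiv (gp_of_div h.c0 fun g hg => by
      rw [vg_tH h.iso] at hg ⊢
      obtain ⟨a, ha, ha0, rfl⟩ := hg
      obtain ⟨q, hq⟩ := exists_rat h.ctx h.x0 h.xv ha0
      have h1 := vg_tam h.xW h.x0 h.pd (q / p)
      have e : v a / p = ((q / p : ℚ) : ℝ) * v x := by
        rw [hq]
        push_cast
        ring
      rw [e]
      exact h1)
    mono := mono_pm hL.mono
    le := fun J => PM.mono (hL.le J)
    dense := dense_pm hL.dense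
    yt := by
      have h1 := tl_div (TWS.TL.pm hgx.mon (Imm.refl _) hyH) hc1 hc10
      rwa [hc1v, sub_self] at h1
    C_eq := by rw [cadj_div hc1 hc10, ← PM.cadj, ← hCH]
    ut := by
      have h1 := tl_div (TWS.TL.pm hgx.mon hiC huH) (hPC hc2) hc20
      rwa [hc2v, sub_self] at h1
    F_eq := by rw [cadj_div (hPC hc2) hc20, ← PM.cadj, ← hFH]
    zt := by
      have h1 := tl_div (TWS.TL.pm hgx.mon hiF hzH) (hPF hd) hd0
      rwa [hdv, sub_self] at h1
    K_eq := by rw [cadj_div (hPF hd) hd0, ← PM.cadj, ← hKH]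
    nlim := fun g hg hlim => by
      have h1 := lim_smul (r' := t) hc2 hlim (by rw [hc2v, zero_add])
      rw [mul_sub, mul_div_cancel₀ _ hc20] at h1
      obtain ⟨φ, hφ, h2⟩ := hgx.lim_down (p := p) h.cw (Imm.refl _) hcW hiC hcC hiF hcF hWCH hCFH
        (mem_tH huF) (mul_mem (hPC hc2) hg) h1
      obtain ⟨φ', hφ', h3⟩ := hφ
      have h3' : ι φ' = φ := h3
      rw [← h3', ← map_sub] at h2
      have h4 : Lim v (tam p v x (clI v W₀)) t (u - φ') := (lim_iff' h.iso).1 h2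
      obtain ⟨h5, h6⟩ := TamS.lim_sub hTBF hTSC hTSW huF hφ' h4
      exact hnl _ h5 h6
    nhit := fun h1 => by
      have h2 : Hit p w (PM w (tH p v ι x C) G M) (ι u / c₂) (t - w c₂) := by
        rw [hc2v, sub_self]
        exact h1
      have h3 := hit_unscale (hPC hc2) hc20 h2
      have h4 := hgx.hit_down h.cw hdiv hiC hcC (by rw [← hFH]; exact hiF) h3
      have h5 : Hit p v (tam p v x C) u t := hit_map_down h.iso h.cpl h4
      rw [hF] at hTBF hTSC
      exact hnh (TamS.hit hTBF hTSC h5)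
    aK := div_mem (PM.le halH) (pow_mem (hPK (hPF hn)) p)
    lp := by
      have h1 : LP p w (tH p v ι x (clI v K₀)) ν (ι (al ^ p)) := lp_tH h.iso h.lp
      have h2 : LP p w (PM w (tH p v ι x (clI v K₀)) G M) ν (ι (al ^ p)) := by
        intro ε hε
        obtain ⟨g, hg, h3⟩ := h1 ε hε
        exact ⟨g, PM.le hg, h3⟩
      have h3 := lp_div (hPK (hPF hn)) hn0 h2
      rwa [hnv, sub_self] at h3
    crit := by
      have h1 : ¬ PG p w (tH p v ι x (clI v K₀)) ν (ι (al ^ p)) := by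
        intro h2
        obtain ⟨g, hg, h3⟩ := hTB.self.pg hTB hal ((pg_iff' h.iso).1 h2)
        exact h.lev g hg h3
      have h2 := hgx.crit_up h.cw hiK hcK halH (hPK (hPF hn)) hn0 h1
      rw [hnv, sub_self] at h2
      exact fun g hg h3 => h2 ⟨g, hg, h3⟩
    unh := by
      intro h1
      have h2 : Unh p w (PM w (tH p v ι x F) G M) (PM w (tH p v ι x (clI v K₀)) G M)
          (ι z / d) (s - w d) (ν - p * w n) (ι (al ^ p) / n ^ p) := by
        rw [hdv, hnv, sub_self, sub_self]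
        exact h1
      have h3 := hgx.exists_unh h.cw hiF hcF hiK hcK hFKH (mem_tH hzK) halH (hPF hd) hd0
        (hPF hn) hn0 h2
      have h4 : Unh p v F (clI v K₀) z s ν (al ^ p) :=
        hTS.unh hTB hzK hal ((unh_iff' h.iso).1 h3)
      subst hF
      subst hC
      exact h.not_unh hy hu hz hK h4 }

end J1D

end Pool.Agent.TWCT
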