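import Pool.Agent.Lib.TWCT.AddEl
import Pool.Agent.Lib.TWCT.Fin

/-!
# TANK W, contact (III.1): finitely many pairs of residues of a null pair of additive polynomials
-/

set_option autoImplicit false

open Polynomial Finset

namespace Pool.Agent.TWCT

open Pool.Agent.H15JM (RVal)
open Pool.Agent.D2 (Ctx0)
open Pool.Agent.TWM
open Pool.Agent.TWII (PG LP)

universe u

variable {k Ω : Type u} [Field k] [Field Ω] [Algebra k Ω] {v : RVal Ω}
  {p : ℕ} [hp : Fact p.Prime] [CharP Ω p] {F : IntermediateField k Ω}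

/-- **Finitely many pairs of residues**: the tops are independent over `k` modulo
`F ^ p + {> ν}`. -/
theorem finite_res2 [IsAlgClosed k] (hk : Ctx0 k v) {ν : ℝ} {β γ : ℕ → Ω} {S T : ℕ}
    (hind : ∀ c₁ c₂ : k, PG p v F ν (β S * algebraMap k Ω c₁ + γ T * algebraMap k Ω c₂) →
      c₁ = 0 ∧ c₂ = 0) :
    {c : k × k | PG p v F ν (∑ j ∈ range (S + 1), β j * algebraMap k Ω c.1 ^ p ^ j +
      ∑ j ∈ range (T + 1), γ j * algebraMap k Ω c.2 ^ p ^ j)}.Finite := by
  classical
  have : CharP k p := (RingHom.charP_iff (algebraMap k Ω) (algebraMap k Ω).injective p).2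
    inferInstance
  let W : Submodule k Ω :=
    { carrier := {x | PG p v F ν x}
      add_mem' := fun hx hy => PG.add hx hy
      zero_mem' := PG.of_gt Gt.zero
      smul_mem' := fun c x hx => by
        change PG p v F ν (c • x)
        rw [Algebra.smul_def, mul_comm]
        exact pg_const hp.out.ne_zero hk c hx }
  have hW : ∀ x, x ∈ W ↔ PG p v F ν x := fun x => Iff.rfl
  let π : Ω →ₗ[k] Ω ⧸ W := W.mkQ
  have hπ : ∀ x, π x = 0 ↔ PG p v F ν x := fun x => by
    rw [← hW]
    exact Submodule.Quotient.mk_eq_zero W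
  have hsm : ∀ (x : Ω) (c : k), x * algebraMap k Ω c = c • x := fun x c => by
    rw [Algebra.smul_def, mul_comm]
  have hli : LinearIndependent k ![π (β S), π (γ T)] := by
    rw [LinearIndependent.pair_iff]
    intro c₁ c₂ h
    refine hind c₁ c₂ ((hπ _).1 ?_)
    rw [map_add, hsm, hsm, map_smul, map_smul]
    exact h
  obtain ⟨g, hg⟩ := LinearMap.exists_extend hli.repr
  have hg' : ∀ i : Fin 2, g (![π (β S), π (γ T)] i) = Finsupp.single i 1 := fun i => by
    have h1 : ![π (β S), π (γ T)] i ∈ Submodule.span k (Set.range ![π (β S), π (γ T)]) :=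
      Submodule.subset_span ⟨i, rfl⟩
    have h2 := LinearMap.congr_fun hg ⟨_, h1⟩
    rw [LinearMap.comp_apply, Submodule.subtype_apply] at h2
    rw [h2]
    exact hli.repr_eq_single i ⟨_, h1⟩ rfl
  let f₁ : Ω →ₗ[k] k := (Finsupp.lapply 0 ∘ₗ g) ∘ₗ π
  let f₂ : Ω →ₗ[k] k := (Finsupp.lapply 1 ∘ₗ g) ∘ₗ π
  have hβ := hg' 0
  have hγ := hg' 1
  simp only [Matrix.cons_val_zero, Matrix.cons_val_one] at hβ hγ
  have h11 : f₁ (β S) = 1 := by
    change (g (π (β S))) 0 = 1
    rw [hβ, Finsupp.single_eq_same]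
  have h12 : f₁ (γ T) = 0 := by
    change (g (π (γ T))) 0 = 0
    rw [hγ, Finsupp.single_eq_of_ne (by decide)]
  have h21 : f₂ (β S) = 0 := by
    change (g (π (β S))) 1 = 0
    rw [hβ, Finsupp.single_eq_of_ne (by decide)]
  have h22 : f₂ (γ T) = 1 := by
    change (g (π (γ T))) 1 = 1
    rw [hγ, Finsupp.single_eq_same]
  have hfin := AddEl.finite (k := k) (p := p) (S := S) (T := T)
    (A₁ := fun j => if j ≤ S then f₁ (β j) else 0) (A₂ := fun j => if j ≤ S then f₂ (β j) else 0)
    (B₁ := fun j => if j ≤ T then f₁ (γ j) else 0) (B₂ := fun j => if j ≤ T then f₂ (γ j) else 0)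
    (fun j hj => if_neg (not_le.2 hj)) (fun j hj => by
      split_ifs with h
      · rw [le_antisymm h hj, h21]
      · rfl) (fun j hj => by
      split_ifs with h
      · rw [le_antisymm h hj, h12]
      · rfl) (fun j hj => if_neg (not_le.2 hj)) (by simp [h11]) (by simp [h22])
  refine hfin.subset ?_
  rintro ⟨a, b⟩ hab
  have key : ∀ f : Ω →ₗ[k] k, (∀ x, PG p v F ν x → f x = 0) →
      ∑ j ∈ range (S + 1), (if j ≤ S then f (β j) else 0) * a ^ p ^ j +
        ∑ j ∈ range (T + 1), (if j ≤ T then f (γ j) else 0) * b ^ p ^ j = 0 := by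
    intro f hf
    have h1 := hf _ hab
    rw [map_add, map_sum, map_sum] at h1
    rw [← h1]
    congr 1
    · refine sum_congr rfl fun j hj => ?_
      rw [if_pos (by rw [mem_range] at hj; omega), ← map_pow, hsm, map_smul, smul_eq_mul, mul_comm]
    · refine sum_congr rfl fun j hj => ?_
      rw [if_pos (by rw [mem_range] at hj; omega), ← map_pow, hsm, map_smul, smul_eq_mul, mul_comm]
  refine ⟨key f₁ fun x hx => ?_, key f₂ fun x hx => ?_⟩
  · change (Finsupp.lapply 0 ∘ₗ g) (π x) = 0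
    rw [(hπ x).2 hx, map_zero]
  · change (Finsupp.lapply 1 ∘ₗ g) (π x) = 0
    rw [(hπ x).2 hx, map_zero]

end Pool.Agent.TWCT
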