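import Pool.Agent.Lib.TWCT.ConS
import Pool.Agent.Lib.TWCT.Pair
import Pool.Agent.Lib.TWCT.Res2

/-!
# TANK W, contact (III.1): over a quiet field the floors of a pair with independent tops are quiet

`pair_disp`: the natural displacements of late motions are at least the radii, and null.
`Ind.not_movV`, `Ind.not_movR`, `Ind.conS`.
-/

set_option autoImplicit false

open Polynomial Finset

namespace Pool.Agent.TWCT

open Pool.Agent.H15JM (RVal)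
open Pool.Agent.D2 (Ctx0)
open Pool.Agent.D2P (hen clI mem_clI)
open Pool.Agent.TWM
open Pool.Agent.TWS
open Pool.Agent.TWII (PG LP)
open Pool.Agent.TWN1 (PC Col col Par)

universe u

variable {k Ω : Type u} [Field k] [Field Ω] [Algebra k Ω] {v : RVal Ω}
  {p : ℕ} [hp : Fact p.Prime] [CharP Ω p] {W F K : IntermediateField k Ω}
  {L : ℕ → IntermediateField k Ω} {y₁ y₂ b₀ : Ω} {r₁ r₂ ν : ℝ} {x y : ℕ → Ω} {S T : ℕ}

/-- **The natural displacements.** -/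
theorem pair_disp [IsAlgClosed Ω] (hL : Monotone L) (hd : F ≤ clI v (⨆ J, L J))
    (hpar : Par v F K y₁ r₁ y₂ r₂) (hb0 : b₀ ∈ F) (hx : Col p v F ν r₁ x)
    (hy : Col p v F ν r₂ y) (hlp : LP p v K ν (b₀ + col p x y₁ S + col p y y₂ T))
    (hind : Ind p v F ν r₁ S r₂ T (x S) (y T)) :
    ∃ J₀ : ℕ, ∀ (Φ : Ω →ₐ[k] Ω) (η : ℝ), SMo v (L J₀) F Φ η → ∃ δ : ℝ, 0 < δ ∧
      ∀ c₁ ∈ F, ∀ c₂ ∈ F, v.Ge (r₁ - δ) (y₁ - c₁) → v.Ge (r₂ - δ) (y₂ - c₂) →
        v.Ge r₁ (Φ c₁ - c₁) ∧ v.Ge r₂ (Φ c₂ - c₂) ∧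
        PG p v F ν (∑ j ∈ range (S + 1), x j * (Φ c₁ - c₁) ^ p ^ j +
          ∑ j ∈ range (T + 1), y j * (Φ c₂ - c₂) ^ p ^ j) := by
  classical
  obtain ⟨m, hm1, hm2, hms1, hms2⟩ : ∃ m : ℝ, v.Ge m y₁ ∧ v.Ge m y₂ ∧ m ≤ r₁ - 1 ∧ m ≤ r₂ - 1 :=
    ⟨min (min (v y₁) (v y₂)) (min (r₁ - 1) (r₂ - 1)),
      (RVal.ge_self _).mono ((min_le_left _ _).trans (min_le_left _ _)),
      (RVal.ge_self _).mono ((min_le_left _ _).trans (min_le_right _ _)),
      (min_le_right _ _).trans (min_le_left _ _), (min_le_right _ _).trans (min_le_right _ _)⟩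
  obtain ⟨P, hP, hPj⟩ := exists_prec p hp.out.one_lt ν m (max S T)
  obtain ⟨J₁, hJ₁⟩ := exists_level hL hd
    (insert b₀ ((range (S + 1)).image x ∪ (range (T + 1)).image y)) (fun z hz => by
      rcases mem_insert.1 hz with rfl | hz
      · exact hb0
      rcases mem_union.1 hz with hz | hz
      · obtain ⟨j, -, rfl⟩ := mem_image.1 hz
        exact hx.mem j
      · obtain ⟨j, -, rfl⟩ := mem_image.1 hz
        exact hy.mem j) P
  refine ⟨J₁, fun Φ η hΦ => ?_⟩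
  have hlev := hJ₁ _ le_rfl Φ hΦ.iso hΦ.fix
  obtain ⟨δ, hδ, h1⟩ := pair2_null (Ψ := AlgHom.id k Ω) hpar hΦ.iso (fun a ha => hΦ.mem ha)
    (fun a ha => ha) hΦ.pos hΦ.str (StrM.of_fix fun a _ => rfl) hb0 hx hy hlp hm1 hm2 hms1 hms2 hP
    hPj (hlev _ (mem_insert_self _ _))
    (fun j hj => hlev _ (mem_insert_of_mem (mem_union_left _ (mem_image_of_mem x hj))))
    (fun j hj => hlev _ (mem_insert_of_mem (mem_union_right _ (mem_image_of_mem y hj))))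
  refine ⟨δ, hδ, fun c₁ hc₁ c₂ hc₂ hyc₁ hyc₂ => ?_⟩
  have h2 := h1 c₁ hc₁ c₂ hc₂ hyc₁ hyc₂
  obtain ⟨h3, h4⟩ := pair_top (Ψ := AlgHom.id k Ω) hx hy hind hΦ.pos
    (StrM.of_fix fun a _ => rfl) (fun a ha => ha) (sub_mem (hΦ.mem hc₁) hc₁)
    (sub_mem (hΦ.mem hc₂) hc₂) h2
  exact ⟨h3, h4, h2⟩

omit hp [CharP Ω p] in
/-- The displacement is near to the natural one. -/
theorem SMo.near_disp {A : IntermediateField k Ω} {Φ : Ω →ₐ[k] Ω} {η : ℝ} {w : Ω} {s : ℝ}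
    (h : SMo v A (cadj v F w) Φ η) {c : Ω} (hc : c ∈ F) (hwc : v.Ge (s - η / 2) (w - c)) :
    v.Ge (s + η / 2) ((Φ w - w) - (Φ c - c)) := by
  have h4 := h.str (w - c) (sub_mem (self_mem_cadj v F w) (le_cadj v F w hc)) _ hwc
  rw [map_sub] at h4
  have e : (Φ w - w) - (Φ c - c) = Φ w - Φ c - (w - c) := by ring
  rw [e]
  exact h4.mono (by linarith)

/-- No visible displacements. -/
theorem Ind.not_movV [IsAlgClosed Ω] (hL : Monotone L) (hd : F ≤ clI v (⨆ J, L J))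
    (hpar : Par v F K y₁ r₁ y₂ r₂) (hb0 : b₀ ∈ F) (hx : Col p v F ν r₁ x)
    (hy : Col p v F ν r₂ y) (hlp : LP p v K ν (b₀ + col p x y₁ S + col p y y₂ T))
    (hind : Ind p v F ν r₁ S r₂ T (x S) (y T)) : ¬ MovV v L F y₁ r₁ := by
  intro hV
  obtain ⟨J₀, hJ₀⟩ := pair_disp hL hd hpar hb0 hx hy hlp hind
  obtain ⟨Φ, η, Z, h1, h2, h3, -, h4, -, h5⟩ := hV J₀ 1 one_pos
  obtain ⟨δ, hδ, h6⟩ := hJ₀ Φ η h1
  obtain ⟨c₁, hc₁, hyc₁⟩ := hpar.t1.lim (min δ (η / 2)) (lt_min hδ (half_pos h1.pos))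
  obtain ⟨c₂, hc₂, hyc₂⟩ := hpar.t2.lim δ hδ
  obtain ⟨h7, -, -⟩ := h6 c₁ hc₁ c₂ hc₂ (hyc₁.mono (by linarith [min_le_left δ (η / 2)])) hyc₂
  have h8 := h2.near_disp (s := r₁) hc₁ (hyc₁.mono (by linarith [min_le_right δ (η / 2)]))
  have h9 : v.Ge r₁ Z := by
    have e : Z = ((Φ y₁ - y₁) - (Φ c₁ - c₁)) + (Φ c₁ - c₁) := by rw [h3]; ring
    rw [e]
    exact (h8.mono (by linarith [h1.pos])).add h7
  exact absurd (h9 h4) (not_le.2 h5)

/-- A small change of both arguments. -/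
theorem addp_near2 (hx : Col p v F ν r₁ x) (hy : Col p v F ν r₂ y) {μ : ℝ} (hμ : 0 < μ)
    {a a' b b' : Ω} (ha : a - a' ∈ F) (hb : b - b' ∈ F) (h1 : v.Ge (r₁ + μ) (a - a'))
    (h2 : v.Ge (r₂ + μ) (b - b'))
    (h : PG p v F ν (∑ j ∈ range (S + 1), x j * a' ^ p ^ j + ∑ j ∈ range (T + 1), y j * b' ^ p ^ j)) :
    PG p v F ν (∑ j ∈ range (S + 1), x j * a ^ p ^ j + ∑ j ∈ range (T + 1), y j * b ^ p ^ j) := by
  have h3 : PG p v F ν (∑ j ∈ range (S + 1), x j * (a - a') ^ p ^ j) :=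
    PG.sum _ _ fun j _ => lp_mul_small hx ha hμ h1
  have h4 : PG p v F ν (∑ j ∈ range (T + 1), y j * (b - b') ^ p ^ j) :=
    PG.sum _ _ fun j _ => lp_mul_small hy hb hμ h2
  rw [addp_sub] at h3 h4
  have h5 := (h3.add h4).add h
  refine (congrArg _ ?_).mp h5
  ring

/-- The residues of a displacement. -/
theorem exists_res [IsAlgClosed k] (hk : Ctx0 k v) {t d : Ω} {r : ℝ} (ht0 : t ≠ 0) (hvt : v t = r)
    (hd : v.Ge r d) : ∃ c : k, Gt v r (d - algebraMap k Ω c * t) := by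
  have h2 : v.Ge 0 (d / t) := by
    intro h3
    have h4 : d ≠ 0 := fun h5 => h3 (by rw [h5, zero_div])
    rw [v.map_div h4 ht0, hvt]
    have := hd h4
    linarith
  obtain ⟨c, hc⟩ := hk.residue h2
  refine ⟨c, ?_⟩
  have h4 := Gt.mul_ge (r := 0) hc (RVal.ge_self (v := v) t)
  rw [hvt, zero_add] at h4
  have e : d - algebraMap k Ω c * t = (d / t - algebraMap k Ω c) * t := by
    rw [sub_mul, div_mul_cancel₀ _ ht0]
  rw [e]
  exact h4

omit hp [CharP Ω p] in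
/-- A power of `d t`, `v t = r`, has value `n r` unless `d = 0`. -/
theorem eq_zero_of_gt_pow (hk : Ctx0 k v) {t : Ω} {r : ℝ} (ht0 : t ≠ 0) (hvt : v t = r) {d : k}
    {n : ℕ} (h : Gt v (n * r) ((algebraMap k Ω d * t) ^ n)) : d = 0 := by
  by_contra hd
  have h1 : algebraMap k Ω d ≠ 0 := fun h0 => hd ((map_eq_zero _).1 h0)
  have h2 := h (pow_ne_zero _ (mul_ne_zero h1 ht0))
  rw [v.map_pow (mul_ne_zero h1 ht0), v.map_mul h1 ht0, hvt, hk.triv d hd, zero_add] at h2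
  exact lt_irrefl _ h2

/-- Finitely many residues. -/
theorem Ind.not_movR [IsAlgClosed k] [IsAlgClosed Ω] (hk : Ctx0 k v) (hL : Monotone L)
    (hd : F ≤ clI v (⨆ J, L J)) (hpar : Par v F K y₁ r₁ y₂ r₂) (hb0 : b₀ ∈ F)
    (hx : Col p v F ν r₁ x) (hy : Col p v F ν r₂ y)
    (hlp : LP p v K ν (b₀ + col p x y₁ S + col p y y₂ T))
    (hind : Ind p v F ν r₁ S r₂ T (x S) (y T)) : ¬ MovR v L F y₁ r₁ := by
  classical
  rintro ⟨t, htF, ht0, hvt, hR⟩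
  obtain ⟨J₀, hJ₀⟩ := pair_disp hL hd hpar hb0 hx hy hlp hind
  have hroot : ∀ (c : k) (n : ℕ), ∃ d : k, d ^ p ^ n = c := fun c n =>
    IsAlgClosed.exists_pow_nat_eq c (Nat.pow_pos hp.out.pos)
  -- the displacements
  have key : ∀ R : Finset k, ∃ c : k, c ∉ R ∧ ∃ (η : ℝ) (d₁ d₂ : Ω), 0 < η ∧ d₁ ∈ F ∧ d₂ ∈ F ∧
      v.Ge (r₁ + η / 2) (algebraMap k Ω c * t - d₁) ∧ v.Ge r₂ d₂ ∧
      PG p v F ν (∑ j ∈ range (S + 1), x j * d₁ ^ p ^ j + ∑ j ∈ range (T + 1), y j * d₂ ^ p ^ j) := by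
    intro R
    obtain ⟨Φ, η, c, hcR, h1, h2, h3⟩ := hR J₀ R
    obtain ⟨δ, hδ, h6⟩ := hJ₀ Φ η h1
    obtain ⟨c₁, hc₁, hyc₁⟩ := hpar.t1.lim (min δ (η / 2)) (lt_min hδ (half_pos h1.pos))
    obtain ⟨c₂, hc₂, hyc₂⟩ := hpar.t2.lim δ hδ
    obtain ⟨-, h8, h9⟩ := h6 c₁ hc₁ c₂ hc₂ (hyc₁.mono (by linarith [min_le_left δ (η / 2)])) hyc₂
    have h10 := h2.near_disp (s := r₁) hc₁ (hyc₁.mono (by linarith [min_le_right δ (η / 2)]))
    rw [h3, add_sub_cancel_left] at h10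
    exact ⟨c, hcR, η, Φ c₁ - c₁, Φ c₂ - c₂, h1.pos, sub_mem (h1.mem hc₁) hc₁,
      sub_mem (h1.mem hc₂) hc₂, h10, h8, h9⟩
  by_cases ht2 : ∃ t₂ ∈ F, t₂ ≠ 0 ∧ v t₂ = r₂
  · obtain ⟨t₂, ht₂F, ht₂0, hvt₂⟩ := ht2
    have hfin := finite_res2 (F := F) hk (ν := ν) (β := fun j => x j * t ^ p ^ j)
      (γ := fun j => y j * t₂ ^ p ^ j) (S := S) (T := T) (fun c₁ c₂ h1 => by
        obtain ⟨d₁, hd₁⟩ := hroot c₁ S
        obtain ⟨d₂, hd₂⟩ := hroot c₂ T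
        have h2 : PG p v F ν (x S * (algebraMap k Ω d₁ * t) ^ p ^ S +
            y T * (algebraMap k Ω d₂ * t₂) ^ p ^ T) := by
          refine (congrArg _ ?_).mp h1
          rw [← hd₁, ← hd₂, map_pow, map_pow, _root_.mul_pow, _root_.mul_pow]
          ring
        obtain ⟨h3, h4⟩ := hind _ (mul_mem (F.algebraMap_mem d₁) htF) _
          (mul_mem (F.algebraMap_mem d₂) ht₂F) ν h2
        have h5 := eq_zero_of_gt_pow (n := p ^ S) hk ht0 hvt (h3.mono (by push_cast; linarith))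
        have h6 := eq_zero_of_gt_pow (n := p ^ T) hk ht₂0 hvt₂ (h4.mono (by push_cast; linarith))
        rw [← hd₁, ← hd₂, h5, h6, zero_pow (Nat.pow_pos hp.out.pos).ne',
          zero_pow (Nat.pow_pos hp.out.pos).ne']
        exact ⟨rfl, rfl⟩)
    obtain ⟨c, hcR, η, d₁, d₂, hη, hd₁, hd₂, h1, h2, h3⟩ := key (hfin.image Prod.fst).toFinset
    obtain ⟨c', hc'⟩ := exists_res hk ht₂0 hvt₂ h2
    obtain ⟨μ, hμ, h4⟩ := TWLM.exists_ge_of_gt hc'
    refine hcR ((hfin.image Prod.fst).mem_toFinset.2 ⟨(c, c'), ?_, rfl⟩)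
    have h5 := addp_near2 (a := algebraMap k Ω c * t) (b := algebraMap k Ω c' * t₂) hx hy
      (lt_min (half_pos hη) hμ) (sub_mem (mul_mem (F.algebraMap_mem _) htF) hd₁)
      (sub_mem (mul_mem (F.algebraMap_mem _) ht₂F) hd₂)
      (h1.mono (by linarith [min_le_left (η / 2) μ]))
      (by
        rw [← neg_sub]
        exact (h4.mono (by linarith [min_le_right (η / 2) μ])).neg) h3
    change PG p v F ν (∑ j ∈ range (S + 1), x j * t ^ p ^ j * algebraMap k Ω c ^ p ^ j +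
      ∑ j ∈ range (T + 1), y j * t₂ ^ p ^ j * algebraMap k Ω c' ^ p ^ j)
    refine (congrArg _ ?_).mp h5
    congr 1
    · refine sum_congr rfl fun j _ => ?_
      rw [_root_.mul_pow]
      ring
    · refine sum_congr rfl fun j _ => ?_
      rw [_root_.mul_pow]
      ring
  · have hfin := finite_res (F := F) hk (ν := ν) (β := fun j => x j * t ^ p ^ j) (T := S)
      (fun h1 => by
        have h2 : PG p v F ν (x S * t ^ p ^ S + y T * (0 : Ω) ^ p ^ T) := by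
          rw [zero_pow (Nat.pow_pos hp.out.pos).ne', mul_zero, add_zero]
          exact h1
        have h3 := (hind t htF 0 (zero_mem F) ν h2).1 (pow_ne_zero _ ht0)
        rw [v.map_pow ht0, hvt] at h3
        push_cast at h3
        linarith)
    obtain ⟨c, hcR, η, d₁, d₂, hη, hd₁, hd₂, h1, h2, h3⟩ := key hfin.toFinset
    have h4 : Gt v r₂ d₂ := fun h5 => lt_of_le_of_ne (h2 h5) fun h6 => ht2 ⟨d₂, hd₂, h5, h6.symm⟩
    obtain ⟨μ, hμ, h5⟩ := TWLM.exists_ge_of_gt h4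
    refine hcR (hfin.mem_toFinset.2 ?_)
    have h6 := addp_near2 (a := algebraMap k Ω c * t) (b := 0) hx hy
      (lt_min (half_pos hη) hμ) (sub_mem (mul_mem (F.algebraMap_mem _) htF) hd₁)
      (sub_mem (zero_mem F) hd₂) (h1.mono (by linarith [min_le_left (η / 2) μ]))
      (by
        rw [zero_sub]
        exact (h5.mono (by linarith [min_le_right (η / 2) μ])).neg) h3
    change PG p v F ν (∑ j ∈ range (S + 1), x j * t ^ p ^ j * algebraMap k Ω c ^ p ^ j)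
    refine (congrArg _ ?_).mp h6
    have e : ∑ j ∈ range (T + 1), y j * (0 : Ω) ^ p ^ j = 0 := sum_eq_zero fun j _ => by
      rw [zero_pow (Nat.pow_pos hp.out.pos).ne', mul_zero]
    rw [e, add_zero]
    refine sum_congr rfl fun j _ => ?_
    rw [_root_.mul_pow]
    ring

/-- **Over a quiet field the floors of a pair with independent tops are quiet.** -/
theorem Ind.conS [IsAlgClosed k] [IsAlgClosed Ω] (hk : Ctx0 k v) (hsp : SphC v)
    (hval : ∀ ρ : ℝ, ∃ x : Ω, x ≠ 0 ∧ v x = ρ) (hcv : CompleteV v) (hL : Monotone L)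
    (hLF : ∀ J, L J ≤ F) (hd : F ≤ clI v (⨆ J, L J)) (hWF : W ≤ F) (h : ConS v L W F)
    (hpar : Par v F K y₁ r₁ y₂ r₂) (hb0 : b₀ ∈ F) (hx : Col p v F ν r₁ x)
    (hy : Col p v F ν r₂ y) (hlp : LP p v K ν (b₀ + col p x y₁ S + col p y y₂ T))
    (hind : Ind p v F ν r₁ S r₂ T (x S) (y T)) :
    ConS v (fun J => cadj v (L J) y₁) W (cadj v F y₁) := by
  rcases h.step hk hsp hval hcv hL hLF hd hWF hpar.t1 with h1 | h1 | h1
  · exact absurd h1 (hind.not_movV hL hd hpar hb0 hx hy hlp)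
  · exact absurd h1 (hind.not_movR hk hL hd hpar hb0 hx hy hlp)
  · exact h1

end Pool.Agent.TWCT
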