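import Pool.Agent.Lib.TWRR.R5
import Pool.Agent.Lib.TWCT.Pair
import Pool.Agent.Lib.TWN1.GabD
import Pool.Agent.Lib.TWN1.GabF

/-!
# TANK W, contact (III.1), end of the case `j = 2`: the alternative over a closed field

`C` closed, `w` over `C` with H0 and RAT, `K = C⟨w⟩⟨z⟩`, `a` critical in `K`. Then `a` is unhit by
`z` over `C⟨w⟩`, or (`Alt3`) there is a pair `z₁, z₂` over `C` with `K = C⟨z₁⟩⟨z₂⟩` such that
* `a` is additive, with an empty column of `z₁`, or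
* `z₂` is hit over `C`, or
* some critical element is additive with independent tops.
-/

set_option autoImplicit false

open Polynomial Finset

namespace Pool.Agent.TWCT

open Pool.Agent.H15JM (RVal)
open Pool.Agent.D2 (Ctx0)
open Pool.Agent.TWM
open Pool.Agent.TWII (PG LP)
open Pool.Agent.TWN1 (PC Col col Par AF Unh)
open Pool.Agent.TWRR (H0w RatH)

universe u

variable {k Ω : Type u} [Field k] [Field Ω] [Algebra k Ω] {v : RVal Ω}
  {C K : IntermediateField k Ω} {p : ℕ}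

/-- The alternative. -/
inductive Alt3 (p : ℕ) (v : RVal Ω) (C K : IntermediateField k Ω) (ν : ℝ) (a : Ω) : Prop
  | lin {b₀ z₁ z₂ : Ω} {r₁ r₂ : ℝ} {x y : ℕ → Ω} {T : ℕ} :
      AF p v C K ν a b₀ z₁ r₁ x 0 z₂ r₂ y T → Alt3 p v C K ν a
  | hit {z₁ z₂ : Ω} {r₁ r₂ : ℝ} : Par v C K z₁ r₁ z₂ r₂ → Hit p v C z₂ r₂ → Alt3 p v C K ν a
  | ind {ν' : ℝ} {b₀ z₁ z₂ : Ω} {r₁ r₂ : ℝ} {x y : ℕ → Ω} {S T : ℕ} :
      Par v C K z₁ r₁ z₂ r₂ → b₀ ∈ C → Col p v C ν' r₁ x → Col p v C ν' r₂ y →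
      LP p v K ν' (b₀ + col p x z₁ S + col p y z₂ T) → S ≠ 0 → T ≠ 0 →
      ¬ PG p v C (ν' - p ^ T * r₂) (y T) → Ind p v C ν' r₁ S r₂ T (x S) (y T) → Alt3 p v C K ν a

variable [hp : Fact p.Prime] [CharP Ω p] {ν : ℝ} {b₀ z₁ z₂ w z a : Ω} {r₁ r₂ ρ s : ℝ}
  {x y : ℕ → Ω} {S T : ℕ}

/-- From the additive form of a jet. -/
theorem alt3_of_af [IsAlgClosed Ω] (hP : Par v C K z₁ r₁ z₂ r₂)
    {f : Polynomial Ω} (hf : f ∈ PI (cadj v C z₁)) (hlp : LP p v K ν a)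
    (haf : PG p v K ν (a - f.eval z₂)) {m : ℕ}
    (h : AF p v C K (ν - m * r₂) ((hasseDeriv m f).eval z₂) b₀ z₁ r₁ x S z₂ r₂ y T)
    (hT : T ≠ 0) (hyT : ¬ PG p v C (ν - m * r₂ - p ^ T * r₂) (y T)) : Alt3 p v C K ν a := by
  have hfl : LP p v K ν (f.eval z₂) := by
    have h8 := hlp.sub (TWII.LP.of_pg haf)
    rwa [sub_sub_cancel] at h8
  have hbl : LP p v K (ν - m * r₂) ((hasseDeriv m f).eval z₂) := by
    have h9 := hfl
    rw [hP.eq1] at h9 ⊢
    exact h9.hjet hP.t21 hf m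
  obtain ⟨b₀', z₁', z₂', r₁', r₂', x', y', S', T', h', hl, hT', hyT', hS⟩ := h.red hT hyT
  have hlp' : LP p v K (ν - m * r₂) (b₀' + col p x' z₁' S' + col p y' z₂' T') := by
    have h1 := hbl.sub (TWII.LP.of_pg h'.rel)
    rwa [sub_sub_cancel] at h1
  rcases hS with rfl | ⟨hS0, hind⟩
  · rcases eq_or_ne m 0 with rfl | hm
    · refine Alt3.lin (b₀ := b₀') (z₁ := z₁') (z₂ := z₂') (r₁ := r₁') (r₂ := r₂') (x := x')
        (y := y') (T := T') ?_
      have h1 := h'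
      rw [Nat.cast_zero, zero_mul, sub_zero] at h1
      refine ⟨h1.par, h1.c1, h1.c2, h1.b0, ?_⟩
      have h2 := h1.rel
      rw [hasseDeriv_zero, LinearMap.id_apply] at h2
      have e : a - (b₀' + col p x' z₁' 0 + col p y' z₂' T') = (a - f.eval z₂) +
          (f.eval z₂ - (b₀' + col p x' z₁' 0 + col p y' z₂' T')) := by ring
      rw [e]
      exact haf.add h2
    · obtain ⟨h3, h4⟩ := TWN1.lin_null hP hf hfl hm h
      obtain ⟨hx0, -⟩ := hl h3 h4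
      refine Alt3.hit h'.par ?_
      -- `z₂'` is hit over `C`
      obtain ⟨c, hc, hzc⟩ := h'.par.t1.lim 1 one_pos
      obtain ⟨μ, hμ, h5⟩ := TWLM.exists_ge_of_gt hx0
      obtain ⟨c, hc, hzc⟩ := h'.par.t1.lim (μ / 2) (half_pos hμ)
      have h6 : Gt v (ν - m * r₂) (x' 0 * (z₁' - c)) := Gt.of_ge (h5.mul hzc) (by linarith)
      refine ⟨ν - m * r₂, b₀' + x' 0 * c, y', T', T', add_mem h'.b0 (mul_mem (h'.c1.mem 0) hc),
        h'.c2, ?_, hT', le_rfl, hyT'⟩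
      have h7 : LP p v K (ν - m * r₂) (b₀' + x' 0 * c + col p y' z₂' T') := by
        have h8 := hlp'.sub (TWII.LP.of_pg (PG.of_gt (p := p) (F := K) h6))
        refine (congrArg _ ?_).mp h8
        rw [TWN1.col_zero]
        ring
      rw [h'.par.eq2] at h7
      refine TWII.LP.down h'.par.t12 ?_ h7
      refine add_mem (le_cadj v C z₂' (add_mem h'.b0 (mul_mem (h'.c1.mem 0) hc)))
        (sum_mem fun j _ => mul_mem (le_cadj v C z₂' (h'.c2.mem j)) (pow_mem (self_mem_cadj v C z₂') _))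
  · exact Alt3.ind h'.par h'.b0 h'.c1 h'.c2 hlp' hS0 hT' hyT' hind

/-- **The alternative.** -/
theorem unh_or_alt3 [IsAlgClosed Ω] (hΩ : CompleteV v) (hw : TL v C w ρ) (h : H0w p v C w ρ)
    (hrat : RatH p v C w ρ) (hz : TL v (cadj v C w) z s) (hK : K = cadj v (cadj v C w) z)
    (ha : a ∈ K) (hlp : LP p v K ν a) : Unh p v (cadj v C w) K z s ν a ∨ Alt3 p v C K ν a := by
  have ha' := ha
  rw [hK] at ha'
  obtain ⟨f, hf, h1⟩ := hz.dense ha' (ν + 1)
  have h2 : PG p v K ν (a - f.eval z) := .of_gt (Gt.of_ge h1 (by linarith))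
  by_cases h3 : ∀ l : ℕ, p ∣ l → l ≠ 0 → PG p v K (ν - l * s) ((taylor z f).coeff l)
  · exact Or.inl ⟨f, hf, h2, h3⟩
  right
  simp only [not_forall] at h3
  obtain ⟨l, h4, h5, h6⟩ := h3
  have h7 : LP p v (cadj v (cadj v C w) z) ν (f.eval z) := by
    have h8 := hlp.sub (TWII.LP.of_pg h2)
    rw [sub_sub_cancel] at h8
    rwa [hK] at h8
  obtain ⟨m, N, g, hg, b₀, x, S, y', hN, haf, htop⟩ :=
    h.hit_af hΩ hw hrat hz hf h7 ⟨l, h4, h5, by rwa [← hK]⟩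
  rw [← hK] at haf
  -- the shift
  have e1 : (taylor g f).eval (z - g) = f.eval z := by
    rw [taylor_eval, sub_add_cancel]
  have e2 : (hasseDeriv m (taylor g f)).eval (z - g) = (hasseDeriv m f).eval z := by
    rw [← taylor_coeff, ← taylor_coeff, taylor_taylor, sub_add_cancel]
  have hf' : taylor g f ∈ PI (cadj v C w) := fun i => by
    rw [taylor_coeff]
    exact eval_mem (hasse_mem_PI hf i) hg
  rw [← e2] at haf
  refine alt3_of_af haf.par hf' hlp (by rw [e1]; exact h2) haf hN htop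

end Pool.Agent.TWCT
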