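import Pool.Agent.Lib.TWCT.J2
import Pool.Agent.Lib.TWCT.J3b
import Pool.Agent.Lib.TWCT.AsmP
import Pool.Agent.Lib.TWCT.IndS
import Pool.Agent.Lib.TWRR.D0
import Pool.Agent.Lib.TWRT.RT6

/-!
# TANK W, contact (III.1): the row (j = 2)

* `hit_tH`: a hit floor over `F` is hit over the tame closure of `F` in the big field;
* `CTD.cs_of_ind`: the floors of a pair with independent tops over a quiet field are quiet;
* `CTD.rowJ2`: the row (j = 2).
-/

set_option autoImplicit false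

open Polynomial Finset

namespace Pool.Agent.TWCT

open Pool.Agent.H15JM (RVal)
open Pool.Agent.LU1 (VPos adj)
open Pool.Agent.D2 (Ctx0)
open Pool.Agent.D2P (hen clI mem_clI mem_adj_self adj_le)
open Pool.Agent.TW (Ctx Full BD HRone LU)
open Pool.Agent.TWM
open Pool.Agent.TWS (IsoE SphC TowR)
open Pool.Agent.TWII (PG LP)
open Pool.Agent.TWN1 (PC Col col Par AF Unh)
open Pool.Agent.TWTam

universe u

variable {k Ω H : Type u} [Field k] [Field Ω] [Algebra k Ω] [Field H] [Algebra k H]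
  {p : ℕ} {v : RVal Ω} {w : RVal H} {ι : Ω →ₐ[k] H} {x : Ω} {F K : IntermediateField k Ω}

/-- **A hit floor is hit over the tame closure.** -/
theorem hit_tH [hp : Fact p.Prime] [CharP Ω p] (hI : IsoE v w ι) (hcv : CompleteV v)
    (hF : TamB p v x F) {y : Ω} {s : ℝ} (h : Hit p v F y s) : Hit p w (tH p v ι x F) (ι y) s := by
  obtain ⟨ν, b₀, B, T, j, hb0, hB, hlp, hj, hjT, hn⟩ := h
  refine ⟨ν, ι b₀, fun j => ι (B j), T, j, mem_tH hb0, col_tH hI hB, ?_, hj, hjT, fun h1 => ?_⟩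
  · rw [← map_col, ← map_add, ← tH_cadj hI hcv]
    exact lp_tH hI hlp
  · exact hn (hF.self.pg hF (hB.mem j) ((pg_iff' hI).1 h1))

variable {W₀ K₀ C₀ : IntermediateField k Ω} {al : Ω}

namespace CTD

variable [hp : Fact p.Prime] [CharP Ω p] [CharP k p] [IsAlgClosed k] [IsAlgClosed Ω]
  [IsAlgClosed H]

/-- **The first floor of a pair with independent tops over a quiet field is quiet.** -/
theorem cs_of_ind (h : CTD p v w ι x W₀ K₀ al) (hWC : W₀ ≤ C₀)
    (hcs : CS p v w ι x (clI v W₀) (clI v C₀)) {z₁ z₂ : Ω} {r₁ r₂ : ℝ}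
    (hpar : Par v (clI v C₀) F z₁ r₁ z₂ r₂) {ν : ℝ} {b₀ : Ω} (hb0 : b₀ ∈ clI v C₀)
    {a b : ℕ → Ω} {S T : ℕ} (ha : Col p v (clI v C₀) ν r₁ a) (hb : Col p v (clI v C₀) ν r₂ b)
    (hlp : LP p v F ν (b₀ + col p a z₁ S + col p b z₂ T))
    (hind : Ind p v (clI v C₀) ν r₁ S r₂ T (a S) (b T)) :
    CS p v w ι x (clI v W₀) (cadj v (clI v C₀) z₁) := by
  have : CharP H p := (RingHom.charP_iff (algebraMap k H) (algebraMap k H).injective p).1
    inferInstance
  obtain ⟨L, hL, hcon⟩ := hcs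
  have hxC : x ∈ clI v C₀ := clI_mono hWC h.xW
  have hTB : TamB p v x (clI v C₀) := tamB_of hp.out h.ctx.toCtx0 h.cpl h.x0 (cld_clI v _) hxC
  have hlp' : LP p w (tH p v ι x F) ν
      (ι b₀ + col p (fun j => ι (a j)) (ι z₁) S + col p (fun j => ι (b j)) (ι z₂) T) := by
    rw [← map_col, ← map_col, ← map_add, ← map_add]
    exact lp_tH h.iso hlp
  refine ⟨_, hL.step h.iso h.cpl z₁, ?_⟩
  rw [tH_cadj h.iso h.cpl (clI v C₀) z₁]
  exact Ind.conS h.c0 h.sph h.val h.cw hL.mono hL.le hL.dense (tH_mono (clI_mono hWC)) hcon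
    (par_tH h.iso h.cpl hxC hpar) (mem_tH hb0) (col_tH h.iso ha) (col_tH h.iso hb) hlp'
    (ind_tH h.iso hTB (ha.mem S) (hb.mem T) hind)

/-- **Row (j = 2).** -/
theorem rowJ2 (h : CTD p v w ι x W₀ K₀ al) : RowJ2 p v w ι x W₀ K₀ al := by
  have : CharP H p := (RingHom.charP_iff (algebraMap k H) (algebraMap k H).injective p).1
    inferInstance
  intro C₀ hWC hCt hcs hT hq
  by_cases hal : al ∈ K₀
  · have e : adj K₀ al = K₀ := le_antisymm (adj_le le_rfl hal) (mem_adj_self K₀ al).2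
    rw [e]
    exact h.hr
  obtain ⟨ν, hlp, hlev⟩ := TWS7.exists_level p h.bd hal h.mem
  have hxC : x ∈ clI v C₀ := clI_mono hWC h.xW
  obtain ⟨L, hL, hcon⟩ := id hcs
  have hWC' : clI v W₀ ≤ clI v C₀ := clI_mono hWC
  -- no floor with a presentation over it is quiet
  have hmv : ∀ (y : Ω) (s : ℝ), TL v (clI v C₀) y s →
      TowR v 1 (cadj v (clI v C₀) y) (clI v K₀) → Mvs p v w ι x (clI v C₀) L y s := by
    intro y s hy hT'
    rcases CS.step_of h.iso h.cpl h.c0 h.sph h.val h.cw hWC' hxC hL hcon hy with h1 | h1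
    · exact h1
    · exact absurd h1 (hq y s hy hT')
  obtain ⟨z, ρ, hz, hT1⟩ : ∃ z ρ, TL v (clI v C₀) z ρ ∧
      TowR v 1 (cadj v (clI v C₀) z) (clI v K₀) := by
    cases hT with
    | succ h1 h2 => exact ⟨_, _, h1, h2⟩
  obtain ⟨y, s, hy, hK⟩ := TWS.towR_iff_one.1 hT1
  -- H0 and RAT
  obtain ⟨h0, hrat⟩ := TWRT.mov_h0w_ratH (p := p) h.c0 hL.mono hL.dense (tl_tH h.iso hxC hz)
    (hmv z ρ hz hT1)
  have h0' : TWRR.H0w p v (clI v C₀) z ρ :=
    TWRR.H0w.desc h.iso h.cpl h.ctx.toCtx0 h.x0 hxC h0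
  have hrat' : TWRR.RatH p v (clI v C₀) z ρ :=
    TWRR.RatH.desc h.iso h.cpl h.ctx.toCtx0 h.x0 hxC (cld_clI v _) hz hrat
  rcases unh_or_alt3 h.cpl hz h0' hrat' hy hK (le_clI _ h.mem) hlp with h1 | h1
  · -- unhit
    have e1 : clI v (adj C₀ z) = cadj v (clI v C₀) z := clI_adj_clI.symm
    refine hrone_of_unh (r := 1) (D := 2) (B := adj C₀ z) (y := y) (s := s) h.ctx h.cpl
      (by norm_num) ?_ h.fg h.full (by rw [h.tr]) h.bd h.mem h.bda
      (h.full_of (hWC.trans (mem_adj_self C₀ z).2)) ?_ ?_ ?_ hlev ?_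
    · intro K hK hKf htK hBDK
      exact TWJ.lu_bd_two p h.ctx (TWJ.stepAll p k 1) (by omega) hK hKf htK hBDK
    · rw [TW.HRLU.trdeg_adj (TWC.TL.transcendental hz (le_clI C₀)), hCt]
      norm_num
    · rw [e1]
      exact hy
    · rw [e1]
      exact hK
    · rw [e1]
      exact h1
  · cases h1 with
    | lin haf =>
      exact hrone4_of_af h.ctx h.cpl h.fg h.full h.tr h.bd h.mem h.bda (h.full_of hWC) hCt hlev haf
    | @hit z₁ z₂ r₁ r₂ hpar hit =>
      exfalso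
      have hTB : TamB p v x (clI v C₀) := tamB_of hp.out h.ctx.toCtx0 h.cpl h.x0 (cld_clI v _) hxC
      refine not_hit_of_mov h.c0 hL.mono hL.dense (tl_tH h.iso hxC hpar.t2)
        (hmv z₂ r₂ hpar.t2 ?_) (hit_tH h.iso h.cpl hTB hit)
      exact TWS.towR_iff_one.2 ⟨z₁, r₁, hpar.t12, hpar.eq2⟩
    | ind hpar hb0 ha hb hlp' hS hT htop hind =>
      exact (h.pair_false hWC hcs hpar hb0 ha hb hlp' hind).elim

end CTD

end Pool.Agent.TWCT
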