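import Pool.Agent.Lib.TWS7.UnhitE
import Pool.Agent.Lib.TWCT.Tie
import Pool.Agent.Lib.TWN1.GabC

/-!
# TANK W, contact (III.1): the exit if a top floor is not hit

* `Hit.of_jet`: a jet of order divisible by `p` which is not null gives a hit (`TWII.soc`);
* `jet_of_not_hit`;
* `hrone_of_nohit`: `clI K₀ = clI B(y)`, `y` of transcendental type over the closure of `B`, not
  hit: `HRone v (adj K₀ al)`. `B` is not assumed to be finitely generated.
-/

set_option autoImplicit false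

open Polynomial Finset

namespace Pool.Agent.TWCT

open Pool.Agent.H15JM (RVal)
open Pool.Agent.LU1 (VPos adj)
open Pool.Agent.D2 (Ctx0)
open Pool.Agent.D2P (hen clI mem_clI)
open Pool.Agent.TW (Ctx Full BD HRone LU)
open Pool.Agent.TWM
open Pool.Agent.TWII (PG LP)
open Pool.Agent.TWN1 (PC Col col)

universe u

variable {k Ω : Type u} [Field k] [Field Ω] [Algebra k Ω] {v : RVal Ω} {p : ℕ}
  [hp : Fact p.Prime] [CharP Ω p] {F : IntermediateField k Ω} {y : Ω} {s ν : ℝ}
  {f : Polynomial Ω}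

/-- **A jet of order divisible by `p` which is not null is a hit.** -/
theorem Hit.of_jet [IsAlgClosed Ω] (hy : TL v F y s) (hf : f ∈ PI F) (hlim : LP p v (cadj v F y) ν (f.eval y))
    (hhit : ∃ l : ℕ, p ∣ l ∧ l ≠ 0 ∧
      ¬ PG p v (cadj v F y) (ν - l * s) ((taylor y f).coeff l)) : Hit p v F y s := by
  obtain ⟨m, t, e, a₀, A, -, he, ha₀, hA, hge, hlev, htop, -, hst⟩ := TWII.soc p hy hf hlim hhit
  have hsum : ∀ z : Ω, a₀ + e * z + ∑ i ∈ range (t + 1), A i * z ^ p ^ (i + 1) =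
      a₀ + col p (fun j => if j = 0 then e else A (j - 1)) z (t + 1) := by
    intro z
    rw [col, sum_range_succ' _ (t + 1)]
    simp only [Nat.add_sub_cancel, if_true, pow_zero, pow_one, Nat.succ_ne_zero, if_false]
    ring
  have hcol : Col p v F (ν - m * s) s fun j => if j = 0 then e else A (j - 1) :=
    { mem := fun j => by
        split_ifs
        · exact he
        · exact hA _
      lin := by simpa using hge
      lev := fun j hj => by
        obtain ⟨i, rfl⟩ : ∃ i, j = i + 1 := ⟨j - 1, by omega⟩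
        have h5 := hlev i
        push_cast at h5
        simpa using h5 }
  refine ⟨ν - m * s, a₀, _, t + 1, t + 1, ha₀, hcol, ?_, Nat.succ_ne_zero t, le_rfl, ?_⟩
  · -- the limit
    intro ε hε
    obtain ⟨δ, hδ, h1⟩ := hcol.near (le_cadj v F y) (self_mem_cadj v F y) (t + 1) hε
    obtain ⟨δ', hδ', h2⟩ := hst ε hε
    obtain ⟨θ, hθ, hyθ⟩ := hy.lim (min δ δ') (lt_min hδ hδ')
    obtain ⟨g, hg, h3⟩ := h2 θ hθ (hyθ.mono (by linarith [min_le_right δ δ']))
    rw [hsum] at h3
    have h4 := h1 θ hθ (hyθ.mono (by linarith [min_le_left δ δ']))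
    have h5 : PC p v (cadj v F y) (ν - m * s - ε)
        (a₀ + col p (fun j => if j = 0 then e else A (j - 1)) θ (t + 1)) :=
      ⟨g, le_cadj v F y hg, h3⟩
    have h6 := h5.add h4
    rwa [add_assoc, add_sub_cancel] at h6
  · intro h1
    refine htop (TWII.PG.up ?_)
    push_cast
    simpa using h1

theorem jet_of_not_hit [IsAlgClosed Ω] (hy : TL v F y s) (hnh : ¬ Hit p v F y s) (hf : f ∈ PI F)
    (hlim : LP p v (cadj v F y) ν (f.eval y)) (l : ℕ) (hpl : p ∣ l) (hl : l ≠ 0) :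
    PG p v (cadj v F y) (ν - l * s) ((taylor y f).coeff l) := by
  by_contra h
  exact hnh (Hit.of_jet hy hf hlim ⟨l, hpl, hl, h⟩)

/-- **The exit if the top floor is not hit.** -/
theorem hrone_of_nohit [IsAlgClosed k] [IsAlgClosed Ω] [CharP k p] {r D : ℕ} (h : Ctx k v r)
    (hcv : CompleteV v) (h2 : 2 ≤ r + D)
    (hLU : ∀ E : IntermediateField k Ω, E.FG → Full v E → Algebra.trdeg k E = (r + D : ℕ) →
      BD p v E → LU p v r E)
    {K₀ : IntermediateField k Ω} (hK : K₀.FG) (hKf : Full v K₀)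
    (htr : Algebra.trdeg k K₀ = (r + D + 1 : ℕ)) (hBDK : BD p v K₀) (hHR : HRone v K₀) {al : Ω}
    (hal : al ^ p ∈ K₀) (hBD : BD p v (adj K₀ al)) {B : IntermediateField k Ω}
    (hBf : Full v B) (hBt : Algebra.trdeg k B = (r + D : ℕ))
    (hy : TL v (clI v B) y s) (hcl : clI v K₀ = cadj v (clI v B) y)
    (hnh : ¬ Hit p v (clI v B) y s) : HRone v (adj K₀ al) := by
  by_cases ha : al ∈ K₀
  · have e : adj K₀ al = K₀ := le_antisymm (D2P.adj_le le_rfl ha) (D2P.mem_adj_self K₀ al).2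
    rwa [e]
  obtain ⟨ν, hlp, hlev⟩ := TWS7.exists_level p hBDK ha hal
  have halK : al ^ p ∈ cadj v (clI v B) y := by
    rw [← hcl]
    exact le_clI _ hal
  obtain ⟨f, hf, h1⟩ := hy.dense halK (ν + 1)
  have h3 : Gt v ν (al ^ p - f.eval y) := Gt.of_ge h1 (by linarith)
  have h4 : LP p v (cadj v (clI v B) y) ν (f.eval y) := by
    rw [← hcl]
    have h5 := hlp.sub (TWII.LP.of_pg (TWII.PG.of_gt (p := p) (F := clI v K₀) h3))
    rwa [sub_sub_cancel] at h5
  refine TWS7.nohit_union p h hcv h2 hLU hK hKf htr hBDK hal hBD hBf hBt hy hcl hf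
    (g := 0) (zero_mem _) ?_ (fun l hpl hl => ?_) hlev
  · rwa [zero_pow hp.out.ne_zero, sub_zero]
  · rw [hcl]
    exact jet_of_not_hit hy hnh hf h4 l hpl hl

/-- **The exit in dimension four**, rational rank one. -/
theorem hrone4_of_not_hit [IsAlgClosed k] [IsAlgClosed Ω] [CharP k p] (h : Ctx k v 1)
    (hcv : CompleteV v) {K₀ : IntermediateField k Ω} (hK : K₀.FG) (hKf : Full v K₀)
    (htr : Algebra.trdeg k K₀ = (4 : ℕ)) (hBDK : BD p v K₀) (hHR : HRone v K₀) {al : Ω}
    (hal : al ^ p ∈ K₀) (hBD : BD p v (adj K₀ al)) {B : IntermediateField k Ω}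
    (hBf : Full v B) (hBt : Algebra.trdeg k B = (3 : ℕ))
    (hy : TL v (clI v B) y s) (hcl : clI v K₀ = cadj v (clI v B) y)
    (hnh : ¬ Hit p v (clI v B) y s) : HRone v (adj K₀ al) := by
  refine hrone_of_nohit (r := 1) (D := 2) h hcv (by norm_num) ?_ hK hKf (by rw [htr]) hBDK hHR
    hal hBD hBf (by rw [hBt]) hy hcl hnh
  intro K hK hKf htK hBDK
  exact TWJ.lu_bd_two p h (TWJ.stepAll p k 1) (by omega) hK hKf htK hBDK

end Pool.Agent.TWCT
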