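import Pool.Agent.Lib.TWCT.Defs
import Pool.Agent.Lib.TWM.S8b
import Pool.Agent.Lib.TW.P4b

/-!
# TANK W, contact (III.1), row CT.2, second form

`K` is closed, with topological generators `t` of bounded distortion.

* `strM_of_near`: for every margin `D` there is `R` such that an isometric embedding which moves
  the `t i` by values at least `R` moves all of `K` with relative margin `D`;
* `near_adjoin`: an isometric embedding which fixes `N` and moves the `y j` by large values moves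
  a given element of `N(y)` by large values;
* `strM_of_fix_near`: the same as `strM_of_near`, with `N` fixed and `y` moved by values at least
  `R`, when `K` is contained in the closure of `N(y)`;
* `no_record`: then no element of `K` is moved by a relative amount of value less than `D`;
* `exists_le_of_gen`: if `K` is contained in the closure of a directed union of closed fields
  contained in `K`, it is one of them.
-/

set_option autoImplicit false

open Polynomial

namespace Pool.Agent.TWCT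

open Pool.Agent.H15JM (RVal)
open Pool.Agent.LU1 (VPos adj)
open Pool.Agent.LUC (Cl)
open Pool.Agent.D2 (Ctx0)
open Pool.Agent.D2P (hen clI mem_clI)
open Pool.Agent.TW (kr Near)
open Pool.Agent.TWM
open Pool.Agent.TWS

universe u

variable {k Ω : Type u} [Field k] [Field Ω] [Algebra k Ω] {v : RVal Ω}
  {K N : IntermediateField k Ω} {p : ℕ} {n : ℕ} {t : Fin n → Ω} {C : ℝ}

/-- **(B1).** Isometric embeddings which are near the identity on topological generators of
bounded distortion are near the identity everywhere. -/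
theorem strM_of_near [Fact p.Prime] [CharP Ω p] [CharP k p] [IsAlgClosed k] (h0 : Ctx0 k v)
    (hgen : clI v (kr k t) = K) (ho : OI p v K t C) (ht0 : ∀ i, t i ≠ 0) (D : ℝ) :
    ∃ R : ℝ, ∀ Φ : Ω →ₐ[k] Ω, IsoE v v Φ → (∀ i, v.Ge R (Φ (t i) - t i)) → StrM v Φ K D := by
  classical
  have hle : kr k t ≤ K := by
    rw [← hgen]
    exact le_clI _
  have hok : OI p v (kr k t) t C := ho.mono hle le_rfl
  have hind : AlgebraicIndependent k t := hok.algInd ht0
  obtain ⟨C', hC', hN⟩ := near_of_oi h0 hok ht0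
  refine ⟨(∑ i, |v (t i)|) + (C' + (|D| + 1)), fun Φ hΦ hΦt => ?_⟩
  have hD1 := abs_nonneg D
  have hN' := hN (C' + (|D| + 1)) (fun i => Φ (t i)) (by linarith) fun i =>
    ge_sub_comm ((hΦt i).mono (by
      have h1 : |v (t i)| ≤ ∑ i, |v (t i)| :=
        Finset.single_le_sum (f := fun i => |v (t i)|) (fun i _ => abs_nonneg _)
          (Finset.mem_univ i)
      have h2 := le_abs_self (v (t i))
      linarith))
  have hP : ∀ P : MvPolynomial (Fin n) k,
      v.Ge (v (MvPolynomial.aeval t P) + (|D| + 1))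
        (Φ (MvPolynomial.aeval t P) - MvPolynomial.aeval t P) := by
    intro P
    by_cases hP0 : MvPolynomial.aeval t P = 0
    · rw [hP0, map_zero, sub_zero]
      exact RVal.Ge.zero
    · have h1 := hN'.near P hP0
      have h2 : MvPolynomial.aeval (fun i => Φ (t i)) P = Φ (MvPolynomial.aeval t P) :=
        MvPolynomial.comp_aeval_apply (f := t) Φ P |>.symm
      rw [h2] at h1
      exact h1.mono (by linarith)
  have h3 : StrM v Φ (kr k t) (|D| + 1) := by
    refine strM_of_val fun a ha => ?_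
    obtain ⟨P, Q, hQ, hPQ⟩ := TW.P4bAux.exists_frac hind ha
    rw [hPQ]
    exact StrM.div_aux hΦ (by linarith) hQ (hP P) (hP Q)
  rw [← hgen]
  exact (h3.clI hΦ).mono (by linarith [le_abs_self D])

/-- Continuity of the inverse. -/
theorem near_inv {Φ : Ω →ₐ[k] Ω} (hΦ : IsoE v v Φ) {a : Ω} (ha : a ≠ 0) {R : ℝ}
    (h : v.Ge (R + 2 * v a) (Φ a - a)) : v.Ge R (Φ a⁻¹ - a⁻¹) := by
  have hb : Φ a ≠ 0 := IsoE.ne_zero ha
  have e1 : Φ a⁻¹ - a⁻¹ = -((Φ a - a) / (a * Φ a)) := by
    rw [map_inv₀]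
    field_simp
    ring
  rw [e1]
  refine RVal.Ge.neg ?_
  intro h3
  have h4 : Φ a - a ≠ 0 := fun h0 => h3 (by rw [h0, zero_div])
  rw [v.map_div h4 (mul_ne_zero ha hb), v.map_mul ha hb, hΦ.val a ha]
  have := h h4
  linarith

/-- **(B2), continuity of a given element of `N(y)`.** -/
theorem near_adjoin {ι : Type*} [Finite ι] {y : ι → Ω} {a : Ω}
    (ha : a ∈ N ⊔ IntermediateField.adjoin k (Set.range y)) (M : ℝ) :
    ∃ R : ℝ, ∀ Φ : Ω →ₐ[k] Ω, IsoE v v Φ → (∀ x ∈ N, Φ x = x) →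
      (∀ j, v.Ge R (Φ (y j) - y j)) → v.Ge M (Φ a - a) := by
  have h1 : N ⊔ IntermediateField.adjoin k (Set.range y) =
      IntermediateField.adjoin k ((N : Set Ω) ∪ Set.range y) := by
    rw [IntermediateField.adjoin_union, IntermediateField.adjoin_self]
  rw [h1] at ha
  induction ha using IntermediateField.adjoin_induction generalizing M with
  | mem x hx =>
    rcases hx with hx | ⟨j, rfl⟩
    · refine ⟨0, fun Φ _ hN _ => ?_⟩
      rw [hN x hx, sub_self]
      exact RVal.Ge.zero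
    · exact ⟨M, fun Φ _ _ hy => hy j⟩
  | algebraMap x =>
    refine ⟨0, fun Φ _ hN _ => ?_⟩
    rw [AlgHom.commutes, sub_self]
    exact RVal.Ge.zero
  | add x z hx hz ihx ihz =>
    obtain ⟨R₁, h1⟩ := ihx M
    obtain ⟨R₂, h2⟩ := ihz M
    refine ⟨max R₁ R₂, fun Φ hΦ hN hy => ?_⟩
    rw [map_add, show Φ x + Φ z - (x + z) = (Φ x - x) + (Φ z - z) by ring]
    exact (h1 Φ hΦ hN fun j => (hy j).mono (le_max_left _ _)).add
      (h2 Φ hΦ hN fun j => (hy j).mono (le_max_right _ _))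
  | mul x z hx hz ihx ihz =>
    obtain ⟨R₁, h1⟩ := ihx (M - v z)
    obtain ⟨R₂, h2⟩ := ihz (M - v x)
    refine ⟨max R₁ R₂, fun Φ hΦ hN hy => ?_⟩
    rw [map_mul, show Φ x * Φ z - x * z = (Φ x - x) * Φ z + x * (Φ z - z) by ring]
    refine RVal.Ge.add ?_ ?_
    · have h3 := (h1 Φ hΦ hN fun j => (hy j).mono (le_max_left _ _)).mul
        (hΦ.ge_iff.2 (RVal.ge_self z))
      exact h3.mono (by linarith)
    · have h3 := (RVal.ge_self (v := v) x).mul
        (h2 Φ hΦ hN fun j => (hy j).mono (le_max_right _ _))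
      exact h3.mono (by linarith)
  | inv x hx ihx =>
    by_cases hx0 : x = 0
    · refine ⟨0, fun Φ _ _ _ => ?_⟩
      rw [hx0, inv_zero, map_zero, sub_zero]
      exact RVal.Ge.zero
    · obtain ⟨R₁, h1⟩ := ihx (M + 2 * v x)
      exact ⟨R₁, fun Φ hΦ hN hy => near_inv hΦ hx0 (h1 Φ hΦ hN hy)⟩

/-- Isometric embeddings move the elements of the closure by as much as the elements near them. -/
theorem near_of_near {Φ : Ω →ₐ[k] Ω} (hΦ : IsoE v v Φ) {a b : Ω} {M : ℝ} (hab : v.Ge M (a - b))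
    (hb : v.Ge M (Φ b - b)) : v.Ge M (Φ a - a) := by
  have h1 : Φ a - a = Φ (a - b) - (a - b) + (Φ b - b) := by
    rw [map_sub]
    ring
  rw [h1]
  exact ((hΦ.ge_iff.2 hab).sub hab).add hb

/-- **(B2).** `N` fixed, `y` moved by values at least `R`: all of `K` is moved with relative margin
`D`. -/
theorem strM_of_fix_near [Fact p.Prime] [CharP Ω p] [CharP k p] [IsAlgClosed k] (h0 : Ctx0 k v)
    (hgen : clI v (kr k t) = K) (ho : OI p v K t C) (ht0 : ∀ i, t i ≠ 0) {ι : Type*} [Finite ι]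
    {y : ι → Ω} (hK : K ≤ clI v (N ⊔ IntermediateField.adjoin k (Set.range y))) (D : ℝ) :
    ∃ R : ℝ, ∀ Φ : Ω →ₐ[k] Ω, IsoE v v Φ → (∀ x ∈ N, Φ x = x) →
      (∀ j, v.Ge R (Φ (y j) - y j)) → StrM v Φ K D := by
  classical
  obtain ⟨M, hM⟩ := strM_of_near h0 hgen ho ht0 D
  have htK : ∀ i, t i ∈ K := fun i => by
    rw [← hgen]
    exact le_clI _ (IntermediateField.subset_adjoin k _ ⟨i, rfl⟩)
  have h1 : ∀ i, ∃ h ∈ N ⊔ IntermediateField.adjoin k (Set.range y), v.Ge M (t i - h) :=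
    fun i => mem_clI.1 (hK (htK i)) M
  choose h hh hth using h1
  have h2 : ∀ i, ∃ R : ℝ, ∀ Φ : Ω →ₐ[k] Ω, IsoE v v Φ → (∀ x ∈ N, Φ x = x) →
      (∀ j, v.Ge R (Φ (y j) - y j)) → v.Ge M (Φ (h i) - h i) := fun i => near_adjoin (hh i) M
  choose R hR using h2
  refine ⟨∑ i, |R i|, fun Φ hΦ hN hy => hM Φ hΦ fun i => near_of_near hΦ (hth i) ?_⟩
  refine hR i Φ hΦ hN fun j => (hy j).mono ?_
  have h3 : |R i| ≤ ∑ i, |R i| :=
    Finset.single_le_sum (f := fun i => |R i|) (fun i _ => abs_nonneg _) (Finset.mem_univ i)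
  exact (le_abs_self _).trans h3

/-- **(B3), the end of contact.** `N` fixed, `y` moved by values at least `R`: no element of `K` is
moved by a relative amount of value less than `D`. -/
theorem no_record [Fact p.Prime] [CharP Ω p] [CharP k p] [IsAlgClosed k] (h0 : Ctx0 k v)
    (hgen : clI v (kr k t) = K) (ho : OI p v K t C) (ht0 : ∀ i, t i ≠ 0) {ι : Type*} [Finite ι]
    {y : ι → Ω} (hK : K ≤ clI v (N ⊔ IntermediateField.adjoin k (Set.range y))) (D : ℝ) :
    ∃ R : ℝ, ∀ Φ : Ω →ₐ[k] Ω, IsoE v v Φ → (∀ x ∈ N, Φ x = x) →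
      (∀ j, v.Ge R (Φ (y j) - y j)) → ∀ θ ∈ K, v.Ge (v θ + D) (Φ θ - θ) := by
  obtain ⟨R, hR⟩ := strM_of_fix_near h0 hgen ho ht0 hK D
  exact ⟨R, fun Φ hΦ hN hy θ hθ => (hR Φ hΦ hN hy).self hθ⟩

/-- Elements of `N(y)` are fixed when `N` and `y` are. -/
theorem fix_adjoin {ι : Type*} {y : ι → Ω} {Φ : Ω →ₐ[k] Ω} (hN : ∀ x ∈ N, Φ x = x)
    (hy : ∀ j, Φ (y j) = y j) {a : Ω}
    (ha : a ∈ N ⊔ IntermediateField.adjoin k (Set.range y)) : Φ a = a := by
  have h1 : N ⊔ IntermediateField.adjoin k (Set.range y) =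
      IntermediateField.adjoin k ((N : Set Ω) ∪ Set.range y) := by
    rw [IntermediateField.adjoin_union, IntermediateField.adjoin_self]
  rw [h1] at ha
  induction ha using IntermediateField.adjoin_induction with
  | mem x hx =>
    rcases hx with hx | ⟨j, rfl⟩
    · exact hN x hx
    · exact hy j
  | algebraMap x => exact AlgHom.commutes Φ x
  | add x z hx hz ihx ihz => rw [map_add, ihx, ihz]
  | mul x z hx hz ihx ihz => rw [map_mul, ihx, ihz]
  | inv x hx ihx => rw [map_inv₀, ihx]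

/-- The first form: `N` and `y` fixed exactly, then all of `K` is fixed. -/
theorem fix_of_fix {ι : Type*} {y : ι → Ω}
    (hK : K ≤ clI v (N ⊔ IntermediateField.adjoin k (Set.range y))) {Φ : Ω →ₐ[k] Ω}
    (hΦ : IsoE v v Φ) (hN : ∀ x ∈ N, Φ x = x) (hy : ∀ j, Φ (y j) = y j) : ∀ a ∈ K, Φ a = a := by
  intro a ha
  refine sub_eq_zero.1 (eq_zero_of_ge_all (v := v) fun M => ?_)
  obtain ⟨h, hh, h1⟩ := mem_clI.1 (hK ha) M
  refine near_of_near hΦ h1 ?_
  rw [fix_adjoin hN hy hh, sub_self]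
  exact RVal.Ge.zero

/-- **LEMMA FG**, `K` with topological generators of bounded distortion: if `K` is contained in the
closure of a directed union of closed fields contained in `K`, it is one of them. -/
theorem exists_le_of_gen [Fact p.Prime] [CharP Ω p] [CharP k p] [IsAlgClosed k] (h0 : Ctx0 k v)
    (hgen : clI v (kr k t) = K) (ho : OI p v K t C) (ht0 : ∀ i, t i ≠ 0)
    {L : ℕ → IntermediateField k Ω} (hL : Monotone L) (hLc : ∀ J, Cld v (L J))
    (hLK : ∀ J, L J ≤ K) (hK : ∀ a ∈ K, ∀ M : ℝ, ∃ J, ∃ b ∈ L J, v.Ge M (a - b)) :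
    ∃ J₀, ∀ J, J₀ ≤ J → L J = K := by
  classical
  obtain ⟨δ, hδ⟩ := pert h0 hgen ho ht0
  have htK : ∀ i, t i ∈ K := fun i => by
    rw [← hgen]
    exact le_clI _ (IntermediateField.subset_adjoin k _ ⟨i, rfl⟩)
  choose J b hb hbt using fun i => hK (t i) (htK i) δ
  refine ⟨Finset.univ.sup J, fun J' hJ' => le_antisymm (hLK J') ?_⟩
  have h1 : ∀ i, b i ∈ L J' := fun i => hL ((Finset.le_sup (Finset.mem_univ i)).trans hJ') (hb i)
  rw [← hδ b (fun i => hLK _ (h1 i)) hbt]
  refine (clI_mono (IntermediateField.adjoin_le_iff.2 ?_)).trans (hLc J')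
  rintro _ ⟨i, rfl⟩
  exact h1 i

end Pool.Agent.TWCT
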