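import Pool.Agent.Lib.TWCT.AS
import Pool.Agent.Lib.TWN1.GabA

/-!
# TANK W, contact (III.1): no tie on a floor which generates the base

`ConM v L W`: for every `J` there is a strict motion of `W` which is the identity on `L J` and is not
the identity on `W`.
* `ASC.conM`: the Artin-Schreier towers with infinitely many drops;
* `ConM.no_tie`: if `W ≤ cadj v (L J₀) w` then no critical element of `cadj v W w` with an additive
  form `b₀ + col p y w T` is hit by `w`.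
-/

set_option autoImplicit false

open Polynomial Finset

namespace Pool.Agent.TWCT

open Pool.Agent.H15JM (RVal)
open Pool.Agent.LU1 (VPos adj)
open Pool.Agent.LUC (Cl)
open Pool.Agent.D2 (Ctx0)
open Pool.Agent.D2P (hen clI mem_clI)
open Pool.Agent.TWM
open Pool.Agent.TWS
open Pool.Agent.TWII (PG LP)
open Pool.Agent.TWN1 (PC Col col)

universe u

variable {k Ω : Type u} [Field k] [Field Ω] [Algebra k Ω] {v : RVal Ω}

/-! ### Records -/

section Record

variable {p : ℕ} {N : ℕ → IntermediateField k Ω} {th : ℕ → Ω} {u nn : ℕ → ℝ}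

/-- The breaks tend to zero. -/
theorem ASC.exists_small (hp : 1 < p) (h : ASC p v N th u nn) {ε : ℝ} (hε : 0 < ε) :
    ∃ M, ∀ n, M ≤ n → u n < ε := by
  have hp' : (1 : ℝ) < p := by exact_mod_cast hp
  have hanti : Antitone nn := antitone_nat_of_succ_le fun n => by
    rw [h.nns n]
    nlinarith [h.pos n]
  have hbdd : BddBelow (Set.range nn) := ⟨0, by rintro _ ⟨n, rfl⟩; exact h.nn0 n⟩
  have ht := tendsto_atTop_ciInf hanti hbdd
  have ht1 : Filter.Tendsto (fun n => nn n - nn (n + 1)) Filter.atTop (nhds 0) := by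
    have := ht.sub (ht.comp (Filter.tendsto_add_atTop_nat 1))
    simpa using this
  have hε' : (0 : ℝ) < ((p : ℝ) - 1) * ε := mul_pos (by linarith) hε
  obtain ⟨M, hM⟩ := Filter.eventually_atTop.1 (ht1.eventually (gt_mem_nhds hε'))
  refine ⟨M, fun n hn => ?_⟩
  have h1 := hM n hn
  have h2 := h.nns n
  have h3 : ((p : ℝ) - 1) * u n < ((p : ℝ) - 1) * ε := by linarith
  exact lt_of_mul_lt_mul_left h3 (by linarith)

/-- Infinitely many drops give infinitely many records. -/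
theorem ASC.exists_record (hp : 1 < p) (h : ASC p v N th u nn)
    (hinf : ∀ J, ∃ i, J ≤ i ∧ 0 < u i - nn (i + 1)) (J : ℕ) :
    ∃ i, J ≤ i ∧ 0 < u i - nn (i + 1) ∧ ∀ n, i < n → u n - nn (n + 1) ≤ u i - nn (i + 1) := by
  obtain ⟨i₀, hJ, h0⟩ := hinf J
  obtain ⟨M, hM⟩ := h.exists_small hp h0
  obtain ⟨i, hi, hmax⟩ := (Finset.Icc i₀ (max i₀ M)).exists_max_image
    (fun n => u n - nn (n + 1)) ⟨i₀, Finset.mem_Icc.2 ⟨le_rfl, le_max_left _ _⟩⟩
  rw [Finset.mem_Icc] at hi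
  have h1 := hmax i₀ (Finset.mem_Icc.2 ⟨le_rfl, le_max_left _ _⟩)
  refine ⟨i, hJ.trans hi.1, lt_of_lt_of_le h0 h1, fun n hn => ?_⟩
  rcases le_or_gt n (max i₀ M) with h2 | h2
  · exact hmax n (Finset.mem_Icc.2 ⟨by omega, h2⟩)
  · have h3 := hM n ((le_max_right _ _).trans h2.le)
    have h4 := h.nn0 (n + 1)
    linarith

end Record

/-! ### Strict motions which tend to the identity -/

/-- Strict motions of `W` which are the identity on `L J`, but not on `W`. -/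
def ConM (v : RVal Ω) (L : ℕ → IntermediateField k Ω) (W : IntermediateField k Ω) : Prop :=
  ∀ J : ℕ, ∃ (Φ : Ω →ₐ[k] Ω) (η : ℝ), 0 < η ∧ IsoE v v Φ ∧ (∀ a ∈ L J, Φ a = a) ∧
    (∀ a ∈ W, Φ a ∈ W) ∧ StrM v Φ W η ∧ ∃ x ∈ W, Φ x ≠ x

theorem map_clI_mem {Φ : Ω →ₐ[k] Ω} (hΦ : IsoE v v Φ) {A B : IntermediateField k Ω}
    (h : ∀ a ∈ A, Φ a ∈ B) : ∀ a ∈ clI v A, Φ a ∈ clI v B := by
  intro a ha
  rw [mem_clI] at ha ⊢
  intro c
  obtain ⟨a₀, h0, h1⟩ := ha c
  refine ⟨Φ a₀, h a₀ h0, ?_⟩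
  rw [← map_sub]
  exact hΦ.ge_iff.2 (show v.Ge c (a - a₀) from h1)

theorem fix_clI {Φ : Ω →ₐ[k] Ω} (hΦ : IsoE v v Φ) {A : IntermediateField k Ω}
    (h : ∀ a ∈ A, Φ a = a) : ∀ a ∈ clI v A, Φ a = a := by
  intro a ha
  refine sub_eq_zero.1 (TWLM.eq_zero_of_ge (v := v) fun c => ?_)
  obtain ⟨a₀, h0, h1⟩ := (mem_clI.1 ha) c
  have h1' : v.Ge c (a - a₀) := h1
  have e : Φ a - a = Φ (a - a₀) - (a - a₀) := by rw [map_sub, h a₀ h0]; ring
  rw [e]
  exact (hΦ.ge_iff.2 h1').sub h1'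

/-- The elements fixed by `Φ`. -/
def fixF (Φ : Ω →ₐ[k] Ω) : IntermediateField k Ω where
  carrier := {x | Φ x = x}
  mul_mem' := fun {a b} ha hb => by
    change Φ (a * b) = a * b
    rw [map_mul, show Φ a = a from ha, show Φ b = b from hb]
  add_mem' := fun {a b} ha hb => by
    change Φ (a + b) = a + b
    rw [map_add, show Φ a = a from ha, show Φ b = b from hb]
  algebraMap_mem' := fun c => Φ.commutes c
  inv_mem' := fun a ha => by
    change Φ a⁻¹ = a⁻¹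
    rw [map_inv₀, show Φ a = a from ha]

theorem mem_fixF {Φ : Ω →ₐ[k] Ω} {x : Ω} : x ∈ fixF Φ ↔ Φ x = x := Iff.rfl

theorem clI_le_fixF {Φ : Ω →ₐ[k] Ω} (hΦ : IsoE v v Φ) {A : IntermediateField k Ω}
    (h : A ≤ fixF Φ) : clI v A ≤ fixF Φ := fun a ha => fix_clI hΦ (fun b hb => h hb) a ha

/-- **Infinitely many drops.** -/
theorem ASC.conM {p : ℕ} [hp : Fact p.Prime] [CharP Ω p] [IsAlgClosed Ω] (hk : Ctx0 k v)
    (hw : SphC v) (hval : ∀ ρ : ℝ, ∃ x : Ω, x ≠ 0 ∧ v x = ρ) {N : ℕ → IntermediateField k Ω}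
    {th : ℕ → Ω} {u nn : ℕ → ℝ} (h : ASC p v N th u nn)
    (hinf : ∀ J, ∃ i, J ≤ i ∧ 0 < u i - nn (i + 1)) : ConM v N (clI v (⨆ n, N n)) := by
  intro J
  obtain ⟨i, hJ, h0, hmax⟩ := h.exists_record hp.out.one_lt hinf J
  obtain ⟨Φ, h1, h2, h3, h4, -, h5⟩ := h.exists_motion hk hw hval hmax 1
  refine ⟨Φ, _, h0, h1, fun a ha => h2 a (h.monotone hJ ha), ?_, h5, th i, ?_, ?_⟩
  · refine map_clI_mem h1 fun a ha => ?_
    have h6 : a ∈ ((⨆ n, N n : IntermediateField k Ω) : Set Ω) := ha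
    rw [IntermediateField.coe_iSup_of_directed h.monotone.directed_le, Set.mem_iUnion] at h6
    obtain ⟨n, hn⟩ := h6
    exact (le_iSup N n : N n ≤ _) (h4 n a hn)
  · exact le_clI _ ((le_iSup N (i + 1) : N (i + 1) ≤ _) (h.th_mem i))
  · rw [h3, Int.cast_one]
    intro h6
    have h7 : (1 : Ω) = 0 := by linear_combination h6
    exact one_ne_zero h7

/-! ### No tie -/

section NoTie

variable {p : ℕ} [hp : Fact p.Prime] [CharP Ω p] {W : IntermediateField k Ω}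
  {L : ℕ → IntermediateField k Ω} {Φ : Ω →ₐ[k] Ω}

/-- A finite set of elements of `W` is moved as little as one wants. -/
theorem exists_level (hL : Monotone L) (hd : W ≤ clI v (⨆ J, L J)) (S : Finset Ω)
    (hS : ∀ x ∈ S, x ∈ W) (P : ℝ) : ∃ J₀, ∀ J, J₀ ≤ J → ∀ Φ : Ω →ₐ[k] Ω, IsoE v v Φ →
      (∀ a ∈ L J, Φ a = a) → ∀ x ∈ S, v.Ge P (Φ x - x) := by
  classical
  induction S using Finset.induction_on with
  | empty => exact ⟨0, fun _ _ _ _ _ x hx => absurd hx (Finset.notMem_empty x)⟩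
  | insert x S hx ih =>
    obtain ⟨J₁, h1⟩ := ih fun y hy => hS y (mem_insert_of_mem hy)
    obtain ⟨x₀, h2, h3⟩ := (mem_clI.1 (hd (hS x (mem_insert_self x S)))) P
    have h2' : x₀ ∈ ((⨆ n, L n : IntermediateField k Ω) : Set Ω) := h2
    rw [IntermediateField.coe_iSup_of_directed hL.directed_le, Set.mem_iUnion] at h2'
    obtain ⟨J₂, h4⟩ := h2'
    have h3' : v.Ge P (x - x₀) := h3
    refine ⟨max J₁ J₂, fun J hJ Φ hΦ hfix y hy => ?_⟩
    rcases mem_insert.1 hy with rfl | hy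
    · have e : Φ y - y = Φ (y - x₀) - (y - x₀) := by
        rw [map_sub, hfix x₀ (hL ((le_max_right _ _).trans hJ) h4)]
        ring
      rw [e]
      exact (hΦ.ge_iff.2 h3').sub h3'
    · exact h1 J ((le_max_left _ _).trans hJ) Φ hΦ hfix y hy

/-- The top of a null additive polynomial at a point of value `< s`. -/
theorem top_null {s ν : ℝ} {y : ℕ → Ω} {T : ℕ} (hT : T ≠ 0) (hy : Col p v W ν s y) {om : Ω}
    (hom : om ∈ W) (h0 : om ≠ 0) (hv : v om < s)
    (hnull : PG p v W ν (∑ j ∈ range (T + 1), y j * om ^ p ^ j)) :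
    PG p v W (ν - p ^ T * s) (y T) := by
  set γ : ℝ := s - v om with hγ
  have hγ0 : 0 < γ := by rw [hγ]; linarith
  have hp1 : (1 : ℝ) < p := by exact_mod_cast hp.out.one_lt
  have hpow : ∀ {i j : ℕ}, i < j → (p : ℝ) ^ i < (p : ℝ) ^ j := fun h => pow_lt_pow_right₀ hp1 h
  have hval : ∀ j : ℕ, v.Ge (p ^ j * (s - γ)) (om ^ p ^ j) := fun j => by
    have h1 := ge_pow (RVal.ge_self (v := v) om) (p ^ j)
    refine h1.mono (le_of_eq ?_)
    rw [hγ]
    push_cast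
    ring
  -- the terms below the top are null at the level `ν - Q γ`
  have hlow : ∀ j ∈ range T, PG p v W (ν - p ^ T * γ) (y j * om ^ p ^ j) := by
    intro j hj
    rw [mem_range] at hj
    rcases Nat.eq_zero_or_pos j with rfl | hj0
    · refine PG.of_gt (Gt.of_ge (hy.lin.mul (hval 0)) ?_)
      have h1 := hpow (Nat.pos_of_ne_zero hT)
      rw [pow_zero] at h1 ⊢
      nlinarith
    · have h1 := hpow hj
      have h2 := (hy.lev j (by omega)).pc (c' := ν - p ^ j * s - (p ^ T - p ^ j) * γ / 2)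
        (by nlinarith)
      obtain ⟨i, rfl⟩ : ∃ i, j = i + 1 := ⟨j - 1, by omega⟩
      have h3 : om ^ p ^ (i + 1) = (om ^ p ^ i) ^ p := by rw [← pow_mul, ← pow_succ]
      rw [h3]
      have h4 := h2.mul_pow (pow_mem hom (p ^ i)) (b := p ^ (i + 1) * (s - γ)) (by
        rw [← h3]; exact hval _)
      refine h4.pg ?_
      nlinarith
  have h1 : PG p v W (ν - p ^ T * γ) (y T * om ^ p ^ T) := by
    rw [sum_range_succ] at hnull
    have h2 := (hnull.mono (c' := ν - p ^ T * γ) (by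
      have : (0 : ℝ) < (p : ℝ) ^ T := by positivity
      nlinarith)).sub (PG.sum _ _ hlow)
    rwa [add_sub_cancel_left] at h2
  -- divide by the `p`-th power
  obtain ⟨i, rfl⟩ : ∃ i, T = i + 1 := ⟨T - 1, by omega⟩
  have h3 : om ^ p ^ (i + 1) = (om ^ p ^ i) ^ p := by rw [← pow_mul, ← pow_succ]
  have h4 : om ^ p ^ i ≠ 0 := pow_ne_zero _ h0
  have h5 := h1.mul_pow (w := (om ^ p ^ i)⁻¹) (inv_mem (pow_mem hom _)) (b := -(p ^ (i + 1) * v om))
    (RVal.Ge.of_le (by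
      rw [inv_pow, ← h3, v.map_inv (pow_ne_zero _ h0), v.map_pow h0]
      push_cast
      exact le_rfl))
  have e : y (i + 1) * om ^ p ^ (i + 1) * (om ^ p ^ i)⁻¹ ^ p = y (i + 1) := by
    rw [inv_pow, ← h3, mul_assoc, mul_inv_cancel₀ (pow_ne_zero _ h0), mul_one]
  rw [e] at h5
  refine h5.mono (le_of_eq ?_)
  rw [hγ]
  ring

/-- The polynomial `b₀ + col p y X T`. -/
theorem map_sub_col {b₀ : Ω} {y : ℕ → Ω} {T : ℕ} (c : Ω) :
    Φ (b₀ + col p y c T) - (b₀ + col p y c T) = (Φ b₀ - b₀) +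
      ∑ j ∈ range (T + 1), (Φ (y j) - y j) * (Φ c) ^ p ^ j +
      ∑ j ∈ range (T + 1), y j * (Φ c - c) ^ p ^ j := by
  have h1 : ∀ j : ℕ, (Φ c - c) ^ p ^ j = (Φ c) ^ p ^ j - c ^ p ^ j := fun j => by
    have := sub_pow_char_pow (R := Ω) (p := p) (n := j) (Φ c) c
    exact this
  rw [col, map_add, map_sum, add_sub_add_comm, ← sum_sub_distrib, add_assoc, ← sum_add_distrib]
  congr 1
  refine sum_congr rfl fun j _ => ?_
  rw [h1, map_mul, map_pow]
  ring

/-- **The strict motion is the identity on the floor, up to the radius.** -/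
theorem move_ge [IsAlgClosed Ω] {w : Ω} {s η : ℝ} (hw : TL v W w s) (hΦ : IsoE v v Φ)
    (hΦW : ∀ a ∈ W, Φ a ∈ W) (hη : 0 < η) (hs : StrM v Φ W η) {ν : ℝ} {b₀ : Ω} (hb0 : b₀ ∈ W)
    {y : ℕ → Ω} {T : ℕ} (hT : T ≠ 0) (hy : Col p v W ν s y)
    (hlp : LP p v (cadj v W w) ν (b₀ + col p y w T))
    (htop : ¬ PG p v W (ν - p ^ T * s) (y T)) {m P : ℝ} (hm : v.Ge m w) (hms : m ≤ s - 1)
    (hP : ν < P) (hPj : ∀ j ∈ range (T + 1), ν < P + p ^ j * m)
    (hb : v.Ge P (Φ b₀ - b₀)) (hyj : ∀ j ∈ range (T + 1), v.Ge P (Φ (y j) - y j)) :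
    ∃ δ : ℝ, 0 < δ ∧ ∀ c ∈ W, v.Ge (s - δ) (w - c) → v.Ge s (Φ c - c) := by
  have hp1 : (1 : ℝ) < p := by exact_mod_cast hp.out.one_lt
  have hpT : ∀ j ∈ range (T + 1), (p : ℝ) ^ j ≤ (p : ℝ) ^ T := fun j hj =>
    pow_le_pow_right₀ hp1.le (by rw [mem_range] at hj; omega)
  have hpT0 : (0 : ℝ) < (p : ℝ) ^ T := by positivity
  refine ⟨min 1 (η / (4 * p ^ T)), lt_min one_pos (by positivity), fun c hc hwc => ?_⟩
  have hwc1 : v.Ge (s - 1) (w - c) := hwc.mono (by linarith [min_le_left 1 (η / (4 * (p : ℝ) ^ T))])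
  have hwc2 : v.Ge (s - η / (4 * p ^ T)) (w - c) :=
    hwc.mono (by linarith [min_le_right 1 (η / (4 * (p : ℝ) ^ T))])
  have hcm : v.Ge m c := by
    have e : c = w - (w - c) := by ring
    rw [e]
    exact hm.sub (hwc1.mono hms)
  set C := cadj v W w with hC
  -- the value at `c` is a `p`-th power up to `ν - η / 2`
  have h1 : PC p v W (ν - η / 2) (b₀ + col p y c T) := by
    have hcol : col p y c T ∈ W := sum_mem fun j _ => mul_mem (hy.mem j) (pow_mem hc _)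
    refine PC.down hw (add_mem hb0 hcol) ?_
    have e : b₀ + col p y c T = (b₀ + col p y w T) - ∑ j ∈ range (T + 1), y j * (w - c) ^ p ^ j := by
      rw [col, col, add_sub_assoc, ← sum_sub_distrib]
      congr 1
      refine sum_congr rfl fun j _ => ?_
      have := sub_pow_char_pow (R := Ω) (p := p) (n := j) w c
      rw [this]
      ring
    rw [e]
    refine (hlp.pc (by linarith)).sub (PC.sum _ _ fun j hj => ?_)
    have h2 : v.Ge (p ^ j * s - η / 4) ((w - c) ^ p ^ j) := by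
      have h3 := ge_pow hwc2 (p ^ j)
      refine h3.mono ?_
      push_cast
      have h4 : (p : ℝ) ^ j * (η / (4 * p ^ T)) ≤ η / 4 := by
        rw [← mul_div_assoc, div_le_iff₀ (by positivity)]
        have := hpT j hj
        nlinarith
      linarith
    rcases Nat.eq_zero_or_pos j with rfl | hj0
    · refine PC.of_ge ((hy.lin.mul h2).mono ?_)
      rw [pow_zero]
      linarith
    · obtain ⟨i, rfl⟩ : ∃ i, j = i + 1 := ⟨j - 1, by omega⟩
      have h3 : (w - c) ^ p ^ (i + 1) = ((w - c) ^ p ^ i) ^ p := by rw [← pow_mul, ← pow_succ]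
      have h4 : PC p v C (ν - p ^ (i + 1) * s - η / 4) (y (i + 1)) :=
        PC.up ((hy.lev (i + 1) (by omega)).pc (by linarith))
      rw [h3] at h2 ⊢
      exact (h4.mul_pow (pow_mem (sub_mem (self_mem_cadj v W w) (le_cadj v W w hc)) _) h2).mono
        (by linarith)
  obtain ⟨h, hhW, h2⟩ := h1
  -- zero effect of the strict motion
  have hcW : b₀ + col p y c T ∈ W := add_mem hb0 (sum_mem fun j _ => mul_mem (hy.mem j) (pow_mem hc _))
  have h3 : PC p v W (ν + η / 2) (Φ (b₀ + col p y c T) - (b₀ + col p y c T)) := by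
    refine ⟨Φ h - h, sub_mem (hΦW h hhW) hhW, ?_⟩
    have h4 := hs _ (sub_mem hcW (pow_mem hhW p)) _ h2
    have e : Φ (b₀ + col p y c T) - (b₀ + col p y c T) - (Φ h - h) ^ p =
        Φ (b₀ + col p y c T - h ^ p) - (b₀ + col p y c T - h ^ p) := by
      have := sub_pow_char (R := Ω) (p := p) (Φ h) h
      rw [this, map_sub Φ (b₀ + col p y c T), map_pow]
      ring
    rw [e]
    exact h4.mono (by linarith)
  -- the additive polynomial
  have hΦc : v.Ge m (Φ c) := hΦ.ge_iff.2 hcm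
  have h5 : PG p v W ν (∑ j ∈ range (T + 1), y j * (Φ c - c) ^ p ^ j) := by
    rw [map_sub_col (p := p) (b₀ := b₀) (y := y) (T := T) c] at h3
    have h6 : Gt v ν ((Φ b₀ - b₀) + ∑ j ∈ range (T + 1), (Φ (y j) - y j) * (Φ c) ^ p ^ j) := by
      refine (Gt.of_ge hb hP).add (Gt.sum _ _ fun j hj => ?_)
      have h7 := (hyj j hj).mul (ge_pow hΦc (p ^ j))
      refine Gt.of_ge h7 ?_
      push_cast
      exact hPj j hj
    have h8 := (h3.pg (c' := ν) (by linarith)).sub (PG.of_gt (p := p) (F := W) h6)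
    rwa [add_sub_cancel_left] at h8
  -- the top
  intro h0
  by_contra hlt
  push Not at hlt
  exact htop (top_null hT hy (sub_mem (hΦW c hc) hc) h0 hlt h5)

/-- **No tie, the top.** -/
theorem ConM.no_tie_top [IsAlgClosed Ω] (hk : Ctx0 k v) (hsp : SphC v)
    (hval : ∀ ρ : ℝ, ∃ x : Ω, x ≠ 0 ∧ v x = ρ) (hL : Monotone L) (hLW : ∀ J, L J ≤ W)
    (hd : W ≤ clI v (⨆ J, L J)) (hcon : ConM v L W) {w : Ω} {s : ℝ} (hw : TL v W w s) {J₀ : ℕ}
    (hgen : W ≤ cadj v (L J₀) w) {ν : ℝ} {b₀ : Ω} (hb0 : b₀ ∈ W)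
    {y : ℕ → Ω} {T : ℕ} (hT : T ≠ 0) (hy : Col p v W ν s y)
    (hlp : LP p v (cadj v W w) ν (b₀ + col p y w T)) : PG p v W (ν - p ^ T * s) (y T) := by
  classical
  by_contra htop
  have hp1 : (1 : ℝ) < p := by exact_mod_cast hp.out.one_lt
  obtain ⟨m, hm, hms⟩ : ∃ m : ℝ, v.Ge m w ∧ m ≤ s - 1 :=
    ⟨min (v w) (s - 1), (RVal.ge_self w).mono (min_le_left _ _), min_le_right _ _⟩
  -- the precision
  set P : ℝ := ν + 1 + p ^ T * |m| with hPdef
  have hP : ν < P := by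
    have : 0 ≤ (p : ℝ) ^ T * |m| := by positivity
    linarith
  have hPj : ∀ j ∈ range (T + 1), ν < P + p ^ j * m := fun j hj => by
    have h1 : (p : ℝ) ^ j ≤ (p : ℝ) ^ T := pow_le_pow_right₀ hp1.le (by rw [mem_range] at hj; omega)
    have h2 : -|m| ≤ m := neg_abs_le m
    have h3 : (0 : ℝ) < (p : ℝ) ^ j := by positivity
    have h4 : -(p ^ T * |m|) ≤ (p : ℝ) ^ j * m := by
      calc -(p ^ T * |m|) ≤ -(p ^ j * |m|) := by
            have := mul_le_mul_of_nonneg_right h1 (abs_nonneg m)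
            linarith
        _ = p ^ j * (-|m|) := by ring
        _ ≤ p ^ j * m := mul_le_mul_of_nonneg_left h2 h3.le
    linarith
  obtain ⟨J₁, hJ₁⟩ := exists_level hL hd (insert b₀ ((range (T + 1)).image y)) (fun x hx => by
    rcases mem_insert.1 hx with rfl | hx
    · exact hb0
    · obtain ⟨j, -, rfl⟩ := mem_image.1 hx
      exact hy.mem j) P
  obtain ⟨Φ, η, hη, h1, h2, h3, h4, x, hxW, hx⟩ := hcon (max J₀ J₁)
  have h5 := hJ₁ _ (le_max_right J₀ J₁) Φ h1 h2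
  obtain ⟨δ, hδ, h6⟩ := move_ge hw h1 h3 hη h4 hb0 hT hy hlp htop hm hms hP hPj
    (h5 b₀ (mem_insert_self _ _)) fun j hj => h5 _ (mem_insert_of_mem (mem_image_of_mem y hj))
  obtain ⟨Φ', h7, h8, h9⟩ := h1.exists_move_tl hk hsp hval hw (ζ := w) fun ε hε => by
    obtain ⟨c, hc, hwc⟩ := hw.lim (min ε δ) (lt_min hε hδ)
    refine ⟨c, hc, hwc.mono (by linarith [min_le_left ε δ]), ?_⟩
    have e : w - Φ c = (w - c) - (Φ c - c) := by ring
    rw [e]
    exact (hwc.mono (by linarith [min_le_left ε δ])).sub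
      ((h6 c hc (hwc.mono (by linarith [min_le_right ε δ]))).mono (by linarith))
  -- `Φ'` is the identity on `cadj v (L J₀) w`
  have h10 : cadj v (L J₀) w ≤ fixF Φ' := by
    refine clI_le_fixF h7 (D2P.adj_le (fun a ha => ?_) ?_)
    · rw [mem_fixF, h8 a (hLW J₀ ha)]
      exact h2 a (hL (le_max_left _ _) ha)
    · exact h9
  apply hx
  rw [← h8 x hxW]
  exact h10 (hgen hxW)

/-- **No tie**: no coefficient of the additive form is hit. -/
theorem ConM.no_tie [IsAlgClosed Ω] (hk : Ctx0 k v) (hsp : SphC v)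
    (hval : ∀ ρ : ℝ, ∃ x : Ω, x ≠ 0 ∧ v x = ρ) (hL : Monotone L) (hLW : ∀ J, L J ≤ W)
    (hd : W ≤ clI v (⨆ J, L J)) (hcon : ConM v L W) {w : Ω} {s : ℝ} (hw : TL v W w s) {J₀ : ℕ}
    (hgen : W ≤ cadj v (L J₀) w) {ν : ℝ} {y : ℕ → Ω} (hy : Col p v W ν s y) (T : ℕ) :
    ∀ b₀ ∈ W, LP p v (cadj v W w) ν (b₀ + col p y w T) → ∀ j : ℕ, j ≠ 0 → j ≤ T →
      PG p v W (ν - p ^ j * s) (y j) := by
  induction T with
  | zero => intro b₀ _ _ j hj hj'; omega
  | succ T ih =>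
    intro b₀ hb0 hlp j hj hjT
    have htop := hcon.no_tie_top hk hsp hval hL hLW hd hw hgen hb0 (Nat.succ_ne_zero T) hy hlp
    rcases Nat.lt_or_ge T j with h1 | h1
    · obtain rfl : j = T + 1 := by omega
      exact htop
    · obtain ⟨δ, hδ, h2⟩ := TWN1.null_term (K := cadj v W w) (z := w) (hy.mem (T + 1))
        (Nat.succ_ne_zero T) htop (le_cadj v W w) (self_mem_cadj v W w)
      obtain ⟨c, hc, hwc⟩ := hw.lim δ hδ
      have h3 := h2 c hc hwc
      refine ih (b₀ + y (T + 1) * c ^ p ^ (T + 1)) (add_mem hb0 (mul_mem (hy.mem _)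
        (pow_mem hc _))) ?_ j hj h1
      have e : b₀ + y (T + 1) * c ^ p ^ (T + 1) + col p y w T =
          (b₀ + col p y w (T + 1)) - y (T + 1) * (w - c) ^ p ^ (T + 1) := by
        have h4 := sub_pow_char_pow (R := Ω) (p := p) (n := T + 1) w c
        rw [h4, col, col, sum_range_succ _ (T + 1)]
        ring
      rw [e]
      exact hlp.sub (LP.of_pg h3)

end NoTie

end Pool.Agent.TWCT
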