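import Pool.Agent.Lib.TWCT.Orth
import Mathlib.Algebra.MvPolynomial.Eval

/-!
# TANK W, contact (III.1), J1.2: the relation (E1)

`F` a field, `n j` (`j ∈ J`) noises: limits of `F` of radius `0`, independent over `k` modulo
`F + O(0)`.  For coefficients `z g = ∑ j, c g j * n j + f g` (`g ∈ S`), a point `x` of `F` and
`Zatt ∈ F` put `Z = Zatt - ∑ g, z g * x ^ g` and `N j = ∑ g, c g j * X ^ g`.  Then
`|N x| < |Z - f x|` for all `N` in the span of the `N j` and all polynomials `f` over `F`.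
-/

set_option autoImplicit false

open Finset MvPolynomial

namespace Pool.Agent.TWCT

open Pool.Agent.H15JM (RVal)
open Pool.Agent.LU1 (VPos adj)
open Pool.Agent.D2 (Ctx0)
open Pool.Agent.TWM

universe u

section NE1

variable {k Ω : Type u} [Field k] [Field Ω] [Algebra k Ω] {v : RVal Ω}
  {F : IntermediateField k Ω}

/-- The noise polynomials. -/
noncomputable def noiseN {σ ι : Type*} (S : Finset (σ →₀ ℕ)) (c : (σ →₀ ℕ) → ι → k) (j : ι) :
    MvPolynomial σ k := ∑ g ∈ S, monomial g (c g j)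

theorem aeval_noiseN {σ ι : Type*} (S : Finset (σ →₀ ℕ)) (c : (σ →₀ ℕ) → ι → k) (j : ι)
    (x : σ → Ω) : aeval x (noiseN S c j) =
      ∑ g ∈ S, algebraMap k Ω (c g j) * g.prod fun i e => x i ^ e := by
  unfold noiseN
  rw [map_sum]
  exact sum_congr rfl fun g _ => aeval_monomial x g (c g j)

theorem prod_pow_mem {σ : Type*} {x : σ → Ω} (hx : ∀ i, x i ∈ F) (g : σ →₀ ℕ) :
    (g.prod fun i e => x i ^ e) ∈ F :=
  prod_mem fun i _ => pow_mem (hx i) _

theorem aeval_mem {σ : Type*} {x : σ → Ω} (hx : ∀ i, x i ∈ F) (f : MvPolynomial σ k) :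
    aeval x f ∈ F := by
  induction f using MvPolynomial.induction_on with
  | C a => rw [← algebraMap_eq, AlgHom.commutes]; exact F.algebraMap_mem a
  | add f g hf hg => rw [map_add]; exact add_mem hf hg
  | mul_X f i hf => rw [map_mul, aeval_X]; exact mul_mem hf (hx i)

/-- **(E1), general form**: a combination of noises with coefficients in `F` which is `r`-near
to `F` has all coefficients of value `> r`. -/
theorem noise_gt (hk : Ctx0 k v) {ι : Type*} (J : Finset ι) {n : ι → Ω} {s : ℝ}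
    (hn : ∀ j ∈ J, Lim v F s (n j))
    (hind : ∀ c : ι → k, (∃ j ∈ J, c j ≠ 0) →
      ¬ TWM.Nr v F s (∑ j ∈ J, algebraMap k Ω (c j) * n j))
    {g : ι → Ω} (hg : ∀ j ∈ J, g j ∈ F) {r : ℝ}
    (h : TWM.Nr v F (r + s) (∑ j ∈ J, g j * n j)) : ∀ j ∈ J, Gt v r (g j) := by
  classical
  intro j hj h0
  by_contra hcon
  push Not at hcon
  -- the smallest non zero coefficient
  obtain ⟨b₀, hb₀, hmin⟩ := (J.filter fun b => g b ≠ 0).exists_min_image (fun b => v (g b))
    ⟨j, mem_filter.2 ⟨hj, h0⟩⟩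
  obtain ⟨hb, hb0⟩ := mem_filter.1 hb₀
  have hr : v (g b₀) ≤ r := (hmin j (mem_filter.2 ⟨hj, h0⟩)).trans hcon
  refine noise_orth hk J hn hind hg hb hb0 (fun b hbJ => ?_) ?_
  · by_cases hz : g b = 0
    · rw [hz]; exact RVal.Ge.zero
    · exact RVal.Ge.of_le (hmin b (mem_filter.2 ⟨hbJ, hz⟩))
  · obtain ⟨a, ha, h1⟩ := h
    exact ⟨a, ha, h1.mono (by linarith)⟩

/-- **(E1)**: `|N x| < |Z - f|` for every `f ∈ F`. -/
theorem noise_e1 (hk : Ctx0 k v) {σ ι : Type*} (J : Finset ι) {n : ι → Ω}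
    (hn : ∀ j ∈ J, Lim v F 0 (n j))
    (hind : ∀ c : ι → k, (∃ j ∈ J, c j ≠ 0) →
      ¬ TWM.Nr v F 0 (∑ j ∈ J, algebraMap k Ω (c j) * n j))
    (S : Finset (σ →₀ ℕ)) {c : (σ →₀ ℕ) → ι → k} {z f : (σ →₀ ℕ) → Ω}
    (hf : ∀ g ∈ S, f g ∈ F)
    (hz : ∀ g ∈ S, z g = ∑ j ∈ J, algebraMap k Ω (c g j) * n j + f g)
    {x : σ → Ω} (hx : ∀ i, x i ∈ F) {Z a : Ω}
    (hZ : Z + ∑ g ∈ S, z g * (g.prod fun i e => x i ^ e) ∈ F) (ha : a ∈ F) {r : ℝ}
    (hr : v.Ge r (Z - a)) : ∀ j ∈ J, Gt v r (aeval x (noiseN S c j)) := by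
  refine noise_gt hk (s := 0) J hn hind (fun j _ => aeval_mem hx _) ?_
  have e : ∑ g ∈ S, z g * (g.prod fun i e => x i ^ e) =
      ∑ j ∈ J, aeval x (noiseN S c j) * n j +
        ∑ g ∈ S, f g * (g.prod fun i e => x i ^ e) := by
    simp_rw [aeval_noiseN, sum_mul]
    rw [sum_comm, ← sum_add_distrib]
    refine sum_congr rfl fun g hg => ?_
    rw [hz g hg, add_mul, sum_mul]
    congr 1
    refine sum_congr rfl fun j _ => ?_
    ring
  have hF : ∑ g ∈ S, f g * (g.prod fun i e => x i ^ e) ∈ F :=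
    sum_mem fun g hg => mul_mem (hf g hg) (prod_pow_mem hx g)
  refine ⟨(Z + ∑ g ∈ S, z g * (g.prod fun i e => x i ^ e)) - a -
    ∑ g ∈ S, f g * (g.prod fun i e => x i ^ e), sub_mem (sub_mem hZ ha) hF, ?_⟩
  have e2 : ∑ j ∈ J, aeval x (noiseN S c j) * n j -
      ((Z + ∑ g ∈ S, z g * (g.prod fun i e => x i ^ e)) - a -
        ∑ g ∈ S, f g * (g.prod fun i e => x i ^ e)) = -(Z - a) := by
    rw [e]; ring
  rw [e2, add_zero]
  exact hr.neg

/-- The same for the span. -/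
theorem gt_of_mem_span {σ ι : Type*} {J : Finset ι} {S : Finset (σ →₀ ℕ)}
    {c : (σ →₀ ℕ) → ι → k} (hk : Ctx0 k v) {x : σ → Ω} {r : ℝ}
    (h : ∀ j ∈ J, Gt v r (aeval x (noiseN S c j))) {N : MvPolynomial σ k}
    (hN : N ∈ Submodule.span k (noiseN S c '' (J : Set ι))) : Gt v r (aeval x N) := by
  induction hN using Submodule.span_induction with
  | mem y hy =>
    obtain ⟨j, hj, rfl⟩ := hy
    exact h j hj
  | zero => rw [map_zero]; exact Gt.zero
  | add y y' _ _ hy hy' => rw [map_add]; exact hy.add hy'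
  | smul a y _ hy =>
    rw [map_smul, Algebra.smul_def]
    by_cases h0 : algebraMap k Ω a * aeval x y = 0
    · rw [h0]; exact Gt.zero
    · intro _
      have ha : algebraMap k Ω a ≠ 0 := left_ne_zero_of_mul h0
      have hy0 : aeval x y ≠ 0 := right_ne_zero_of_mul h0
      rw [v.map_mul ha hy0, hk.triv a (by
        rintro rfl
        exact ha (map_zero _)), zero_add]
      exact hy hy0

end NE1

end Pool.Agent.TWCT
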