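import Pool.Agent.Lib.TWCT.Str
import Pool.Agent.Lib.TWII.Soc

/-!
# TANK W, contact (III.1): the null effect of a strict motion, linear translations

* `StrM.null`: a strict motion changes a critical element by a `p`-th power and a small element;
* `lp_map`, `pg_map`: isometric embeddings preserve critical and null elements;
* `exists_trans`: the translation `z ↦ z + c` of `A⟨z⟩`, linear over `A`.
-/

set_option autoImplicit false

open Polynomial

namespace Pool.Agent.TWCT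

open Pool.Agent.H15JM (RVal)
open Pool.Agent.LU1 (VPos adj)
open Pool.Agent.LUC (Cl)
open Pool.Agent.D2 (Ctx0)
open Pool.Agent.D2P (hen clI mem_clI)
open Pool.Agent.TWM
open Pool.Agent.TWS
open Pool.Agent.TWII (LP PG)

universe u

variable {k Ω : Type u} [Field k] [Field Ω] [Algebra k Ω] {v : RVal Ω} {Φ Ψ : Ω →ₐ[k] Ω}
  {A B : IntermediateField k Ω} {z c : Ω} {d s : ℝ}

section Null

variable {p : ℕ} [hp : Fact p.Prime] [CharP Ω p] {ν : ℝ} {b : Ω}

theorem pow_eff (g : Ω) : (Φ b - b) - (Φ g - g) ^ p = Φ (b - g ^ p) - (b - g ^ p) := by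
  rw [sub_pow_char, map_sub, map_pow]
  ring

/-- **The null effect.** A strict motion changes a critical element by a `p`-th power and an
element which is small by the margin. -/
theorem StrM.null (hK : StrM v Φ A d) (hd : 0 < d) (hb : b ∈ A) (hl : LP p v A ν b) :
    ∃ g ∈ A, v.Ge (ν + d / 2) ((Φ b - b) - (Φ g - g) ^ p) := by
  obtain ⟨g, hg, h1⟩ := hl (d / 2) (by positivity)
  refine ⟨g, hg, ?_⟩
  rw [pow_eff]
  exact (hK _ (sub_mem hb (pow_mem hg p)) _ h1).mono (by linarith)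

/-- The null effect, for a motion of `A` into `B`. -/
theorem StrM.null_pg (hK : StrM v Φ A d) (hd : 0 < d) (hAB : A ≤ B) (hr : ∀ a ∈ A, Φ a ∈ B)
    (hb : b ∈ A) (hl : LP p v A ν b) : PG p v B ν (Φ b - b) := by
  obtain ⟨g, hg, h1⟩ := hK.null hd hb hl
  exact ⟨Φ g - g, sub_mem (hr g hg) (hAB hg), fun h0 => by
    have := h1 h0
    linarith⟩

omit hp [CharP Ω p] in
/-- An isometric embedding of `A` into `B` preserves the critical elements. -/
theorem lp_map (hΦ : IsoE v v Φ) (hr : ∀ a ∈ A, Φ a ∈ B) (hl : LP p v A ν b) :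
    LP p v B ν (Φ b) := by
  intro ε hε
  obtain ⟨g, hg, h1⟩ := hl ε hε
  refine ⟨Φ g, hr g hg, ?_⟩
  rw [← map_pow, ← map_sub]
  exact hΦ.ge_iff.2 h1

omit hp [CharP Ω p] in
theorem pg_map (hΦ : IsoE v v Φ) (hr : ∀ a ∈ A, Φ a ∈ B) (hl : PG p v A ν b) :
    PG p v B ν (Φ b) := by
  obtain ⟨g, hg, h1⟩ := hl
  refine ⟨Φ g, hr g hg, fun h0 => ?_⟩
  have h2 : Φ b - Φ g ^ p = Φ (b - g ^ p) := by rw [map_sub, map_pow]
  rw [h2] at h0 ⊢
  have h3 : b - g ^ p ≠ 0 := fun h => h0 (by rw [h, map_zero])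
  rw [hΦ.val _ h3]
  exact h1 h3

end Null

/-! ### Translations -/

/-- The identity as an isometric embedding. -/
theorem isoE_id : IsoE v v (AlgHom.id k Ω) := ⟨fun a _ => by rw [AlgHom.id_apply]⟩

/-- **The linear translation.** -/
theorem exists_trans [IsAlgClosed Ω] (hk : Ctx0 k v) (hw : SphC v)
    (hval : ∀ ρ : ℝ, ∃ x : Ω, x ≠ 0 ∧ v x = ρ) (hz : TL v A z s) (hc : v.Ge s c) :
    ∃ T : Ω →ₐ[k] Ω, IsoE v v T ∧ (∀ b ∈ A, T b = b) ∧ T z = z + c ∧
      (c ∈ cadj v A z → ∀ b ∈ cadj v A z, T b ∈ cadj v A z) := by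
  obtain ⟨T, h1, h2, h3⟩ := (isoE_id (k := k) (v := v)).exists_move_tl hk hw hval hz
    (ζ := z + c) fun ε hε => by
      obtain ⟨b, hb, h4⟩ := hz.lim ε hε
      refine ⟨b, hb, h4, ?_⟩
      rw [AlgHom.id_apply, show z + c - b = (z - b) + c by ring]
      exact h4.add (hc.mono (by linarith))
  refine ⟨T, h1, h2, h3, fun hcm => ?_⟩
  refine map_cadj_le h1 (cld_clI v _) (fun a ha => ?_) ?_
  · rw [h2 a ha]
    exact le_clI _ ((D2P.mem_adj_self A z).2 ha)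
  · rw [h3]
    exact add_mem (le_clI _ (D2P.mem_adj_self A z).1) hcm

/-- A motion, changed at `z` by a critical element. -/
theorem IsoE.exists_trans [IsAlgClosed Ω] (hk : Ctx0 k v) (hw : SphC v)
    (hval : ∀ ρ : ℝ, ∃ x : Ω, x ≠ 0 ∧ v x = ρ) (hΦ : IsoE v v Φ) (hz : TL v A z s) {ζ : Ω}
    (hζ : v.Ge s (ζ - Φ z)) :
    ∃ T : Ω →ₐ[k] Ω, IsoE v v T ∧ (∀ b ∈ A, T b = Φ b) ∧ T z = ζ ∧
      ((∀ a ∈ A, Φ a ∈ cadj v A z) → ζ ∈ cadj v A z → ∀ b ∈ cadj v A z, T b ∈ cadj v A z) := by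
  obtain ⟨T, h1, h2, h3⟩ := hΦ.exists_move_tl hk hw hval hz (ζ := ζ) fun ε hε => by
    obtain ⟨b, hb, h4⟩ := hz.lim ε hε
    refine ⟨b, hb, h4, ?_⟩
    rw [show ζ - Φ b = Φ (z - b) + (ζ - Φ z) by rw [map_sub]; ring]
    exact (hΦ.ge_iff.2 h4).add (hζ.mono (by linarith))
  refine ⟨T, h1, h2, h3, fun hr hζm => ?_⟩
  refine map_cadj_le h1 (cld_clI v _) (fun a ha => ?_) ?_
  · rw [h2 a ha]
    exact hr a ha
  · rw [h3]
    exact hζm

end Pool.Agent.TWCT
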