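import Pool.Agent.Lib.TWCT.NoTie
import Mathlib.LinearAlgebra.Lagrange

/-!
# TANK W, contact (III.1): orthonormality of noise and of classes, interpolation

* `noise_orth`: elements of `Lim v E s` which are independent over `k` modulo `E + O(s)` are
  orthonormal over `E`;
* `class_orth`: elements which are limits of `p`-th powers up to `ν` and independent over `k` modulo
  `E ^ p + O(> ν)` are orthonormal over `E ^ p`;
* `interp_nr`, `interp_gb`: a polynomial of degree `< card S` whose values at separated points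
  `ω i`, `i ∈ S`, are in `C + O(c)`, resp. in `O(c)`;
* `lim_of_fixed`: `y` is moved by infinitely many motions of `F` which tend to the identity, `u` in
  the limit of `cadj v F y` is not: then `u` is a limit of `F`.
-/

set_option autoImplicit false

open Polynomial Finset

namespace Pool.Agent.TWCT

open Pool.Agent.H15JM (RVal)
open Pool.Agent.LU1 (VPos adj)
open Pool.Agent.D2 (Ctx0)
open Pool.Agent.D2P (hen clI mem_clI)
open Pool.Agent.TWM
open Pool.Agent.TWS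
open Pool.Agent.TWII (PG LP)

universe u

variable {k Ω : Type u} [Field k] [Field Ω] [Algebra k Ω] {v : RVal Ω}
  {C E F : IntermediateField k Ω}

/-! ### Orthonormality -/

theorem nrO_add {c : ℝ} {x y : Ω} (hx : TWM.Nr v E c x) (hy : TWM.Nr v E c y) :
    TWM.Nr v E c (x + y) := by
  obtain ⟨a, ha, h1⟩ := hx
  obtain ⟨b, hb, h2⟩ := hy
  refine ⟨a + b, add_mem ha hb, ?_⟩
  rw [add_sub_add_comm]
  exact h1.add h2

theorem nrO_neg {c : ℝ} {x : Ω} (hx : TWM.Nr v E c x) : TWM.Nr v E c (-x) := by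
  obtain ⟨a, ha, h1⟩ := hx
  refine ⟨-a, neg_mem ha, ?_⟩
  have e : -x - -a = -(x - a) := by ring
  rw [e]
  exact h1.neg

theorem nrO_sub {c : ℝ} {x y : Ω} (hx : TWM.Nr v E c x) (hy : TWM.Nr v E c y) :
    TWM.Nr v E c (x - y) := by
  rw [sub_eq_add_neg]
  exact nrO_add hx (nrO_neg hy)

theorem nrO_sum {ι : Type*} {c : ℝ} (S : Finset ι) {f : ι → Ω}
    (h : ∀ b ∈ S, TWM.Nr v E c (f b)) : TWM.Nr v E c (∑ b ∈ S, f b) := by
  classical
  induction S using Finset.induction_on with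
  | empty => exact ⟨0, E.zero_mem, by rw [sum_empty, sub_zero]; exact RVal.Ge.zero⟩
  | insert b S hb ih =>
    rw [sum_insert hb]
    exact nrO_add (h b (mem_insert_self b S)) (ih fun c hc => h c (mem_insert_of_mem hc))

/-- A product of an element of value `> 0` and an element of `Lim v E s`. -/
theorem nrO_of_gt {s : ℝ} {h ψ : Ω} (hh : Gt v 0 h) (hE : h ∈ E) (hψ : Lim v E s ψ) :
    TWM.Nr v E s (h * ψ) := by
  by_cases h0 : h = 0
  · exact ⟨0, E.zero_mem, by rw [h0, zero_mul, sub_zero]; exact RVal.Ge.zero⟩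
  · obtain ⟨f, hf, h1⟩ := hψ (v h) (hh h0)
    refine ⟨h * f, mul_mem hE hf, ?_⟩
    rw [← mul_sub]
    exact ((RVal.ge_self (v := v) h).mul h1).mono (by linarith)

theorem const_ne_zero {g : Ω} (hg : g ≠ 0) {c : k}
    (hc : VPos v (g / g - algebraMap k Ω c)) : c ≠ 0 := by
  rintro rfl
  rw [map_zero, sub_zero, div_self hg] at hc
  have h1 := hc one_ne_zero
  rw [show v (1 : Ω) = 0 from v.map_one] at h1
  exact lt_irrefl _ h1

theorem ge_div {r c : ℝ} {x y : Ω} (hx : v.Ge (r + c) x) (hy : y ≠ 0) (hv : v y = r) :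
    v.Ge c (x / y) := by
  have h1 : v.Ge (-r) y⁻¹ := RVal.Ge.of_le (by rw [v.map_inv hy, hv])
  rw [div_eq_mul_inv]
  exact (hx.mul h1).mono (by linarith)

/-- **Noise is orthonormal.** -/
theorem noise_orth (hk : Ctx0 k v) {ι : Type*} (S : Finset ι) {ψ : ι → Ω} {s : ℝ}
    (hψ : ∀ b ∈ S, Lim v E s (ψ b))
    (hind : ∀ c : ι → k, (∃ b ∈ S, c b ≠ 0) →
      ¬ TWM.Nr v E s (∑ b ∈ S, algebraMap k Ω (c b) * ψ b))
    {g : ι → Ω} (hg : ∀ b ∈ S, g b ∈ E) {b₀ : ι} (hb₀ : b₀ ∈ S) (h0 : g b₀ ≠ 0)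
    (hmin : ∀ b ∈ S, v.Ge (v (g b₀)) (g b)) :
    ¬ TWM.Nr v E (v (g b₀) + s) (∑ b ∈ S, g b * ψ b) := by
  rintro ⟨a, ha, h1⟩
  have hres : ∀ b, ∃ c : k, b ∈ S → VPos v (g b / g b₀ - algebraMap k Ω c) := by
    intro b
    by_cases hb : b ∈ S
    · obtain ⟨c, hc⟩ := hk.residue (ge_div (c := 0) ((hmin b hb).mono (by linarith)) h0 rfl)
      exact ⟨c, fun _ => hc⟩
    · exact ⟨0, fun h => absurd h hb⟩
  choose c hc using hres
  refine hind c ⟨b₀, hb₀, const_ne_zero h0 (hc b₀ hb₀)⟩ ?_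
  have e : ∑ b ∈ S, algebraMap k Ω (c b) * ψ b =
      (∑ b ∈ S, g b * ψ b) / g b₀ - ∑ b ∈ S, (g b / g b₀ - algebraMap k Ω (c b)) * ψ b := by
    rw [sum_div, ← sum_sub_distrib]
    refine sum_congr rfl fun b _ => ?_
    ring
  rw [e]
  refine nrO_sub ⟨a / g b₀, div_mem ha (hg b₀ hb₀), ?_⟩ (nrO_sum S fun b hb => ?_)
  · rw [← sub_div]
    exact ge_div h1 h0 rfl
  · exact nrO_of_gt (hc b hb) (sub_mem (div_mem (hg b hb) (hg b₀ hb₀)) (E.algebraMap_mem _))
      (hψ b hb)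

section Class

variable (p : ℕ) [hp : Fact p.Prime] [CharP Ω p]

omit [CharP Ω p] in
/-- A product of the `p`-th power of an element of value `> 0` and a limit of `p`-th powers. -/
theorem pgO_of_gt {ν : ℝ} {h x : Ω} (hh : Gt v 0 h) (hE : h ∈ E) (hx : LP p v E ν x) :
    PG p v E ν (h ^ p * x) := by
  by_cases h0 : h = 0
  · refine ⟨0, E.zero_mem, ?_⟩
    rw [h0, zero_pow hp.out.ne_zero, zero_mul, sub_zero]
    exact Gt.zero
  · obtain ⟨w, hw, h1⟩ := hx (v h) (hh h0)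
    refine ⟨h * w, mul_mem hE hw, ?_⟩
    have e : h ^ p * x - (h * w) ^ p = h ^ p * (x - w ^ p) := by rw [mul_pow]; ring
    rw [e]
    refine Gt.of_ge ((ge_pow (RVal.ge_self (v := v) h) p).mul h1) ?_
    have h2 := hh h0
    have h3 : (2 : ℝ) ≤ p := by exact_mod_cast hp.out.two_le
    nlinarith

/-- **Classes are orthonormal over the `p`-th powers.** -/
theorem class_orth (hk : Ctx0 k v) {ι : Type*} (S : Finset ι) {x : ι → Ω} {ν : ℝ}
    (hx : ∀ b ∈ S, LP p v E ν (x b))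
    (hind : ∀ c : ι → k, (∃ b ∈ S, c b ≠ 0) →
      ¬ PG p v E ν (∑ b ∈ S, algebraMap k Ω (c b) ^ p * x b))
    {g : ι → Ω} (hg : ∀ b ∈ S, g b ∈ E) {b₀ : ι} (hb₀ : b₀ ∈ S) (h0 : g b₀ ≠ 0)
    (hmin : ∀ b ∈ S, v.Ge (v (g b₀)) (g b)) :
    ¬ PG p v E (p * v (g b₀) + ν) (∑ b ∈ S, g b ^ p * x b) := by
  rintro ⟨a, ha, h1⟩
  have hres : ∀ b, ∃ c : k, b ∈ S → VPos v (g b / g b₀ - algebraMap k Ω c) := by
    intro b
    by_cases hb : b ∈ S
    · obtain ⟨c, hc⟩ := hk.residue (ge_div (c := 0) ((hmin b hb).mono (by linarith)) h0 rfl)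
      exact ⟨c, fun _ => hc⟩
    · exact ⟨0, fun h => absurd h hb⟩
  choose c hc using hres
  refine hind c ⟨b₀, hb₀, const_ne_zero h0 (hc b₀ hb₀)⟩ ?_
  have e : ∑ b ∈ S, algebraMap k Ω (c b) ^ p * x b =
      (∑ b ∈ S, g b ^ p * x b) / g b₀ ^ p -
        ∑ b ∈ S, (g b / g b₀ - algebraMap k Ω (c b)) ^ p * x b := by
    rw [sum_div, ← sum_sub_distrib]
    refine sum_congr rfl fun b _ => ?_
    rw [sub_pow_char, div_pow]
    ring
  rw [e]
  refine PG.sub ⟨a / g b₀, div_mem ha (hg b₀ hb₀), ?_⟩ (PG.sum S _ fun b hb =>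
    pgO_of_gt p (hc b hb) (sub_mem (div_mem (hg b hb) (hg b₀ hb₀)) (E.algebraMap_mem _)) (hx b hb))
  rw [div_pow, ← sub_div]
  intro h2
  have h3 : (∑ b ∈ S, g b ^ p * x b) - a ^ p ≠ 0 := fun h4 => h2 (by rw [h4, zero_div])
  have h4 := h1 h3
  have h5 : g b₀ ^ p ≠ 0 := pow_ne_zero _ h0
  rw [div_eq_mul_inv, v.map_mul h3 (inv_ne_zero h5), v.map_inv h5, v.map_pow h0]
  linarith

end Class

/-! ### Interpolation -/

section Interp

variable {ι : Type*} [DecidableEq ι]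

theorem gb_basis {r g : ℝ} {S : Finset ι} {om : ι → Ω} {i : ι}
    (hsep : ∀ j ∈ S.erase i, om i - om j ≠ 0 ∧ v (om i - om j) ≤ r)
    (hom : ∀ j ∈ S.erase i, v.Ge (r - g) (om j)) :
    GB v (r - g) (-((S.erase i).card * g)) (Lagrange.basis S om i) := by
  classical
  unfold Lagrange.basis
  generalize S.erase i = T at hsep hom
  induction T using Finset.induction_on with
  | empty =>
    rw [prod_empty, card_empty, Nat.cast_zero, zero_mul, neg_zero]
    exact GB.one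
  | insert j T hj ih =>
    rw [prod_insert hj, card_insert_of_notMem hj]
    obtain ⟨h1, h2⟩ := hsep j (mem_insert_self j T)
    have h3 : GB v (r - g) (-g) (Lagrange.basisDivisor (om i) (om j)) := by
      unfold Lagrange.basisDivisor
      have h4 : v.Ge (-r) (om i - om j)⁻¹ := RVal.Ge.of_le (by rw [v.map_inv h1]; linarith)
      refine (GB.C_mul h4 (GB.X.sub (GB.C (hom j (mem_insert_self j T))))).mono (by linarith)
    refine (h3.mul (ih (fun l hl => hsep l (mem_insert_of_mem hl))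
      fun l hl => hom l (mem_insert_of_mem hl))).mono (by push_cast; linarith)

theorem basis_mem {S : Finset ι} {om : ι → Ω} (hom : ∀ i ∈ S, om i ∈ C) {i : ι} (hi : i ∈ S) :
    Lagrange.basis S om i ∈ PI C := by
  unfold Lagrange.basis
  refine Subring.prod_mem _ fun j hj => ?_
  unfold Lagrange.basisDivisor
  have h1 := hom i hi
  have h2 := hom j (mem_of_mem_erase hj)
  refine mul_mem (C_mem_PI (inv_mem (sub_mem h1 h2))) (sub_mem X_mem_PI (C_mem_PI h2))

theorem GB.sum' {b lam : ℝ} (S : Finset ι) {f : ι → Polynomial Ω}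
    (h : ∀ i ∈ S, GB v b lam (f i)) : GB v b lam (∑ i ∈ S, f i) := by
  induction S using Finset.induction_on with
  | empty => rw [sum_empty]; exact GB.zero
  | insert i S hi ih =>
    rw [sum_insert hi]
    exact (h i (mem_insert_self i S)).add (ih fun j hj => h j (mem_insert_of_mem hj))

theorem eq_sum_basis {S : Finset ι} {om : ι → Ω} (hinj : Set.InjOn om S) {Q : Polynomial Ω}
    (hd : Q.degree < S.card) : Q = ∑ i ∈ S, Polynomial.C (Q.eval (om i)) * Lagrange.basis S om i := by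
  have h1 := Lagrange.eq_interpolate hinj hd
  rw [Lagrange.interpolate_apply] at h1
  exact h1

/-- **Interpolation, sizes.** -/
theorem interp_gb {r g c : ℝ} {S : Finset ι} {om : ι → Ω}
    (hsep : ∀ i ∈ S, ∀ j ∈ S, i ≠ j → om i - om j ≠ 0 ∧ v (om i - om j) ≤ r)
    (hom : ∀ j ∈ S, v.Ge (r - g) (om j)) {Q : Polynomial Ω} (hd : Q.degree < S.card)
    (hQ : ∀ i ∈ S, v.Ge c (Q.eval (om i))) :
    GB v (r - g) (c - ((S.card - 1 : ℕ) : ℝ) * g) Q := by
  have hinj : Set.InjOn om S := fun i hi j hj hij => by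
    by_contra h
    exact (hsep i hi j hj h).1 (sub_eq_zero.2 hij)
  rw [eq_sum_basis hinj hd]
  refine GB.sum' S fun i hi => ?_
  have h1 := gb_basis (v := v) (om := om) (S := S) (i := i) (r := r) (g := g)
    (fun j hj => hsep i hi j (mem_of_mem_erase hj) (ne_of_mem_erase hj).symm)
    fun j hj => hom j (mem_of_mem_erase hj)
  rw [card_erase_of_mem hi] at h1
  exact (GB.C_mul (hQ i hi) h1).mono (by linarith)

/-- **Interpolation, membership.** -/
theorem interp_nr {r g c : ℝ} {S : Finset ι} {om : ι → Ω} (hC : ∀ i ∈ S, om i ∈ C)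
    (hsep : ∀ i ∈ S, ∀ j ∈ S, i ≠ j → om i - om j ≠ 0 ∧ v (om i - om j) ≤ r)
    (hom : ∀ j ∈ S, v.Ge (r - g) (om j)) {Q : Polynomial Ω} (hd : Q.degree < S.card)
    (hQ : ∀ i ∈ S, TWM.Nr v C c (Q.eval (om i))) :
    ∃ Q₁ ∈ PI C, Q₁.degree < S.card ∧ GB v (r - g) (c - ((S.card - 1 : ℕ) : ℝ) * g) (Q - Q₁) := by
  have hinj : Set.InjOn om S := fun i hi j hj hij => by
    by_contra h
    exact (hsep i hi j hj h).1 (sub_eq_zero.2 hij)
  have h1 : ∀ i, ∃ a : Ω, i ∈ S → a ∈ C ∧ v.Ge c (Q.eval (om i) - a) := by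
    intro i
    by_cases hi : i ∈ S
    · obtain ⟨a, ha, h⟩ := hQ i hi
      exact ⟨a, fun _ => ⟨ha, h⟩⟩
    · exact ⟨0, fun h => absurd h hi⟩
  choose a ha using h1
  refine ⟨Lagrange.interpolate S om a, ?_, Lagrange.degree_interpolate_lt _ hinj, ?_⟩
  · rw [Lagrange.interpolate_apply]
    exact sum_mem fun i hi => mul_mem (C_mem_PI (ha i hi).1) (basis_mem hC hi)
  · refine interp_gb hsep hom ((degree_sub_le _ _).trans_lt
      (max_lt hd (Lagrange.degree_interpolate_lt _ hinj))) fun i hi => ?_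
    rw [eval_sub, Lagrange.eval_interpolate_at_node _ hinj hi]
    exact (ha i hi).2

end Interp

/-! ### Elements which are not moved -/

section Fixed

variable {L : ℕ → IntermediateField k Ω}

/-- An element near to `F` is moved little. -/
theorem small_move (hL : Monotone L) (hd : F ≤ clI v (⨆ J, L J)) {r : ℝ} {y : Ω}
    (hy : Lim v F r y) {g : ℝ} (hg : 0 < g) : ∃ J₀, ∀ J, J₀ ≤ J → ∀ Φ : Ω →ₐ[k] Ω, IsoE v v Φ →
      (∀ a ∈ L J, Φ a = a) → v.Ge (r - g) (Φ y - y) := by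
  obtain ⟨θ, hθ, h1⟩ := hy g hg
  obtain ⟨J₀, h2⟩ := exists_level hL hd {θ} (by simpa using hθ) (r - g)
  refine ⟨J₀, fun J hJ Φ hΦ hfix => ?_⟩
  have h3 := h2 J hJ Φ hΦ hfix θ (mem_singleton_self θ)
  have e : Φ y - y = (Φ (y - θ) - (y - θ)) + (Φ θ - θ) := by rw [map_sub]; ring
  rw [e]
  exact ((hΦ.ge_iff.2 h1).sub h1).add h3

/-- A polynomial over `F` is almost fixed. -/
theorem poly_move (hL : Monotone L) (hd : F ≤ clI v (⨆ J, L J)) {f : Polynomial Ω}
    (hf : f ∈ PI F) (y : Ω) (P : ℝ) : ∃ J₀, ∀ J, J₀ ≤ J → ∀ Φ : Ω →ₐ[k] Ω, IsoE v v Φ →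
      (∀ a ∈ L J, Φ a = a) → v.Ge P (Φ (f.eval y) - f.eval (Φ y)) := by
  classical
  obtain ⟨J₀, h2⟩ := exists_level hL hd (f.coeffs) (fun x hx => by
    obtain ⟨n, -, rfl⟩ := Polynomial.mem_coeffs_iff.1 hx
    exact hf n) (P + f.natDegree * |v y|)
  refine ⟨J₀, fun J hJ Φ hΦ hfix => ?_⟩
  have e : Φ (f.eval y) - f.eval (Φ y) =
      ∑ i ∈ range (f.natDegree + 1), (Φ (f.coeff i) - f.coeff i) * Φ y ^ i := by
    rw [eval_eq_sum_range, eval_eq_sum_range, map_sum, ← sum_sub_distrib]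
    refine sum_congr rfl fun i _ => ?_
    rw [map_mul, map_pow]
    ring
  rw [e]
  refine RVal.Ge.sum _ _ fun i hi => ?_
  rw [mem_range] at hi
  have h3 : v.Ge (P + f.natDegree * |v y|) (Φ (f.coeff i) - f.coeff i) := by
    by_cases h4 : f.coeff i = 0
    · rw [h4, map_zero, sub_zero]
      exact RVal.Ge.zero
    · exact h2 J hJ Φ hΦ hfix _ (Polynomial.coeff_mem_coeffs h4)
  have h4 : v.Ge (v y) (Φ y) := hΦ.ge_iff.2 (RVal.ge_self (v := v) y)
  refine (h3.mul (ge_pow h4 i)).mono ?_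
  have h5 : (i : ℝ) ≤ f.natDegree := by exact_mod_cast Nat.lt_succ_iff.1 hi
  have h6 : -|v y| ≤ v y := neg_abs_le _
  have h7 : (0 : ℝ) ≤ i := Nat.cast_nonneg i
  nlinarith [abs_nonneg (v y)]

/-- **`y` is moved, `u` is not.** -/
theorem lim_of_fixed [IsAlgClosed Ω] (hL : Monotone L) (hd : F ≤ clI v (⨆ J, L J)) {y u : Ω}
    {r s : ℝ} (hy : TL v F y r) (hu : Lim v (cadj v F y) s u) {Φ : ℕ → Ω →ₐ[k] Ω}
    (hΦ : ∀ i, IsoE v v (Φ i)) (hfix : ∀ i, ∀ a ∈ L i, Φ i a = a)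
    (hsep : ∀ i j, i ≠ j → Φ i y - Φ j y ≠ 0 ∧ v (Φ i y - Φ j y) ≤ r)
    (hufix : ∀ i, v.Ge s (Φ i u - u)) : Lim v F s u := by
  intro ε hε
  obtain ⟨a, ha, h1⟩ := hu (ε / 2) (half_pos hε)
  obtain ⟨f, hf, h2⟩ := hy.dense ha s
  have h3 : v.Ge (s - ε / 2) (u - f.eval y) := by
    have e : u - f.eval y = (u - a) + (a - f.eval y) := by ring
    rw [e]
    exact h1.add (h2.mono (by linarith))
  set n := f.natDegree with hn
  set g : ℝ := ε / (2 * (n + 1)) with hg
  have hn0 : (0 : ℝ) ≤ n := Nat.cast_nonneg n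
  have hg0 : 0 < g := by positivity
  have hng : (n : ℝ) * g ≤ ε / 2 := by
    rw [hg, mul_div_assoc', div_le_div_iff₀ (by positivity) (by norm_num)]
    nlinarith
  obtain ⟨J₁, h4⟩ := small_move hL hd hy.lim hg0
  obtain ⟨J₂, h5⟩ := poly_move hL hd hf y s
  set J := max J₁ J₂ with hJ
  -- the points
  set S : Finset ℕ := Finset.Icc J (J + n) with hS
  have hcard : S.card = n + 1 := by
    rw [hS, Nat.card_Icc]
    omega
  have hmemS : ∀ i ∈ S, J₁ ≤ i ∧ J₂ ≤ i := fun i hi => by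
    rw [hS, mem_Icc] at hi
    exact ⟨(le_max_left _ _).trans hi.1, (le_max_right _ _).trans hi.1⟩
  set Q : Polynomial Ω := taylor y f - Polynomial.C (f.eval y) with hQ
  have hQe : ∀ t : Ω, Q.eval t = f.eval (y + t) - f.eval y := by
    intro t
    rw [hQ, eval_sub, eval_C, taylor_eval, add_comm]
  have hdeg : Q.degree < S.card := by
    rw [hcard]
    refine lt_of_le_of_lt (degree_sub_le _ _) (max_lt ?_ ?_)
    · rw [degree_taylor]
      exact lt_of_le_of_lt degree_le_natDegree (by exact_mod_cast Nat.lt_succ_self n)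
    · exact lt_of_le_of_lt degree_C_le (by exact_mod_cast Nat.succ_pos n)
  have hval : ∀ i ∈ S, v.Ge (s - ε / 2) (Q.eval (Φ i y - y)) := by
    intro i hi
    rw [hQe, add_sub_cancel]
    have h6 := h5 i (hmemS i hi).2 (Φ i) (hΦ i) (hfix i)
    have e : f.eval (Φ i y) - f.eval y =
        -(Φ i (f.eval y) - f.eval (Φ i y)) - Φ i (u - f.eval y) + (Φ i u - u) +
          (u - f.eval y) := by
      rw [map_sub]
      ring
    rw [e]
    refine (((h6.neg.mono (by linarith)).sub ((hΦ i).ge_iff.2 h3)).add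
      ((hufix i).mono (by linarith))).add h3
  have hGB := interp_gb (v := v) (r := r) (g := g) (c := s - ε / 2) (S := S)
    (om := fun i => Φ i y - y)
    (fun i hi j hj hij => by
      have h7 := hsep i j hij
      have e : (Φ i y - y) - (Φ j y - y) = Φ i y - Φ j y := by ring
      simp only [e]
      exact h7)
    (fun j hj => h4 j (hmemS j hj).1 (Φ j) (hΦ j) (hfix j)) hdeg hval
  rw [hcard, Nat.add_sub_cancel] at hGB
  have hGB' : GB v (r - g) (s - ε) Q := hGB.mono (by linarith)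
  obtain ⟨η, hη, h8⟩ := hy.lim g hg0
  refine ⟨f.eval η, ?_, ?_⟩
  · exact eval_mem hf hη
  · have h9 := hGB'.eval (z := η - y) (by
      have e : η - y = -(y - η) := by ring
      rw [e]
      exact h8.neg)
    rw [hQe, add_sub_cancel] at h9
    have e : u - f.eval η = (u - f.eval y) - (f.eval η - f.eval y) := by ring
    rw [e]
    exact (h3.mono (by linarith)).sub h9

end Fixed

end Pool.Agent.TWCT
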