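import Pool.Agent.Lib.TWCT.ConS
import Pool.Agent.Lib.TWCT.Orth
import Pool.Agent.Lib.TWN1.GabA

/-!
# TANK W, contact (III.1): sequences of strict automorphisms with marked elements

* `Sq v L 𝓕 T X Φ η`: a sequence of strict automorphisms of all the fields in `𝓕`, `Φ i` is the
  identity on `L i`; the elements `w` of `T = {(w, r, A)}` are moved by elements of `A`, their images
  are pairwise separated (distance at least `r`); the elements of `X` are fixed;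
* `Sq.of_movV`, `Sq.of_movR`: the start;
* `Sq.step`: one floor more: `u` is separated, or there is a sequence which fixes `u`;
* `Sq.tl`: a separated element is far from the algebraic elements over a field on which the sequence
  tends to the identity;
* `Sq.par`: `u` fixed, `w` separated: the floors may be exchanged, and `u` is still.
-/

set_option autoImplicit false

open Polynomial Finset

namespace Pool.Agent.TWCT

open Pool.Agent.H15JM (RVal)
open Pool.Agent.LU1 (VPos adj)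
open Pool.Agent.LUC (Cl)
open Pool.Agent.D2 (Ctx0)
open Pool.Agent.D2P (hen clI mem_clI)
open Pool.Agent.TWM
open Pool.Agent.TWS
open Pool.Agent.TWN1 (Par)

universe u

variable {k Ω : Type u} [Field k] [Field Ω] [Algebra k Ω] {v : RVal Ω}
  {A B W : IntermediateField k Ω}

/-- A sequence of strict automorphisms with marked elements `T` and fixed elements `X`. -/
structure Sq (v : RVal Ω) (L : ℕ → IntermediateField k Ω) (𝓕 : Set (IntermediateField k Ω))
    (T : Set (Ω × ℝ × IntermediateField k Ω)) (X : Set Ω) (Φ : ℕ → Ω →ₐ[k] Ω) (η : ℕ → ℝ) :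
    Prop where
  smo : ∀ i, ∀ A ∈ 𝓕, SMo v (L i) A (Φ i) (η i)
  mem : ∀ i, ∀ t ∈ T, Φ i t.1 - t.1 ∈ t.2.2
  sep : ∀ t ∈ T, ∀ i j, i ≠ j → ¬ Gt v t.2.1 (Φ i t.1 - Φ j t.1)
  fx : ∀ i, ∀ x ∈ X, Φ i x = x

variable {L : ℕ → IntermediateField k Ω} {𝓕 : Set (IntermediateField k Ω)}
  {T : Set (Ω × ℝ × IntermediateField k Ω)} {X : Set Ω} {Φ : ℕ → Ω →ₐ[k] Ω} {η : ℕ → ℝ}

/-- A subsequence. -/
theorem Sq.sub (h : Sq v L 𝓕 T X Φ η) (hL : Monotone L) {g : ℕ → ℕ} (hg : StrictMono g) :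
    Sq v L 𝓕 T X (fun i => Φ (g i)) fun i => η (g i) where
  smo i A hA := (h.smo (g i) A hA).mono (hL hg.le_apply) (h.smo (g i) A hA).pos le_rfl
  mem i := h.mem (g i)
  sep t ht _ _ hij := h.sep t ht _ _ (hg.injective.ne hij)
  fx i := h.fx (g i)

/-- Other extensions to a larger field. -/
theorem Sq.congr (h : Sq v L 𝓕 T X Φ η) {𝓖 : Set (IntermediateField k Ω)}
    (hL : ∀ i, ∀ A ∈ 𝓕, L i ≤ A) (hB : ∀ A ∈ 𝓕, A ≤ B) (hT : ∀ t ∈ T, t.1 ∈ B)
    (hX : ∀ x ∈ X, x ∈ B) {Φ' : ℕ → Ω →ₐ[k] Ω} {η' : ℕ → ℝ}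
    (h0 : ∀ i, 0 < η' i) (hη : ∀ i, η' i ≤ η i) (hiso : ∀ i, IsoE v v (Φ' i))
    (he : ∀ i, ∀ b ∈ B, Φ' i b = Φ i b) (hG : ∀ i, ∀ A ∈ 𝓖, SMo v (L i) A (Φ' i) (η' i)) :
    Sq v L (𝓕 ∪ 𝓖) T X Φ' η' where
  smo i A hA := by
    rcases hA with hA | hA
    · exact ((h.smo i A hA).congr (hL i A hA) (hiso i) fun b hb => he i b (hB A hA hb)).mono le_rfl
        (h0 i) (hη i)
    · exact hG i A hA
  mem i t ht := by
    rw [he i _ (hT t ht)]
    exact h.mem i t ht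
  sep t ht i j hij := by
    rw [he i _ (hT t ht), he j _ (hT t ht)]
    exact h.sep t ht i j hij
  fx i x hx := by
    rw [he i _ (hX x hx)]
    exact h.fx i x hx

section Step

variable [IsAlgClosed Ω]

/-- **The extension of a sequence to a floor**, with prescribed displacements. -/
theorem Sq.extend (hk : Ctx0 k v) (hsp : SphC v) (hval : ∀ ρ : ℝ, ∃ x : Ω, x ≠ 0 ∧ v x = ρ)
    (hcv : CompleteV v) (h : Sq v L 𝓕 T X Φ η) (hL : ∀ i, ∀ A ∈ 𝓕, L i ≤ A) (hBF : B ∈ 𝓕)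
    (hB : ∀ A ∈ 𝓕, A ≤ B) (hT : ∀ t ∈ T, t.1 ∈ B) (hX : ∀ x ∈ X, x ∈ B) {u : Ω} {s : ℝ}
    (hu : TL v B u s) {d : ℕ → Ω} (hd : ∀ i, d i ∈ B ∧ ∃ c ∈ B, v.Ge (s - η i / 2) (u - c) ∧
      Gt v s (d i - (Φ i c - c))) :
    ∃ (Φ' : ℕ → Ω →ₐ[k] Ω) (η' : ℕ → ℝ), Sq v L (𝓕 ∪ {cadj v B u}) T X Φ' η' ∧
      ∀ i, Φ' i u = u + d i := by
  have key : ∀ i, ∃ (Φ' : Ω →ₐ[k] Ω) (η' : ℝ), η' ≤ η i ∧ SMo v (L i) B Φ' η' ∧
      SMo v (L i) (cadj v B u) Φ' η' ∧ (∀ b ∈ B, Φ' b = Φ i b) ∧ Φ' u = u + d i := by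
    intro i
    obtain ⟨h1, c, hc, h2, h3⟩ := hd i
    exact (h.smo i B hBF).ext hk hsp hval hcv (hL i B hBF) hu hc h2 h1 h3
  choose Φ' η' h1 h2 h3 h4 h5 using key
  refine ⟨Φ', η', h.congr hL hB hT hX (fun i => (h2 i).pos) h1 (fun i => (h2 i).iso) h4
    fun i A hA => ?_, h5⟩
  rw [Set.mem_singleton_iff] at hA
  rw [hA]
  exact h3 i

omit [IsAlgClosed Ω] in
/-- The quotient of two strict automorphisms on a smaller field. -/
theorem smo_quot {Φ Ψ Θ : Ω →ₐ[k] Ω} {L : IntermediateField k Ω} {η₁ η₂ η : ℝ} (hAB : A ≤ B)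
    (hΦ : SMo v L A Φ η₁) (hΨ : SMo v L A Ψ η₂) (hΘ : SMo v L B Θ η)
    (he : ∀ b ∈ B, Ψ (Θ b) = Φ b) : SMo v L A Θ η := by
  have h1 : ∀ a ∈ A, Θ a ∈ A := by
    intro a ha
    obtain ⟨b, hb, h2⟩ := hΨ.exists_eq (hΦ.mem ha)
    have h3 := he a (hAB ha)
    rw [← h2] at h3
    rw [Ψ.toRingHom.injective h3]
    exact hb
  refine ⟨hΘ.pos, hΘ.iso, hΘ.fix, le_antisymm ?_ fun a ha => ?_, fun a ha r hr =>
    hΘ.str a (hAB ha) r hr⟩
  · rintro _ ⟨a, ha, rfl⟩
    exact h1 a ha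
  · obtain ⟨b, hb, h2⟩ := hΦ.exists_eq (hΨ.mem ha)
    refine ⟨b, hb, ?_⟩
    have h3 := he b (hAB hb)
    rw [h2] at h3
    exact Ψ.toRingHom.injective h3

/-- **Pairs.** If the natural displacements of `u` agree, there is a sequence with trivial natural
displacements of `u`. -/
theorem Sq.pairs (hk : Ctx0 k v) (hsp : SphC v) (hval : ∀ ρ : ℝ, ∃ x : Ω, x ≠ 0 ∧ v x = ρ)
    (h : Sq v L 𝓕 T X Φ η) (hLm : Monotone L) (hL : ∀ i, ∀ A ∈ 𝓕, L i ≤ A) (hBF : B ∈ 𝓕)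
    (hB : ∀ A ∈ 𝓕, A ≤ B) (hT : ∀ t ∈ T, t.1 ∈ B) (hTF : ∀ t ∈ T, t.2.2 ∈ 𝓕) (hfin : T.Finite)
    (hX : ∀ x ∈ X, x ∈ B) {u : Ω} {s : ℝ} (hu : TL v B u s)
    (hd : ∀ i j, i < j → ∃ c ∈ B, ∃ c' ∈ B, v.Ge (s - η i / 2) (u - c) ∧
      v.Ge (s - η j / 2) (u - c') ∧ Gt v s ((Φ i c - c) - (Φ j c' - c'))) :
    ∃ (Θ : ℕ → Ω →ₐ[k] Ω) (η' : ℕ → ℝ), Sq v L 𝓕 T X Θ η' ∧
      ∀ i, ∃ c ∈ B, v.Ge (s - η' i / 2) (u - c) ∧ Gt v s (0 - (Θ i c - c)) := by
  classical
  let P : ℕ × (Ω →ₐ[k] Ω) × ℝ → Prop := fun x => (∀ A ∈ 𝓕, SMo v (L x.1) A x.2.1 x.2.2) ∧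
    (∀ t ∈ T, x.2.1 t.1 - t.1 ∈ t.2.2) ∧ (∀ z ∈ X, x.2.1 z = z) ∧
    ∃ c ∈ B, v.Ge (s - x.2.2 / 2) (u - c) ∧ Gt v s (0 - (x.2.1 c - c))
  let R : ℕ × (Ω →ₐ[k] Ω) × ℝ → ℕ × (Ω →ₐ[k] Ω) × ℝ → Prop := fun x y => x.1 < y.1 ∧
    ∀ t ∈ T, ¬ Gt v t.2.1 (x.2.1 t.1 - y.2.1 t.1)
  obtain ⟨f, hf, hfR⟩ := exists_seq_of_forall_finset_exists P R (by
    intro S hS
    set a : ℕ := S.sup (fun x => x.1) + 1 with ha
    -- the candidates
    have key : ∀ n : ℕ, ∃ Θ : Ω →ₐ[k] Ω, SMo v (L a) B Θ (min (η (a + 1 + n)) (η a)) ∧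
        ∀ b ∈ B, Φ a (Θ b) = Φ (a + 1 + n) b := fun n =>
      ((h.smo (a + 1 + n) B hBF).mono (hLm (by omega)) (h.smo (a + 1 + n) B hBF).pos le_rfl).pair
        hk hsp hval (hL a B hBF) (h.smo a B hBF)
    choose Θ hΘ hΘe using key
    have hbad : ∀ x ∈ S, ∀ t ∈ T, {n : ℕ | Gt v t.2.1 (x.2.1 t.1 - Θ n t.1)}.Subsingleton := by
      intro x _ t ht n hn m hm
      by_contra hne
      have h1 : Gt v t.2.1 (Θ m t.1 - Θ n t.1) := by
        have e : Θ m t.1 - Θ n t.1 = (x.2.1 t.1 - Θ n t.1) - (x.2.1 t.1 - Θ m t.1) := by ring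
        rw [e]
        exact Gt.sub hn hm
      have h2 : Gt v t.2.1 (Φ a (Θ m t.1 - Θ n t.1)) := (h.smo a B hBF).iso.gt_iff.2 h1
      rw [map_sub, hΘe m _ (hT t ht), hΘe n _ (hT t ht)] at h2
      exact h.sep t ht _ _ (by omega) h2
    have hfinbad : (⋃ x ∈ S, ⋃ t ∈ T, {n : ℕ | Gt v t.2.1 (x.2.1 t.1 - Θ n t.1)}).Finite := by
      refine Set.Finite.biUnion S.finite_toSet fun x hx => Set.Finite.biUnion hfin fun t ht => ?_
      exact (hbad x hx t ht).finite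
    obtain ⟨n, hn⟩ := hfinbad.exists_notMem
    have hn' : ∀ x ∈ S, ∀ t ∈ T, ¬ Gt v t.2.1 (x.2.1 t.1 - Θ n t.1) := by
      intro x hx t ht hgt
      apply hn
      simp only [Set.mem_iUnion, Set.mem_ofPred_eq]
      exact ⟨x, hx, t, ht, hgt⟩
    have hab : a < a + 1 + n := by omega
    have hm1 := min_le_left (η (a + 1 + n)) (η a)
    have hm2 := min_le_right (η (a + 1 + n)) (η a)
    have hinj : Function.Injective (Φ a) := (Φ a).toRingHom.injective
    refine ⟨(a, Θ n, min (η (a + 1 + n)) (η a)), ⟨fun A hA => ?_, fun t ht => ?_, fun z hz => ?_,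
      ?_⟩, fun x hx => ⟨?_, hn' x hx⟩⟩
    · exact smo_quot (hB A hA) ((h.smo (a + 1 + n) A hA).mono (hLm (by omega))
        (h.smo (a + 1 + n) A hA).pos le_rfl) (h.smo a A hA) (hΘ n) (hΘe n)
    · have h1 : Φ a (Θ n t.1 - t.1) ∈ t.2.2 := by
        rw [map_sub, hΘe n _ (hT t ht)]
        have e : Φ (a + 1 + n) t.1 - Φ a t.1 = (Φ (a + 1 + n) t.1 - t.1) - (Φ a t.1 - t.1) := by ring
        rw [e]
        exact sub_mem (h.mem _ t ht) (h.mem _ t ht)
      obtain ⟨b, hb, h2⟩ := (h.smo a _ (hTF t ht)).exists_eq h1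
      rw [← hinj h2]
      exact hb
    · refine hinj ?_
      rw [hΘe n z (hX z hz), h.fx _ z hz, h.fx _ z hz]
    · obtain ⟨c, hc, c', hc', hcu, hcu', h1⟩ := hd a (a + 1 + n) hab
      obtain ⟨c₂, hc₂, h2⟩ := hu.lim (min (η (a + 1 + n)) (η a) / 2) (half_pos (hΘ n).pos)
      refine ⟨c₂, hc₂, h2, ?_⟩
      have h3 := nat_near (h.smo a B hBF).str hc hc₂ hcu (h2.mono (by linarith))
      have h4 := nat_near (h.smo (a + 1 + n) B hBF).str hc' hc₂ hcu' (h2.mono (by linarith))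
      have hp1 := (h.smo a B hBF).pos
      have hp2 := (h.smo (a + 1 + n) B hBF).pos
      have h5 : Gt v s ((Φ (a + 1 + n) c₂ - c₂) - (Φ a c₂ - c₂)) := by
        have e : (Φ (a + 1 + n) c₂ - c₂) - (Φ a c₂ - c₂) =
            ((Φ a c - c) - (Φ a c₂ - c₂)) - ((Φ (a + 1 + n) c' - c') - (Φ (a + 1 + n) c₂ - c₂)) -
            ((Φ a c - c) - (Φ (a + 1 + n) c' - c')) := by ring
        rw [e]
        exact ((Gt.of_ge h3 (by linarith)).sub (Gt.of_ge h4 (by linarith))).sub h1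
      have e : (Φ (a + 1 + n) c₂ - c₂) - (Φ a c₂ - c₂) = Φ a (Θ n c₂ - c₂) := by
        rw [map_sub, hΘe n c₂ hc₂]
        ring
      rw [e, (h.smo a B hBF).iso.gt_iff] at h5
      rw [zero_sub]
      exact h5.neg
    · have h1 : x.1 ≤ S.sup (fun x => x.1) := Finset.le_sup (f := fun x => x.1) hx
      change x.1 < a
      omega)
  have hlev : StrictMono fun n => (f n).1 := fun m n hmn => (hfR m n hmn).1
  refine ⟨fun n => (f n).2.1, fun n => (f n).2.2, ⟨fun n A hA => ?_, fun n => (hf n).2.1,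
    fun t ht i j hij => ?_, fun n => (hf n).2.2.1⟩, fun n => (hf n).2.2.2⟩
  · exact ((hf n).1 A hA).mono (hLm hlev.le_apply) ((hf n).1 A hA).pos le_rfl
  · rcases lt_or_gt_of_ne hij with h1 | h1
    · exact (hfR i j h1).2 t ht
    · intro h2
      refine (hfR j i h1).2 t ht ?_
      rw [← neg_sub]
      exact h2.neg

/-- **One floor more**: `u` becomes a marked element, or it is fixed. -/
theorem Sq.step (hk : Ctx0 k v) (hsp : SphC v) (hval : ∀ ρ : ℝ, ∃ x : Ω, x ≠ 0 ∧ v x = ρ)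
    (hcv : CompleteV v) (h : Sq v L 𝓕 T X Φ η) (hLm : Monotone L) (hL : ∀ i, ∀ A ∈ 𝓕, L i ≤ A)
    (hBF : B ∈ 𝓕) (hB : ∀ A ∈ 𝓕, A ≤ B) (hT : ∀ t ∈ T, t.1 ∈ B) (hTF : ∀ t ∈ T, t.2.2 ∈ 𝓕)
    (hfin : T.Finite) (hX : ∀ x ∈ X, x ∈ B) {u : Ω} {s : ℝ} (hu : TL v B u s) :
    (∃ (Φ' : ℕ → Ω →ₐ[k] Ω) (η' : ℕ → ℝ),
      Sq v L (𝓕 ∪ {cadj v B u}) (T ∪ {(u, s, B)}) X Φ' η') ∨
    ∃ (Φ' : ℕ → Ω →ₐ[k] Ω) (η' : ℕ → ℝ), Sq v L (𝓕 ∪ {cadj v B u}) T (X ∪ {u}) Φ' η' := by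
  classical
  have hc : ∀ i, ∃ c ∈ B, v.Ge (s - η i / 2) (u - c) := fun i =>
    hu.lim (η i / 2) (half_pos (h.smo i B hBF).pos)
  choose c hcB hcu using hc
  let r : ℕ → ℕ → Prop := fun i j => Gt v s ((Φ i (c i) - c i) - (Φ j (c j) - c j))
  have htr : IsTrans ℕ r := ⟨fun i j l h1 h2 => by
    have e : (Φ i (c i) - c i) - (Φ l (c l) - c l) =
        ((Φ i (c i) - c i) - (Φ j (c j) - c j)) + ((Φ j (c j) - c j) - (Φ l (c l) - c l)) := by ring
    change Gt v s _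
    rw [e]
    exact Gt.add h1 h2⟩
  obtain ⟨g, hg | hg⟩ := exists_increasing_or_nonincreasing_subseq r (fun n : ℕ => n)
  · -- fixed
    right
    have hg' : StrictMono g := g.strictMono
    obtain ⟨Θ, η₁, h1, h2⟩ := (h.sub hLm hg').pairs hk hsp hval hLm hL hBF hB hT hTF hfin hX hu
      fun i j hij => ⟨c (g i), hcB _, c (g j), hcB _, hcu _, hcu _, hg i j hij⟩
    obtain ⟨Φ', η', h3, h4⟩ := h1.extend hk hsp hval hcv hL hBF hB hT hX hu (d := fun _ => 0)
      fun i => ⟨zero_mem B, h2 i⟩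
    refine ⟨Φ', η', h3.smo, h3.mem, h3.sep, fun i x hx => ?_⟩
    rcases hx with hx | hx
    · exact h3.fx i x hx
    · rw [Set.mem_singleton_iff] at hx
      rw [hx, h4 i, add_zero]
  · -- separated
    left
    have hg' : StrictMono g := g.strictMono
    obtain ⟨Φ', η', h3, h4⟩ := (h.sub hLm hg').extend hk hsp hval hcv hL hBF hB hT hX hu
      (d := fun i => Φ (g i) (c (g i)) - c (g i))
      fun i => ⟨sub_mem ((h.smo _ B hBF).mem (hcB _)) (hcB _), c (g i), hcB _, hcu _, by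
        rw [sub_self]
        exact Gt.zero⟩
    have h5 : ∀ i j, i < j → ¬ Gt v s (Φ' i u - Φ' j u) := by
      intro i j hij h6
      refine hg i j hij ?_
      have e : Φ' i u - Φ' j u = (Φ (g i) (c (g i)) - c (g i)) - (Φ (g j) (c (g j)) - c (g j)) := by
        rw [h4 i, h4 j]
        ring
      rw [e] at h6
      exact h6
    refine ⟨Φ', η', h3.smo, fun i t ht => ?_, fun t ht i j hij => ?_, h3.fx⟩
    · rcases ht with ht | ht
      · exact h3.mem i t ht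
      · rw [Set.mem_singleton_iff] at ht
        subst ht
        change Φ' i u - u ∈ B
        rw [h4 i, add_sub_cancel_left]
        exact sub_mem ((h.smo _ B hBF).mem (hcB _)) (hcB _)
    · rcases ht with ht | ht
      · exact h3.sep t ht i j hij
      · rw [Set.mem_singleton_iff] at ht
        subst ht
        change ¬ Gt v s (Φ' i u - Φ' j u)
        rcases lt_or_gt_of_ne hij with h6 | h6
        · exact h5 i j h6
        · intro h7
          refine h5 j i h6 ?_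
          rw [← neg_sub]
          exact h7.neg

/-! ### Exchange -/

/-- **`u` is fixed, `w` is separated**: the floors may be exchanged. -/
theorem Sq.par (h : Sq v L 𝓕 T X Φ η) (hLm : Monotone L) (hd : W ≤ clI v (⨆ J, L J))
    (hW : W ∈ 𝓕) {w u : Ω} {r s : ℝ} {A : IntermediateField k Ω} (hw : TL v W w r)
    (hu : TL v (cadj v W w) u s) (hwT : (w, r, A) ∈ T) (huX : u ∈ X) :
    Par v W (cadj v (cadj v W w) u) w r u s := by
  refine Par.mk' hw hu ?_ rfl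
  refine lim_of_fixed hLm hd hw hu.lim (fun i => (h.smo i W hW).iso)
    (fun i => (h.smo i W hW).fix) (fun i j hij => ?_) fun i => ?_
  · have h1 := h.sep _ hwT i j hij
    refine ⟨fun h0 => h1 ?_, not_lt.1 fun h2 => h1 fun _ => h2⟩
    change Gt v r (Φ i w - Φ j w)
    rw [h0]
    exact Gt.zero
  · rw [h.fx i u huX, sub_self]
    exact RVal.Ge.zero

omit [IsAlgClosed Ω] in
/-- A separated element over `W` shows that `W` is moved. -/
theorem Sq.ne (h : Sq v L 𝓕 T X Φ η) {w : Ω} {r : ℝ} {A : IntermediateField k Ω}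
    (hw : TL v W w r) (hwT : (w, r, A) ∈ T) (hBF : B ∈ 𝓕) (hWB : W ≤ B) (hwB : w ∈ B) (J : ℕ) :
    ∃ i, J ≤ i ∧ ∃ x ∈ W, Φ i x ≠ x := by
  by_contra hno
  push Not at hno
  have key : ∀ i, J ≤ i → Gt v r (Φ i w - w) := by
    intro i hi
    have hη := (h.smo i B hBF).pos
    obtain ⟨c, hc, h1⟩ := hw.lim (η i / 2) (half_pos hη)
    have h2 := (h.smo i B hBF).str _ (sub_mem hwB (hWB hc)) _ h1
    have e : Φ i (w - c) - (w - c) = Φ i w - w := by
      rw [map_sub, hno i hi c hc]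
      ring
    rw [e] at h2
    exact Gt.of_ge h2 (by linarith)
  refine h.sep _ hwT J (J + 1) (by omega) ?_
  have e : Φ J w - Φ (J + 1) w = (Φ J w - w) - (Φ (J + 1) w - w) := by ring
  change Gt v r (Φ J w - Φ (J + 1) w)
  rw [e]
  exact (key J le_rfl).sub (key (J + 1) (by omega))

omit [IsAlgClosed Ω] in
/-- The field `W(u)` is still, if `u` is fixed and `w` is separated. -/
theorem Sq.conS (hcv : CompleteV v) (h : Sq v L 𝓕 T X Φ η) (hLm : Monotone L) (hW : W ∈ 𝓕)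
    {w u : Ω} {r : ℝ} {A : IntermediateField k Ω} (hw : TL v W w r) (hwT : (w, r, A) ∈ T)
    (huX : u ∈ X) (hBF : B ∈ 𝓕) (hBc : Cld v B) (hWB : W ≤ B) (hwB : w ∈ B) (huB : u ∈ B) :
    ConS v (fun J => cadj v (L J) u) W (cadj v W u) := by
  intro J
  obtain ⟨i, hi, x, hx, hne⟩ := h.ne hw hwT hBF hWB hwB J
  have hW' := h.smo i W hW
  have hB' := h.smo i B hBF
  refine ⟨Φ i, η i, ⟨hB'.pos, hB'.iso, ?_, ?_, ?_⟩, x, hx, hne⟩
  · intro a ha
    refine clI_le_fixF hB'.iso (D2P.adj_le (fun b hb => ?_) ?_) ha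
    · exact hW'.fix b (hLm hi hb)
    · exact h.fx i u huX
  · rw [← hB'.iso.cadj_map hcv, hW'.map, h.fx i u huX]
  · intro a ha r' hr
    exact hB'.str a (cadj_le hBc hWB huB ha) r' hr

/-! ### Far -/

omit [IsAlgClosed Ω] in
/-- An algebraic element over a union. -/
theorem alg_of_iSup {M : ℕ → IntermediateField k Ω} (hM : Monotone M) {θ : Ω}
    (hθ : IsAlgebraic (⨆ J, M J : IntermediateField k Ω) θ) : ∃ J, IsAlgebraic (M J) θ := by
  classical
  obtain ⟨P, hP0, hP⟩ := hθ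
  have hmem : ∀ x : Ω, x ∈ (⨆ J, M J : IntermediateField k Ω) ↔ ∃ J, x ∈ M J := by
    intro x
    have h1 : x ∈ (⨆ J, M J : IntermediateField k Ω) ↔
        x ∈ ((⨆ J, M J : IntermediateField k Ω) : Set Ω) := Iff.rfl
    rw [h1, IntermediateField.coe_iSup_of_directed hM.directed_le, Set.mem_iUnion]
    rfl
  have h1 : ∀ i : ℕ, ∃ J, ((P.coeff i : (⨆ J, M J : IntermediateField k Ω)) : Ω) ∈ M J := fun i =>
    (hmem _).1 (P.coeff i).2
  choose J hJ using h1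
  set J₀ := (range (P.natDegree + 1)).sup J with hJ₀
  have h2 : ∀ i, ((P.coeff i : (⨆ J, M J : IntermediateField k Ω)) : Ω) ∈ M J₀ := by
    intro i
    by_cases hi : i ∈ range (P.natDegree + 1)
    · exact hM (Finset.le_sup (f := J) hi) (hJ i)
    · rw [coeff_eq_zero_of_natDegree_lt (by rw [mem_range] at hi; omega)]
      exact zero_mem (M J₀)
  refine ⟨J₀, ∑ i ∈ range (P.natDegree + 1), C (⟨_, h2 i⟩ : M J₀) * X ^ i, fun h0 => hP0 ?_, ?_⟩
  · ext i
    by_cases hi : i ∈ range (P.natDegree + 1)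
    · have h3 := congrArg (fun f => ((f.coeff i : M J₀) : Ω)) h0
      simp only [finsetSum_coeff, coeff_C_mul, coeff_X_pow, mul_ite, mul_one, mul_zero,
        Finset.sum_ite_eq, hi, if_true, coeff_zero] at h3
      rw [coeff_zero]
      exact h3
    · rw [coeff_eq_zero_of_natDegree_lt (by rw [mem_range] at hi; omega), coeff_zero]
  · rw [aeval_eq_sum_range] at hP
    rw [map_sum, ← hP]
    refine Finset.sum_congr rfl fun i _ => ?_
    rw [map_mul, map_pow, aeval_X, aeval_C]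
    rfl

omit [IsAlgClosed Ω] in
/-- Two members of the sequence agree at an algebraic element. -/
theorem exists_same {M : ℕ → IntermediateField k Ω} (hM : Monotone M)
    (hfix : ∀ i, ∀ a ∈ M i, Φ i a = a) {J : ℕ} {θ : Ω} (hθ : IsAlgebraic (M J) θ) :
    ∃ i j, i ≠ j ∧ Φ i θ = Φ j θ := by
  classical
  obtain ⟨P, hP0, hP⟩ := hθ
  set S := (P.map (algebraMap (M J) Ω)).roots.toFinset with hS
  have hroot : ∀ n, Φ (J + n) θ ∈ S := by
    intro n
    rw [hS, Multiset.mem_toFinset, mem_roots', IsRoot.def]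
    refine ⟨(Polynomial.map_ne_zero_iff (algebraMap (M J) Ω).injective).2 hP0, ?_⟩
    have e1 : Φ (J + n) (aeval θ P) = (P.map (algebraMap (M J) Ω)).eval (Φ (J + n) θ) := by
      rw [aeval_def, eval₂_eq_sum_range, eval_eq_sum_range, map_sum,
        natDegree_map_eq_of_injective (algebraMap (M J) Ω).injective]
      refine Finset.sum_congr rfl fun i _ => ?_
      rw [map_mul, map_pow, coeff_map]
      congr 1
      exact hfix _ _ (hM (by omega) (P.coeff i).2)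
    rw [← e1, hP, map_zero]
  obtain ⟨m, n, hmn, h1⟩ := Finite.exists_ne_map_eq_of_infinite
    (fun n : ℕ => (⟨Φ (J + n) θ, hroot n⟩ : S))
  exact ⟨J + m, J + n, by omega, congrArg Subtype.val h1⟩

/-- **Separated elements are far** from the algebraic elements over a field on which the sequence
tends to the identity. -/
theorem Sq.tl (hk : Ctx0 k v) (h : Sq v L 𝓕 T X Φ η) (hAF : A ∈ 𝓕)
    {M : ℕ → IntermediateField k Ω} (hM : Monotone M) (hfix : ∀ i, ∀ a ∈ M i, Φ i a = a)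
    {B' : IntermediateField k Ω} (hd : B' ≤ clI v (⨆ J, M J)) {w : Ω} {r : ℝ}
    {A' : IntermediateField k Ω} (hwT : (w, r, A') ∈ T) (hAB : A' ≤ B') (hl : Lim v B' r w) :
    TL v B' w r := by
  have near : ∀ θ : Ω, IsAlgebraic B' θ → ∃ θ' : Ω, v.Ge (r + 1) (θ - θ') ∧
      ∃ i j, i ≠ j ∧ Φ i θ' = Φ j θ' := by
    intro θ hθ
    obtain ⟨θ', h1, h2⟩ := exists_near_alg (D2P.isAlgebraic_mono hd hθ) (r + 1)
    obtain ⟨J, h3⟩ := alg_of_iSup hM h1
    exact ⟨θ', h2, exists_same hM hfix h3⟩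
  have hA : ∀ θ : Ω, IsAlgebraic B' θ → ¬ Gt v r (w - θ) := by
    intro θ hθ hgt
    obtain ⟨θ', h1, i, j, hij, h2⟩ := near θ hθ
    have h3 : Gt v r (w - θ') := by
      have e : w - θ' = (w - θ) + (θ - θ') := by ring
      rw [e]
      exact hgt.add (Gt.of_ge h1 (by linarith))
    refine h.sep _ hwT i j hij ?_
    change Gt v r (Φ i w - Φ j w)
    have e : Φ i w - Φ j w = Φ i (w - θ') - Φ j (w - θ') := by
      rw [map_sub, map_sub, h2]
      ring
    rw [e]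
    exact ((h.smo i A hAF).iso.gt_iff.2 h3).sub ((h.smo j A hAF).iso.gt_iff.2 h3)
  refine ⟨hl, fun θ hθ => ?_⟩
  by_contra hcon
  have hge : v.Ge r (w - θ) := by
    intro h0
    by_contra h1
    exact hcon ⟨fun h => h0 (by rw [h, sub_self]), not_le.1 h1⟩
  obtain ⟨θ', h1, i, j, hij, h2⟩ := near θ hθ
  have h3 : v.Ge r (w - θ') := by
    have e : w - θ' = (w - θ) + (θ - θ') := by ring
    rw [e]
    exact hge.add (h1.mono (by linarith))
  obtain ⟨t, ht⟩ : ∃ t, t = Φ i w - Φ j w := ⟨_, rfl⟩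
  have htge : v.Ge r t := by
    have e : t = Φ i (w - θ') - Φ j (w - θ') := by
      rw [ht, map_sub, map_sub, h2]
      ring
    rw [e]
    exact ((h.smo i A hAF).iso.ge_iff.2 h3).sub ((h.smo j A hAF).iso.ge_iff.2 h3)
  have htn : ¬ Gt v r t := by
    rw [ht]
    exact h.sep _ hwT i j hij
  have ht0 : t ≠ 0 := by
    rintro rfl
    exact htn Gt.zero
  have hvt : v t = r := le_antisymm (not_lt.1 fun h4 => htn fun _ => h4) (htge ht0)
  have htB : t ∈ B' := by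
    have e : t = (Φ i w - w) - (Φ j w - w) := by
      rw [ht]
      ring
    rw [e]
    exact sub_mem (hAB (h.mem i _ hwT)) (hAB (h.mem j _ hwT))
  have h4 : v.Ge 0 ((w - θ) / t) := by
    intro h5
    have h6 : w - θ ≠ 0 := fun h7 => h5 (by rw [h7, zero_div])
    rw [v.map_div h6 ht0, hvt]
    have := hge h6
    linarith
  obtain ⟨c, hc⟩ := hk.residue h4
  have h5 : Gt v r (w - (θ + algebraMap k Ω c * t)) := by
    have h6 := Gt.mul_ge (r := 0) hc (RVal.ge_self (v := v) t)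
    rw [hvt, zero_add] at h6
    have e : w - (θ + algebraMap k Ω c * t) = ((w - θ) / t - algebraMap k Ω c) * t := by
      rw [sub_mul, div_mul_cancel₀ _ ht0]
      ring
    rw [e]
    exact h6
  refine hA _ (hθ.add ?_) h5
  exact isAlgebraic_algebraMap (⟨_, mul_mem (B'.algebraMap_mem c) htB⟩ : B')

/-! ### The start -/

omit [IsAlgClosed Ω] in
theorem exists_bound {α : Type*} (S : Finset α) (f : α → ℝ) (s : ℝ) (hf : ∀ x ∈ S, f x < s) :
    ∃ ε : ℝ, 0 < ε ∧ ∀ x ∈ S, f x ≤ s - ε := by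
  classical
  induction S using Finset.induction_on with
  | empty => exact ⟨1, one_pos, fun x hx => absurd hx (Finset.notMem_empty _)⟩
  | insert a S _ ih =>
    obtain ⟨ε, hε, h1⟩ := ih fun x hx => hf x (mem_insert_of_mem hx)
    have ha := hf a (mem_insert_self a S)
    refine ⟨min ε (s - f a), lt_min hε (by linarith), fun x hx => ?_⟩
    rcases mem_insert.1 hx with rfl | hx
    · have := min_le_right ε (s - f x)
      linarith
    · have := min_le_left ε (s - f a)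
      linarith [h1 x hx]

omit [IsAlgClosed Ω] in
/-- The start: visible displacements. -/
theorem Sq.of_movV (hLm : Monotone L) {w : Ω} {s : ℝ} (h : MovV v L W w s) :
    ∃ (Φ : ℕ → Ω →ₐ[k] Ω) (η : ℕ → ℝ), Sq v L {W, cadj v W w} {(w, s, W)} ∅ Φ η := by
  classical
  let P : ℕ × (Ω →ₐ[k] Ω) × ℝ → Prop := fun x => SMo v (L x.1) W x.2.1 x.2.2 ∧
    SMo v (L x.1) (cadj v W w) x.2.1 x.2.2 ∧ x.2.1 w - w ∈ W ∧ x.2.1 w - w ≠ 0 ∧
    v (x.2.1 w - w) < s
  let R : ℕ × (Ω →ₐ[k] Ω) × ℝ → ℕ × (Ω →ₐ[k] Ω) × ℝ → Prop := fun x y => x.1 < y.1 ∧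
    v (x.2.1 w - w) < v (y.2.1 w - w)
  obtain ⟨f, hf, hfR⟩ := exists_seq_of_forall_finset_exists P R (by
    intro S hS
    obtain ⟨ε, hε, h1⟩ := exists_bound S (fun x => v (x.2.1 w - w)) s fun x hx =>
      (hS x hx).2.2.2.2
    obtain ⟨Φ, η, Z, h2, h3, h4, h5, h6, h7, h8⟩ := h (S.sup (fun x => x.1) + 1) ε hε
    have e : Φ w - w = Z := by rw [h4, add_sub_cancel_left]
    refine ⟨(S.sup (fun x => x.1) + 1, Φ, η), ⟨h2, h3, ?_, ?_, ?_⟩, fun x hx => ⟨?_, ?_⟩⟩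
    · change Φ w - w ∈ W
      rwa [e]
    · change Φ w - w ≠ 0
      rwa [e]
    · change v (Φ w - w) < s
      rwa [e]
    · have h9 : x.1 ≤ S.sup (fun x => x.1) := Finset.le_sup (f := fun x => x.1) hx
      change x.1 < _ + 1
      omega
    · change v (x.2.1 w - w) < v (Φ w - w)
      rw [e]
      exact (h1 x hx).trans_lt h7)
  have hlev : StrictMono fun n => (f n).1 := fun m n hmn => (hfR m n hmn).1
  have key : ∀ i j, i < j → ¬ Gt v s ((f i).2.1 w - (f j).2.1 w) := by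
    intro i j hij hgt
    obtain ⟨-, -, -, hi0, his⟩ := hf i
    obtain ⟨-, -, -, hj0, -⟩ := hf j
    have h1 := (hfR i j hij).2
    have h2 : Gt v (v ((f i).2.1 w - w)) (((f i).2.1 w - w) -
        ((f i).2.1 w - (f j).2.1 w)) := by
      have e : ((f i).2.1 w - w) - ((f i).2.1 w - (f j).2.1 w) = (f j).2.1 w - w := by ring
      rw [e]
      exact fun _ => h1
    obtain ⟨h3, h4⟩ := Gt.val_eq hi0 h2
    have := hgt h3
    linarith
  refine ⟨fun n => (f n).2.1, fun n => (f n).2.2, fun n A hA => ?_, fun n t ht => ?_,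
    fun t ht i j hij => ?_, fun n x hx => absurd hx (Set.notMem_empty x)⟩
  · rcases hA with rfl | hA
    · exact (hf n).1.mono (hLm hlev.le_apply) (hf n).1.pos le_rfl
    · rw [Set.mem_singleton_iff] at hA
      rw [hA]
      exact (hf n).2.1.mono (hLm hlev.le_apply) (hf n).2.1.pos le_rfl
  · rw [Set.mem_singleton_iff] at ht
    subst ht
    exact (hf n).2.2.1
  · rw [Set.mem_singleton_iff] at ht
    subst ht
    rcases lt_or_gt_of_ne hij with h1 | h1
    · exact key i j h1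
    · intro h2
      refine key j i h1 ?_
      rw [← neg_sub]
      exact Gt.neg h2

omit [IsAlgClosed Ω] in
/-- The start: infinitely many residues. -/
theorem Sq.of_movR (hLm : Monotone L) {w : Ω} {s : ℝ} (h : MovR v L W w s) (hk : Ctx0 k v) :
    ∃ (Φ : ℕ → Ω →ₐ[k] Ω) (η : ℕ → ℝ), Sq v L {W, cadj v W w} {(w, s, W)} ∅ Φ η := by
  classical
  obtain ⟨t, htW, ht0, hvt, h⟩ := h
  let P : (ℕ × (Ω →ₐ[k] Ω) × ℝ) × k → Prop := fun x => SMo v (L x.1.1) W x.1.2.1 x.1.2.2 ∧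
    SMo v (L x.1.1) (cadj v W w) x.1.2.1 x.1.2.2 ∧ x.1.2.1 w = w + algebraMap k Ω x.2 * t
  let R : (ℕ × (Ω →ₐ[k] Ω) × ℝ) × k → (ℕ × (Ω →ₐ[k] Ω) × ℝ) × k → Prop := fun x y =>
    x.1.1 < y.1.1 ∧ x.2 ≠ y.2
  obtain ⟨f, hf, hfR⟩ := exists_seq_of_forall_finset_exists P R (by
    intro S hS
    obtain ⟨Φ, η, c, h1, h2, h3, h4⟩ := h (S.sup (fun x => x.1.1) + 1) (S.image fun x => x.2)
    refine ⟨((S.sup (fun x => x.1.1) + 1, Φ, η), c), ⟨h2, h3, h4⟩, fun x hx => ⟨?_, ?_⟩⟩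
    · have h9 : x.1.1 ≤ S.sup (fun x => x.1.1) := Finset.le_sup (f := fun x => x.1.1) hx
      change x.1.1 < _ + 1
      omega
    · rintro rfl
      exact h1 (mem_image_of_mem _ hx))
  have hlev : StrictMono fun n => (f n).1.1 := fun m n hmn => (hfR m n hmn).1
  have key : ∀ i j, i < j → ¬ Gt v s ((f i).1.2.1 w - (f j).1.2.1 w) := by
    intro i j hij hgt
    have h1 : (f i).2 - (f j).2 ≠ 0 := sub_ne_zero.2 (hfR i j hij).2
    have e : (f i).1.2.1 w - (f j).1.2.1 w = algebraMap k Ω ((f i).2 - (f j).2) * t := by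
      rw [(hf i).2.2, (hf j).2.2, map_sub]
      ring
    rw [e] at hgt
    have h2 : algebraMap k Ω ((f i).2 - (f j).2) ≠ 0 :=
      (map_ne_zero_iff _ (algebraMap k Ω).injective).2 h1
    have h3 := hgt (mul_ne_zero h2 ht0)
    rw [v.map_mul h2 ht0, hk.triv _ h1, hvt, zero_add] at h3
    exact lt_irrefl _ h3
  refine ⟨fun n => (f n).1.2.1, fun n => (f n).1.2.2, fun n A hA => ?_, fun n t ht => ?_,
    fun t ht i j hij => ?_, fun n x hx => absurd hx (Set.notMem_empty x)⟩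
  · rcases hA with rfl | hA
    · exact (hf n).1.mono (hLm hlev.le_apply) (hf n).1.pos le_rfl
    · rw [Set.mem_singleton_iff] at hA
      rw [hA]
      exact (hf n).2.1.mono (hLm hlev.le_apply) (hf n).2.1.pos le_rfl
  · rw [Set.mem_singleton_iff] at ht
    subst ht
    change (f n).1.2.1 w - w ∈ W
    rw [(hf n).2.2, add_sub_cancel_left]
    exact mul_mem (W.algebraMap_mem _) htW
  · rw [Set.mem_singleton_iff] at ht
    subst ht
    rcases lt_or_gt_of_ne hij with h1 | h1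
    · exact key i j h1
    · intro h2
      refine key j i h1 ?_
      rw [← neg_sub]
      exact Gt.neg h2

/-- **The order of the floors.** `w` moves over `W`, `u` a floor over `W(w)`: there is a sequence with
`w` and `u` separated, or `w` and `u` may be exchanged, and `W(u)` is still. -/
theorem order_step (hk : Ctx0 k v) (hsp : SphC v) (hval : ∀ ρ : ℝ, ∃ x : Ω, x ≠ 0 ∧ v x = ρ)
    (hcv : CompleteV v) (hLm : Monotone L) (hLW : ∀ J, L J ≤ W) (hd : W ≤ clI v (⨆ J, L J))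
    {w u : Ω} {r s : ℝ} (hw : TL v W w r) (hm : MovV v L W w r ∨ MovR v L W w r)
    (hu : TL v (cadj v W w) u s) :
    (∃ (Φ : ℕ → Ω →ₐ[k] Ω) (η : ℕ → ℝ), Sq v L
      {W, cadj v W w, cadj v (cadj v W w) u} {(w, r, W), (u, s, cadj v W w)} ∅ Φ η) ∨
    (Par v W (cadj v (cadj v W w) u) w r u s ∧
      ConS v (fun J => cadj v (L J) u) W (cadj v W u)) := by
  obtain ⟨Φ, η, h⟩ : ∃ (Φ : ℕ → Ω →ₐ[k] Ω) (η : ℕ → ℝ),
      Sq v L {W, cadj v W w} {(w, r, W)} ∅ Φ η := by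
    rcases hm with hm | hm
    · exact Sq.of_movV hLm hm
    · exact Sq.of_movR hLm hm hk
  have hWw : W ≤ cadj v W w := le_cadj v W w
  have h1 : ∀ i, ∀ A ∈ ({W, cadj v W w} : Set (IntermediateField k Ω)), L i ≤ A := by
    intro i A hA
    rcases hA with rfl | hA
    · exact hLW i
    · rw [Set.mem_singleton_iff] at hA
      rw [hA]
      exact (hLW i).trans hWw
  have h2 : ∀ A ∈ ({W, cadj v W w} : Set (IntermediateField k Ω)), A ≤ cadj v W w := by
    intro A hA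
    rcases hA with rfl | hA
    · exact hWw
    · rw [Set.mem_singleton_iff] at hA
      rw [hA]
  have e𝓕 : ({W, cadj v W w} : Set (IntermediateField k Ω)) ∪ {cadj v (cadj v W w) u} =
      {W, cadj v W w, cadj v (cadj v W w) u} := by
    ext A
    simp only [Set.mem_union, Set.mem_insert_iff, Set.mem_singleton_iff]
    tauto
  rcases h.step hk hsp hval hcv hLm h1 (B := cadj v W w) (by simp) h2
    (fun t ht => by
      rw [Set.mem_singleton_iff] at ht
      rw [ht]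
      exact self_mem_cadj v W w)
    (fun t ht => by
      rw [Set.mem_singleton_iff] at ht
      rw [ht]
      simp) (Set.finite_singleton _) (fun x hx => absurd hx (Set.notMem_empty x)) hu with
    ⟨Φ', η', h3⟩ | ⟨Φ', η', h3⟩
  · left
    refine ⟨Φ', η', ?_⟩
    rw [e𝓕] at h3
    have e : ({(w, r, W)} : Set (Ω × ℝ × IntermediateField k Ω)) ∪ {(u, s, cadj v W w)} =
        {(w, r, W), (u, s, cadj v W w)} := by
      ext A
      simp only [Set.mem_union, Set.mem_insert_iff, Set.mem_singleton_iff]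
    rwa [e] at h3
  · right
    rw [e𝓕] at h3
    refine ⟨h3.par hLm hd (by simp) hw hu (A := W) (by simp) (by simp), ?_⟩
    exact h3.conS hcv hLm (by simp) hw (A := W) (by simp) (by simp)
      (B := cadj v (cadj v W w) u) (by simp) (cld_cadj v _ u) (hWw.trans (le_cadj v _ u))
      (le_cadj v _ u (self_mem_cadj v W w)) (self_mem_cadj v _ u)

end Step

end Pool.Agent.TWCT
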