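import Pool.Agent.Lib.TWCT.AS
import Pool.Agent.Lib.TWCT.Str

/-!
# TANK W, contact (III.1), Fact O: the record motions have order `p` and commute

* `ASC.Mot p v N th u nn i Φ`: the properties of the motion of `ASC.exists_motion`;
* `ASC.Mot.diff`: it moves `θ_n`, `n > i`, by an element of `N n` of value `≥ η_i - η_n`;
* `ASC.Mot.pow_eq`: at a record, the `p`-th iterate is the identity on the closure of the union;
* `ASC.Mot.comm`: two record motions commute on the closure of the union.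
-/

set_option autoImplicit false

open Polynomial IntermediateField

namespace Pool.Agent.TWCT

open Pool.Agent.H15JM (RVal)
open Pool.Agent.LU1 (VPos adj)
open Pool.Agent.LUC (Cl)
open Pool.Agent.D2 (Ctx0)
open Pool.Agent.D2P (hen clI mem_clI)
open Pool.Agent.TWM
open Pool.Agent.TWS

universe u

variable {k Ω : Type u} [Field k] [Field Ω] [Algebra k Ω] {v : RVal Ω}

/-! ### The difference operator -/

/-- The `p`-th iterate of `Φ - 1` is `Φ ^ p - 1`. -/
theorem iterate_sub (p : ℕ) [hp : Fact p.Prime] [CharP Ω p] (Φ : Ω →ₐ[k] Ω) (a : Ω) :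
    (fun x => Φ x - x)^[p] a = Φ^[p] a - a := by
  have hck : CharP k p := (algebraMap k Ω).charP (algebraMap k Ω).injective p
  have hcE : CharP (Module.End k Ω) p :=
    charP_of_injective_algebraMap (algebraMap k (Module.End k Ω)).injective p
  have h1 : (Φ.toLinearMap - 1 : Module.End k Ω) ^ p = Φ.toLinearMap ^ p - 1 := by
    have h2 := sub_pow_expChar_of_commute (p := p) (x := (Φ.toLinearMap : Module.End k Ω))
      (y := 1) (Commute.one_right _)
    rwa [one_pow] at h2
  have h2 := congrArg (fun f : Module.End k Ω => f a) h1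
  simp only [Module.End.pow_apply, LinearMap.sub_apply, Module.End.one_apply] at h2
  exact h2

/-- The iterates of a strict motion minus the identity. -/
theorem StrM.iterate {Φ : Ω →ₐ[k] Ω} {A : IntermediateField k Ω} {d : ℝ} (h : StrM v Φ A d)
    (hA : ∀ a ∈ A, Φ a ∈ A) {a : Ω} (ha : a ∈ A) {r : ℝ} (hr : v.Ge r a) (m : ℕ) :
    (fun x => Φ x - x)^[m] a ∈ A ∧ v.Ge (r + m * d) ((fun x => Φ x - x)^[m] a) := by
  induction m with
  | zero =>
    refine ⟨ha, ?_⟩
    rw [Nat.cast_zero, zero_mul, add_zero]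
    exact hr
  | succ m ih =>
    rw [Function.iterate_succ_apply']
    refine ⟨sub_mem (hA _ ih.1) ih.1, ?_⟩
    refine (h _ ih.1 _ ih.2).mono ?_
    push_cast
    linarith

/-! ### Record motions -/

/-- The properties of a motion of a record. -/
structure ASC.Mot (v : RVal Ω) (N : ℕ → IntermediateField k Ω) (th : ℕ → Ω) (u nn : ℕ → ℝ)
    (i : ℕ) (Φ : Ω →ₐ[k] Ω) : Prop where
  iso : IsoE v v Φ
  fix : ∀ a ∈ N i, Φ a = a
  int : ∃ j : ℤ, Φ (th i) = th i + j
  mem : ∀ n, ∀ a ∈ N n, Φ a ∈ N n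
  str : ∀ n, i < n → StrM v Φ (N n) (nn n + (u i - nn (i + 1)))

variable {p : ℕ} {N : ℕ → IntermediateField k Ω} {th : ℕ → Ω} {u nn : ℕ → ℝ} {i i' : ℕ}
  {Φ Φ' : Ω →ₐ[k] Ω}

/-- The difference at a generator. -/
theorem ASC.Mot.diff [hp : Fact p.Prime] [CharP Ω p] [IsAlgClosed Ω] (hk : Ctx0 k v)
    (h : ASC p v N th u nn) (hΦ : ASC.Mot v N th u nn i Φ) {n : ℕ} (hn : i < n)
    (hmax : u n - nn (n + 1) ≤ u i - nn (i + 1)) :
    Φ (th n) - th n ∈ N n ∧ v.Ge ((u i - nn (i + 1)) - (u n - nn (n + 1))) (Φ (th n) - th n) := by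
  have hv : v (th n) < 0 := by rw [h.val n]; linarith [h.pos n]
  obtain ⟨hb0, hbv⟩ := as_val p (rfl : th n ^ p - th n = th n ^ p - th n) (h.ne n) hv
  have h1 : (Φ (th n) - th n) ^ p - (Φ (th n) - th n) =
      Φ (th n ^ p - th n) - (th n ^ p - th n) := by
    rw [sub_pow_expChar, map_sub, map_pow]
    ring
  have h2 : v.Ge 0 (Φ (th n ^ p - th n) - (th n ^ p - th n)) := by
    have h3 := (hΦ.str n hn).self (h.mem n)
    rw [hbv, h.val n] at h3
    refine h3.mono ?_
    rw [h.nns n]
    linarith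
  refine ⟨as_mem p hk (h.hen n) (sub_mem (hΦ.mem n _ (h.mem n)) (h.mem n)) h1 h2, ?_⟩
  have h3 := (hΦ.str (n + 1) (by omega)).self (h.th_mem n)
  rw [h.val n] at h3
  exact h3.mono (by linarith)

/-- The solutions of `s ^ p = s` of value `> 0`. -/
theorem eq_zero_of_frob [hp : Fact p.Prime] [CharP Ω p] (hk : Ctx0 k v) {s : Ω} (hs : s ^ p = s)
    (h : VPos v s) : s = 0 := by
  obtain ⟨n, rfl⟩ := (mem_bot_iff_intCast p Ω).1 ((Subfield.mem_bot_iff_pow_eq_self Ω p).2 hs)
  exact int_eq_zero hk h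

theorem ASC.margin (h : ASC p v N th u nn) [hp : Fact p.Prime] {n : ℕ} {e : ℝ}
    (he : u n - nn (n + 1) ≤ e) : 0 < nn n + e := by
  rw [h.nns n]
  have h1 : (1 : ℝ) ≤ p := by exact_mod_cast hp.out.one_lt.le
  have h2 := h.pos n
  nlinarith

/-- The union of the tower. -/
theorem ASC.exists_mem_of_iSup (h : ASC p v N th u nn) {a : Ω} (ha : a ∈ ⨆ n, N n) : ∃ n, a ∈ N n := by
  have hdir : Directed (· ≤ ·) N := h.monotone.directed_le
  have h6 : a ∈ ((⨆ n, N n : IntermediateField k Ω) : Set Ω) := ha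
  rw [IntermediateField.coe_iSup_of_directed hdir, Set.mem_iUnion] at h6
  exact h6

/-- Equality of isometric embeddings on the closure of a union. -/
theorem ASC.eq_clI (h : ASC p v N th u nn) {F G : Ω →ₐ[k] Ω} (hF : IsoE v v F)
    (hG : IsoE v v G) (hFG : ∀ n, ∀ a ∈ N n, F a = G a) :
    ∀ a ∈ clI v (⨆ n, N n), F a = G a := by
  intro a ha
  by_contra hne
  obtain ⟨a₀, h0, h2⟩ := (mem_clI.1 ha) (v (F a - G a) + 1)
  have h2' : v.Ge (v (F a - G a) + 1) (a - a₀) := h2
  obtain ⟨n, hn⟩ := h.exists_mem_of_iSup h0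
  have h3 : F a₀ = G a₀ := hFG n a₀ hn
  have h4 : v.Ge (v (F a - G a) + 1) (F a - G a) := by
    have h5 := (hF.ge_iff.2 h2').sub (hG.ge_iff.2 h2')
    rwa [map_sub, map_sub, h3, sub_sub_sub_cancel_right] at h5
  have := h4 (sub_ne_zero.2 hne)
  linarith

theorem isoE_pow (hΦ : IsoE v v Φ) (m : ℕ) : IsoE v v (Φ ^ m) := by
  induction m with
  | zero => exact ⟨fun a _ => rfl⟩
  | succ m ih =>
    refine ⟨fun a ha => ?_⟩
    rw [pow_succ, AlgHom.mul_apply, ih.val _ (IsoE.ne_zero ha), hΦ.val a ha]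

/-- A map of `N (n + 1)` from its values on `N n` and at `θ_n`. -/
theorem ASC.fix_succ (h : ASC p v N th u nn) {F G : Ω →ₐ[k] Ω} {n : ℕ}
    (hN : ∀ a ∈ N n, F a = G a) (hθ : F (th n) = G (th n)) : ∀ a ∈ N (n + 1), F a = G a := by
  have h1 : adj (N n) (th n) ≤ (AlgHom.equalizer F G).toIntermediateField fun x hx => by
      rw [AlgHom.mem_equalizer] at hx ⊢
      rw [map_inv₀, map_inv₀, hx] := D2P.adj_le (fun a ha => hN a ha) hθ
  intro a ha
  rw [h.succ n] at ha
  exact h1 ha

/-- **Fact O, order**: the `p`-th power of a record motion is the identity. -/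
theorem ASC.Mot.pow_eq [hp : Fact p.Prime] [CharP Ω p] [IsAlgClosed Ω] (hk : Ctx0 k v)
    (h : ASC p v N th u nn) (hΦ : ASC.Mot v N th u nn i Φ)
    (hmax : ∀ n, i < n → u n - nn (n + 1) ≤ u i - nn (i + 1)) :
    ∀ a ∈ clI v (⨆ n, N n), Φ^[p] a = a := by
  have hid : ∀ m, ∀ a ∈ N i, (Φ ^ m) a = a := by
    intro m a ha
    induction m with
    | zero => rfl
    | succ m ih => rw [pow_succ, AlgHom.mul_apply, hΦ.fix a ha, ih]
  have key : ∀ n, ∀ a ∈ N n, (Φ ^ p) a = AlgHom.id k Ω a := by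
    intro n
    induction n with
    | zero => exact fun a ha => hid p a (h.monotone (Nat.zero_le i) ha)
    | succ n ih =>
      refine h.fix_succ ih ?_
      change (Φ ^ p) (th n) = th n
      rcases Nat.lt_trichotomy n i with hn | hn | hn
      · exact hid p _ (h.monotone (Nat.succ_le_of_lt hn) (h.th_mem n))
      · subst hn
        obtain ⟨j, hj⟩ := hΦ.int
        have h1 : ∀ m : ℕ, (Φ ^ m) (th n) = th n + m * j := by
          intro m
          induction m with
          | zero => rw [pow_zero, Nat.cast_zero, zero_mul, add_zero]; rfl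
          | succ m ih =>
            rw [pow_succ, AlgHom.mul_apply, hj, map_add, ih, map_intCast]
            push_cast
            ring
        rw [h1 p, CharP.cast_eq_zero, zero_mul, add_zero]
      · obtain ⟨h1, h2⟩ := hΦ.diff hk h hn (hmax n hn)
        have hd := h.margin (hmax n hn)
        have hp1 := hp.out.one_lt
        -- the difference
        have h3 : (Φ ^ p) (th n) - th n = (fun x => Φ x - x)^[p - 1] (Φ (th n) - th n) := by
          have h4 := iterate_sub p Φ (th n)
          obtain ⟨q, hq⟩ : ∃ q, p = q + 1 := ⟨p - 1, by omega⟩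
          have h5 : (Φ ^ p) (th n) = Φ^[p] (th n) := by rw [AlgHom.coe_pow]
          rw [h5, ← h4]
          nth_rw 1 [hq]
          rw [Function.iterate_succ_apply]
          have h6 : q = p - 1 := by omega
          rw [h6]
        have h4 := ((hΦ.str n hn).iterate (hΦ.mem n) h1 h2 (p - 1)).2
        rw [← h3] at h4
        have h5 : VPos v ((Φ ^ p) (th n) - th n) := by
          refine Gt.of_ge (r := 0) h4 ?_
          have h6 : (0 : ℝ) < ((p - 1 : ℕ) : ℝ) := by exact_mod_cast (by omega : 0 < p - 1)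
          have h7 := mul_pos h6 hd
          linarith [hmax n hn]
        have h6 : ((Φ ^ p) (th n) - th n) ^ p = (Φ ^ p) (th n) - th n := by
          have h7 := ih _ (h.mem n)
          change (Φ ^ p) (th n ^ p - th n) = th n ^ p - th n at h7
          rw [map_sub, map_pow] at h7
          rw [sub_pow_expChar]
          linear_combination h7
        exact sub_eq_zero.1 (eq_zero_of_frob hk h6 h5)
  intro a ha
  have h1 := h.eq_clI (isoE_pow hΦ.iso p) (G := AlgHom.id k Ω) ⟨fun a _ => rfl⟩ key a ha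
  rw [AlgHom.coe_pow] at h1
  exact h1

/-- **Fact O, commutation**: the record motions commute. -/
theorem ASC.Mot.comm [hp : Fact p.Prime] [CharP Ω p] [IsAlgClosed Ω] (hk : Ctx0 k v)
    (h : ASC p v N th u nn) (hΦ : ASC.Mot v N th u nn i Φ)
    (hmax : ∀ n, i < n → u n - nn (n + 1) ≤ u i - nn (i + 1))
    (hΦ' : ASC.Mot v N th u nn i' Φ')
    (hmax' : ∀ n, i' < n → u n - nn (n + 1) ≤ u i' - nn (i' + 1)) :
    ∀ a ∈ clI v (⨆ n, N n), Φ (Φ' a) = Φ' (Φ a) := by
  -- the case `n ≤ i`, `n ≤ i'`, by the fixed fields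
  have key : ∀ n, ∀ a ∈ N n, (Φ * Φ') a = (Φ' * Φ) a := by
    intro n
    induction n with
    | zero =>
      intro a ha
      rw [AlgHom.mul_apply, AlgHom.mul_apply, hΦ'.fix a (h.monotone (Nat.zero_le i') ha),
        hΦ.fix a (h.monotone (Nat.zero_le i) ha), hΦ'.fix a (h.monotone (Nat.zero_le i') ha)]
    | succ n ih =>
      refine h.fix_succ ih ?_
      rw [AlgHom.mul_apply, AlgHom.mul_apply]
      -- one of the motions is the identity at `θ_n`
      have hlt : ∀ {i i' : ℕ} {Φ Φ' : Ω →ₐ[k] Ω}, ASC.Mot v N th u nn i Φ →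
          ASC.Mot v N th u nn i' Φ' →
          (∀ n, i < n → u n - nn (n + 1) ≤ u i - nn (i + 1)) →
          n ≤ i' → Φ (Φ' (th n)) = Φ' (Φ (th n)) := by
        intro i i' Φ Φ' hΦ hΦ' hmax hn
        -- `Φ (th n) = th n + ρ`, `ρ ∈ N n`
        have h1 : ∃ ρ ∈ N n, Φ (th n) = th n + ρ := by
          rcases Nat.lt_trichotomy n i with h2 | h2 | h2
          · exact ⟨0, zero_mem _, by
              rw [hΦ.fix _ (h.monotone (Nat.succ_le_of_lt h2) (h.th_mem n)), add_zero]⟩
          · subst h2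
            obtain ⟨j, hj⟩ := hΦ.int
            exact ⟨j, intCast_mem _ _, hj⟩
          · exact ⟨Φ (th n) - th n, (hΦ.diff hk h h2 (hmax n h2)).1, by ring⟩
        obtain ⟨ρ, hρ, h2⟩ := h1
        have h3 : ∃ j : ℤ, Φ' (th n) = th n + j := by
          rcases hn.lt_or_eq with h4 | h4
          · exact ⟨0, by
              rw [hΦ'.fix _ (h.monotone (Nat.succ_le_of_lt h4) (h.th_mem n)), Int.cast_zero,
                add_zero]⟩
          · subst h4
            exact hΦ'.int
        obtain ⟨j, hj⟩ := h3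
        rw [h2, hj, map_add, map_add, h2, hj, hΦ'.fix ρ (h.monotone hn hρ), map_intCast]
        ring
      rcases Nat.lt_or_ge i' n with hn' | hn'
      swap
      · exact hlt hΦ hΦ' hmax hn'
      rcases Nat.lt_or_ge i n with hn | hn
      swap
      · exact (hlt hΦ' hΦ hmax' hn).symm
      -- both motions move `θ_n`
      obtain ⟨h1, h2⟩ := hΦ.diff hk h hn (hmax n hn)
      obtain ⟨h3, h4⟩ := hΦ'.diff hk h hn' (hmax' n hn')
      have hd := h.margin (hmax n hn)
      have hd' := h.margin (hmax' n hn')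
      have h5 := hΦ.str n hn _ h3 _ h4
      have h6 := hΦ'.str n hn' _ h1 _ h2
      have e1 : Φ (Φ' (th n)) - Φ' (Φ (th n)) =
          (Φ (Φ' (th n) - th n) - (Φ' (th n) - th n)) -
            (Φ' (Φ (th n) - th n) - (Φ (th n) - th n)) := by
        rw [map_sub, map_sub]
        ring
      have h7 : VPos v (Φ (Φ' (th n)) - Φ' (Φ (th n))) := by
        rw [e1]
        refine Gt.sub (r := 0) (Gt.of_ge h5 ?_) (Gt.of_ge h6 ?_)
        · linarith [hmax' n hn']
        · linarith [hmax n hn]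
      have h8 : (Φ (Φ' (th n)) - Φ' (Φ (th n))) ^ p = Φ (Φ' (th n)) - Φ' (Φ (th n)) := by
        have h9 := ih _ (h.mem n)
        rw [AlgHom.mul_apply, AlgHom.mul_apply] at h9
        simp only [map_sub, map_pow] at h9
        rw [sub_pow_expChar]
        linear_combination h9
      exact sub_eq_zero.1 (eq_zero_of_frob hk h8 h7)
  intro a ha
  have hm : ∀ {F G : Ω →ₐ[k] Ω}, IsoE v v F → IsoE v v G → IsoE v v (F * G) := fun hF hG =>
    ⟨fun a ha => by rw [AlgHom.mul_apply, hF.val _ (IsoE.ne_zero ha), hG.val a ha]⟩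
  exact h.eq_clI (hm hΦ.iso hΦ'.iso) (hm hΦ'.iso hΦ.iso) key a ha

end Pool.Agent.TWCT
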