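import Pool.Agent.Lib.TWCT.TamQ
import Pool.Agent.Lib.TWCT.Alt2

/-!
# TANK W, contact (III.1), C9: the record

`FXY p v C x y c₀`: `C` is the closure of `k(x, y)`.  `WA v C x` is the closure of the algebraic
closure of `k(x)` in `C`, `tam p v x (WA v C x)` its tame closure.

* `record`: either finitely many reduced steps over the tame base `tb` generate a dense subfield of
  `tam (WA)`, or there is an infinite tower `TamRec`;
* `TamRec.alt`: infinitely many records, or a tight element of `WA v C x` congruent to `x` modulo the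
  `p`-th powers.
-/

set_option autoImplicit false

open Polynomial

namespace Pool.Agent.TWTam

open Pool.Agent.H15JM (RVal)
open Pool.Agent.LU1 (VPos adj)
open Pool.Agent.LUC (Cl clF)
open Pool.Agent.D2 (Ctx0)
open Pool.Agent.D2P
open Pool.Agent.TW (PBasis)
open Pool.Agent.TWM (Cld CompleteV Gt TL cadj Lim Nr' PI algc mem_algc OI)
open Pool.Agent.TWF (algIn mem_algIn)
open Pool.Agent.TWC (Tgt)
open Pool.Agent.TWCT

universe u

variable {k Ω : Type u} [Field k] [Field Ω] [Algebra k Ω] {v : RVal Ω}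

/-- `C` is the closure of `k(x, y)`, `(x, y)` orthogonal up to `c₀`. -/
structure FXY (p : ℕ) (v : RVal Ω) (C : IntermediateField k Ω) (x y : Ω) (c₀ : ℝ) : Prop where
  eq : C = cadj v (cadj v (⊥ : IntermediateField k Ω) x) y
  x0 : x ≠ 0
  vx : v x ≠ 0
  oi : OI p v C ![x, y] c₀

/-- The closure of the algebraic closure of `k(x)` in `C`. -/
noncomputable def WA (v : RVal Ω) (C : IntermediateField k Ω) (x : Ω) : IntermediateField k Ω :=
  clI v (algIn C (adj ⊥ x))

theorem WA.le {C : IntermediateField k Ω} {x : Ω} (hC : Cld v C) : WA v C x ≤ C :=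
  TWC.clI_le' (fun _ ha => (mem_algIn.1 ha).1) hC

theorem WA.cld {C : IntermediateField k Ω} {x : Ω} : Cld v (WA v C x) := TWM.cld_clI v _

theorem WA.mem {C : IntermediateField k Ω} {x : Ω} (hx : x ∈ C) : x ∈ WA v C x :=
  TWC.self_le_clI v _ (mem_algIn.2 ⟨hx, isAlgebraic_of_mem (mem_adj_self _ x).1⟩)

/-- The roots are countable. -/
theorem countable_tr (p : ℕ) (x : Ω) : (TR p x).Countable := by
  classical
  have h1 : TR p x ⊆ ⋃ (n : ℕ) (m : ℤ), {t : Ω | n ≠ 0 ∧ t ^ n = x ^ m} := by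
    rintro t ⟨-, n, hn, m, h1⟩
    rw [Set.mem_iUnion]
    refine ⟨n, ?_⟩
    rw [Set.mem_iUnion]
    refine ⟨m, ?_, h1⟩
    rintro rfl
    exact hn (dvd_zero p)
  refine Set.Countable.mono h1 (Set.countable_iUnion fun n => Set.countable_iUnion fun m => ?_)
  by_cases hn : n = 0
  · refine Set.Finite.countable ?_
    have : {t : Ω | n ≠ 0 ∧ t ^ n = x ^ m} = ∅ := by
      ext t
      simp [hn]
    rw [this]
    exact Set.finite_empty
  · refine Set.Finite.countable (Set.Finite.subset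
      ((X ^ n - Polynomial.C (x ^ m) : Polynomial Ω).roots.toFinset.finite_toSet) ?_)
    rintro t ⟨-, ht⟩
    have h2 : (X ^ n - Polynomial.C (x ^ m) : Polynomial Ω) ≠ 0 :=
      X_pow_sub_C_ne_zero (Nat.pos_of_ne_zero hn) _
    rw [Finset.mem_coe, Multiset.mem_toFinset, mem_roots h2, IsRoot.def, eval_sub, eval_pow, eval_X,
      eval_C, ht, sub_self]

section Tb

variable [IsAlgClosed Ω] [IsAlgClosed k] {p : ℕ} [hp : Fact p.Prime] [CharP k p] {x : Ω}
  (hx : x ≠ 0)

omit [CharP k p] in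
theorem tr_le_tb {t : Ω} (ht : t ∈ TR p x) : t ∈ tb hp.out v k hx := by
  obtain ⟨ht0, n, hn, m, h1⟩ := ht
  have hn0 : 0 < n := Nat.pos_of_ne_zero fun h0 => hn (by rw [h0]; exact dvd_zero p)
  obtain ⟨y, hy⟩ := IsAlgClosed.exists_pow_nat_eq x hn0
  have hy0 : y ≠ 0 := by
    rintro rfl
    rw [zero_pow hn0.ne'] at hy
    exact hx hy.symm
  refine cadj_le_tb hp.out hx ⟨n, hn, hy⟩ ?_
  have hym : (y ^ m) ^ n = x ^ m := by
    rw [← zpow_natCast, ← zpow_mul, mul_comm, zpow_mul, zpow_natCast, hy]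
  have hc : (t / y ^ m) ^ n = 1 := by
    rw [div_pow, h1, hym, div_self (zpow_ne_zero _ hx)]
  obtain ⟨d, hd⟩ := mem_range_of_root (k := k) (a := t / y ^ m) (X ^ n - 1)
    (X_pow_sub_C_ne_zero hn0 1) (by
      rw [map_sub, map_pow, aeval_X, _root_.map_one, hc, sub_self])
  have h2 : t = algebraMap k Ω d * y ^ m := by
    rw [hd, div_mul_cancel₀ _ (zpow_ne_zero _ hy0)]
  rw [h2]
  exact TWC.self_le_clI v _ (mul_mem ((adj (⊥ : IntermediateField k Ω) y).algebraMap_mem d)
    (zpow_mem (mem_adj_self _ y).1 m))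

omit [CharP k p] in
theorem tb_le_tam (B : IntermediateField k Ω) : tb hp.out v k hx ≤ tam p v x B := by
  intro g hg
  obtain ⟨y, ⟨n, hn, hy⟩, h1⟩ := hg
  exact TWM.cadj_le (cld_tam B) bot_le (tr_mem_tam (TR.of_root hn hy hx)) h1

/-- `x` is not a `p`-th power up to values in the tame base. -/
theorem np_tb (h0 : Ctx0 k v) (hxv : v x ≠ 0) : NP p v (tb hp.out v k hx) x := by
  refine ⟨self_le_tb hp.out hx (TWM.self_mem_cadj v _ x), hx, fun g hg hg0 h1 => ?_⟩
  obtain ⟨y, ⟨n, hn, hy⟩, h2⟩ := hg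
  obtain ⟨hn0, hy0, h3, hyv⟩ := root_val hp.out hn hy hx hxv
  obtain ⟨m, hm⟩ := val_cadj_bot h0 hy0 hyv h2 hg0
  have h4 : (n : ℝ) = p * m := by
    have h5 : v y * (n - p * m) = 0 := by
      rw [hm] at h1
      linarith
    rcases mul_eq_zero.1 h5 with h6 | h6
    · exact absurd h6 hyv
    · linarith
  have h5 : (n : ℤ) = p * m := by exact_mod_cast h4
  have h6 : (p : ℤ) ∣ n := ⟨m, h5⟩
  exact hn (by exact_mod_cast h6)

/-- The tame base is separable over the closure of `k(x)`. -/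
theorem sep_tb (hc : CompleteV v) :
    ∀ g ∈ tb hp.out v k hx, IsSeparable (cadj v (⊥ : IntermediateField k Ω) x) g := by
  intro g hg
  obtain ⟨y, ⟨n, hn, hy⟩, h1⟩ := hg
  set A := cadj v (⊥ : IntermediateField k Ω) x with hA
  have hxA : x ∈ A := TWM.self_mem_cadj v _ x
  have hn0 : 0 < n := Nat.pos_of_ne_zero fun h0 => hn (by rw [h0]; exact dvd_zero p)
  have hys : IsSeparable A y := by
    let t : A := ⟨x, hxA⟩
    have ht0 : t ≠ 0 := fun h0 => hx (congrArg Subtype.val h0)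
    have hnA : ((n : ℕ) : A) ≠ 0 := by
      intro h0
      have h1 : ((n : ℕ) : k) ≠ 0 := fun h2 => hn ((CharP.cast_eq_zero_iff k p n).1 h2)
      apply h1
      have h3 : algebraMap k A (n : k) = 0 := by rw [map_natCast, h0]
      exact (map_eq_zero _).1 h3
    have hsep := separable_X_pow_sub_C t hnA ht0
    refine hsep.of_dvd (minpoly.dvd A y ?_)
    rw [map_sub, map_pow, aeval_X, aeval_C, hy]
    exact sub_self _
  have hcl : Cld v (adj A y) := TWM.cld_adj hc (TWM.cld_cadj _ _ _) hys.isIntegral.isAlgebraic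
  have h2 : g ∈ adj A y := TWM.cadj_le hcl bot_le (mem_adj_self A y).1 h1
  exact adj_sep hys g h2

end Tb

section Main

variable [IsAlgClosed Ω] [IsAlgClosed k] {p : ℕ} [hp : Fact p.Prime] [CharP k p] [CharP Ω p]
  {C : IntermediateField k Ω} {x y : Ω} {c₀ : ℝ}

theorem pb_tb (h0 : Ctx0 k v) (hc : CompleteV v) (h : FXY p v C x y c₀) :
    PBasis p (tb hp.out v k h.x0) ![x] := by
  have hxC : x ∈ C := by
    rw [h.eq]
    exact TWM.le_cadj v _ _ (TWM.self_mem_cadj v _ _)
  have hC : Cld v C := by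
    rw [h.eq]
    exact TWM.cld_cadj v _ _
  have hle : cadj v (⊥ : IntermediateField k Ω) x ≤ C := TWM.cadj_le hC bot_le hxC
  have hoi : OI p v C ![x] c₀ := by
    intro c hc b hb α
    rw [TWF.pcomb_one] at hb
    have h1 := TWF.oi_x h.oi (fun i => hc ![i]) hb (α 0)
    have h2 : α = ![α 0] := by
      funext j
      fin_cases j
      rfl
    have h3 : TW.mon (p := p) ![x] α = x ^ (α 0 : ℕ) := by
      rw [TW.mon, Fin.prod_univ_one]
      rfl
    rw [h3]
    rwa [← h2] at h1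
  have h1 : PBasis p (cadj v (⊥ : IntermediateField k Ω) x) ![x] :=
    TWM.pbasis_clI hc (TWF.pb_adj p h0 h.x0 h.vx) (hoi.mono hle le_rfl)
  exact h1.of_sep p (self_le_tb hp.out h.x0) (sep_tb h.x0 hc)

/-- The infinite tower of the tame closure of `WA v C x`. -/
structure TamRec (p : ℕ) (hp : p.Prime) (v : RVal Ω) (C : IntermediateField k Ω) (x : Ω)
    (hx : x ≠ 0) (N : ℕ → IntermediateField k Ω) (th : ℕ → Ω) (nn : ℕ → ℝ) : Prop where
  zero : N 0 = tb hp v k hx
  asc : ASC p v N th (fun i => -v (th i)) nn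
  lim : ∀ ε : ℝ, 0 < ε → ∃ i₁, ∀ i, i₁ ≤ i → nn i < ε
  pb1 : ∀ i, PB1 p (N i) (th i ^ p - th i)
  good : ∀ i, Good p v (N i)
  sep : ∀ i, ∀ g ∈ N i, IsSeparable (N 0) g
  uni : uni v N = tam p v x (WA v C x)
  np : NP p v (N 0) x

/-- **The record.** -/
theorem record (h0 : Ctx0 k v) (hc : CompleteV v) (h : FXY p v C x y c₀) :
    (∃ (m : ℕ) (E : ℕ → IntermediateField k Ω) (θ : ℕ → Ω), E 0 = tb hp.out v k h.x0 ∧
      (∀ i < m, RStep p v (E i) (θ i) (E (i + 1))) ∧
      clI v (E m) = tam p v x (WA v C x)) ∨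
    ∃ (N : ℕ → IntermediateField k Ω) (th : ℕ → Ω) (nn : ℕ → ℝ),
      TamRec p hp.out v C x h.x0 N th nn := by
  have hxC : x ∈ C := by
    rw [h.eq]
    exact TWM.le_cadj v _ _ (TWM.self_mem_cadj v _ _)
  have hC : Cld v C := by
    rw [h.eq]
    exact TWM.cld_cadj v _ _
  set N := tb hp.out v k h.x0 with hN
  set W := tam p v x (WA v C x) with hW
  have hNW : N ≤ W := tb_le_tam h.x0 _
  have hWA : WA v C x ≤ C := WA.le hC
  -- countable type
  have hcnt : (({x, y} : Set Ω) ∪ TR p x).Countable :=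
    Set.Countable.union (Set.Countable.insert _ (Set.countable_singleton _)) (countable_tr p x)
  have hWK : W ≤ clI v (IntermediateField.adjoin k (({x, y} : Set Ω) ∪ TR p x)) := by
    refine TWC.clI_le' (sup_le (hWA.trans ?_) ?_) (TWM.cld_clI v _)
    · rw [h.eq]
      have hsub : ∀ z ∈ (({x, y} : Set Ω) ∪ TR p x),
          z ∈ clI v (IntermediateField.adjoin k (({x, y} : Set Ω) ∪ TR p x)) := fun z hz =>
        TWC.self_le_clI v _ (IntermediateField.subset_adjoin k _ hz)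
      exact TWM.cadj_le (TWM.cld_clI v _) (TWM.cadj_le (TWM.cld_clI v _) bot_le
        (hsub x (Or.inl (Or.inl rfl)))) (hsub y (Or.inl (Or.inr rfl)))
    · refine (IntermediateField.adjoin.mono k _ _ Set.subset_union_right).trans
        (TWC.self_le_clI v _)
  -- the separable part is dense
  set V := algIn C (adj (⊥ : IntermediateField k Ω) x) ⊔ IntermediateField.adjoin k (TR p x)
    with hV
  have hVN : ∀ g ∈ V, IsSeparable N g := by
    have h1 : V ≤ (separableClosure N Ω).restrictScalars k := by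
      refine sup_le (fun g hg => ?_) (IntermediateField.adjoin_le_iff.2 fun g hg => ?_)
      · have h2 := (TWF.pb_W p h0 h.oi h.x0 h.vx hxC).1 g hg
        have h3 : adj (⊥ : IntermediateField k Ω) x ≤ N :=
          (TWC.self_le_clI v _).trans (self_le_tb hp.out h.x0)
        exact mem_separableClosure_iff.2 (isSeparable_mono h3 h2)
      · have h2 : g ∈ N := tr_le_tb h.x0 hg
        exact mem_separableClosure_iff.2 (isSeparable_algebraMap (F := N) (⟨g, h2⟩ : N))
    exact fun g hg => mem_separableClosure_iff.1 (h1 hg)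
  have hVW : V ≤ W := sup_le ((TWC.self_le_clI v _).trans (le_tam _)) (tr_le_tam _)
  have hWV : W ≤ clI v V := by
    refine TWC.clI_le' (sup_le (TWC.clI_mono' le_sup_left) ?_) (TWM.cld_clI v _)
    exact le_sup_right.trans (TWC.self_le_clI v _)
  have hgood : Good p v N := tb_good hp.out h0 h.x0 h.vx
  rcases exists_tower p hp.out h0 hgood hcnt le_rfl hWK hNW with
    ⟨M, hM, hall, m, E, θ, hE0, hEm, hst⟩ | ⟨M, θ, hM0, hB, hst, hall⟩
  · left
    refine ⟨m, E, θ, hE0, hst, ?_⟩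
    rw [hEm]
    refine le_antisymm (TWC.clI_le' hM.leW (cld_tam _)) (hWV.trans ?_)
    refine TWC.clI_le' (fun g hg => hall g (hVW hg) (hVN g hg)) (TWM.cld_clI v _)
  · right
    have hfc : Fact (Ctx0 k v) := ⟨h0⟩
    have hK := tamB_of (p := p) hp.out h0 hc h.x0 hC hxC
    have hpb : ∀ i, PB1 p (M i) (θ i ^ p - θ i) := fun i =>
      (hst i).pb1 ((pb_tb h0 hc h).of_sep p (hB i).le (hB i).sep)
    have hnp : NP p v (M 0) x := by
      rw [hM0]
      exact np_tb h.x0 h0 h.vx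
    have hbd : ∀ i, ∀ g ∈ M i, ¬ Gt v (v x + c₀) (x - g ^ p) := by
      intro i g hg h1
      have h2 : g ∈ tam p v x C := tam_mono hWA ((hB i).leW hg)
      obtain ⟨g', hg', h3⟩ := hK.self.pg hK hxC (c := v x + c₀) ⟨g, h2, h1⟩
      exact bound_of_oi h.oi h.x0 hg' h3
    obtain ⟨nn, hasc, hlim⟩ := ASC.of_steps (fun i => (hB i).good.hen) hst hpb hnp hbd
    refine ⟨M, θ, nn, hM0, hasc, hlim, hpb, fun i => (hB i).good, fun i => ?_, ?_, hnp⟩
    · rw [hM0]
      exact (hB i).sep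
    · refine le_antisymm (TWC.clI_le' (iSup_le fun i => (hB i).leW) (cld_tam _)) (hWV.trans ?_)
      exact TWC.clI_le' (fun g hg => hall g (hVW hg) (hVN g hg)) (TWM.cld_clI v _)

/-- **The alternative.** -/
theorem TamRec.alt (h0 : Ctx0 k v) (hc : CompleteV v) (h : FXY p v C x y c₀)
    {N : ℕ → IntermediateField k Ω} {th : ℕ → Ω} {nn : ℕ → ℝ}
    (hR : TamRec p hp.out v C x h.x0 N th nn) :
    (∀ J, ∃ i, J ≤ i ∧ 0 < -v (th i) - nn (i + 1)) ∨
      ∃ (X : ℕ → Ω) (G : Ω), G ∈ WA v C x ∧ X 0 = x - G ^ p ∧ v (X 0) ≠ 0 ∧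
        Tgt p v (WA v C x) X (v x + nn 0) := by
  have hfc : Fact (Ctx0 k v) := ⟨h0⟩
  have hxC : x ∈ C := by
    rw [h.eq]
    exact TWM.le_cadj v _ _ (TWM.self_mem_cadj v _ _)
  by_cases hd : ∀ J, ∃ i, J ≤ i ∧ 0 < -v (th i) - nn (i + 1)
  · exact Or.inl hd
  right
  push Not at hd
  obtain ⟨i₀, hi₀⟩ := hd
  have hxW : x ∈ WA v C x := WA.mem hxC
  have hK : TamB p v x (WA v C x) := tamB_of hp.out h0 hc h.x0 WA.cld hxW
  obtain ⟨G, hG, e, he, h1, h2⟩ := hR.asc.dec_iter hR.pb1 hR.np i₀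
  rw [zero_add] at hG he h2
  have hGt : G ∈ tam p v x (WA v C x) := by
    rw [← hR.uni]
    exact TWC.self_le_clI v _ (hR.asc.mem_iSup.2 ⟨i₀, hG⟩)
  set G₁ := prT p v x (WA v C x) G with hG₁
  have hG₁W : G₁ ∈ WA v C x := (hK.spec hGt).1
  have he' : e = x - G ^ p := by rw [h1]; ring
  have hpe : prT p v x (WA v C x) e = x - G₁ ^ p := by
    rw [he', hK.prT_sub (le_tam _ hxW) (pow_mem hGt p), hK.prT_self hxW, hK.prT_pow hGt]
  have het : e ∈ tam p v x (WA v C x) := by
    rw [he']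
    exact sub_mem (le_tam _ hxW) (pow_mem hGt p)
  have hd' : ∀ i, i₀ ≤ i → (fun i => -v (th i)) i ≤ nn (i + 1) := fun i hi => by
    have := hi₀ i hi
    show -v (th i) ≤ nn (i + 1)
    linarith
  -- a constant
  obtain ⟨d, hd0⟩ : ∃ d : k, v (x - (G₁ + algebraMap k Ω d) ^ p) ≠ 0 := by
    by_cases hv : v (x - G₁ ^ p) = 0
    · obtain ⟨c, hcr⟩ := h0.residue (f := x - G₁ ^ p) (fun _ => by rw [hv])
      obtain ⟨d, hd⟩ := IsAlgClosed.exists_pow_nat_eq c hp.out.pos
      refine ⟨d, ?_⟩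
      have e1 : x - (G₁ + algebraMap k Ω d) ^ p = x - G₁ ^ p - algebraMap k Ω c := by
        rw [add_pow_char, ← map_pow, hd]
        ring
      rw [e1]
      have h3 : x - G₁ ^ p - algebraMap k Ω c ≠ 0 := by
        intro h4
        have h5 : x = (G₁ + algebraMap k Ω d) ^ p := by
          rw [add_pow_char, ← map_pow, hd]
          linear_combination h4
        have h6 : G₁ + algebraMap k Ω d - G ∈ TWCT.uni v N := by
          rw [hR.uni]
          exact sub_mem (le_tam _ (add_mem hG₁W ((WA v C x).algebraMap_mem d))) hGt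
        refine hR.asc.upper hR.pb1 he h6 ?_
        have h7 : e - (G₁ + algebraMap k Ω d - G) ^ p = 0 := by
          rw [he', sub_pow_char, ← h5]
          ring
        rw [h7]
        exact Gt.zero
      exact (hcr h3).ne'
    · exact ⟨0, by rw [map_zero, add_zero]; exact hv⟩
  set G' := G₁ + algebraMap k Ω d with hG'
  have hG'W : G' ∈ WA v C x := add_mem hG₁W ((WA v C x).algebraMap_mem d)
  -- the element
  have hroot : ∀ z : Ω, ∃ w : Ω, w ^ p = z := fun z => IsAlgClosed.exists_pow_nat_eq z hp.out.pos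
  choose rt hrt using hroot
  have hit : ∀ n, (rt^[n + 1] (x - G' ^ p)) ^ p = rt^[n] (x - G' ^ p) := fun n => by
    rw [Function.iterate_succ_apply']
    exact hrt _
  refine ⟨fun n => rt^[n] (x - G' ^ p), G', hG'W, rfl, hd0, ?_⟩
  refine Tgt.of_pow WA.cld (sub_mem hxW (pow_mem hG'W p)) hit ?_ ?_
  · intro m ε hε
    obtain ⟨g, hg, h3⟩ := hR.asc.near hR.pb1 hR.lim hd' m i₀ le_rfl e he ε hε
    have hgt : g ∈ tam p v x (WA v C x) := by
      rw [← hR.uni]
      exact TWC.self_le_clI v _ hg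
    obtain ⟨δ, hδ⟩ := IsAlgClosed.exists_pow_nat_eq (d ^ p) (pow_pos hp.out.pos m)
    refine ⟨prT p v x (WA v C x) g - algebraMap k Ω δ,
      sub_mem (hK.spec hgt).1 ((WA v C x).algebraMap_mem δ), ?_⟩
    have h4 := hK.prT_ge (sub_mem het (pow_mem hgt _)) h3
    rw [hK.prT_sub het (pow_mem hgt _), hpe, hK.prT_ppow hgt, h2] at h4
    have e1 : x - G' ^ p - (prT p v x (WA v C x) g - algebraMap k Ω δ) ^ p ^ m =
        x - G₁ ^ p - prT p v x (WA v C x) g ^ p ^ m := by
      rw [hG', add_pow_char, sub_pow_char_pow, ← map_pow, ← map_pow, hδ]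
      ring
    show v.Ge _ (x - G' ^ p - _)
    rw [e1]
    exact h4
  · intro g hg h3
    have h4 : G' + g - G ∈ TWCT.uni v N := by
      rw [hR.uni]
      exact sub_mem (le_tam _ (add_mem hG'W hg)) hGt
    refine hR.asc.upper hR.pb1 he h4 ?_
    rw [h2]
    have h5 : e - (G' + g - G) ^ p = x - G' ^ p - g ^ p := by
      rw [he', sub_pow_char, add_pow_char]
      ring
    rw [h5]
    exact h3

/-! ## Divisible values -/

/-- The values of `tam K` are divisible by `p` if the values of `K` are. -/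
theorem TamB.div {K : IntermediateField k Ω} (hK : TamB p v x K)
    (hdiv : ∀ g ∈ K, g ≠ 0 → ∃ g' ∈ K, g' ≠ 0 ∧ v g = p * v g') {g : Ω}
    (hg : g ∈ tam p v x K) (hg0 : g ≠ 0) :
    ∃ g' ∈ tam p v x K, g' ≠ 0 ∧ v g = p * v g' := by
  -- a component with the value of `g`
  obtain ⟨t, ht, htv⟩ : ∃ t ∈ TR p x, ¬ Gt v (v g) (t * prT p v x K (t⁻¹ * g)) := by
    by_contra hcon
    push Not at hcon
    exact lt_irrefl _ (hK.gt_of_comp hg hcon hg0)
  have ht0 := ht.1
  have hm : t⁻¹ * g ∈ tam p v x K := mul_mem (inv_mem (tr_mem_tam ht)) hg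
  set a := prT p v x K (t⁻¹ * g) with ha
  have haK : a ∈ K := (hK.spec hm).1
  have ha0 : a ≠ 0 := by
    intro h0
    rw [h0, mul_zero] at htv
    exact htv Gt.zero
  have h1 : v g = v t + v a := by
    have h2 : v (t * a) ≤ v g := by
      by_contra h3
      push Not at h3
      exact htv fun _ => h3
    have h3 : v.Ge (-v t + v g) a := by
      refine hK.prT_ge hm ?_
      intro h4
      rw [v.map_mul (inv_ne_zero ht0) hg0, v.map_inv ht0]
    have h4 := h3 ha0
    rw [v.map_mul ht0 ha0] at h2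
    linarith
  obtain ⟨u, hu, c, hcK, hc0, huc⟩ := hK.exists_root ht 1
  rw [pow_one] at huc
  obtain ⟨a', ha', ha'0, h2⟩ := hdiv a haK ha0
  obtain ⟨c', hc', hc'0, h3⟩ := hdiv c hcK hc0
  have hu0 := hu.1
  refine ⟨u * a' / c', div_mem (mul_mem (tr_mem_tam hu) (le_tam K ha')) (le_tam K hc'),
    div_ne_zero (mul_ne_zero hu0 ha'0) hc'0, ?_⟩
  have h4 : p * v u = v t + v c := by
    rw [← v.map_mul ht0 hc0, ← huc, v.map_pow hu0]
  rw [v.map_div (mul_ne_zero hu0 ha'0) hc'0, v.map_mul hu0 ha'0, h1, h2]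
  linarith

/-- **The record when the values of `W` are divisible by `p`.** -/
theorem record_inf (h0 : Ctx0 k v) (hc : CompleteV v) (h : FXY p v C x y c₀)
    (hdiv : ∀ g ∈ WA v C x, g ≠ 0 → ∃ g' ∈ WA v C x, g' ≠ 0 ∧ v g = p * v g') :
    ∃ (N : ℕ → IntermediateField k Ω) (th : ℕ → Ω) (nn : ℕ → ℝ),
      TamRec p hp.out v C x h.x0 N th nn := by
  rcases record h0 hc h with ⟨m, E, θ, hE0, hst, hE⟩ | h1
  · exfalso
    have hxC : x ∈ C := by
      rw [h.eq]
      exact TWM.le_cadj v _ _ (TWM.self_mem_cadj v _ _)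
    have hK : TamB p v x (WA v C x) := tamB_of hp.out h0 hc h.x0 WA.cld (WA.mem hxC)
    have hgood : ∀ i ≤ m, Good p v (E i) := by
      intro i
      induction i with
      | zero =>
        intro _
        rw [hE0]
        exact tb_good hp.out h0 h.x0 h.vx
      | succ i ih =>
        intro hi
        exact (hst i (by omega)).good hp.out h0 (ih (by omega))
    obtain ⟨f, hf, hf0, h2⟩ := (hgood m le_rfl).nd
    have hft : f ∈ tam p v x (WA v C x) := by
      rw [← hE]
      exact TWC.self_le_clI v _ hf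
    obtain ⟨g, hg, hg0, h3⟩ := hK.div hdiv hft hf0
    rw [← hE] at hg
    obtain ⟨g', hg', h4⟩ := (mem_clI.1 hg) (v g + 1)
    have h5 := Gt.val_eq hg0 (Gt.of_ge (r := v g) h4 (by linarith))
    exact h2 g' hg' h5.1 (by rw [h5.2, h3])
  · exact h1

end Main

end Pool.Agent.TWTam
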