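import Pool.Agent.Lib.TWCT.RecH
import Pool.Agent.Lib.TWCT.Asm

/-!
# TANK W, contact (III.1): the record gives the data of the tree

* `TamRec.quiet`: infinitely many records: `WA v C x` is quiet (`CS`);
* `ctd_or_tight`: `FXY`, the values of `WA v C x` divisible by `p`, `K` a tower over `WA v C x`:
  a tight element of `WA v C x`, or the data `CTD`.
-/

set_option autoImplicit false

open Polynomial IntermediateField

namespace Pool.Agent.TWTam

open Pool.Agent.H15JM (RVal)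
open Pool.Agent.LU1 (VPos adj)
open Pool.Agent.D2 (Ctx0)
open Pool.Agent.D2P (hen clI mem_clI)
open Pool.Agent.TW (Ctx Full BD HRone LU)
open Pool.Agent.TWM
open Pool.Agent.TWS (IsoE SphC TowR)
open Pool.Agent.TWC (Tgt)
open Pool.Agent.TWF (algIn mem_algIn)
open Pool.Agent.TWCT

universe u

variable {k Ω H : Type u} [Field k] [Field Ω] [Algebra k Ω] [Field H] [Algebra k H]
  {v : RVal Ω} {w : RVal H} {ι : Ω →ₐ[k] H} {p : ℕ} [hp : Fact p.Prime] [CharP k p] [CharP Ω p]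
  [CharP H p] [IsAlgClosed k] [IsAlgClosed Ω] [IsAlgClosed H]

/-- **Infinitely many records: `W` is quiet.** -/
theorem TamRec.quiet (h : IsoE v w ι) (hcv : CompleteV v) (hk : Ctx0 k w)
    (hw : SphC w) (hval : ∀ ρ : ℝ, ∃ x : H, x ≠ 0 ∧ w x = ρ) (hcw : CompleteV w)
    {C : IntermediateField k Ω} {x : Ω} {hx : x ≠ 0} {N : ℕ → IntermediateField k Ω} {th : ℕ → Ω}
    {nn : ℕ → ℝ} (hR : TamRec p hp.out v C x hx N th nn)
    (hinf : ∀ J, ∃ i, J ≤ i ∧ 0 < -v (th i) - nn (i + 1)) :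
    CS p v w ι x (WA v C x) (WA v C x) := by
  obtain ⟨L, h1, h2, h3, h4, h5, h6⟩ := hR.cs h hcv hk hw hval hcw hinf
  rw [tam_map_aux h hcv hp.out hx] at h5 h6
  simp only [tam_map_aux h hcv hp.out hx] at h4
  exact ⟨L, ⟨h1, h2, fun t ht => h3 t ht, h4, h5⟩, h6⟩

/-- The algebraic closure of `k(x)` in `C` has transcendence degree one. -/
theorem trdeg_algIn (h0 : Ctx0 k v) {C : IntermediateField k Ω} {x : Ω} (hx0 : x ≠ 0)
    (hx : v x ≠ 0) (hxC : x ∈ C) :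
    Algebra.trdeg k (algIn C (adj (⊥ : IntermediateField k Ω) x)) = (1 : ℕ) := by
  have hle : adj (⊥ : IntermediateField k Ω) x ≤ algIn C (adj ⊥ x) := fun a ha =>
    mem_algIn.2 ⟨D2P.adj_le bot_le hxC ha, D2P.isAlgebraic_of_mem ha⟩
  rw [← TWC.trdeg_adj_bot h0 hx0 hx]
  exact TW.trdeg_eq_of_alg hle fun a ha => (mem_algIn.1 ha).2

/-- **The data of the tree.** -/
theorem ctd_or_tight (hctx : Ctx k v 1) (hcv : CompleteV v) {K₀ : IntermediateField k Ω}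
    {al : Ω} (hfg : K₀.FG) (hfull : Full v K₀) (htr : Algebra.trdeg k K₀ = (4 : ℕ))
    (hbd : BD p v K₀) (hhr : HRone v K₀) (hal : al ^ p ∈ K₀) (hbda : BD p v (adj K₀ al))
    (hiso : IsoE v w ι) (hc0 : Ctx0 k w) (hcw : CompleteV w) (hsph : SphC w)
    (hval : ∀ ρ : ℝ, ∃ x : H, x ≠ 0 ∧ w x = ρ) {C : IntermediateField k Ω} {x y : Ω} {c₀ : ℝ}
    (hC : FXY p v C x y c₀)
    (hdiv : ∀ g ∈ WA v C x, g ≠ 0 → ∃ g' ∈ WA v C x, g' ≠ 0 ∧ v g = p * v g')
    (htow : TowR v 3 (WA v C x) (clI v K₀)) :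
    (∃ (X : ℕ → Ω) (G : Ω) (r : ℝ), G ∈ WA v C x ∧ X 0 = x - G ^ p ∧ v (X 0) ≠ 0 ∧
      Tgt p v (WA v C x) X r) ∨
    CTD p v w ι x (algIn C (adj ⊥ x)) K₀ al := by
  obtain ⟨N, th, nn, hR⟩ := record_inf hctx.toCtx0 hcv hC hdiv
  have hxC : x ∈ C := by
    rw [hC.eq]
    exact TWM.le_cadj v _ _ (TWM.self_mem_cadj v _ _)
  rcases hR.alt hctx.toCtx0 hcv hC with h1 | ⟨X, G, h1, h2, h3, h4⟩
  · right
    exact
      { ctx := hctx, cpl := hcv, fg := hfg, full := hfull, tr := htr, bd := hbd, hr := hhr,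
        mem := hal, bda := hbda, iso := hiso, c0 := hc0, cw := hcw, sph := hsph, val := hval,
        trW := trdeg_algIn hctx.toCtx0 hC.x0 hC.vx hxC, xW := WA.mem hxC, x0 := hC.x0,
        xv := hC.vx, cs := hR.quiet hiso hcv hc0 hsph hval hcw h1, tow := htow }
  · exact Or.inl ⟨X, G, _, h1, h2, h3, h4⟩

end Pool.Agent.TWTam
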