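import Pool.Agent.Lib.TWCT.RecW
import Pool.Agent.Lib.TWCT.RecCS
import Pool.Agent.Lib.TWC.HandG

/-!
# TANK W, contact (III.1): no tight element: `W` is quiet

* `cs_of_notight`: `W` closed, of countable type, with `p`-basis `t`, algebraic over `k(t)` up to
  closure, with `p`-divisible values and without tight elements: `W` is quiet (`CS`);
* `cs_of_fg`: the same for `W` in the closure of a finitely generated field.
-/

set_option autoImplicit false

open Polynomial IntermediateField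

namespace Pool.Agent.TWTam

open Pool.Agent.H15JM (RVal)
open Pool.Agent.LU1 (VPos adj)
open Pool.Agent.D2 (Ctx0)
open Pool.Agent.D2P (hen clI mem_clI)
open Pool.Agent.TW (Ctx Full BD HRone LU PBasis)
open Pool.Agent.TWM
open Pool.Agent.TWS (IsoE SphC TowR)
open Pool.Agent.TWC (Tgt)
open Pool.Agent.TWS7 (PDiv)
open Pool.Agent.TWF (algIn mem_algIn)
open Pool.Agent.TWCT

universe u

variable {k Ω H : Type u} [Field k] [Field Ω] [Algebra k Ω] [Field H] [Algebra k H]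
  {v : RVal Ω} {w : RVal H} {ι : Ω →ₐ[k] H} {p : ℕ} [hp : Fact p.Prime] [CharP k p] [CharP Ω p]
  [CharP H p] [IsAlgClosed k] [IsAlgClosed Ω] [IsAlgClosed H]

/-- **No tight element: `W` is quiet.** -/
theorem cs_of_notight (h0 : Ctx0 k v) (hcv : CompleteV v) (hiso : IsoE v w ι) (hk : Ctx0 k w)
    (hw : SphC w) (hval : ∀ ρ : ℝ, ∃ x : H, x ≠ 0 ∧ w x = ρ) (hcw : CompleteV w)
    {W : IntermediateField k Ω} {t : Ω} (hW : Cld v W) (ht0 : t ≠ 0) (htv : v t ≠ 0)
    (hpb : PBasis p W ![t]) (hWX : W = clI v (algIn W (adj ⊥ t)))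
    (hS : ∃ S : Set Ω, S.Countable ∧ W ≤ clI v (IntermediateField.adjoin k S))
    (hdiv : PDiv p v W)
    (hno : ∀ (X : ℕ → Ω) (r : ℝ), v (X 0) ≠ 0 → ¬ Tgt p v W X r) :
    CS p v w ι t W W := by
  have hF : FXW p v W t := FXW.of_pb h0 hcv hW ht0 htv hpb hS
  have hWA : WA v W t = W := hWX.symm
  obtain ⟨N, th, nn, hR⟩ := record_inf_w h0 hcv hF (by rw [hWA]; exact hdiv)
  rcases hR.alt_w h0 hcv ht0 hF.mem with h1 | ⟨X, G, -, -, h3, h4⟩
  · have h2 := hR.quiet hiso hcv hk hw hval hcw h1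
    rwa [hWA] at h2
  · rw [hWA] at h4
    exact absurd h4 (hno X _ h3)

/-- **No tight element: `W` is quiet**, inside the closure of a finitely generated field. -/
theorem cs_of_fg (h0 : Ctx0 k v) (hcv : CompleteV v) (hiso : IsoE v w ι) (hk : Ctx0 k w)
    (hw : SphC w) (hval : ∀ ρ : ℝ, ∃ x : H, x ≠ 0 ∧ w x = ρ) (hcw : CompleteV w)
    {W C₁ : IntermediateField k Ω} {t : Ω} (hW : Cld v W) (ht0 : t ≠ 0) (htv : v t ≠ 0)
    (hpb : PBasis p W ![t]) (hWX : W = clI v (algIn W (adj ⊥ t)))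
    (hfg : C₁.FG) (hWC : W ≤ clI v C₁) (hdiv : PDiv p v W)
    (hno : ∀ (X : ℕ → Ω) (r : ℝ), v (X 0) ≠ 0 → ¬ Tgt p v W X r) :
    CS p v w ι t W W := by
  refine cs_of_notight h0 hcv hiso hk hw hval hcw hW ht0 htv hpb hWX ?_ hdiv hno
  obtain ⟨S, hS⟩ := hfg
  exact ⟨S, S.countable_toSet, by rw [hS]; exact hWC⟩

end Pool.Agent.TWTam
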