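import Pool.Agent.Lib.TWCT.Rec
import Pool.Agent.Lib.TWCT.ConS

/-!
# TANK W, contact (III.1): the family of the record in a bigger field

`ι : Ω → H` isometric, `H` spherically complete with all real values.  The infinite tower of
`tam (WA v C x)` with infinitely many records gives a family of strict motions of the image.
-/

set_option autoImplicit false

open Polynomial IntermediateField

namespace Pool.Agent.TWTam

open Pool.Agent.H15JM (RVal)
open Pool.Agent.LU1 (VPos adj)
open Pool.Agent.LUC (Cl clF)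
open Pool.Agent.D2 (Ctx0)
open Pool.Agent.D2P
open Pool.Agent.TWM (Cld CompleteV Gt TL cadj)
open Pool.Agent.TWS
open Pool.Agent.TWCT

universe u

variable {k Ω H : Type u} [Field k] [Field Ω] [Algebra k Ω] [Field H] [Algebra k H]
  {v : RVal Ω} {w : RVal H} {ι : Ω →ₐ[k] H} {p : ℕ}

/-- The image of a tower. -/
theorem asc_map [IsAlgClosed Ω] (h : IsoE v w ι) {N : ℕ → IntermediateField k Ω} {th : ℕ → Ω}
    {u nn : ℕ → ℝ} (hA : ASC p v N th u nn) :
    ASC p w (fun i => (N i).map ι) (fun i => ι (th i)) u nn where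
  hen i := by rw [h.hen_map, hA.hen i]
  mem i := ⟨_, hA.mem i, by
    show ι (th i ^ p - th i) = _
    rw [map_sub, map_pow]⟩
  ne i := IsoE.ne_zero (hA.ne i)
  pos := hA.pos
  val i := by rw [h.val _ (hA.ne i), hA.val i]
  gam i := by
    rintro _ ⟨a, ha, rfl⟩ ha0
    have ha0' : a ≠ 0 := by
      rintro rfl
      exact ha0 (map_zero _)
    show w (ι a) ≠ _
    rw [h.val a ha0']
    exact hA.gam i a ha ha0'
  succ i := by rw [hA.succ i, TWM.Dense.adj_map]
  nn0 := hA.nn0
  nns := hA.nns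

/-- The tame closure of the image. -/
theorem tam_map_aux [IsAlgClosed Ω] (h : IsoE v w ι) (hcv : CompleteV v) (hp : p.Prime) {x : Ω}
    (hx : x ≠ 0) (B : IntermediateField k Ω) :
    tam p w (ι x) (B.map ι) = (tam p v x B).map ι := by
  have h1 : TR p (ι x) = ι '' TR p x := by
    ext t
    constructor
    · rintro ⟨ht0, n, hn, m, h1⟩
      have hn0 : 0 < n := Nat.pos_of_ne_zero fun h0 => hn (by rw [h0]; exact dvd_zero p)
      have halg : IsAlgebraic ((⊤ : IntermediateField k Ω).map ι) t := by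
        refine isAlgebraic_of_pow hn0 ?_
        rw [h1]
        have hxm : ι x ∈ (⊤ : IntermediateField k Ω).map ι := ⟨x, trivial, rfl⟩
        exact isAlgebraic_of_mem (zpow_mem hxm m)
      obtain ⟨s, rfl⟩ := TWM.Dense.exists_of_isAlgebraic halg
      refine ⟨s, ⟨?_, n, hn, m, ?_⟩, rfl⟩
      · rintro rfl
        exact ht0 (map_zero _)
      · refine ι.toRingHom.injective ?_
        show ι (s ^ n) = ι (x ^ m)
        rw [map_pow, map_zpow₀]
        exact h1
    · rintro ⟨s, ⟨hs0, n, hn, m, h1⟩, rfl⟩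
      exact ⟨IsoE.ne_zero hs0, n, hn, m, by rw [← map_pow, h1, map_zpow₀]⟩
  rw [tam, tam, ← h.clI_map hcv, IntermediateField.map_sup, IntermediateField.adjoin_map, h1]

/-- **The family of the record.** -/
theorem TamRec.cs [hp : Fact p.Prime] [CharP k p] [CharP Ω p] [CharP H p] [IsAlgClosed k]
    [IsAlgClosed Ω] [IsAlgClosed H] (h : IsoE v w ι) (hcv : CompleteV v) (hk : Ctx0 k w)
    (hw : SphC w) (hval : ∀ ρ : ℝ, ∃ x : H, x ≠ 0 ∧ w x = ρ) (hcw : CompleteV w)
    {C : IntermediateField k Ω} {x : Ω} {hx : x ≠ 0} {N : ℕ → IntermediateField k Ω} {th : ℕ → Ω}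
    {nn : ℕ → ℝ} (hR : TamRec p hp.out v C x hx N th nn)
    (hinf : ∀ J, ∃ i, J ≤ i ∧ 0 < -v (th i) - nn (i + 1)) :
    ∃ L : ℕ → IntermediateField k H, Monotone L ∧ (∀ J, Cld w (L J)) ∧
      (∀ t ∈ TR p (ι x), t ∈ L 0) ∧ (∀ J, L J ≤ tam p w (ι x) ((WA v C x).map ι)) ∧
      tam p w (ι x) ((WA v C x).map ι) ≤ clI w (⨆ J, L J) ∧
      ConS w L (tam p w (ι x) ((WA v C x).map ι)) (tam p w (ι x) ((WA v C x).map ι)) := by
  have hA := asc_map h hR.asc
  have hU : clI w (⨆ i, (N i).map ι) = tam p w (ι x) ((WA v C x).map ι) := by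
    rw [tam_map_aux h hcv hp.out hx, ← hR.uni, TWCT.uni, ← h.clI_map hcv, IntermediateField.map_iSup]
  have hle : ∀ J, (N J).map ι ≤ clI w ((N J).map ι) := fun J => TWC.self_le_clI w _
  refine ⟨fun J => clI w ((N J).map ι), ?_, fun J => TWM.cld_clI w _, ?_, ?_, ?_, ?_⟩
  · exact fun a b hab => TWC.clI_mono' (hA.monotone hab)
  · intro t ht
    have h1 : TR p (ι x) ⊆ (((N 0).map ι : IntermediateField k H) : Set H) := by
      intro t ht
      have ht' : t ∈ tam p w (ι x) ((⊥ : IntermediateField k Ω).map ι) := tr_mem_tam ht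
      rw [tam_map_aux h hcv hp.out hx] at ht'
      obtain ⟨s, -, hs⟩ := ht'
      have hs' : ι s = t := hs
      refine ⟨s, ?_, hs⟩
      have h2 : s ∈ TR p x := by
        obtain ⟨ht0, n, hn, m, h1⟩ := ht
        refine ⟨?_, n, hn, m, ?_⟩
        · rintro rfl
          exact ht0 (by rw [← hs', map_zero])
        · refine ι.toRingHom.injective ?_
          show ι (s ^ n) = ι (x ^ m)
          rw [map_pow, map_zpow₀, hs']
          exact h1
      show s ∈ N 0
      rw [hR.zero]
      exact tr_le_tb hx h2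
    exact hle 0 (h1 ht)
  · intro J
    rw [← hU]
    exact TWC.clI_mono' (le_iSup (fun i => (N i).map ι) J)
  · rw [← hU]
    exact TWC.clI_mono' (iSup_mono hle)
  · have hcon := hA.conS hk hw hval hcw hinf
    rw [hU] at hcon
    intro J
    obtain ⟨Φ, η, h1, h2⟩ := hcon J
    refine ⟨Φ, η, ⟨h1.pos, h1.iso, fun a ha => ?_, h1.map, h1.str⟩, h2⟩
    exact clI_le_fixF h1.iso (fun b hb => h1.fix b hb) ha

end Pool.Agent.TWTam
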