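import Pool.Agent.Lib.TWCT.Rec

/-!
# TANK W, contact (III.1), C9: the record, over any base

`FXW p v C x`: `C` closed, of countable type, the elements of `C` algebraic over `k(x)` are separable
over `k(x)`, `x` is far from the `p`-th powers of `C`.  `FXW.of_pb`: `C` closed with `p`-basis `x`.

* `record_w`: the record for `WA v C x`; `record_inf_w`: if the values are divisible by `p`;
* `TamRec.alt_w`: infinitely many records, or a tight element.
-/

set_option autoImplicit false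

open Polynomial

namespace Pool.Agent.TWTam

open Pool.Agent.H15JM (RVal)
open Pool.Agent.LU1 (VPos adj)
open Pool.Agent.LUC (Cl clF)
open Pool.Agent.D2 (Ctx0)
open Pool.Agent.D2P
open Pool.Agent.TW (PBasis mon pcomb)
open Pool.Agent.TWM (Cld CompleteV Gt TL cadj Lim Nr' PI algc mem_algc OI)
open Pool.Agent.TWF (algIn mem_algIn)
open Pool.Agent.TWC (Tgt)
open Pool.Agent.TWCT

universe u

variable {k Ω : Type u} [Field k] [Field Ω] [Algebra k Ω] {v : RVal Ω}

/-- The powers of `x` are orthogonal over the `p`-th powers of the closure of `k(x)`. -/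
theorem oi_bot {p : ℕ} [hp : Fact p.Prime] (h0 : Ctx0 k v) {x : Ω} (hx0 : x ≠ 0) (hx : v x ≠ 0) :
    OI p v (cadj v (⊥ : IntermediateField k Ω) x) ![x] 0 := by
  classical
  intro c hc b hb α
  rw [TWF.pcomb_one] at hb
  have h2 : α = ![α 0] := by
    funext j
    fin_cases j
    rfl
  have h3 : mon (p := p) ![x] α = x ^ (α 0 : ℕ) := by
    rw [mon, Fin.prod_univ_one]
    rfl
  rw [h3, sub_zero]
  intro hne
  have hcα : c α ≠ 0 := by
    intro h4
    rw [h4, zero_pow hp.out.ne_zero, zero_mul] at hne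
    exact hne rfl
  set f : Fin p → Ω := fun i => c ![i] ^ p * x ^ (i : ℕ) with hf
  set S := Finset.univ.filter fun i => f i ≠ 0 with hS
  have hαS : α 0 ∈ S := by
    refine Finset.mem_filter.2 ⟨Finset.mem_univ _, ?_⟩
    show c ![α 0] ^ p * x ^ (α 0 : ℕ) ≠ 0
    rw [← h2]
    exact hne
  obtain ⟨m, hmS, hm⟩ := S.exists_min_image (fun i => v (f i)) ⟨α 0, hαS⟩
  have hfm : f m ≠ 0 := (Finset.mem_filter.1 hmS).2
  have hval : ∀ i, f i ≠ 0 → ∃ n : ℤ, v (f i) = (p * n + (i : ℕ)) * v x := by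
    intro i hi
    have h4 : c ![i] ≠ 0 := by
      intro h4
      apply hi
      show c ![i] ^ p * x ^ (i : ℕ) = 0
      rw [h4, zero_pow hp.out.ne_zero, zero_mul]
    obtain ⟨n, hn⟩ := val_cadj_bot h0 hx0 hx (hc ![i]) h4
    refine ⟨n, ?_⟩
    show v (c ![i] ^ p * x ^ (i : ℕ)) = _
    rw [v.map_mul (pow_ne_zero _ h4) (pow_ne_zero _ hx0), v.map_pow h4, v.map_pow hx0, hn]
    ring
  have hdom := sum_dom Finset.univ (Finset.mem_univ m) f hfm fun j _ hj => by
    intro hj0
    refine lt_of_le_of_ne (hm j (Finset.mem_filter.2 ⟨Finset.mem_univ _, hj0⟩)) fun h4 => ?_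
    obtain ⟨n, hn⟩ := hval j hj0
    obtain ⟨n', hn'⟩ := hval m hfm
    rw [hn, hn'] at h4
    have h5 := mul_right_cancel₀ hx h4
    have h6 : (p : ℤ) * n' + (m : ℕ) = p * n + (j : ℕ) := by exact_mod_cast h5
    apply hj
    apply Fin.ext
    have h7 : ((m : ℕ) : ℤ) % p = ((j : ℕ) : ℤ) % p := by
      have h8 := congrArg (fun z : ℤ => z % p) h6
      simpa [Int.add_emod, Int.mul_emod] using h8
    have hm' := m.2
    have hj' := j.2
    rw [Int.emod_eq_of_lt (by positivity) (by exact_mod_cast hm'),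
      Int.emod_eq_of_lt (by positivity) (by exact_mod_cast hj')] at h7
    exact_mod_cast h7.symm
  have h4 : b ≤ v (f m) := by
    rw [← hdom.2]
    exact hb hdom.1
  have h5 := hm (α 0) hαS
  have h6 : v (f (α 0)) = v (c α ^ p * x ^ (α 0 : ℕ)) := by
    show v (c ![α 0] ^ p * x ^ (α 0 : ℕ)) = _
    rw [← h2]
  linarith

/-- The data of the record. -/
structure FXW (p : ℕ) (v : RVal Ω) (C : IntermediateField k Ω) (x : Ω) : Prop where
  cld : Cld v C
  mem : x ∈ C
  x0 : x ≠ 0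
  vx : v x ≠ 0
  ctb : ∃ S : Set Ω, S.Countable ∧ C ≤ clI v (IntermediateField.adjoin k S)
  sep : ∀ g ∈ algIn C (adj (⊥ : IntermediateField k Ω) x),
    IsSeparable (adj (⊥ : IntermediateField k Ω) x) g
  bd : ∃ c : ℝ, ∀ g ∈ C, ¬ Gt v c (x - g ^ p)

section Main

variable [IsAlgClosed Ω] [IsAlgClosed k] {p : ℕ} [hp : Fact p.Prime] [CharP k p] [CharP Ω p]
  {C : IntermediateField k Ω} {x y : Ω} {c₀ : ℝ}

/-- `x` is a `p`-basis of the tame base. -/
theorem pb_tb_w (h0 : Ctx0 k v) (hc : CompleteV v) (hx0 : x ≠ 0) (hx : v x ≠ 0) :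
    PBasis p (tb hp.out v k hx0) ![x] := by
  have h1 : PBasis p (cadj v (⊥ : IntermediateField k Ω) x) ![x] :=
    TWM.pbasis_clI hc (TWF.pb_adj p h0 hx0 hx) (oi_bot h0 hx0 hx)
  exact h1.of_sep p (self_le_tb hp.out hx0) (sep_tb hx0 hc)

/-- A closed field with `p`-basis `x`. -/
theorem FXW.of_pb (h0 : Ctx0 k v) (hc : CompleteV v) (hC : Cld v C) (hx0 : x ≠ 0) (hx : v x ≠ 0)
    (hpb : PBasis p C ![x])
    (hS : ∃ S : Set Ω, S.Countable ∧ C ≤ clI v (IntermediateField.adjoin k S)) :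
    FXW p v C x where
  cld := hC
  mem := hpb.mem 0
  x0 := hx0
  vx := hx
  ctb := hS
  sep := by
    have hxC : x ∈ C := hpb.mem 0
    have hle : adj (⊥ : IntermediateField k Ω) x ≤ algIn C (adj ⊥ x) := fun a ha =>
      mem_algIn.2 ⟨D2P.adj_le bot_le hxC ha, isAlgebraic_algebraMap (⟨a, ha⟩ : adj ⊥ x)⟩
    exact TWM.sep_of_ind (p := p) hle (fun a ha => (mem_algIn.1 ha).2)
      (TWF.pb_adj (k := k) p h0 hx0 hx).span
      fun c hc h1 α => hpb.ind c (fun α => (mem_algIn.1 (hc α)).1) h1 α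
  bd := by
    by_contra hcon
    push Not at hcon
    obtain ⟨r, hr⟩ := IsAlgClosed.exists_pow_nat_eq x hp.out.pos
    -- `r` is in `C`
    have h1 : r ∈ C := by
      refine hC (mem_clI.2 fun b => ?_)
      obtain ⟨g, hg, h2⟩ := hcon (p * b)
      refine ⟨g, hg, ?_⟩
      have h3 : v.Ge b (r - g) := by
        refine (TWC.ge_pow_iff (v := v) hp.out.pos).1 ?_
        rw [sub_pow_char, hr]
        exact fun h4 => (h2 h4).le
      exact h3
    -- not a `p`-basis
    let c : (Fin 1 → Fin p) → Ω := fun α => if (α 0 : ℕ) = 0 then -r else if (α 0 : ℕ) = 1 then 1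
      else 0
    have hcC : ∀ α, c α ∈ C := by
      intro α
      change (if (α 0 : ℕ) = 0 then -r else if (α 0 : ℕ) = 1 then 1 else 0) ∈ C
      split_ifs
      exacts [neg_mem h1, one_mem _, zero_mem _]
    have hp2 := hp.out.two_le
    have h2 : pcomb ![x] c = 0 := by
      rw [TWF.pcomb_one]
      have e : ∀ i : Fin p, c ![i] ^ p * x ^ (i : ℕ) =
          (fun j : ℕ => (if j = 0 then -r else if j = 1 then 1 else 0) ^ p * x ^ j) i := fun i => rfl
      rw [Finset.sum_congr rfl fun i _ => e i, ← Finset.sum_range (fun j : ℕ =>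
        (if j = 0 then -r else if j = 1 then 1 else 0 : Ω) ^ p * x ^ j),
        ← Finset.sum_subset (s₁ := Finset.range 2) (Finset.range_subset_range.2 hp2) fun i _ hi' => ?_]
      · rw [Finset.sum_range_succ, Finset.sum_range_one, if_pos rfl, if_neg one_ne_zero, if_pos rfl,
          one_pow, one_mul, pow_zero, mul_one, pow_one]
        have e2 : (-r) ^ p = -(r ^ p) := map_neg (frobenius Ω p) r
        rw [e2, hr]
        ring
      · have h3 : 2 ≤ i := by
          by_contra h4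
          exact hi' (Finset.mem_range.2 (by omega))
        rw [if_neg (by omega), if_neg (by omega), zero_pow hp.out.ne_zero, zero_mul]
    have h3 := hpb.ind c hcC h2 ![⟨1, by omega⟩]
    change (if (1 : ℕ) = 0 then -r else if (1 : ℕ) = 1 then 1 else 0) = (0 : Ω) at h3
    rw [if_neg one_ne_zero, if_pos rfl] at h3
    exact one_ne_zero h3

/-- **The record.** -/
theorem record_w (h0 : Ctx0 k v) (hc : CompleteV v) (h : FXW p v C x) :
    (∃ (m : ℕ) (E : ℕ → IntermediateField k Ω) (θ : ℕ → Ω), E 0 = tb hp.out v k h.x0 ∧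
      (∀ i < m, RStep p v (E i) (θ i) (E (i + 1))) ∧
      clI v (E m) = tam p v x (WA v C x)) ∨
    ∃ (N : ℕ → IntermediateField k Ω) (th : ℕ → Ω) (nn : ℕ → ℝ),
      TamRec p hp.out v C x h.x0 N th nn := by
  have hxC : x ∈ C := h.mem
  have hC : Cld v C := h.cld
  obtain ⟨S, hS, hCS⟩ := h.ctb
  obtain ⟨c₁, hc₁⟩ := h.bd
  set N := tb hp.out v k h.x0 with hN
  set W := tam p v x (WA v C x) with hW
  have hNW : N ≤ W := tb_le_tam h.x0 _
  have hWA : WA v C x ≤ C := WA.le hC
  -- countable type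
  have hcnt : (S ∪ TR p x).Countable := Set.Countable.union hS (countable_tr p x)
  have hWK : W ≤ clI v (IntermediateField.adjoin k (S ∪ TR p x)) := by
    refine TWC.clI_le' (sup_le (hWA.trans ?_) ?_) (TWM.cld_clI v _)
    · exact hCS.trans (TWC.clI_mono' (IntermediateField.adjoin.mono k _ _ Set.subset_union_left))
    · refine (IntermediateField.adjoin.mono k _ _ Set.subset_union_right).trans
        (TWC.self_le_clI v _)
  -- the separable part is dense
  set V := algIn C (adj (⊥ : IntermediateField k Ω) x) ⊔ IntermediateField.adjoin k (TR p x)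
    with hV
  have hVN : ∀ g ∈ V, IsSeparable N g := by
    have h1 : V ≤ (separableClosure N Ω).restrictScalars k := by
      refine sup_le (fun g hg => ?_) (IntermediateField.adjoin_le_iff.2 fun g hg => ?_)
      · have h2 := h.sep g hg
        have h3 : adj (⊥ : IntermediateField k Ω) x ≤ N :=
          (TWC.self_le_clI v _).trans (self_le_tb hp.out h.x0)
        exact mem_separableClosure_iff.2 (isSeparable_mono h3 h2)
      · have h2 : g ∈ N := tr_le_tb h.x0 hg
        exact mem_separableClosure_iff.2 (isSeparable_algebraMap (F := N) (⟨g, h2⟩ : N))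
    exact fun g hg => mem_separableClosure_iff.1 (h1 hg)
  have hVW : V ≤ W := sup_le ((TWC.self_le_clI v _).trans (le_tam _)) (tr_le_tam _)
  have hWV : W ≤ clI v V := by
    refine TWC.clI_le' (sup_le (TWC.clI_mono' le_sup_left) ?_) (TWM.cld_clI v _)
    exact le_sup_right.trans (TWC.self_le_clI v _)
  have hgood : Good p v N := tb_good hp.out h0 h.x0 h.vx
  rcases exists_tower p hp.out h0 hgood hcnt le_rfl hWK hNW with
    ⟨M, hM, hall, m, E, θ, hE0, hEm, hst⟩ | ⟨M, θ, hM0, hB, hst, hall⟩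
  · left
    refine ⟨m, E, θ, hE0, hst, ?_⟩
    rw [hEm]
    refine le_antisymm (TWC.clI_le' hM.leW (cld_tam _)) (hWV.trans ?_)
    refine TWC.clI_le' (fun g hg => hall g (hVW hg) (hVN g hg)) (TWM.cld_clI v _)
  · right
    have hfc : Fact (Ctx0 k v) := ⟨h0⟩
    have hK := tamB_of (p := p) hp.out h0 hc h.x0 hC hxC
    have hpb : ∀ i, PB1 p (M i) (θ i ^ p - θ i) := fun i =>
      (hst i).pb1 ((pb_tb_w h0 hc h.x0 h.vx).of_sep p (hB i).le (hB i).sep)
    have hnp : NP p v (M 0) x := by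
      rw [hM0]
      exact np_tb h.x0 h0 h.vx
    have hbd : ∀ i, ∀ g ∈ M i, ¬ Gt v c₁ (x - g ^ p) := by
      intro i g hg h1
      have h2 : g ∈ tam p v x C := tam_mono hWA ((hB i).leW hg)
      obtain ⟨g', hg', h3⟩ := hK.self.pg hK hxC (c := c₁) ⟨g, h2, h1⟩
      exact hc₁ g' hg' h3
    obtain ⟨nn, hasc, hlim⟩ := ASC.of_steps (fun i => (hB i).good.hen) hst hpb hnp hbd
    refine ⟨M, θ, nn, hM0, hasc, hlim, hpb, fun i => (hB i).good, fun i => ?_, ?_, hnp⟩
    · rw [hM0]
      exact (hB i).sep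
    · refine le_antisymm (TWC.clI_le' (iSup_le fun i => (hB i).leW) (cld_tam _)) (hWV.trans ?_)
      exact TWC.clI_le' (fun g hg => hall g (hVW hg) (hVN g hg)) (TWM.cld_clI v _)

/-- **The alternative.** -/
theorem TamRec.alt_w (h0 : Ctx0 k v) (hc : CompleteV v) (hx0 : x ≠ 0) (hxC : x ∈ C)
    {N : ℕ → IntermediateField k Ω} {th : ℕ → Ω} {nn : ℕ → ℝ}
    (hR : TamRec p hp.out v C x hx0 N th nn) :
    (∀ J, ∃ i, J ≤ i ∧ 0 < -v (th i) - nn (i + 1)) ∨
      ∃ (X : ℕ → Ω) (G : Ω), G ∈ WA v C x ∧ X 0 = x - G ^ p ∧ v (X 0) ≠ 0 ∧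
        Tgt p v (WA v C x) X (v x + nn 0) := by
  have hfc : Fact (Ctx0 k v) := ⟨h0⟩
  by_cases hd : ∀ J, ∃ i, J ≤ i ∧ 0 < -v (th i) - nn (i + 1)
  · exact Or.inl hd
  right
  push Not at hd
  obtain ⟨i₀, hi₀⟩ := hd
  have hxW : x ∈ WA v C x := WA.mem hxC
  have hK : TamB p v x (WA v C x) := tamB_of hp.out h0 hc hx0 WA.cld hxW
  obtain ⟨G, hG, e, he, h1, h2⟩ := hR.asc.dec_iter hR.pb1 hR.np i₀
  rw [zero_add] at hG he h2
  have hGt : G ∈ tam p v x (WA v C x) := by
    rw [← hR.uni]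
    exact TWC.self_le_clI v _ (hR.asc.mem_iSup.2 ⟨i₀, hG⟩)
  set G₁ := prT p v x (WA v C x) G with hG₁
  have hG₁W : G₁ ∈ WA v C x := (hK.spec hGt).1
  have he' : e = x - G ^ p := by rw [h1]; ring
  have hpe : prT p v x (WA v C x) e = x - G₁ ^ p := by
    rw [he', hK.prT_sub (le_tam _ hxW) (pow_mem hGt p), hK.prT_self hxW, hK.prT_pow hGt]
  have het : e ∈ tam p v x (WA v C x) := by
    rw [he']
    exact sub_mem (le_tam _ hxW) (pow_mem hGt p)
  have hd' : ∀ i, i₀ ≤ i → (fun i => -v (th i)) i ≤ nn (i + 1) := fun i hi => by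
    have := hi₀ i hi
    show -v (th i) ≤ nn (i + 1)
    linarith
  -- a constant
  obtain ⟨d, hd0⟩ : ∃ d : k, v (x - (G₁ + algebraMap k Ω d) ^ p) ≠ 0 := by
    by_cases hv : v (x - G₁ ^ p) = 0
    · obtain ⟨c, hcr⟩ := h0.residue (f := x - G₁ ^ p) (fun _ => by rw [hv])
      obtain ⟨d, hd⟩ := IsAlgClosed.exists_pow_nat_eq c hp.out.pos
      refine ⟨d, ?_⟩
      have e1 : x - (G₁ + algebraMap k Ω d) ^ p = x - G₁ ^ p - algebraMap k Ω c := by
        rw [add_pow_char, ← map_pow, hd]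
        ring
      rw [e1]
      have h3 : x - G₁ ^ p - algebraMap k Ω c ≠ 0 := by
        intro h4
        have h5 : x = (G₁ + algebraMap k Ω d) ^ p := by
          rw [add_pow_char, ← map_pow, hd]
          linear_combination h4
        have h6 : G₁ + algebraMap k Ω d - G ∈ TWCT.uni v N := by
          rw [hR.uni]
          exact sub_mem (le_tam _ (add_mem hG₁W ((WA v C x).algebraMap_mem d))) hGt
        refine hR.asc.upper hR.pb1 he h6 ?_
        have h7 : e - (G₁ + algebraMap k Ω d - G) ^ p = 0 := by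
          rw [he', sub_pow_char, ← h5]
          ring
        rw [h7]
        exact Gt.zero
      exact (hcr h3).ne'
    · exact ⟨0, by rw [map_zero, add_zero]; exact hv⟩
  set G' := G₁ + algebraMap k Ω d with hG'
  have hG'W : G' ∈ WA v C x := add_mem hG₁W ((WA v C x).algebraMap_mem d)
  -- the element
  have hroot : ∀ z : Ω, ∃ w : Ω, w ^ p = z := fun z => IsAlgClosed.exists_pow_nat_eq z hp.out.pos
  choose rt hrt using hroot
  have hit : ∀ n, (rt^[n + 1] (x - G' ^ p)) ^ p = rt^[n] (x - G' ^ p) := fun n => by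
    rw [Function.iterate_succ_apply']
    exact hrt _
  refine ⟨fun n => rt^[n] (x - G' ^ p), G', hG'W, rfl, hd0, ?_⟩
  refine Tgt.of_pow WA.cld (sub_mem hxW (pow_mem hG'W p)) hit ?_ ?_
  · intro m ε hε
    obtain ⟨g, hg, h3⟩ := hR.asc.near hR.pb1 hR.lim hd' m i₀ le_rfl e he ε hε
    have hgt : g ∈ tam p v x (WA v C x) := by
      rw [← hR.uni]
      exact TWC.self_le_clI v _ hg
    obtain ⟨δ, hδ⟩ := IsAlgClosed.exists_pow_nat_eq (d ^ p) (pow_pos hp.out.pos m)
    refine ⟨prT p v x (WA v C x) g - algebraMap k Ω δ,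
      sub_mem (hK.spec hgt).1 ((WA v C x).algebraMap_mem δ), ?_⟩
    have h4 := hK.prT_ge (sub_mem het (pow_mem hgt _)) h3
    rw [hK.prT_sub het (pow_mem hgt _), hpe, hK.prT_ppow hgt, h2] at h4
    have e1 : x - G' ^ p - (prT p v x (WA v C x) g - algebraMap k Ω δ) ^ p ^ m =
        x - G₁ ^ p - prT p v x (WA v C x) g ^ p ^ m := by
      rw [hG', add_pow_char, sub_pow_char_pow, ← map_pow, ← map_pow, hδ]
      ring
    show v.Ge _ (x - G' ^ p - _)
    rw [e1]
    exact h4
  · intro g hg h3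
    have h4 : G' + g - G ∈ TWCT.uni v N := by
      rw [hR.uni]
      exact sub_mem (le_tam _ (add_mem hG'W hg)) hGt
    refine hR.asc.upper hR.pb1 he h4 ?_
    rw [h2]
    have h5 : e - (G' + g - G) ^ p = x - G' ^ p - g ^ p := by
      rw [he', sub_pow_char, add_pow_char]
      ring
    rw [h5]
    exact h3

/-- **The record when the values of `W` are divisible by `p`.** -/
theorem record_inf_w (h0 : Ctx0 k v) (hc : CompleteV v) (h : FXW p v C x)
    (hdiv : ∀ g ∈ WA v C x, g ≠ 0 → ∃ g' ∈ WA v C x, g' ≠ 0 ∧ v g = p * v g') :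
    ∃ (N : ℕ → IntermediateField k Ω) (th : ℕ → Ω) (nn : ℕ → ℝ),
      TamRec p hp.out v C x h.x0 N th nn := by
  rcases record_w h0 hc h with ⟨m, E, θ, hE0, hst, hE⟩ | h1
  · exfalso
    have hxC : x ∈ C := h.mem
    have hK : TamB p v x (WA v C x) := tamB_of hp.out h0 hc h.x0 WA.cld (WA.mem hxC)
    have hgood : ∀ i ≤ m, Good p v (E i) := by
      intro i
      induction i with
      | zero =>
        intro _
        rw [hE0]
        exact tb_good hp.out h0 h.x0 h.vx
      | succ i ih =>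
        intro hi
        exact (hst i (by omega)).good hp.out h0 (ih (by omega))
    obtain ⟨f, hf, hf0, h2⟩ := (hgood m le_rfl).nd
    have hft : f ∈ tam p v x (WA v C x) := by
      rw [← hE]
      exact TWC.self_le_clI v _ hf
    obtain ⟨g, hg, hg0, h3⟩ := hK.div hdiv hft hf0
    rw [← hE] at hg
    obtain ⟨g', hg', h4⟩ := (mem_clI.1 hg) (v g + 1)
    have h5 := Gt.val_eq hg0 (Gt.of_ge (r := v g) h4 (by linarith))
    exact h2 g' hg' h5.1 (by rw [h5.2, h3])
  · exact h1

end Main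

end Pool.Agent.TWTam
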