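import Pool.Agent.Lib.TWCT.Base
import Pool.Agent.Lib.TWCT.Alt0
import Pool.Agent.Lib.D2.TM4b

/-!
# TANK W, contact (III.1): the tame projection

`K` closed, `x ∈ K`.  The closure of the field generated by `K` and the roots of exponent prime to `p`
of the powers of `x` is the orthogonal sum of `K` and of the combinations of the roots whose values are
not values of `K`.
-/

set_option autoImplicit false

open Polynomial

namespace Pool.Agent.TWTam

open Pool.Agent.H15JM (RVal)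
open Pool.Agent.LU1 (VPos adj)
open Pool.Agent.LUC (Cl clF)
open Pool.Agent.D2 (Ctx0)
open Pool.Agent.D2P
open Pool.Agent.TWM (Cld CompleteV Gt)
open Pool.Agent.TWCT (sum_dom)

universe u

variable {k Ω : Type u} [Field k] [Field Ω] [Algebra k Ω] {v : RVal Ω}

/-- The roots of exponent prime to `p` of the powers of `x`. -/
def TR (p : ℕ) (x : Ω) : Set Ω := {t | t ≠ 0 ∧ ∃ n : ℕ, ¬ p ∣ n ∧ ∃ m : ℤ, t ^ n = x ^ m}

/-- The value of `t` is a value of `K`. -/
def InV (v : RVal Ω) (K : IntermediateField k Ω) (t : Ω) : Prop := ∃ g ∈ K, g ≠ 0 ∧ v g = v t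

/-- The closure of the field generated by `B` and the roots. -/
noncomputable def tam (p : ℕ) (v : RVal Ω) (x : Ω) (B : IntermediateField k Ω) :
    IntermediateField k Ω := clI v (B ⊔ IntermediateField.adjoin k (TR p x))

/-- The combinations with coefficients in `F` of the roots whose values are not values of `K`. -/
def TPS (p : ℕ) (v : RVal Ω) (x : Ω) (K F : IntermediateField k Ω) : AddSubgroup Ω :=
  AddSubgroup.closure {g | ∃ a ∈ F, ∃ t ∈ TR p x, ¬ InV v K t ∧ g = a * t}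

section TR

variable {p : ℕ} {x : Ω}

theorem one_mem_tr (hp : p.Prime) : (1 : Ω) ∈ TR p x :=
  ⟨one_ne_zero, 1, fun hd => hp.one_lt.ne' (Nat.dvd_one.1 hd), 0, by simp⟩

theorem TR.mul (hp : p.Prime) (hx : x ≠ 0) {t u : Ω} (ht : t ∈ TR p x) (hu : u ∈ TR p x) :
    t * u ∈ TR p x := by
  obtain ⟨ht0, n, hn, m, h1⟩ := ht
  obtain ⟨hu0, n', hn', m', h2⟩ := hu
  refine ⟨mul_ne_zero ht0 hu0, n * n', fun hd => ?_, m * n' + m' * n, ?_⟩
  · rcases hp.dvd_mul.1 hd with h | h
    exacts [hn h, hn' h]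
  · rw [mul_pow, pow_mul, h1, mul_comm n n', pow_mul, h2, zpow_add₀ hx, zpow_mul, zpow_mul,
      zpow_natCast, zpow_natCast]

theorem TR.inv {t : Ω} (ht : t ∈ TR p x) : t⁻¹ ∈ TR p x := by
  obtain ⟨ht0, n, hn, m, h1⟩ := ht
  exact ⟨inv_ne_zero ht0, n, hn, -m, by rw [inv_pow, h1, zpow_neg]⟩

theorem TR.div (hp : p.Prime) (hx : x ≠ 0) {t u : Ω} (ht : t ∈ TR p x) (hu : u ∈ TR p x) :
    t / u ∈ TR p x := by
  rw [div_eq_mul_inv]
  exact TR.mul hp hx ht (TR.inv hu)

theorem TR.pow {t : Ω} (ht : t ∈ TR p x) (e : ℕ) : t ^ e ∈ TR p x := by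
  obtain ⟨ht0, n, hn, m, h1⟩ := ht
  exact ⟨pow_ne_zero _ ht0, n, hn, m * e, by
    rw [← pow_mul, mul_comm e n, pow_mul, h1, zpow_mul, zpow_natCast]⟩

theorem TR.of_root {y : Ω} {n : ℕ} (hn : ¬ p ∣ n) (hy : y ^ n = x) (hx : x ≠ 0) :
    y ∈ TR p x := by
  refine ⟨?_, n, hn, 1, by rw [hy, zpow_one]⟩
  rintro rfl
  have hn0 : n ≠ 0 := fun h0 => hn (h0 ▸ dvd_zero p)
  rw [zero_pow hn0] at hy
  exact hx hy.symm

end TR

section InV

variable {K : IntermediateField k Ω}

theorem InV.mul {t u : Ω} (ht0 : t ≠ 0) (hu0 : u ≠ 0) (ht : InV v K t) (hu : InV v K u) :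
    InV v K (t * u) := by
  obtain ⟨g, hg, hg0, h1⟩ := ht
  obtain ⟨g', hg', hg0', h2⟩ := hu
  exact ⟨g * g', mul_mem hg hg', mul_ne_zero hg0 hg0', by
    rw [v.map_mul hg0 hg0', v.map_mul ht0 hu0, h1, h2]⟩

theorem InV.inv {t : Ω} (ht0 : t ≠ 0) (ht : InV v K t) : InV v K t⁻¹ := by
  obtain ⟨g, hg, hg0, h1⟩ := ht
  exact ⟨g⁻¹, inv_mem hg, inv_ne_zero hg0, by rw [v.map_inv hg0, v.map_inv ht0, h1]⟩

theorem InV.pow {t : Ω} (ht0 : t ≠ 0) (ht : InV v K t) (n : ℕ) : InV v K (t ^ n) := by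
  obtain ⟨g, hg, hg0, h1⟩ := ht
  exact ⟨g ^ n, pow_mem hg n, pow_ne_zero n hg0, by rw [v.map_pow hg0, v.map_pow ht0, h1]⟩

theorem InV.zpow {t : Ω} (ht0 : t ≠ 0) (ht : InV v K t) (n : ℤ) : InV v K (t ^ n) := by
  obtain ⟨m, rfl | rfl⟩ := n.eq_nat_or_neg
  · rw [zpow_natCast]
    exact ht.pow ht0 m
  · rw [zpow_neg, zpow_natCast]
    exact (ht.pow ht0 m).inv (pow_ne_zero m ht0)

theorem InV.of_mem {t : Ω} (ht0 : t ≠ 0) (ht : t ∈ K) : InV v K t := ⟨t, ht, ht0, rfl⟩

/-- The value of a root is a value of `K` if the value of its `p`-th power is. -/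
theorem InV.of_pow {p : ℕ} (hp : p.Prime) {x t : Ω} (hxK : x ∈ K) (ht : t ∈ TR p x)
    (h : InV v K (t ^ p)) : InV v K t := by
  obtain ⟨ht0, n, hn, m, h1⟩ := ht
  have hco : Nat.Coprime p n := (Nat.Prime.coprime_iff_not_dvd hp).2 hn
  have h2 : InV v K (t ^ n) := InV.of_mem (pow_ne_zero n ht0) (by rw [h1]; exact zpow_mem hxK m)
  have h3 := Nat.gcd_eq_gcd_ab p n
  rw [hco.gcd_eq_one] at h3
  have h4 : t = (t ^ p) ^ (p.gcdA n) * (t ^ n) ^ (p.gcdB n) := by
    rw [← zpow_natCast, ← zpow_natCast, ← zpow_mul, ← zpow_mul, ← zpow_add₀ ht0, ← h3]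
    simp
  rw [h4]
  exact InV.mul (zpow_ne_zero _ (pow_ne_zero _ ht0)) (zpow_ne_zero _ (pow_ne_zero _ ht0))
    (h.zpow (pow_ne_zero _ ht0) _) (h2.zpow (pow_ne_zero _ ht0) _)

end InV

/-- A root whose value is a value of the closed field `K` is in `K`. -/
theorem root_mem [IsAlgClosed Ω] [IsAlgClosed k] {p : ℕ} [CharP k p] (h : Ctx0 k v)
    {K : IntermediateField k Ω} (hK : Cld v K) {x t : Ω} (hxK : x ∈ K) (ht : t ∈ TR p x)
    (hv : InV v K t) : t ∈ K := by
  obtain ⟨ht0, n, hn, m, h1⟩ := ht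
  obtain ⟨g, hg, hg0, h2⟩ := hv
  have hn0 : n ≠ 0 := fun h0 => hn (h0 ▸ dvd_zero p)
  have hnk : ((n : ℕ) : k) ≠ 0 := fun h0 => hn ((CharP.cast_eq_zero_iff k p n).1 h0)
  have h3 : v (t / g) = 0 := by rw [v.map_div ht0 hg0, h2, sub_self]
  obtain ⟨c, hc⟩ := h.residue (f := t / g) (fun _ => by rw [h3])
  have hc0 : c ≠ 0 := by
    rintro rfl
    rw [map_zero, sub_zero] at hc
    have := hc (div_ne_zero ht0 hg0)
    rw [h3] at this
    exact lt_irrefl _ this
  have hcΩ : algebraMap k Ω c ≠ 0 := (_root_.map_ne_zero _).2 hc0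
  have hvc : v (algebraMap k Ω c) = 0 := h.triv c hc0
  set w := t / g / algebraMap k Ω c with hw
  have hw0 : w ≠ 0 := div_ne_zero (div_ne_zero ht0 hg0) hcΩ
  have hw1 : VPos v (w - 1) := by
    have e : w - 1 = (t / g - algebraMap k Ω c) / algebraMap k Ω c := by
      rw [hw]
      field_simp
    rw [e]
    intro h0
    have h4 : t / g - algebraMap k Ω c ≠ 0 := fun h5 => h0 (by rw [h5, zero_div])
    rw [v.map_div h4 hcΩ, hvc, sub_zero]
    exact hc h4
  have hwv : v w = 0 := by rw [hw, v.map_div (div_ne_zero ht0 hg0) hcΩ, h3, hvc, sub_zero]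
  have hwge : v.Ge 0 w := fun _ => by rw [hwv]
  -- the `n`-th power
  have hwn : w ^ n ∈ K := by
    rw [hw, div_pow, div_pow, h1]
    exact div_mem (div_mem (zpow_mem hxK m) (pow_mem hg n)) (pow_mem (K.algebraMap_mem c) n)
  have hε : VPos v (w ^ n - 1) := by
    have e : w ^ n - 1 = (w - 1) * ∑ i ∈ Finset.range n, w ^ i := by
      rw [mul_comm]
      exact (geom_sum_mul w n).symm
    rw [e]
    refine hw1.mul ?_
    refine Finset.sum_induction _ (fun x => v.Ge 0 x) (fun a b ha hb => ha.add hb) RVal.Ge.zero ?_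
    intro i _ _
    rw [v.map_pow hw0, hwv, mul_zero]
  obtain ⟨s, hs, hs0, hsn, hs1⟩ := D2.exists_root_one h n hnk K.toSubfield hε
    (LUC.Cl.subset (show w ^ n - 1 ∈ K from sub_mem hwn (one_mem _)))
  have hsK : s ∈ K := hK (mem_clI.2 hs)
  have hws : (w / s) ^ n = 1 := by
    rw [div_pow, hsn]
    have : (1 : Ω) + (w ^ n - 1) = w ^ n := by ring
    rw [this]
    exact div_self (pow_ne_zero n hw0)
  obtain ⟨d, hd⟩ := mem_range_of_root (k := k) (a := w / s) (X ^ n - 1)
    (X_pow_sub_C_ne_zero (Nat.pos_of_ne_zero hn0) 1) (by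
      rw [map_sub, map_pow, aeval_X, _root_.map_one, hws, sub_self])
  have h6 : t = g * algebraMap k Ω c * (s * algebraMap k Ω d) := by
    rw [hd]
    have h7 : t = g * algebraMap k Ω c * w := by
      rw [hw]
      field_simp
    rw [h7]
    field_simp
  rw [h6]
  exact mul_mem (mul_mem hg (K.algebraMap_mem c)) (mul_mem hsK (K.algebraMap_mem d))

/-! ## Orthogonality -/

/-- The terms of a sum with values in different classes. -/
theorem orth_fin {K : IntermediateField k Ω} (s : Finset Ω) (f : Ω → Ω) (hs0 : ∀ t ∈ s, t ≠ 0)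
    (hs : ∀ t ∈ s, ∀ t' ∈ s, t ≠ t' → ¬ InV v K (t / t')) (hf : ∀ t ∈ s, f t ∈ K) {r : ℝ}
    (h : v.Ge r (∑ t ∈ s, f t * t)) : ∀ t ∈ s, v.Ge r (f t * t) := by
  classical
  set s' := s.filter (fun t => f t ≠ 0) with hs'
  have hsum : ∑ t ∈ s, f t * t = ∑ t ∈ s', f t * t := by
    rw [hs', Finset.sum_filter]
    refine Finset.sum_congr rfl fun t _ => ?_
    split_ifs with h0
    · rfl
    · push Not at h0
      rw [h0, zero_mul]
  rcases s'.eq_empty_or_nonempty with he | hne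
  · intro t ht
    have h0 : f t = 0 := by
      by_contra h0
      have : t ∈ s' := Finset.mem_filter.2 ⟨ht, h0⟩
      rw [he] at this
      exact Finset.notMem_empty _ this
    rw [h0, zero_mul]
    exact RVal.Ge.zero
  obtain ⟨m, hm, hmin⟩ := Finset.exists_min_image s' (fun t => v (f t * t)) hne
  have hms := Finset.mem_filter.1 hm
  have hm0 : f m * m ≠ 0 := mul_ne_zero hms.2 (hs0 m hms.1)
  have hdom := sum_dom s' hm (fun t => f t * t) hm0 (by
    intro j hj hjm
    have hjs := Finset.mem_filter.1 hj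
    intro _
    refine lt_of_le_of_ne (hmin j hj) fun he => ?_
    refine hs j hjs.1 m hms.1 hjm ⟨f m / f j, div_mem (hf m hms.1) (hf j hjs.1),
      div_ne_zero hms.2 hjs.2, ?_⟩
    have h1 : v (f m * m) = v (f j * j) := he
    rw [v.map_mul hms.2 (hs0 m hms.1), v.map_mul hjs.2 (hs0 j hjs.1)] at h1
    rw [v.map_div hms.2 hjs.2, v.map_div (hs0 j hjs.1) (hs0 m hms.1)]
    linarith)
  have hr : r ≤ v (f m * m) := by
    rw [hsum] at h
    have := h hdom.1
    rwa [hdom.2] at this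
  intro t ht
  by_cases h0 : f t = 0
  · rw [h0, zero_mul]
    exact RVal.Ge.zero
  · intro _
    exact hr.trans (hmin t (Finset.mem_filter.2 ⟨ht, h0⟩))

section Rep

variable {p : ℕ} {x : Ω} {K F : IntermediateField k Ω}

/-- A combination of roots in different classes. -/
theorem exists_rep (hp : p.Prime) (hx : x ≠ 0) (hFK : ∀ t ∈ TR p x, InV v K t → t ∈ F)
    {g : Ω} (hg : g ∈ TPS p v x K F) :
    ∃ (s : Finset Ω) (f : Ω → Ω), (∀ t ∈ s, t ∈ TR p x ∧ ¬ InV v K t) ∧
      (∀ t ∈ s, ∀ t' ∈ s, t ≠ t' → ¬ InV v K (t / t')) ∧ (∀ t ∈ s, f t ∈ F) ∧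
      g = ∑ t ∈ s, f t * t := by
  classical
  obtain ⟨l, hl', rfl⟩ : ∃ l : List Ω, (∀ y ∈ l, ∃ a ∈ F, ∃ t ∈ TR p x, ¬ InV v K t ∧ y = a * t) ∧
      l.sum = g := by
    refine AddSubgroup.closure_induction (fun y hy => ⟨[y], fun z hz => ?_, by simp⟩)
      ⟨[], fun z hz => absurd hz List.not_mem_nil, by simp⟩ ?_ ?_ hg
    · rw [List.mem_singleton.1 hz]
      exact hy
    · rintro y z - - ⟨l, h1, rfl⟩ ⟨l', h1', rfl⟩
      refine ⟨l ++ l', fun w hw => ?_, by rw [List.sum_append]⟩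
      rcases List.mem_append.1 hw with h2 | h2
      exacts [h1 w h2, h1' w h2]
    · rintro y - ⟨l, h1, rfl⟩
      refine ⟨l.map (fun z => -z), fun w hw => ?_, ?_⟩
      · obtain ⟨z, hz, rfl⟩ := List.mem_map.1 hw
        obtain ⟨a, ha, t, ht, h2, rfl⟩ := h1 z hz
        exact ⟨-a, neg_mem ha, t, ht, h2, by rw [neg_mul]⟩
      · clear h1
        induction l with
        | nil => simp
        | cons a l ih => rw [List.map_cons, List.sum_cons, List.sum_cons, ih, neg_add]
  clear hg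
  induction l with
  | nil => exact ⟨∅, fun _ => 0, by simp, by simp, by simp, by simp⟩
  | cons y l ih =>
    obtain ⟨s, f, h1, h2, h3, h4⟩ := ih fun z hz => hl' z (List.mem_cons_of_mem _ hz)
    obtain ⟨a, ha, t, ht, htv, rfl⟩ := hl' y List.mem_cons_self
    by_cases hc : ∃ t' ∈ s, InV v K (t / t')
    · obtain ⟨t', ht', hc'⟩ := hc
      have ht'0 : t' ≠ 0 := (h1 t' ht').1.1
      have hb : t / t' ∈ F := hFK _ (TR.div hp hx ht (h1 t' ht').1) hc'
      refine ⟨s, Function.update f t' (f t' + a * (t / t')), h1, h2, ?_, ?_⟩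
      · intro w hw
        by_cases hwt : w = t'
        · rw [hwt, Function.update_self]
          exact add_mem (h3 t' ht') (mul_mem ha hb)
        · rw [Function.update_of_ne hwt]
          exact h3 w hw
      · rw [List.sum_cons, h4, ← Finset.add_sum_erase s _ ht', ← Finset.add_sum_erase s
          (fun w => Function.update f t' (f t' + a * (t / t')) w * w) ht']
        have e : ∑ w ∈ s.erase t', Function.update f t' (f t' + a * (t / t')) w * w =
            ∑ w ∈ s.erase t', f w * w := by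
          refine Finset.sum_congr rfl fun w hw => ?_
          rw [Function.update_of_ne (Finset.ne_of_mem_erase hw)]
        rw [e]
        simp only [Function.update_self]
        field_simp
        ring
    · push Not at hc
      have hts : t ∉ s := by
        intro hts
        refine hc t hts ?_
        rw [div_self ht.1]
        exact InV.of_mem one_ne_zero (one_mem _)
      have hne' : ∀ w ∈ s, w ≠ t := fun w hw h0 => hts (by rw [← h0]; exact hw)
      refine ⟨insert t s, Function.update f t a, ?_, ?_, ?_, ?_⟩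
      · intro w hw
        rcases Finset.mem_insert.1 hw with rfl | hw
        · exact ⟨ht, htv⟩
        · exact h1 w hw
      · intro w hw w' hw' hne
        rcases Finset.mem_insert.1 hw with h7 | h7
        · rcases Finset.mem_insert.1 hw' with h8 | h8
          · exact absurd (h7.trans h8.symm) hne
          · rw [h7]
            exact hc w' h8
        · rcases Finset.mem_insert.1 hw' with h8 | h8
          · rw [h8]
            intro h5
            refine hc w h7 ?_
            have h6 := h5.inv (div_ne_zero (h1 w h7).1.1 ht.1)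
            rwa [inv_div] at h6
          · exact h2 w h7 w' h8 hne
      · intro w hw
        rcases Finset.mem_insert.1 hw with rfl | hw
        · rw [Function.update_self]
          exact ha
        · rw [Function.update_of_ne (hne' w hw)]
          exact h3 w hw
      · rw [List.sum_cons, h4, Finset.sum_insert hts, Function.update_self]
        congr 1
        refine Finset.sum_congr rfl fun w hw => ?_
        rw [Function.update_of_ne (hne' w hw)]

/-- `K` is orthogonal to the combinations. -/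
theorem orth (hp : p.Prime) (hx : x ≠ 0) (hK : ∀ t ∈ TR p x, InV v K t → t ∈ K) {a g : Ω}
    (ha : a ∈ K) (hg : g ∈ TPS p v x K K) {r : ℝ} (h : v.Ge r (a + g)) : v.Ge r a := by
  classical
  obtain ⟨s, f, h1, h2, h3, rfl⟩ := exists_rep hp hx hK hg
  have h1s : (1 : Ω) ∉ s := fun h0 => (h1 1 h0).2 (InV.of_mem one_ne_zero (one_mem _))
  have hne' : ∀ w ∈ s, w ≠ (1 : Ω) := fun w hw h0 => h1s (by rw [← h0]; exact hw)
  have key := orth_fin (K := K) (v := v) (insert 1 s) (Function.update f 1 a) (r := r) ?_ ?_ ?_ ?_ 1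
    (Finset.mem_insert_self _ _)
  · rwa [Function.update_self, mul_one] at key
  · intro t ht
    rcases Finset.mem_insert.1 ht with rfl | ht
    · exact one_ne_zero
    · exact (h1 t ht).1.1
  · intro t ht t' ht' hne
    rcases Finset.mem_insert.1 ht with rfl | ht
    · rcases Finset.mem_insert.1 ht' with rfl | ht'
      · exact absurd rfl hne
      · intro h5
        refine (h1 t' ht').2 ?_
        rw [one_div] at h5
        have h6 := h5.inv (inv_ne_zero (h1 t' ht').1.1)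
        rwa [inv_inv] at h6
    · rcases Finset.mem_insert.1 ht' with rfl | ht'
      · intro h5
        rw [div_one] at h5
        exact (h1 t ht).2 h5
      · exact h2 t ht t' ht' hne
  · intro t ht
    rcases Finset.mem_insert.1 ht with rfl | ht
    · rw [Function.update_self]
      exact ha
    · rw [Function.update_of_ne (hne' t ht)]
      exact h3 t ht
  · rw [Finset.sum_insert h1s, Function.update_self, mul_one]
    have e : ∑ t ∈ s, Function.update f 1 a t * t = ∑ t ∈ s, f t * t := by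
      refine Finset.sum_congr rfl fun w hw => ?_
      rw [Function.update_of_ne (hne' w hw)]
    rw [e]
    exact h

end Rep


/-! ## Combinations -/

section PS1

variable {p : ℕ} {x : Ω} {K F F' : IntermediateField k Ω}

theorem TPS.mono (hF : F ≤ F') : TPS p v x K F ≤ TPS p v x K F' := by
  refine AddSubgroup.closure_mono ?_
  rintro g ⟨a, ha, t, ht, h1, h2⟩
  exact ⟨a, hF ha, t, ht, h1, h2⟩

theorem TPS.mem_mul {a t : Ω} (ha : a ∈ F) (ht : t ∈ TR p x) (h1 : ¬ InV v K t) :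
    a * t ∈ TPS p v x K F := AddSubgroup.subset_closure ⟨a, ha, t, ht, h1, rfl⟩

theorem TPS.smul {a g : Ω} (ha : a ∈ F) (hg : g ∈ TPS p v x K F) : a * g ∈ TPS p v x K F := by
  refine AddSubgroup.closure_induction (p := fun g _ => a * g ∈ TPS p v x K F) ?_ ?_ ?_ ?_ hg
  · rintro g ⟨b, hb, t, ht, h1, rfl⟩
    rw [← mul_assoc]
    exact TPS.mem_mul (mul_mem ha hb) ht h1
  · rw [mul_zero]
    exact zero_mem _
  · intro y z _ _ hy hz
    rw [mul_add]
    exact add_mem hy hz
  · intro y _ hy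
    rw [mul_neg]
    exact neg_mem hy

theorem TPS.pow [hp : Fact p.Prime] [CharP Ω p] (hxK : x ∈ K) {g : Ω} (hg : g ∈ TPS p v x K F) :
    g ^ p ∈ TPS p v x K F := by
  refine AddSubgroup.closure_induction (p := fun g _ => g ^ p ∈ TPS p v x K F) ?_ ?_ ?_ ?_ hg
  · rintro g ⟨b, hb, t, ht, h1, rfl⟩
    rw [mul_pow]
    exact TPS.mem_mul (pow_mem hb p) (TR.pow ht p) fun h2 => h1 (InV.of_pow hp.out hxK ht h2)
  · rw [zero_pow hp.out.pos.ne']
    exact zero_mem _
  · intro y z _ _ hy hz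
    rw [add_pow_char]
    exact add_mem hy hz
  · intro y _ hy
    have e : (-y) ^ p = -y ^ p := by
      have h1 := add_pow_char (p := p) (-y) y
      rw [neg_add_cancel, zero_pow hp.out.pos.ne'] at h1
      exact eq_neg_of_add_eq_zero_left h1.symm
    rw [e]
    exact neg_mem hy

/-- The decomposition of the elements of the algebraic part. -/
theorem exists_dec (hp : p.Prime) (hx : x ≠ 0) (hxF : x ∈ F)
    (hF : ∀ t ∈ TR p x, InV v K t → t ∈ F) {g : Ω}
    (hg : g ∈ F ⊔ IntermediateField.adjoin k (TR p x)) :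
    ∃ a ∈ F, g - a ∈ TPS p v x K F := by
  have halg : ∀ t ∈ TR p x, IsAlgebraic F t := by
    rintro t ⟨ht0, n, hn, m, h1⟩
    have hn0 : n ≠ 0 := by
      rintro rfl
      exact hn (dvd_zero p)
    refine isAlgebraic_of_pow (Nat.pos_of_ne_zero hn0) ?_
    rw [h1]
    exact isAlgebraic_of_mem (zpow_mem hxF m)
  have h1 : g ∈ (IntermediateField.adjoin F (TR p x)) := by
    have h2 : F ⊔ IntermediateField.adjoin k (TR p x) ≤
        (IntermediateField.adjoin F (TR p x)).restrictScalars k := by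
      refine sup_le (fun a ha => ?_) (IntermediateField.adjoin_le_iff.2
        (IntermediateField.subset_adjoin F (TR p x)))
      exact (IntermediateField.adjoin F (TR p x)).algebraMap_mem ⟨a, ha⟩
    exact h2 hg
  have h3 : g ∈ Algebra.adjoin F (TR p x) := by
    rw [← IntermediateField.adjoin_toSubalgebra_of_isAlgebraic halg]
    exact h1
  have h4 : g ∈ Submodule.span F (Submonoid.closure (TR p x) : Set Ω) := by
    rw [← Algebra.adjoin_eq_span]
    exact h3
  have h5 : (Submonoid.closure (TR p x) : Set Ω) ⊆ TR p x := by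
    let S : Submonoid Ω :=
      { carrier := TR p x
        mul_mem' := fun ha hb => TR.mul hp hx ha hb
        one_mem' := one_mem_tr hp }
    exact Submonoid.closure_le (S := S).2 (fun _ h => h)
  refine Submodule.span_induction (p := fun g _ => ∃ a ∈ F, g - a ∈ TPS p v x K F) ?_ ?_ ?_ ?_ h4
  · intro t ht
    have ht' := h5 ht
    by_cases h6 : InV v K t
    · refine ⟨t, hF t ht' h6, ?_⟩
      rw [sub_self]
      exact zero_mem _
    · refine ⟨0, zero_mem _, ?_⟩
      rw [sub_zero, ← one_mul t]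
      exact TPS.mem_mul (one_mem _) ht' h6
  · exact ⟨0, zero_mem _, by rw [sub_zero]; exact zero_mem _⟩
  · rintro y z - - ⟨a, ha, h6⟩ ⟨b, hb, h7⟩
    refine ⟨a + b, add_mem ha hb, ?_⟩
    rw [add_sub_add_comm]
    exact add_mem h6 h7
  · rintro c y - ⟨a, ha, h6⟩
    refine ⟨c * a, mul_mem c.2 ha, ?_⟩
    rw [Algebra.smul_def]
    show (c : Ω) * y - c * a ∈ _
    rw [← mul_sub]
    exact TPS.smul c.2 h6

end PS1

/-! ## The closure -/

/-- The limits of the combinations. -/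
def TPC (p : ℕ) (v : RVal Ω) (x : Ω) (K F : IntermediateField k Ω) : AddSubgroup Ω where
  carrier := {g | ∀ r : ℝ, ∃ g' ∈ TPS p v x K F, v.Ge r (g - g')}
  zero_mem' := fun r => ⟨0, zero_mem _, by rw [sub_zero]; exact RVal.Ge.zero⟩
  add_mem' := fun {a b} ha hb r => by
    obtain ⟨a', h1, h2⟩ := ha r
    obtain ⟨b', h3, h4⟩ := hb r
    refine ⟨a' + b', add_mem h1 h3, ?_⟩
    rw [add_sub_add_comm]
    exact h2.add h4
  neg_mem' := fun {a} ha r => by
    obtain ⟨a', h1, h2⟩ := ha r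
    refine ⟨-a', neg_mem h1, ?_⟩
    have e : -a - -a' = -(a - a') := by ring
    rw [e]
    exact h2.neg


section PC1

variable {p : ℕ} {x : Ω} {K F F' : IntermediateField k Ω}

theorem TPC.of_ps {g : Ω} (hg : g ∈ TPS p v x K F) : g ∈ TPC p v x K F := fun r =>
  ⟨g, hg, by rw [sub_self]; exact RVal.Ge.zero⟩

theorem TPC.mono (hF : F ≤ F') : TPC p v x K F ≤ TPC p v x K F' := fun g hg r => by
  obtain ⟨g', h1, h2⟩ := hg r
  exact ⟨g', TPS.mono hF h1, h2⟩

theorem TPC.closed {g : Ω} (hg : ∀ r : ℝ, ∃ g' ∈ TPC p v x K F, v.Ge r (g - g')) :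
    g ∈ TPC p v x K F := fun r => by
  obtain ⟨g', h1, h2⟩ := hg r
  obtain ⟨g'', h3, h4⟩ := h1 r
  refine ⟨g'', h3, ?_⟩
  have e : g - g'' = (g - g') + (g' - g'') := by ring
  rw [e]
  exact h2.add h4

theorem TPC.smul {a g : Ω} (ha : a ∈ F) (hg : g ∈ TPC p v x K F) : a * g ∈ TPC p v x K F := by
  intro r
  obtain ⟨g', h1, h2⟩ := hg (r - v a)
  refine ⟨a * g', TPS.smul ha h1, ?_⟩
  rw [← mul_sub]
  exact ((RVal.ge_self (v := v) a).mul h2).mono (by linarith)

theorem TPC.pow [hp : Fact p.Prime] [CharP Ω p] (hxK : x ∈ K) {g : Ω} (hg : g ∈ TPC p v x K F) :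
    g ^ p ∈ TPC p v x K F := by
  intro r
  obtain ⟨g', h1, h2⟩ := hg (r / p)
  refine ⟨g' ^ p, TPS.pow hxK h1, ?_⟩
  rw [← sub_pow_char]
  refine (TWM.ge_pow h2 p).mono ?_
  have hp0 : (0 : ℝ) < p := by exact_mod_cast hp.out.pos
  rw [mul_div_cancel₀ _ hp0.ne']

/-- `K` is orthogonal to the limits of the combinations. -/
theorem orth_pc (hp : p.Prime) (hx : x ≠ 0) (hK : ∀ t ∈ TR p x, InV v K t → t ∈ K) {a g : Ω}
    (ha : a ∈ K) (hg : g ∈ TPC p v x K K) {r : ℝ} (h : v.Ge r (a + g)) : v.Ge r a := by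
  obtain ⟨g', h1, h2⟩ := hg r
  refine orth hp hx hK ha h1 ?_
  have e : a + g' = (a + g) - (g - g') := by ring
  rw [e]
  exact h.sub h2

/-- The decomposition. -/
theorem exists_pr (hc : CompleteV v) (hp : p.Prime) (hx : x ≠ 0)
    (hK : ∀ t ∈ TR p x, InV v K t → t ∈ K) (hFK : F ≤ K) (hFc : Cld v F) (hxF : x ∈ F)
    (hF : ∀ t ∈ TR p x, t ∈ K → t ∈ F) {g : Ω} (hg : g ∈ tam p v x F) :
    ∃ a ∈ F, g - a ∈ TPC p v x K F := by
  have hF' : ∀ t ∈ TR p x, InV v F t → t ∈ F := fun t ht h1 =>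
    hF t ht (hK t ht (by
      obtain ⟨g, hg, h2⟩ := h1
      exact ⟨g, hFK hg, h2⟩))
  have hdec : ∀ g ∈ F ⊔ IntermediateField.adjoin k (TR p x), ∃ a ∈ F, g - a ∈ TPS p v x K F := by
    intro g hg
    obtain ⟨a, ha, h1⟩ := exists_dec (v := v) hp hx hxF hF' hg
    -- the classes modulo the values of `F` and of `K`
    suffices h2 : ∀ g ∈ TPS p v x F F, ∃ a ∈ F, g - a ∈ TPS p v x K F by
      obtain ⟨b, hb, h3⟩ := h2 _ h1
      exact ⟨a + b, add_mem ha hb, by rwa [← sub_sub]⟩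
    intro g hg
    refine AddSubgroup.closure_induction (p := fun g _ => ∃ a ∈ F, g - a ∈ TPS p v x K F)
      ?_ ?_ ?_ ?_ hg
    · rintro g ⟨b, hb, t, ht, -, rfl⟩
      by_cases h3 : InV v K t
      · exact ⟨b * t, mul_mem hb (hF t ht (hK t ht h3)), by rw [sub_self]; exact zero_mem _⟩
      · exact ⟨0, zero_mem _, by rw [sub_zero]; exact TPS.mem_mul hb ht h3⟩
    · exact ⟨0, zero_mem _, by rw [sub_zero]; exact zero_mem _⟩
    · rintro y z - - ⟨a, ha, h6⟩ ⟨b, hb, h7⟩
      refine ⟨a + b, add_mem ha hb, ?_⟩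
      rw [add_sub_add_comm]
      exact add_mem h6 h7
    · rintro y - ⟨a, ha, h6⟩
      refine ⟨-a, neg_mem ha, ?_⟩
      have e : -y - -a = -(y - a) := by ring
      rw [e]
      exact neg_mem h6
  have hap : ∀ n : ℕ, ∃ a ∈ F, ∃ w ∈ TPS p v x K F, v.Ge n (g - (a + w)) := by
    intro n
    obtain ⟨g₀, h1, h2⟩ := (mem_clI.1 hg) n
    obtain ⟨a, ha, h3⟩ := hdec g₀ h1
    exact ⟨a, ha, g₀ - a, h3, by rw [add_sub_cancel]; exact h2⟩
  choose a haF w hw hge using hap
  have hcau : ∀ c : ℝ, ∃ N : ℕ, ∀ m n, N ≤ m → N ≤ n → v.Ge c (a m - a n) := by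
    intro c
    obtain ⟨N, hN⟩ := exists_nat_ge c
    refine ⟨N, fun m n hm hn => ?_⟩
    refine orth hp hx hK (sub_mem (hFK (haF m)) (hFK (haF n)))
      (TPS.mono hFK (sub_mem (hw m) (hw n))) ?_
    have e : a m - a n + (w m - w n) = (g - (a n + w n)) - (g - (a m + w m)) := by ring
    rw [e]
    have hm' : (N : ℝ) ≤ m := by exact_mod_cast hm
    have hn' : (N : ℝ) ≤ n := by exact_mod_cast hn
    exact ((hge n).mono (by linarith)).sub ((hge m).mono (by linarith))
  obtain ⟨b, hb⟩ := hc a hcau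
  have hbF : b ∈ F := hFc (mem_clI.2 fun r => by
    obtain ⟨N, hN⟩ := hb r
    exact ⟨a N, haF N, hN N le_rfl⟩)
  refine ⟨b, hbF, fun r => ?_⟩
  obtain ⟨N, hN⟩ := hb r
  obtain ⟨M, hM⟩ := exists_nat_ge r
  refine ⟨w (max N M), hw _, ?_⟩
  have e : g - b - w (max N M) = (g - (a (max N M) + w (max N M))) - (b - a (max N M)) := by ring
  rw [e]
  have hm' : (M : ℝ) ≤ (max N M : ℕ) := by exact_mod_cast le_max_right N M
  exact ((hge _).mono (by linarith)).sub (hN _ (le_max_left _ _))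

end PC1

/-! ## The projection -/

/-- The hypotheses for the projection on `K`. -/
structure TamB (p : ℕ) (v : RVal Ω) (x : Ω) (K : IntermediateField k Ω) : Prop where
  comp : CompleteV v
  pr : p.Prime
  ne : x ≠ 0
  cld : Cld v K
  mem : x ∈ K
  root : ∀ t ∈ TR p x, InV v K t → t ∈ K

/-- The subfields of `K` which are preserved. -/
structure TamS (p : ℕ) (v : RVal Ω) (x : Ω) (K F : IntermediateField k Ω) : Prop where
  le : F ≤ K
  cld : Cld v F
  mem : x ∈ F
  root : ∀ t ∈ TR p x, t ∈ K → t ∈ F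

open Classical in
/-- The projection on `K`. -/
noncomputable def prT (p : ℕ) (v : RVal Ω) (x : Ω) (K : IntermediateField k Ω) (g : Ω) : Ω :=
  if h : ∃ a ∈ K, g - a ∈ TPC p v x K K then h.choose else 0

section Pr

variable {p : ℕ} {x : Ω} {K F : IntermediateField k Ω}

theorem tamB_of [IsAlgClosed Ω] [IsAlgClosed k] [CharP k p] (hp : p.Prime) (h : Ctx0 k v)
    (hc : CompleteV v) (hx : x ≠ 0) (hK : Cld v K) (hxK : x ∈ K) : TamB p v x K :=
  ⟨hc, hp, hx, hK, hxK, fun _ ht hv => root_mem h hK hxK ht hv⟩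

theorem TamB.self (h : TamB p v x K) : TamS p v x K K := ⟨le_rfl, h.cld, h.mem, fun _ _ h1 => h1⟩

theorem TamS.dec (hK : TamB p v x K) (hF : TamS p v x K F) {g : Ω} (hg : g ∈ tam p v x F) :
    ∃ a ∈ F, g - a ∈ TPC p v x K F :=
  exists_pr hK.comp hK.pr hK.ne hK.root hF.le hF.cld hF.mem hF.root hg

/-- Uniqueness. -/
theorem TamB.uniq (hK : TamB p v x K) {g a b : Ω} (ha : a ∈ K) (h1 : g - a ∈ TPC p v x K K)
    (hb : b ∈ K) (h2 : g - b ∈ TPC p v x K K) : a = b := by
  by_contra hne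
  have h3 : b - a ∈ TPC p v x K K := by
    have e : b - a = (g - a) - (g - b) := by ring
    rw [e]
    exact sub_mem h1 h2
  have h4 : a - b ≠ 0 := sub_ne_zero.2 hne
  have h5 := orth_pc hK.pr hK.ne hK.root (sub_mem ha hb) h3 (r := v (a - b) + 1) (by
    rw [sub_add_sub_cancel, sub_self]
    exact RVal.Ge.zero)
  have := h5 h4
  linarith

theorem TamB.prT_eq (hK : TamB p v x K) {g a : Ω} (ha : a ∈ K) (h1 : g - a ∈ TPC p v x K K) :
    prT p v x K g = a := by
  have h : ∃ a ∈ K, g - a ∈ TPC p v x K K := ⟨a, ha, h1⟩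
  rw [prT, dif_pos h]
  exact hK.uniq h.choose_spec.1 h.choose_spec.2 ha h1

theorem TamB.spec (hK : TamB p v x K) {g : Ω} (hg : g ∈ tam p v x K) :
    prT p v x K g ∈ K ∧ g - prT p v x K g ∈ TPC p v x K K := by
  obtain ⟨a, ha, h1⟩ := hK.self.dec hK hg
  rw [hK.prT_eq ha h1]
  exact ⟨ha, h1⟩

theorem TamS.prT_mem (hK : TamB p v x K) (hF : TamS p v x K F) {g : Ω} (hg : g ∈ tam p v x F) :
    prT p v x K g ∈ F ∧ g - prT p v x K g ∈ TPC p v x K F := by
  obtain ⟨a, ha, h1⟩ := hF.dec hK hg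
  rw [hK.prT_eq (hF.le ha) (TPC.mono hF.le h1)]
  exact ⟨ha, h1⟩

theorem TamB.prT_self (hK : TamB p v x K) {a : Ω} (ha : a ∈ K) : prT p v x K a = a :=
  hK.prT_eq ha (by rw [sub_self]; exact zero_mem _)

theorem le_tam (B : IntermediateField k Ω) : B ≤ tam p v x B := fun b hb =>
  mem_clI.2 (LUC.Cl.subset (show b ∈ B ⊔ IntermediateField.adjoin k (TR p x) from
    (le_sup_left : B ≤ _) hb))

theorem tam_mono {B B' : IntermediateField k Ω} (h : B ≤ B') : tam p v x B ≤ tam p v x B' :=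
  TWM.clI_mono (sup_le_sup_right h _)

theorem TamB.prT_add (hK : TamB p v x K) {g g' : Ω} (hg : g ∈ tam p v x K)
    (hg' : g' ∈ tam p v x K) : prT p v x K (g + g') = prT p v x K g + prT p v x K g' := by
  obtain ⟨h1, h2⟩ := hK.spec hg
  obtain ⟨h3, h4⟩ := hK.spec hg'
  refine hK.prT_eq (add_mem h1 h3) ?_
  rw [add_sub_add_comm]
  exact add_mem h2 h4

theorem TamB.prT_sub (hK : TamB p v x K) {g g' : Ω} (hg : g ∈ tam p v x K)
    (hg' : g' ∈ tam p v x K) : prT p v x K (g - g') = prT p v x K g - prT p v x K g' := by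
  obtain ⟨h1, h2⟩ := hK.spec hg
  obtain ⟨h3, h4⟩ := hK.spec hg'
  refine hK.prT_eq (sub_mem h1 h3) ?_
  rw [sub_sub_sub_comm]
  exact sub_mem h2 h4

theorem TamB.prT_mul (hK : TamB p v x K) {a g : Ω} (ha : a ∈ K) (hg : g ∈ tam p v x K) :
    prT p v x K (a * g) = a * prT p v x K g := by
  obtain ⟨h1, h2⟩ := hK.spec hg
  refine hK.prT_eq (mul_mem ha h1) ?_
  rw [← mul_sub]
  exact TPC.smul ha h2

theorem TamB.prT_pow [Fact p.Prime] [CharP Ω p] (hK : TamB p v x K) {g : Ω}
    (hg : g ∈ tam p v x K) : prT p v x K (g ^ p) = prT p v x K g ^ p := by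
  obtain ⟨h1, h2⟩ := hK.spec hg
  refine hK.prT_eq (pow_mem h1 p) ?_
  rw [← sub_pow_char]
  exact TPC.pow hK.mem h2

theorem TamB.prT_ge (hK : TamB p v x K) {g : Ω} (hg : g ∈ tam p v x K) {r : ℝ} (h : v.Ge r g) :
    v.Ge r (prT p v x K g) := by
  obtain ⟨h1, h2⟩ := hK.spec hg
  refine orth_pc hK.pr hK.ne hK.root h1 h2 ?_
  rw [add_sub_cancel]
  exact h

theorem TamB.prT_gt (hK : TamB p v x K) {g : Ω} (hg : g ∈ tam p v x K) {r : ℝ} (h : Gt v r g) :
    Gt v r (prT p v x K g) := by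
  intro h0
  by_cases hg0 : g = 0
  · exact absurd (by rw [hg0]; exact hK.prT_self (zero_mem K)) h0
  exact lt_of_lt_of_le (h hg0) (hK.prT_ge hg (RVal.ge_self g) h0)

end Pr

end Pool.Agent.TWTam
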